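import Mathlib

/-! Linear algebra of Hodge-Riemann relations: definitions (MP_d9d356_co, part C). -/

namespace KLFin

variable {V : Type*} [AddCommGroup V] [Module ℝ V]

/-- A graded self-dual real vector space `(Vi, F)` centred at `d/2` with a Lefschetz operator `L`. -/
structure LefSp (Vi : ℕ → Submodule ℝ V) (d : ℕ) (L : V →ₗ[ℝ] V) (F : V →ₗ[ℝ] V →ₗ[ℝ] ℝ) :
    Prop where
  deg : ∀ i, ∀ u ∈ Vi i, L u ∈ Vi (i + 1)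
  top : ∀ i, d < i → Vi i = ⊥
  symm : ∀ u v, F u v = F v u
  adj : ∀ u v, F (L u) v = F u (L v)
  nondeg : ∀ i ≤ d, ∀ u ∈ Vi i, (∀ v ∈ Vi (d - i), F u v = 0) → u = 0

/-- hard Lefschetz (injectivity) -/
def HLef (Vi : ℕ → Submodule ℝ V) (d : ℕ) (L : V →ₗ[ℝ] V) : Prop :=
  ∀ i, 2 * i ≤ d → ∀ u ∈ Vi i, (L ^ (d - 2 * i)) u = 0 → u = 0

/-- Hodge-Riemann relations -/
def HRie (Vi : ℕ → Submodule ℝ V) (d : ℕ) (L : V →ₗ[ℝ] V) (F : V →ₗ[ℝ] V →ₗ[ℝ] ℝ) : Prop :=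
  ∀ i, 2 * i ≤ d → ∀ u ∈ Vi i, (L ^ (d - 2 * i + 1)) u = 0 → u ≠ 0 →
    0 < (-1 : ℝ) ^ i * F u ((L ^ (d - 2 * i)) u)

/-- the grading of `V ⊗ H^*(P^1)` written as `V × V` -/
def tensVi (Vi : ℕ → Submodule ℝ V) : ℕ → Submodule ℝ (V × V)
  | 0 => (Vi 0).prod ⊥
  | (i + 1) => (Vi (i + 1)).prod (Vi i)

/-- the operator `(a,b) ↦ (L a, L b + T a)` -/
def tensL (L T : V →ₗ[ℝ] V) : V × V →ₗ[ℝ] V × V :=
  (L.comp (LinearMap.fst ℝ V V)).prod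
    (L.comp (LinearMap.snd ℝ V V) + T.comp (LinearMap.fst ℝ V V))

@[simp] theorem tensL_apply (L T : V →ₗ[ℝ] V) (u : V × V) :
    tensL L T u = (L u.1, L u.2 + T u.1) := rfl

/-- the form `K(a,a') + 2 (F(a,b') + F(b,a'))` -/
noncomputable def tensF (F K : V →ₗ[ℝ] V →ₗ[ℝ] ℝ) : V × V →ₗ[ℝ] V × V →ₗ[ℝ] ℝ :=
  LinearMap.mk₂ ℝ (fun u v => K u.1 v.1 + 2 * (F u.1 v.2 + F u.2 v.1))
    (by intro a b c; simp; ring) (by intro a b c; simp; ring)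
    (by intro a b c; simp; ring) (by intro a b c; simp; ring)

@[simp] theorem tensF_apply (F K : V →ₗ[ℝ] V →ₗ[ℝ] ℝ) (u v : V × V) :
    tensF F K u v = K u.1 v.1 + 2 * (F u.1 v.2 + F u.2 v.1) := rfl

end KLFin
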