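import Mathlib
import Pool.Agent.KLFin.LADefs

/-! LA1: Hodge-Riemann relations are preserved in a continuous family with hard Lefschetz
(MP_d9d356_co, part C). -/

namespace KLFin

open Module Filter Topology

section Sig

variable {E : Type*} [AddCommGroup E] [Module ℝ E] [FiniteDimensional ℝ E]

/-- subspaces of big dimension meet -/
theorem exists_mem_inf_ne_zero {A B C : Submodule ℝ E} (hA : A ≤ C) (hB : B ≤ C)
    (h : finrank ℝ C < finrank ℝ A + finrank ℝ B) : ∃ x ∈ A, x ∈ B ∧ x ≠ 0 := by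
  by_contra hne
  push Not at hne
  have hinf : A ⊓ B = ⊥ := by
    rw [eq_bot_iff]
    intro x hx
    rw [Submodule.mem_bot]
    exact hne x hx.1 hx.2
  have h1 := Submodule.finrank_sup_add_finrank_inf_eq A B
  rw [hinf, finrank_bot] at h1
  have h2 := Submodule.finrank_mono (sup_le hA hB)
  omega

/-- positive definiteness on a fixed subspace is an open condition -/
theorem eventually_posDef {X : Type*} [TopologicalSpace X] (B : X → E →ₗ[ℝ] E →ₗ[ℝ] ℝ)
    (hc : ∀ u v, Continuous fun t => B t u v) (W : Submodule ℝ E) (t₁ : X)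
    (hpos : ∀ u ∈ W, u ≠ 0 → 0 < B t₁ u u) :
    ∀ᶠ t in 𝓝 t₁, ∀ u ∈ W, u ≠ 0 → 0 < B t u u := by
  classical
  set b := finBasis ℝ W with hb
  set n := finrank ℝ W
  have hcomb : ∀ (x : Fin n → ℝ) (t : X), B t (∑ i, x i • (b i : E)) (∑ i, x i • (b i : E)) =
      ∑ i, ∑ j, x i * x j * B t (b i) (b j) := by
    intro x t
    simp only [map_sum, map_smul, LinearMap.sum_apply, LinearMap.smul_apply, smul_eq_mul,
      Finset.mul_sum]
    rw [Finset.sum_comm]
    apply Finset.sum_congr rfl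
    intro i _
    apply Finset.sum_congr rfl
    intro j _
    ring
  have hsph : ∀ᶠ t in 𝓝 t₁, ∀ x ∈ Metric.sphere (0 : Fin n → ℝ) 1,
      0 < ∑ i, ∑ j, x i * x j * B t (b i) (b j) := by
    apply (isCompact_sphere (0 : Fin n → ℝ) 1).eventually_forall_of_forall_eventually
    intro y hy
    have hcont : Continuous (fun z : X × (Fin n → ℝ) =>
        ∑ i, ∑ j, z.2 i * z.2 j * B z.1 (b i) (b j)) := by
      apply continuous_finsetSum
      intro i _
      apply continuous_finsetSum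
      intro j _
      exact (((continuous_apply i).comp continuous_snd).mul
        ((continuous_apply j).comp continuous_snd)).mul ((hc (b i) (b j)).comp continuous_fst)
    have h0 : 0 < ∑ i, ∑ j, y i * y j * B t₁ (b i) (b j) := by
      rw [← hcomb]
      apply hpos
      · exact Submodule.sum_mem _ fun i _ => Submodule.smul_mem _ _ (b i).2
      · intro h
        have h' : ∑ i, y i • b i = 0 := by
          apply Subtype.ext
          simpa using h
        have h2 : y = 0 := by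
          funext i
          exact Fintype.linearIndependent_iff.mp b.linearIndependent y h' i
        rw [h2] at hy
        simp at hy
    have := hcont.continuousAt (x := (t₁, y))
    exact this.eventually (lt_mem_nhds h0)
  filter_upwards [hsph] with t ht u hu hu0
  set x : Fin n → ℝ := fun i => b.repr ⟨u, hu⟩ i with hx
  have hsum : u = ∑ i, x i • (b i : E) := by
    have := congrArg W.subtype (b.sum_repr ⟨u, hu⟩)
    rw [map_sum] at this
    simp only [map_smul, Submodule.subtype_apply] at this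
    exact this.symm
  have hx0 : x ≠ 0 := by
    intro h
    apply hu0
    rw [hsum, h]
    simp
  have hn : 0 < ‖x‖ := norm_pos_iff.mpr hx0
  have hmem : (‖x‖⁻¹ • x) ∈ Metric.sphere (0 : Fin n → ℝ) 1 := by
    rw [mem_sphere_zero_iff_norm, norm_smul, norm_inv, norm_norm, inv_mul_cancel₀ hn.ne']
  have h1 := ht _ hmem
  have h2 : ∑ i, ∑ j, (‖x‖⁻¹ • x) i * (‖x‖⁻¹ • x) j * B t (b i) (b j) =
      ‖x‖⁻¹ ^ 2 * ∑ i, ∑ j, x i * x j * B t (b i) (b j) := by
    rw [Finset.mul_sum]
    apply Finset.sum_congr rfl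
    intro i _
    rw [Finset.mul_sum]
    apply Finset.sum_congr rfl
    intro j _
    simp only [Pi.smul_apply, smul_eq_mul]
    ring
  rw [h2] at h1
  rw [hsum, hcomb]
  exact pos_of_mul_pos_right h1 (by positivity)

/-- a nondegenerate symmetric form is positive definite on `P` and negative definite on `N` with
`dim P + dim N = dim E` -/
theorem exists_pos_neg (B : E →ₗ[ℝ] E →ₗ[ℝ] ℝ) (hs : ∀ u v, B u v = B v u)
    (hn : ∀ u, (∀ v, B u v = 0) → u = 0) :
    ∃ P N : Submodule ℝ E, finrank ℝ P + finrank ℝ N = finrank ℝ E ∧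
      (∀ u ∈ P, u ≠ 0 → 0 < B u u) ∧ (∀ u ∈ N, u ≠ 0 → B u u < 0) := by
  classical
  have : Invertible (2 : ℝ) := invertibleOfNonzero two_ne_zero
  obtain ⟨v, hv⟩ := LinearMap.BilinForm.exists_orthogonal_basis (K := ℝ) (V := E) (B := B)
    ⟨fun u w => by simpa using hs u w⟩
  have hort : ∀ i j, i ≠ j → B (v i) (v j) = 0 := fun i j hij => hv hij
  have hself : ∀ u : E, B u u = ∑ i, (v.repr u i) ^ 2 * B (v i) (v i) := by
    intro u
    conv_lhs => rw [← v.sum_repr u]
    simp only [map_sum, map_smul, LinearMap.sum_apply, LinearMap.smul_apply, smul_eq_mul]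
    apply Finset.sum_congr rfl
    intro i _
    rw [Finset.sum_eq_single i]
    · ring
    · intro j _ hj
      rw [hort j i hj]
      simp
    · intro h
      exact absurd (Finset.mem_univ i) h
  have hne : ∀ i, B (v i) (v i) ≠ 0 := by
    intro i hi
    have : v i = 0 := by
      apply hn
      intro w
      rw [← v.sum_repr w]
      simp only [map_sum, map_smul, smul_eq_mul]
      apply Finset.sum_eq_zero
      intro j _
      by_cases hij : i = j
      · subst hij
        rw [hi, mul_zero]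
      · rw [hort i j hij, mul_zero]
    exact v.ne_zero i this
  have hfr : ∀ S : Finset (Fin (finrank ℝ E)),
      finrank ℝ (Submodule.span ℝ (v '' (S : Set (Fin (finrank ℝ E))))) = S.card := by
    intro S
    have hli : LinearIndependent ℝ (fun i : S => v i.1) :=
      v.linearIndependent.comp _ Subtype.val_injective
    have h1 := finrank_span_eq_card hli
    have h2 : Set.range (fun i : S => v i.1) = v '' (S : Set (Fin (finrank ℝ E))) := by
      ext y
      simp
    rw [h2] at h1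
    simpa using h1
  have hmem : ∀ (S : Finset (Fin (finrank ℝ E))) (u : E),
      u ∈ Submodule.span ℝ (v '' (S : Set (Fin (finrank ℝ E)))) → ∀ i, i ∉ S →
        v.repr u i = 0 := by
    intro S u hu i hi
    rw [v.mem_span_image] at hu
    by_contra hne'
    exact hi (hu (by simpa using hne'))
  set P := Finset.univ.filter (fun i => 0 < B (v i) (v i)) with hP
  set N := Finset.univ.filter (fun i => B (v i) (v i) < 0) with hN
  refine ⟨Submodule.span ℝ (v '' (P : Set (Fin (finrank ℝ E)))),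
    Submodule.span ℝ (v '' (N : Set (Fin (finrank ℝ E)))), ?_, ?_, ?_⟩
  · rw [hfr, hfr]
    have hdisj : Disjoint P N := by
      rw [Finset.disjoint_left]
      intro i h1 h2
      simp only [hP, hN, Finset.mem_filter, Finset.mem_univ, true_and] at h1 h2
      linarith
    have huni : P ∪ N = Finset.univ := by
      ext i
      simp only [hP, hN, Finset.mem_union, Finset.mem_filter, Finset.mem_univ, true_and, iff_true]
      rcases lt_trichotomy (B (v i) (v i)) 0 with h | h | h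
      · exact Or.inr h
      · exact absurd h (hne i)
      · exact Or.inl h
    rw [← Finset.card_union_of_disjoint hdisj, huni]
    simp
  · intro u hu hu0
    have hz := hmem P u hu
    obtain ⟨i, hi⟩ : ∃ i, v.repr u i ≠ 0 := by
      by_contra h
      push Not at h
      apply hu0
      rw [← v.sum_repr u]
      simp [h]
    rw [hself]
    apply Finset.sum_pos'
    · intro j _
      by_cases hj : j ∈ P
      · have : 0 < B (v j) (v j) := by simpa [hP] using hj
        positivity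
      · rw [hz j hj]; simp
    · refine ⟨i, Finset.mem_univ _, ?_⟩
      have hiP : i ∈ P := by
        by_contra h
        exact hi (hz i h)
      have : 0 < B (v i) (v i) := by simpa [hP] using hiP
      positivity
  · intro u hu hu0
    have hz := hmem N u hu
    obtain ⟨i, hi⟩ : ∃ i, v.repr u i ≠ 0 := by
      by_contra h
      push Not at h
      apply hu0
      rw [← v.sum_repr u]
      simp [h]
    rw [hself]
    rw [← neg_pos, ← Finset.sum_neg_distrib]
    apply Finset.sum_pos'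
    · intro j _
      by_cases hj : j ∈ N
      · have : B (v j) (v j) < 0 := by simpa [hN] using hj
        have h2 : 0 ≤ (v.repr u j) ^ 2 := by positivity
        nlinarith
      · rw [hz j hj]; simp
    · refine ⟨i, Finset.mem_univ _, ?_⟩
      have hiN : i ∈ N := by
        by_contra h
        exact hi (hz i h)
      have h1 : B (v i) (v i) < 0 := by simpa [hN] using hiN
      have h2 : 0 < (v.repr u i) ^ 2 := by positivity
      nlinarith

/-- constancy of the signature in a continuous family of nondegenerate symmetric forms -/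
theorem sig_const {X : Type*} [TopologicalSpace X] [PreconnectedSpace X]
    (B : X → E →ₗ[ℝ] E →ₗ[ℝ] ℝ) (hs : ∀ t u v, B t u v = B t v u)
    (hn : ∀ t u, (∀ v, B t u v = 0) → u = 0)
    (hc : ∀ u v, Continuous fun t => B t u v) (a : ℕ) (t₀ : X)
    (h0 : ∃ W : Submodule ℝ E, a ≤ finrank ℝ W ∧ ∀ u ∈ W, u ≠ 0 → 0 < B t₀ u u) (t : X) :
    ∃ W : Submodule ℝ E, a ≤ finrank ℝ W ∧ ∀ u ∈ W, u ≠ 0 → 0 < B t u u := by
  classical
  set S : Set X := {t | ∃ W : Submodule ℝ E, a ≤ finrank ℝ W ∧ ∀ u ∈ W, u ≠ 0 → 0 < B t u u}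
    with hS
  set S' : Set X := {t | ∃ W : Submodule ℝ E, finrank ℝ E < finrank ℝ W + a ∧
    ∀ u ∈ W, u ≠ 0 → B t u u < 0} with hS'
  have ho : IsOpen S := by
    rw [isOpen_iff_mem_nhds]
    rintro t₁ ⟨W, hW, hp⟩
    filter_upwards [eventually_posDef B hc W t₁ hp] with s hs'
    exact ⟨W, hW, hs'⟩
  have ho' : IsOpen S' := by
    rw [isOpen_iff_mem_nhds]
    rintro t₁ ⟨W, hW, hp⟩
    have := eventually_posDef (fun t => - B t) (fun u v => (hc u v).neg) W t₁
      (fun u hu hu0 => by simpa using hp u hu hu0)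
    filter_upwards [this] with s hs'
    exact ⟨W, hW, fun u hu hu0 => by simpa using hs' u hu hu0⟩
  have hcompl : Sᶜ = S' := by
    ext s
    constructor
    · intro hsS
      obtain ⟨P, N, hdim, hP, hN⟩ := exists_pos_neg (B s) (hs s) (hn s)
      refine ⟨N, ?_, hN⟩
      by_contra hlt
      apply hsS
      exact ⟨P, by omega, hP⟩
    · rintro ⟨W', hW', hneg⟩ ⟨W, hW, hpos⟩
      obtain ⟨x, hx1, hx2, hx0⟩ := exists_mem_inf_ne_zero (A := W) (B := W') (C := ⊤) le_top le_top
        (by rw [finrank_top]; omega)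
      have h1 := hpos x hx1 hx0
      have h2 := hneg x hx2 hx0
      linarith
  have hclosed : IsClosed S := by
    rw [← isOpen_compl_iff, hcompl]
    exact ho'
  rcases isClopen_iff.mp ⟨hclosed, ho⟩ with h | h
  · have : t₀ ∈ S := h0
    rw [h] at this
    exact absurd this (Set.notMem_empty _)
  · have : t ∈ S := by rw [h]; exact Set.mem_univ _
    exact this

end Sig

variable {V : Type*} [AddCommGroup V] [Module ℝ V] [FiniteDimensional ℝ V]
variable {Vi : ℕ → Submodule ℝ V} {d : ℕ}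

section Basic

omit [FiniteDimensional ℝ V]

theorem LefSp.pow_mem {L : V →ₗ[ℝ] V} {F : V →ₗ[ℝ] V →ₗ[ℝ] ℝ} (h : LefSp Vi d L F) (k i : ℕ)
    {u : V} (hu : u ∈ Vi i) : (L ^ k) u ∈ Vi (i + k) := by
  induction k with
  | zero => simpa using hu
  | succ k ih =>
    rw [pow_succ', Module.End.mul_apply, ← add_assoc]
    exact h.deg _ _ ih

theorem LefSp.adj_pow {L : V →ₗ[ℝ] V} {F : V →ₗ[ℝ] V →ₗ[ℝ] ℝ} (h : LefSp Vi d L F) (k : ℕ)
    (u v : V) : F ((L ^ k) u) v = F u ((L ^ k) v) := by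
  induction k generalizing u v with
  | zero => simp
  | succ k ih =>
    rw [pow_succ', Module.End.mul_apply, h.adj, ih, ← Module.End.mul_apply, ← pow_succ, ← pow_succ']

theorem LefSp.eq_zero_of_L {L : V →ₗ[ℝ] V} (hHL : HLef Vi d L) {i : ℕ}
    (hi : 2 * (i + 1) ≤ d) {u : V} (hu : u ∈ Vi i) (h0 : L u = 0) : u = 0 := by
  apply hHL i (by omega) u hu
  have : d - 2 * i = (d - 2 * i - 1) + 1 := by omega
  rw [this, pow_succ, Module.End.mul_apply, h0, map_zero]

end Basic

theorem LefSp.finrank_le {L : V →ₗ[ℝ] V} {F : V →ₗ[ℝ] V →ₗ[ℝ] ℝ} (h : LefSp Vi d L F) {i : ℕ}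
    (hi : i ≤ d) : finrank ℝ (Vi (d - i)) ≤ finrank ℝ (Vi i) := by
  rw [← Subspace.dual_finrank_eq (K := ℝ) (V := Vi i)]
  apply LinearMap.finrank_le_finrank_of_injective
    (f := (F.compl₁₂ (Vi (d - i)).subtype (Vi i).subtype))
  rw [← LinearMap.ker_eq_bot, LinearMap.ker_eq_bot']
  intro m hm
  apply Subtype.ext
  apply h.nondeg (d - i) (by omega) m.1 m.2
  intro v hv
  rw [show d - (d - i) = i by omega] at hv
  have := congrArg (fun g => g ⟨v, hv⟩) hm
  simpa using this

/-- dimension of the kernel of `f` on `W` -/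
theorem finrank_inf_ker (f : V →ₗ[ℝ] V) (W W' : Submodule ℝ V) (hf : ∀ u ∈ W, f u ∈ W') :
    finrank ℝ W ≤ finrank ℝ (W ⊓ LinearMap.ker f : Submodule ℝ V) + finrank ℝ W' := by
  have h1 := LinearMap.finrank_range_add_finrank_ker (f.domRestrict W)
  have h2 : finrank ℝ (LinearMap.range (f.domRestrict W)) ≤ finrank ℝ W' := by
    apply Submodule.finrank_mono
    rintro _ ⟨u, rfl⟩
    exact hf u.1 u.2
  have h3 : finrank ℝ (LinearMap.ker (f.domRestrict W)) ≤
      finrank ℝ (W ⊓ LinearMap.ker f : Submodule ℝ V) := by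
    rw [← Submodule.finrank_map_subtype_eq]
    apply Submodule.finrank_mono
    rintro _ ⟨u, hu, rfl⟩
    exact ⟨u.2, by simpa using hu⟩
  omega

/-- constancy of the signature in degree `i` -/
theorem sig_deg (X : Set ℝ) (hX : IsPreconnected X) (L : ℝ → V →ₗ[ℝ] V)
    (F : ℝ → V →ₗ[ℝ] V →ₗ[ℝ] ℝ) (h : ∀ t ∈ X, LefSp Vi d (L t) (F t))
    (hHL : ∀ t ∈ X, HLef Vi d (L t)) (i : ℕ) (hi : 2 * i ≤ d)
    (hc : ∀ u ∈ Vi i, ∀ v ∈ Vi i,
      ContinuousOn (fun t => F t u ((L t ^ (d - 2 * i)) v)) X)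
    (a : ℕ) (t₀ : ℝ) (ht₀ : t₀ ∈ X)
    (h0 : ∃ W ≤ Vi i, a ≤ finrank ℝ W ∧
      ∀ u ∈ W, u ≠ 0 → 0 < (-1 : ℝ) ^ i * F t₀ u ((L t₀ ^ (d - 2 * i)) u))
    (t : ℝ) (ht : t ∈ X) :
    ∃ W ≤ Vi i, a ≤ finrank ℝ W ∧
      ∀ u ∈ W, u ≠ 0 → 0 < (-1 : ℝ) ^ i * F t u ((L t ^ (d - 2 * i)) u) := by
  have : PreconnectedSpace X := Subtype.preconnectedSpace hX
  let B : X → (Vi i) →ₗ[ℝ] (Vi i) →ₗ[ℝ] ℝ := fun s =>
    (-1 : ℝ) ^ i • (F s.1).compl₁₂ (Vi i).subtype ((L s.1 ^ (d - 2 * i)) ∘ₗ (Vi i).subtype)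
  have hB : ∀ s u v, B s u v = (-1 : ℝ) ^ i * F s.1 u.1 ((L s.1 ^ (d - 2 * i)) v.1) :=
    fun s u v => rfl
  have hsig : (-1 : ℝ) ^ i ≠ 0 := pow_ne_zero _ (by norm_num)
  obtain ⟨W, hW, haW, hpos⟩ := h0
  obtain ⟨U, haU, hU⟩ := sig_const B
    (fun s u v => by
      rw [hB, hB, ← (h s.1 s.2).adj_pow, (h s.1 s.2).symm])
    (fun s u hu => by
      apply Subtype.ext
      apply hHL s.1 s.2 i hi u.1 u.2
      have hm := (h s.1 s.2).pow_mem (d - 2 * i) i u.2
      rw [show i + (d - 2 * i) = d - i by omega] at hm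
      apply (h s.1 s.2).nondeg (d - i) (by omega) _ hm
      intro v hv
      rw [show d - (d - i) = i by omega] at hv
      have := hu ⟨v, hv⟩
      rw [hB] at this
      rw [(h s.1 s.2).adj_pow]
      exact (mul_eq_zero.mp this).resolve_left hsig)
    (fun u v => by
      have := hc u.1 u.2 v.1 v.2
      rw [continuousOn_iff_continuous_domRestrict] at this
      exact continuous_const.mul this)
    a ⟨t₀, ht₀⟩
    ⟨W.comap (Vi i).subtype, by
      have e := Submodule.comapSubtypeEquivOfLe hW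
      rw [e.finrank_eq]
      exact haW, fun u hu hu0 => by
        rw [hB]
        exact hpos u.1 hu (fun h => hu0 (Subtype.ext h))⟩
    ⟨t, ht⟩
  refine ⟨U.map (Vi i).subtype, ?_, ?_, ?_⟩
  · rintro _ ⟨u, _, rfl⟩
    exact u.2
  · rw [Submodule.finrank_map_subtype_eq]
    exact haU
  · rintro _ ⟨u, hu, rfl⟩ hu0
    have := hU u hu (fun h => hu0 (by rw [h]; simp))
    rw [hB] at this
    exact this

omit [FiniteDimensional ℝ V] in
/-- form on the orthogonal sum of a primitive element and an element of the image of `L` -/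
theorem LefSp.form_add {L : V →ₗ[ℝ] V} {F : V →ₗ[ℝ] V →ₗ[ℝ] ℝ} (h : LefSp Vi d L F) {i : ℕ}
    (hi : 2 * (i + 1) ≤ d) {p w : V} (hp : (L ^ (d - 2 * (i + 1) + 1)) p = 0) :
    (-1 : ℝ) ^ (i + 1) * F (p + L w) ((L ^ (d - 2 * (i + 1))) (p + L w)) =
      (-1 : ℝ) ^ (i + 1) * F p ((L ^ (d - 2 * (i + 1))) p) -
        (-1 : ℝ) ^ i * F w ((L ^ (d - 2 * i)) w) := by
  have e1 : F (L w) ((L ^ (d - 2 * (i + 1))) p) = 0 := by
    rw [h.adj, ← Module.End.mul_apply, ← pow_succ', hp, map_zero]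
  have e2 : F p ((L ^ (d - 2 * (i + 1))) (L w)) = 0 := by
    rw [← h.adj_pow, h.symm, h.adj, ← Module.End.mul_apply, ← pow_succ', hp, map_zero]
  have e3 : F (L w) ((L ^ (d - 2 * (i + 1))) (L w)) = F w ((L ^ (d - 2 * i)) w) := by
    rw [h.adj, ← Module.End.mul_apply, ← Module.End.mul_apply, ← pow_succ', ← pow_succ]
    congr 3
    omega
  simp only [map_add, LinearMap.add_apply, e1, e2, e3, pow_succ]
  ring

/-- dimension of `P ⊔ L W` for `P` primitive -/
theorem LefSp.finrank_sup {L : V →ₗ[ℝ] V} (hHL : HLef Vi d L) {i : ℕ}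
    (hi : 2 * (i + 1) ≤ d) {P W : Submodule ℝ V} (hP : ∀ p ∈ P, (L ^ (d - 2 * (i + 1) + 1)) p = 0)
    (hW : W ≤ Vi i) :
    finrank ℝ (P ⊔ W.map L : Submodule ℝ V) = finrank ℝ P + finrank ℝ W := by
  have hinf : P ⊓ W.map L = ⊥ := by
    rw [eq_bot_iff]
    rintro _ ⟨hp, w, hw, rfl⟩
    have h1 := hP _ hp
    rw [← Module.End.mul_apply, ← pow_succ,
      show d - 2 * (i + 1) + 1 + 1 = d - 2 * i by omega] at h1
    have h2 := hHL i (by omega) w (hW hw) h1
    rw [h2]
    simp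
  have h1 := Submodule.finrank_sup_add_finrank_inf_eq P (W.map L)
  rw [hinf, finrank_bot, add_zero] at h1
  rw [h1]
  congr 1
  have e : finrank ℝ (W.map L) = finrank ℝ (LinearMap.range (L.domRestrict W)) := by
    rw [LinearMap.range_domRestrict]
  rw [e]
  apply LinearMap.finrank_range_of_inj
  rw [← LinearMap.ker_eq_bot, LinearMap.ker_eq_bot']
  intro m hm
  apply Subtype.ext
  exact LefSp.eq_zero_of_L hHL hi (hW m.2) hm

theorem HRie_claim (X : Set ℝ) (hX : IsPreconnected X) (L : ℝ → V →ₗ[ℝ] V)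
    (F : ℝ → V →ₗ[ℝ] V →ₗ[ℝ] ℝ) (h : ∀ t ∈ X, LefSp Vi d (L t) (F t))
    (hHL : ∀ t ∈ X, HLef Vi d (L t))
    (hc : ∀ i, 2 * i ≤ d → ∀ u ∈ Vi i, ∀ v ∈ Vi i,
      ContinuousOn (fun t => F t u ((L t ^ (d - 2 * i)) v)) X)
    (t₀ : ℝ) (ht₀ : t₀ ∈ X) (hHR : HRie Vi d (L t₀) (F t₀)) (i : ℕ) (hi : 2 * i ≤ d) :
    ∃ α ≤ finrank ℝ (Vi i), ∀ t ∈ X,
      (∃ W ≤ Vi i, α ≤ finrank ℝ W ∧
        ∀ u ∈ W, u ≠ 0 → 0 < (-1 : ℝ) ^ i * F t u ((L t ^ (d - 2 * i)) u)) ∧
      (∃ W ≤ Vi i, finrank ℝ (Vi i) ≤ finrank ℝ W + α ∧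
        ∀ u ∈ W, u ≠ 0 → (-1 : ℝ) ^ i * F t u ((L t ^ (d - 2 * i)) u) < 0) ∧
      (∀ u ∈ Vi i, (L t ^ (d - 2 * i + 1)) u = 0 → u ≠ 0 →
        0 < (-1 : ℝ) ^ i * F t u ((L t ^ (d - 2 * i)) u)) := by
  induction i with
  | zero =>
    refine ⟨finrank ℝ (Vi 0), le_rfl, ?_⟩
    intro t ht
    have hall : ∀ s ∈ X, ∀ u ∈ Vi 0, (L s ^ (d - 2 * 0 + 1)) u = 0 := by
      intro s hs u hu
      have h1 := (h s hs).pow_mem (d - 2 * 0 + 1) 0 hu
      rw [(h s hs).top _ (by omega)] at h1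
      simpa using h1
    obtain ⟨W, hW, hdim, hpos⟩ := sig_deg X hX L F h hHL 0 hi (hc 0 hi) (finrank ℝ (Vi 0)) t₀ ht₀
      ⟨Vi 0, le_rfl, le_rfl, fun u hu hu0 => hHR 0 hi u hu (hall t₀ ht₀ u hu) hu0⟩ t ht
    have hWe : W = Vi 0 := Submodule.eq_of_le_of_finrank_le hW hdim
    refine ⟨⟨W, hW, hdim, hpos⟩, ⟨⊥, bot_le, by simp, ?_⟩, ?_⟩
    · intro u hu hu0
      exact absurd ((Submodule.mem_bot ℝ).mp hu) hu0
    · intro u hu _ hu0
      exact hpos u (by rw [hWe]; exact hu) hu0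
  | succ i ih =>
    obtain ⟨α, hα, hall⟩ := ih (by omega)
    have hdimle : finrank ℝ (Vi i) ≤ finrank ℝ (Vi (i + 1)) := by
      have e : finrank ℝ ((Vi i).map (L t₀)) =
          finrank ℝ (LinearMap.range ((L t₀).domRestrict (Vi i))) := by
        rw [LinearMap.range_domRestrict]
      have e2 : finrank ℝ (LinearMap.range ((L t₀).domRestrict (Vi i))) = finrank ℝ (Vi i) := by
        apply LinearMap.finrank_range_of_inj
        rw [← LinearMap.ker_eq_bot, LinearMap.ker_eq_bot']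
        intro m hm
        apply Subtype.ext
        exact LefSp.eq_zero_of_L (hHL t₀ ht₀) hi m.2 hm
      rw [← e2, ← e]
      apply Submodule.finrank_mono
      rintro _ ⟨u, hu, rfl⟩
      exact (h t₀ ht₀).deg _ _ hu
    -- positive subspace at `t₀`
    have hpos0 : ∃ W ≤ Vi (i + 1), finrank ℝ (Vi (i + 1)) - α ≤ finrank ℝ W ∧
        ∀ u ∈ W, u ≠ 0 →
          0 < (-1 : ℝ) ^ (i + 1) * F t₀ u ((L t₀ ^ (d - 2 * (i + 1))) u) := by
      obtain ⟨-, ⟨W, hW, hdim, hneg⟩, -⟩ := hall t₀ ht₀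
      set P := Vi (i + 1) ⊓ LinearMap.ker (L t₀ ^ (d - 2 * (i + 1) + 1)) with hPdef
      have hP : ∀ p ∈ P, (L t₀ ^ (d - 2 * (i + 1) + 1)) p = 0 := fun p hp => hp.2
      have hdP : finrank ℝ (Vi (i + 1)) ≤ finrank ℝ P + finrank ℝ (Vi i) := by
        have h1 : finrank ℝ (Vi (i + 1)) ≤ finrank ℝ P + finrank ℝ (Vi (d - i)) :=
          finrank_inf_ker (L t₀ ^ (d - 2 * (i + 1) + 1)) (Vi (i + 1)) (Vi (d - i))
          (fun u hu => by
            have := (h t₀ ht₀).pow_mem (d - 2 * (i + 1) + 1) (i + 1) hu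
            rwa [show i + 1 + (d - 2 * (i + 1) + 1) = d - i by omega] at this)
        have h2 := (h t₀ ht₀).finrank_le (i := i) (by omega)
        omega
      refine ⟨P ⊔ W.map (L t₀), ?_, ?_, ?_⟩
      · apply sup_le inf_le_left
        rintro _ ⟨u, hu, rfl⟩
        exact (h t₀ ht₀).deg _ _ (hW hu)
      · rw [LefSp.finrank_sup (hHL t₀ ht₀) hi hP hW]
        omega
      · intro u hu hu0
        obtain ⟨p, hp, _, ⟨w, hw, rfl⟩, rfl⟩ := Submodule.mem_sup.mp hu
        rw [(h t₀ ht₀).form_add hi (hP p hp)]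
        by_cases hp0 : p = 0
        · have hw0 : w ≠ 0 := by
            rintro rfl
            apply hu0
            rw [hp0]; simp
          have := hneg w hw hw0
          rw [hp0]
          simp only [map_zero, mul_zero]
          linarith
        · have h1 := hHR (i + 1) hi p hp.1 (hP p hp) hp0
          by_cases hw0 : w = 0
          · rw [hw0]
            simp only [map_zero, mul_zero]
            linarith
          · have := hneg w hw hw0
            linarith
    refine ⟨finrank ℝ (Vi (i + 1)) - α, by omega, ?_⟩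
    intro t ht
    obtain ⟨⟨W, hW, hdim, hpos⟩, -, -⟩ := hall t ht
    obtain ⟨U, hU, hdU, hUpos⟩ := sig_deg X hX L F h hHL (i + 1) hi (hc (i + 1) hi)
      (finrank ℝ (Vi (i + 1)) - α) t₀ ht₀ hpos0 t ht
    refine ⟨⟨U, hU, hdU, hUpos⟩, ⟨W.map (L t), ?_, ?_, ?_⟩, ?_⟩
    · rintro _ ⟨u, hu, rfl⟩
      exact (h t ht).deg _ _ (hW hu)
    · have := LefSp.finrank_sup (hHL t ht) hi (P := ⊥) (W := W)
        (fun p hp => by rw [(Submodule.mem_bot ℝ).mp hp, map_zero]) hW
      rw [bot_sup_eq, finrank_bot, zero_add] at this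
      omega
    · rintro _ ⟨w, hw, rfl⟩ hu0
      have hw0 : w ≠ 0 := by
        rintro rfl
        exact hu0 (map_zero _)
      have := (h t ht).form_add hi (p := 0) (w := w) (by simp)
      rw [zero_add] at this
      change (-1 : ℝ) ^ (i + 1) * F t (L t w) ((L t ^ (d - 2 * (i + 1))) (L t w)) < 0
      rw [this]
      have h2 := hpos w hw hw0
      simp only [map_zero, mul_zero]
      linarith
    · intro u hu hprim hu0
      by_contra hle
      have hP : ∀ p ∈ Submodule.span ℝ {u}, (L t ^ (d - 2 * (i + 1) + 1)) p = 0 := by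
        intro p hp
        obtain ⟨c, rfl⟩ := Submodule.mem_span_singleton.mp hp
        rw [map_smul, hprim, smul_zero]
      have hd2 := LefSp.finrank_sup (hHL t ht) hi hP hW
      rw [finrank_span_singleton hu0] at hd2
      obtain ⟨x, hx1, hx2, hx0⟩ := exists_mem_inf_ne_zero (A := U)
        (B := Submodule.span ℝ {u} ⊔ W.map (L t)) (C := Vi (i + 1)) hU
        (by
          apply sup_le
          · rw [Submodule.span_singleton_le_iff_mem]; exact hu
          · rintro _ ⟨w, hw, rfl⟩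
            exact (h t ht).deg _ _ (hW hw))
        (by rw [hd2]; omega)
      have h1 := hUpos x hx1 hx0
      obtain ⟨p, hp, _, ⟨w, hw, rfl⟩, rfl⟩ := Submodule.mem_sup.mp hx2
      rw [(h t ht).form_add hi (hP p hp)] at h1
      obtain ⟨c, rfl⟩ := Submodule.mem_span_singleton.mp hp
      have h3 : (-1 : ℝ) ^ (i + 1) * F t (c • u) ((L t ^ (d - 2 * (i + 1))) (c • u)) =
          c ^ 2 * ((-1 : ℝ) ^ (i + 1) * F t u ((L t ^ (d - 2 * (i + 1))) u)) := by
        simp only [map_smul, LinearMap.smul_apply, smul_eq_mul]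
        ring
      rw [h3] at h1
      have h4 : 0 ≤ (-1 : ℝ) ^ i * F t w ((L t ^ (d - 2 * i)) w) := by
        by_cases hw0 : w = 0
        · rw [hw0]; simp
        · exact (hpos w hw hw0).le
      have h5 : c ^ 2 * ((-1 : ℝ) ^ (i + 1) * F t u ((L t ^ (d - 2 * (i + 1))) u)) ≤ 0 :=
        mul_nonpos_of_nonneg_of_nonpos (sq_nonneg c) (not_lt.mp hle)
      linarith

/-- LA1: continuity. -/
theorem HRie_of_HLef (X : Set ℝ) (hX : IsPreconnected X) (L : ℝ → V →ₗ[ℝ] V)
    (F : ℝ → V →ₗ[ℝ] V →ₗ[ℝ] ℝ) (h : ∀ t ∈ X, LefSp Vi d (L t) (F t))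
    (hHL : ∀ t ∈ X, HLef Vi d (L t))
    (hc : ∀ i, 2 * i ≤ d → ∀ u ∈ Vi i, ∀ v ∈ Vi i,
      ContinuousOn (fun t => F t u ((L t ^ (d - 2 * i)) v)) X)
    (t₀ : ℝ) (ht₀ : t₀ ∈ X) (hHR : HRie Vi d (L t₀) (F t₀)) :
    ∀ t ∈ X, HRie Vi d (L t) (F t) := by
  intro t ht i hi
  obtain ⟨α, -, hall⟩ := HRie_claim X hX L F h hHL hc t₀ ht₀ hHR i hi
  exact (hall t ht).2.2

end KLFin
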