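import Mathlib
import Pool.Agent.KLFin.LADefs
import Pool.Agent.KLFin.LA1

/-! Openness of the Hodge-Riemann relations (MP_d9d356_co, part C, block LA2). -/

namespace KLFin

namespace LA2

set_option linter.unusedSectionVars false

variable {V : Type*} [AddCommGroup V] [Module ℝ V] [FiniteDimensional ℝ V]
variable {Vi : ℕ → Submodule ℝ V} {d : ℕ}

theorem lpow_mem {L : V →ₗ[ℝ] V} {F : V →ₗ[ℝ] V →ₗ[ℝ] ℝ} (h : LefSp Vi d L F) {i : ℕ}
    {u : V} (hu : u ∈ Vi i) (n : ℕ) : (L ^ n) u ∈ Vi (i + n) := by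
  induction n with
  | zero => simpa using hu
  | succ n ih =>
    rw [pow_succ', Module.End.mul_apply, ← add_assoc]
    exact h.deg _ _ ih

theorem ladj_pow {L : V →ₗ[ℝ] V} {F : V →ₗ[ℝ] V →ₗ[ℝ] ℝ} (h : LefSp Vi d L F) (n : ℕ)
    (u v : V) : F ((L ^ n) u) v = F u ((L ^ n) v) := by
  induction n generalizing v with
  | zero => simp
  | succ n ih =>
    rw [pow_succ', Module.End.mul_apply, h.adj, ih, ← Module.End.mul_apply, ← pow_succ,
      pow_succ']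

/-- The Lefschetz form is nondegenerate under hard Lefschetz. -/
theorem form_nondeg {L : V →ₗ[ℝ] V} {F : V →ₗ[ℝ] V →ₗ[ℝ] ℝ} (h : LefSp Vi d L F)
    (hHL : HLef Vi d L) {i : ℕ} (hi : 2 * i ≤ d) {u : V} (hu : u ∈ Vi i)
    (h0 : ∀ v ∈ Vi i, F u ((L ^ (d - 2 * i)) v) = 0) : u = 0 := by
  apply hHL i hi u hu
  have hm := lpow_mem h hu (d - 2 * i)
  apply h.nondeg (i + (d - 2 * i)) (by omega) _ hm
  intro v hv
  have : d - (i + (d - 2 * i)) = i := by omega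
  rw [this] at hv
  rw [ladj_pow h]
  exact h0 v hv

/-- The Gram matrix of the Lefschetz form on `Vi i`. -/
noncomputable def gram (Vi : ℕ → Submodule ℝ V) (d : ℕ) (L : V →ₗ[ℝ] V)
    (F : V →ₗ[ℝ] V →ₗ[ℝ] ℝ) (i : ℕ) :
    Matrix (Fin (Module.finrank ℝ (Vi i))) (Fin (Module.finrank ℝ (Vi i))) ℝ :=
  fun a b => F (Module.finBasis ℝ (Vi i) a : Vi i)
    ((L ^ (d - 2 * i)) (Module.finBasis ℝ (Vi i) b : Vi i))

theorem coe_sum_repr {i : ℕ} (x : Vi i) : (x : V) = ∑ b, (Module.finBasis ℝ (Vi i)).repr x b •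
    ((Module.finBasis ℝ (Vi i) b : Vi i) : V) := by
  have h1 := congrArg (Vi i).subtype ((Module.finBasis ℝ (Vi i)).sum_repr x)
  rw [map_sum] at h1
  simp only [map_smul, Submodule.subtype_apply] at h1
  exact h1.symm

theorem gram_mulVec (L : V →ₗ[ℝ] V) (F : V →ₗ[ℝ] V →ₗ[ℝ] ℝ) (i : ℕ) (x : Vi i)
    (a : Fin (Module.finrank ℝ (Vi i))) :
    (gram Vi d L F i).mulVec ((Module.finBasis ℝ (Vi i)).repr x) a =
      F (Module.finBasis ℝ (Vi i) a : Vi i) ((L ^ (d - 2 * i)) (x : V)) := by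
  have hx := coe_sum_repr x
  conv_rhs => rw [hx]
  rw [map_sum, map_sum]
  unfold Matrix.mulVec dotProduct gram
  apply Finset.sum_congr rfl
  intro b _
  rw [map_smul, map_smul, smul_eq_mul, mul_comm]

theorem HLef_of_gram {L : V →ₗ[ℝ] V} {F : V →ₗ[ℝ] V →ₗ[ℝ] ℝ}
    (h : ∀ i, 2 * i ≤ d → (gram Vi d L F i).det ≠ 0) : HLef Vi d L := by
  intro i hi u hu h0
  have h1 : (gram Vi d L F i).mulVec ((Module.finBasis ℝ (Vi i)).repr ⟨u, hu⟩) = 0 := by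
    funext a
    rw [gram_mulVec]
    change F _ ((L ^ (d - 2 * i)) u) = 0
    rw [h0, map_zero]
  have h2 := Matrix.eq_zero_of_mulVec_eq_zero (h i hi) h1
  have h3 : (⟨u, hu⟩ : Vi i) = 0 := by
    apply (Module.finBasis ℝ (Vi i)).ext_elem
    intro a
    rw [map_zero, Finsupp.zero_apply]
    exact congrFun h2 a
  exact congrArg Subtype.val h3

theorem gram_det_ne {L : V →ₗ[ℝ] V} {F : V →ₗ[ℝ] V →ₗ[ℝ] ℝ} (h : LefSp Vi d L F)
    (hHL : HLef Vi d L) {i : ℕ} (hi : 2 * i ≤ d) : (gram Vi d L F i).det ≠ 0 := by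
  intro hdet
  rw [← Matrix.exists_mulVec_eq_zero_iff] at hdet
  obtain ⟨c, hc, hc0⟩ := hdet
  apply hc
  set x : Vi i := (Module.finBasis ℝ (Vi i)).equivFun.symm c with hx
  have hrepr : ((Module.finBasis ℝ (Vi i)).repr x : _ → ℝ) = c := by
    rw [hx, ← Module.Basis.equivFun_apply, LinearEquiv.apply_symm_apply]
  have h0 : ∀ a, F (Module.finBasis ℝ (Vi i) a : Vi i) ((L ^ (d - 2 * i)) (x : V)) = 0 := by
    intro a
    rw [← gram_mulVec, hrepr, hc0]; rfl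
  have hx0 : (x : V) = 0 := by
    apply form_nondeg h hHL hi x.2
    intro v hv
    have hv' : v = ∑ b, (Module.finBasis ℝ (Vi i)).repr ⟨v, hv⟩ b •
        ((Module.finBasis ℝ (Vi i) b : Vi i) : V) := coe_sum_repr ⟨v, hv⟩
    rw [← ladj_pow h, h.symm]
    conv_lhs => rw [hv']
    rw [map_sum, LinearMap.sum_apply]
    apply Finset.sum_eq_zero
    intro b _
    rw [map_smul, LinearMap.smul_apply, h0 b, smul_zero]
  have hx1 : x = 0 := Subtype.ext hx0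
  rw [← hrepr, hx1, map_zero]
  rfl

/-- Hard Lefschetz is open. -/
theorem HLef_open (L : ℝ → V →ₗ[ℝ] V)
    (F : ℝ → V →ₗ[ℝ] V →ₗ[ℝ] ℝ) (h : LefSp Vi d (L 0) (F 0))
    (hc : ∀ i, 2 * i ≤ d → ∀ u ∈ Vi i, ∀ v ∈ Vi i,
      Continuous (fun t => F t u ((L t ^ (d - 2 * i)) v)))
    (hHL : HLef Vi d (L 0)) :
    ∃ δ : ℝ, 0 < δ ∧ ∀ t, |t| < δ → HLef Vi d (L t) := by
  have hcont : ∀ i, 2 * i ≤ d → Continuous fun t => (gram Vi d (L t) (F t) i).det := by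
    intro i hi
    apply Continuous.matrix_det
    apply continuous_matrix
    intro a b
    exact hc i hi _ (Module.finBasis ℝ (Vi i) a).2 _ (Module.finBasis ℝ (Vi i) b).2
  have hev : ∀ᶠ t : ℝ in nhds 0, ∀ i ∈ Finset.range (d + 1), 2 * i ≤ d →
      (gram Vi d (L t) (F t) i).det ≠ 0 := by
    rw [Filter.eventually_all_finset]
    intro i _
    by_cases hi : 2 * i ≤ d
    · have h1 := (hcont i hi).continuousAt.eventually_ne (gram_det_ne h hHL hi)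
      filter_upwards [h1] with t ht _
      exact ht
    · filter_upwards with t ht
      exact absurd ht hi
  rw [Metric.eventually_nhds_iff] at hev
  obtain ⟨δ, hδ, hδ'⟩ := hev
  refine ⟨δ, hδ, fun t ht => HLef_of_gram (F := F t) fun i hi => ?_⟩
  apply hδ' (by rw [Real.dist_eq, sub_zero]; exact ht) i (Finset.mem_range.2 (by omega)) hi

end LA2

variable {V : Type*} [AddCommGroup V] [Module ℝ V] [FiniteDimensional ℝ V]
variable {Vi : ℕ → Submodule ℝ V} {d : ℕ}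

/-- LA2 with LA1 as a hypothesis. -/
theorem HRie_open_aux
    (LA1 : ∀ (X : Set ℝ) (_ : IsPreconnected X) (L : ℝ → V →ₗ[ℝ] V)
      (F : ℝ → V →ₗ[ℝ] V →ₗ[ℝ] ℝ) (_ : ∀ t ∈ X, LefSp Vi d (L t) (F t))
      (_ : ∀ t ∈ X, HLef Vi d (L t))
      (_ : ∀ i, 2 * i ≤ d → ∀ u ∈ Vi i, ∀ v ∈ Vi i,
        ContinuousOn (fun t => F t u ((L t ^ (d - 2 * i)) v)) X)
      (t₀ : ℝ) (_ : t₀ ∈ X) (_ : HRie Vi d (L t₀) (F t₀)),
      ∀ t ∈ X, HRie Vi d (L t) (F t))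
    (L : ℝ → V →ₗ[ℝ] V)
    (F : ℝ → V →ₗ[ℝ] V →ₗ[ℝ] ℝ) (h : ∀ t, LefSp Vi d (L t) (F t))
    (hc : ∀ i, 2 * i ≤ d → ∀ u ∈ Vi i, ∀ v ∈ Vi i,
      Continuous (fun t => F t u ((L t ^ (d - 2 * i)) v)))
    (hHR : HRie Vi d (L 0) (F 0)) :
    ∃ δ : ℝ, 0 < δ ∧ ∀ t, |t| < δ → HRie Vi d (L t) (F t) := by
  have hHL : HLef Vi d (L 0) := by
    intro i hi u hu h0
    by_contra hne
    have h1 := hHR i hi u hu (by rw [pow_succ', Module.End.mul_apply, h0, map_zero]) hne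
    rw [h0, map_zero, mul_zero] at h1
    exact lt_irrefl _ h1
  obtain ⟨δ, hδ, hδ'⟩ := LA2.HLef_open L F (h 0) hc hHL
  refine ⟨δ, hδ, fun t ht => LA1 (Set.Ioo (-δ) δ) isPreconnected_Ioo L F (fun t _ => h t)
    (fun t ht => hδ' t (abs_lt.2 ht)) (fun i hi u hu v hv => (hc i hi u hu v hv).continuousOn)
    0 ⟨by linarith, hδ⟩ hHR t (abs_lt.1 ht)⟩

/-- LA2: openness. -/
theorem HRie_open (L : ℝ → V →ₗ[ℝ] V)
    (F : ℝ → V →ₗ[ℝ] V →ₗ[ℝ] ℝ) (h : ∀ t, LefSp Vi d (L t) (F t))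
    (hc : ∀ i, 2 * i ≤ d → ∀ u ∈ Vi i, ∀ v ∈ Vi i,
      Continuous (fun t => F t u ((L t ^ (d - 2 * i)) v)))
    (hHR : HRie Vi d (L 0) (F 0)) :
    ∃ δ : ℝ, 0 < δ ∧ ∀ t, |t| < δ → HRie Vi d (L t) (F t) :=
  HRie_open_aux (fun X hX L F h hHL hc t₀ ht₀ hHR => HRie_of_HLef X hX L F h hHL hc t₀ ht₀ hHR)
    L F h hc hHR

end KLFin
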