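import Pool.Agent.KLFin.LADefs

/-! Linear algebra block LA3 (MP_d9d356_co, part C): Hodge-Riemann relations imply hard Lefschetz,
and the tensor product with `H^*(P^1)`. -/

namespace KLFin

variable {V : Type*} [AddCommGroup V] [Module ℝ V]
variable {Vi : ℕ → Submodule ℝ V} {d : ℕ}

/-- LA3a -/
theorem HLef_of_HRie {L : V →ₗ[ℝ] V} {F : V →ₗ[ℝ] V →ₗ[ℝ] ℝ} (hHR : HRie Vi d L F) :
    HLef Vi d L := by
  intro i hi u hu h0
  by_contra hne
  have h1 : (L ^ (d - 2 * i + 1)) u = 0 := by
    rw [pow_succ', Module.End.mul_apply, h0, map_zero]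
  have h2 := hHR i hi u hu h1 hne
  rw [h0, map_zero, mul_zero] at h2
  exact lt_irrefl _ h2

/-- LA3: tensor product with `H^*(P^1)`. -/
theorem LefSp_tens {L : V →ₗ[ℝ] V} {F : V →ₗ[ℝ] V →ₗ[ℝ] ℝ} (h : LefSp Vi d L F) (c : ℝ) :
    LefSp (tensVi Vi) (d + 1) (tensL L (c • LinearMap.id)) (tensF F 0) where
  deg := by
    rintro (_ | i) ⟨a, b⟩ hu
    · obtain ⟨ha, hb⟩ := Submodule.mem_prod.1 hu
      simp only at ha hb
      rw [Submodule.mem_bot] at hb
      subst hb
      refine Submodule.mem_prod.2 ⟨h.deg 0 a ha, ?_⟩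
      simp only [tensL_apply, map_zero, zero_add, LinearMap.smul_apply, LinearMap.id_apply]
      exact (Vi 0).smul_mem c ha
    · obtain ⟨ha, hb⟩ := Submodule.mem_prod.1 hu
      refine Submodule.mem_prod.2 ⟨h.deg _ a ha, ?_⟩
      simp only [tensL_apply, LinearMap.smul_apply, LinearMap.id_apply]
      exact (Vi (i + 1)).add_mem (h.deg _ b hb) ((Vi (i + 1)).smul_mem c ha)
  top := by
    rintro (_ | i) hi
    · omega
    · show (Vi (i + 1)).prod (Vi i) = ⊥
      rw [h.top (i + 1) (by omega), h.top i (by omega), Submodule.prod_bot]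
  symm := by
    intro u v
    simp only [tensF_apply, LinearMap.zero_apply, zero_add]
    rw [h.symm u.1 v.2, h.symm u.2 v.1]
    ring
  adj := by
    intro u v
    simp only [tensF_apply, tensL_apply, LinearMap.zero_apply, zero_add, map_add,
      LinearMap.add_apply, LinearMap.smul_apply, LinearMap.id_apply, map_smul]
    rw [h.adj u.1 v.2, h.adj u.2 v.1]
    ring
  nondeg := by
    rintro (_ | j) hi ⟨a, b⟩ hu hv
    · obtain ⟨ha, hb⟩ := Submodule.mem_prod.1 hu
      simp only at ha hb
      rw [Submodule.mem_bot] at hb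
      subst hb
      have : a = 0 := by
        apply h.nondeg 0 (Nat.zero_le _) a ha
        intro b' hb'
        have h1 := hv (0, b') (Submodule.mem_prod.2 ⟨Submodule.zero_mem _, hb'⟩)
        simp only [tensF_apply, LinearMap.zero_apply, zero_add, map_zero, add_zero] at h1
        linarith
      rw [this]
      rfl
    · obtain ⟨ha, hb⟩ := Submodule.mem_prod.1 hu
      simp only at ha hb
      have hb0 : b = 0 := by
        apply h.nondeg j (by omega) b hb
        intro a' ha'
        have h1 := hv (a', 0) (by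
          have h2 : d + 1 - (j + 1) = d - j := by omega
          rw [h2]
          rcases hk : d - j with _ | k
          · rw [hk] at ha'
            exact Submodule.mem_prod.2 ⟨ha', Submodule.zero_mem _⟩
          · rw [hk] at ha'
            exact Submodule.mem_prod.2 ⟨ha', Submodule.zero_mem _⟩)
        simp only [tensF_apply, LinearMap.zero_apply, zero_add, map_zero] at h1
        linarith
      have ha0 : a = 0 := by
        rcases Nat.lt_or_ge j d with hj | hj
        · apply h.nondeg (j + 1) (by omega) a ha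
          intro b' hb'
          have h1 := hv (0, b') (by
            have h2 : d + 1 - (j + 1) = (d - (j + 1)) + 1 := by omega
            rw [h2]
            exact Submodule.mem_prod.2 ⟨Submodule.zero_mem _, hb'⟩)
          simp only [tensF_apply, LinearMap.zero_apply, zero_add, map_zero, add_zero] at h1
          linarith
        · rw [h.top (j + 1) (by omega), Submodule.mem_bot] at ha
          exact ha
      rw [ha0, hb0]
      rfl

namespace LA3

theorem pow_deg {L : V →ₗ[ℝ] V} {F : V →ₗ[ℝ] V →ₗ[ℝ] ℝ} (h : LefSp Vi d L F) (n i : ℕ) {u : V}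
    (hu : u ∈ Vi i) : (L ^ n) u ∈ Vi (i + n) := by
  induction n with
  | zero => simpa using hu
  | succ n ih =>
    rw [pow_succ', Module.End.mul_apply]
    exact h.deg _ _ ih

theorem pow_adj {L : V →ₗ[ℝ] V} {F : V →ₗ[ℝ] V →ₗ[ℝ] ℝ} (h : LefSp Vi d L F) (n : ℕ) (u v : V) :
    F ((L ^ n) u) v = F u ((L ^ n) v) := by
  induction n generalizing u with
  | zero => rfl
  | succ n ih =>
    have h1 : (L ^ (n + 1)) u = (L ^ n) (L u) := by rw [pow_succ, Module.End.mul_apply]
    have h2 : (L ^ (n + 1)) v = L ((L ^ n) v) := by rw [pow_succ', Module.End.mul_apply]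
    rw [h1, h2, ih, h.adj]

theorem tens_pow (L : V →ₗ[ℝ] V) (c : ℝ) (n : ℕ) (u : V × V) :
    (tensL L (c • LinearMap.id) ^ n) u =
      ((L ^ n) u.1, (L ^ n) u.2 + (n * c) • (L ^ (n - 1)) u.1) := by
  induction n with
  | zero => simp
  | succ n ih =>
    rw [pow_succ', Module.End.mul_apply, ih, tensL_apply]
    refine Prod.ext ?_ ?_
    · simp only
      rw [pow_succ', Module.End.mul_apply]
    · simp only [map_add, map_smul, LinearMap.smul_apply, LinearMap.id_apply,
        Nat.add_sub_cancel]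
      rw [← Module.End.mul_apply, ← pow_succ', ← Module.End.mul_apply, ← pow_succ']
      rcases n with _ | n
      · simp
      · simp only [Nat.add_sub_cancel]
        push_cast
        module

theorem finrank_eq [FiniteDimensional ℝ V] {L : V →ₗ[ℝ] V} {F : V →ₗ[ℝ] V →ₗ[ℝ] ℝ}
    (h : LefSp Vi d L F) {j : ℕ} (hj : j ≤ d) :
    Module.finrank ℝ (Vi j) = Module.finrank ℝ (Vi (d - j)) := by
  have key : ∀ j ≤ d, Module.finrank ℝ (Vi j) ≤ Module.finrank ℝ (Vi (d - j)) := by
    intro j hj
    let φ : Vi j →ₗ[ℝ] Module.Dual ℝ (Vi (d - j)) :=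
      (LinearMap.lcomp ℝ ℝ (Vi (d - j)).subtype).comp (F.comp (Vi j).subtype)
    have hφ : Function.Injective φ := by
      rw [← LinearMap.ker_eq_bot, LinearMap.ker_eq_bot']
      intro u hu
      apply Subtype.ext
      apply h.nondeg j hj u u.2
      intro v hv
      exact LinearMap.congr_fun hu ⟨v, hv⟩
    have := LinearMap.finrank_le_finrank_of_injective hφ
    rwa [Subspace.dual_finrank_eq] at this
  apply le_antisymm (key j hj)
  have := key (d - j) (Nat.sub_le _ _)
  rwa [Nat.sub_sub_self hj] at this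

theorem exists_preimage [FiniteDimensional ℝ V] {L : V →ₗ[ℝ] V} {F : V →ₗ[ℝ] V →ₗ[ℝ] ℝ}
    (h : LefSp Vi d L F) (hL : HLef Vi d L) {j : ℕ} (hj : 2 * j ≤ d) {w : V}
    (hw : w ∈ Vi (d - j)) : ∃ u ∈ Vi j, (L ^ (d - 2 * j)) u = w := by
  have hmem : ∀ u ∈ Vi j, (L ^ (d - 2 * j)) u ∈ Vi (d - j) := by
    intro u hu
    have := pow_deg h (d - 2 * j) j hu
    rwa [show j + (d - 2 * j) = d - j by omega] at this
  let g : Vi j →ₗ[ℝ] Vi (d - j) := (L ^ (d - 2 * j)).restrict hmem
  have hg : Function.Injective g := by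
    rw [← LinearMap.ker_eq_bot, LinearMap.ker_eq_bot']
    intro u hu
    apply Subtype.ext
    apply hL j hj u u.2
    exact congrArg Subtype.val hu
  have hs := (LinearMap.injective_iff_surjective_of_finrank_eq_finrank
    (finrank_eq h (by omega : j ≤ d))).1 hg
  obtain ⟨u, hu⟩ := hs ⟨w, hw⟩
  exact ⟨u, u.2, congrArg Subtype.val hu⟩

end LA3

open LA3 in
theorem HRie_tens [FiniteDimensional ℝ V] {L : V →ₗ[ℝ] V} {F : V →ₗ[ℝ] V →ₗ[ℝ] ℝ}
    (h : LefSp Vi d L F) (hHR : HRie Vi d L F) (c : ℝ) (hc : 0 < c) :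
    HRie (tensVi Vi) (d + 1) (tensL L (c • LinearMap.id)) (tensF F 0) := by
  have hHL := HLef_of_HRie hHR
  rintro (_ | i) hi ⟨a, b⟩ hu hpr hne
  · obtain ⟨ha, hb⟩ := Submodule.mem_prod.1 hu
    simp only at ha hb
    rw [Submodule.mem_bot] at hb
    subst hb
    have ha0 : a ≠ 0 := fun h0 => hne (by rw [h0]; rfl)
    have h1 : (L ^ (d + 1)) a = 0 := by
      have := pow_deg h (d + 1) 0 ha
      rwa [h.top _ (by omega), Submodule.mem_bot] at this
    have h2 := hHR 0 (by omega) a ha (by simpa using h1) ha0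
    rw [tens_pow]
    simp only [Nat.mul_zero, Nat.sub_zero, pow_zero, one_mul, tensF_apply,
      LinearMap.zero_apply, zero_add, map_zero, add_zero, Nat.add_sub_cancel,
      map_smul, smul_eq_mul] at h2 ⊢
    have : (0 : ℝ) < ((d + 1 : ℕ) : ℝ) := by positivity
    positivity
  · obtain ⟨ha, hb⟩ := Submodule.mem_prod.1 hu
    simp only at ha hb
    set k := d + 1 - 2 * (i + 1) with hk
    have hdi : d - 2 * i = k + 1 := by omega
    rw [tens_pow] at hpr
    obtain ⟨hp1, hp2⟩ := Prod.ext_iff.1 hpr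
    simp only [Prod.fst_zero, Prod.snd_zero, Nat.add_sub_cancel] at hp1 hp2
    -- the primitive decomposition
    obtain ⟨a1, ha1, ha1'⟩ := exists_preimage h hHL (j := i) (by omega) (w := (L ^ k) a) (by
      have := pow_deg h k (i + 1) ha
      rwa [show i + 1 + k = d - i by omega] at this)
    rw [hdi] at ha1'
    set a0 := a - L a1 with ha0
    have ha0m : a0 ∈ Vi (i + 1) := (Vi (i + 1)).sub_mem ha (h.deg i a1 ha1)
    have ha0p : (L ^ k) a0 = 0 := by
      rw [ha0, map_sub, ← Module.End.mul_apply, ← pow_succ, ha1', sub_self]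
    have hb' : b = -(((k : ℝ) + 1) * c) • a1 := by
      have h3 : (L ^ (k + 1)) (b + (((k : ℝ) + 1) * c) • a1) = 0 := by
        rw [map_add, map_smul, ha1']
        have := hp2
        push_cast at this
        exact this
      have h4 := hHL i (by omega) (b + (((k : ℝ) + 1) * c) • a1)
        ((Vi i).add_mem hb ((Vi i).smul_mem _ ha1)) (by rw [hdi]; exact h3)
      rw [neg_smul]
      exact eq_neg_of_add_eq_zero_left h4
    have ha1p : (L ^ (k + 2)) a1 = 0 := by
      have h5 : (L ^ (k + 2)) a1 = L ((L ^ (k + 1)) a1) := by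
        rw [← Module.End.mul_apply, ← pow_succ']
      rw [h5, ha1', ← Module.End.mul_apply, ← pow_succ', hp1]
    -- the values
    have hF1 : F a ((L ^ k) a1) = F a1 ((L ^ (k + 1)) a1) := by
      rw [← pow_adj h, ← ha1', h.symm]
    have hval : tensF F 0 (a, b) ((tensL L (c • LinearMap.id) ^ k) (a, b)) =
        2 * c * ((k : ℝ) * F a0 ((L ^ (k - 1)) a0) -
          ((k : ℝ) + 2) * F a1 ((L ^ (k + 1)) a1)) := by
      rw [tens_pow]
      simp only [tensF_apply, LinearMap.zero_apply, zero_add, map_add, map_smul, smul_eq_mul]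
      have h6 : F b ((L ^ k) a) = F a ((L ^ k) b) := by
        rw [← pow_adj h, h.symm]
      rw [h6, hb']
      simp only [map_smul, smul_eq_mul]
      rw [hF1]
      rcases hk' : k with _ | k'
      · simp
        ring
      · simp only [Nat.add_sub_cancel]
        have h7 : F a ((L ^ k') a) = F a0 ((L ^ k') a0) + F a1 ((L ^ (k' + 1 + 1)) a1) := by
          have h8 : a = a0 + L a1 := by rw [ha0]; abel
          have h9 : (L ^ k') (L a1) = (L ^ (k' + 1)) a1 := by
            rw [← Module.End.mul_apply, ← pow_succ]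
          have h10 : F a0 ((L ^ (k' + 1)) a1) = 0 := by
            rw [← pow_adj h, ← hk', ha0p, map_zero, LinearMap.zero_apply]
          have h11 : F (L a1) ((L ^ k') a0) = 0 := by
            rw [h.adj, ← Module.End.mul_apply, ← pow_succ', ← hk', ha0p, map_zero]
          have h12 : F (L a1) ((L ^ (k' + 1)) a1) = F a1 ((L ^ (k' + 1 + 1)) a1) := by
            rw [h.adj, ← Module.End.mul_apply, ← pow_succ']
          rw [h8]
          simp only [map_add, LinearMap.add_apply, h9, h10, h11, h12]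
          ring
        rw [h7]
        push_cast
        ring
    rw [hval]
    -- positivity
    have hpos1 : a1 ≠ 0 → 0 < (-1 : ℝ) ^ i * F a1 ((L ^ (k + 1)) a1) := by
      intro h0
      have := hHR i (by omega) a1 ha1 (by rw [hdi]; exact ha1p) h0
      rwa [hdi] at this
    have hpos0 : a0 ≠ 0 → 0 < (k : ℝ) * ((-1 : ℝ) ^ (i + 1) * F a0 ((L ^ (k - 1)) a0)) := by
      intro h0
      have hk0 : 0 < k := by
        rcases Nat.eq_zero_or_pos k with hk0 | hk0
        · rw [hk0] at ha0p
          exact absurd ha0p h0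
        · exact hk0
      have := hHR (i + 1) (by omega) a0 ha0m (by
        rw [show d - 2 * (i + 1) + 1 = k by omega]; exact ha0p) h0
      rw [show d - 2 * (i + 1) = k - 1 by omega] at this
      have hk1 : (0 : ℝ) < k := by exact_mod_cast hk0
      positivity
    have hnn1 : 0 ≤ (-1 : ℝ) ^ i * F a1 ((L ^ (k + 1)) a1) := by
      rcases eq_or_ne a1 0 with h0 | h0
      · rw [h0]; simp
      · exact (hpos1 h0).le
    have hnn0 : 0 ≤ (k : ℝ) * ((-1 : ℝ) ^ (i + 1) * F a0 ((L ^ (k - 1)) a0)) := by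
      rcases eq_or_ne a0 0 with h0 | h0
      · rw [h0]; simp
      · exact (hpos0 h0).le
    have hor : a0 ≠ 0 ∨ a1 ≠ 0 := by
      by_contra hcon
      push Not at hcon
      obtain ⟨h0, h1⟩ := hcon
      apply hne
      have h2 : a = 0 := by
        have : a = a0 + L a1 := by rw [ha0]; abel
        rw [this, h0, h1, map_zero, add_zero]
      rw [h2, hb', h1, smul_zero]
      rfl
    have heq : (-1 : ℝ) ^ (i + 1) * (2 * c * ((k : ℝ) * F a0 ((L ^ (k - 1)) a0) -
        ((k : ℝ) + 2) * F a1 ((L ^ (k + 1)) a1))) =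
        2 * c * ((k : ℝ) * ((-1 : ℝ) ^ (i + 1) * F a0 ((L ^ (k - 1)) a0)) +
          ((k : ℝ) + 2) * ((-1 : ℝ) ^ i * F a1 ((L ^ (k + 1)) a1))) := by
      rw [pow_succ]
      ring
    rw [heq]
    have hk2 : (0 : ℝ) < (k : ℝ) + 2 := by positivity
    rcases hor with h0 | h0
    · have := hpos0 h0
      positivity
    · have := hpos1 h0
      positivity

end KLFin
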