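import Pool.Agent.KLFin.LA1
import Pool.Agent.KLFin.LA2
import Pool.Agent.KLFin.LA3

/-! Linear algebra block LA4 (MP_d9d356_co, part C): the limit `ζ → ∞`. -/

namespace KLFin

variable {V : Type*} [AddCommGroup V] [Module ℝ V]
variable {Vi : ℕ → Submodule ℝ V} {d : ℕ}

namespace LA4

/-- rescaling of the second factor -/
def resc (ζ : ℝ) : V × V →ₗ[ℝ] V × V :=
  (LinearMap.fst ℝ V V).prod (ζ • LinearMap.snd ℝ V V)

theorem resc_apply (ζ : ℝ) (u : V × V) : resc ζ u = (u.1, ζ • u.2) := rfl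

theorem resc_mem (ζ : ℝ) : ∀ (i : ℕ) {u : V × V}, u ∈ tensVi Vi i → resc ζ u ∈ tensVi Vi i
  | 0, u, hu => by
    obtain ⟨h1, h2⟩ := Submodule.mem_prod.1 hu
    exact Submodule.mem_prod.2 ⟨h1, Submodule.smul_mem _ ζ h2⟩
  | i + 1, u, hu => by
    obtain ⟨h1, h2⟩ := Submodule.mem_prod.1 hu
    exact Submodule.mem_prod.2 ⟨h1, Submodule.smul_mem _ ζ h2⟩

theorem resc_inv {ζ : ℝ} (hζ : ζ ≠ 0) (u : V × V) : resc ζ (resc ζ⁻¹ u) = u := by
  rw [resc_apply, resc_apply]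
  refine Prod.ext rfl ?_
  simp only
  rw [smul_smul, mul_inv_cancel₀ hζ, one_smul]

theorem resc_L {ζ : ℝ} (hζ : ζ ≠ 0) (L T : V →ₗ[ℝ] V) (c : ℝ) (u : V × V) :
    tensL L (T + (ζ * c) • LinearMap.id) (resc ζ u) =
      resc ζ (tensL L (ζ⁻¹ • T + c • LinearMap.id) u) := by
  simp only [resc_apply, tensL_apply, LinearMap.add_apply, LinearMap.smul_apply,
    LinearMap.id_apply, map_smul]
  refine Prod.ext rfl ?_
  simp only [smul_add, smul_smul, mul_inv_cancel₀ hζ, one_smul]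

theorem resc_pow {ζ : ℝ} (hζ : ζ ≠ 0) (L T : V →ₗ[ℝ] V) (c : ℝ) (n : ℕ) (u : V × V) :
    (tensL L (T + (ζ * c) • LinearMap.id) ^ n) (resc ζ u) =
      resc ζ ((tensL L (ζ⁻¹ • T + c • LinearMap.id) ^ n) u) := by
  induction n with
  | zero => rfl
  | succ n ih =>
    have h1 : ∀ (A : Module.End ℝ (V × V)) (w : V × V), (A ^ (n + 1)) w = A ((A ^ n) w) := by
      intro A w
      rw [pow_succ', Module.End.mul_apply]
    rw [h1, h1, ih, resc_L hζ]

theorem resc_F {ζ : ℝ} (hζ : ζ ≠ 0) (F K : V →ₗ[ℝ] V →ₗ[ℝ] ℝ) (u v : V × V) :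
    tensF F K (resc ζ u) (resc ζ v) = ζ * tensF F (ζ⁻¹ • K) u v := by
  simp only [resc_apply, tensF_apply, map_smul, LinearMap.smul_apply, smul_eq_mul]
  field_simp

/-- transport of the Lefschetz property -/
theorem LefSp_resc {ζ : ℝ} (hζ : 0 < ζ) {L T : V →ₗ[ℝ] V} {F K : V →ₗ[ℝ] V →ₗ[ℝ] ℝ} {c : ℝ}
    (h : LefSp (tensVi Vi) (d + 1) (tensL L (T + (ζ * c) • LinearMap.id)) (tensF F K)) :
    LefSp (tensVi Vi) (d + 1) (tensL L (ζ⁻¹ • T + c • LinearMap.id)) (tensF F (ζ⁻¹ • K)) where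
  deg := by
    intro i u hu
    have h1 := h.deg i _ (resc_mem ζ i hu)
    rw [resc_L hζ.ne'] at h1
    have h2 := resc_mem ζ⁻¹ _ h1
    have h3 := resc_inv (inv_ne_zero hζ.ne') (tensL L (ζ⁻¹ • T + c • LinearMap.id) u)
    rw [inv_inv] at h3
    rwa [h3] at h2
  top := h.top
  symm := by
    intro u v
    have h1 := h.symm (resc ζ u) (resc ζ v)
    rw [resc_F hζ.ne', resc_F hζ.ne'] at h1
    exact mul_left_cancel₀ hζ.ne' h1
  adj := by
    intro u v
    have h1 := h.adj (resc ζ u) (resc ζ v)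
    rw [resc_L hζ.ne', resc_L hζ.ne', resc_F hζ.ne', resc_F hζ.ne'] at h1
    exact mul_left_cancel₀ hζ.ne' h1
  nondeg := by
    intro i hi u hu hv
    have h1 := h.nondeg i hi _ (resc_mem ζ i hu) (by
      intro v hv'
      have h2 := hv _ (resc_mem ζ⁻¹ _ hv')
      have h3 : tensF F K (resc ζ u) (resc ζ (resc ζ⁻¹ v)) = 0 := by
        rw [resc_F hζ.ne', h2, mul_zero]
      rwa [resc_inv hζ.ne'] at h3)
    have h3 := resc_inv (inv_ne_zero hζ.ne') u
    rw [inv_inv] at h3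
    rw [← h3, h1, map_zero]

/-- transport of the Hodge-Riemann relations -/
theorem HRie_resc {ζ : ℝ} (hζ : 0 < ζ) {L T : V →ₗ[ℝ] V} {F K : V →ₗ[ℝ] V →ₗ[ℝ] ℝ} {c : ℝ}
    (h : HRie (tensVi Vi) (d + 1) (tensL L (ζ⁻¹ • T + c • LinearMap.id))
      (tensF F (ζ⁻¹ • K))) :
    HRie (tensVi Vi) (d + 1) (tensL L (T + (ζ * c) • LinearMap.id)) (tensF F K) := by
  intro i hi u hu h0 hne
  set u' := resc ζ⁻¹ u with hu'
  have hu1 : resc ζ u' = u := resc_inv hζ.ne' u
  have hm : u' ∈ tensVi Vi i := resc_mem ζ⁻¹ i hu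
  rw [← hu1] at h0 hne ⊢
  rw [resc_pow hζ.ne'] at h0
  have h3 : (tensL L (ζ⁻¹ • T + c • LinearMap.id) ^ (d + 1 - 2 * i + 1)) u' = 0 := by
    have h4 := congrArg (resc ζ⁻¹) h0
    rw [map_zero] at h4
    have h5 := resc_inv (inv_ne_zero hζ.ne')
      ((tensL L (ζ⁻¹ • T + c • LinearMap.id) ^ (d + 1 - 2 * i + 1)) u')
    rw [inv_inv] at h5
    rwa [h5] at h4
  have hne' : u' ≠ 0 := fun h => hne (by rw [h, map_zero])
  have h6 := h i hi u' hm h3 hne'
  rw [resc_pow hζ.ne', resc_F hζ.ne']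
  have : (-1 : ℝ) ^ i * (ζ * tensF F (ζ⁻¹ • K) u'
      ((tensL L (ζ⁻¹ • T + c • LinearMap.id) ^ (d + 1 - 2 * i)) u')) =
      ζ * ((-1 : ℝ) ^ i * tensF F (ζ⁻¹ • K) u'
      ((tensL L (ζ⁻¹ • T + c • LinearMap.id) ^ (d + 1 - 2 * i)) u')) := by ring
  rw [this]
  positivity

/-- powers of the family are weakly continuous -/
theorem cont_pow (L T : V →ₗ[ℝ] V) (c : ℝ) (n : ℕ) (v : V × V) (φ : V × V →ₗ[ℝ] ℝ) :
    Continuous (fun t : ℝ => φ ((tensL L (|t| • T + c • LinearMap.id) ^ n) v)) := by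
  induction n generalizing φ with
  | zero =>
    simp only [pow_zero, Module.End.one_apply]
    exact continuous_const
  | succ n ih =>
    have h1 : (fun t : ℝ => φ ((tensL L (|t| • T + c • LinearMap.id) ^ (n + 1)) v)) =
        fun t : ℝ => (φ.comp (tensL L (c • LinearMap.id)))
            ((tensL L (|t| • T + c • LinearMap.id) ^ n) v) +
          |t| * (φ.comp ((LinearMap.inr ℝ V V).comp (T.comp (LinearMap.fst ℝ V V))))
            ((tensL L (|t| • T + c • LinearMap.id) ^ n) v) := by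
      funext t
      rw [pow_succ', Module.End.mul_apply]
      set w := (tensL L (|t| • T + c • LinearMap.id) ^ n) v
      rw [LinearMap.comp_apply, LinearMap.comp_apply, ← smul_eq_mul, ← map_smul, ← map_add]
      congr 1
      simp only [tensL_apply, LinearMap.inr_apply,
        LinearMap.comp_apply, LinearMap.fst_apply, LinearMap.add_apply, LinearMap.smul_apply,
        LinearMap.id_apply]
      refine Prod.ext ?_ ?_
      · simp
      · simp only [Prod.snd_add, Prod.smul_snd]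
        abel
    rw [h1]
    exact (ih _).add (continuous_abs.mul (ih _))

end LA4

open LA4 in
/-- LA4: `ζ → ∞` (rescale the second factor by `ζ`, use LA2 and LA3). -/
theorem HRie_large [FiniteDimensional ℝ V] {L T : V →ₗ[ℝ] V} {F K : V →ₗ[ℝ] V →ₗ[ℝ] ℝ}
    (h : LefSp Vi d L F)
    (hHR : HRie Vi d L F) (c : ℝ) (hc : 0 < c)
    (_hT : ∀ i, ∀ u ∈ Vi i, T u ∈ Vi i)
    (hζ : ∀ ζ : ℝ, 0 ≤ ζ →
      LefSp (tensVi Vi) (d + 1) (tensL L (T + (ζ * c) • LinearMap.id)) (tensF F K)) :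
    ∃ Z : ℝ, 0 ≤ Z ∧ ∀ ζ, Z ≤ ζ →
      HRie (tensVi Vi) (d + 1) (tensL L (T + (ζ * c) • LinearMap.id)) (tensF F K) := by
  obtain ⟨δ, hδ, hall⟩ := HRie_open_aux (Vi := tensVi Vi) (d := d + 1)
    HRie_of_HLef (fun t => tensL L (|t| • T + c • LinearMap.id)) (fun t => tensF F (|t| • K))
    (by
      intro t
      rcases eq_or_ne t 0 with h0 | h0
      · rw [h0, abs_zero, zero_smul, zero_smul, zero_add]
        exact LefSp_tens h c
      · have hp : 0 < |t| := abs_pos.2 h0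
        have h1 := LefSp_resc (inv_pos.2 hp) (hζ |t|⁻¹ (inv_pos.2 hp).le)
        rwa [inv_inv] at h1)
    (by
      intro i _ u _ v _
      have h1 : (fun t : ℝ => tensF F (|t| • K) u
          ((tensL L (|t| • T + c • LinearMap.id) ^ (d + 1 - 2 * i)) v)) =
          fun t : ℝ => (tensF F 0 u)
            ((tensL L (|t| • T + c • LinearMap.id) ^ (d + 1 - 2 * i)) v) +
            |t| * ((K u.1).comp (LinearMap.fst ℝ V V))
              ((tensL L (|t| • T + c • LinearMap.id) ^ (d + 1 - 2 * i)) v) := by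
        funext t
        simp only [tensF_apply, LinearMap.smul_apply, smul_eq_mul, LinearMap.zero_apply,
          zero_add, LinearMap.comp_apply, LinearMap.fst_apply]
        ring
      rw [h1]
      exact (cont_pow _ _ _ _ _ _).add (continuous_abs.mul (cont_pow _ _ _ _ _ _)))
    (by
      simp only [abs_zero, zero_smul, zero_add]
      exact HRie_tens h hHR c hc)
  refine ⟨2 / δ, by positivity, ?_⟩
  intro ζ hζ'
  have hpos : 0 < ζ := lt_of_lt_of_le (by positivity) hζ'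
  have h1 : |ζ⁻¹| < δ := by
    rw [abs_of_pos (inv_pos.2 hpos), inv_lt_comm₀ hpos hδ]
    refine lt_of_lt_of_le ?_ hζ'
    rw [← one_div]
    exact div_lt_div_of_pos_right (by norm_num) hδ
  have h2 := hall ζ⁻¹ h1
  rw [abs_of_pos (inv_pos.2 hpos)] at h2
  exact HRie_resc hpos h2

end KLFin
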