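import Mathlib

/-!
# Part A (combinatorics) of the proof that the Kazhdan-Lusztig value classes are finitely based
(MP_d9d356_co).  Definitions.
-/

open Finset

namespace KLFin

/-- `w` restricted to the set `S` of positions has pattern `v`. -/
def Rel {n k : ℕ} (w : Equiv.Perm (Fin n)) (S : Finset (Fin n)) (v : Equiv.Perm (Fin k)) : Prop :=
  ∃ e : Fin k ↪o Fin n, (Finset.univ.map e.toEmbedding = S) ∧
    ∀ i j, v i < v j ↔ w (e i) < w (e j)

/-- `w` contains the pattern `v`. -/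
def Contains {n k : ℕ} (w : Equiv.Perm (Fin n)) (v : Equiv.Perm (Fin k)) : Prop :=
  ∃ e : Fin k ↪o Fin n, ∀ i j, v i < v j ↔ w (e i) < w (e j)

/-- right-to-left minima (positions) -/
def RLmin {n : ℕ} (w : Equiv.Perm (Fin n)) : Finset (Fin n) :=
  univ.filter (fun i => ∀ j, i < j → w i < w j)

/-- left-to-right maxima (positions) -/
def LRmax {n : ℕ} (w : Equiv.Perm (Fin n)) : Finset (Fin n) :=
  univ.filter (fun i => ∀ j, j < i → w j < w i)

/-- For a right-to-left minimum `q` (not the last one): the points left-above both `q` and the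
next right-to-left minimum. -/
def Aset {n : ℕ} (w : Equiv.Perm (Fin n)) (q : Fin n) : Finset (Fin n) :=
  univ.filter (fun i => i < q ∧ ∃ j, q < j ∧ w j < w i)

/-- the set `S` of positions carries a decreasing sequence -/
def Dec {n : ℕ} (w : Equiv.Perm (Fin n)) (S : Finset (Fin n)) : Prop :=
  ∀ i ∈ S, ∀ j ∈ S, i < j → w j < w i

/-- the set `S` of positions carries an increasing sequence -/
def Inc {n : ℕ} (w : Equiv.Perm (Fin n)) (S : Finset (Fin n)) : Prop :=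
  ∀ i ∈ S, ∀ j ∈ S, i < j → w i < w j

/-- the set of points forming an ascending pair with `u` -/
def Jset {n : ℕ} (w : Equiv.Perm (Fin n)) (u : Fin n) : Finset (Fin n) :=
  univ.filter (fun z => (z < u ∧ w z < w u) ∨ (u < z ∧ w u < w z))

/-- positions `i` such that not (`i+1` is a position and `w (i+1) = w i - 1`) -/
def Breaks {n : ℕ} (w : Equiv.Perm (Fin n)) : Finset (Fin n) :=
  univ.filter (fun i => ¬ ∃ j : Fin n, (j : ℕ) = i + 1 ∧ (w i : ℕ) = w j + 1)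

/-- Everything used about `f S = N(w|S)` inside one minimal permutation `w` outside `KL_m`. -/
structure LocalN {n : ℕ} (w : Equiv.Perm (Fin n)) (f : Finset (Fin n) → ℕ) (m L : ℕ) : Prop where
  one_le : ∀ S, 1 ≤ f S
  mono : ∀ S T, S ⊆ T → f S ≤ f T
  mul : ∀ S T, Disjoint S T → f S * f T ≤ f (S ∪ T)
  sing3412 : ∀ i j k l, i < j → j < k → k < l → w k < w l → w l < w i → w i < w j →
    2 ≤ f {i, j, k, l}
  sing4231 : ∀ i j k l, i < j → j < k → k < l → w l < w j → w j < w k → w k < w i →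
    2 ≤ f {i, j, k, l}
  cut : ∀ (S : Finset (Fin n)) (a b : ℕ), (∀ i ∈ S, a ≤ (i : ℕ) → b ≤ (w i : ℕ)) →
    Dec w (S.filter (fun i => (i : ℕ) < a ∧ b ≤ (w i : ℕ))) →
    f S = f (S.filter (fun i => (i : ℕ) < a)) * f (S.filter (fun i => b ≤ (w i : ℕ)))
  cut' : ∀ (S : Finset (Fin n)) (a b : ℕ), (∀ i ∈ S, (i : ℕ) < a → (w i : ℕ) < b) →
    Dec w (S.filter (fun i => a ≤ (i : ℕ) ∧ (w i : ℕ) < b)) →
    f S = f (S.filter (fun i => a ≤ (i : ℕ))) * f (S.filter (fun i => (w i : ℕ) < b))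
  big : m < f univ
  small : ∀ S, S ≠ univ → f S ≤ m
  noK : ∀ x y : Fin n, x < y → w x < w y → ∀ T : Finset (Fin n), Inc w T →
    (∀ i ∈ T, y < i ∧ w i < w x) → T.card < L
  noK' : ∀ x y : Fin n, x < y → w x < w y → ∀ T : Finset (Fin n), Inc w T →
    (∀ i ∈ T, i < x ∧ w y < w i) → T.card < L
  noF : ∀ u v : Fin n, ∀ T : Finset (Fin n), Inc w T →
    (∀ i ∈ T, (u < i ∧ i < v) ∧ (w v < w i ∧ w i < w u)) → T.card < L

/-- Everything used about `N(w) = P_{id,w}(1)`. -/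
structure GlobalN (N : (n : ℕ) → Equiv.Perm (Fin n) → ℕ) : Prop where
  one_le : ∀ n w, 1 ≤ N n w
  mul : ∀ (n k l : ℕ) (w : Equiv.Perm (Fin n)) (v : Equiv.Perm (Fin k)) (u : Equiv.Perm (Fin l))
    (S T : Finset (Fin n)), Disjoint S T → S ∪ T = univ → Rel w S v → Rel w T u →
    N k v * N l u ≤ N n w
  cut : ∀ (n k l : ℕ) (w : Equiv.Perm (Fin n)) (v : Equiv.Perm (Fin k)) (u : Equiv.Perm (Fin l))
    (a b : ℕ), (∀ i : Fin n, a ≤ (i : ℕ) → b ≤ (w i : ℕ)) →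
    Dec w (univ.filter (fun i => (i : ℕ) < a ∧ b ≤ (w i : ℕ))) →
    Rel w (univ.filter (fun i => (i : ℕ) < a)) v →
    Rel w (univ.filter (fun i => b ≤ (w i : ℕ))) u →
    N n w = N k v * N l u
  inv : ∀ n w, N n w⁻¹ = N n w
  bip : ∀ (k : ℕ) (w : Equiv.Perm (Fin (k + 2))), w 0 < w 1 →
    (∀ i j : Fin (k + 2), 2 ≤ (i : ℕ) → i < j → w i < w j) →
    (∀ i : Fin (k + 2), 2 ≤ (i : ℕ) → w i < w 0) → k ≤ N (k + 2) w
  fan : ∀ (k : ℕ) (w : Equiv.Perm (Fin (k + 2))),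
    (∀ i j : Fin (k + 2), 1 ≤ (i : ℕ) → i < j → (j : ℕ) < k + 1 → w i < w j) →
    (∀ i : Fin (k + 2), 1 ≤ (i : ℕ) → (i : ℕ) < k + 1 → w (Fin.last (k + 1)) < w i ∧ w i < w 0) →
    w (Fin.last (k + 1)) < w 0 → k ≤ N (k + 2) w

end KLFin
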