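import Mathlib
import Pool.Agent.KLFin.ADefs

/-! More definitions of part A (MP_d9d356_co). -/

open Finset

namespace KLFin

/-- `S` is the set of positions of a pattern 3412 or 4231 -/
def IsSing {n : ℕ} (w : Equiv.Perm (Fin n)) (S : Finset (Fin n)) : Prop :=
  ∃ i j k l : Fin n, S = {i, j, k, l} ∧ i < j ∧ j < k ∧ k < l ∧
    ((w k < w l ∧ w l < w i ∧ w i < w j) ∨ (w l < w j ∧ w j < w k ∧ w k < w i))

/-- fewer than `c` pairwise disjoint singular patterns -/
def DisjSing {n : ℕ} (w : Equiv.Perm (Fin n)) (c : ℕ) : Prop :=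
  ∀ (t : ℕ) (Q : Fin t → Finset (Fin n)), (∀ i j, i ≠ j → Disjoint (Q i) (Q j)) →
    (∀ i, IsSing w (Q i)) → t < c

/-- bad right-to-left minima -/
noncomputable def BadSet {n : ℕ} (w : Equiv.Perm (Fin n)) : Finset (Fin n) := by
  classical exact (RLmin w).filter (fun q => (∃ j, q < j) ∧ Dec w (Aset w q))

/-- good right-to-left minima -/
noncomputable def GoodSet {n : ℕ} (w : Equiv.Perm (Fin n)) : Finset (Fin n) := by
  classical exact (RLmin w).filter (fun q => ¬ Dec w (Aset w q))

end KLFin
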