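import Mathlib
import Pool.Agent.KLFin.ADefs2

/-!
# Block A0 of part A (MP_d9d356_co): disjoint singular patterns, inverses.
-/

open Finset

namespace KLFin

variable {n : ℕ} {w : Equiv.Perm (Fin n)} {f : Finset (Fin n) → ℕ} {m L c : ℕ}

theorem LocalN.two_le_sing (h : LocalN w f m L) {S : Finset (Fin n)} (hS : IsSing w S) :
    2 ≤ f S := by
  obtain ⟨i, j, k, l, rfl, hij, hjk, hkl, h1 | h1⟩ := hS
  · exact h.sing3412 i j k l hij hjk hkl h1.1 h1.2.1 h1.2.2
  · exact h.sing4231 i j k l hij hjk hkl h1.1 h1.2.1 h1.2.2

theorem LocalN.two_pow_le (h : LocalN w f m L) {t : ℕ} (Q : Fin t → Finset (Fin n))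
    (hd : ∀ i j, i ≠ j → Disjoint (Q i) (Q j)) (hs : ∀ i, IsSing w (Q i)) (s : Finset (Fin t)) :
    2 ^ s.card ≤ f (s.biUnion Q) := by
  classical
  induction s using Finset.induction_on with
  | empty => simpa using h.one_le _
  | insert a s ha ih =>
    rw [Finset.card_insert_of_notMem ha, Finset.biUnion_insert, pow_succ, mul_comm]
    refine le_trans (Nat.mul_le_mul (h.two_le_sing (hs a)) ih) (h.mul _ _ ?_)
    rw [Finset.disjoint_biUnion_right]
    intro b hb
    exact hd a b (fun hab => ha (hab ▸ hb))

theorem LocalN.disjSing (h : LocalN w f m L) (hm : 1 ≤ m) (hc : 2 * m < 2 ^ c) : DisjSing w c := by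
  classical
  intro t Q hd hs
  rcases t with _ | t
  · rcases Nat.eq_zero_or_pos c with rfl | hc0
    · simp at hc; omega
    · exact hc0
  · by_contra hlt
    have hct : c ≤ t + 1 := by omega
    have h1 := h.two_pow_le Q hd hs (univ.erase 0)
    rw [Finset.card_erase_of_mem (mem_univ _), Finset.card_univ, Fintype.card_fin] at h1
    have h2 : (univ.erase (0 : Fin (t + 1))).biUnion Q ≠ univ := by
      obtain ⟨i, j, k, l, hQ, -⟩ := hs 0
      intro h3
      have h4 : i ∈ (univ.erase (0 : Fin (t + 1))).biUnion Q := by rw [h3]; exact mem_univ _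
      rw [Finset.mem_biUnion] at h4
      obtain ⟨a, ha, hia⟩ := h4
      have h5 := hd a 0 (Finset.ne_of_mem_erase ha)
      exact (Finset.disjoint_left.1 h5) hia (by rw [hQ]; simp)
    have h3 := h1.trans (h.small _ h2)
    have h4 : 2 ^ c ≤ 2 ^ (t + 1) := Nat.pow_le_pow_right (by norm_num) hct
    have h5 : 2 ^ (t + 1) = 2 * 2 ^ t := by rw [pow_succ, mul_comm]
    simp only [Nat.add_sub_cancel] at h3
    omega

theorem mem_map_inv {T : Finset (Fin n)} {p : Fin n} :
    p ∈ T.map (w⁻¹).toEmbedding ↔ w p ∈ T := by
  rw [Finset.mem_map]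
  constructor
  · rintro ⟨i, hi, rfl⟩
    simpa using hi
  · intro hp
    exact ⟨w p, hp, by simp⟩

theorem dec_map_inv {T : Finset (Fin n)} (hT : Dec w⁻¹ T) : Dec w (T.map (w⁻¹).toEmbedding) := by
  intro p hp q hq hpq
  rw [mem_map_inv] at hp hq
  by_contra hlt
  rcases (not_lt.1 hlt).eq_or_lt with h1 | h1
  · exact hpq.ne (w.injective h1)
  · have := hT _ hp _ hq h1
    simp at this
    exact absurd hpq (not_lt.2 this.le)

theorem inc_map_inv {T : Finset (Fin n)} (hT : Inc w⁻¹ T) : Inc w (T.map (w⁻¹).toEmbedding) := by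
  intro p hp q hq hpq
  rw [mem_map_inv] at hp hq
  by_contra hlt
  rcases (not_lt.1 hlt).eq_or_lt with h1 | h1
  · exact hpq.ne (w.injective h1.symm)
  · have := hT _ hq _ hp h1
    simp at this
    exact absurd hpq (not_lt.2 this.le)

theorem LocalN.inv (h : LocalN w f m L) :
    LocalN w⁻¹ (fun T => f (T.map (w⁻¹).toEmbedding)) m L where
  one_le S := h.one_le _
  mono S T hST := h.mono _ _ (Finset.map_subset_map.2 hST)
  mul S T hST := by
    have := h.mul (S.map (w⁻¹).toEmbedding) (T.map (w⁻¹).toEmbedding)
      ((Finset.disjoint_map _).2 hST)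
    rwa [← Finset.map_union] at this
  sing3412 i j k l hij hjk hkl h1 h2 h3 := by
    have := h.sing3412 (w⁻¹ k) (w⁻¹ l) (w⁻¹ i) (w⁻¹ j) h1 h2 h3 (by simpa using hij)
      (by simpa using hjk) (by simpa using hkl)
    convert this using 2
    ext p
    simp only [Finset.map_insert, Finset.map_singleton, Finset.mem_insert, Finset.mem_singleton,
      Equiv.coe_toEmbedding]
    tauto
  sing4231 i j k l hij hjk hkl h1 h2 h3 := by
    have := h.sing4231 (w⁻¹ l) (w⁻¹ j) (w⁻¹ k) (w⁻¹ i) h1 h2 h3 (by simpa using hij)
      (by simpa using hjk) (by simpa using hkl)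
    convert this using 2
    ext p
    simp only [Finset.map_insert, Finset.map_singleton, Finset.mem_insert, Finset.mem_singleton,
      Equiv.coe_toEmbedding]
    tauto
  cut S a b hS hD := by
    have key := h.cut' (S.map (w⁻¹).toEmbedding) b a (fun p hp hpb => by
      rw [mem_map_inv] at hp
      by_contra hlt
      have := hS _ hp (not_lt.1 hlt)
      simp at this
      omega) (by
      have := dec_map_inv hD
      convert this using 1
      ext p
      simp only [Finset.mem_filter, mem_map_inv]
      simp
      tauto)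
    rw [key, mul_comm]
    congr 2
    · ext p; simp only [Finset.mem_filter, mem_map_inv]
    · ext p; simp only [Finset.mem_filter, mem_map_inv]; simp
  cut' S a b hS hD := by
    have key := h.cut (S.map (w⁻¹).toEmbedding) b a (fun p hp hpb => by
      rw [mem_map_inv] at hp
      by_contra hlt
      have := hS _ hp (not_le.1 hlt)
      simp at this
      omega) (by
      have := dec_map_inv hD
      convert this using 1
      ext p
      simp only [Finset.mem_filter, mem_map_inv]
      simp
      tauto)
    rw [key, mul_comm]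
    congr 2
    · ext p; simp only [Finset.mem_filter, mem_map_inv]
    · ext p; simp only [Finset.mem_filter, mem_map_inv]; simp
  big := by
    have : (univ : Finset (Fin n)).map (w⁻¹).toEmbedding = univ := by
      ext p; simp
    rw [this]
    exact h.big
  small S hS := by
    refine h.small _ fun h1 => hS ?_
    ext p
    have : w⁻¹ p ∈ S.map (w⁻¹).toEmbedding := by rw [h1]; exact mem_univ _
    rw [mem_map_inv] at this
    simpa using this
  noK x y hxy hw T hT hT2 := by
    have := h.noK' (w⁻¹ x) (w⁻¹ y) hw (by simpa using hxy) (T.map (w⁻¹).toEmbedding)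
      (inc_map_inv hT) (fun p hp => by
        rw [mem_map_inv] at hp
        have := hT2 _ hp
        simp at this ⊢
        tauto)
    simpa using this
  noK' x y hxy hw T hT hT2 := by
    have := h.noK (w⁻¹ x) (w⁻¹ y) hw (by simpa using hxy) (T.map (w⁻¹).toEmbedding)
      (inc_map_inv hT) (fun p hp => by
        rw [mem_map_inv] at hp
        have := hT2 _ hp
        simp at this ⊢
        tauto)
    simpa using this
  noF u v T hT hT2 := by
    have := h.noF (w⁻¹ v) (w⁻¹ u) (T.map (w⁻¹).toEmbedding)
      (inc_map_inv hT) (fun p hp => by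
        rw [mem_map_inv] at hp
        have := hT2 _ hp
        simp at this ⊢
        tauto)
    simpa using this

theorem card_LRmax_eq (w : Equiv.Perm (Fin n)) : (LRmax w).card = (RLmin w⁻¹).card := by
  have : RLmin w⁻¹ = (LRmax w).map w.toEmbedding := by
    ext p
    simp only [RLmin, LRmax, Finset.mem_filter, Finset.mem_univ, true_and, Finset.mem_map,
      Equiv.coe_toEmbedding]
    constructor
    · intro hp
      refine ⟨w⁻¹ p, fun j hj => ?_, by simp⟩
      rw [show w (w⁻¹ p) = p by simp]
      by_contra hlt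
      rcases (not_lt.1 hlt).eq_or_lt with h1 | h1
      · rw [h1] at hj; simp at hj
      · have := hp _ h1
        simp at this
        exact absurd hj (not_lt.2 this.le)
    · rintro ⟨i, hi, rfl⟩ j hj
      rw [show w⁻¹ (w i) = i by simp]
      by_contra hlt
      rcases (not_lt.1 hlt).eq_or_lt with h1 | h1
      · rw [← h1] at hj; simp at hj
      · have := hi _ h1
        simp at this
        exact absurd hj (not_lt.2 this.le)
  rw [this, Finset.card_map]

end KLFin
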