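import Mathlib
import Pool.Agent.KLFin.ADefs2

/-!
# Block A1 of part A (MP_d9d356_co): the number of bad right-to-left minima is at most `log2 m`.
-/

open Finset

namespace KLFin

variable {n : ℕ} {w : Equiv.Perm (Fin n)} {f : Finset (Fin n) → ℕ} {m L : ℕ}

/-- the cut at a bad right-to-left minimum -/
theorem LocalN.bad_cut (h : LocalN w f m L) {q : Fin n} (hq : q ∈ BadSet w) :
    ∃ b : ℕ, (w q : ℕ) < b ∧ (∀ i : Fin n, q < i → b ≤ (w i : ℕ)) ∧
      ∀ S : Finset (Fin n), f S = f (S.filter (fun i : Fin n => (i : ℕ) < (q : ℕ) + 1)) *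
        f (S.filter (fun i : Fin n => b ≤ (w i : ℕ))) := by
  classical
  unfold BadSet at hq
  rw [Finset.mem_filter] at hq
  obtain ⟨hq1, ⟨j, hj⟩, hD⟩ := hq
  have hq1' : ∀ j, q < j → w q < w j := by
    have := hq1
    unfold RLmin at this
    rw [Finset.mem_filter] at this
    exact this.2
  obtain ⟨j0, hj0, hmin⟩ := Finset.exists_min_image (univ.filter (fun j => q < j))
    (fun j => (w j : ℕ)) ⟨j, by simpa using hj⟩
  have hj0' : q < j0 := by simpa using hj0
  refine ⟨(w j0 : ℕ), ?_, ?_, ?_⟩
  · exact hq1' j0 hj0'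
  · intro i hi
    exact hmin i (by simpa using hi)
  · intro S
    apply h.cut S
    · intro i _ hi
      exact hmin i (by simpa using (Fin.lt_def.2 (by omega)))
    · intro i hi j hj hij
      rw [Finset.mem_filter] at hi hj
      have key : ∀ i : Fin n, (i : ℕ) < (q : ℕ) + 1 → (w j0 : ℕ) ≤ (w i : ℕ) → i ∈ Aset w q := by
        intro i h1 h2
        have hne : i ≠ q := by
          rintro rfl
          have := hq1' j0 hj0'
          rw [Fin.lt_def] at this
          omega
        have hlt : i < q := by
          rw [Fin.lt_def]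
          have : (i : ℕ) ≠ (q : ℕ) := fun h => hne (Fin.ext h)
          omega
        have hne2 : i ≠ j0 := by
          rintro rfl
          exact absurd (hlt.trans hj0') (lt_irrefl _)
        have hw : (w j0 : ℕ) ≠ (w i : ℕ) := by
          intro h
          exact hne2 (w.injective (Fin.ext h)).symm
        unfold Aset
        rw [Finset.mem_filter]
        refine ⟨mem_univ _, hlt, j0, hj0', ?_⟩
        rw [Fin.lt_def]
        omega
      exact hD i (key i hi.2.1 hi.2.2) j (key j hj.2.1 hj.2.2) hij

/-- the induction -/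
theorem LocalN.bad_ind (h : LocalN w f m L) (p : Fin n) (t : ℕ) :
    ∀ (Q S : Finset (Fin n)), Q.card = t → Q ⊆ BadSet w → Q ⊆ S → p ∈ S → (∀ q ∈ Q, q < p) →
      (∀ q ∈ Q, f (S.erase q) < f S) → f (S.erase p) < f S → 2 ^ (t + 1) ≤ f S := by
  classical
  induction t with
  | zero =>
    intro Q S _ _ _ _ _ _ hp
    have := h.one_le (S.erase p)
    simp only [zero_add, pow_one]
    omega
  | succ t ih =>
    intro Q S hcard hbad hQS hpS hlt hQ hp
    have hne : Q.Nonempty := by
      rw [← Finset.card_pos]
      omega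
    set q1 := Q.min' hne with hq1
    have hq1Q : q1 ∈ Q := Finset.min'_mem _ _
    obtain ⟨b, hb1, hb2, hcut⟩ := h.bad_cut (hbad hq1Q)
    set A : Finset (Fin n) := S.filter (fun i : Fin n => (i : ℕ) < (q1 : ℕ) + 1) with hA
    set B : Finset (Fin n) := S.filter (fun i : Fin n => b ≤ (w i : ℕ)) with hB
    have hS : f S = f A * f B := hcut S
    have hqA : q1 ∈ A := by
      rw [hA, Finset.mem_filter]
      exact ⟨hQS hq1Q, by omega⟩
    have hqB : q1 ∉ B := by
      rw [hB, Finset.mem_filter]
      rintro ⟨_, h2⟩
      omega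
    -- points to the right of `q1`
    have hright : ∀ x : Fin n, x ∈ S → q1 < x → f (S.erase x) < f S → f (B.erase x) < f B := by
      intro x hxS hx hlt
      have e1 : (S.erase x).filter (fun i : Fin n => (i : ℕ) < (q1 : ℕ) + 1) = A := by
        rw [Finset.filter_erase, Finset.erase_eq_of_notMem]
        rw [Finset.mem_filter]
        rintro ⟨_, h2⟩
        rw [Fin.lt_def] at hx
        omega
      have e2 : (S.erase x).filter (fun i : Fin n => b ≤ (w i : ℕ)) = B.erase x := by
        rw [Finset.filter_erase]
      have e3 := hcut (S.erase x)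
      rw [e1, e2] at e3
      rw [e3, hS] at hlt
      exact lt_of_mul_lt_mul_left hlt (Nat.zero_le _)
    have hBQ : 2 ^ (t + 1) ≤ f B := by
      apply ih (Q.erase q1) B
      · rw [Finset.card_erase_of_mem hq1Q, hcard]
        rfl
      · exact (Finset.erase_subset _ _).trans hbad
      · intro x hx
        have hxQ : x ∈ Q := Finset.mem_of_mem_erase hx
        have hxlt : q1 < x := lt_of_le_of_ne (Finset.min'_le _ _ hxQ) (Finset.ne_of_mem_erase hx).symm
        rw [hB, Finset.mem_filter]
        exact ⟨hQS hxQ, hb2 x hxlt⟩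
      · rw [hB, Finset.mem_filter]
        exact ⟨hpS, hb2 p (hlt q1 hq1Q)⟩
      · intro x hx
        exact hlt x (Finset.mem_of_mem_erase hx)
      · intro x hx
        have hxQ : x ∈ Q := Finset.mem_of_mem_erase hx
        have hxlt : q1 < x := lt_of_le_of_ne (Finset.min'_le _ _ hxQ) (Finset.ne_of_mem_erase hx).symm
        exact hright x (hQS hxQ) hxlt (hQ x hxQ)
      · exact hright p hpS (hlt q1 hq1Q) hp
    have hA2 : 2 ≤ f A := by
      have e1 : (S.erase q1).filter (fun i : Fin n => (i : ℕ) < (q1 : ℕ) + 1) = A.erase q1 := by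
        rw [Finset.filter_erase]
      have e2 : (S.erase q1).filter (fun i : Fin n => b ≤ (w i : ℕ)) = B := by
        rw [Finset.filter_erase, Finset.erase_eq_of_notMem hqB]
      have e3 := hcut (S.erase q1)
      rw [e1, e2] at e3
      have hlt' := hQ q1 hq1Q
      rw [e3, hS] at hlt'
      have := lt_of_mul_lt_mul_right hlt' (Nat.zero_le _)
      have := h.one_le (A.erase q1)
      omega
    calc 2 ^ (t + 1 + 1) = 2 * 2 ^ (t + 1) := by ring
      _ ≤ f A * f B := Nat.mul_le_mul hA2 hBQ
      _ = f S := hS.symm

/-- Block A1: the number of bad right-to-left minima is at most `log2 m`. -/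
theorem LocalN.card_bad (h : LocalN w f m L) (hm : 1 ≤ m) : 2 ^ (BadSet w).card ≤ m := by
  classical
  rcases Finset.eq_empty_or_nonempty (BadSet w) with he | hne
  · rw [he]
    simpa using hm
  · set q1 := (BadSet w).min' hne with hq1
    have hq1Q : q1 ∈ BadSet w := Finset.min'_mem _ _
    obtain ⟨b, hb1, hb2, hcut⟩ := h.bad_cut hq1Q
    have hn : 0 < n := lt_of_le_of_lt (Nat.zero_le _) q1.isLt
    have herase : ∀ x : Fin n, f (univ.erase x) < f univ := by
      intro x
      refine lt_of_le_of_lt (h.small _ ?_) h.big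
      intro h0
      have h1 := Finset.notMem_erase x (univ : Finset (Fin n))
      rw [h0] at h1
      exact h1 (mem_univ x)
    -- the last position
    set p : Fin n := ⟨n - 1, by omega⟩ with hp
    have hlast : ∀ q ∈ BadSet w, q < p := by
      intro q hq
      unfold BadSet at hq
      rw [Finset.mem_filter] at hq
      obtain ⟨_, ⟨j, hj⟩, _⟩ := hq
      rw [Fin.lt_def] at hj ⊢
      have := j.isLt
      simp only [hp]
      omega
    set B : Finset (Fin n) := univ.filter (fun i : Fin n => b ≤ (w i : ℕ)) with hB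
    set A : Finset (Fin n) := univ.filter (fun i : Fin n => (i : ℕ) < (q1 : ℕ) + 1) with hA
    have hS : f univ = f A * f B := hcut univ
    have hqB : q1 ∉ B := by
      rw [hB, Finset.mem_filter]
      rintro ⟨_, h2⟩
      omega
    have hright : ∀ x : Fin n, q1 < x → f (B.erase x) < f B := by
      intro x hx
      have e1 : ((univ : Finset (Fin n)).erase x).filter (fun i : Fin n => (i : ℕ) < (q1 : ℕ) + 1) = A := by
        rw [Finset.filter_erase, Finset.erase_eq_of_notMem]
        rw [Finset.mem_filter]
        rintro ⟨_, h2⟩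
        rw [Fin.lt_def] at hx
        omega
      have e2 : ((univ : Finset (Fin n)).erase x).filter (fun i : Fin n => b ≤ (w i : ℕ)) = B.erase x := by
        rw [Finset.filter_erase]
      have e3 := hcut (univ.erase x)
      rw [e1, e2] at e3
      have hlt := herase x
      rw [e3, hS] at hlt
      exact lt_of_mul_lt_mul_left hlt (Nat.zero_le _)
    have hBQ : 2 ^ ((BadSet w).card - 1 + 1) ≤ f B := by
      apply h.bad_ind p ((BadSet w).card - 1) ((BadSet w).erase q1) B
      · rw [Finset.card_erase_of_mem hq1Q]
      · exact Finset.erase_subset _ _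
      · intro x hx
        have hxQ : x ∈ BadSet w := Finset.mem_of_mem_erase hx
        have hxlt : q1 < x := lt_of_le_of_ne (Finset.min'_le _ _ hxQ) (Finset.ne_of_mem_erase hx).symm
        rw [hB, Finset.mem_filter]
        exact ⟨mem_univ _, hb2 x hxlt⟩
      · rw [hB, Finset.mem_filter]
        exact ⟨mem_univ _, hb2 p (hlast q1 hq1Q)⟩
      · intro x hx
        exact hlast x (Finset.mem_of_mem_erase hx)
      · intro x hx
        have hxQ : x ∈ BadSet w := Finset.mem_of_mem_erase hx
        have hxlt : q1 < x := lt_of_le_of_ne (Finset.min'_le _ _ hxQ) (Finset.ne_of_mem_erase hx).symm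
        exact hright x hxlt
      · exact hright p (hlast q1 hq1Q)
    have hpos : 0 < (BadSet w).card := Finset.card_pos.2 hne
    have hc : (BadSet w).card - 1 + 1 = (BadSet w).card := by omega
    rw [hc] at hBQ
    have e1 : ((univ : Finset (Fin n)).erase q1).filter (fun i : Fin n => (i : ℕ) < (q1 : ℕ) + 1) =
        A.erase q1 := by
      rw [Finset.filter_erase]
    have e2 : ((univ : Finset (Fin n)).erase q1).filter (fun i : Fin n => b ≤ (w i : ℕ)) = B := by
      rw [Finset.filter_erase, Finset.erase_eq_of_notMem hqB]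
    have e3 := hcut (univ.erase q1)
    rw [e1, e2] at e3
    have hsm : f (univ.erase q1) ≤ m := by
      apply h.small
      intro h0
      have h1 := Finset.notMem_erase q1 (univ : Finset (Fin n))
      rw [h0] at h1
      exact h1 (mem_univ q1)
    calc 2 ^ (BadSet w).card ≤ f B := hBQ
      _ = 1 * f B := (one_mul _).symm
      _ ≤ f (A.erase q1) * f B := Nat.mul_le_mul_right _ (h.one_le _)
      _ = f (univ.erase q1) := e3.symm
      _ ≤ m := hsm

end KLFin
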