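import Mathlib
import Pool.Agent.KLFin.ADefs2

/-!
# Block A2: the number of good right-to-left minima
-/

open Finset

namespace KLFin

variable {n : ℕ} {w : Equiv.Perm (Fin n)} {f : Finset (Fin n) → ℕ} {m L c : ℕ}

namespace A2

/-- Independent sets in a graph of degree at most two. -/
theorem exists_indep {ι : Type*} [DecidableEq ι] (r : ι → ι → Prop) (hs : ∀ a b, r a b → r b a)
    (N : ι → Finset ι) (hN : ∀ a b, r a b → b ∈ N a) (hc : ∀ a, (N a).card ≤ 2) :
    ∀ (c : ℕ) (S : Finset ι), 3 * c ≤ S.card →
      ∃ T ⊆ S, T.card = c ∧ ∀ a ∈ T, ∀ b ∈ T, a ≠ b → ¬ r a b := by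
  intro c
  induction c with
  | zero => intro S _; exact ⟨∅, Finset.empty_subset _, rfl, by simp⟩
  | succ c ih =>
    intro S hS
    have hne : S.Nonempty := by rw [← Finset.card_pos]; omega
    obtain ⟨a, ha⟩ := hne
    have h1 : 3 * c ≤ (S \ insert a (N a)).card := by
      have h0 := Finset.le_card_sdiff (insert a (N a)) S
      have h2 := Finset.card_insert_le a (N a)
      have h3 := hc a
      omega
    obtain ⟨T, hT, hTc, hind⟩ := ih _ h1
    have haT : a ∉ T := fun h => by
      have := (Finset.mem_sdiff.mp (hT h)).2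
      exact this (Finset.mem_insert_self _ _)
    refine ⟨insert a T, ?_, by rw [Finset.card_insert_of_notMem haT, hTc], ?_⟩
    · intro b hb
      rcases Finset.mem_insert.mp hb with rfl | hb
      · exact ha
      · exact (Finset.mem_sdiff.mp (hT hb)).1
    · intro b hb b' hb' hne hr
      rcases Finset.mem_insert.mp hb with hba | hbT
      · rcases Finset.mem_insert.mp hb' with hba' | hbT'
        · exact hne (hba.trans hba'.symm)
        · have := (Finset.mem_sdiff.mp (hT hbT')).2
          rw [hba] at hr
          exact this (Finset.mem_insert_of_mem (hN _ _ hr))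
      · rcases Finset.mem_insert.mp hb' with hba' | hbT'
        · have := (Finset.mem_sdiff.mp (hT hbT)).2
          rw [hba'] at hr
          exact this (Finset.mem_insert_of_mem (hN _ _ (hs _ _ hr)))
        · exact hind b hbT b' hbT' hne hr

theorem mem_RLmin {q : Fin n} : q ∈ RLmin w ↔ ∀ j, q < j → w q < w j := by
  simp [RLmin]

/-- The data attached to a good right-to-left minimum. -/
theorem good_data {q : Fin n} (hq : q ∈ GoodSet w) :
    ∃ x y z : Fin n, x < y ∧ w x < w y ∧ y < q ∧ q < z ∧ w q < w z ∧ w z < w x ∧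
      z ∈ RLmin w ∧ ∀ z' ∈ RLmin w, q < z' → z ≤ z' := by
  classical
  unfold GoodSet at hq
  rw [Finset.mem_filter] at hq
  obtain ⟨hq1, hq2⟩ := hq
  unfold Dec at hq2
  push Not at hq2
  obtain ⟨x, hx, y, hy, hxy, hw⟩ := hq2
  unfold Aset at hx hy
  rw [Finset.mem_filter] at hx hy
  obtain ⟨-, hxq, j, hqj, hj⟩ := hx
  obtain ⟨-, hyq, -⟩ := hy
  have hwxy : w x < w y := lt_of_le_of_ne hw (fun h => hxy.ne (w.injective h))
  obtain ⟨z, hz, hzmin⟩ := Finset.exists_min_image (univ.filter fun i => q < i) (fun i => w i)
    ⟨j, by simp [hqj]⟩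
  rw [Finset.mem_filter] at hz
  have hmin : ∀ i, q < i → w z ≤ w i := fun i hi => hzmin i (by simp [hi])
  refine ⟨x, y, z, hxy, hwxy, hyq, hz.2, mem_RLmin.mp hq1 z hz.2, (hmin j hqj).trans_lt hj, ?_, ?_⟩
  · rw [mem_RLmin]
    intro i hi
    exact lt_of_le_of_ne (hmin i (hz.2.trans hi)) (fun h => hi.ne (w.injective h))
  · intro z' hz' hqz'
    by_contra hcon
    rw [not_le] at hcon
    exact absurd (mem_RLmin.mp hz' z hcon) (not_lt.mpr (hmin z' hqz'))

end A2

open A2

theorem card_good (hS : DisjSing w c)
    (noK : ∀ x y : Fin n, x < y → w x < w y → ∀ T : Finset (Fin n), Inc w T →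
      (∀ i ∈ T, y < i ∧ w i < w x) → T.card < L) :
    (GoodSet w).card ≤ 3 * c * L := by
  classical
  by_contra hcon
  rw [not_le] at hcon
  set G := GoodSet w with hG
  have hGR : ∀ q ∈ G, q ∈ RLmin w := by
    intro q hq
    rw [hG] at hq
    unfold GoodSet at hq
    exact (Finset.mem_filter.mp hq).1
  choose! X Y Z hXY hwXY hYq hqZ hwqZ hwZX hZR hZmin using fun q (hq : q ∈ G) => good_data hq
  -- intervals of right-to-left minima
  have hint : ∀ q ∈ G, ∀ q' ∈ G, q ≤ q' → ∀ x y : Fin n, x < y → w x < w y → y ≤ Y q →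
      w (X q') ≤ w x → ((RLmin w).filter fun l => q ≤ l ∧ l ≤ Z q').card < L := by
    intro q hq q' hq' hqq' x y hxy hwxy hy hx
    apply noK x y hxy hwxy
    · intro i hi j hj hij
      rw [Finset.mem_filter] at hi hj
      exact mem_RLmin.mp hi.1 j hij
    · intro i hi
      rw [Finset.mem_filter] at hi
      obtain ⟨hi1, hi2, hi3⟩ := hi
      refine ⟨(hy.trans_lt (hYq q hq)).trans_le hi2, ?_⟩
      refine lt_of_le_of_lt ?_ ((hwZX q' hq').trans_le hx)
      rcases hi3.eq_or_lt with h | h
      · rw [h]
      · exact (mem_RLmin.mp hi1 _ h).le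
  have hne : G.Nonempty := by
    rw [← Finset.card_pos]; omega
  have hL : 2 ≤ L := by
    obtain ⟨q, hq⟩ := hne
    have h1 := hint q hq q hq le_rfl (X q) (Y q) (hXY q hq) (hwXY q hq) le_rfl le_rfl
    have h2 : ({q, Z q} : Finset (Fin n)) ⊆ (RLmin w).filter fun l => q ≤ l ∧ l ≤ Z q := by
      intro i hi
      rw [Finset.mem_insert, Finset.mem_singleton] at hi
      rw [Finset.mem_filter]
      rcases hi with rfl | rfl
      · exact ⟨hGR _ hq, le_rfl, (hqZ _ hq).le⟩
      · exact ⟨hZR _ hq, (hqZ _ hq).le, le_rfl⟩
    have h3 := Finset.card_le_card h2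
    rw [Finset.card_pair (hqZ q hq).ne] at h3
    omega
  -- the enumeration of the good minima
  set e := G.orderEmbOfFin rfl with he
  have heG : ∀ i, e i ∈ G := fun i => Finset.orderEmbOfFin_mem G rfl i
  have hlt : ∀ t : Fin (3 * c), (t : ℕ) * L < G.card := by
    intro t
    have h1 : (t : ℕ) * L ≤ 3 * c * L := Nat.mul_le_mul_right _ t.2.le
    omega
  let a : Fin (3 * c) → Fin n := fun t => e ⟨(t : ℕ) * L, hlt t⟩
  have haG : ∀ t, a t ∈ G := fun t => heG _
  -- many good minima between two of them
  have hgap : ∀ s t : Fin (3 * c), s < t →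
      L ≤ ((RLmin w).filter fun l => a s ≤ l ∧ l ≤ Z (a t)).card := by
    intro s t hst
    have hst' : (s : ℕ) * L + L ≤ (t : ℕ) * L := by
      have : (s : ℕ) + 1 ≤ t := hst
      calc (s : ℕ) * L + L = (s + 1) * L := by ring
        _ ≤ t * L := Nat.mul_le_mul_right _ this
    have ht := hlt t
    let g : Fin L → Fin n := fun i => e ⟨(s : ℕ) * L + i, by have := i.2; omega⟩
    have hginj : Function.Injective g := by
      intro i j hij
      have := e.injective hij
      rw [Fin.mk.injEq] at this
      apply Fin.ext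
      omega
    have hsub : univ.image g ⊆ (RLmin w).filter fun l => a s ≤ l ∧ l ≤ Z (a t) := by
      intro l hl
      obtain ⟨i, -, rfl⟩ := Finset.mem_image.mp hl
      rw [Finset.mem_filter]
      refine ⟨hGR _ (heG _), ?_, ?_⟩
      · apply e.monotone
        rw [Fin.mk_le_mk]; omega
      · refine le_trans ?_ (hqZ _ (haG t)).le
        apply e.monotone
        rw [Fin.mk_le_mk]
        have := i.2
        omega
    have := Finset.card_le_card hsub
    rwa [Finset.card_image_of_injective _ hginj, Finset.card_univ, Fintype.card_fin] at this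
  have hXne : ∀ s t, s < t → X (a s) ≠ X (a t) := by
    intro s t hst h
    have h1 := hint (a s) (haG s) (a t) (haG t) (e.monotone (by
      rw [Fin.mk_le_mk]; exact Nat.mul_le_mul_right _ (le_of_lt hst))) (X (a s)) (Y (a s))
      (hXY _ (haG s)) (hwXY _ (haG s)) le_rfl (by rw [h])
    have := hgap s t hst
    omega
  have hYne : ∀ s t, s < t → Y (a s) ≠ Y (a t) := by
    intro s t hst h
    have h1 := hint (a s) (haG s) (a t) (haG t) (e.monotone (by
      rw [Fin.mk_le_mk]; exact Nat.mul_le_mul_right _ (le_of_lt hst))) (X (a t)) (Y (a t))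
      (hXY _ (haG t)) (hwXY _ (haG t)) (by rw [h]) le_rfl
    have := hgap s t hst
    omega
  have hXinj : Function.Injective fun t => X (a t) := by
    intro s t h
    rcases lt_trichotomy s t with hst | hst | hst
    · exact absurd h (hXne s t hst)
    · exact hst
    · exact absurd h.symm (hXne t s hst)
  have hYinj : Function.Injective fun t => Y (a t) := by
    intro s t h
    rcases lt_trichotomy s t with hst | hst | hst
    · exact absurd h (hYne s t hst)
    · exact hst
    · exact absurd h.symm (hYne t s hst)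
  have hZlt : ∀ s t, s < t → Z (a s) < a t := by
    intro s t hst
    have hst' : (s : ℕ) * L + L ≤ (t : ℕ) * L := by
      have : (s : ℕ) + 1 ≤ t := hst
      calc (s : ℕ) * L + L = (s + 1) * L := by ring
        _ ≤ t * L := Nat.mul_le_mul_right _ this
    have ht := hlt t
    have h1 : Z (a s) ≤ e ⟨(s : ℕ) * L + 1, by omega⟩ := by
      apply hZmin _ (haG s) _ (hGR _ (heG _))
      apply e.strictMono
      rw [Fin.mk_lt_mk]; omega
    refine h1.trans_lt (e.strictMono ?_)
    rw [Fin.mk_lt_mk]; omega
  have hmono : ∀ s t, s < t → a s < a t := fun s t hst => (hqZ _ (haG s)).trans (hZlt s t hst)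
  -- the conflict relation
  let r : Fin (3 * c) → Fin (3 * c) → Prop := fun s t => X (a s) = Y (a t) ∨ Y (a s) = X (a t)
  let Nb : Fin (3 * c) → Finset (Fin (3 * c)) := fun s =>
    (univ.filter fun t => Y (a t) = X (a s)) ∪ (univ.filter fun t => X (a t) = Y (a s))
  obtain ⟨T, -, hTc, hind⟩ := exists_indep r
    (fun s t h => by
      rcases h with h | h
      · exact Or.inr h.symm
      · exact Or.inl h.symm) Nb
    (fun s t h => by
      simp only [Nb, Finset.mem_union, Finset.mem_filter, Finset.mem_univ, true_and]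
      rcases h with h | h
      · exact Or.inl h.symm
      · exact Or.inr h.symm)
    (fun s => by
      refine (Finset.card_union_le _ _).trans ?_
      have h1 : (univ.filter fun t => Y (a t) = X (a s)).card ≤ 1 := by
        rw [Finset.card_le_one]
        intro t ht t' ht'
        rw [Finset.mem_filter] at ht ht'
        exact hYinj (ht.2.trans ht'.2.symm)
      have h2 : (univ.filter fun t => X (a t) = Y (a s)).card ≤ 1 := by
        rw [Finset.card_le_one]
        intro t ht t' ht'
        rw [Finset.mem_filter] at ht ht'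
        exact hXinj (ht.2.trans ht'.2.symm)
      omega) c univ (by simp)
  -- the disjoint patterns
  let u : Fin c → Fin (3 * c) := T.orderEmbOfFin hTc
  have huT : ∀ i, u i ∈ T := fun i => Finset.orderEmbOfFin_mem T hTc i
  have huinj : Function.Injective u := (T.orderEmbOfFin hTc).injective
  refine lt_irrefl c (hS c (fun i => {X (a (u i)), Y (a (u i)), a (u i), Z (a (u i))}) ?_ ?_)
  · -- disjointness
    have key : ∀ s ∈ T, ∀ t ∈ T, s < t → Disjoint ({X (a s), Y (a s), a s, Z (a s)} : Finset (Fin n))
        {X (a t), Y (a t), a t, Z (a t)} := by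
      intro s hs t ht hst
      have hr := hind s hs t ht hst.ne
      simp only [r, not_or] at hr
      -- right-to-left minima are different from the other points
      have hXR : ∀ q ∈ G, ∀ l ∈ RLmin w, X q ≠ l := by
        intro q hq l hl h
        have h1 := mem_RLmin.mp hl (Z q) (by
          rw [← h]; exact ((hXY q hq).trans (hYq q hq)).trans (hqZ q hq))
        rw [← h] at h1
        exact absurd h1 (not_lt.mpr (hwZX q hq).le)
      have hYR : ∀ q ∈ G, ∀ l ∈ RLmin w, Y q ≠ l := by
        intro q hq l hl h
        have h1 := mem_RLmin.mp hl (Z q) (by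
          rw [← h]; exact (hYq q hq).trans (hqZ q hq))
        rw [← h] at h1
        exact absurd h1 (not_lt.mpr ((hwZX q hq).trans (hwXY q hq)).le)
      have h1 := hZlt s t hst
      have h2 := hqZ _ (haG t)
      have h3 := hqZ _ (haG s)
      rw [Finset.disjoint_left]
      intro i hi hi'
      simp only [Finset.mem_insert, Finset.mem_singleton] at hi hi'
      have has := haG s
      have hat := haG t
      rcases hi with rfl | rfl | rfl | rfl
      · rcases hi' with h | h | h | h
        · exact hXne s t hst h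
        · exact hr.1 h
        · exact hXR _ has _ (hGR _ hat) h
        · exact hXR _ has _ (hZR _ hat) h
      · rcases hi' with h | h | h | h
        · exact hr.2 h
        · exact hYne s t hst h
        · exact hYR _ has _ (hGR _ hat) h
        · exact hYR _ has _ (hZR _ hat) h
      · rcases hi' with h | h | h | h
        · exact hXR _ hat _ (hGR _ has) h.symm
        · exact hYR _ hat _ (hGR _ has) h.symm
        · exact ((h3.trans h1).ne h)
        · exact (((h3.trans h1).trans h2).ne h)
      · rcases hi' with h | h | h | h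
        · exact hXR _ hat _ (hZR _ has) h.symm
        · exact hYR _ hat _ (hZR _ has) h.symm
        · exact (h1.ne h)
        · exact ((h1.trans h2).ne h)
    intro i j hij
    rcases lt_or_gt_of_ne (fun h => hij (huinj h) : u i ≠ u j) with h | h
    · exact key _ (huT i) _ (huT j) h
    · exact (key _ (huT j) _ (huT i) h).symm
  · intro i
    exact ⟨X (a (u i)), Y (a (u i)), a (u i), Z (a (u i)), rfl, hXY _ (haG _), hYq _ (haG _),
      hqZ _ (haG _), Or.inl ⟨hwqZ _ (haG _), hwZX _ (haG _), hwXY _ (haG _)⟩⟩

end KLFin
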