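import Pool.Agent.KLFin.A0
import Pool.Agent.KLFin.A1
import Pool.Agent.KLFin.A2

/-!
Part A of MP_d9d356_co: right-to-left minima and increasing subsequences
-/

open Finset

namespace KLFin

variable {n : ℕ} {w : Equiv.Perm (Fin n)} {f : Finset (Fin n) → ℕ} {m L c : ℕ}

/-! Block A3 -/

theorem LocalN.card_RLmin (h : LocalN w f m L) (hm : 1 ≤ m) (hc : 2 * m < 2 ^ c) :
    (RLmin w).card ≤ c + 3 * c * L + 1 := by
  classical
  have h1 := h.card_bad hm
  have h2 := card_good (h.disjSing hm hc) h.noK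
  have hbad : (BadSet w).card ≤ c := by
    by_contra hcon
    push Not at hcon
    have : 2 ^ c ≤ 2 ^ (BadSet w).card := Nat.pow_le_pow_right (by norm_num) hcon.le
    omega
  have hsub : RLmin w ⊆ (BadSet w ∪ GoodSet w) ∪ univ.filter (fun q : Fin n => ∀ j, ¬ q < j) := by
    intro q hq
    by_cases hd : Dec w (Aset w q)
    · by_cases hj : ∃ j, q < j
      · apply mem_union_left
        apply mem_union_left
        unfold BadSet
        exact mem_filter.mpr ⟨hq, hj, hd⟩
      · apply mem_union_right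
        push Not at hj
        exact mem_filter.mpr ⟨mem_univ _, fun j => not_lt.mpr (hj j)⟩
    · apply mem_union_left
      apply mem_union_right
      unfold GoodSet
      exact mem_filter.mpr ⟨hq, hd⟩
  have hlast : (univ.filter (fun q : Fin n => ∀ j, ¬ q < j)).card ≤ 1 := by
    rw [Finset.card_le_one]
    intro a ha b hb
    rw [mem_filter] at ha hb
    exact le_antisymm (not_lt.mp (hb.2 a)) (not_lt.mp (ha.2 b))
  have h3 := Finset.card_le_card hsub
  have h4 := Finset.card_union_le (BadSet w ∪ GoodSet w)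
    (univ.filter (fun q : Fin n => ∀ j, ¬ q < j))
  have h5 := Finset.card_union_le (BadSet w) (GoodSet w)
  omega

theorem LocalN.card_Inc (h : LocalN w f m L) (hm : 1 ≤ m) (hc : 2 * m < 2 ^ c)
    (T : Finset (Fin n)) (hT : Inc w T) :
    T.card ≤ 2 * (c + 3 * c * L + 1) + (c + 3 * c * L + 1) ^ 2 * L := by
  classical
  set ρ := c + 3 * c * L + 1 with hρ
  have hR := h.card_RLmin hm hc
  have hLr : (LRmax w).card ≤ ρ := by
    rw [card_LRmax_eq]
    exact h.inv.card_RLmin hm hc
  -- the interior points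
  set I := T.filter (fun z => z ∉ RLmin w ∧ z ∉ LRmax w) with hI
  have hsub : T ⊆ (RLmin w ∪ LRmax w) ∪ I := by
    intro z hz
    by_cases h1 : z ∈ RLmin w
    · exact mem_union_left _ (mem_union_left _ h1)
    by_cases h2 : z ∈ LRmax w
    · exact mem_union_left _ (mem_union_right _ h2)
    exact mem_union_right _ (mem_filter.mpr ⟨hz, h1, h2⟩)
  have hu : ∀ z : Fin n, z ∉ LRmax w → ∃ u ∈ LRmax w, u < z ∧ w z < w u := by
    intro z hz
    have hex : ∃ j, j < z ∧ w z < w j := by
      by_contra hcon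
      push Not at hcon
      apply hz
      refine mem_filter.mpr ⟨mem_univ _, fun j hj => ?_⟩
      exact lt_of_le_of_ne (hcon j hj) (fun h => hj.ne (w.injective h))
    obtain ⟨j, hj, hwj⟩ := hex
    obtain ⟨u, hu, hmax⟩ := Finset.exists_max_image (univ.filter (fun i => i < z)) (fun i => w i)
      ⟨j, mem_filter.mpr ⟨mem_univ _, hj⟩⟩
    rw [mem_filter] at hu
    refine ⟨u, mem_filter.mpr ⟨mem_univ _, fun i hi => ?_⟩, hu.2, ?_⟩
    · exact lt_of_le_of_ne (hmax i (mem_filter.mpr ⟨mem_univ _, hi.trans hu.2⟩))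
        (fun h => hi.ne (w.injective h))
    · exact lt_of_lt_of_le hwj (hmax j (mem_filter.mpr ⟨mem_univ _, hj⟩))
  have hv : ∀ z : Fin n, z ∉ RLmin w → ∃ v ∈ RLmin w, z < v ∧ w v < w z := by
    intro z hz
    have hex : ∃ j, z < j ∧ w j < w z := by
      by_contra hcon
      push Not at hcon
      apply hz
      refine mem_filter.mpr ⟨mem_univ _, fun j hj => ?_⟩
      exact lt_of_le_of_ne (hcon j hj) (fun h => hj.ne (w.injective h))
    obtain ⟨j, hj, hwj⟩ := hex
    obtain ⟨u, hu, hmin⟩ := Finset.exists_min_image (univ.filter (fun i => z < i)) (fun i => w i)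
      ⟨j, mem_filter.mpr ⟨mem_univ _, hj⟩⟩
    rw [mem_filter] at hu
    refine ⟨u, mem_filter.mpr ⟨mem_univ _, fun i hi => ?_⟩, hu.2, ?_⟩
    · exact lt_of_le_of_ne (hmin i (mem_filter.mpr ⟨mem_univ _, hu.2.trans hi⟩))
        (fun h => hi.ne (w.injective h))
    · exact lt_of_le_of_lt (hmin j (mem_filter.mpr ⟨mem_univ _, hj⟩)) hwj
  choose! U hU using hu
  choose! V hV using hv
  have hmaps : ∀ z ∈ I, (U z, V z) ∈ (LRmax w) ×ˢ (RLmin w) := by
    intro z hz
    rw [hI, mem_filter] at hz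
    exact mem_product.mpr ⟨(hU z hz.2.2).1, (hV z hz.2.1).1⟩
  have hfib : ∀ p ∈ (LRmax w) ×ˢ (RLmin w), (I.filter (fun z => (U z, V z) = p)).card ≤ L := by
    rintro ⟨u, v⟩ -
    apply le_of_lt
    apply h.noF u v
    · intro i hi j hj hij
      rw [mem_filter, hI, mem_filter] at hi hj
      exact hT i hi.1.1 j hj.1.1 hij
    · intro i hi
      rw [mem_filter, hI, mem_filter, Prod.mk.injEq] at hi
      obtain ⟨⟨hiT, hi1, hi2⟩, rfl, rfl⟩ := hi
      exact ⟨⟨(hU i hi2).2.1, (hV i hi1).2.1⟩, (hV i hi1).2.2, (hU i hi2).2.2⟩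
  have hIcard := Finset.card_le_mul_card_image_of_maps_to hmaps L hfib
  rw [card_product] at hIcard
  have h6 : (LRmax w).card * (RLmin w).card ≤ ρ * ρ := Nat.mul_le_mul hLr hR
  have h7 : L * ((LRmax w).card * (RLmin w).card) ≤ L * (ρ * ρ) := Nat.mul_le_mul_left _ h6
  have h8 : L * (ρ * ρ) = ρ ^ 2 * L := by ring
  have h3 := Finset.card_le_card hsub
  have h4 := Finset.card_union_le (RLmin w ∪ LRmax w) I
  have h5 := Finset.card_union_le (RLmin w) (LRmax w)
  omega

end KLFin
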