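import Mathlib
import Pool.Agent.KLFin.ADefs
import Pool.Agent.KLFin.ADefs2

/-! Block A5 of part A (MP_d9d356_co): the number of different sets `Jset w u` is bounded. -/

open Finset

namespace KLFin

variable {n : ℕ} {w : Equiv.Perm (Fin n)} {c : ℕ}

namespace A5

theorem lemX (hS : DisjSing w c) {T : ℕ} (p q : Fin T → Fin n) (hp : Function.Injective p)
    (hq : Function.Injective q) (hpq : ∀ i j, p i ≠ q j)
    (h : ∀ i j k, i < j → j < k → IsSing w {p i, q j, p j, q k}) : T < 3 * c := by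
  have key : T / 3 < c := by
    have hlt : ∀ (t : Fin (T / 3)), 3 * (t : ℕ) + 2 < T := by
      intro t
      have := t.isLt
      omega
    refine hS (T / 3) (fun t => {p ⟨3 * t, by have := hlt t; omega⟩,
      q ⟨3 * t + 1, by have := hlt t; omega⟩, p ⟨3 * t + 1, by have := hlt t; omega⟩,
      q ⟨3 * t + 2, hlt t⟩}) ?_ ?_
    · intro i j hij
      have hij' : (i : ℕ) ≠ j := fun e => hij (Fin.ext e)
      rw [Finset.disjoint_left]
      intro x hx hy
      simp only [mem_insert, mem_singleton] at hx hy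
      rcases hx with hx | hx | hx | hx <;> rcases hy with hy | hy | hy | hy <;>
        rw [hx] at hy <;>
        first
        | exact hpq _ _ hy
        | exact hpq _ _ hy.symm
        | (have := congrArg Fin.val (hp hy); simp only at this; omega)
        | (have := congrArg Fin.val (hq hy); simp only at this; omega)
    · intro t
      apply h
      · simp [Fin.lt_def]
      · simp [Fin.lt_def]
  omega

open Classical in
/-- length of the longest increasing sequence ending at `z` -/
noncomputable def lab (w : Equiv.Perm (Fin n)) (z : Fin n) : ℕ :=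
  (univ.filter (fun T : Finset (Fin n) => Inc w T ∧ z ∈ T ∧ ∀ i ∈ T, i ≤ z)).sup card

theorem lab_le {K : ℕ} (hK : ∀ T : Finset (Fin n), Inc w T → T.card ≤ K) (z : Fin n) :
    lab w z ≤ K := by
  classical
  unfold lab
  apply Finset.sup_le
  intro T hT
  simp only [mem_filter, mem_univ, true_and] at hT
  exact hK T hT.1

theorem single_mem (z : Fin n) : Inc w {z} ∧ z ∈ ({z} : Finset (Fin n)) ∧
    ∀ i ∈ ({z} : Finset (Fin n)), i ≤ z := by
  refine ⟨?_, by simp, by simp⟩
  intro i hi j hj hij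
  simp only [mem_singleton] at hi hj
  subst hi
  subst hj
  exact absurd hij (lt_irrefl _)

theorem one_le_lab (z : Fin n) : 1 ≤ lab w z := by
  classical
  unfold lab
  have : ({z} : Finset (Fin n)) ∈
      (univ.filter (fun T : Finset (Fin n) => Inc w T ∧ z ∈ T ∧ ∀ i ∈ T, i ≤ z)) := by
    simp only [mem_filter, mem_univ, true_and]
    exact single_mem z
  have h := Finset.le_sup (f := card) this
  simpa using h

theorem lab_lt {z z' : Fin n} (h1 : z < z') (h2 : w z < w z') : lab w z < lab w z' := by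
  classical
  have hne : (univ.filter (fun T : Finset (Fin n) =>
      Inc w T ∧ z ∈ T ∧ ∀ i ∈ T, i ≤ z)).Nonempty := by
    refine ⟨{z}, ?_⟩
    simp only [mem_filter, mem_univ, true_and]
    exact single_mem z
  obtain ⟨T, hT, hTe⟩ := Finset.exists_mem_eq_sup _ hne card
  simp only [mem_filter, mem_univ, true_and] at hT
  obtain ⟨hI, hz, hle⟩ := hT
  have hz' : z' ∉ T := fun h => absurd (hle z' h) (not_le.mpr h1)
  have hmem : insert z' T ∈
      (univ.filter (fun T : Finset (Fin n) => Inc w T ∧ z' ∈ T ∧ ∀ i ∈ T, i ≤ z')) := by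
    simp only [mem_filter, mem_univ, true_and]
    refine ⟨?_, mem_insert_self _ _, ?_⟩
    · intro i hi j hj hij
      rcases mem_insert.mp hi with rfl | hi
      · rcases mem_insert.mp hj with rfl | hj
        · exact absurd hij (lt_irrefl _)
        · exact absurd (lt_of_lt_of_le hij (hle j hj)) (not_lt.mpr h1.le)
      · rcases mem_insert.mp hj with hj | hj
        · rw [hj]
          rcases (hle i hi).lt_or_eq with h | h
          · exact lt_trans (hI i hi z hz h) h2
          · rw [h]; exact h2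
        · exact hI i hi j hj hij
    · intro i hi
      rcases mem_insert.mp hi with rfl | hi
      · exact le_rfl
      · exact (hle i hi).trans h1.le
  have h := Finset.le_sup (f := card) hmem
  rw [card_insert_of_notMem hz'] at h
  unfold lab
  rw [hTe]
  omega

/-- same label: decreasing -/
theorem dec_of_lab {z z' : Fin n} (h : lab w z = lab w z') (h1 : z < z') : w z' < w z := by
  rcases lt_trichotomy (w z) (w z') with h2 | h2 | h2
  · exact absurd (lab_lt h1 h2) (by omega)
  · exact absurd (w.injective h2) (ne_of_lt h1)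
  · exact h2

/-- same label: position order is the reverse of value order -/
theorem pos_of_val {z z' : Fin n} (h : lab w z = lab w z') (h1 : w z' < w z) : z < z' := by
  rcases lt_trichotomy z z' with h2 | h2 | h2
  · exact h2
  · rw [h2] at h1; exact absurd h1 (lt_irrefl _)
  · exact absurd (dec_of_lab h.symm h2) (not_lt.mpr h1.le)

/-- the four types of a separator `z` of `u < u'` -/
def Typ (w : Equiv.Perm (Fin n)) (u u' z : Fin n) (τ : Fin 4) : Prop :=
  (τ = 0 ∧ z < u ∧ w u' < w z ∧ w z < w u) ∨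
  (τ = 1 ∧ u < z ∧ z < u' ∧ w u < w z) ∨
  (τ = 2 ∧ u < z ∧ z < u' ∧ w z < w u') ∨
  (τ = 3 ∧ u' < z ∧ w u' < w z ∧ w z < w u)

theorem exists_typ {u u' : Fin n} (h1 : u < u') (h2 : w u' < w u)
    (hJ : Jset w u ≠ Jset w u') : ∃ z τ, Typ w u u' z τ := by
  have : ∃ z, ¬ (z ∈ Jset w u ↔ z ∈ Jset w u') := by
    by_contra hcon
    push Not at hcon
    exact hJ (Finset.ext hcon)
  obtain ⟨z, hz⟩ := this
  refine ⟨z, ?_⟩
  simp only [Jset, mem_filter, mem_univ, true_and] at hz
  have inj : ∀ a b : Fin n, (w a : ℕ) = w b ↔ (a : ℕ) = b := by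
    intro a b
    constructor
    · intro h; exact congrArg Fin.val (w.injective (Fin.ext h))
    · intro h; rw [Fin.ext h]
  have i1 := inj z u
  have i2 := inj z u'
  simp only [Fin.lt_def] at h1 h2 hz
  by_cases c0 : (z : ℕ) < u
  · refine ⟨0, Or.inl ⟨rfl, ?_⟩⟩
    simp only [Fin.lt_def]
    omega
  · by_cases c3 : (u' : ℕ) < z
    · refine ⟨3, Or.inr (Or.inr (Or.inr ⟨rfl, ?_⟩))⟩
      simp only [Fin.lt_def]
      omega
    · by_cases c1 : (w u : ℕ) < w z
      · refine ⟨1, Or.inr (Or.inl ⟨rfl, ?_⟩)⟩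
        simp only [Fin.lt_def]
        omega
      · refine ⟨2, Or.inr (Or.inr (Or.inl ⟨rfl, ?_⟩))⟩
        simp only [Fin.lt_def]
        omega

theorem lab_ne_of_typ {u u' z : Fin n} {τ : Fin 4} (_h1 : u < u') (_h2 : w u' < w u)
    (hl : lab w u = lab w u') (h : Typ w u u' z τ) : lab w z ≠ lab w u := by
  rcases h with ⟨-, h, -, h'⟩ | ⟨-, h, -, h'⟩ | ⟨-, -, h, h'⟩ | ⟨-, h, h', -⟩
  · exact (lab_lt h h').ne
  · exact (lab_lt h h').ne'
  · rw [hl]; exact (lab_lt h h').ne
  · rw [hl]; exact (lab_lt h h').ne'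

/-- the class with label `a` -/
noncomputable def cl (w : Equiv.Perm (Fin n)) (a : ℕ) : Finset (Fin n) :=
  univ.filter (fun z => lab w z = a)

theorem mem_cl {a : ℕ} {z : Fin n} : z ∈ cl w a ↔ lab w z = a := by simp [cl]

open Classical in
/-- separated consecutive elements of a class -/
noncomputable def SepA (w : Equiv.Perm (Fin n)) (a : ℕ) : Finset (Fin n) :=
  (cl w a).filter (fun u => ∃ u' ∈ cl w a, u < u' ∧ (∀ x ∈ cl w a, u < x → u' ≤ x) ∧
    Jset w u ≠ Jset w u')

/-- The main counting lemma: separated pairs of the same type with separators of the same label. -/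
theorem card_fiber (hS : DisjSing w c) (a b : ℕ) (τ : Fin 4) (nx zz : Fin n → Fin n)
    (F : Finset (Fin n)) (hF : ∀ u ∈ F, u ∈ cl w a ∧ nx u ∈ cl w a ∧ u < nx u ∧
      (∀ x ∈ cl w a, u < x → nx u ≤ x) ∧ Typ w u (nx u) (zz u) τ ∧ lab w (zz u) = b) :
    F.card ≤ 3 * c := by
  set e := F.orderEmbOfFin rfl with he
  have hm : ∀ i, e i ∈ F := fun i => F.orderEmbOfFin_mem rfl i
  have hlt : ∀ i j, i < j → e i < e j := fun i j h => e.strictMono h
  have hla : ∀ i, lab w (e i) = a := fun i => mem_cl.mp (hF _ (hm i)).1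
  have hla' : ∀ i, lab w (nx (e i)) = a := fun i => mem_cl.mp (hF _ (hm i)).2.1
  have hlb : ∀ i, lab w (zz (e i)) = b := fun i => (hF _ (hm i)).2.2.2.2.2
  have hn1 : ∀ i, e i < nx (e i) := fun i => (hF _ (hm i)).2.2.1
  have hn2 : ∀ i j, i < j → nx (e i) ≤ e j := fun i j h =>
    (hF _ (hm i)).2.2.2.1 _ (hF _ (hm j)).1 (hlt i j h)
  have hv1 : ∀ i, w (nx (e i)) < w (e i) := fun i =>
    dec_of_lab (by rw [hla, hla']) (hn1 i)
  have hv2 : ∀ i j, i < j → w (e j) ≤ w (nx (e i)) := by
    intro i j h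
    rcases (hn2 i j h).lt_or_eq with h' | h'
    · exact (dec_of_lab (by rw [hla, hla']) h').le
    · rw [h']
  have hT : ∀ i, Typ w (e i) (nx (e i)) (zz (e i)) τ := fun i => (hF _ (hm i)).2.2.2.2.1
  have hab : b ≠ a ∨ F.card = 0 := by
    by_cases h0 : F.card = 0
    · exact Or.inr h0
    · left
      have := lab_ne_of_typ (hn1 ⟨0, Nat.pos_of_ne_zero h0⟩) (hv1 _) (by rw [hla, hla']) (hT ⟨0, Nat.pos_of_ne_zero h0⟩)
      rwa [hlb, hla] at this
  rcases hab with hab | h0
  swap
  · rw [h0]; exact Nat.zero_le _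
  have hne1 : ∀ i j, zz (e i) ≠ e j := by
    intro i j h
    apply hab
    rw [← hlb i, h, hla]
  have hne2 : ∀ i j, zz (e i) ≠ nx (e j) := by
    intro i j h
    apply hab
    rw [← hlb i, h, hla']
  have hmono : ∀ i j, i < j → zz (e i) < zz (e j) ∧ w (zz (e j)) < w (zz (e i)) := by
    intro i j hij
    have t1 := hT i
    have t2 := hT j
    have l1 : lab w (zz (e i)) = lab w (zz (e j)) := by rw [hlb, hlb]
    have v2 := hv2 i j hij
    have n2 := hn2 i j hij
    have byval : w (zz (e j)) < w (zz (e i)) →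
        zz (e i) < zz (e j) ∧ w (zz (e j)) < w (zz (e i)) := fun h => ⟨pos_of_val l1 h, h⟩
    have bypos : zz (e i) < zz (e j) →
        zz (e i) < zz (e j) ∧ w (zz (e j)) < w (zz (e i)) := fun h => ⟨h, dec_of_lab l1 h⟩
    rcases t1 with ⟨rfl, a1, a2, a3⟩ | ⟨rfl, a1, a2, a3⟩ | ⟨rfl, a1, a2, a3⟩ | ⟨rfl, a1, a2, a3⟩ <;>
    rcases t2 with ⟨h, b1, b2, b3⟩ | ⟨h, b1, b2, b3⟩ | ⟨h, b1, b2, b3⟩ | ⟨h, b1, b2, b3⟩ <;>
    first
    | exact absurd h (by decide)
    | exact byval (lt_of_lt_of_le b3 (v2.trans a2.le))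
    | exact bypos (lt_of_lt_of_le a2 (n2.trans b1.le))
  have hzinj : Function.Injective (fun i => zz (e i)) := by
    intro i j h
    rcases lt_trichotomy i j with h' | h' | h'
    · exact absurd h (hmono i j h').1.ne
    · exact h'
    · exact absurd h (hmono j i h').1.ne'
  have huinj : Function.Injective (fun i => e i) := e.injective
  have hninj : Function.Injective (fun i => nx (e i)) := by
    intro i j h
    simp only at h
    rcases lt_trichotomy i j with h' | h' | h'
    · have := lt_of_le_of_lt (hn2 i j h') (hn1 j)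
      exact absurd h this.ne
    · exact h'
    · have := lt_of_le_of_lt (hn2 j i h') (hn1 i)
      exact absurd h this.ne'
  have hk : ∀ τ', τ = τ' → F.card < 3 * c := by
    intro τ' hτ
    fin_cases τ'
    · -- type i
      have hτ' : τ = 0 := hτ
      have hT0 : ∀ i, zz (e i) < e i ∧ w (nx (e i)) < w (zz (e i)) ∧ w (zz (e i)) < w (e i) := by
        intro i
        rcases hT i with ⟨h, b⟩ | ⟨h, b⟩ | ⟨h, b⟩ | ⟨h, b⟩
        · exact b
        all_goals (rw [hτ'] at h; exact absurd h (by decide))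
      refine lemX hS (fun i => zz (e i)) (fun i => e i) hzinj huinj (fun i j => hne1 i j) ?_
      intro i j k hij hjk
      obtain ⟨a1, a2, a3⟩ := hT0 i
      obtain ⟨b1, b2, b3⟩ := hT0 j
      obtain ⟨c1, c2, c3⟩ := hT0 k
      obtain ⟨m1, m2⟩ := hmono i j hij
      refine ⟨zz (e i), zz (e j), e j, e k, ?_, m1, b1, hlt j k hjk, Or.inr ⟨?_, b3, ?_⟩⟩
      · ext x; simp only [mem_insert, mem_singleton]; tauto
      · exact lt_of_le_of_lt (hv2 j k hjk) b2
      · exact lt_of_le_of_lt (hv2 i j hij) a2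
    · -- type ii
      have hτ' : τ = 1 := hτ
      have hT0 : ∀ i, e i < zz (e i) ∧ zz (e i) < nx (e i) ∧ w (e i) < w (zz (e i)) := by
        intro i
        rcases hT i with ⟨h, b⟩ | ⟨h, b⟩ | ⟨h, b⟩ | ⟨h, b⟩
        · rw [hτ'] at h; exact absurd h (by decide)
        · exact b
        all_goals (rw [hτ'] at h; exact absurd h (by decide))
      refine lemX hS (fun i => zz (e i)) (fun i => e i) hzinj huinj (fun i j => hne1 i j) ?_
      intro i j k hij hjk
      obtain ⟨a1, a2, a3⟩ := hT0 i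
      obtain ⟨b1, b2, b3⟩ := hT0 j
      obtain ⟨c1, c2, c3⟩ := hT0 k
      obtain ⟨m1, m2⟩ := hmono i j hij
      refine ⟨zz (e i), e j, zz (e j), e k, ?_, lt_of_lt_of_le a2 (hn2 i j hij), b1,
        lt_of_lt_of_le b2 (hn2 j k hjk), Or.inr ⟨?_, b3, m2⟩⟩
      · ext x; simp only [mem_insert, mem_singleton]
      · exact lt_of_le_of_lt (hv2 j k hjk) (hv1 j)
    · -- type iii
      have hτ' : τ = 2 := hτ
      have hT0 : ∀ i, e i < zz (e i) ∧ zz (e i) < nx (e i) ∧ w (zz (e i)) < w (nx (e i)) := by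
        intro i
        rcases hT i with ⟨h, b⟩ | ⟨h, b⟩ | ⟨h, b⟩ | ⟨h, b⟩
        · rw [hτ'] at h; exact absurd h (by decide)
        · rw [hτ'] at h; exact absurd h (by decide)
        · exact b
        · rw [hτ'] at h; exact absurd h (by decide)
      refine lemX hS (fun i => nx (e i)) (fun i => zz (e i)) hninj hzinj
        (fun i j h => hne2 j i h.symm) ?_
      intro i j k hij hjk
      obtain ⟨a1, a2, a3⟩ := hT0 i
      obtain ⟨b1, b2, b3⟩ := hT0 j
      obtain ⟨c1, c2, c3⟩ := hT0 k
      obtain ⟨m1, m2⟩ := hmono j k hjk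
      refine ⟨nx (e i), zz (e j), nx (e j), zz (e k), ?_, lt_of_le_of_lt (hn2 i j hij) b1, b2,
        lt_of_le_of_lt (hn2 j k hjk) c1, Or.inr ⟨m2, b3, ?_⟩⟩
      · ext x; simp only [mem_insert, mem_singleton]
      · exact lt_of_lt_of_le (hv1 j) (hv2 i j hij)
    · -- type iv
      have hτ' : τ = 3 := hτ
      have hT0 : ∀ i, nx (e i) < zz (e i) ∧ w (nx (e i)) < w (zz (e i)) ∧
          w (zz (e i)) < w (e i) := by
        intro i
        rcases hT i with ⟨h, b⟩ | ⟨h, b⟩ | ⟨h, b⟩ | ⟨h, b⟩
        · rw [hτ'] at h; exact absurd h (by decide)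
        · rw [hτ'] at h; exact absurd h (by decide)
        · rw [hτ'] at h; exact absurd h (by decide)
        · exact b
      refine lemX hS (fun i => nx (e i)) (fun i => zz (e i)) hninj hzinj
        (fun i j h => hne2 j i h.symm) ?_
      intro i j k hij hjk
      obtain ⟨a1, a2, a3⟩ := hT0 i
      obtain ⟨b1, b2, b3⟩ := hT0 j
      obtain ⟨c1, c2, c3⟩ := hT0 k
      obtain ⟨m1, m2⟩ := hmono j k hjk
      refine ⟨nx (e i), nx (e j), zz (e j), zz (e k), ?_,
        lt_of_le_of_lt (hn2 i j hij) (hn1 j), b1, m1, Or.inr ⟨?_, b2, ?_⟩⟩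
      · ext x; simp only [mem_insert, mem_singleton]; tauto
      · exact lt_of_lt_of_le c3 (hv2 j k hjk)
      · exact lt_of_lt_of_le b3 (hv2 i j hij)
  exact (hk τ rfl).le

theorem card_SepA {K : ℕ} (hK : ∀ T : Finset (Fin n), Inc w T → T.card ≤ K)
    (hS : DisjSing w c) (a : ℕ) : (SepA w a).card ≤ 4 * K * (3 * c) := by
  classical
  have hex : ∀ u : Fin n, ∃ u' z : Fin n, ∃ τ : Fin 4, u ∈ SepA w a →
      (u ∈ cl w a ∧ u' ∈ cl w a ∧ u < u' ∧ (∀ x ∈ cl w a, u < x → u' ≤ x) ∧
        Typ w u u' z τ) := by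
    intro u
    by_cases hu : u ∈ SepA w a
    · have hu0 := hu
      simp only [SepA, mem_filter] at hu
      obtain ⟨hu1, u', hu', hlt, hnx, hJ⟩ := hu
      obtain ⟨z, τ, hz⟩ := exists_typ hlt
        (dec_of_lab (by rw [mem_cl.mp hu1, mem_cl.mp hu']) hlt) hJ
      exact ⟨u', z, τ, fun _ => ⟨hu1, hu', hlt, hnx, hz⟩⟩
    · exact ⟨u, u, 0, fun h => absurd h hu⟩
  choose nx zz ty hex using hex
  have h := Finset.card_le_mul_card_image_of_maps_to (f := fun u => (ty u, lab w (zz u)))
    (s := SepA w a) (t := (univ : Finset (Fin 4)) ×ˢ Finset.Icc 1 K) (by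
      intro u _
      have h1 := one_le_lab (w := w) (zz u)
      have h2 := lab_le hK (zz u)
      exact Finset.mem_product.mpr ⟨mem_univ _, Finset.mem_Icc.mpr ⟨h1, h2⟩⟩)
    (3 * c) (by
      rintro ⟨τ, b⟩ -
      apply card_fiber hS a b τ nx zz
      intro u hu
      simp only [mem_filter, Prod.mk.injEq] at hu
      obtain ⟨h1, h2, h3⟩ := hu
      obtain ⟨g1, g2, g3, g4, g5⟩ := hex u h1
      refine ⟨g1, g2, g3, g4, ?_, h3⟩
      rw [← h2]
      exact g5)
  have hc : ((univ : Finset (Fin 4)) ×ˢ Finset.Icc 1 K).card = 4 * K := by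
    rw [Finset.card_product, Finset.card_univ, Fintype.card_fin, Nat.card_Icc]
    simp
  rw [hc] at h
  calc _ ≤ _ := h
    _ = _ := by ring

theorem card_cl_image {K : ℕ} (hK : ∀ T : Finset (Fin n), Inc w T → T.card ≤ K)
    (hS : DisjSing w c) (a : ℕ) : ((cl w a).image (Jset w)).card ≤ 4 * K * (3 * c) + 1 := by
  classical
  by_cases hne : (cl w a).Nonempty
  · have hsub : (cl w a).image (Jset w) ⊆
        insert (Jset w ((cl w a).max' hne)) ((SepA w a).image (Jset w)) := by
      intro J hJ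
      obtain ⟨u, hu, rfl⟩ := mem_image.mp hJ
      set G := (cl w a).filter (fun x => Jset w x = Jset w u) with hG
      have hGne : G.Nonempty := ⟨u, by simp [hG, hu]⟩
      have hm := G.max'_mem hGne
      set v := G.max' hGne with hv
      rw [hG, mem_filter] at hm
      obtain ⟨hv1, hv2⟩ := hm
      by_cases hlast : v = (cl w a).max' hne
      · rw [← hlast, hv2]
        exact mem_insert_self _ _
      · rw [← hv2]
        apply mem_insert_of_mem
        apply mem_image_of_mem
        set H := (cl w a).filter (fun x => v < x) with hH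
        have hHne : H.Nonempty := by
          refine ⟨(cl w a).max' hne, ?_⟩
          rw [hH, mem_filter]
          exact ⟨Finset.max'_mem _ _, lt_of_le_of_ne (Finset.le_max' _ _ hv1) hlast⟩
        have hh := H.min'_mem hHne
        set u' := H.min' hHne with hu'
        rw [hH, mem_filter] at hh
        obtain ⟨hh1, hh2⟩ := hh
        simp only [SepA, mem_filter]
        refine ⟨hv1, u', hh1, hh2, ?_, ?_⟩
        · intro x hx hvx
          apply Finset.min'_le
          rw [hH, mem_filter]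
          exact ⟨hx, hvx⟩
        · intro hJJ
          have : u' ∈ G := by
            rw [hG, mem_filter]
            exact ⟨hh1, by rw [← hJJ, hv2]⟩
          exact absurd (Finset.le_max' G u' this) (not_le.mpr hh2)
    calc _ ≤ _ := Finset.card_le_card hsub
      _ ≤ ((SepA w a).image (Jset w)).card + 1 := Finset.card_insert_le _ _
      _ ≤ (SepA w a).card + 1 := Nat.add_le_add_right Finset.card_image_le 1
      _ ≤ _ := Nat.add_le_add_right (card_SepA hK hS a) 1
  · rw [Finset.not_nonempty_iff_eq_empty] at hne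
    rw [hne]
    simp

end A5

theorem card_Jset {K : ℕ} (hK : ∀ T : Finset (Fin n), Inc w T → T.card ≤ K) (hS : DisjSing w c) :
    (univ.image (Jset w)).card ≤ K * (4 * K * (3 * c) + 1) := by
  classical
  have hsub : univ.image (Jset w) ⊆
      (Finset.Icc 1 K).biUnion (fun a => (A5.cl w a).image (Jset w)) := by
    intro J hJ
    obtain ⟨u, -, rfl⟩ := mem_image.mp hJ
    rw [Finset.mem_biUnion]
    refine ⟨A5.lab w u, Finset.mem_Icc.mpr ⟨A5.one_le_lab u, A5.lab_le hK u⟩, ?_⟩
    exact mem_image_of_mem _ (A5.mem_cl.mpr rfl)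
  calc _ ≤ _ := Finset.card_le_card hsub
    _ ≤ (Finset.Icc 1 K).card * (4 * K * (3 * c) + 1) :=
        Finset.card_biUnion_le_card_mul _ _ _ (fun a _ => A5.card_cl_image hK hS a)
    _ = _ := by rw [Nat.card_Icc]; simp

end KLFin
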