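import Mathlib
import Pool.Agent.KLFin.ADefs2

/-!
# Block A6 (MP_d9d356_co): the number of breaks is at most the square of the number of classes.
Author: helper83.
-/

open Finset

namespace KLFin

variable {n : ℕ} {w : Equiv.Perm (Fin n)}

theorem a6_mem {u z : Fin n} : z ∈ Jset w u ↔ (z < u ∧ w z < w u) ∨ (u < z ∧ w u < w z) := by
  simp [Jset]

/-- a point between two points of one class (in decreasing position) has a larger J-set -/
theorem a6_sandwich {a b c : Fin n} (hab : a < b) (hbc : b < c) (h1 : w b < w a) (h2 : w c < w b)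
    (hJ : Jset w a = Jset w c) : Jset w a ⊆ Jset w b := by
  intro z hz
  have hz' := hz
  rw [hJ] at hz'
  rw [a6_mem] at hz hz' ⊢
  rcases hz with h | h
  · rcases hz' with h' | h'
    · exact Or.inl ⟨h.1.trans hab, h'.2.trans h2⟩
    · exact absurd (h.1.trans (hab.trans hbc)) (not_lt.mpr h'.1.le)
  · rcases hz' with h' | h'
    · exact absurd (h'.2.trans (h2.trans h1)) (not_lt.mpr h.2.le)
    · exact Or.inr ⟨hbc.trans h'.1, h1.trans h.2⟩

/-- classes are decreasing -/
theorem a6_dec {a b : Fin n} (hab : a < b) (hJ : Jset w a = Jset w b) : w b < w a := by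
  by_contra hlt
  have hne : w a ≠ w b := fun h => hab.ne (w.injective h)
  have hlt' : w a < w b := lt_of_le_of_ne (not_lt.mp hlt) hne
  have h1 : a ∈ Jset w b := a6_mem.2 (Or.inl ⟨hab, hlt'⟩)
  rw [← hJ, a6_mem] at h1
  rcases h1 with h | h <;> exact absurd h.1 (lt_irrefl _)

/-- if `a < c` are consecutive in a class and `a` is a break then the gap is not empty -/
theorem a6_gap {a c : Fin n} (hac : a < c) (hJ : Jset w a = Jset w c)
    (hnext : ∀ b, a < b → b < c → Jset w b ≠ Jset w a) (hbr : a ∈ Breaks w) :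
    ∃ b, a < b ∧ b < c ∧ w b < w a ∧ w c < w b := by
  have hdec : w c < w a := a6_dec hac hJ
  by_contra hno
  push Not at hno
  -- no position strictly between
  have hpos : (c : ℕ) = a + 1 := by
    by_contra hne
    have hlt : (a : ℕ) + 1 < c := by
      have : (a : ℕ) < c := hac
      omega
    have hb : (a : ℕ) + 1 < n := hlt.trans c.2
    have h1 : a < (⟨a + 1, hb⟩ : Fin n) := by
      show (a : ℕ) < a + 1
      omega
    have h2 : (⟨a + 1, hb⟩ : Fin n) < c := hlt
    set b : Fin n := ⟨a + 1, hb⟩ with hbdef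
    have hba : w b ≠ w a := fun h => h1.ne' (w.injective h)
    have hbc : w b ≠ w c := fun h => h2.ne (w.injective h)
    rcases lt_or_gt_of_ne hba with h3 | h3
    · have h4 := hno b h1 h2 h3
      have h5 : w b < w c := lt_of_le_of_ne h4 hbc
      have h6 : b ∈ Jset w c := a6_mem.2 (Or.inl ⟨h2, h5⟩)
      rw [← hJ, a6_mem] at h6
      rcases h6 with h | h
      · exact absurd (h1.trans h.1) (lt_irrefl _)
      · exact absurd (h3.trans h.2) (lt_irrefl _)
    · have h6 : b ∈ Jset w a := a6_mem.2 (Or.inr ⟨h1, h3⟩)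
      rw [hJ, a6_mem] at h6
      rcases h6 with h | h
      · exact absurd (hdec.trans (h3.trans h.2)) (lt_irrefl _)
      · exact absurd (h2.trans h.1) (lt_irrefl _)
  have hval : (w a : ℕ) = w c + 1 := by
    by_contra hne
    have hlt : (w c : ℕ) + 1 < w a := by
      have : (w c : ℕ) < w a := hdec
      omega
    have hb : (w c : ℕ) + 1 < n := hlt.trans (w a).2
    set b : Fin n := w.symm ⟨w c + 1, hb⟩ with hbdef
    have hwb : w b = ⟨w c + 1, hb⟩ := by simp [hbdef]
    have h3 : w c < w b := by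
      rw [hwb]
      show (w c : ℕ) < w c + 1
      omega
    have h4 : w b < w a := by
      rw [hwb]
      exact hlt
    have hba : b ≠ a := fun h => h4.ne (by rw [h])
    have hbc : b ≠ c := fun h => h3.ne' (by rw [h])
    rcases lt_or_gt_of_ne hba with h1 | h1
    · have h6 : b ∈ Jset w a := a6_mem.2 (Or.inl ⟨h1, h4⟩)
      rw [hJ, a6_mem] at h6
      rcases h6 with h | h
      · exact absurd (h3.trans h.2) (lt_irrefl _)
      · exact absurd (h1.trans (hac.trans h.1)) (lt_irrefl _)
    · rcases lt_or_gt_of_ne hbc with h2 | h2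
      · exact absurd h3 (not_lt.mpr (hno b h1 h2 h4))
      · have h6 : b ∈ Jset w c := a6_mem.2 (Or.inr ⟨h2, h3⟩)
        rw [← hJ, a6_mem] at h6
        rcases h6 with h | h
        · exact absurd (h1.trans h.1) (lt_irrefl _)
        · exact absurd (h4.trans h.2) (lt_irrefl _)
  rw [Breaks, mem_filter] at hbr
  exact hbr.2 ⟨c, hpos, hval⟩

/-- the second coordinate of the injection -/
theorem a6_choice {a : Fin n} (hbr : a ∈ Breaks w) :
    ∃ b : Fin n, (b = a ∧ ∀ c, a < c → Jset w c ≠ Jset w a) ∨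
      (a < b ∧ w b < w a ∧ ∃ c, Jset w a = Jset w c ∧ b < c ∧ w c < w b ∧
        ∀ b', a < b' → b' < c → Jset w b' ≠ Jset w a) := by
  by_cases h : ∀ c, a < c → Jset w c ≠ Jset w a
  · exact ⟨a, Or.inl ⟨rfl, h⟩⟩
  · push Not at h
    set T : Finset (Fin n) := univ.filter (fun c => a < c ∧ Jset w c = Jset w a) with hT
    have hne : T.Nonempty := by
      obtain ⟨c, h1, h2⟩ := h
      exact ⟨c, by simp [hT, h1, h2]⟩
    set c := T.min' hne with hc
    have hcT : c ∈ T := T.min'_mem hne
    have hc' : a < c ∧ Jset w c = Jset w a := by simpa [hT] using hcT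
    have hnext : ∀ b, a < b → b < c → Jset w b ≠ Jset w a := by
      intro b h1 h2 h3
      have : b ∈ T := by simp [hT, h1, h3]
      exact absurd (T.min'_le b this) (not_le.mpr h2)
    obtain ⟨b, hb1, hb2, hb3, hb4⟩ := a6_gap hc'.1 hc'.2.symm hnext hbr
    exact ⟨b, Or.inr ⟨hb1, hb3, c, hc'.2.symm, hb2, hb4, hnext⟩⟩

theorem card_Breaks (w : Equiv.Perm (Fin n)) :
    (Breaks w).card ≤ (univ.image (Jset w)).card ^ 2 := by
  classical
  have hch : ∀ a : Fin n, ∃ b : Fin n, a ∈ Breaks w →
      ((b = a ∧ ∀ c, a < c → Jset w c ≠ Jset w a) ∨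
      (a < b ∧ w b < w a ∧ ∃ c, Jset w a = Jset w c ∧ b < c ∧ w c < w b ∧
        ∀ b', a < b' → b' < c → Jset w b' ≠ Jset w a)) := by
    intro a
    by_cases h : a ∈ Breaks w
    · obtain ⟨b, hb⟩ := a6_choice h
      exact ⟨b, fun _ => hb⟩
    · exact ⟨a, fun h' => absurd h' h⟩
  choose g hg using hch
  rw [sq, ← card_product]
  refine card_le_card_of_injOn (fun a => (Jset w a, Jset w (g a))) ?_ ?_
  · intro a _
    simp only [coe_product, Set.mem_prod, mem_coe, mem_image, mem_univ, true_and]
    exact ⟨⟨a, rfl⟩, ⟨g a, rfl⟩⟩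
  · -- injectivity
    have key : ∀ a ∈ Breaks w, ∀ b ∈ Breaks w, Jset w a = Jset w b →
        Jset w (g a) = Jset w (g b) → ¬ a < b := by
      intro a ha b hb h1 h2 hab
      rcases hg a ha with h | h
      · exact h.2 b hab h1.symm
      · obtain ⟨h3, h4, c, h5, h6, h7, h8⟩ := h
        have hcb : c ≤ b := by
          by_contra hlt
          exact h8 b hab (not_le.mp hlt) h1.symm
        have hwcb : w b ≤ w c := by
          rcases hcb.eq_or_lt with h | h
          · rw [h]
          · exact (a6_dec h (h5.symm.trans h1)).le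
        -- J a ⊆ J (g a)
        have hs1 : Jset w a ⊆ Jset w (g a) := a6_sandwich h3 h6 h4 h7 h5
        have hne : Jset w (g a) ≠ Jset w a := h8 (g a) h3 h6
        rcases hg b hb with h' | h'
        · rw [h2, h'.1, ← h1] at hne
          exact hne rfl
        · obtain ⟨k3, k4, -⟩ := h'
          have hs2 : Jset w (g a) ⊆ Jset w b :=
            a6_sandwich (h6.trans_le hcb) k3 (hwcb.trans_lt h7) k4 h2
          exact hne (Subset.antisymm (h1 ▸ hs2) hs1)
    intro a ha b hb hab
    simp only [Prod.mk.injEq] at hab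
    rcases lt_trichotomy a b with h | h | h
    · exact absurd h (key a ha b hb hab.1 hab.2)
    · exact h
    · exact absurd h (key b hb a ha hab.1.symm hab.2.symm)

end KLFin
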