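import Pool.Agent.KLFin.ADefs2

/-! Block A7 (MP_d9d356_co): bounded skeletons inflated by decreasing intervals, Dickson. -/

open Finset

namespace KLFin

variable {n : ℕ} {w : Equiv.Perm (Fin n)}

/-- the number of the run which contains the position `i` -/
def runNo (w : Equiv.Perm (Fin n)) (i : Fin n) : ℕ := ((Breaks w).filter (fun b => b < i)).card

theorem runNo_mono (w : Equiv.Perm (Fin n)) : Monotone (runNo w) := by
  intro i j hij
  apply card_le_card
  intro b hb
  rw [mem_filter] at hb ⊢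
  exact ⟨hb.1, lt_of_lt_of_le hb.2 hij⟩

theorem runNo_eq_iff {i j : Fin n} (hij : i ≤ j) :
    runNo w i = runNo w j ↔ ∀ b ∈ Breaks w, i ≤ b → b < j → False := by
  have hsub : (Breaks w).filter (fun b => b < i) ⊆ (Breaks w).filter (fun b => b < j) := by
    intro b hb
    rw [mem_filter] at hb ⊢
    exact ⟨hb.1, lt_of_lt_of_le hb.2 hij⟩
  constructor
  · intro h b hb h1 h2
    have h3 := Finset.eq_of_subset_of_card_le hsub (le_of_eq h.symm)
    have h4 : b ∈ (Breaks w).filter (fun b => b < j) := mem_filter.2 ⟨hb, h2⟩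
    rw [← h3, mem_filter] at h4
    exact absurd h4.2 (not_lt.2 h1)
  · intro h
    refine congrArg card (Finset.Subset.antisymm hsub ?_)
    intro b hb
    rw [mem_filter] at hb ⊢
    refine ⟨hb.1, ?_⟩
    by_contra h5
    exact h b hb.1 (not_lt.1 h5) hb.2

/-- on a run the values decrease by one -/
theorem run_val (w : Equiv.Perm (Fin n)) (i : Fin n) (t : ℕ) :
    ∀ j : Fin n, (j : ℕ) = i + t → runNo w i = runNo w j → (w i : ℕ) = w j + t := by
  induction t with
  | zero =>
    intro j hj _
    have : j = i := Fin.ext (by omega)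
    rw [this]; rfl
  | succ t ih =>
    intro j hj h
    have hjn := j.2
    let l : Fin n := ⟨i + t, by omega⟩
    have hil : i ≤ l := by change (i : ℕ) ≤ i + t; omega
    have hlj : l ≤ j := by change (i : ℕ) + t ≤ j; omega
    have hij : i ≤ j := hil.trans hlj
    have h1 := (runNo_eq_iff hij).1 h
    have h2 : runNo w i = runNo w l := by
      apply (runNo_eq_iff hil).2
      intro b hb h3 h4
      exact h1 b hb h3 (lt_of_lt_of_le h4 hlj)
    have h3 := ih l rfl h2
    have h4 : l ∉ Breaks w := fun hl => h1 l hl hil (by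
      change (i : ℕ) + t < j; omega)
    rw [Breaks, mem_filter] at h4
    have h5 : ∃ j : Fin n, (j : ℕ) = l + 1 ∧ (w l : ℕ) = w j + 1 := by
      by_contra h6
      exact h4 ⟨mem_univ _, h6⟩
    obtain ⟨j', hj', hw⟩ := h5
    have h6 : j' = j := Fin.ext (by
      change (j' : ℕ) = i + t + 1 at hj'
      omega)
    rw [h6] at hw
    omega

/-- the values of a run form an interval -/
theorem run_interval {i i' j : Fin n} (hii : i ≤ i') (h : runNo w i = runNo w i')
    (h1 : w i' ≤ w j) (h2 : w j ≤ w i) : runNo w j = runNo w i := by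
  have h3 := run_val w i ((i' : ℕ) - i) i' (by
    have : (i : ℕ) ≤ i' := hii
    omega) h
  have h4 : (i : ℕ) ≤ i' := hii
  have h5 : (w i' : ℕ) ≤ w j := h1
  have h6 : (w j : ℕ) ≤ w i := h2
  -- the position with the value `w j`
  let t : ℕ := (w i : ℕ) - w j
  have hi'n := i'.2
  let l : Fin n := ⟨i + t, by
    change (i : ℕ) + ((w i : ℕ) - w j) < n
    omega⟩
  have hil : i ≤ l := by change (i : ℕ) ≤ i + t; omega
  have hli : l ≤ i' := by
    change (i : ℕ) + ((w i : ℕ) - w j) ≤ i'
    omega
  have h7 : runNo w i = runNo w l :=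
    le_antisymm (runNo_mono w hil) (h ▸ runNo_mono w hli)
  have h8 := run_val w i t l rfl h7
  have h9 : w l = w j := Fin.ext (by
    change (w i : ℕ) = w l + ((w i : ℕ) - w j) at h8
    omega)
  have h10 : l = j := w.injective h9
  rw [← h10, ← h7]

/-- comparison of values of different runs -/
theorem run_lt {i i' j : Fin n} (h : runNo w i = runNo w i') (hj : runNo w j ≠ runNo w i)
    (h1 : w i < w j) : w i' < w j := by
  by_contra h2
  rw [not_lt] at h2
  rcases le_total i i' with h3 | h3
  · -- values decrease from `i` to `i'`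
    have h4 := run_val w i ((i' : ℕ) - i) i' (by
      have : (i : ℕ) ≤ i' := h3
      omega) h
    have h5 : (w i : ℕ) < w j := h1
    have h6 : (w j : ℕ) ≤ w i' := h2
    omega
  · exact hj ((run_interval h3 h.symm h1.le h2).trans h.symm)

theorem run_lt' {i i' j : Fin n} (h : runNo w i = runNo w i') (hj : runNo w j ≠ runNo w i)
    (h1 : w j < w i) : w j < w i' := by
  by_contra h2
  rw [not_lt] at h2
  rcases le_total i i' with h3 | h3
  · exact hj (run_interval h3 h h2 h1.le)
  · have h4 := run_val w i' ((i : ℕ) - i') i (by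
      have : (i' : ℕ) ≤ i := h3
      omega) h.symm
    have h5 : (w j : ℕ) < w i := h1
    have h6 : (w i' : ℕ) ≤ w j := h2
    omega

/-- `w` is the inflation of the skeleton `ρ` by decreasing intervals of sizes `k`. -/
def Skel (B : ℕ) (w : Equiv.Perm (Fin n)) (ρ : Fin (B + 1) → Fin (B + 1) → Bool)
    (k : Fin (B + 1) → ℕ) : Prop :=
  ∃ p : Fin n → Fin (B + 1), Monotone p ∧ (∀ a, (univ.filter (fun i => p i = a)).card = k a) ∧
    ∀ i j, w i < w j ↔ (ρ (p i) (p j) = true ∨ (p i = p j ∧ j < i))

theorem exists_skel (B : ℕ) (w : Equiv.Perm (Fin n)) (hB : (Breaks w).card ≤ B) :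
    ∃ ρ k, Skel B w ρ k := by
  classical
  have hp : ∀ i, runNo w i < B + 1 := fun i =>
    Nat.lt_succ_of_le ((card_le_card (filter_subset _ _)).trans hB)
  let p : Fin n → Fin (B + 1) := fun i => ⟨runNo w i, hp i⟩
  have hpe : ∀ i j, p i = p j ↔ runNo w i = runNo w j := fun i j => Fin.ext_iff
  refine ⟨fun a b => decide (∃ i j, p i = a ∧ p j = b ∧ a ≠ b ∧ w i < w j),
    fun a => (univ.filter (fun i => p i = a)).card, p, fun i j hij => runNo_mono w hij,
    fun a => rfl, ?_⟩
  intro i j
  rw [decide_eq_true_iff]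
  constructor
  · intro h
    by_cases h1 : p i = p j
    · refine Or.inr ⟨h1, ?_⟩
      by_contra h2
      rw [not_lt] at h2
      have h3 := run_val w i ((j : ℕ) - i) j (by
        have : (i : ℕ) ≤ j := h2
        omega) ((hpe i j).1 h1)
      have h4 : (w i : ℕ) < w j := h
      omega
    · exact Or.inl ⟨i, j, rfl, rfl, h1, h⟩
  · rintro (⟨i', j', hi, hj, hne, hlt⟩ | ⟨h1, h2⟩)
    · have hi' := (hpe i' i).1 hi
      have hj' := (hpe j' j).1 hj
      have hne' : runNo w i ≠ runNo w j := fun h => hne ((hpe i j).2 h)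
      have h3 : w i < w j' := run_lt hi' (by rw [hi', hj']; exact hne'.symm) hlt
      exact run_lt' hj' (by rw [hj']; exact hne') h3
    · have h3 := run_val w j ((i : ℕ) - j) i (by
        have : (j : ℕ) < i := h2
        omega) ((hpe j i).1 h1.symm)
      have h4 : (j : ℕ) < i := h2
      have h5 : (w i : ℕ) < w j := by omega
      exact h5

/-- smaller inflations of the same skeleton are patterns -/
theorem Skel.contains {B n n' : ℕ} {w : Equiv.Perm (Fin n)} {v : Equiv.Perm (Fin n')}
    {ρ : Fin (B + 1) → Fin (B + 1) → Bool} {k k' : Fin (B + 1) → ℕ} (hw : Skel B w ρ k)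
    (hv : Skel B v ρ k') (hk : k' ≤ k) : Contains w v := by
  classical
  obtain ⟨p, hp, hpk, hpw⟩ := hw
  obtain ⟨p', hp', hpk', hpv⟩ := hv
  -- offset in the run
  let off : Fin n' → ℕ := fun i => (univ.filter (fun j => p' j = p' i ∧ j < i)).card
  have hoff : ∀ i, off i < k (p' i) := by
    intro i
    refine lt_of_lt_of_le ?_ (hk (p' i))
    rw [← hpk' (p' i)]
    apply card_lt_card
    rw [Finset.ssubset_iff_of_subset (fun j hj => by
      rw [mem_filter] at hj ⊢
      exact ⟨mem_univ _, hj.2.1⟩)]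
    exact ⟨i, by simp, by simp⟩
  have hmem : ∀ (a : Fin (B + 1)) (t : Fin (k a)),
      p ((univ.filter (fun i => p i = a)).orderEmbOfFin (hpk a) t) = a := by
    intro a t
    have := (univ.filter (fun i => p i = a)).orderEmbOfFin_mem (hpk a) t
    exact (mem_filter.1 this).2
  let e : Fin n' → Fin n := fun i =>
    (univ.filter (fun j => p j = p' i)).orderEmbOfFin (hpk (p' i)) ⟨off i, hoff i⟩
  have hpe : ∀ i, p (e i) = p' i := fun i => hmem _ _
  have hmono : StrictMono e := by
    intro i j hij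
    rcases lt_or_eq_of_le (hp' hij.le) with h | h
    · by_contra h2
      rw [not_lt] at h2
      have h3 := hp h2
      rw [hpe, hpe] at h3
      exact absurd h (not_lt.2 h3)
    · have h1 : off i < off j := by
        apply card_lt_card
        rw [Finset.ssubset_iff_of_subset (fun l hl => by
          rw [mem_filter] at hl ⊢
          exact ⟨mem_univ _, hl.2.1.trans h, hl.2.2.trans hij⟩)]
        exact ⟨i, by simp [h, hij], by simp⟩
      have h2 : ∀ (a b : Fin (B + 1)) (hab : a = b) (s : Fin (k a)) (t : Fin (k b)),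
          (s : ℕ) < t → (univ.filter (fun j => p j = a)).orderEmbOfFin (hpk a) s <
            (univ.filter (fun j => p j = b)).orderEmbOfFin (hpk b) t := by
        intro a b hab s t hst
        subst hab
        exact ((univ.filter (fun j => p j = a)).orderEmbOfFin (hpk a)).strictMono hst
      exact h2 _ _ h _ _ h1
  refine ⟨OrderEmbedding.ofStrictMono e hmono, fun i j => ?_⟩
  change v i < v j ↔ w (e i) < w (e j)
  rw [hpw, hpv, hpe, hpe, hmono.lt_iff_lt]

/-! ## Block A7 -/

theorem bounded_of_breaks (B : ℕ) (M : (n : ℕ) → Set (Equiv.Perm (Fin n)))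
    (hB : ∀ n, ∀ w ∈ M n, (Breaks w).card ≤ B)
    (hanti : ∀ n k, ∀ w ∈ M n, ∀ v ∈ M k, Contains w v → k = n) :
    ∃ n0 : ℕ, ∀ n, (M n).Nonempty → n ≤ n0 := by
  classical
  by_contra hcon
  push Not at hcon
  have hinf : {n | (M n).Nonempty}.Infinite := by
    intro hfin
    obtain ⟨N, hN⟩ := hfin.bddAbove
    obtain ⟨n, hn, hlt⟩ := hcon N
    exact absurd (hN hn) (not_le.2 hlt)
  let g : ℕ ↪ {n | (M n).Nonempty} := hinf.natEmbedding
  have hw : ∀ t, ∃ w : Equiv.Perm (Fin (g t : ℕ)), w ∈ M (g t) := fun t => (g t).2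
  choose w hwM using hw
  have hsk : ∀ t, ∃ ρ k, Skel B (w t) ρ k := fun t => exists_skel B (w t) (hB _ _ (hwM t))
  choose ρ k hk using hsk
  let c : (Fin (B + 1) → Fin (B + 1) → Bool) → ℕ := fun r =>
    (Fintype.equivFin (Fin (B + 1) → Fin (B + 1) → Bool) r : ℕ)
  have hc : ∀ r, c r < Fintype.card (Fin (B + 1) → Fin (B + 1) → Bool) := fun r => Fin.is_lt _
  have hcinj : Function.Injective c := fun r s h =>
    (Fintype.equivFin _).injective (Fin.ext h)
  let F : ℕ → (Fin (B + 1) ⊕ Bool → ℕ) := fun t =>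
    Sum.elim (k t) (fun b => if b then c (ρ t)
      else Fintype.card (Fin (B + 1) → Fin (B + 1) → Bool) - c (ρ t))
  obtain ⟨s, t, hst, hle⟩ := (wellQuasiOrdered_le (α := Fin (B + 1) ⊕ Bool → ℕ)) F
  have h1 : k s ≤ k t := fun a => hle (Sum.inl a)
  have h2 : c (ρ s) ≤ c (ρ t) := hle (Sum.inr true)
  have h3 : Fintype.card (Fin (B + 1) → Fin (B + 1) → Bool) - c (ρ s) ≤
      Fintype.card (Fin (B + 1) → Fin (B + 1) → Bool) - c (ρ t) := hle (Sum.inr false)
  have h4 : ρ s = ρ t := hcinj (by
    have := hc (ρ s)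
    have := hc (ρ t)
    omega)
  have h5 : Skel B (w s) (ρ t) (k s) := h4 ▸ hk s
  have h6 := hanti _ _ _ (hwM t) _ (hwM s) ((hk t).contains h5 h1)
  have h7 : s = t := g.injective (Subtype.ext h6)
  omega

end KLFin
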