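import Pool.Agent.KLFin.ADefs2

/-!
Part A of MP_d9d356_co: patterns of restrictions, and the local function of a permutation
-/

open Finset

namespace KLFin

variable {n : ℕ} {w : Equiv.Perm (Fin n)} {m : ℕ}
variable {N : (n : ℕ) → Equiv.Perm (Fin n) → ℕ}

theorem pApplyInv {α : Type*} (v : Equiv.Perm α) (x : α) : v (v⁻¹ x) = x := v.apply_symm_apply x
theorem pInvApply {α : Type*} (v : Equiv.Perm α) (x : α) : v⁻¹ (v x) = x := v.symm_apply_apply x

/-- A permutation with the same relative order as an injective function. -/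
theorem exists_perm_of_inj {α : Type*} [LinearOrder α] {k : ℕ} (g : Fin k → α)
    (hg : Function.Injective g) : ∃ v : Equiv.Perm (Fin k), ∀ i j, v i < v j ↔ g i < g j := by
  classical
  have hcard : (univ.image g).card = k := by
    rw [card_image_of_injective _ hg, card_univ, Fintype.card_fin]
  let iso := (univ.image g).orderIsoOfFin hcard
  let φ : Fin k → Fin k := fun i => iso.symm ⟨g i, mem_image_of_mem _ (mem_univ _)⟩
  have hφ : Function.Injective φ := by
    intro i j hij
    have h1 := iso.symm.injective hij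
    exact hg (Subtype.ext_iff.mp h1)
  refine ⟨Equiv.ofBijective φ (Finite.injective_iff_bijective.mp hφ), ?_⟩
  intro i j
  change iso.symm _ < iso.symm _ ↔ _
  rw [OrderIso.lt_iff_lt, Subtype.mk_lt_mk]

theorem exists_Rel_of_emb (w : Equiv.Perm (Fin n)) {k : ℕ} (e : Fin k ↪o Fin n) :
    ∃ v : Equiv.Perm (Fin k), Rel w (univ.map e.toEmbedding) v ∧
      ∀ i j, v i < v j ↔ w (e i) < w (e j) := by
  obtain ⟨v, hv⟩ := exists_perm_of_inj (fun i => w (e i)) (w.injective.comp e.injective)
  exact ⟨v, ⟨e, rfl, hv⟩, hv⟩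

theorem exists_Rel (w : Equiv.Perm (Fin n)) (S : Finset (Fin n)) :
    ∃ v : Equiv.Perm (Fin S.card), Rel w S v := by
  obtain ⟨v, hv, -⟩ := exists_Rel_of_emb w (S.orderEmbOfFin rfl)
  refine ⟨v, ?_⟩
  have : univ.map (S.orderEmbOfFin rfl).toEmbedding = S := by
    ext x
    simp only [mem_map, mem_univ, true_and, RelEmbedding.coe_toEmbedding]
    have h1 := S.range_orderEmbOfFin rfl
    constructor
    · rintro ⟨i, rfl⟩
      exact S.orderEmbOfFin_mem rfl i
    · intro hx
      have : x ∈ Set.range (S.orderEmbOfFin rfl) := by rw [h1]; exact hx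
      exact this
  rwa [this] at hv

theorem Rel.contains {k : ℕ} {S : Finset (Fin n)} {v : Equiv.Perm (Fin k)} (h : Rel w S v) :
    Contains w v := by
  obtain ⟨e, -, he⟩ := h
  exact ⟨e, he⟩

theorem Contains.rel {k : ℕ} {v : Equiv.Perm (Fin k)} (h : Contains w v) :
    ∃ S : Finset (Fin n), Rel w S v := by
  obtain ⟨e, he⟩ := h
  exact ⟨_, e, rfl, he⟩

theorem Contains.refl (w : Equiv.Perm (Fin n)) : Contains w w :=
  ⟨OrderEmbedding.ofStrictMono id (fun _ _ h => h), fun _ _ => Iff.rfl⟩

theorem Contains.trans {k l : ℕ} {v : Equiv.Perm (Fin k)} {u : Equiv.Perm (Fin l)}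
    (h : Contains w v) (h' : Contains v u) : Contains w u := by
  obtain ⟨e, he⟩ := h
  obtain ⟨e', he'⟩ := h'
  exact ⟨e'.trans e, fun i j => (he' i j).trans (he _ _)⟩

theorem Contains.le {k : ℕ} {v : Equiv.Perm (Fin k)} (h : Contains w v) : k ≤ n := by
  obtain ⟨e, -⟩ := h
  simpa using Fintype.card_le_of_injective e e.injective

theorem Rel.card_eq {k : ℕ} {S : Finset (Fin n)} {v : Equiv.Perm (Fin k)} (h : Rel w S v) :
    S.card = k := by
  obtain ⟨e, he, -⟩ := h
  rw [← he, card_map, card_univ, Fintype.card_fin]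

theorem perm_eq_of_order {k : ℕ} {v v' : Equiv.Perm (Fin k)} (h : ∀ i j, v i < v j ↔ v' i < v' j) :
    v = v' := by
  let φ : Fin k ≃o Fin k :=
    { toEquiv := v⁻¹.trans v'
      map_rel_iff' := by
        intro a b
        have := h (v⁻¹ b) (v⁻¹ a)
        simp only [pApplyInv] at this
        change v' (v⁻¹ a) ≤ v' (v⁻¹ b) ↔ a ≤ b
        rw [← not_lt, ← not_lt, this] }
  have h1 : φ = OrderIso.refl _ := Subsingleton.elim _ _
  ext i
  have h2 : φ (v i) = v i := by rw [h1]; rfl
  have h3 : φ (v i) = v' i := by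
    change v' (v⁻¹ (v i)) = v' i
    rw [pInvApply]
  rw [← h2, h3]

theorem Rel.unique {k k' : ℕ} {S : Finset (Fin n)} {v : Equiv.Perm (Fin k)}
    {v' : Equiv.Perm (Fin k')} (h : Rel w S v) (h' : Rel w S v')
    (N : (n : ℕ) → Equiv.Perm (Fin n) → ℕ) : N k v = N k' v' := by
  obtain rfl : k = k' := h.card_eq.symm.trans h'.card_eq
  have hc := h.card_eq
  obtain ⟨e, he, hv⟩ := h
  obtain ⟨e', he', hv'⟩ := h'
  have h1 : e = S.orderEmbOfFin hc := by
    apply Finset.orderEmbOfFin_unique'
    intro x
    rw [← he]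
    exact mem_map.mpr ⟨x, mem_univ _, rfl⟩
  have h2 : e' = S.orderEmbOfFin hc := by
    apply Finset.orderEmbOfFin_unique'
    intro x
    rw [← he']
    exact mem_map.mpr ⟨x, mem_univ _, rfl⟩
  rw [← h2] at h1
  subst h1
  have : v = v' := perm_eq_of_order (fun i j => (hv i j).trans (hv' i j).symm)
  rw [this]

/-- Restriction of a restriction. -/
theorem Rel.restrict {k l : ℕ} {e : Fin l ↪o Fin n} {u : Equiv.Perm (Fin l)}
    (hu : ∀ i j, u i < u j ↔ w (e i) < w (e j)) {S : Finset (Fin n)}
    (hS : S ⊆ univ.map e.toEmbedding) {v : Equiv.Perm (Fin k)} (hv : Rel w S v) :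
    Rel u (univ.filter (fun i => e i ∈ S)) v := by
  obtain ⟨e2, he2, hv2⟩ := hv
  have hex : ∀ i, ∃ j, e j = e2 i := by
    intro i
    have h1 : e2 i ∈ S := by rw [← he2]; exact mem_map.mpr ⟨i, mem_univ _, rfl⟩
    obtain ⟨j, -, hj⟩ := mem_map.mp (hS h1)
    exact ⟨j, hj⟩
  choose g hg using hex
  have hmono : StrictMono g := by
    intro i j hij
    rw [← e.lt_iff_lt, hg, hg, e2.lt_iff_lt]
    exact hij
  refine ⟨OrderEmbedding.ofStrictMono g hmono, ?_, ?_⟩
  · ext x
    simp only [mem_map, mem_univ, true_and, mem_filter, RelEmbedding.coe_toEmbedding,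
      OrderEmbedding.coe_ofStrictMono]
    constructor
    · rintro ⟨i, rfl⟩
      rw [hg, ← he2]
      exact mem_map.mpr ⟨i, mem_univ _, rfl⟩
    · intro hx
      rw [← he2] at hx
      obtain ⟨i, -, hi⟩ := mem_map.mp hx
      refine ⟨i, e.injective ?_⟩
      rw [hg]
      exact hi
  · intro i j
    rw [OrderEmbedding.coe_ofStrictMono, hu, hg, hg, hv2]

/-- The pattern of the inverse. -/
theorem Rel.inverse {k : ℕ} {S : Finset (Fin n)} {v : Equiv.Perm (Fin k)} (h : Rel w S v) :
    Rel w⁻¹ (S.map w.toEmbedding) v⁻¹ := by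
  obtain ⟨e, he, hv⟩ := h
  have hmono : StrictMono (fun i => w (e (v⁻¹ i))) := by
    intro i j hij
    change w (e (v⁻¹ i)) < w (e (v⁻¹ j))
    rw [← hv, pApplyInv, pApplyInv]
    exact hij
  refine ⟨OrderEmbedding.ofStrictMono _ hmono, ?_, ?_⟩
  · ext x
    simp only [mem_map, mem_univ, true_and, RelEmbedding.coe_toEmbedding,
      OrderEmbedding.coe_ofStrictMono, Equiv.coe_toEmbedding]
    constructor
    · rintro ⟨i, rfl⟩
      exact ⟨e (v⁻¹ i), by rw [← he]; exact mem_map.mpr ⟨_, mem_univ _, rfl⟩, rfl⟩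
    · rintro ⟨y, hy, rfl⟩
      rw [← he] at hy
      obtain ⟨i, -, hi⟩ := mem_map.mp hy
      refine ⟨v i, ?_⟩
      rw [pInvApply, ← hi]; rfl
  · intro i j
    rw [OrderEmbedding.coe_ofStrictMono]
    simp only [pInvApply]
    rw [e.lt_iff_lt]

theorem Contains.inverse {k : ℕ} {v : Equiv.Perm (Fin k)} (h : Contains w v) :
    Contains w⁻¹ v⁻¹ := by
  obtain ⟨S, hS⟩ := h.rel
  exact hS.inverse.contains

/-- Thresholds transfer to patterns. -/
theorem exists_threshold {k : ℕ} (v : Equiv.Perm (Fin k)) (g : Fin k → Fin n)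
    (h : ∀ i j, v i < v j ↔ g i < g j) (b : ℕ) :
    ∃ b' : ℕ, ∀ i, b' ≤ (v i : ℕ) ↔ b ≤ (g i : ℕ) := by
  classical
  refine ⟨(univ.filter (fun j => (g j : ℕ) < b)).card, fun i => ?_⟩
  have hlt : (univ.filter (fun j => v j < v i)).card = (v i : ℕ) := by
    have h1 : (univ.filter (fun j => v j < v i)).map v.toEmbedding = Iio (v i) := by
      ext x
      simp only [mem_map, mem_filter, mem_univ, true_and, Equiv.coe_toEmbedding, mem_Iio]
      constructor
      · rintro ⟨j, hj, rfl⟩; exact hj
      · intro hx; exact ⟨v⁻¹ x, by rw [pApplyInv]; exact hx, by simp⟩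
    rw [← card_map v.toEmbedding, h1, Fin.card_Iio]
  have hle : (univ.filter (fun j => v j ≤ v i)).card = (v i : ℕ) + 1 := by
    have h1 : (univ.filter (fun j => v j ≤ v i)).map v.toEmbedding = Iic (v i) := by
      ext x
      simp only [mem_map, mem_filter, mem_univ, true_and, Equiv.coe_toEmbedding, mem_Iic]
      constructor
      · rintro ⟨j, hj, rfl⟩; exact hj
      · intro hx; exact ⟨v⁻¹ x, by rw [pApplyInv]; exact hx, by simp⟩
    rw [← card_map v.toEmbedding, h1, Fin.card_Iic]
  have hle' : ∀ i j, v i ≤ v j ↔ g i ≤ g j := by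
    intro i j
    rw [← not_lt, ← not_lt, h]
  constructor
  · intro hb
    by_contra hcon
    push Not at hcon
    have hsub : univ.filter (fun j => v j ≤ v i) ⊆ univ.filter (fun j => (g j : ℕ) < b) := by
      intro j hj
      rw [mem_filter] at hj ⊢
      refine ⟨mem_univ _, ?_⟩
      have := (hle' j i).mp hj.2
      exact lt_of_le_of_lt this hcon
    have := card_le_card hsub
    omega
  · intro hb
    rw [← hlt]
    apply card_le_card
    intro j hj
    rw [mem_filter] at hj ⊢
    refine ⟨mem_univ _, (h j i).mpr ?_⟩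
    exact Fin.lt_def.mpr (lt_of_lt_of_le hj.2 hb)

theorem GlobalN.mono (h : GlobalN N) {k : ℕ} (w : Equiv.Perm (Fin n)) (v : Equiv.Perm (Fin k))
    (hc : Contains w v) : N k v ≤ N n w := by
  obtain ⟨S, hS⟩ := hc.rel
  obtain ⟨u, hu⟩ := exists_Rel w Sᶜ
  have h1 := h.mul n k _ w v u S Sᶜ disjoint_compl_right (union_compl S) hS hu
  have h2 := h.one_le _ u
  calc N k v = N k v * 1 := (mul_one _).symm
    _ ≤ N k v * N _ u := Nat.mul_le_mul_left _ h2
    _ ≤ _ := h1

/-- the local function of a permutation -/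
noncomputable def fOf (N : (n : ℕ) → Equiv.Perm (Fin n) → ℕ) {n : ℕ} (w : Equiv.Perm (Fin n))
    (S : Finset (Fin n)) : ℕ := N S.card (exists_Rel w S).choose

theorem fOf_eq {k : ℕ} {S : Finset (Fin n)} {v : Equiv.Perm (Fin k)} (h : Rel w S v) :
    fOf N w S = N k v := (exists_Rel w S).choose_spec.unique h N

/-- A pattern `K_{2,k}`. -/
theorem GlobalN.bip_pat (h : GlobalN N) {x y : Fin n} (hxy : x < y) (hw : w x < w y) {k : ℕ}
    (t : Fin k ↪o Fin n) (ht : ∀ i, y < t i ∧ w (t i) < w x)
    (hinc : ∀ i j, i < j → w (t i) < w (t j)) :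
    ∃ v : Equiv.Perm (Fin (k + 2)), Rel w (insert x (insert y (univ.map t.toEmbedding))) v ∧
      k ≤ N (k + 2) v := by
  let e : Fin (k + 2) → Fin n := Fin.cons x (Fin.cons y t)
  have e0 : e 0 = x := rfl
  have e1 : e 1 = y := rfl
  have e2 : ∀ i : Fin k, e i.succ.succ = t i := fun i => rfl
  have hmono : StrictMono e := by
    intro i j hij
    induction i using Fin.cases with
    | zero =>
      induction j using Fin.cases with
      | zero => exact absurd hij (lt_irrefl _)
      | succ j =>
        induction j using Fin.cases with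
        | zero => exact hxy
        | succ j => exact hxy.trans (ht j).1
    | succ i =>
      induction j using Fin.cases with
      | zero => exact absurd hij (Fin.not_lt_zero _)
      | succ j =>
        rw [Fin.succ_lt_succ_iff] at hij
        induction i using Fin.cases with
        | zero =>
          induction j using Fin.cases with
          | zero => exact absurd hij (lt_irrefl _)
          | succ j => exact (ht j).1
        | succ i =>
          induction j using Fin.cases with
          | zero => exact absurd hij (Fin.not_lt_zero _)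
          | succ j =>
            rw [Fin.succ_lt_succ_iff] at hij
            exact t.strictMono hij
  obtain ⟨v, hv, hvo⟩ := exists_Rel_of_emb w (OrderEmbedding.ofStrictMono e hmono)
  have hvo' : ∀ i j, v i < v j ↔ w (e i) < w (e j) := hvo
  have himg : univ.map (OrderEmbedding.ofStrictMono e hmono).toEmbedding =
      insert x (insert y (univ.map t.toEmbedding)) := by
    ext z
    simp only [mem_map, mem_univ, true_and, RelEmbedding.coe_toEmbedding,
      OrderEmbedding.coe_ofStrictMono, mem_insert]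
    constructor
    · rintro ⟨i, rfl⟩
      induction i using Fin.cases with
      | zero => left; rfl
      | succ i =>
        right
        induction i using Fin.cases with
        | zero => left; rfl
        | succ i => right; exact ⟨i, rfl⟩
    · rintro (rfl | rfl | ⟨i, rfl⟩)
      · exact ⟨0, rfl⟩
      · exact ⟨1, rfl⟩
      · exact ⟨i.succ.succ, rfl⟩
  rw [himg] at hv
  refine ⟨v, hv, h.bip k v ?_ ?_ ?_⟩
  · rw [hvo', e0, e1]; exact hw
  · intro i j hi hij
    rw [hvo']
    have hi' : ∃ i' : Fin k, i = i'.succ.succ := by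
      refine ⟨⟨i - 2, by omega⟩, ?_⟩
      ext; simp; omega
    have hj' : ∃ j' : Fin k, j = j'.succ.succ := by
      have : (i : ℕ) < j := hij
      refine ⟨⟨j - 2, by omega⟩, ?_⟩
      ext; simp; omega
    obtain ⟨i', rfl⟩ := hi'
    obtain ⟨j', rfl⟩ := hj'
    rw [e2, e2]
    exact hinc _ _ (Fin.succ_lt_succ_iff.mp (Fin.succ_lt_succ_iff.mp hij))
  · intro i hi
    rw [hvo']
    have hi' : ∃ i' : Fin k, i = i'.succ.succ := by
      refine ⟨⟨i - 2, by omega⟩, ?_⟩
      ext; simp; omega
    obtain ⟨i', rfl⟩ := hi'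
    rw [e2, e0]
    exact (ht i').2

/-- A pattern `F_k`. -/
theorem GlobalN.fan_pat (h : GlobalN N) {x y : Fin n} (hxy : x < y) (hw : w y < w x) {k : ℕ}
    (t : Fin k ↪o Fin n) (ht : ∀ i, (x < t i ∧ t i < y) ∧ (w y < w (t i) ∧ w (t i) < w x))
    (hinc : ∀ i j, i < j → w (t i) < w (t j)) :
    ∃ v : Equiv.Perm (Fin (k + 2)), Rel w (insert x (insert y (univ.map t.toEmbedding))) v ∧
      k ≤ N (k + 2) v := by
  let e : Fin (k + 2) → Fin n := Fin.cons x (Fin.snoc t y)
  have e0 : e 0 = x := rfl
  have e1 : e (Fin.last (k + 1)) = y := by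
    change (Fin.cons x (Fin.snoc t y : Fin (k + 1) → Fin n) : Fin (k + 2) → Fin n)
      (Fin.last k).succ = y
    rw [Fin.cons_succ, Fin.snoc_last]
  have e2 : ∀ i : Fin k, e i.castSucc.succ = t i := by
    intro i
    change (Fin.cons x (Fin.snoc t y : Fin (k + 1) → Fin n) : Fin (k + 2) → Fin n) _ = _
    rw [Fin.cons_succ, Fin.snoc_castSucc]
  have hmono : StrictMono e := by
    intro i j hij
    induction i using Fin.cases with
    | zero =>
      induction j using Fin.cases with
      | zero => exact absurd hij (lt_irrefl _)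
      | succ j =>
        induction j using Fin.lastCases with
        | last => rw [e0, Fin.succ_last, e1]; exact hxy
        | cast j => rw [e0, e2]; exact (ht j).1.1
    | succ i =>
      induction j using Fin.cases with
      | zero => exact absurd hij (Fin.not_lt_zero _)
      | succ j =>
        rw [Fin.succ_lt_succ_iff] at hij
        induction i using Fin.lastCases with
        | last => exact absurd hij (not_lt.mpr (Fin.le_last _))
        | cast i =>
          induction j using Fin.lastCases with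
          | last => rw [Fin.succ_last, e1, e2]; exact (ht i).1.2
          | cast j =>
            rw [e2, e2]
            exact t.strictMono (Fin.castSucc_lt_castSucc_iff.mp hij)
  obtain ⟨v, hv, hvo⟩ := exists_Rel_of_emb w (OrderEmbedding.ofStrictMono e hmono)
  have hvo' : ∀ i j, v i < v j ↔ w (e i) < w (e j) := hvo
  have himg : univ.map (OrderEmbedding.ofStrictMono e hmono).toEmbedding =
      insert x (insert y (univ.map t.toEmbedding)) := by
    ext z
    simp only [mem_map, mem_univ, true_and, RelEmbedding.coe_toEmbedding,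
      OrderEmbedding.coe_ofStrictMono, mem_insert]
    constructor
    · rintro ⟨i, rfl⟩
      induction i using Fin.cases with
      | zero => left; rfl
      | succ i =>
        right
        induction i using Fin.lastCases with
        | last => left; rw [Fin.succ_last, e1]
        | cast i => right; exact ⟨i, (e2 i).symm⟩
    · rintro (rfl | rfl | ⟨i, rfl⟩)
      · exact ⟨0, rfl⟩
      · exact ⟨_, e1⟩
      · exact ⟨_, e2 i⟩
  rw [himg] at hv
  have hmid : ∀ i : Fin (k + 2), 1 ≤ (i : ℕ) → (i : ℕ) < k + 1 → ∃ i' : Fin k,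
      i = i'.castSucc.succ := by
    intro i h1 h2
    refine ⟨⟨i - 1, by omega⟩, ?_⟩
    ext; simp; omega
  refine ⟨v, hv, h.fan k v ?_ ?_ ?_⟩
  · intro i j hi hij hj
    rw [hvo']
    have hij' : (i : ℕ) < j := hij
    obtain ⟨i', rfl⟩ := hmid i hi (by omega)
    obtain ⟨j', rfl⟩ := hmid j (by omega) hj
    rw [e2, e2]
    apply hinc
    rw [Fin.succ_lt_succ_iff, Fin.castSucc_lt_castSucc_iff] at hij
    exact hij
  · intro i h1 h2
    obtain ⟨i', rfl⟩ := hmid i h1 h2
    rw [hvo', hvo', e1, e2, e0]
    exact (ht i').2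
  · rw [hvo', e1, e0]; exact hw

end KLFin
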