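import Pool.Agent.KLFin.A3
import Pool.Agent.KLFin.A5
import Pool.Agent.KLFin.A6
import Pool.Agent.KLFin.A7
import Pool.Agent.KLFin.A8a

/-!
Part A of MP_d9d356_co: assembly
-/

open Finset

namespace KLFin

variable {n : ℕ} {w : Equiv.Perm (Fin n)} {m : ℕ}
variable {N : (n : ℕ) → Equiv.Perm (Fin n) → ℕ}

/-- The restriction of `w` to `S`, with the embedding. -/
theorem exists_Rel_emb (w : Equiv.Perm (Fin n)) (S : Finset (Fin n)) :
    ∃ (k : ℕ) (e : Fin k ↪o Fin n) (u : Equiv.Perm (Fin k)), univ.map e.toEmbedding = S ∧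
      Rel w S u ∧ ∀ i j, u i < u j ↔ w (e i) < w (e j) := by
  obtain ⟨u, hu⟩ := exists_Rel w S
  obtain ⟨e, he, hv⟩ := hu
  exact ⟨_, e, u, he, ⟨e, he, hv⟩, hv⟩

theorem fOf_mono (h : GlobalN N) {S T : Finset (Fin n)} (hST : S ⊆ T) :
    fOf N w S ≤ fOf N w T := by
  obtain ⟨k, e, u, he, hu, huo⟩ := exists_Rel_emb w T
  obtain ⟨v, hv⟩ := exists_Rel w S
  rw [fOf_eq hu, fOf_eq hv]
  exact h.mono u v (Rel.restrict huo (by rw [he]; exact hST) hv).contains

theorem fOf_mul (h : GlobalN N) {S T : Finset (Fin n)} (hST : Disjoint S T) :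
    fOf N w S * fOf N w T ≤ fOf N w (S ∪ T) := by
  classical
  obtain ⟨k, e, u, he, hu, huo⟩ := exists_Rel_emb w (S ∪ T)
  obtain ⟨v, hv⟩ := exists_Rel w S
  obtain ⟨v', hv'⟩ := exists_Rel w T
  rw [fOf_eq hu, fOf_eq hv, fOf_eq hv']
  refine h.mul k _ _ u v v' _ _ ?_ ?_
    (Rel.restrict huo (by rw [he]; exact subset_union_left) hv)
    (Rel.restrict huo (by rw [he]; exact subset_union_right) hv')
  · rw [Finset.disjoint_left]
    intro i hi hi'
    rw [mem_filter] at hi hi'
    exact Finset.disjoint_left.mp hST hi.2 hi'.2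
  · ext i
    simp only [mem_union, mem_filter, mem_univ, true_and, iff_true]
    have : e i ∈ S ∪ T := by rw [← he]; exact mem_map.mpr ⟨i, mem_univ _, rfl⟩
    exact mem_union.mp this

theorem fOf_cut (h : GlobalN N) (S : Finset (Fin n)) (a b : ℕ)
    (hab : ∀ i ∈ S, a ≤ (i : ℕ) → b ≤ (w i : ℕ))
    (hD : Dec w (S.filter (fun i : Fin n => (i : ℕ) < a ∧ b ≤ (w i : ℕ)))) :
    fOf N w S = fOf N w (S.filter (fun i : Fin n => (i : ℕ) < a)) *
      fOf N w (S.filter (fun i : Fin n => b ≤ (w i : ℕ))) := by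
  classical
  obtain ⟨k, e, u, he, hu, huo⟩ := exists_Rel_emb w S
  have hemem : ∀ i, e i ∈ S := by
    intro i; rw [← he]; exact mem_map.mpr ⟨i, mem_univ _, rfl⟩
  obtain ⟨v, hv⟩ := exists_Rel w (S.filter (fun i : Fin n => (i : ℕ) < a))
  obtain ⟨v', hv'⟩ := exists_Rel w (S.filter (fun i : Fin n => b ≤ (w i : ℕ)))
  rw [fOf_eq hu, fOf_eq hv, fOf_eq hv']
  obtain ⟨a', ha'⟩ := exists_threshold (1 : Equiv.Perm (Fin k)) e
    (fun i j => (e.lt_iff_lt (a := i) (b := j)).symm) a
  obtain ⟨b', hb'⟩ := exists_threshold u (fun i => w (e i)) huo b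
  have ha'' : ∀ i : Fin k, a' ≤ (i : ℕ) ↔ a ≤ (e i : ℕ) := ha'
  refine h.cut k _ _ u v v' a' b' ?_ ?_ ?_ ?_
  · intro i hi
    exact (hb' i).mpr (hab _ (hemem i) ((ha'' i).mp hi))
  · intro i hi j hj hij
    rw [mem_filter] at hi hj
    rw [huo]
    apply hD
    · refine mem_filter.mpr ⟨hemem i, ?_, (hb' i).mp hi.2.2⟩
      by_contra hcon
      push Not at hcon
      have := (ha'' i).mpr hcon
      omega
    · refine mem_filter.mpr ⟨hemem j, ?_, (hb' j).mp hj.2.2⟩
      by_contra hcon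
      push Not at hcon
      have := (ha'' j).mpr hcon
      omega
    · exact e.lt_iff_lt.mpr hij
  · have h1 := Rel.restrict huo (by rw [he]; exact filter_subset _ _) hv
    have h2 : univ.filter (fun i => e i ∈ S.filter (fun i : Fin n => (i : ℕ) < a)) =
        univ.filter (fun i : Fin k => (i : ℕ) < a') := by
      ext i
      simp only [mem_filter, mem_univ, true_and]
      rw [← not_le, ← not_le, ha'' i]
      exact and_iff_right (hemem i)
    rwa [h2] at h1
  · have h1 := Rel.restrict huo (by rw [he]; exact filter_subset _ _) hv'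
    have h2 : univ.filter (fun i => e i ∈ S.filter (fun i : Fin n => b ≤ (w i : ℕ))) =
        univ.filter (fun i : Fin k => b' ≤ (u i : ℕ)) := by
      ext i
      simp only [mem_filter, mem_univ, true_and]
      rw [hb' i]
      exact and_iff_right (hemem i)
    rwa [h2] at h1

theorem fOf_inv (h : GlobalN N) (S : Finset (Fin n)) :
    fOf N w⁻¹ (S.map w.toEmbedding) = fOf N w S := by
  obtain ⟨v, hv⟩ := exists_Rel w S
  rw [fOf_eq hv, fOf_eq hv.inverse, h.inv]

theorem fOf_cut' (h : GlobalN N) (S : Finset (Fin n)) (a b : ℕ)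
    (hab : ∀ i ∈ S, (i : ℕ) < a → (w i : ℕ) < b)
    (hD : Dec w (S.filter (fun i : Fin n => a ≤ (i : ℕ) ∧ (w i : ℕ) < b))) :
    fOf N w S = fOf N w (S.filter (fun i : Fin n => a ≤ (i : ℕ))) *
      fOf N w (S.filter (fun i : Fin n => (w i : ℕ) < b)) := by
  classical
  rw [← fOf_inv h S, ← fOf_inv h (S.filter (fun i : Fin n => a ≤ (i : ℕ))),
    ← fOf_inv h (S.filter (fun i : Fin n => (w i : ℕ) < b))]
  have hmem : ∀ x, x ∈ S.map w.toEmbedding ↔ w⁻¹ x ∈ S := by
    intro x
    rw [mem_map]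
    constructor
    · rintro ⟨y, hy, rfl⟩
      rw [Equiv.coe_toEmbedding, pInvApply]; exact hy
    · intro hx
      exact ⟨_, hx, pApplyInv w x⟩
  have h1 : (S.filter (fun i : Fin n => a ≤ (i : ℕ))).map w.toEmbedding =
      (S.map w.toEmbedding).filter (fun i : Fin n => a ≤ (w⁻¹ i : ℕ)) := by
    ext x
    rw [mem_filter, hmem, mem_map]
    constructor
    · rintro ⟨y, hy, rfl⟩
      rw [mem_filter] at hy
      rw [Equiv.coe_toEmbedding, pInvApply]; exact hy
    · intro hx
      exact ⟨_, mem_filter.mpr hx, pApplyInv w x⟩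
  have h2 : (S.filter (fun i : Fin n => (w i : ℕ) < b)).map w.toEmbedding =
      (S.map w.toEmbedding).filter (fun i : Fin n => (i : ℕ) < b) := by
    ext x
    rw [mem_filter, hmem, mem_map]
    constructor
    · rintro ⟨y, hy, rfl⟩
      rw [mem_filter] at hy
      rw [Equiv.coe_toEmbedding, pInvApply]; exact hy
    · intro hx
      refine ⟨w⁻¹ x, mem_filter.mpr ⟨hx.1, ?_⟩, pApplyInv w x⟩
      rw [pApplyInv]; exact hx.2
  rw [h1, h2, mul_comm]
  apply fOf_cut h
  · intro i hi hbi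
    rw [hmem] at hi
    by_contra hcon
    push Not at hcon
    have := hab _ hi hcon
    rw [pApplyInv] at this
    omega
  · intro i hi j hj hij
    rw [mem_filter, hmem] at hi hj
    by_contra hcon
    have hne : w⁻¹ i ≠ w⁻¹ j := fun h => hij.ne ((w⁻¹).injective h)
    have hlt : w⁻¹ i < w⁻¹ j := lt_of_le_of_ne (not_lt.mp hcon) hne
    have h3 := hD (w⁻¹ i) (mem_filter.mpr ⟨hi.1, hi.2.2, by rw [pApplyInv]; exact hi.2.1⟩)
      (w⁻¹ j) (mem_filter.mpr ⟨hj.1, hj.2.2, by rw [pApplyInv]; exact hj.2.1⟩) hlt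
    rw [pApplyInv, pApplyInv] at h3
    exact absurd h3 (not_lt.mpr hij.le)

theorem noK_aux (h : GlobalN N) (w : Equiv.Perm (Fin n)) (hn : m + 3 < n)
    (hsmall : ∀ (k : ℕ) (v : Equiv.Perm (Fin k)), Contains w v → k < n → N k v ≤ m) :
    ∀ x y : Fin n, x < y → w x < w y → ∀ T : Finset (Fin n), Inc w T →
      (∀ i ∈ T, y < i ∧ w i < w x) → T.card < m + 1 := by
  intro x y hxy hw T hT hi
  by_contra hcon
  push Not at hcon
  obtain ⟨T', hT', hc⟩ := Finset.exists_subset_card_eq hcon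
  obtain ⟨v, hv, hN⟩ := h.bip_pat (w := w) hxy hw (T'.orderEmbOfFin hc)
    (fun i => hi _ (hT' (T'.orderEmbOfFin_mem hc i)))
    (fun i j hij => hT _ (hT' (T'.orderEmbOfFin_mem hc i)) _ (hT' (T'.orderEmbOfFin_mem hc j))
      ((T'.orderEmbOfFin hc).lt_iff_lt.mpr hij))
  have := hsmall _ v hv.contains hn
  omega

theorem noF_aux (h : GlobalN N) (w : Equiv.Perm (Fin n)) (hn : m + 3 < n)
    (hsmall : ∀ (k : ℕ) (v : Equiv.Perm (Fin k)), Contains w v → k < n → N k v ≤ m) :
    ∀ u v : Fin n, ∀ T : Finset (Fin n), Inc w T →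
    (∀ i ∈ T, (u < i ∧ i < v) ∧ (w v < w i ∧ w i < w u)) → T.card < m + 1 := by
  intro x y T hT hi
  by_contra hcon
  push Not at hcon
  obtain ⟨T', hT', hc⟩ := Finset.exists_subset_card_eq hcon
  have hne : T'.Nonempty := by rw [← card_pos, hc]; omega
  obtain ⟨z, hz⟩ := hne
  have hz' := hi z (hT' hz)
  obtain ⟨v, hv, hN⟩ := h.fan_pat (w := w) (hz'.1.1.trans hz'.1.2) (hz'.2.1.trans hz'.2.2)
    (T'.orderEmbOfFin hc)
    (fun i => hi _ (hT' (T'.orderEmbOfFin_mem hc i)))
    (fun i j hij => hT _ (hT' (T'.orderEmbOfFin_mem hc i)) _ (hT' (T'.orderEmbOfFin_mem hc j))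
      ((T'.orderEmbOfFin hc).lt_iff_lt.mpr hij))
  have := hsmall _ v hv.contains hn
  omega

/-- The embedding of a pair. -/
theorem exists_pairEmb {k l : Fin n} (hkl : k < l) : ∃ t : Fin 2 ↪o Fin n, t 0 = k ∧ t 1 = l := by
  have hmono : StrictMono (![k, l] : Fin 2 → Fin n) := by
    intro i j hij
    fin_cases i <;> fin_cases j <;> first | exact absurd hij (by decide) | exact hkl
  exact ⟨OrderEmbedding.ofStrictMono _ hmono, rfl, rfl⟩

theorem map_pairEmb {k l : Fin n} (t : Fin 2 ↪o Fin n) (h0 : t 0 = k) (h1 : t 1 = l) :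
    univ.map t.toEmbedding = {k, l} := by
  classical
  ext x
  simp only [mem_map, mem_univ, true_and, RelEmbedding.coe_toEmbedding, Fin.exists_fin_two, h0,
    h1, mem_insert, mem_singleton, eq_comm]

theorem GlobalN.local (h : GlobalN N) (w : Equiv.Perm (Fin n)) (hn : m + 3 < n)
    (hbig : m < N n w)
    (hsmall : ∀ (k : ℕ) (v : Equiv.Perm (Fin k)), Contains w v → k < n → N k v ≤ m) :
    LocalN w (fOf N w) m (m + 1) := by
  classical
  have hrefl : Rel w univ w := by
    refine ⟨OrderEmbedding.ofStrictMono id (fun _ _ h => h), ?_, fun _ _ => Iff.rfl⟩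
    ext x
    simp
  constructor
  · intro S
    obtain ⟨v, hv⟩ := exists_Rel w S
    rw [fOf_eq hv]
    exact h.one_le _ _
  · intro S T hST
    exact fOf_mono h hST
  · intro S T hST
    exact fOf_mul h hST
  · intro i j k l hij hjk hkl h1 h2 h3
    obtain ⟨t, t0, t1⟩ := exists_pairEmb hkl
    obtain ⟨v, hv, hN⟩ := h.bip_pat (w := w) hij h3 t (by
        rw [Fin.forall_fin_two, t0, t1]
        exact ⟨⟨hjk, h1.trans h2⟩, hjk.trans hkl, h2⟩) (by
        intro a b hab
        have ha : a = 0 := by fin_cases a; rfl; exact absurd hab (by fin_cases b <;> decide)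
        have hb : b = 1 := by
          rw [ha] at hab
          fin_cases b
          · exact absurd hab (by decide)
          · rfl
        rw [ha, hb, t0, t1]; exact h1)
    rw [map_pairEmb t t0 t1] at hv
    rw [fOf_eq hv]; exact hN
  · intro i j k l hij hjk hkl h1 h2 h3
    obtain ⟨t, t0, t1⟩ := exists_pairEmb hjk
    obtain ⟨v, hv, hN⟩ := h.fan_pat (w := w) (hij.trans (hjk.trans hkl)) (h1.trans (h2.trans h3)) t
      (by
        rw [Fin.forall_fin_two, t0, t1]
        exact ⟨⟨⟨hij, hjk.trans hkl⟩, h1, h2.trans h3⟩, ⟨hij.trans hjk, hkl⟩, h1.trans h2, h3⟩)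
      (by
        intro a b hab
        have ha : a = 0 := by fin_cases a; rfl; exact absurd hab (by fin_cases b <;> decide)
        have hb : b = 1 := by
          rw [ha] at hab
          fin_cases b
          · exact absurd hab (by decide)
          · rfl
        rw [ha, hb, t0, t1]; exact h2)
    rw [map_pairEmb t t0 t1] at hv
    have hs : ({i, j, k, l} : Finset (Fin n)) = insert i (insert l {j, k}) := by
      ext x
      simp only [mem_insert, mem_singleton]
      tauto
    rw [hs, fOf_eq hv]; exact hN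
  · intro S a b
    exact fOf_cut h S a b
  · intro S a b
    exact fOf_cut' h S a b
  · rw [fOf_eq hrefl]; exact hbig
  · intro S hS
    obtain ⟨v, hv⟩ := exists_Rel w S
    rw [fOf_eq hv]
    apply hsmall _ v hv.contains
    have := Finset.card_lt_card (Finset.ssubset_univ_iff.mpr hS)
    rwa [card_univ, Fintype.card_fin] at this
  · exact noK_aux h w hn hsmall
  · intro x y hxy hw T hT hi
    have hsmall' : ∀ (k : ℕ) (v : Equiv.Perm (Fin k)), Contains w⁻¹ v → k < n → N k v ≤ m := by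
      intro k v hv hk
      rw [← h.inv]
      have h5 := hv.inverse
      rw [inv_inv] at h5
      exact hsmall k v⁻¹ h5 hk
    have h4 := noK_aux h w⁻¹ hn hsmall' (w x) (w y) hw (by rw [pInvApply, pInvApply]; exact hxy)
      (T.map w.toEmbedding) (by
        intro a ha b hb hab
        rw [mem_map] at ha hb
        obtain ⟨a, ha, rfl⟩ := ha
        obtain ⟨b, hb, rfl⟩ := hb
        rw [Equiv.coe_toEmbedding, pInvApply, pInvApply]
        rw [Equiv.coe_toEmbedding] at hab
        rcases lt_trichotomy a b with h6 | h6 | h6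
        · exact h6
        · rw [h6] at hab; exact absurd hab (lt_irrefl _)
        · exact absurd (hT b hb a ha h6) (not_lt.mpr hab.le)) (by
        intro i hi'
        rw [mem_map] at hi'
        obtain ⟨i, hi', rfl⟩ := hi'
        rw [Equiv.coe_toEmbedding, pInvApply, pInvApply]
        exact ⟨(hi i hi').2, (hi i hi').1⟩)
    rwa [card_map] at h4
  · exact noF_aux h w hn hsmall

/-- Part A. -/
theorem finitely_based (h : GlobalN N) (m : ℕ) (hm : 1 ≤ m) :
    ∃ B : Set ((k : ℕ) × Equiv.Perm (Fin k)), B.Finite ∧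
      ∀ (n : ℕ) (w : Equiv.Perm (Fin n)), N n w ≤ m ↔ ∀ v ∈ B, ¬ Contains w v.2 := by
  classical
  set c := m + 1 with hc
  have hc' : 2 * m < 2 ^ c := by
    have : m < 2 ^ m := Nat.lt_two_pow_self
    rw [hc, pow_succ]
    omega
  set K := 2 * (c + 3 * c * (m + 1) + 1) + (c + 3 * c * (m + 1) + 1) ^ 2 * (m + 1) with hK
  set M : (n : ℕ) → Set (Equiv.Perm (Fin n)) := fun n =>
    {w | m < N n w ∧ (∀ (k : ℕ) (v : Equiv.Perm (Fin k)), Contains w v → k < n → N k v ≤ m) ∧
      m + 3 < n} with hM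
  have hbr : ∀ n, ∀ w ∈ M n, (Breaks w).card ≤ (K * (4 * K * (3 * c) + 1)) ^ 2 := by
    rintro n w ⟨h1, h2, h3⟩
    have hl := h.local w h3 h1 h2
    have hJ := card_Jset (w := w) (K := K) (fun T hT => hl.card_Inc hm hc' T hT)
      (hl.disjSing hm hc')
    exact (card_Breaks w).trans (Nat.pow_le_pow_left hJ 2)
  obtain ⟨n0, hn0⟩ := bounded_of_breaks _ M hbr (by
    rintro n k w ⟨h1, h2, h3⟩ v ⟨g1, g2, g3⟩ hcont
    rcases lt_or_eq_of_le hcont.le with h4 | h4
    · have := h2 k v hcont h4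
      omega
    · exact h4)
  set B : Set ((k : ℕ) × Equiv.Perm (Fin k)) := {v | m < N v.1 v.2 ∧
    ∀ (k : ℕ) (u : Equiv.Perm (Fin k)), Contains v.2 u → k < v.1 → N k u ≤ m} with hB
  refine ⟨B, ?_, ?_⟩
  · have hbd : ∀ v ∈ B, v.1 < max n0 (m + 3) + 1 := by
      rintro ⟨k, v⟩ ⟨h1, h2⟩
      by_cases hk : m + 3 < k
      · have : k ≤ n0 := hn0 k ⟨v, h1, h2, hk⟩
        exact Nat.lt_succ_of_le (this.trans (le_max_left _ _))
      · exact Nat.lt_succ_of_le ((not_lt.mp hk).trans (le_max_right _ _))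
    have hfin : (Set.range (fun p : (k : Fin (max n0 (m + 3) + 1)) × Equiv.Perm (Fin (k : ℕ)) =>
        (⟨(p.1 : ℕ), p.2⟩ : (k : ℕ) × Equiv.Perm (Fin k)))).Finite := Set.finite_range _
    apply hfin.subset
    rintro ⟨k, v⟩ hv
    exact ⟨⟨⟨k, hbd _ hv⟩, v⟩, rfl⟩
  · intro n w
    constructor
    · rintro hw ⟨k, v⟩ ⟨h1, h2⟩ hcont
      have := h.mono w v hcont
      change m < N k v at h1
      omega
    · intro hw
      by_contra hcon
      push Not at hcon
      -- a minimal pattern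
      have key : ∀ n : ℕ, ∀ w : Equiv.Perm (Fin n), m < N n w → ∃ v ∈ B, Contains w v.2 := by
        intro n
        induction n using Nat.strong_induction_on with
        | _ n ih =>
          intro w hw
          by_cases hmin : ∀ (k : ℕ) (u : Equiv.Perm (Fin k)), Contains w u → k < n → N k u ≤ m
          · exact ⟨⟨n, w⟩, ⟨hw, hmin⟩, Contains.refl w⟩
          · push Not at hmin
            obtain ⟨k, u, hu, hk, hN⟩ := hmin
            obtain ⟨v, hv, hcv⟩ := ih k hk u hN
            exact ⟨v, hv, hu.trans hcv⟩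
      obtain ⟨v, hv, hcv⟩ := key n w hcon
      exact hw v hv hcv

end KLFin
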