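import Mathlib

/-!
# Part B (Hecke algebra) of MP_d9d356_co: the Hecke algebra of a finite Coxeter-like datum
-/

set_option linter.unusedSectionVars false

open LaurentPolynomial

namespace KLFin

/-- the ring `ℤ[v, v⁻¹]`, `v = T 1`, `q = v² = T 2` -/
abbrev Av := LaurentPolynomial ℤ

/-- A finite group with a set of involutions and a length function with the exchange property. -/
structure HDatum (G : Type) [Group G] where
  S : Set G
  ℓ : G → ℕ
  sq : ∀ s ∈ S, s * s = 1
  len_one : ℓ 1 = 0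
  len_inv : ∀ w, ℓ w⁻¹ = ℓ w
  len_step : ∀ s ∈ S, ∀ w, ℓ (w * s) = ℓ w + 1 ∨ ℓ w = ℓ (w * s) + 1
  desc : ∀ w, w ≠ 1 → ∃ s ∈ S, ℓ (w * s) < ℓ w
  exch : ∀ s ∈ S, ∀ t ∈ S, ∀ w, ℓ (s * w) = ℓ (w * t) → ℓ (s * w * t) = ℓ w → s * w = w * t

variable {G : Type} [Group G] [Fintype G] [DecidableEq G] (D : HDatum G)

namespace HDatum

theorem inv_eq {s : G} (hs : s ∈ D.S) : s⁻¹ = s := by
  rw [inv_eq_iff_mul_eq_one]
  exact D.sq s hs

theorem len_step_left {s : G} (hs : s ∈ D.S) (w : G) :
    D.ℓ (s * w) = D.ℓ w + 1 ∨ D.ℓ w = D.ℓ (s * w) + 1 := by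
  have h1 : D.ℓ (s * w) = D.ℓ (w⁻¹ * s) := by
    rw [← D.len_inv (s * w), mul_inv_rev, D.inv_eq hs]
  have h2 := D.len_step s hs w⁻¹
  rw [D.len_inv] at h2
  rw [h1]
  exact h2

theorem desc_left {w : G} (hw : w ≠ 1) : ∃ s ∈ D.S, D.ℓ (s * w) < D.ℓ w := by
  obtain ⟨s, hs, h⟩ := D.desc w⁻¹ (by simpa using hw)
  refine ⟨s, hs, ?_⟩
  rw [D.len_inv] at h
  rw [← D.len_inv (s * w), mul_inv_rev, D.inv_eq hs]
  exact h

theorem mul_self_cancel {s : G} (hs : s ∈ D.S) (w : G) : s * (s * w) = w := by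
  rw [← mul_assoc, D.sq s hs, one_mul]

theorem mul_cancel_self {s : G} (hs : s ∈ D.S) (w : G) : w * s * s = w := by
  rw [mul_assoc, D.sq s hs, mul_one]

theorem len_s {s : G} (hs : s ∈ D.S) : D.ℓ s = 1 := by
  have h := D.len_step s hs 1
  rw [one_mul, D.len_one] at h
  omega

end HDatum

/-- left multiplication by `T_s` on functions -/
noncomputable def Lop (s : G) : (G → Av) →ₗ[Av] (G → Av) where
  toFun f y := if D.ℓ y < D.ℓ (s * y) then T 2 * f (s * y)
    else f (s * y) + (T 2 - 1) * f y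
  map_add' f g := by
    funext y
    simp only [Pi.add_apply]
    split_ifs <;> ring
  map_smul' c f := by
    funext y
    simp only [Pi.smul_apply, smul_eq_mul, RingHom.id_apply]
    split_ifs <;> ring

/-- right multiplication by `T_s` on functions -/
noncomputable def Rop (s : G) : (G → Av) →ₗ[Av] (G → Av) where
  toFun f y := if D.ℓ y < D.ℓ (y * s) then T 2 * f (y * s)
    else f (y * s) + (T 2 - 1) * f y
  map_add' f g := by
    funext y
    simp only [Pi.add_apply]
    split_ifs <;> ring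
  map_smul' c f := by
    funext y
    simp only [Pi.smul_apply, smul_eq_mul, RingHom.id_apply]
    split_ifs <;> ring

theorem Lop_apply (s : G) (f : G → Av) (y : G) :
    Lop D s f y = if D.ℓ y < D.ℓ (s * y) then T 2 * f (s * y)
      else f (s * y) + (T 2 - 1) * f y := rfl

theorem Rop_apply (s : G) (f : G → Av) (y : G) :
    Rop D s f y = if D.ℓ y < D.ℓ (y * s) then T 2 * f (y * s)
      else f (y * s) + (T 2 - 1) * f y := rfl

theorem Lop_Rop {s t : G} (hs : s ∈ D.S) (ht : t ∈ D.S) (f : G → Av) :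
    Lop D s (Rop D t f) = Rop D t (Lop D s f) := by
  funext y
  simp only [Lop_apply, Rop_apply]
  have a1 := D.len_step_left hs y
  have a2 := D.len_step t ht y
  have a3 := D.len_step t ht (s * y)
  have a4 := D.len_step_left hs (y * t)
  have e1 : s * (y * t) = s * y * t := (mul_assoc _ _ _).symm
  rw [e1] at a4 ⊢
  by_cases he : s * y = y * t
  · have e2 : s * y * t = y := by rw [he, D.mul_cancel_self ht]
    rw [e2] at a3 a4 ⊢
    rw [← he] at a2 a4 ⊢
  · have h := D.exch s hs t ht y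
    have h' : ¬ (D.ℓ (s * y) = D.ℓ (y * t) ∧ D.ℓ (s * y * t) = D.ℓ y) :=
      fun hh => he (h hh.1 hh.2)
    split_ifs <;> first | omega | ring

/-- the Hecke algebra -/
noncomputable def Hk : Subalgebra Av (Module.End Av (G → Av)) :=
  Algebra.adjoin Av (Set.range fun s : D.S => Lop D s.1)

/-- the generator `T_s` -/
noncomputable def gen (s : D.S) : Hk D := ⟨Lop D s.1, Algebra.subset_adjoin ⟨s, rfl⟩⟩

theorem Hk_induction {P : Hk D → Prop} (h1 : ∀ a : Av, P (algebraMap Av (Hk D) a))
    (hg : ∀ s, P (gen D s)) (ha : ∀ x y, P x → P y → P (x + y))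
    (hm : ∀ x y, P x → P y → P (x * y)) (x : Hk D) : P x := by
  obtain ⟨x, hx⟩ := x
  refine Algebra.adjoin_induction (p := fun x hx => P ⟨x, hx⟩) ?_ ?_ ?_ ?_ hx
  · rintro _ ⟨s, rfl⟩
    exact hg s
  · intro a
    exact h1 a
  · intro x y hx hy h h'
    exact ha _ _ h h'
  · intro x y hx hy h h'
    exact hm _ _ h h'

theorem Hk_comm {t : G} (ht : t ∈ D.S) (x : Hk D) (f : G → Av) :
    x.1 (Rop D t f) = Rop D t (x.1 f) := by
  revert f
  refine Hk_induction D (P := fun x => ∀ f, x.1 (Rop D t f) = Rop D t (x.1 f)) ?_ ?_ ?_ ?_ x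
  · intro a f
    exact (map_smul (Rop D t) a f).symm
  · intro s f
    exact Lop_Rop D s.2 ht f
  · intro x y hx hy f
    change x.1 (Rop D t f) + y.1 (Rop D t f) = Rop D t (x.1 f + y.1 f)
    rw [hx, hy, map_add]
  · intro x y hx hy f
    change x.1 (y.1 (Rop D t f)) = Rop D t (x.1 (y.1 f))
    rw [hy, hx]

theorem Rop_single {s : G} (hs : s ∈ D.S) {w : G} (hw : D.ℓ (w * s) < D.ℓ w) :
    Rop D s (Pi.single (w * s) 1) = Pi.single w 1 := by
  funext y
  rw [Rop_apply]
  by_cases h1 : y = w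
  · subst h1
    rw [if_neg (by omega), Pi.single_eq_same, Pi.single_eq_same,
      Pi.single_eq_of_ne (by
        intro h
        rw [← h] at hw
        exact lt_irrefl _ hw), mul_zero, add_zero]
  · have h2 : y * s ≠ w * s := fun h => h1 (mul_right_cancel h)
    rw [Pi.single_eq_of_ne h2, Pi.single_eq_of_ne h1]
    by_cases h3 : y = w * s
    · subst h3
      rw [D.mul_cancel_self hs, if_pos hw, mul_zero]
    · rw [Pi.single_eq_of_ne h3]
      simp

theorem Lop_single {s : G} (hs : s ∈ D.S) {w : G} (hw : D.ℓ (s * w) < D.ℓ w) :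
    Lop D s (Pi.single (s * w) 1) = Pi.single w 1 := by
  funext y
  rw [Lop_apply]
  by_cases h1 : y = w
  · subst h1
    rw [if_neg (by omega), Pi.single_eq_same, Pi.single_eq_same,
      Pi.single_eq_of_ne (by
        intro h
        rw [← h] at hw
        exact lt_irrefl _ hw), mul_zero, add_zero]
  · have h2 : s * y ≠ s * w := fun h => h1 (mul_left_cancel h)
    rw [Pi.single_eq_of_ne h2, Pi.single_eq_of_ne h1]
    by_cases h3 : y = s * w
    · subst h3
      rw [D.mul_self_cancel hs, if_pos hw, mul_zero]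
    · rw [Pi.single_eq_of_ne h3]
      simp

/-- evaluation at `δ_1` -/
noncomputable def evL : Hk D →ₗ[Av] (G → Av) where
  toFun x := x.1 (Pi.single 1 1)
  map_add' _ _ := rfl
  map_smul' _ _ := rfl

theorem evL_apply (x : Hk D) : evL D x = x.1 (Pi.single 1 1) := rfl

theorem evL_injective : Function.Injective (evL D) := by
  rw [injective_iff_map_eq_zero]
  intro x hx
  rw [evL_apply] at hx
  have key : ∀ (k : ℕ) (w : G), D.ℓ w = k → x.1 (Pi.single w 1) = 0 := by
    intro k
    induction k using Nat.strong_induction_on with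
    | _ k ih =>
      intro w hw
      by_cases h1 : w = 1
      · rw [h1]; exact hx
      · obtain ⟨s, hs, hlt⟩ := D.desc w h1
        rw [← Rop_single D hs hlt, Hk_comm D hs, ih _ (by omega) (w * s) rfl, map_zero]
  apply Subtype.ext
  apply LinearMap.pi_ext
  intro w a
  have h2 : (Pi.single w a : G → Av) = a • Pi.single w 1 := by
    rw [← Pi.single_smul, smul_eq_mul, mul_one]
  rw [h2, map_smul, key _ w rfl, smul_zero]
  rfl

theorem evL_surjective : Function.Surjective (evL D) := by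
  have key : ∀ (k : ℕ) (w : G), D.ℓ w = k → Pi.single w 1 ∈ LinearMap.range (evL D) := by
    intro k
    induction k using Nat.strong_induction_on with
    | _ k ih =>
      intro w hw
      by_cases h1 : w = 1
      · rw [h1]; exact ⟨1, rfl⟩
      · obtain ⟨s, hs, hlt⟩ := D.desc_left h1
        obtain ⟨x, hx⟩ := ih _ (by omega) (s * w) rfl
        refine ⟨gen D ⟨s, hs⟩ * x, ?_⟩
        rw [← Lop_single D hs hlt, ← hx]
        rfl
  rw [← LinearMap.range_eq_top, eq_top_iff]
  intro f _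
  have h2 : f = ∑ w, f w • (Pi.single w 1 : G → Av) := by
    funext y
    rw [Finset.sum_apply, Finset.sum_eq_single y]
    · rw [Pi.smul_apply, Pi.single_eq_same, smul_eq_mul, mul_one]
    · intro w _ hw
      rw [Pi.smul_apply, Pi.single_eq_of_ne hw.symm, smul_zero]
    · simp
  rw [h2]
  exact Submodule.sum_mem _ fun w _ => Submodule.smul_mem _ _ (key _ w rfl)

/-- coefficients with respect to the basis `T_w` -/
noncomputable def ev : Hk D ≃ₗ[Av] (G → Av) :=
  LinearEquiv.ofBijective (evL D) ⟨evL_injective D, evL_surjective D⟩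

theorem ev_apply (x : Hk D) : ev D x = x.1 (Pi.single 1 1) := rfl

/-- the basis element `T_w` -/
noncomputable def Tb (w : G) : Hk D := (ev D).symm (Pi.single w 1)

theorem ev_Tb (w : G) : ev D (Tb D w) = Pi.single w 1 := (ev D).apply_symm_apply _

theorem Tb_one : Tb D 1 = 1 := by
  apply (ev D).injective
  rw [ev_Tb]
  rfl

theorem gen_eq {s : G} (hs : s ∈ D.S) : gen D ⟨s, hs⟩ = Tb D s := by
  apply (ev D).injective
  rw [ev_Tb]
  have h1 : D.ℓ (s * s) < D.ℓ s := by rw [D.sq s hs, D.len_one, D.len_s hs]; exact zero_lt_one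
  have h2 := Lop_single D hs h1
  rw [D.sq s hs] at h2
  exact h2

/-- coefficients of `T_s x` -/
theorem ev_Ts_mul {s : G} (hs : s ∈ D.S) (x : Hk D) : ev D (Tb D s * x) = Lop D s (ev D x) := by
  rw [← gen_eq D hs]
  rfl

/-- coefficients of `x T_s` -/
theorem ev_mul_Ts {s : G} (hs : s ∈ D.S) (x : Hk D) : ev D (x * Tb D s) = Rop D s (ev D x) := by
  have h1 : D.ℓ (s * s) < D.ℓ s := by rw [D.sq s hs, D.len_one, D.len_s hs]; exact zero_lt_one
  have h2 : (Tb D s).1 (Pi.single 1 1) = Rop D s (Pi.single 1 1) := by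
    have h3 := Rop_single D hs h1
    rw [D.sq s hs] at h3
    rw [h3]
    exact ev_Tb D s
  change x.1 ((Tb D s).1 (Pi.single 1 1)) = Rop D s (x.1 (Pi.single 1 1))
  rw [h2, Hk_comm D hs]

theorem hk_eq_sum (x : Hk D) : x = ∑ w, ev D x w • Tb D w := by
  apply (ev D).injective
  rw [map_sum]
  funext y
  rw [Finset.sum_apply, Finset.sum_eq_single y]
  · rw [map_smul, ev_Tb, Pi.smul_apply, Pi.single_eq_same, smul_eq_mul, mul_one]
  · intro w _ hw
    rw [map_smul, ev_Tb, Pi.smul_apply, Pi.single_eq_of_ne hw.symm, smul_zero]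
  · simp

theorem ev_sum_smul_Tb (f : G → Av) (y : G) : ev D (∑ w, f w • Tb D w) y = f y := by
  rw [map_sum, Finset.sum_apply, Finset.sum_eq_single y]
  · rw [map_smul, ev_Tb, Pi.smul_apply, Pi.single_eq_same, smul_eq_mul, mul_one]
  · intro w _ hw
    rw [map_smul, ev_Tb, Pi.smul_apply, Pi.single_eq_of_ne hw.symm, smul_zero]
  · simp

theorem Ts_mul_up {s : G} (hs : s ∈ D.S) {w : G} (h : D.ℓ w < D.ℓ (s * w)) :
    Tb D s * Tb D w = Tb D (s * w) := by
  apply (ev D).injective
  rw [ev_Ts_mul D hs, ev_Tb, ev_Tb]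
  have h2 : D.ℓ (s * (s * w)) < D.ℓ (s * w) := by rwa [D.mul_self_cancel hs]
  have h3 := Lop_single D hs h2
  rwa [D.mul_self_cancel hs] at h3

theorem mul_Ts_up {s : G} (hs : s ∈ D.S) {w : G} (h : D.ℓ w < D.ℓ (w * s)) :
    Tb D w * Tb D s = Tb D (w * s) := by
  apply (ev D).injective
  rw [ev_mul_Ts D hs, ev_Tb, ev_Tb]
  have h2 : D.ℓ (w * s * s) < D.ℓ (w * s) := by rwa [D.mul_cancel_self hs]
  have h3 := Rop_single D hs h2
  rwa [D.mul_cancel_self hs] at h3

/-- the quadratic relation -/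
theorem Ts_sq {s : G} (hs : s ∈ D.S) :
    Tb D s * Tb D s = (T 2 - 1 : Av) • Tb D s + (T 2 : Av) • 1 := by
  apply (ev D).injective
  rw [ev_Ts_mul D hs, map_add, map_smul, map_smul, ← Tb_one, ev_Tb, ev_Tb]
  funext y
  rw [Lop_apply, Pi.add_apply, Pi.smul_apply, Pi.smul_apply, smul_eq_mul, smul_eq_mul]
  have hs1 : s ≠ 1 := by
    rintro rfl
    have := D.len_s hs
    rw [D.len_one] at this
    exact absurd this (by norm_num)
  by_cases h1 : y = 1
  · subst h1
    rw [mul_one, D.len_one, D.len_s hs, if_pos zero_lt_one, Pi.single_eq_same, Pi.single_eq_same,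
      Pi.single_eq_of_ne hs1.symm]
    ring
  · by_cases h2 : y = s
    · subst h2
      rw [D.sq y hs, D.len_one, D.len_s hs, if_neg (by norm_num), Pi.single_eq_same,
        Pi.single_eq_of_ne (Ne.symm h1), Pi.single_eq_of_ne h1]
      ring
    · have h3 : s * y ≠ s := fun h => h1 (mul_left_cancel (h.trans (mul_one s).symm))
      rw [Pi.single_eq_of_ne h1, Pi.single_eq_of_ne h2, Pi.single_eq_of_ne h3]
      simp

theorem Ts_mul_dn {s : G} (hs : s ∈ D.S) {w : G} (h : D.ℓ (s * w) < D.ℓ w) :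
    Tb D s * Tb D w = (T 2 - 1 : Av) • Tb D w + (T 2 : Av) • Tb D (s * w) := by
  have h1 : Tb D w = Tb D s * Tb D (s * w) := by
    rw [Ts_mul_up D hs (w := s * w) (by rwa [D.mul_self_cancel hs]), D.mul_self_cancel hs]
  conv_lhs => rw [h1, ← mul_assoc, Ts_sq D hs, add_mul, smul_mul_assoc, smul_mul_assoc, one_mul,
    ← h1]

theorem mul_Ts_dn {s : G} (hs : s ∈ D.S) {w : G} (h : D.ℓ (w * s) < D.ℓ w) :
    Tb D w * Tb D s = (T 2 - 1 : Av) • Tb D w + (T 2 : Av) • Tb D (w * s) := by
  have h1 : Tb D w = Tb D (w * s) * Tb D s := by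
    rw [mul_Ts_up D hs (w := w * s) (by rwa [D.mul_cancel_self hs]), D.mul_cancel_self hs]
  conv_lhs => rw [h1, mul_assoc, Ts_sq D hs, mul_add, mul_smul_comm, mul_smul_comm, mul_one,
    ← h1]

theorem Tb_mul (w z : G) (h : D.ℓ (w * z) = D.ℓ w + D.ℓ z) : Tb D w * Tb D z = Tb D (w * z) := by
  have key : ∀ (k : ℕ) (z : G), D.ℓ z = k → D.ℓ (w * z) = D.ℓ w + D.ℓ z →
      Tb D w * Tb D z = Tb D (w * z) := by
    intro k
    induction k using Nat.strong_induction_on with
    | _ k ih =>
      intro z hz h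
      by_cases h1 : z = 1
      · rw [h1, Tb_one, mul_one, mul_one]
      · obtain ⟨s, hs, hlt⟩ := D.desc z h1
        have hz2 := D.len_step s hs z
        have hwz := D.len_step s hs (w * z)
        have hle : ∀ (j : ℕ) (u : G), D.ℓ u = j → D.ℓ (w * u) ≤ D.ℓ w + D.ℓ u := by
          intro j
          induction j using Nat.strong_induction_on with
          | _ j ih2 =>
            intro u hu
            by_cases hu1 : u = 1
            · rw [hu1, mul_one, D.len_one, add_zero]
            · obtain ⟨t, ht, hlt2⟩ := D.desc u hu1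
              have h5 := ih2 _ (by omega) (u * t) rfl
              have h6 := D.len_step t ht (w * u)
              have h7 := D.len_step t ht u
              rw [← mul_assoc] at h5
              omega
        have h3 := hle _ (z * s) rfl
        rw [← mul_assoc] at h3
        have h4 : D.ℓ (w * (z * s)) = D.ℓ w + D.ℓ (z * s) := by
          rw [← mul_assoc]; omega
        have h5 := ih _ (by omega) (z * s) rfl h4
        have h6 : Tb D z = Tb D (z * s) * Tb D s := by
          rw [mul_Ts_up D hs (w := z * s) (by rwa [D.mul_cancel_self hs]), D.mul_cancel_self hs]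
        rw [h6, ← mul_assoc, h5, mul_Ts_up D hs, ← mul_assoc, D.mul_cancel_self hs]
        rw [← mul_assoc, D.mul_cancel_self hs]
        rw [← mul_assoc] at h4
        omega
  exact key _ z rfl h

end KLFin
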