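import Mathlib
import Pool.Agent.KLFin.BDefs

/-!
# Part B of MP_d9d356_co: bar involution, anti-involution, uniqueness
-/

set_option linter.unusedSectionVars false

open LaurentPolynomial

namespace KLFin

variable {G : Type} [Group G] [Fintype G] [DecidableEq G] (D : HDatum G)

/-! ### inverses -/

/-- the inverse of `T_s` -/
noncomputable def TsI (s : G) : Hk D := (T (-2) : Av) • Tb D s + (T (-2) - 1 : Av) • 1

theorem T2_mul : (T (-2) : Av) * T 2 = 1 := by
  rw [← T_add]; simp

theorem T2_mul' : (T 2 : Av) * T (-2) = 1 := by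
  rw [← T_add]; simp

theorem Ts_mul_TsI {s : G} (hs : s ∈ D.S) : Tb D s * TsI D s = 1 := by
  unfold TsI
  rw [mul_add, mul_smul_comm, mul_smul_comm, mul_one, Ts_sq D hs, smul_add, smul_smul, smul_smul,
    T2_mul, one_smul]
  have : ((T (-2) : Av) * (T 2 - 1)) • Tb D s + 1 + (T (-2) - 1 : Av) • Tb D s =
      ((T (-2) : Av) * (T 2 - 1) + (T (-2) - 1)) • Tb D s + 1 := by
    rw [add_smul]; abel
  rw [this]
  have h2 : (T (-2) : Av) * (T 2 - 1) + (T (-2) - 1) = 0 := by
    rw [mul_sub, T2_mul]; ring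
  rw [h2, zero_smul, zero_add]

theorem TsI_mul_Ts {s : G} (hs : s ∈ D.S) : TsI D s * Tb D s = 1 := by
  have h : TsI D s * Tb D s = Tb D s * TsI D s := by
    unfold TsI
    rw [mul_add, add_mul, smul_mul_assoc, smul_mul_assoc, mul_smul_comm, mul_smul_comm, one_mul,
      mul_one]
  rw [h, Ts_mul_TsI D hs]

theorem isUnit_Tb (w : G) : IsUnit (Tb D w) := by
  have key : ∀ (k : ℕ) (w : G), D.ℓ w = k → IsUnit (Tb D w) := by
    intro k
    induction k using Nat.strong_induction_on with
    | _ k ih =>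
      intro w hw
      by_cases h1 : w = 1
      · rw [h1, Tb_one]; exact isUnit_one
      · obtain ⟨s, hs, hlt⟩ := D.desc_left h1
        have h2 : Tb D w = Tb D s * Tb D (s * w) := by
          rw [Ts_mul_up D hs (w := s * w) (by rwa [D.mul_self_cancel hs]), D.mul_self_cancel hs]
        rw [h2]
        exact IsUnit.mul ⟨⟨Tb D s, TsI D s, Ts_mul_TsI D hs, TsI_mul_Ts D hs⟩, rfl⟩
          (ih _ (by omega) _ rfl)
  exact key _ w rfl

theorem ring_inverse_eq {R : Type*} [Semiring R] {a b : R} (ha : IsUnit a) (h : a * b = 1) :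
    Ring.inverse a = b := by
  calc Ring.inverse a = Ring.inverse a * (a * b) := by rw [h, mul_one]
    _ = b := by rw [← mul_assoc, Ring.inverse_mul_cancel a ha, one_mul]

/-- `T_{w⁻¹}⁻¹` -/
noncomputable def Ti (w : G) : Hk D := Ring.inverse (Tb D w⁻¹)

theorem Ti_one : Ti D 1 = 1 := by
  rw [Ti, inv_one, Tb_one, Ring.inverse_one]

theorem Ti_s {s : G} (hs : s ∈ D.S) : Ti D s = TsI D s := by
  rw [Ti, D.inv_eq hs]
  exact ring_inverse_eq (isUnit_Tb D s) (Ts_mul_TsI D hs)

theorem Ti_mul_up {s : G} (hs : s ∈ D.S) {w : G} (h : D.ℓ w < D.ℓ (s * w)) :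
    Ti D (s * w) = TsI D s * Ti D w := by
  have h1 : (s * w)⁻¹ = w⁻¹ * s := by rw [mul_inv_rev, D.inv_eq hs]
  have h2 : D.ℓ w⁻¹ < D.ℓ (w⁻¹ * s) := by
    rw [← h1, D.len_inv, D.len_inv]; exact h
  unfold Ti
  rw [h1, ← mul_Ts_up D hs h2]
  apply ring_inverse_eq ((isUnit_Tb D _).mul (isUnit_Tb D _))
  rw [mul_assoc, ← mul_assoc (Tb D s), Ts_mul_TsI D hs, one_mul]
  exact Ring.mul_inverse_cancel _ (isUnit_Tb D _)

/-! ### the bar involution -/

/-- the bar map as an additive map -/
noncomputable def barA : Hk D →+ Hk D where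
  toFun x := ∑ w, invert (ev D x w) • Ti D w
  map_zero' := by simp
  map_add' x y := by
    simp only [map_add, Pi.add_apply, add_smul, Finset.sum_add_distrib]

theorem barA_apply (x : Hk D) : barA D x = ∑ w, invert (ev D x w) • Ti D w := rfl

theorem barA_smul (a : Av) (x : Hk D) : barA D (a • x) = invert a • barA D x := by
  simp only [barA_apply, map_smul, Pi.smul_apply, smul_eq_mul, map_mul, mul_smul, Finset.smul_sum]

theorem barA_Tb (w : G) : barA D (Tb D w) = Ti D w := by
  rw [barA_apply, Finset.sum_eq_single w]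
  · rw [ev_Tb, Pi.single_eq_same, map_one, one_smul]
  · intro y _ hy
    rw [ev_Tb, Pi.single_eq_of_ne hy, map_zero, zero_smul]
  · simp

theorem barA_one : barA D 1 = 1 := by rw [← Tb_one, barA_Tb, Ti_one, Tb_one]

theorem barA_Ts_mul_Tb {s : G} (hs : s ∈ D.S) (w : G) :
    barA D (Tb D s * Tb D w) = TsI D s * barA D (Tb D w) := by
  rcases D.len_step_left hs w with h | h
  · rw [Ts_mul_up D hs (by omega), barA_Tb, barA_Tb, Ti_mul_up D hs (by omega)]
  · rw [Ts_mul_dn D hs (by omega), map_add, barA_smul, barA_smul, barA_Tb, barA_Tb]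
    have h1 : Ti D w = TsI D s * Ti D (s * w) := by
      rw [← Ti_mul_up D hs (by rw [D.mul_self_cancel hs]; omega), D.mul_self_cancel hs]
    have h2 : TsI D s * TsI D s = (T (-2) - 1 : Av) • TsI D s + (T (-2) : Av) • 1 := by
      have h5 : TsI D s * TsI D s =
          ((T (-2) : Av) • Tb D s + (T (-2) - 1 : Av) • 1) * TsI D s := rfl
      rw [h5, add_mul, smul_mul_assoc, smul_mul_assoc, one_mul, Ts_mul_TsI D hs, add_comm]
    have h3 : (invert (T 2 - 1 : Av)) = T (-2) - 1 := by
      rw [map_sub, invert_T, map_one]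
    have h4 : (invert (T 2 : Av)) = T (-2) := by rw [invert_T]
    rw [h1, ← mul_assoc, h2, add_mul, smul_mul_assoc, smul_mul_assoc, one_mul, h3, h4]

theorem barA_Ts_mul {s : G} (hs : s ∈ D.S) (x : Hk D) :
    barA D (Tb D s * x) = TsI D s * barA D x := by
  conv_lhs => rw [hk_eq_sum D x]
  conv_rhs => rw [hk_eq_sum D x]
  rw [Finset.mul_sum, map_sum, map_sum, Finset.mul_sum]
  refine Finset.sum_congr rfl fun w _ => ?_
  rw [mul_smul_comm, barA_smul, barA_smul, barA_Ts_mul_Tb D hs, mul_smul_comm]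

theorem barA_algebraMap (a : Av) : barA D (algebraMap Av (Hk D) a) =
    algebraMap Av (Hk D) (invert a) := by
  rw [Algebra.algebraMap_eq_smul_one, barA_smul, barA_one, ← Algebra.algebraMap_eq_smul_one]

theorem barA_mul (x y : Hk D) : barA D (x * y) = barA D x * barA D y := by
  revert y
  refine Hk_induction D (P := fun x => ∀ y, barA D (x * y) = barA D x * barA D y) ?_ ?_ ?_ ?_ x
  · intro a y
    rw [← Algebra.smul_def, barA_smul, barA_algebraMap, ← Algebra.smul_def]
  · intro s y
    have h1 : gen D s = Tb D s.1 := gen_eq D s.2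
    have h2 : barA D (Tb D s.1) = TsI D s.1 := by rw [barA_Tb, Ti_s D s.2]
    rw [h1, barA_Ts_mul D s.2, h2]
  · intro x x' hx hx' y
    rw [add_mul, map_add, hx, hx', map_add, add_mul]
  · intro x x' hx hx' y
    rw [mul_assoc, hx, hx', hx, mul_assoc]

/-- the bar involution -/
noncomputable def bar : Hk D →+* Hk D where
  toFun := barA D
  map_zero' := map_zero _
  map_one' := barA_one D
  map_add' := map_add _
  map_mul' := barA_mul D

theorem bar_smul (a : Av) (x : Hk D) : bar D (a • x) = invert a • bar D x := barA_smul D a x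

theorem bar_Tb (w : G) : bar D (Tb D w) = Ti D w := barA_Tb D w

theorem bar_Ts {s : G} (hs : s ∈ D.S) : bar D (Tb D s) = TsI D s := by
  rw [bar_Tb, Ti_s D hs]

theorem bar_algebraMap (a : Av) : bar D (algebraMap Av (Hk D) a) =
    algebraMap Av (Hk D) (invert a) := barA_algebraMap D a

theorem bar_bar (x : Hk D) : bar D (bar D x) = x := by
  refine Hk_induction D (P := fun x => bar D (bar D x) = x) ?_ ?_ ?_ ?_ x
  · intro a
    rw [bar_algebraMap, bar_algebraMap, involutive_invert]
  · intro s
    rw [gen_eq D s.2, bar_Ts D s.2]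
    unfold TsI
    rw [map_add, bar_smul, bar_smul, map_one, bar_Ts D s.2]
    unfold TsI
    have h3 : (invert (T (-2) - 1 : Av)) = T 2 - 1 := by
      rw [map_sub, invert_T, map_one, neg_neg]
    have h4 : (invert (T (-2) : Av)) = T 2 := by rw [invert_T, neg_neg]
    rw [h3, h4, smul_add, smul_smul, smul_smul, T2_mul', one_smul, add_assoc, ← add_smul]
    have h5 : (T 2 : Av) * (T (-2) - 1) + (T 2 - 1) = 0 := by
      rw [mul_sub, T2_mul']; ring
    rw [h5, zero_smul, add_zero]
  · intro x y hx hy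
    rw [map_add, map_add, hx, hy]
  · intro x y hx hy
    rw [map_mul, map_mul, hx, hy]

/-- coefficients of `T_s⁻¹ x` -/
theorem ev_TsI_mul {s : G} (hs : s ∈ D.S) (x : Hk D) (y : G) : ev D (TsI D s * x) y =
    if D.ℓ y < D.ℓ (s * y) then ev D x (s * y) + (T (-2) - 1) * ev D x y
      else T (-2) * ev D x (s * y) := by
  unfold TsI
  rw [add_mul, smul_mul_assoc, smul_mul_assoc, one_mul, map_add, map_smul, map_smul,
    ev_Ts_mul D hs, Pi.add_apply, Pi.smul_apply, Pi.smul_apply, Lop_apply, smul_eq_mul,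
    smul_eq_mul]
  split_ifs
  · rw [← mul_assoc, T2_mul, one_mul]
  · linear_combination (ev D x y) * T2_mul

theorem bar_Tb_coeff (w : G) : ev D (bar D (Tb D w)) w = T (-2 * (D.ℓ w : ℤ)) ∧
    ∀ y, ev D (bar D (Tb D w)) y ≠ 0 → y = w ∨ D.ℓ y < D.ℓ w := by
  have key : ∀ (k : ℕ) (w : G), D.ℓ w = k → ev D (bar D (Tb D w)) w = T (-2 * (D.ℓ w : ℤ)) ∧
    ∀ y, ev D (bar D (Tb D w)) y ≠ 0 → y = w ∨ D.ℓ y < D.ℓ w := by
    intro k
    induction k using Nat.strong_induction_on with
    | _ k ih =>
      intro w hw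
      by_cases h1 : w = 1
      · subst h1
        rw [Tb_one, map_one, ← Tb_one, ev_Tb, D.len_one]
        refine ⟨by simp, fun y hy => ?_⟩
        by_contra hcon
        push Not at hcon
        exact hy (Pi.single_eq_of_ne hcon.1 _)
      · obtain ⟨s, hs, hlt⟩ := D.desc_left h1
        obtain ⟨ih1, ih2⟩ := ih _ (by omega) (s * w) rfl
        have hst := D.len_step_left hs w
        have h2 : Tb D w = Tb D s * Tb D (s * w) := by
          rw [Ts_mul_up D hs (w := s * w) (by rwa [D.mul_self_cancel hs]), D.mul_self_cancel hs]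
        have h3 : bar D (Tb D w) = TsI D s * bar D (Tb D (s * w)) := by
          rw [h2, map_mul, bar_Ts D hs]
        rw [h3]
        constructor
        · rw [ev_TsI_mul D hs, if_neg (by omega), ih1, ← T_add]
          congr 1
          omega
        · intro y hy
          rw [ev_TsI_mul D hs] at hy
          have hsty := D.len_step_left hs y
          split_ifs at hy with h4
          · by_cases h5 : ev D (bar D (Tb D (s * w))) (s * y) = 0
            · have h6 : ev D (bar D (Tb D (s * w))) y ≠ 0 := by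
                intro h0
                rw [h5, h0, mul_zero, add_zero] at hy
                exact hy rfl
              rcases ih2 y h6 with h7 | h7
              · right; rw [h7]; exact hlt
              · right; omega
            · rcases ih2 _ h5 with h7 | h7
              · left; exact mul_left_cancel h7
              · right; omega
          · have h5 : ev D (bar D (Tb D (s * w))) (s * y) ≠ 0 := by
              intro h0
              rw [h0, mul_zero] at hy
              exact hy rfl
            rcases ih2 _ h5 with h7 | h7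
            · left; exact mul_left_cancel h7
            · right; omega
  exact key _ w rfl

/-! ### uniqueness -/

/-- `a ∈ v⁻¹ ℤ[v⁻¹]` -/
def NegA (a : Av) : Prop := ∀ n : ℤ, 0 ≤ n → a.coeff n = 0

theorem NegA.zero : NegA 0 := fun n _ => by simp

theorem NegA.add {a b : Av} (ha : NegA a) (hb : NegA b) : NegA (a + b) := fun n hn => by
  rw [AddMonoidAlgebra.coeff_add, Finsupp.add_apply, ha n hn, hb n hn, add_zero]

theorem NegA.neg {a : Av} (ha : NegA a) : NegA (-a) := fun n hn => by
  rw [AddMonoidAlgebra.coeff_neg, Finsupp.neg_apply, ha n hn, neg_zero]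

theorem NegA.sub {a b : Av} (ha : NegA a) (hb : NegA b) : NegA (a - b) := by
  rw [sub_eq_add_neg]; exact ha.add hb.neg

theorem NegA.eq_zero {a : Av} (ha : NegA a) (h : invert a = a) : a = 0 := by
  apply LaurentPolynomial.ext
  intro n
  rcases le_or_gt 0 n with hn | hn
  · rw [ha n hn]; simp
  · rw [← h, invert_apply, ha _ (by omega)]; simp

/-- a bar invariant element with negative coefficients is zero -/
theorem bar_unique (x : Hk D) (hb : bar D x = x)
    (hn : ∀ y, NegA (T (D.ℓ y : ℤ) * ev D x y)) : x = 0 := by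
  by_contra hx
  have h1 : ∃ y, ev D x y ≠ 0 := by
    by_contra hcon
    push Not at hcon
    apply hx
    apply (ev D).injective
    rw [map_zero]
    funext y
    exact hcon y
  obtain ⟨y, hy, hmax⟩ := Finset.exists_max_image (Finset.univ.filter fun y => ev D x y ≠ 0) D.ℓ
    (by obtain ⟨y, hy⟩ := h1; exact ⟨y, by simpa using hy⟩)
  simp only [Finset.mem_filter, Finset.mem_univ, true_and] at hy hmax
  have h2 : ev D (bar D x) y = invert (ev D x y) * T (-2 * (D.ℓ y : ℤ)) := by
    conv_lhs => rw [hk_eq_sum D x]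
    rw [map_sum, map_sum, Finset.sum_apply, Finset.sum_eq_single y]
    · rw [bar_smul, map_smul, Pi.smul_apply, (bar_Tb_coeff D y).1, smul_eq_mul]
    · intro w _ hw
      rw [bar_smul, map_smul, Pi.smul_apply, smul_eq_mul]
      by_cases h3 : ev D x w = 0
      · rw [h3, map_zero, zero_mul]
      · by_cases h4 : ev D (bar D (Tb D w)) y = 0
        · rw [h4, mul_zero]
        · exfalso
          rcases (bar_Tb_coeff D w).2 y h4 with h5 | h5
          · exact hw h5.symm
          · exact absurd (hmax w h3) (by omega)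
    · simp
  rw [hb] at h2
  have h3 : invert (T (D.ℓ y : ℤ) * ev D x y) = T (D.ℓ y : ℤ) * ev D x y := by
    rw [map_mul, invert_T]
    conv_rhs => rw [h2]
    have h4 : (T (D.ℓ y : ℤ) : Av) * (invert (ev D x y) * T (-2 * (D.ℓ y : ℤ))) =
        (T (D.ℓ y : ℤ) * T (-2 * (D.ℓ y : ℤ))) * invert (ev D x y) := by ring
    rw [h4, ← T_add]
    congr 2
    ring
  have h4 := (hn y).eq_zero h3
  apply hy
  have h5 : (T (-(D.ℓ y : ℤ)) : Av) * (T (D.ℓ y : ℤ) * ev D x y) = ev D x y := by
    rw [← mul_assoc, ← T_add, neg_add_cancel, T_zero, one_mul]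
  rw [← h5, h4, mul_zero]

/-! ### the anti-involution -/

/-- the anti-involution `T_w ↦ T_{w⁻¹}` -/
noncomputable def tau : Hk D →ₗ[Av] Hk D where
  toFun x := (ev D).symm (fun y => ev D x y⁻¹)
  map_add' x y := by
    rw [← map_add]
    congr 1
  map_smul' a x := by
    rw [RingHom.id_apply, ← map_smul]
    congr 1

theorem ev_tau (x : Hk D) (y : G) : ev D (tau D x) y = ev D x y⁻¹ := by
  change ev D ((ev D).symm (fun y => ev D x y⁻¹)) y = _
  rw [LinearEquiv.apply_symm_apply]

theorem tau_Tb (w : G) : tau D (Tb D w) = Tb D w⁻¹ := by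
  apply (ev D).injective
  funext y
  rw [ev_tau, ev_Tb, ev_Tb, Pi.single_apply, Pi.single_apply]
  congr 1
  simp [inv_eq_iff_eq_inv]

theorem tau_one : tau D 1 = 1 := by
  rw [← Tb_one, tau_Tb, inv_one]

theorem tau_tau (x : Hk D) : tau D (tau D x) = x := by
  apply (ev D).injective
  funext y
  rw [ev_tau, ev_tau, inv_inv]

theorem tau_Ts_mul {s : G} (hs : s ∈ D.S) (x : Hk D) :
    tau D (Tb D s * x) = tau D x * Tb D s := by
  apply (ev D).injective
  funext y
  rw [ev_tau, ev_Ts_mul D hs, ev_mul_Ts D hs, Lop_apply, Rop_apply, ev_tau, ev_tau]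
  have h1 : s * y⁻¹ = (y * s)⁻¹ := by rw [mul_inv_rev, D.inv_eq hs]
  rw [h1, D.len_inv, D.len_inv]

theorem tau_mul (x y : Hk D) : tau D (x * y) = tau D y * tau D x := by
  revert y
  refine Hk_induction D (P := fun x => ∀ y, tau D (x * y) = tau D y * tau D x) ?_ ?_ ?_ ?_ x
  · intro a y
    rw [← Algebra.smul_def, map_smul, Algebra.algebraMap_eq_smul_one, map_smul, tau_one,
      mul_smul_comm, mul_one]
  · intro s y
    rw [gen_eq D s.2, tau_Ts_mul D s.2, tau_Tb, D.inv_eq s.2]
  · intro x x' hx hx' y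
    rw [add_mul, map_add, hx, hx', map_add, mul_add]
  · intro x x' hx hx' y
    rw [mul_assoc, hx, hx', hx, mul_assoc]

theorem tau_bar (x : Hk D) : tau D (bar D x) = bar D (tau D x) := by
  refine Hk_induction D (P := fun x => tau D (bar D x) = bar D (tau D x)) ?_ ?_ ?_ ?_ x
  · intro a
    rw [bar_algebraMap, Algebra.algebraMap_eq_smul_one, Algebra.algebraMap_eq_smul_one, map_smul,
      map_smul, tau_one, bar_smul, map_one]
  · intro s
    rw [gen_eq D s.2, tau_Tb, D.inv_eq s.2, bar_Ts D s.2]
    unfold TsI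
    rw [map_add, map_smul, map_smul, tau_one, tau_Tb, D.inv_eq s.2]
  · intro x y hx hy
    rw [map_add, map_add, hx, hy, map_add, map_add]
  · intro x y hx hy
    rw [map_mul, tau_mul, hx, hy, tau_mul, map_mul]

end KLFin
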