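import Pool.Agent.KLFin.BE1

/-!
# Part B (MP_d9d356_co), BE2: products of two Kazhdan-Lusztig families in different blocks
-/

open Finset

namespace KLFin

variable {n k l : ℕ} {κ : Fin n → ℕ} {e₁ : Fin k ↪o Fin n} {e₂ : Fin l ↪o Fin n}

/-- the images of `e₁` and `e₂` lie in different blocks -/
def Sep (κ : Fin n → ℕ) (e₁ : Fin k ↪o Fin n) (e₂ : Fin l ↪o Fin n) : Prop :=
  ∀ i j, κ (e₁ i) ≠ κ (e₂ j)

theorem Sep.ne (h : Sep κ e₁ e₂) (i : Fin k) (j : Fin l) : e₂ j ≠ e₁ i := fun h' =>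
  h i j (by rw [h'])

theorem vv_apply₁ (h : Sep κ e₁ e₂) (y : Pm k) (z : Pm l) (i : Fin k) :
    (vx e₁ y * vx e₂ z) (e₁ i) = e₁ (y i) := by
  rw [Equiv.Perm.mul_apply, vx_fix e₂ _ (fun j => h.ne i j), vx_apply]

theorem vv_apply₂ (h : Sep κ e₁ e₂) (y : Pm k) (z : Pm l) (j : Fin l) :
    (vx e₁ y * vx e₂ z) (e₂ j) = e₂ (z j) := by
  rw [Equiv.Perm.mul_apply, vx_apply, vx_fix e₁ _ (fun i => (h.ne i _).symm)]

theorem vv_fix (y : Pm k) (z : Pm l) {m : Fin n} (h₁ : ∀ i, e₁ i ≠ m) (h₂ : ∀ i, e₂ i ≠ m) :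
    (vx e₁ y * vx e₂ z) m = m := by
  rw [Equiv.Perm.mul_apply, vx_fix e₂ _ h₂, vx_fix e₁ _ h₁]

theorem vv_comm (h : Sep κ e₁ e₂) (y : Pm k) (z : Pm l) :
    vx e₁ y * vx e₂ z = vx e₂ z * vx e₁ y := by
  ext m
  by_cases h1 : ∃ i, e₁ i = m
  · obtain ⟨i, rfl⟩ := h1
    rw [vv_apply₁ h, Equiv.Perm.mul_apply, vx_apply, vx_fix e₂ _ (fun j => h.ne _ j)]
  · push Not at h1
    by_cases h2 : ∃ i, e₂ i = m
    · obtain ⟨i, rfl⟩ := h2
      rw [vv_apply₂ h, Equiv.Perm.mul_apply, vx_fix e₁ _ h1, vx_apply]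
    · push Not at h2
      rw [vv_fix y z h1 h2, Equiv.Perm.mul_apply, vx_fix e₁ _ h1, vx_fix e₂ _ h2]

theorem vv_inj (h : Sep κ e₁ e₂) {y y' : Pm k} {z z' : Pm l}
    (he : vx e₁ y * vx e₂ z = vx e₁ y' * vx e₂ z') : y = y' ∧ z = z' := by
  constructor
  · ext1 i
    have := congrArg (fun w : Pm n => w (e₁ i)) he
    simp only [vv_apply₁ h] at this
    exact e₁.injective this
  · ext1 i
    have := congrArg (fun w : Pm n => w (e₂ i)) he
    simp only [vv_apply₂ h] at this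
    exact e₂.injective this

theorem vv_inW (h₁ : EmbOK κ e₁) (h₂ : EmbOK κ e₂) (y : Pm k) (z : Pm l) :
    InW κ (vx e₁ y * vx e₂ z) := (vx_inW h₁ y).mul (vx_inW h₂ z)

theorem vv_inv (h : Sep κ e₁ e₂) (y : Pm k) (z : Pm l) :
    (vx e₁ y * vx e₂ z)⁻¹ = vx e₁ y⁻¹ * vx e₂ z⁻¹ := by
  rw [mul_inv_rev, vx_inv, vx_inv, ← vv_comm h]

/-- inversions of a product -/
theorem vv_inversion (h₁ : EmbOK κ e₁) (h₂ : EmbOK κ e₂) (h : Sep κ e₁ e₂) (y : Pm k) (z : Pm l)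
    {a b : Fin n} (hab : a < b) (hκ : κ a = κ b)
    (hi : (vx e₁ y * vx e₂ z)⁻¹ b < (vx e₁ y * vx e₂ z)⁻¹ a) :
    (∃ a' b', e₁ a' = a ∧ e₁ b' = b ∧ a' < b' ∧ y⁻¹ b' < y⁻¹ a') ∨
    (∃ a' b', e₂ a' = a ∧ e₂ b' = b ∧ a' < b' ∧ z⁻¹ b' < z⁻¹ a') := by
  by_cases hk : ∃ i, κ (e₁ i) = κ a
  · left
    obtain ⟨i, hi1⟩ := hk
    apply vx_inversion h₁ y hab hκ
    have hf : ∀ m, κ m = κ a → (vx e₁ y * vx e₂ z)⁻¹ m = (vx e₁ y)⁻¹ m := by
      intro m hm
      rw [mul_inv_rev, Equiv.Perm.mul_apply]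
      have h3 : κ ((vx e₁ y)⁻¹ m) = κ a := by rw [(vx_inW h₁ y).inv, hm]
      rw [vx_inv e₂]
      apply vx_fix
      intro j hj
      exact h i j (by rw [hi1, hj, h3])
    rw [← hf a rfl, ← hf b hκ.symm]
    exact hi
  · right
    push Not at hk
    apply vx_inversion h₂ z hab hκ
    have hf : ∀ m, κ m = κ a → (vx e₁ y * vx e₂ z)⁻¹ m = (vx e₂ z)⁻¹ m := by
      intro m hm
      rw [mul_inv_rev, Equiv.Perm.mul_apply, vx_inv e₁, vx_fix e₁]
      intro i hi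
      exact hk i (by rw [hi, hm])
    rw [← hf a rfl, ← hf b hκ.symm]
    exact hi

theorem vv_len (h₁ : EmbOK κ e₁) (h₂ : EmbOK κ e₂) (h : Sep κ e₁ e₂) (y : Pm k) (z : Pm l) :
    len κ (vx e₁ y * vx e₂ z) = len (κ0 k) y + len (κ0 l) z := by
  classical
  have hset : Finset.univ.filter (fun p : Fin n × Fin n =>
      p.1 < p.2 ∧ κ p.1 = κ p.2 ∧
        (vx e₁ y * vx e₂ z)⁻¹ p.2 < (vx e₁ y * vx e₂ z)⁻¹ p.1) =
      (Finset.univ.filter (fun p : Fin k × Fin k =>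
        p.1 < p.2 ∧ κ0 k p.1 = κ0 k p.2 ∧ y⁻¹ p.2 < y⁻¹ p.1)).image
          (fun p => (e₁ p.1, e₁ p.2)) ∪
      (Finset.univ.filter (fun p : Fin l × Fin l =>
        p.1 < p.2 ∧ κ0 l p.1 = κ0 l p.2 ∧ z⁻¹ p.2 < z⁻¹ p.1)).image
          (fun p => (e₂ p.1, e₂ p.2)) := by
    ext ⟨a, b⟩
    simp only [mem_filter, mem_univ, true_and, mem_union, mem_image, Prod.exists, Prod.mk.injEq]
    constructor
    · rintro ⟨hab, hκ, hi⟩
      rcases vv_inversion h₁ h₂ h y z hab hκ hi with ⟨a', b', ha, hb, h3, h4⟩ |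
        ⟨a', b', ha, hb, h3, h4⟩
      · exact Or.inl ⟨a', b', ⟨h3, rfl, h4⟩, ha, hb⟩
      · exact Or.inr ⟨a', b', ⟨h3, rfl, h4⟩, ha, hb⟩
    · rintro (⟨a', b', ⟨h3, -, h4⟩, rfl, rfl⟩ | ⟨a', b', ⟨h3, -, h4⟩, rfl, rfl⟩)
      · refine ⟨e₁.lt_iff_lt.mpr h3, h₁.blk _ _, ?_⟩
        rw [vv_inv h, vv_apply₁ h, vv_apply₁ h]
        exact e₁.lt_iff_lt.mpr h4
      · refine ⟨e₂.lt_iff_lt.mpr h3, h₂.blk _ _, ?_⟩
        rw [vv_inv h, vv_apply₂ h, vv_apply₂ h]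
        exact e₂.lt_iff_lt.mpr h4
  unfold len
  rw [hset, Finset.card_union_of_disjoint, Finset.card_image_of_injective,
    Finset.card_image_of_injective]
  · rintro ⟨a, b⟩ ⟨a', b'⟩ heq
    simp only [Prod.mk.injEq, EmbeddingLike.apply_eq_iff_eq] at heq
    exact Prod.ext heq.1 heq.2
  · rintro ⟨a, b⟩ ⟨a', b'⟩ heq
    simp only [Prod.mk.injEq, EmbeddingLike.apply_eq_iff_eq] at heq
    exact Prod.ext heq.1 heq.2
  · rw [Finset.disjoint_left]
    rintro p hp hp'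
    simp only [mem_image, Prod.exists] at hp hp'
    obtain ⟨a, b, -, rfl⟩ := hp
    obtain ⟨a', b', -, heq⟩ := hp'
    exact h.ne a a' (congrArg Prod.fst heq)

section bx

variable {R : Type*} [Semiring R]

theorem bx_apply (h : Sep κ e₁ e₂) (f : Pm k → R) (g : Pm l → R) (y : Pm k) (z : Pm l) :
    bx e₁ e₂ f g (vx e₁ y * vx e₂ z) = f y * g z := by
  classical
  unfold bx
  rw [Finset.sum_eq_single (y, z)]
  · rw [if_pos rfl]
  · rintro ⟨y', z'⟩ _ hne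
    rw [if_neg]
    intro he
    obtain ⟨rfl, rfl⟩ := vv_inj h he
    exact hne rfl
  · intro h; exact absurd (mem_univ _) h

theorem bx_not (f : Pm k → R) (g : Pm l → R) {w : Pm n} (h : ∀ y z, vx e₁ y * vx e₂ z ≠ w) :
    bx e₁ e₂ f g w = 0 := by
  unfold bx
  apply Finset.sum_eq_zero
  rintro ⟨y, z⟩ _
  rw [if_neg (h y z)]

end bx

theorem up_vv_sw (h₁ : EmbOK κ e₁) (h₂ : EmbOK κ e₂) (h : Sep κ e₁ e₂) {s : Fin k × Fin k}
    (hs : Smp (κ0 k) s) (y : Pm k) (z : Pm l) :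
    Up κ (vx e₁ y * vx e₂ z) (vx e₁ y * vx e₂ z * sw (e₁ s.1, e₁ s.2)) ↔
      Up (κ0 k) y (y * sw s) := by
  rw [up_sw_iff (vv_inW h₁ h₂ y z) (h₁.smp hs), up_sw_iff (κ0_inW y) hs, vv_apply₁ h,
    vv_apply₁ h, e₁.lt_iff_lt]

theorem SD_bx (h₁ : EmbOK κ e₁) (h₂ : EmbOK κ e₂) (h : Sep κ e₁ e₂) {d₂ : ℕ}
    {g : Pm l → Polynomial ℤ} (hg : SD κ d₂ (push e₂ g)) {d₁ : ℕ} {f : Pm k → Polynomial ℤ}
    (hf : SD (κ0 k) d₁ f) : SD κ (d₁ + d₂) (bx e₁ e₂ f g) := by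
  classical
  induction hf with
  | one =>
    have : bx e₁ e₂ (fun y : Pm k => if y = 1 then (1 : Polynomial ℤ) else 0) g = push e₂ g := by
      funext w
      by_cases hw : ∃ y z, vx e₁ y * vx e₂ z = w
      · obtain ⟨y, z, rfl⟩ := hw
        rw [bx_apply h]
        by_cases hy : y = 1
        · subst hy; rw [if_pos rfl, one_mul, vx_one, one_mul, push_apply]
        · rw [if_neg hy, zero_mul, push_not]
          intro z' hz'
          apply hy
          have : vx e₁ y * vx e₂ z = vx e₁ 1 * vx e₂ z' := by rw [vx_one, one_mul, hz']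
          exact (vv_inj h this).1
      · push Not at hw
        rw [bx_not _ _ hw, push_not]
        intro z hz
        apply hw 1 z
        rw [vx_one, one_mul, hz]
    rw [this, zero_add]
    exact hg
  | zero d =>
    have : bx e₁ e₂ (0 : Pm k → Polynomial ℤ) g = 0 := by
      funext w
      unfold bx
      simp
    rw [this]
    exact SD.zero _
  | @add d f f' _ _ ih1 ih2 =>
    have : bx e₁ e₂ (f + f') g = bx e₁ e₂ f g + bx e₁ e₂ f' g := by
      funext w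
      unfold bx
      rw [Pi.add_apply, ← Finset.sum_add_distrib]
      apply Finset.sum_congr rfl
      rintro ⟨y, z⟩ _
      split_ifs
      · simp only [Pi.add_apply, add_mul]
      · simp
    rw [this]
    exact SD.add ih1 ih2
  | @neg d f _ ih =>
    have : bx e₁ e₂ (-f) g = - bx e₁ e₂ f g := by
      funext w
      unfold bx
      rw [Pi.neg_apply, ← Finset.sum_neg_distrib]
      apply Finset.sum_congr rfl
      rintro ⟨y, z⟩ _
      split_ifs <;> simp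
    rw [this]
    exact SD.neg ih
  | @shift d f _ ih =>
    have : bx e₁ e₂ (fun y => Polynomial.X * f y) g =
        fun w => Polynomial.X * bx e₁ e₂ f g w := by
      funext w
      unfold bx
      rw [Finset.mul_sum]
      apply Finset.sum_congr rfl
      rintro ⟨y, z⟩ _
      split_ifs
      · rw [mul_assoc]
      · rw [mul_zero]
    rw [this, show d + 2 + d₂ = d + d₂ + 2 by ring]
    exact SD.shift ih
  | @mul d f s hs _ ih =>
    have : bx e₁ e₂ (fun y => if Up (κ0 k) y (y * sw s) then f y + Polynomial.X * f (y * sw s)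
        else f (y * sw s) + Polynomial.X * f y) g =
        fun w => if Up κ w (w * sw (e₁ s.1, e₁ s.2)) then
          bx e₁ e₂ f g w + Polynomial.X * bx e₁ e₂ f g (w * sw (e₁ s.1, e₁ s.2))
          else bx e₁ e₂ f g (w * sw (e₁ s.1, e₁ s.2)) + Polynomial.X * bx e₁ e₂ f g w := by
      funext w
      by_cases hw : ∃ y z, vx e₁ y * vx e₂ z = w
      · obtain ⟨y, z, rfl⟩ := hw
        have e1 : vx e₁ y * vx e₂ z * sw (e₁ s.1, e₁ s.2) = vx e₁ (y * sw s) * vx e₂ z := by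
          rw [vx_mul, vx_sw, mul_assoc, mul_assoc, ← vx_sw, vv_comm h]
        rw [bx_apply h]
        by_cases hu : Up (κ0 k) y (y * sw s)
        · rw [if_pos hu, if_pos ((up_vv_sw h₁ h₂ h hs y z).mpr hu), e1, bx_apply h, bx_apply h,
            add_mul, mul_assoc]
        · rw [if_neg hu, if_neg (fun h' => hu ((up_vv_sw h₁ h₂ h hs y z).mp h')), e1, bx_apply h,
            bx_apply h, add_mul, mul_assoc]
      · push Not at hw
        have hw' : ∀ y z, vx e₁ y * vx e₂ z ≠ w * sw (e₁ s.1, e₁ s.2) := by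
          intro y z hy
          apply hw (y * sw s) z
          rw [vx_mul, mul_assoc, vv_comm h, ← mul_assoc, hy, vx_sw, mul_assoc, sw_mul_sw,
            mul_one]
        rw [bx_not _ _ hw, bx_not _ _ hw, bx_not _ _ hw']
        simp
    rw [this, show d + 1 + d₂ = d + d₂ + 1 by ring]
    exact SD.mul _ (h₁.smp hs) ih

theorem vv_up₁ (h₁ : EmbOK κ e₁) (h : Sep κ e₁ e₂) {y y' : Pm k} (hy : Up (κ0 k) y y')
    (z : Pm l) : Up κ (vx e₁ y * vx e₂ z) (vx e₁ y' * vx e₂ z) := by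
  obtain ⟨a, b, hab, -, hlt, rfl⟩ := hy
  refine ⟨e₁ a, e₁ b, e₁.lt_iff_lt.mpr hab, h₁.blk _ _, ?_, ?_⟩
  · rw [vv_inv h, vv_apply₁ h, vv_apply₁ h]; exact e₁.lt_iff_lt.mpr hlt
  · rw [vx_mul, vx_swap, mul_assoc]

theorem vv_up₂ (h₂ : EmbOK κ e₂) (h : Sep κ e₁ e₂) (y : Pm k) {z z' : Pm l}
    (hz : Up (κ0 l) z z') : Up κ (vx e₁ y * vx e₂ z) (vx e₁ y * vx e₂ z') := by
  obtain ⟨a, b, hab, -, hlt, rfl⟩ := hz
  refine ⟨e₂ a, e₂ b, e₂.lt_iff_lt.mpr hab, h₂.blk _ _, ?_, ?_⟩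
  · rw [vv_inv h, vv_apply₂ h, vv_apply₂ h]; exact e₂.lt_iff_lt.mpr hlt
  · rw [vx_mul, vx_swap, ← mul_assoc, ← mul_assoc]
    congr 1
    rw [← vx_swap, vv_comm h]

theorem vv_le (h₁ : EmbOK κ e₁) (h₂ : EmbOK κ e₂) (h : Sep κ e₁ e₂) {y x : Pm k} {z t : Pm l}
    (hy : y ∈ Le (Up (κ0 k)) x) (hz : z ∈ Le (Up (κ0 l)) t) :
    vx e₁ y * vx e₂ z ∈ Le (Up κ) (vx e₁ x * vx e₂ t) := by
  have hy' : Relation.ReflTransGen (Up (κ0 k)) y x := hy
  have hz' : Relation.ReflTransGen (Up (κ0 l)) z t := hz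
  have a1 : Relation.ReflTransGen (Up κ) (vx e₁ y * vx e₂ z) (vx e₁ x * vx e₂ z) := by
    clear hy
    induction hy' with
    | refl => exact Relation.ReflTransGen.refl
    | tail _ h2 ih => exact ih.tail (vv_up₁ h₁ h h2 z)
  have a2 : Relation.ReflTransGen (Up κ) (vx e₁ x * vx e₂ z) (vx e₁ x * vx e₂ t) := by
    clear hz
    induction hz' with
    | refl => exact Relation.ReflTransGen.refl
    | tail _ h2 ih => exact ih.tail (vv_up₂ h₂ h x h2)
  exact a1.trans a2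

theorem map_bx (h : Sep κ e₁ e₂) (P : Pm k → Polynomial ℕ) (Q : Pm l → Polynomial ℕ) :
    (fun z => (bx e₁ e₂ P Q z).map (Nat.castRingHom ℤ)) =
      bx e₁ e₂ (fun y => (P y).map (Nat.castRingHom ℤ))
        (fun y => (Q y).map (Nat.castRingHom ℤ)) := by
  funext w
  by_cases hw : ∃ y z, vx e₁ y * vx e₂ z = w
  · obtain ⟨y, z, rfl⟩ := hw
    rw [bx_apply h, bx_apply h, Polynomial.map_mul]
  · push Not at hw
    rw [bx_not _ _ hw, bx_not _ _ hw, Polynomial.map_zero]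

/-- the Kazhdan-Lusztig family of a product -/
theorem KLF_bx (h₁ : EmbOK κ e₁) (h₂ : EmbOK κ e₂) (h : Sep κ e₁ e₂) {x : Pm k} {t : Pm l}
    {P : Pm k → Polynomial ℕ} {Q : Pm l → Polynomial ℕ}
    (hP : KLF (κ0 k) x P) (hQ : KLF (κ0 l) t Q) :
    KLF κ (vx e₁ x * vx e₂ t) (bx e₁ e₂ P Q) where
  sd := by
    rw [map_bx h, vv_len h₁ h₂ h]
    exact SD_bx h₁ h₂ h (SD_push h₂ hQ.sd) hP.sd
  one := by rw [bx_apply h, hP.one, hQ.one, mul_one]
  deg := by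
    intro w hw h0
    by_cases hw' : ∃ y z, vx e₁ y * vx e₂ z = w
    · obtain ⟨y, z, rfl⟩ := hw'
      rw [bx_apply h] at h0 ⊢
      rw [vv_len h₁ h₂ h, vv_len h₁ h₂ h]
      have hP0 : P y ≠ 0 := left_ne_zero_of_mul h0
      have hQ0 : Q z ≠ 0 := right_ne_zero_of_mul h0
      rw [Polynomial.natDegree_mul hP0 hQ0]
      by_cases hy : y = x
      · subst hy
        have hz : z ≠ t := fun h' => hw (by rw [h'])
        have := hQ.deg z hz hQ0
        rw [hP.one, Polynomial.natDegree_one]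
        omega
      · have h3 := hP.deg y hy hP0
        by_cases hz : z = t
        · subst hz
          rw [hQ.one, Polynomial.natDegree_one]
          omega
        · have := hQ.deg z hz hQ0
          omega
    · push Not at hw'
      exact absurd (bx_not _ _ hw') h0
  supp := by
    intro w hw
    by_cases hw' : ∃ y z, vx e₁ y * vx e₂ z = w
    · obtain ⟨y, z, rfl⟩ := hw'
      rw [bx_apply h]
      by_cases hy : y ∈ Le (Up (κ0 k)) x
      · by_cases hz : z ∈ Le (Up (κ0 l)) t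
        · exact absurd (vv_le h₁ h₂ h hy hz) hw
        · rw [hQ.supp z hz, mul_zero]
      · rw [hP.supp y hy, zero_mul]
    · push Not at hw'
      exact bx_not _ _ hw'

end KLFin
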