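import Mathlib

/-!
# Part C (positivity) of the proof that the Kazhdan-Lusztig value classes are finitely based
(MP_d9d356_co).  Definitions: Young datum, Bruhat relation, bimodules in function spaces.
-/

open MvPolynomial

namespace KLFin

/-- the polynomial ring `ℝ[x_0,…,x_{n-1}]` -/
abbrev Rg (n : ℕ) := MvPolynomial (Fin n) ℝ

abbrev Pm (n : ℕ) := Equiv.Perm (Fin n)

variable {n : ℕ}

/-- `w` acts on polynomials by `x_i ↦ x_{w i}` -/
noncomputable def act (w : Pm n) : Rg n →ₐ[ℝ] Rg n := rename w

@[simp] theorem act_X (w : Pm n) (i : Fin n) : act w (X i) = X (w i) := by simp [act]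

@[simp] theorem act_C (w : Pm n) (r : ℝ) : act w (C r) = C r := by simp [act]

theorem act_mul (w v : Pm n) (f : Rg n) : act (w * v) f = act w (act v f) := by
  simp [act, rename_rename]

@[simp] theorem act_one (f : Rg n) : act 1 f = f := by
  simp [act]

theorem act_homog {w : Pm n} {f : Rg n} {d : ℕ} (h : f.IsHomogeneous d) :
    (act w f).IsHomogeneous d := h.rename_isHomogeneous

theorem hcomp_mul_succ {σ : Type*} {f : MvPolynomial σ ℝ} {k : ℕ} (hf : f.IsHomogeneous k)
    (g : MvPolynomial σ ℝ) (d : ℕ) :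
    homogeneousComponent (d + k) (f * g) = f * homogeneousComponent d g := by
  classical
  conv_lhs => rw [← sum_homogeneousComponent g]
  rw [Finset.mul_sum, map_sum]
  have h : ∀ i ∈ Finset.range (g.totalDegree + 1),
      homogeneousComponent (d + k) (f * homogeneousComponent i g) =
        if i = d then f * homogeneousComponent d g else 0 := by
    intro i _
    have h1 : (f * homogeneousComponent i g).IsHomogeneous (k + i) :=
      hf.mul (homogeneousComponent_isHomogeneous i g)
    rw [homogeneousComponent_of_mem h1]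
    by_cases hid : i = d
    · subst hid; simp [add_comm]
    · rw [if_neg hid, if_neg]; omega
  rw [Finset.sum_congr rfl h, Finset.sum_ite_eq']
  split_ifs with h2
  · rfl
  · rw [homogeneousComponent_eq_zero d g (by simpa using h2)]; simp

theorem hcomp_mul_lt {σ : Type*} {f : MvPolynomial σ ℝ} {k : ℕ} (hf : f.IsHomogeneous k)
    (g : MvPolynomial σ ℝ) (d : ℕ) (hd : d < k) :
    homogeneousComponent d (f * g) = 0 := by
  classical
  conv_lhs => rw [← sum_homogeneousComponent g]
  rw [Finset.mul_sum, map_sum]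
  apply Finset.sum_eq_zero
  intro i _
  have h1 : (f * homogeneousComponent i g).IsHomogeneous (k + i) :=
    hf.mul (homogeneousComponent_isHomogeneous i g)
  rw [homogeneousComponent_of_mem h1, if_neg]; omega

/-- elements of the Young subgroup `W_κ` -/
def InW (κ : Fin n → ℕ) (w : Pm n) : Prop := ∀ i, κ (w i) = κ i

/-- the relation `y < t y`, `t = (a b)` a reflection of `W_κ` -/
def Up (κ : Fin n → ℕ) (y z : Pm n) : Prop :=
  ∃ a b : Fin n, a < b ∧ κ a = κ b ∧ y⁻¹ a < y⁻¹ b ∧ z = Equiv.swap a b * y

/-- opposite relation -/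
def Dn (κ : Fin n → ℕ) (y z : Pm n) : Prop := Up κ z y

/-- length `ℓ_κ(y)` = number of reflections `t = (a b)` with `t y < y` -/
def len (κ : Fin n → ℕ) (y : Pm n) : ℕ :=
  (Finset.univ.filter (fun p : Fin n × Fin n =>
    p.1 < p.2 ∧ κ p.1 = κ p.2 ∧ y⁻¹ p.2 < y⁻¹ p.1)).card

/-- simple reflections of `W_κ`: pairs `(i, i⁺)` of neighbours in a block -/
def Smp (κ : Fin n → ℕ) (s : Fin n × Fin n) : Prop :=
  s.1 < s.2 ∧ κ s.1 = κ s.2 ∧ ∀ k, s.1 < k → k < s.2 → κ k ≠ κ s.1

/-- the reflection of a pair -/
def sw (s : Fin n × Fin n) : Pm n := Equiv.swap s.1 s.2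

/-- `{z | z ≤ y}` for the reflexive transitive closure of `r` -/
def Le (r : Pm n → Pm n → Prop) (y : Pm n) : Set (Pm n) := {z | Relation.ReflTransGen r z y}

/-- `Ω` is closed downwards for `r` -/
def Low (r : Pm n → Pm n → Prop) (Ω : Set (Pm n)) : Prop := ∀ y z, r y z → z ∈ Ω → y ∈ Ω

/-- the root `y(α_s) = x_{y(s₁)} - x_{y(s₂)}` -/
noncomputable def al (y : Pm n) (s : Fin n × Fin n) : Rg n := X (y s.1) - X (y s.2)

theorem al_eq_act (y : Pm n) (s : Fin n × Fin n) : al y s = act y (al 1 s) := by
  simp [al]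

/-- A function all of whose values are homogeneous of degree `d`. -/
def Hg {I : Type} (d : ℕ) (m : I → Rg n) : Prop := ∀ i, (m i).IsHomogeneous d

/-- An object: a graded submodule of a function space, stable under the right action
`(m · x_j)_i = x_{π(i)(j)} m_i`. -/
structure Obj (n : ℕ) where
  I : Type
  [fI : Fintype I]
  [dI : DecidableEq I]
  π : I → Pm n
  M : Submodule (Rg n) (I → Rg n)
  right_mem : ∀ m ∈ M, ∀ j : Fin n, (fun i => X (π i j) * m i) ∈ M
  graded : ∀ m ∈ M, ∀ d : ℕ, (fun i => homogeneousComponent d (m i)) ∈ M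

attribute [instance] Obj.fI Obj.dI

namespace Obj

variable (O : Obj n)

theorem rmul_mem (f : Rg n) (m : O.I → Rg n) (hm : m ∈ O.M) :
    (fun i => act (O.π i) f * m i) ∈ O.M := by
  induction f using MvPolynomial.induction_on generalizing m with
  | C a =>
      have := O.M.smul_mem (C a) hm
      simpa [Pi.smul_def] using this
  | add p q hp hq =>
      have := O.M.add_mem (hp m hm) (hq m hm)
      convert this using 1
      funext i
      simp [add_mul]
  | mul_X p j hp =>
      have := hp _ (O.right_mem m hm j)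
      convert this using 1
      funext i
      simp [mul_assoc]

/-- right multiplication by `f` -/
noncomputable def rmul (f : Rg n) : O.M →ₗ[Rg n] O.M where
  toFun m := ⟨fun i => act (O.π i) f * m.1 i, O.rmul_mem f m.1 m.2⟩
  map_add' a b := by ext i; simp [mul_add]
  map_smul' a b := by
    ext1; funext i
    simp only [SetLike.val_smul, Pi.smul_apply, smul_eq_mul, RingHom.id_apply]
    ring

@[simp] theorem rmul_val (f : Rg n) (m : O.M) (i : O.I) :
    (O.rmul f m).1 i = act (O.π i) f * m.1 i := rfl

theorem rmul_mul (f g : Rg n) (m : O.M) : O.rmul (f * g) m = O.rmul f (O.rmul g m) := by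
  ext1; funext i; simp [mul_assoc]

theorem rmul_add (f g : Rg n) (m : O.M) : O.rmul (f + g) m = O.rmul f m + O.rmul g m := by
  ext1; funext i; simp [add_mul]

@[simp] theorem rmul_one (m : O.M) : O.rmul 1 m = m := by
  ext1; funext i; simp

/-- homogeneous elements of degree `d` -/
noncomputable def dg (d : ℕ) : Submodule ℝ O.M where
  carrier := {m | Hg d m.1}
  add_mem' ha hb i := (ha i).add (hb i)
  zero_mem' i := isHomogeneous_zero _ _ _
  smul_mem' c m hm i := by
    have h := hm i
    have : (c • m).1 i = C c * m.1 i := by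
      simp [MvPolynomial.smul_eq_C_mul]
    rw [this]
    have h2 := (isHomogeneous_C (Fin n) c).mul h
    simpa using h2

/-- sections supported in `Ω` -/
noncomputable def sec (Ω : Set (Pm n)) : Submodule (Rg n) (O.I → Rg n) where
  carrier := {m | m ∈ O.M ∧ ∀ i, O.π i ∉ Ω → m i = 0}
  add_mem' ha hb := ⟨O.M.add_mem ha.1 hb.1, fun i hi => by simp [ha.2 i hi, hb.2 i hi]⟩
  zero_mem' := ⟨O.M.zero_mem, fun i _ => rfl⟩
  smul_mem' c m hm := ⟨O.M.smul_mem c hm.1, fun i hi => by simp [hm.2 i hi]⟩

/-- restriction to the components over `y` -/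
noncomputable def res {I : Type} (π : I → Pm n) (y : Pm n) : (I → Rg n) →ₗ[Rg n] (I → Rg n) where
  toFun m i := if π i = y then m i else 0
  map_add' a b := by funext i; by_cases h : π i = y <;> simp [h]
  map_smul' c a := by funext i; by_cases h : π i = y <;> simp [h]

/-- `D_y(M)`: the values over `y` of the sections supported on `≤ y` -/
noncomputable def Dsub (r : Pm n → Pm n → Prop) (y : Pm n) : Submodule (Rg n) (O.I → Rg n) :=
  (O.sec (Le r y)).map (res O.π y)

/-- the submodule `M R_+` -/
noncomputable def MRp : Submodule (Rg n) O.M := ⨆ j : Fin n, LinearMap.range (O.rmul (X j))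

end Obj

/-- `N` is graded free with a homogeneous basis whose degrees are counted by `p`. -/
def GF {I : Type} (N : Submodule (Rg n) (I → Rg n)) (p : Polynomial ℕ) : Prop :=
  ∃ (k : ℕ) (b : Fin k → (I → Rg n)) (e : Fin k → ℕ), (∀ i, Hg (e i) (b i)) ∧
    LinearIndependent (Rg n) b ∧ Submodule.span (Rg n) (Set.range b) = N ∧
    p = ∑ i, Polynomial.X ^ (e i)

/-- the function `a ⊗ 1 + b ⊗ α_s` -/
noncomputable def elFun {I : Type} (π : I → Pm n) (s : Fin n × Fin n) :
    ((I → Rg n) × (I → Rg n)) →ₗ[Rg n] (I × Bool → Rg n) where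
  toFun c p := c.1 p.1 + al (if p.2 then π p.1 * sw s else π p.1) s * c.2 p.1
  map_add' a b := by funext p; simp; ring
  map_smul' a b := by funext p; simp; ring

/-- the `s`-invariant part `(x_j + x_{s j})/2` of `x_j` -/
noncomputable def uPart (s : Fin n × Fin n) (j : Fin n) : Rg n :=
  C (1 / 2) * (X j + X (sw s j))

/-- the coefficient `∂_s(x_j)/2` of `α_s` in `x_j` -/
noncomputable def vPart (s : Fin n × Fin n) (j : Fin n) : ℝ :=
  if j = s.1 then 1 / 2 else if j = s.2 then -(1 / 2) else 0

theorem C_half_two : (C (1/2 : ℝ) : Rg n) * 2 = 1 := by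
  have h2 : (2 : Rg n) = C 2 := (map_ofNat (C : ℝ →+* Rg n) 2).symm
  rw [h2, ← C_mul]
  norm_num

theorem X_eq_uv (s : Fin n × Fin n) (_hs : s.1 ≠ s.2) (j : Fin n) :
    (X j : Rg n) = uPart s j + C (vPart s j) * al 1 s := by
  unfold uPart vPart al sw
  by_cases h1 : j = s.1
  · subst h1
    simp only [Equiv.swap_apply_left, Equiv.Perm.coe_one, id_eq, if_true]
    have : (C (1/2 : ℝ) : Rg n) * 2 = 1 := C_half_two
    linear_combination (-(X s.1 : Rg n)) * this
  · by_cases h2 : j = s.2
    · subst h2
      simp only [Equiv.swap_apply_right, Equiv.Perm.coe_one, id_eq, if_true, if_neg h1, C_neg]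
      have : (C (1/2 : ℝ) : Rg n) * 2 = 1 := C_half_two
      linear_combination (-(X s.2 : Rg n)) * this
    · rw [Equiv.swap_apply_of_ne_of_ne h1 h2]
      simp only [if_neg h1, if_neg h2, C_0, zero_mul, add_zero]
      have : (C (1/2 : ℝ) : Rg n) * 2 = 1 := C_half_two
      linear_combination (-(X j : Rg n)) * this

theorem act_sw_uPart (s : Fin n × Fin n) (j : Fin n) : act (sw s) (uPart s j) = uPart s j := by
  simp only [uPart, map_mul, act_C, map_add, act_X]
  have : sw s (sw s j) = j := by simp [sw]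
  rw [this]; ring

theorem act_sw_al (s : Fin n × Fin n) : act (sw s) (al 1 s) = - al 1 s := by
  simp [al, sw]

theorem al_mul_sw (y : Pm n) (s : Fin n × Fin n) : al (y * sw s) s = - al y s := by
  rw [al_eq_act, act_mul, act_sw_al, map_neg, ← al_eq_act]

theorem al_homog (y : Pm n) (s : Fin n × Fin n) : (al y s).IsHomogeneous 1 :=
  (isHomogeneous_X _ _).sub (isHomogeneous_X _ _)

/-- `θ_s M = M ⊗_{R^s} R`; only used for `s.1 ≠ s.2`. -/
noncomputable def theta (s : Fin n × Fin n) (O : Obj n) : Obj n where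
  I := O.I × Bool
  π p := if p.2 then O.π p.1 * sw s else O.π p.1
  M := (O.M.prod O.M).map (elFun O.π s)
  right_mem := by
    rintro _ ⟨⟨a, b⟩, ⟨ha, hb⟩, rfl⟩ j
    simp only at ha hb
    by_cases hs : s.1 = s.2
    · -- degenerate case
      refine ⟨(fun i => X (O.π i j) * a i, 0), ⟨O.right_mem a ha j, O.M.zero_mem⟩, ?_⟩
      have h1 : sw s = 1 := by rw [sw, hs, Equiv.swap_self]; rfl
      funext p
      simp [elFun, h1, al, hs]
    · refine ⟨(fun i => act (O.π i) (uPart s j) * a i +
          (fun i => act (O.π i) (al 1 s * al 1 s) * ((C (vPart s j) : Rg n) • b) i) i,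
        fun i => ((C (vPart s j) : Rg n) • a) i + act (O.π i) (uPart s j) * b i), ⟨?_, ?_⟩, ?_⟩
      · exact O.M.add_mem (O.rmul_mem _ a ha) (O.rmul_mem _ _ (O.M.smul_mem _ hb))
      · exact O.M.add_mem (O.M.smul_mem _ ha) (O.rmul_mem _ b hb)
      · funext p
        have hX : ∀ y : Pm n, (X (y j) : Rg n) =
            act y (uPart s j) + C (vPart s j) * al y s := by
          intro y
          have := congrArg (act y) (X_eq_uv s hs j)
          rw [map_add, map_mul, act_C, act_X, ← al_eq_act] at this
          exact this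
        simp only [elFun, LinearMap.coe_mk, AddHom.coe_mk, Pi.smul_apply, smul_eq_mul]
        rw [hX]
        cases hp : p.2
        · simp only [Bool.false_eq_true, if_false, map_mul]
          rw [← al_eq_act]; ring
        · simp only [if_true, map_mul]
          rw [act_mul, act_sw_uPart, ← al_eq_act, al_mul_sw]; ring
  graded := by
    rintro _ ⟨⟨a, b⟩, ⟨ha, hb⟩, rfl⟩ d
    simp only at ha hb
    cases d with
    | zero =>
      refine ⟨(fun i => homogeneousComponent 0 (a i), 0), ⟨O.graded a ha 0, O.M.zero_mem⟩, ?_⟩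
      funext p
      simp only [elFun, LinearMap.coe_mk, AddHom.coe_mk, map_add, Pi.zero_apply, mul_zero]
      rw [hcomp_mul_lt (al_homog _ s) _ _ (by norm_num)]
    | succ d =>
      refine ⟨(fun i => homogeneousComponent (d + 1) (a i),
        fun i => homogeneousComponent d (b i)), ⟨O.graded a ha _, O.graded b hb _⟩, ?_⟩
      funext p
      simp only [elFun, LinearMap.coe_mk, AddHom.coe_mk, map_add]
      rw [hcomp_mul_succ (al_homog _ s)]

end KLFin
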