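import Mathlib
import Pool.Agent.KLFin.CDefs

/-!
# Part C, definitions 2: morphisms, forms, nice objects, KL objects (MP_d9d356_co)
-/

open MvPolynomial

namespace KLFin

variable {n : ℕ}

/-! ### the Demazure operator -/

open Classical in
/-- `∂_s f = (f - s f) / α_s` -/
noncomputable def dem (s : Fin n × Fin n) (f : Rg n) : Rg n :=
  if h : al 1 s ∣ f - act (sw s) f then h.choose else 0

/-- `ρ = Σ c_i x_i` with `c_i = -i` strictly decreasing -/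
noncomputable def rho (n : ℕ) : Rg n := ∑ i : Fin n, C (-(i : ℝ)) * X i

/-! ### morphisms -/

/-- `φ` commutes with the right action -/
def BiMap {O P : Obj n} (φ : O.M →ₗ[Rg n] P.M) : Prop :=
  ∀ (j : Fin n) (m : O.M), φ (O.rmul (X j) m) = P.rmul (X j) (φ m)

/-- `φ` is homogeneous of degree `e` -/
def DegMap {O P : Obj n} (φ : O.M →ₗ[Rg n] P.M) (e : ℤ) : Prop :=
  ∀ i : ℕ, ∀ a ∈ O.dg i, (∀ j : ℕ, (j : ℤ) = i + e → φ a ∈ P.dg j) ∧ ((i : ℤ) + e < 0 → φ a = 0)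

/-- the element `a ⊗ 1 + b ⊗ α_s` of `θ_s O` -/
noncomputable def el (s : Fin n × Fin n) {O : Obj n} (a b : O.M) : (theta s O).M :=
  ⟨elFun O.π s (a.1, b.1), ⟨(a.1, b.1), ⟨a.2, b.2⟩, rfl⟩⟩

/-! ### forms -/

/-- a perfect symmetric form of degree `-d`, right linear, with self-adjoint left action -/
structure Frm (O : Obj n) (d : ℕ) where
  F : O.M →ₗ[ℝ] O.M →ₗ[ℝ] Rg n
  symm : ∀ a b, F a b = F b a
  left : ∀ (f : Rg n) (a b : O.M), F (f • a) b = F a (f • b)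
  right : ∀ (f : Rg n) (a b : O.M), F (O.rmul f a) b = f * F a b
  deg : ∀ i j k : ℕ, ∀ a ∈ O.dg i, ∀ b ∈ O.dg j, i + j = k + d → (F a b).IsHomogeneous k
  deg0 : ∀ i j : ℕ, ∀ a ∈ O.dg i, ∀ b ∈ O.dg j, i + j < d → F a b = 0
  perfect : ∀ g : O.M →ₗ[ℝ] Rg n, (∀ (f : Rg n) (a : O.M), g (O.rmul f a) = f * g a) →
    ∃ b, ∀ a, g a = F a b
  nondeg : ∀ b, (∀ a, F a b = 0) → b = 0

/-- `G` is the form on `θ_s O` induced by `Fm`: `⟨a ⊗ f, b ⊗ g⟩ = f g ∂_s ⟨a,b⟩` -/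
def IsThetaFrm (s : Fin n × Fin n) {O : Obj n} {d : ℕ} (Fm : Frm O d)
    (G : Frm (theta s O) (d + 1)) : Prop :=
  ∀ a b a' b' : O.M, G.F (el s a b) (el s a' b') =
    dem s (Fm.F a a') + al 1 s * (dem s (Fm.F a b') + dem s (Fm.F b a'))
      + al 1 s * al 1 s * dem s (Fm.F b b')

/-! ### nice objects -/

/-- all local stalks are graded free, and the condition `(★_t)` -/
structure Nice (κ : Fin n → ℕ) (O : Obj n) : Prop where
  inW : ∀ i, InW κ (O.π i)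
  lo : ∀ y, ∃ p, GF (O.Dsub (Up κ) y) p
  up : ∀ y, ∃ p, GF (O.Dsub (Dn κ) y) p
  star : ∀ a b : Fin n, a < b → κ a = κ b → ∀ x : Pm n, x⁻¹ a < x⁻¹ b →
    ∀ u ∈ O.M, (∀ i, O.π i = x → u i = 0) → ∃ p : Rg n, ¬ ((X a - X b : Rg n) ∣ p) ∧
      ∃ v ∈ O.M, ∀ i, O.π i = Equiv.swap a b * x → p * u i = (X a - X b) * v i

/-- `D'_y` has graded rank `q^{ℓ(y)} P_y`, `D_y` has graded rank `q^{d-ℓ(y)} P_y(1/q)` -/
structure CharRel (κ : Fin n → ℕ) (d : ℕ) (O : Obj n) (P : Pm n → Polynomial ℕ) : Prop where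
  up : ∀ y, GF (O.Dsub (Dn κ) y) (Polynomial.X ^ (len κ y) * P y)
  lo : ∀ y, GF (O.Dsub (Up κ) y) ((P y).reflect (d - len κ y))
  deg : ∀ y, P y ≠ 0 → len κ y + (P y).natDegree ≤ d

open Classical in
/-- self-dual characters of degree `d`: the smallest family containing `(0, δ_e)`, closed under
`h ↦ h (1 + T_s)`, sums, differences and `h ↦ q h` -/
inductive SD (κ : Fin n → ℕ) : ℕ → (Pm n → Polynomial ℤ) → Prop
  | one : SD κ 0 (fun y => if y = 1 then 1 else 0)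
  | zero (d : ℕ) : SD κ d 0
  | add {d : ℕ} {f g : Pm n → Polynomial ℤ} : SD κ d f → SD κ d g → SD κ d (f + g)
  | neg {d : ℕ} {f : Pm n → Polynomial ℤ} : SD κ d f → SD κ d (-f)
  | shift {d : ℕ} {f : Pm n → Polynomial ℤ} : SD κ d f →
      SD κ (d + 2) (fun y => Polynomial.X * f y)
  | mul {d : ℕ} {f : Pm n → Polynomial ℤ} (s : Fin n × Fin n) (hs : Smp κ s) : SD κ d f →
      SD κ (d + 1) (fun y => if Up κ y (y * sw s) then f y + Polynomial.X * f (y * sw s)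
        else f (y * sw s) + Polynomial.X * f y)

/-- lifting property of the generator `b0` over `x` -/
def LiftProp (κ : Fin n → ℕ) (x : Pm n) (O : Obj n) (b0 : O.M) : Prop :=
  ∀ N : Obj n, Nice κ N → ∀ e : ℕ, ∀ m : N.M, m ∈ N.dg e →
    (∀ i, N.π i ∉ Le (Up κ) x → m.1 i = 0) →
    ∃ φ : O.M →ₗ[Rg n] N.M, BiMap φ ∧ DegMap φ e ∧ ∀ i, N.π i = x → (φ b0).1 i = m.1 i

/-- Hodge-Riemann relations on `O / O R_+` for a degree one operator `L` -/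
def HRop (O : Obj n) (d : ℕ) (F : O.M →ₗ[ℝ] O.M →ₗ[ℝ] Rg n) (L : O.M →ₗ[ℝ] O.M) : Prop :=
  ∀ i, 2 * i ≤ d → ∀ b ∈ O.dg i, (L ^ (d - 2 * i + 1)) b ∈ O.MRp →
    b ∈ O.MRp ∨ 0 < (-1 : ℝ) ^ i * constantCoeff (F b ((L ^ (d - 2 * i)) b))

/-- hard Lefschetz (injectivity) on `O / O R_+` -/
def HLop (O : Obj n) (d : ℕ) (L : O.M →ₗ[ℝ] O.M) : Prop :=
  ∀ i, 2 * i ≤ d → ∀ b ∈ O.dg i, (L ^ (d - 2 * i)) b ∈ O.MRp → b ∈ O.MRp

/-- left multiplication by `ρ` -/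
noncomputable def Lrho (O : Obj n) : O.M →ₗ[ℝ] O.M where
  toFun m := rho n • m
  map_add' := by intro a b; exact smul_add _ _ _
  map_smul' := by intro c a; exact smul_comm _ _ _

/-- the unit object `R_e` -/
noncomputable def Re (n : ℕ) : Obj n where
  I := Unit
  π _ := 1
  M := ⊤
  right_mem := by intro _ _ _; trivial
  graded := by intro _ _ _; trivial

/-- Bott-Samelson object of a word (read from right to left) -/
noncomputable def BS : List (Fin n × Fin n) → Obj n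
  | [] => Re n
  | s :: l => theta s (BS l)

/-- the product of the word (read from right to left) -/
def wprod : List (Fin n × Fin n) → Pm n
  | [] => 1
  | s :: l => wprod l * sw s

/-- `O` is a direct summand (degree 0) of `P` -/
def IsSummand (O P : Obj n) : Prop :=
  ∃ (i : O.M →ₗ[Rg n] P.M) (p : P.M →ₗ[Rg n] O.M), BiMap i ∧ BiMap p ∧ DegMap i 0 ∧
    DegMap p 0 ∧ ∀ m, p (i m) = m

/-- a Kazhdan-Lusztig object of type `x` -/
structure KLObj (κ : Fin n → ℕ) (x : Pm n) where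
  O : Obj n
  Fm : Frm O (len κ x)
  b0 : O.M
  P : Pm n → Polynomial ℕ
  nice : Nice κ O
  supp : ∀ (m : O.M) (i : O.I), O.π i ∉ Le (Up κ) x → m.1 i = 0
  b0_mem : b0 ∈ O.dg 0
  b0_ne : ∃ i, O.π i = x ∧ b0.1 i ≠ 0
  gen : ∀ m : O.M, ∃ f : Rg n, ∀ i, O.π i = x → m.1 i = f * b0.1 i
  char : CharRel κ (len κ x) O P
  Px : P x = 1
  Pdeg : ∀ y, y ≠ x → P y ≠ 0 → len κ y + 2 * (P y).natDegree + 1 ≤ len κ x
  Psupp : ∀ y, y ∉ Le (Up κ) x → P y = 0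
  sd : SD κ (len κ x) (fun y => (P y).map (Nat.castRingHom ℤ))
  lift : LiftProp κ x O b0
  bs : ∃ l : List (Fin n × Fin n), (∀ s ∈ l, Smp κ s) ∧ wprod l = x ∧ l.length = len κ x ∧
    IsSummand O (BS l)
  hr : HRop O (len κ x) Fm.F (Lrho O)

/-- the family `W(x)` of weak Lefschetz maps -/
def WProp (κ : Fin n → ℕ) {x : Pm n} (B : KLObj κ x) : Prop :=
  ∃ (K : ℕ) (z : Fin K → Pm n) (Bz : ∀ k, KLObj κ (z k)) (e : Fin K → ℕ)
    (d : ∀ k, B.O.M →ₗ[Rg n] (Bz k).O.M),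
    (∀ k, InW κ (z k) ∧ len κ (z k) + 2 * e k + 1 = len κ x) ∧
    (∀ k, BiMap (d k) ∧ DegMap (d k) (-(e k : ℤ))) ∧
    (∀ b b', ∑ k, (-1 : Rg n) ^ (e k) * (Bz k).Fm.F (d k b) (d k b') =
      B.Fm.F (rho n • b) b' - act x⁻¹ (rho n) * B.Fm.F b b') ∧
    (∀ i < len κ x, ∀ b ∈ B.O.dg i, (∀ k, d k b ∈ (Bz k).O.MRp) → b ∈ B.O.MRp)

/-- structure of a KL object with respect to a right descent `s` -/
def DProp (κ : Fin n → ℕ) {x : Pm n} (B : KLObj κ x) (s : Fin n × Fin n) : Prop :=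
  ∃ D : B.O.M →ₗ[Rg n] B.O.M,
    (∀ b, D (B.O.rmul (al 1 s) b) + B.O.rmul (al 1 s) (D b) = b) ∧
    (∀ f, act (sw s) f = f → ∀ b, D (B.O.rmul f b) = B.O.rmul f (D b)) ∧
    DegMap D (-1) ∧ (∀ b, D (D b) = 0) ∧
    (∀ u u', dem s (B.Fm.F u u') =
      2 * (B.Fm.F (D u) u' + act (sw s) (B.Fm.F u (D u'))))

/-- an operator on `θ_s O` is the middle multiplication by `ρ` -/
def IsMid (s : Fin n × Fin n) (O : Obj n) (T : (theta s O).M →ₗ[ℝ] (theta s O).M) : Prop :=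
  ∀ a b : O.M, T (el s a b) = el s (O.rmul (rho n) a) (O.rmul (rho n) b)

end KLFin
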