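import Mathlib
import Pool.Agent.KLFin.CDefs2
import Pool.Agent.KLFin.LADefs

/-!
# Part C, definitions 3: quotients, decompositions, translation (MP_d9d356_co)
-/

open MvPolynomial

namespace KLFin

variable {n : ℕ}

/-- the real vector space `O / O R_+` -/
abbrev Obj.Qt (O : Obj n) : Type := O.M ⧸ (O.MRp.restrictScalars ℝ)

/-- its degree `i` part -/
noncomputable def Obj.Qi (O : Obj n) (i : ℕ) : Submodule ℝ O.Qt :=
  (O.dg i).map (O.MRp.restrictScalars ℝ).mkQ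

/-- `Lq` and `Fq` are the operator and the form induced on `O / O R_+` -/
def IsQuot (O : Obj n) (F : O.M →ₗ[ℝ] O.M →ₗ[ℝ] Rg n) (L : O.M →ₗ[ℝ] O.M)
    (Fq : O.Qt →ₗ[ℝ] O.Qt →ₗ[ℝ] ℝ) (Lq : O.Qt →ₗ[ℝ] O.Qt) : Prop :=
  (∀ a b : O.M, Fq ((O.MRp.restrictScalars ℝ).mkQ a) ((O.MRp.restrictScalars ℝ).mkQ b) =
    constantCoeff (F a b)) ∧
  (∀ a : O.M, Lq ((O.MRp.restrictScalars ℝ).mkQ a) = (O.MRp.restrictScalars ℝ).mkQ (L a))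

/-- admissible degree one operator: homogeneous of degree 1, preserves `O R_+`, self-adjoint -/
structure AdmOp (O : Obj n) (F : O.M →ₗ[ℝ] O.M →ₗ[ℝ] Rg n) (L : O.M →ₗ[ℝ] O.M) : Prop where
  deg : ∀ i, ∀ a ∈ O.dg i, L a ∈ O.dg (i + 1)
  mrp : ∀ a ∈ O.MRp, L a ∈ O.MRp
  adj : ∀ a b, F (L a) b = F a (L b)

/-- orthogonal decomposition of `θ_s B` into KL objects; `k₀` is the summand of type `x s` -/
def DecProp (κ : Fin n → ℕ) (s : Fin n × Fin n) {x : Pm n} (B : KLObj κ x)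
    (G : Frm (theta s B.O) (len κ x + 1)) : Prop :=
  ∃ (K : ℕ) (u : Fin K → Pm n) (Bu : ∀ k, KLObj κ (u k)) (f : Fin K → ℕ)
    (φ : ∀ k, (Bu k).O.M →ₗ[Rg n] (theta s B.O).M)
    (ψ : ∀ k, (theta s B.O).M →ₗ[Rg n] (Bu k).O.M),
    (∀ k, InW κ (u k) ∧ len κ (u k) + 2 * f k = len κ x + 1) ∧
    (∀ k, BiMap (φ k) ∧ DegMap (φ k) (f k)) ∧
    (∀ k, BiMap (ψ k) ∧ DegMap (ψ k) (-(f k : ℤ))) ∧
    (∀ k m b, (Bu k).Fm.F (ψ k m) b = G.F m (φ k b)) ∧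
    (∀ k b, ψ k (φ k b) = (-1 : Rg n) ^ (f k) • b) ∧
    (∀ k l, k ≠ l → ∀ b, ψ k (φ l b) = 0) ∧
    (∀ m, m = ∑ k, (-1 : Rg n) ^ (f k) • φ k (ψ k m)) ∧
    ∃ k₀, u k₀ = x * sw s ∧ f k₀ = 0

/-- isometric direct summand with adjoint projection -/
def IsoSummand {O P : Obj n} {d : ℕ} (Fm : Frm O d) (Gm : Frm P d)
    (i : O.M →ₗ[Rg n] P.M) (p : P.M →ₗ[Rg n] O.M) : Prop :=
  BiMap i ∧ BiMap p ∧ DegMap i 0 ∧ DegMap p 0 ∧ (∀ m, p (i m) = m) ∧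
    ∀ m b, Fm.F (p m) b = Gm.F m (i b)

/-- all the statements of the induction for an element `x` -/
structure Full (κ : Fin n → ℕ) (x : Pm n) : Prop where
  ex : Nonempty (KLObj κ x)
  w : ∀ B : KLObj κ x, WProp κ B
  d : ∀ s, Smp κ s → Up κ (x * sw s) x → ∀ B : KLObj κ x, DProp κ B s
  hrUp : ∀ s, Smp κ s → Up κ x (x * sw s) → ∀ (B : KLObj κ x)
    (G : Frm (theta s B.O) (len κ x + 1)), IsThetaFrm s B.Fm G →
    ∀ T, IsMid s B.O T → ∀ ζ : ℝ, 0 ≤ ζ →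
    HRop (theta s B.O) (len κ x + 1) G.F (Lrho (theta s B.O) + ζ • T)
  hrDn : ∀ s, Smp κ s → Up κ (x * sw s) x → ∀ (B : KLObj κ x)
    (G : Frm (theta s B.O) (len κ x + 1)), IsThetaFrm s B.Fm G →
    ∀ T, IsMid s B.O T → ∀ ζ : ℝ, 0 < ζ →
    HRop (theta s B.O) (len κ x + 1) G.F (Lrho (theta s B.O) + ζ • T)
  dec : ∀ s, Smp κ s → Up κ x (x * sw s) → ∀ (B : KLObj κ x)
    (G : Frm (theta s B.O) (len κ x + 1)), IsThetaFrm s B.Fm G → DecProp κ s B G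

/-- translation `x_a ↦ x_a + κ_a` -/
noncomputable def tr (κ : Fin n → ℕ) : Rg n →ₐ[ℝ] Rg n := aeval (fun a => X a + C (κ a : ℝ))

/-- translation `x_a ↦ x_a - κ_a` -/
noncomputable def trInv (κ : Fin n → ℕ) : Rg n →ₐ[ℝ] Rg n :=
  aeval (fun a => X a - C (κ a : ℝ))

/-- the Young datum of `S_n` itself -/
def κ0 (n : ℕ) : Fin n → ℕ := fun _ => 0

end KLFin
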