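import Mathlib
import Pool.Agent.KLFin.ADefs
import Pool.Agent.KLFin.CDefs3

/-!
# Part B (MP_d9d356_co): embeddings, products, cut.  Definitions.
-/

open Finset

namespace KLFin

variable {n k l : ℕ}

/-- The extension of `y` by the identity along an order embedding. -/
noncomputable def vx (e : Fin k ↪o Fin n) (y : Pm k) : Pm n :=
  Equiv.Perm.viaEmbedding y e.toEmbedding

/-- The image of `e` lies in one block of `κ`, and is an interval of this block. -/
structure EmbOK (κ : Fin n → ℕ) (e : Fin k ↪o Fin n) : Prop where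
  blk : ∀ i j, κ (e i) = κ (e j)
  conv : ∀ i j m, e i < m → m < e j → κ m = κ (e i) → ∃ t, e t = m

/-- The Kazhdan-Lusztig family of `x`. -/
structure KLF (κ : Fin n → ℕ) (x : Pm n) (P : Pm n → Polynomial ℕ) : Prop where
  sd : SD κ (len κ x) (fun y => (P y).map (Nat.castRingHom ℤ))
  one : P x = 1
  deg : ∀ y, y ≠ x → P y ≠ 0 → len κ y + 2 * (P y).natDegree + 1 ≤ len κ x
  supp : ∀ y, y ∉ Le (Up κ) x → P y = 0

/-- Values at one decrease along the Bruhat order. -/
def MonoF (κ : Fin n → ℕ) (P : Pm n → Polynomial ℕ) : Prop :=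
  ∀ y z, Up κ y z → (P z).eval 1 ≤ (P y).eval 1

/-- Push forward of a function on `Pm k`. -/
noncomputable def push {R : Type*} [Semiring R] (e : Fin k ↪o Fin n) (f : Pm k → R) : Pm n → R :=
  fun z => ∑ y : Pm k, if vx e y = z then f y else 0

/-- External product of two functions. -/
noncomputable def bx {R : Type*} [Semiring R] (e₁ : Fin k ↪o Fin n) (e₂ : Fin l ↪o Fin n)
    (f : Pm k → R) (g : Pm l → R) : Pm n → R :=
  fun z => ∑ p : Pm k × Pm l, if vx e₁ p.1 * vx e₂ p.2 = z then f p.1 * g p.2 else 0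

/-- Permutations fixing all `i ≥ a`. -/
def GA (n a : ℕ) : Finset (Pm n) := by
  classical exact univ.filter (fun y => ∀ i : Fin n, a ≤ (i : ℕ) → y i = i)

/-- Permutations fixing all `i < b`. -/
def GB (n b : ℕ) : Finset (Pm n) := by
  classical exact univ.filter (fun y => ∀ i : Fin n, (i : ℕ) < b → y i = i)

/-- Permutations fixing all `i < b` and all `i ≥ a`. -/
def GJ (n a b : ℕ) : Finset (Pm n) := by
  classical exact univ.filter (fun y => ∀ i : Fin n, ((i : ℕ) < b ∨ a ≤ (i : ℕ)) → y i = i)

/-- The elements of `GA n a` whose inverse is increasing on `[b, a)`. -/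
def MA (n a b : ℕ) : Finset (Pm n) := by
  classical exact (GA n a).filter (fun y => ∀ i j : Fin n, b ≤ (i : ℕ) → i < j → (j : ℕ) < a →
    y⁻¹ i < y⁻¹ j)

end KLFin
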