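import Mathlib
import Pool.Agent.KLFin.BBar

/-!
# Part B of MP_d9d356_co: Kazhdan-Lusztig elements, uniqueness, descents
-/

set_option linter.unusedSectionVars false

open LaurentPolynomial

namespace KLFin

variable {G : Type} [Group G] [Fintype G] [DecidableEq G] (D : HDatum G)

/-- coefficient with respect to the normalised basis `v^{-ℓ(y)} T_y` -/
noncomputable def nc (x : Hk D) (y : G) : Av := T (D.ℓ y : ℤ) * ev D x y

theorem nc_add (x x' : Hk D) (y : G) : nc D (x + x') y = nc D x y + nc D x' y := by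
  simp only [nc, map_add, Pi.add_apply, mul_add]

theorem nc_sub (x x' : Hk D) (y : G) : nc D (x - x') y = nc D x y - nc D x' y := by
  have h : (x - x') + x' = x := sub_add_cancel x x'
  rw [eq_sub_iff_add_eq, ← nc_add, h]

theorem nc_smul (a : Av) (x : Hk D) (y : G) : nc D (a • x) y = a * nc D x y := by
  simp only [nc, map_smul, Pi.smul_apply, smul_eq_mul]
  ring

theorem nc_sum {ι : Type*} (s : Finset ι) (f : ι → Hk D) (y : G) :
    nc D (∑ i ∈ s, f i) y = ∑ i ∈ s, nc D (f i) y := by
  simp only [nc, map_sum, Finset.sum_apply, Finset.mul_sum]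

theorem ev_eq_nc (x : Hk D) (y : G) : ev D x y = T (-(D.ℓ y : ℤ)) * nc D x y := by
  rw [nc, ← mul_assoc, ← T_add, neg_add_cancel, T_zero, one_mul]

/-- the element `C'_s = v⁻¹ (1 + T_s)` -/
noncomputable def Cs (s : G) : Hk D := (T (-1) : Av) • (1 + Tb D s)

theorem bar_Cs {s : G} (hs : s ∈ D.S) : bar D (Cs D s) = Cs D s := by
  unfold Cs
  rw [bar_smul, map_add, map_one, bar_Ts D hs, invert_T, TsI]
  have h1 : (1 : Hk D) + ((T (-2) : Av) • Tb D s + (T (-2) - 1 : Av) • (1 : Hk D)) =
      (T (-2) : Av) • (1 + Tb D s) := by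
    have h2 : (T (-2) - 1 : Av) • (1 : Hk D) + 1 = (T (-2) : Av) • (1 : Hk D) := by
      have h3 : (T (-2) - 1 : Av) • (1 : Hk D) + (1 : Av) • 1 = (T (-2) : Av) • (1 : Hk D) := by
        rw [← add_smul, sub_add_cancel]
      rwa [one_smul] at h3
    rw [smul_add, ← h2]
    abel
  rw [h1, smul_smul, ← T_add]
  norm_num

theorem nc_mul_Cs_up {s : G} (hs : s ∈ D.S) (x : Hk D) {y : G} (h : D.ℓ y < D.ℓ (y * s)) :
    nc D (x * Cs D s) y = nc D x (y * s) + T (-1) * nc D x y := by
  have h1 := D.len_step s hs y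
  have h2 : (D.ℓ (y * s) : ℤ) = D.ℓ y + 1 := by omega
  unfold Cs nc
  rw [mul_smul_comm, map_smul, Pi.smul_apply, mul_add, mul_one, map_add, Pi.add_apply,
    ev_mul_Ts D hs, Rop_apply, if_pos h, smul_eq_mul, h2, T_add]
  have h3 : (T (-1) : Av) * T 2 = T 1 := by rw [← T_add]; norm_num
  linear_combination (T (D.ℓ y : ℤ) * ev D x (y * s)) * h3

theorem nc_mul_Cs_dn {s : G} (hs : s ∈ D.S) (x : Hk D) {y : G} (h : D.ℓ (y * s) < D.ℓ y) :
    nc D (x * Cs D s) y = nc D x (y * s) + T 1 * nc D x y := by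
  have h1 := D.len_step s hs y
  have h2 : (D.ℓ y : ℤ) = D.ℓ (y * s) + 1 := by omega
  unfold Cs nc
  rw [mul_smul_comm, map_smul, Pi.smul_apply, mul_add, mul_one, map_add, Pi.add_apply,
    ev_mul_Ts D hs, Rop_apply, if_neg (by omega), smul_eq_mul, h2, T_add]
  have h3 : (T (-1) : Av) * T 2 = T 1 := by rw [← T_add]; norm_num
  have h4 : (T (-1) : Av) * T 1 = 1 := by rw [← T_add]; norm_num
  linear_combination (T (D.ℓ (y * s) : ℤ) * T 1 * ev D x y) * h3 +
    (T (D.ℓ (y * s) : ℤ) * ev D x (y * s)) * h4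

/-! ### Kazhdan-Lusztig elements -/

/-- `c` is the Kazhdan-Lusztig element `C'_x` -/
structure KLe (x : G) (c : Hk D) : Prop where
  bar : bar D c = c
  one : nc D c x = 1
  neg : ∀ y, y ≠ x → NegA (nc D c y)
  supp : ∀ y, y ≠ x → D.ℓ x ≤ D.ℓ y → nc D c y = 0

theorem coeff_T_mul (m n : ℤ) (a : Av) : (T m * a : Av).coeff n = a.coeff (n - m) := by
  rw [T, AddMonoidAlgebra.coeff_single_mul_apply, one_mul]
  congr 1
  omega

theorem NegA.mul_neg_T {a : Av} (ha : NegA a) : NegA (T (-1) * a) := fun n hn => by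
  rw [coeff_T_mul]
  exact ha _ (by omega)

theorem NegA.T_neg {m : ℤ} (hm : m < 0) : NegA (T m) := fun n hn => by
  rw [T_apply, if_neg (by omega)]

theorem NegA.intCast_mul {a : Av} (ha : NegA a) (c : ℤ) : NegA (c • a) := fun n hn => by
  rw [AddMonoidAlgebra.coeff_smul, Finsupp.smul_apply, ha n hn, smul_zero]

theorem NegA.sum {ι : Type*} {s : Finset ι} {f : ι → Av} (h : ∀ i ∈ s, NegA (f i)) :
    NegA (∑ i ∈ s, f i) := by
  classical
  induction s using Finset.induction_on with
  | empty => rw [Finset.sum_empty]; exact NegA.zero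
  | insert a s ha ih =>
    rw [Finset.sum_insert ha]
    exact (h a (Finset.mem_insert_self _ _)).add
      (ih fun i hi => h i (Finset.mem_insert_of_mem hi))

theorem bar_unique' (c c' : Hk D) (hb : bar D c = c) (hb' : bar D c' = c')
    (hn : ∀ y, NegA (nc D c y - nc D c' y)) : c = c' := by
  rw [← sub_eq_zero]
  apply bar_unique D
  · rw [map_sub, hb, hb']
  · intro y
    have := hn y
    rw [← nc_sub] at this
    exact this

theorem KLe.unique {x : G} {c c' : Hk D} (h : KLe D x c) (h' : KLe D x c') : c = c' := by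
  refine bar_unique' D c c' h.bar h'.bar fun y => ?_
  by_cases hy : y = x
  · rw [hy, h.one, h'.one, sub_self]; exact NegA.zero
  · exact (h.neg y hy).sub (h'.neg y hy)

theorem nc_tau (x : Hk D) (y : G) : nc D (tau D x) y = nc D x y⁻¹ := by
  rw [nc, nc, ev_tau, D.len_inv]

theorem KLe.tau {x : G} {c : Hk D} (h : KLe D x c) : KLe D x⁻¹ (tau D c) where
  bar := by rw [← tau_bar, h.bar]
  one := by rw [nc_tau, inv_inv, h.one]
  neg y hy := by
    rw [nc_tau]
    exact h.neg _ (fun h' => hy (by rw [← h', inv_inv]))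
  supp y hy hl := by
    rw [nc_tau]
    refine h.supp _ (fun h' => hy (by rw [← h', inv_inv])) ?_
    rw [D.len_inv] at hl
    rw [D.len_inv]
    exact hl

/-- a family of Kazhdan-Lusztig elements -/
def KLFam (C : G → Hk D) : Prop := ∀ x, KLe D x (C x)

/-- the number `μ(z, x)`: the coefficient of `v⁻¹` -/
noncomputable def muC (c : Hk D) (z : G) : ℤ := (nc D c z).coeff (-1)

theorem T_one_mul_sub_mu {c : Hk D} {y : G} (h : NegA (nc D c y)) :
    NegA (T 1 * nc D c y - (muC D c y) • (1 : Av)) := fun n hn => by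
  rw [AddMonoidAlgebra.coeff_sub, Finsupp.sub_apply, coeff_T_mul]
  rcases hn.eq_or_lt with h0 | h0
  · rw [← h0, AddMonoidAlgebra.coeff_smul, Finsupp.smul_apply, muC, ← T_zero, T_apply, if_pos rfl]
    simp
  · rw [h (n - 1) (by omega), AddMonoidAlgebra.coeff_smul, Finsupp.smul_apply, ← T_zero, T_apply,
      if_neg (by omega)]
    simp

/-- the multiplication formula `C'_x C'_s = C'_{xs} + ∑_{zs<z} μ(z,x) C'_z` for `xs > x` -/
theorem mul_Cs_formula {C : G → Hk D} (hC : KLFam D C) {s : G} (hs : s ∈ D.S) {x : G}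
    (h : D.ℓ x < D.ℓ (x * s)) :
    C x * Cs D s = C (x * s) +
      ∑ z ∈ Finset.univ.filter (fun z => D.ℓ (z * s) < D.ℓ z), ((muC D (C x) z : ℤ) : Av) • C z := by
  classical
  set F := Finset.univ.filter (fun z => D.ℓ (z * s) < D.ℓ z) with hF
  have hxs := D.len_step s hs x
  apply bar_unique' D
  · rw [map_mul, (hC x).bar, bar_Cs D hs]
  · rw [map_add, (hC _).bar, map_sum]
    congr 1
    refine Finset.sum_congr rfl fun z _ => ?_
    rw [bar_smul, (hC z).bar, map_intCast]
  · intro y
    have hys := D.len_step s hs y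
    have hsum : nc D (∑ z ∈ F, ((muC D (C x) z : ℤ) : Av) • C z) y =
        ∑ z ∈ F, (muC D (C x) z) • nc D (C z) y := by
      rw [nc_sum]
      refine Finset.sum_congr rfl fun z _ => ?_
      rw [nc_smul, zsmul_eq_mul]
    have hmu0 : ∀ z, D.ℓ x ≤ D.ℓ z → z ≠ x → muC D (C x) z = 0 := by
      intro z hz hne
      rw [muC, (hC x).supp z hne hz]
      simp
    rw [nc_add, hsum]
    rcases lt_or_gt_of_ne (show D.ℓ y ≠ D.ℓ (y * s) by omega) with hy | hy
    · -- `y < y s`
      have hne : y ≠ x * s := by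
        rintro rfl
        rw [D.mul_cancel_self hs] at hy
        omega
      have hne2 : y * s ≠ x := by
        intro h'
        apply hne
        rw [← h', D.mul_cancel_self hs]
      rw [nc_mul_Cs_up D hs _ hy]
      have h1 : NegA (T (-1) * nc D (C x) y) := by
        by_cases hyx : y = x
        · rw [hyx, (hC x).one, mul_one]
          exact NegA.T_neg (by norm_num)
        · exact ((hC x).neg y hyx).mul_neg_T
      refine (((hC x).neg _ hne2).add h1).sub (((hC _).neg y hne).add (NegA.sum fun z hz => ?_))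
      rw [hF, Finset.mem_filter] at hz
      have hzy : y ≠ z := by
        rintro rfl
        exact absurd hy (by omega)
      exact ((hC z).neg y hzy).intCast_mul _
    · -- `y s < y`
      have hyx : y ≠ x := by
        rintro rfl
        omega
      rw [nc_mul_Cs_dn D hs _ hy]
      have hyF : y ∈ F := by
        rw [hF, Finset.mem_filter]
        exact ⟨Finset.mem_univ _, hy⟩
      rw [← Finset.add_sum_erase _ _ hyF, (hC y).one]
      have h2 : NegA (∑ z ∈ F.erase y, (muC D (C x) z) • nc D (C z) y) := NegA.sum fun z hz =>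
        ((hC z).neg y (Finset.ne_of_mem_erase hz).symm).intCast_mul _
      have h3 := T_one_mul_sub_mu D ((hC x).neg y hyx)
      by_cases hyxs : y = x * s
      · have h4 : y * s = x := by rw [hyxs, D.mul_cancel_self hs]
        rw [h4, (hC x).one, hyxs, (hC _).one, ← hyxs]
        have h5 : (1 : Av) + T 1 * nc D (C x) y - (1 + (muC D (C x) y • (1 : Av) +
            ∑ z ∈ F.erase y, (muC D (C x) z) • nc D (C z) y)) =
            (T 1 * nc D (C x) y - (muC D (C x) y) • (1 : Av)) -
              ∑ z ∈ F.erase y, (muC D (C x) z) • nc D (C z) y := by ring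
        rw [h5]
        exact h3.sub h2
      · have h4 : y * s ≠ x := by
          intro h'
          apply hyxs
          rw [← h', D.mul_cancel_self hs]
        have h5 : nc D (C x) (y * s) + T 1 * nc D (C x) y - (nc D (C (x * s)) y +
            (muC D (C x) y • (1 : Av) +
            ∑ z ∈ F.erase y, (muC D (C x) z) • nc D (C z) y)) =
            nc D (C x) (y * s) + (T 1 * nc D (C x) y - (muC D (C x) y) • (1 : Av)) -
              nc D (C (x * s)) y -
              ∑ z ∈ F.erase y, (muC D (C x) z) • nc D (C z) y := by ring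
        rw [h5]
        exact ((((hC x).neg _ h4).add h3).sub ((hC _).neg y hyxs)).sub h2

theorem Cs_mul_Ts {s : G} (hs : s ∈ D.S) : Cs D s * Tb D s = (T 2 : Av) • Cs D s := by
  unfold Cs
  rw [smul_mul_assoc, add_mul, one_mul, Ts_sq D hs, smul_comm (T 2 : Av)]
  congr 1
  have h1 : Tb D s + ((T 2 - 1 : Av) • Tb D s + (T 2 : Av) • (1 : Hk D)) =
      ((1 : Av) • Tb D s + (T 2 - 1 : Av) • Tb D s) + (T 2 : Av) • (1 : Hk D) := by
    rw [one_smul, add_assoc]
  rw [h1, ← add_smul, smul_add, add_comm]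
  congr 2
  ring

/-- right descents: `C'_x T_s = q C'_x` if `xs < x` -/
theorem descent_right {C : G → Hk D} (hC : KLFam D C) {s : G} (hs : s ∈ D.S) {x : G}
    (h : D.ℓ (x * s) < D.ℓ x) : C x * Tb D s = (T 2 : Av) • C x := by
  have key : ∀ (k : ℕ) (x : G), D.ℓ x = k → D.ℓ (x * s) < D.ℓ x →
      C x * Tb D s = (T 2 : Av) • C x := by
    intro k
    induction k using Nat.strong_induction_on with
    | _ k ih =>
      intro x hx h
      have h1 := mul_Cs_formula D hC hs (x := x * s) (by rwa [D.mul_cancel_self hs])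
      rw [D.mul_cancel_self hs] at h1
      have hxs := D.len_step s hs x
      have h2 : ∀ z ∈ Finset.univ.filter (fun z => D.ℓ (z * s) < D.ℓ z),
          (((muC D (C (x * s)) z : ℤ) : Av) • C z) * Tb D s =
            (T 2 : Av) • (((muC D (C (x * s)) z : ℤ) : Av) • C z) := by
        intro z hz
        rw [Finset.mem_filter] at hz
        by_cases h0 : muC D (C (x * s)) z = 0
        · rw [h0, Int.cast_zero, zero_smul, zero_mul, smul_zero]
        · have hz2 : D.ℓ z < D.ℓ (x * s) ∨ z = x * s := by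
            by_contra hcon
            push Not at hcon
            apply h0
            rw [muC, (hC _).supp z hcon.2 hcon.1]
            simp
          have hlt : D.ℓ z < k := by
            rcases hz2 with h3 | h3
            · omega
            · rw [h3]; omega
          rw [smul_mul_assoc, ih _ hlt z rfl hz.2, smul_comm]
      have h3 : (C (x * s) * Cs D s) * Tb D s = (T 2 : Av) • (C (x * s) * Cs D s) := by
        rw [mul_assoc, Cs_mul_Ts D hs, mul_smul_comm]
      rw [h1, add_mul, Finset.sum_mul, smul_add, Finset.smul_sum, Finset.sum_congr rfl h2] at h3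
      exact add_right_cancel h3
  exact key _ x rfl h

/-- left descents -/
theorem descent_left {C : G → Hk D} (hC : KLFam D C) {s : G} (hs : s ∈ D.S) {x : G}
    (h : D.ℓ (s * x) < D.ℓ x) : Tb D s * C x = (T 2 : Av) • C x := by
  have hC' : KLFam D (fun y => tau D (C y⁻¹)) := fun y => by
    have := (hC y⁻¹).tau
    rwa [inv_inv] at this
  have h1 : D.ℓ (x⁻¹ * s) < D.ℓ x⁻¹ := by
    rw [D.len_inv, ← D.len_inv (x⁻¹ * s), mul_inv_rev, inv_inv, D.inv_eq hs]
    exact h
  have h2 := descent_right D hC' hs h1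
  simp only [inv_inv] at h2
  have h3 := congrArg (tau D) h2
  rw [tau_mul, tau_tau, tau_Tb, D.inv_eq hs, map_smul, tau_tau] at h3
  exact h3

/-- coefficients and right descents -/
theorem ev_descent_right {C : G → Hk D} (hC : KLFam D C) {s : G} (hs : s ∈ D.S) {x : G}
    (h : D.ℓ (x * s) < D.ℓ x) (y : G) : ev D (C x) (y * s) = ev D (C x) y := by
  have key : ∀ y, D.ℓ y < D.ℓ (y * s) → ev D (C x) (y * s) = ev D (C x) y := by
    intro y hy
    have h1 := congrArg (fun c => ev D c y) (descent_right D hC hs h)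
    simp only [ev_mul_Ts D hs, Rop_apply, if_pos hy, map_smul, Pi.smul_apply, smul_eq_mul] at h1
    have h2 := congrArg (fun a : Av => T (-2) * a) h1
    simp only [← mul_assoc, T2_mul, one_mul] at h2
    exact h2
  rcases D.len_step s hs y with h1 | h1
  · exact key y (by omega)
  · have h2 := key (y * s) (by rw [D.mul_cancel_self hs]; omega)
    rw [D.mul_cancel_self hs] at h2
    exact h2.symm

theorem KLFam.tau {C : G → Hk D} (hC : KLFam D C) (x : G) : tau D (C x) = C x⁻¹ :=
  (hC x).tau.unique D (hC x⁻¹)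

theorem ev_KLFam_inv {C : G → Hk D} (hC : KLFam D C) (x y : G) :
    ev D (C x⁻¹) y⁻¹ = ev D (C x) y := by
  rw [← hC.tau, ev_tau, inv_inv]

theorem ev_descent_left {C : G → Hk D} (hC : KLFam D C) {s : G} (hs : s ∈ D.S) {x : G}
    (h : D.ℓ (s * x) < D.ℓ x) (y : G) : ev D (C x) (s * y) = ev D (C x) y := by
  have h1 : D.ℓ (x⁻¹ * s) < D.ℓ x⁻¹ := by
    rw [D.len_inv, ← D.len_inv (x⁻¹ * s), mul_inv_rev, inv_inv, D.inv_eq hs]
    exact h
  have h2 := ev_descent_right D hC hs h1 y⁻¹
  rw [← ev_KLFam_inv D hC x (s * y), ← ev_KLFam_inv D hC x y, mul_inv_rev, D.inv_eq hs]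
  exact h2

end KLFin
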