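import Mathlib
import Pool.Agent.KLFin.BKL

/-!
# Part B of MP_d9d356_co: descents of a single Kazhdan-Lusztig element
-/

set_option linter.unusedSectionVars false

open LaurentPolynomial

namespace KLFin

variable {G : Type} [Group G] [Fintype G] [DecidableEq G] (D : HDatum G)

/-- the coefficient of maximal length of a bar invariant element is bar invariant -/
theorem bar_max (x : Hk D) (hb : bar D x = x) (y : G)
    (hmax : ∀ w, nc D x w ≠ 0 → D.ℓ w ≤ D.ℓ y) : invert (nc D x y) = nc D x y := by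
  have hmax' : ∀ w, ev D x w ≠ 0 → D.ℓ w ≤ D.ℓ y := by
    intro w hw
    apply hmax w
    intro h0
    apply hw
    rw [ev_eq_nc, h0, mul_zero]
  have h2 : ev D (bar D x) y = invert (ev D x y) * T (-2 * (D.ℓ y : ℤ)) := by
    conv_lhs => rw [hk_eq_sum D x]
    rw [map_sum, map_sum, Finset.sum_apply, Finset.sum_eq_single y]
    · rw [bar_smul, map_smul, Pi.smul_apply, (bar_Tb_coeff D y).1, smul_eq_mul]
    · intro w _ hw
      rw [bar_smul, map_smul, Pi.smul_apply, smul_eq_mul]
      by_cases h3 : ev D x w = 0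
      · rw [h3, map_zero, zero_mul]
      · by_cases h4 : ev D (bar D (Tb D w)) y = 0
        · rw [h4, mul_zero]
        · exfalso
          rcases (bar_Tb_coeff D w).2 y h4 with h5 | h5
          · exact hw h5.symm
          · exact absurd (hmax' w h3) (by omega)
    · simp
  rw [hb] at h2
  unfold nc
  rw [map_mul, invert_T]
  conv_rhs => rw [h2]
  have h4 : (T (D.ℓ y : ℤ) : Av) * (invert (ev D x y) * T (-2 * (D.ℓ y : ℤ))) =
      (T (D.ℓ y : ℤ) * T (-2 * (D.ℓ y : ℤ))) * invert (ev D x y) := by ring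
  rw [h4, ← T_add]
  congr 2
  ring

theorem Cs_add {s : G} : Cs D s + (- T 1 - T (-1) : Av) • (1 : Hk D) =
    (T (-1) : Av) • (Tb D s) + (- T 1 : Av) • 1 := by
  unfold Cs
  rw [smul_add]
  have h1 : (T (-1) : Av) • (1 : Hk D) + (- T 1 - T (-1) : Av) • (1 : Hk D) =
      (- T 1 : Av) • (1 : Hk D) := by
    rw [← add_smul]
    congr 1
    ring
  rw [← h1]
  abel

/-- right descents of a single Kazhdan-Lusztig element -/
theorem KLe.desc_right {x : G} {c : Hk D} (hc : KLe D x c) {s : G} (hs : s ∈ D.S)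
    (h : D.ℓ (x * s) < D.ℓ x) (y : G) : ev D c (y * s) = ev D c y := by
  set Z : Hk D := c * Cs D s + (- T 1 - T (-1) : Av) • c with hZ
  have hbZ : _root_.KLFin.bar D Z = Z := by
    rw [hZ, map_add, map_mul, hc.bar, bar_Cs D hs, bar_smul, hc.bar]
    congr 2
    rw [map_sub, map_neg, invert_T, invert_T, neg_neg]
    ring
  have hup : ∀ y, D.ℓ y < D.ℓ (y * s) → nc D Z y = nc D c (y * s) - T 1 * nc D c y := by
    intro y hy
    rw [hZ, nc_add, nc_smul, nc_mul_Cs_up D hs _ hy]
    ring
  have hdn : ∀ y, D.ℓ (y * s) < D.ℓ y → nc D Z y = nc D c (y * s) - T (-1) * nc D c y := by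
    intro y hy
    rw [hZ, nc_add, nc_smul, nc_mul_Cs_dn D hs _ hy]
    ring
  have hT : (T (-1) : Av) * T 1 = 1 := by rw [← T_add]; norm_num
  have hpair : ∀ y, D.ℓ y < D.ℓ (y * s) → nc D Z (y * s) = - (T (-1) * nc D Z y) := by
    intro y hy
    rw [hup y hy, hdn (y * s) (by rwa [D.mul_cancel_self hs]), D.mul_cancel_self hs]
    linear_combination (- nc D c y) * hT
  have hZ0 : ∀ y, nc D Z y = 0 := by
    by_contra hcon
    push Not at hcon
    obtain ⟨y, hy, hmax⟩ := Finset.exists_max_image (Finset.univ.filter fun y => nc D Z y ≠ 0) D.ℓ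
      (by obtain ⟨y, hy⟩ := hcon; exact ⟨y, by simpa using hy⟩)
    simp only [Finset.mem_filter, Finset.mem_univ, true_and] at hy hmax
    rcases D.len_step s hs y with h1 | h1
    · have h2 : nc D Z (y * s) ≠ 0 := by
        rw [hpair y (by omega)]
        intro h0
        rw [neg_eq_zero] at h0
        apply hy
        have h3 : (T 1 : Av) * (T (-1) * nc D Z y) = nc D Z y := by
          rw [← mul_assoc, mul_comm (T 1 : Av), hT, one_mul]
        rw [← h3, h0, mul_zero]
      have := hmax _ h2
      omega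
    · have h2 : nc D Z y = nc D c (y * s) - T (-1) * nc D c y := hdn y (by omega)
      have hne : y * s ≠ x := by
        rintro h'
        rw [← h', D.mul_cancel_self hs] at h
        omega
      have h3 : NegA (T (-1) * nc D c y) := by
        by_cases hyx : y = x
        · rw [hyx, hc.one, mul_one]
          exact NegA.T_neg (by norm_num)
        · exact (hc.neg y hyx).mul_neg_T
      have h4 : NegA (nc D Z y) := by
        rw [h2]
        exact (hc.neg _ hne).sub h3
      exact hy (h4.eq_zero (bar_max D Z hbZ y hmax))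
  have key : ∀ y, D.ℓ y < D.ℓ (y * s) → ev D c (y * s) = ev D c y := by
    intro y hy
    have h1 := hZ0 y
    rw [hup y hy] at h1
    have h2 : (D.ℓ (y * s) : ℤ) = D.ℓ y + 1 := by
      have := D.len_step s hs y
      omega
    rw [ev_eq_nc D c (y * s), ev_eq_nc D c y, sub_eq_zero.mp h1, h2, ← mul_assoc, ← T_add]
    congr 2
    ring
  rcases D.len_step s hs y with h1 | h1
  · exact key y (by omega)
  · have h2 := key (y * s) (by rw [D.mul_cancel_self hs]; omega)
    rw [D.mul_cancel_self hs] at h2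
    exact h2.symm

/-- left descents of a single Kazhdan-Lusztig element -/
theorem KLe.desc_left {x : G} {c : Hk D} (hc : KLe D x c) {s : G} (hs : s ∈ D.S)
    (h : D.ℓ (s * x) < D.ℓ x) (y : G) : ev D c (s * y) = ev D c y := by
  have h1 : D.ℓ (x⁻¹ * s) < D.ℓ x⁻¹ := by
    rw [D.len_inv, ← D.len_inv (x⁻¹ * s), mul_inv_rev, inv_inv, D.inv_eq hs]
    exact h
  have h2 := KLe.desc_right D hc.tau hs h1 y⁻¹
  rw [ev_tau, ev_tau, inv_inv, mul_inv_rev, inv_inv, D.inv_eq hs] at h2
  exact h2

end KLFin
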