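import Mathlib
import Pool.Agent.KLFin.CDefs

/-!
# Part C, block CB1: the Bruhat relation (MP_d9d356_co)
-/

namespace KLFin

variable {n : ℕ} {κ : Fin n → ℕ}

theorem CB1.apply_inv' (y : Pm n) (c : Fin n) : y (y⁻¹ c) = c := y.apply_symm_apply c

theorem CB1.inv_apply' (y : Pm n) (c : Fin n) : y⁻¹ (y c) = c := y.symm_apply_apply c

theorem InW_one : InW κ 1 := fun _ => rfl

theorem InW.mul {y z : Pm n} (hy : InW κ y) (hz : InW κ z) : InW κ (y * z) := by
  intro i
  rw [Equiv.Perm.mul_apply, hy, hz]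

theorem InW.inv {y : Pm n} (hy : InW κ y) : InW κ y⁻¹ := by
  intro i
  have h := hy (y⁻¹ i)
  rw [CB1.apply_inv'] at h
  exact h.symm

theorem InW_swap {a b : Fin n} (h : κ a = κ b) : InW κ (Equiv.swap a b) := by
  intro i
  by_cases h1 : i = a
  · subst h1; rw [Equiv.swap_apply_left]; exact h.symm
  · by_cases h2 : i = b
    · subst h2; rw [Equiv.swap_apply_right]; exact h
    · rw [Equiv.swap_apply_of_ne_of_ne h1 h2]

theorem Smp.inW {s : Fin n × Fin n} (hs : Smp κ s) : InW κ (sw s) := InW_swap hs.2.1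

theorem sw_mul_sw (s : Fin n × Fin n) : sw s * sw s = 1 := Equiv.swap_mul_self _ _

theorem CB1.sw_sw_apply (s : Fin n × Fin n) (i : Fin n) : sw s (sw s i) = i :=
  Equiv.swap_apply_self _ _ _

theorem CB1.sw_inv (s : Fin n × Fin n) : (sw s)⁻¹ = sw s := Equiv.swap_inv _ _

theorem CB1.inv_swap_mul_apply (y : Pm n) (a b c : Fin n) :
    (Equiv.swap a b * y)⁻¹ c = y⁻¹ (Equiv.swap a b c) := by
  rw [mul_inv_rev, Equiv.swap_inv, Equiv.Perm.mul_apply]

theorem up_or_dn (y : Pm n) {a b : Fin n} (hab : a < b) (hk : κ a = κ b) :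
    Up κ y (Equiv.swap a b * y) ∨ Up κ (Equiv.swap a b * y) y := by
  rcases lt_trichotomy (y⁻¹ a) (y⁻¹ b) with h | h | h
  · exact Or.inl ⟨a, b, hab, hk, h, rfl⟩
  · exact absurd ((y⁻¹).injective h) hab.ne
  · right
    refine ⟨a, b, hab, hk, ?_, ?_⟩
    · rw [CB1.inv_swap_mul_apply, CB1.inv_swap_mul_apply, Equiv.swap_apply_left,
        Equiv.swap_apply_right]
      exact h
    · rw [← mul_assoc, Equiv.swap_mul_self, one_mul]

theorem Up.inW {y z : Pm n} (h : Up κ y z) (hy : InW κ y) : InW κ z := by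
  obtain ⟨a, b, _, hk, _, rfl⟩ := h
  exact (InW_swap hk).mul hy

theorem Up.inW' {y z : Pm n} (h : Up κ y z) (hz : InW κ z) : InW κ y := by
  obtain ⟨a, b, _, hk, _, rfl⟩ := h
  have := (InW_swap hk).mul hz
  rwa [← mul_assoc, Equiv.swap_mul_self, one_mul] at this

theorem Up.ne {y z : Pm n} (h : Up κ y z) : y ≠ z := by
  obtain ⟨a, b, hab, _, _, rfl⟩ := h
  intro h
  have h1 : Equiv.swap a b = 1 := by
    have : (1 : Pm n) * y = Equiv.swap a b * y := by rw [one_mul]; exact h
    exact (mul_right_cancel this).symm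
  rw [Equiv.swap_eq_one_iff] at h1
  exact hab.ne h1

theorem CB1.mem_inv {y : Pm n} {p : Fin n × Fin n} :
    p ∈ Finset.univ.filter (fun p : Fin n × Fin n =>
      p.1 < p.2 ∧ κ p.1 = κ p.2 ∧ y⁻¹ p.2 < y⁻¹ p.1) ↔
    p.1 < p.2 ∧ κ p.1 = κ p.2 ∧ y⁻¹ p.2 < y⁻¹ p.1 := by
  rw [Finset.mem_filter]
  exact ⟨fun h => h.2, fun h => ⟨Finset.mem_univ _, h⟩⟩

theorem Up.len_lt {y z : Pm n} (h : Up κ y z) : len κ y < len κ z := by
  classical
  obtain ⟨a, b, hab, hk, hy, rfl⟩ := h
  set t := Equiv.swap a b with ht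
  have hta : t a = b := Equiv.swap_apply_left _ _
  have htb : t b = a := Equiv.swap_apply_right _ _
  have hto : ∀ c, c ≠ a → c ≠ b → t c = c := fun c h1 h2 => Equiv.swap_apply_of_ne_of_ne h1 h2
  have htt : ∀ c, t (t c) = c := Equiv.swap_apply_self _ _
  have htk : ∀ c, κ (t c) = κ c := InW_swap hk
  have hzi : ∀ c, (t * y)⁻¹ c = y⁻¹ (t c) := CB1.inv_swap_mul_apply y a b
  set φ : Fin n × Fin n → Fin n × Fin n := fun p =>
    if t p.1 < t p.2 then (t p.1, t p.2) else p with hφ
  set A := Finset.univ.filter (fun p : Fin n × Fin n =>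
      p.1 < p.2 ∧ κ p.1 = κ p.2 ∧ y⁻¹ p.2 < y⁻¹ p.1) with hA
  set B := Finset.univ.filter (fun p : Fin n × Fin n =>
      p.1 < p.2 ∧ κ p.1 = κ p.2 ∧ (t * y)⁻¹ p.2 < (t * y)⁻¹ p.1) with hB
  have hmaps : ∀ p ∈ A, φ p ∈ B ∧ φ p ≠ (a, b) := by
    rintro ⟨p, q⟩ hp
    rw [hA, CB1.mem_inv] at hp
    obtain ⟨hpq, hkpq, hinv⟩ := hp
    simp only at hpq hkpq hinv
    by_cases hlt : t p < t q
    · have e : φ (p, q) = (t p, t q) := by simp only [hφ]; rw [if_pos hlt]
      rw [e]
      constructor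
      · rw [hB, CB1.mem_inv]
        simp only
        rw [hzi, hzi, htt, htt, htk, htk]
        exact ⟨hlt, hkpq, hinv⟩
      · intro h
        simp only [Prod.mk.injEq] at h
        have e1 : p = b := by rw [← htt p, h.1, hta]
        have e2 : q = a := by rw [← htt q, h.2, htb]
        rw [e1, e2] at hpq
        exact absurd hpq (not_lt.2 hab.le)
    · have e : φ (p, q) = (p, q) := by simp only [hφ]; rw [if_neg hlt]
      rw [e]
      have hne : (p, q) ≠ (a, b) := by
        intro h
        simp only [Prod.mk.injEq] at h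
        rw [h.1, h.2] at hinv
        exact absurd hinv (not_lt.2 hy.le)
      refine ⟨?_, hne⟩
      rw [hB, CB1.mem_inv]
      simp only
      rw [hzi, hzi]
      refine ⟨hpq, hkpq, ?_⟩
      by_cases hpa : p = a
      · by_cases hqb : q = b
        · exact absurd (by rw [hpa, hqb]) hne
        · have hqa : q ≠ a := by rw [← hpa]; exact hpq.ne'
          rw [hpa, hta, hto q hqa hqb]
          rw [hpa] at hinv
          exact hinv.trans hy
      · by_cases hpb : p = b
        · exfalso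
          apply hlt
          have hqa : q ≠ a := by
            intro h; rw [hpb, h] at hpq; exact absurd hpq (not_lt.2 hab.le)
          have hqb : q ≠ b := by rw [← hpb]; exact hpq.ne'
          rw [hpb, htb, hto q hqa hqb]
          exact hab.trans (hpb ▸ hpq)
        · rw [hto p hpa hpb] at hlt ⊢
          by_cases hqb : q = b
          · rw [hqb, htb]
            rw [hqb] at hinv
            exact hy.trans hinv
          · by_cases hqa : q = a
            · exfalso
              apply hlt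
              rw [hqa, hta]
              rw [hqa] at hpq
              exact hpq.trans hab
            · rw [hto q hqa hqb]
              exact hinv
  have hinj : Set.InjOn φ A := by
    rintro ⟨p, q⟩ hp ⟨p', q'⟩ hp' he
    rw [Finset.mem_coe, hA, CB1.mem_inv] at hp hp'
    simp only at hp hp'
    by_cases h1 : t p < t q <;> by_cases h2 : t p' < t q'
    · have e1 : φ (p, q) = (t p, t q) := by simp only [hφ]; rw [if_pos h1]
      have e2 : φ (p', q') = (t p', t q') := by simp only [hφ]; rw [if_pos h2]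
      rw [e1, e2, Prod.mk.injEq] at he
      rw [Prod.mk.injEq]
      exact ⟨t.injective he.1, t.injective he.2⟩
    · have e1 : φ (p, q) = (t p, t q) := by simp only [hφ]; rw [if_pos h1]
      have e2 : φ (p', q') = (p', q') := by simp only [hφ]; rw [if_neg h2]
      rw [e1, e2, Prod.mk.injEq] at he
      exfalso
      apply h2
      rw [← he.1, ← he.2, htt, htt]
      exact hp.1
    · have e1 : φ (p, q) = (p, q) := by simp only [hφ]; rw [if_neg h1]
      have e2 : φ (p', q') = (t p', t q') := by simp only [hφ]; rw [if_pos h2]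
      rw [e1, e2, Prod.mk.injEq] at he
      exfalso
      apply h1
      rw [he.1, he.2, htt, htt]
      exact hp'.1
    · have e1 : φ (p, q) = (p, q) := by simp only [hφ]; rw [if_neg h1]
      have e2 : φ (p', q') = (p', q') := by simp only [hφ]; rw [if_neg h2]
      rw [e1, e2] at he
      exact he
  have hab' : (a, b) ∈ B := by
    rw [hB, CB1.mem_inv]
    simp only
    rw [hzi, hzi, hta, htb]
    exact ⟨hab, hk, hy⟩
  have hcard : A.card ≤ (B.erase (a, b)).card := by
    apply Finset.card_le_card_of_injOn φ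
    · intro p hp
      rw [Finset.mem_coe, Finset.mem_erase]
      exact ⟨(hmaps p hp).2, (hmaps p hp).1⟩
    · exact hinj
  have h2 := Finset.card_erase_lt_of_mem hab'
  exact lt_of_le_of_lt hcard h2

/-- `y (i j) = (y i  y j) y`. -/
theorem CB1.mul_sw (y : Pm n) (s : Fin n × Fin n) :
    y * sw s = Equiv.swap (y s.1) (y s.2) * y := by
  rw [sw, Equiv.mul_swap_eq_swap_mul]

theorem up_sw_iff {y : Pm n} (hy : InW κ y) {s : Fin n × Fin n} (hs : Smp κ s) :
    Up κ y (y * sw s) ↔ y s.1 < y s.2 := by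
  constructor
  · rintro ⟨a, b, hab, hk, hlt, he⟩
    rw [CB1.mul_sw] at he
    have h1 := mul_right_cancel he
    have hne : y s.1 ≠ y s.2 := fun h => hs.1.ne (y.injective h)
    have h2 : Equiv.swap (y s.1) (y s.2) a = b := by
      rw [h1, Equiv.swap_apply_left]
    by_cases ha1 : a = y s.1
    · rw [ha1, Equiv.swap_apply_left] at h2
      rw [← ha1, h2]; exact hab
    · by_cases ha2 : a = y s.2
      · rw [ha2, Equiv.swap_apply_right] at h2
        exfalso
        rw [ha2, ← h2, CB1.inv_apply', CB1.inv_apply'] at hlt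
        exact absurd hlt (not_lt.2 hs.1.le)
      · rw [Equiv.swap_apply_of_ne_of_ne ha1 ha2] at h2
        exact absurd h2 hab.ne
  · intro h
    refine ⟨y s.1, y s.2, h, ?_, ?_, CB1.mul_sw y s⟩
    · rw [hy, hy]; exact hs.2.1
    · rw [CB1.inv_apply', CB1.inv_apply']; exact hs.1

theorem CB1.mul_sw_mul_sw (y : Pm n) (s : Fin n × Fin n) : y * sw s * sw s = y := by
  rw [mul_assoc, sw_mul_sw, mul_one]

theorem dn_sw_iff {y : Pm n} (hy : InW κ y) {s : Fin n × Fin n} (hs : Smp κ s) :
    Dn κ y (y * sw s) ↔ y s.2 < y s.1 := by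
  have h := up_sw_iff (hy.mul hs.inW) hs
  rw [CB1.mul_sw_mul_sw] at h
  unfold Dn
  rw [h, Equiv.Perm.mul_apply, Equiv.Perm.mul_apply, sw, Equiv.swap_apply_left,
    Equiv.swap_apply_right]

/-- A simple reflection preserves the order in the blocks except on its pair. -/
theorem Smp.cb1_lt_iff {s : Fin n × Fin n} (hs : Smp κ s) {i j : Fin n} (hk : κ i = κ j)
    (h1 : ¬ (i = s.1 ∧ j = s.2)) (h2 : ¬ (i = s.2 ∧ j = s.1)) :
    sw s i < sw s j ↔ i < j := by
  obtain ⟨hlt, hkk, hbet⟩ := hs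
  have hl : sw s s.1 = s.2 := Equiv.swap_apply_left _ _
  have hr : sw s s.2 = s.1 := Equiv.swap_apply_right _ _
  have ho : ∀ c, c ≠ s.1 → c ≠ s.2 → sw s c = c := fun c a b =>
    Equiv.swap_apply_of_ne_of_ne a b
  have hcmp : ∀ c, κ c = κ s.1 → c ≠ s.1 → c ≠ s.2 → (c < s.1 ∨ s.2 < c) := by
    intro c hc c1 c2
    by_contra hcon
    push Not at hcon
    exact hbet c (lt_of_le_of_ne hcon.1 (Ne.symm c1)) (lt_of_le_of_ne hcon.2 c2) hc
  by_cases i1 : i = s.1
  · by_cases j1 : j = s.1
    · rw [i1, j1]; simp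
    · by_cases j2 : j = s.2
      · exact absurd ⟨i1, j2⟩ h1
      · rw [i1, hl, ho j j1 j2]
        rcases hcmp j (by rw [← hk, i1]) j1 j2 with h | h
        · exact ⟨fun h' => absurd (h.trans hlt) (not_lt.2 h'.le),
            fun h' => absurd h (not_lt.2 h'.le)⟩
        · exact ⟨fun _ => hlt.trans h, fun _ => h⟩
  · by_cases i2 : i = s.2
    · by_cases j1 : j = s.1
      · exact absurd ⟨i2, j1⟩ h2
      · by_cases j2 : j = s.2
        · rw [i2, j2]; simp
        · rw [i2, hr, ho j j1 j2]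
          rcases hcmp j (by rw [← hk, i2, hkk]) j1 j2 with h | h
          · exact ⟨fun h' => absurd h (not_lt.2 h'.le),
              fun h' => absurd (h.trans hlt) (not_lt.2 h'.le)⟩
          · exact ⟨fun _ => h, fun _ => hlt.trans h⟩
    · rw [ho i i1 i2]
      by_cases j1 : j = s.1
      · rw [j1, hl]
        rcases hcmp i (by rw [hk, j1]) i1 i2 with h | h
        · exact ⟨fun _ => h, fun _ => h.trans hlt⟩
        · exact ⟨fun h' => absurd h (not_lt.2 h'.le),
            fun h' => absurd (hlt.trans h) (not_lt.2 h'.le)⟩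
      · by_cases j2 : j = s.2
        · rw [j2, hr]
          rcases hcmp i (by rw [hk, j2, hkk]) i1 i2 with h | h
          · exact ⟨fun _ => h.trans hlt, fun _ => h⟩
          · exact ⟨fun h' => absurd (hlt.trans h) (not_lt.2 h'.le),
              fun h' => absurd h (not_lt.2 h'.le)⟩
        · rw [ho j j1 j2]

theorem CB1.inv_mul_sw_apply (y : Pm n) (s : Fin n × Fin n) (c : Fin n) :
    (y * sw s)⁻¹ c = sw s (y⁻¹ c) := by
  rw [mul_inv_rev, CB1.sw_inv, Equiv.Perm.mul_apply]

theorem len_mul_sw {y : Pm n} (hy : InW κ y) {s : Fin n × Fin n} (hs : Smp κ s)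
    (h : Up κ y (y * sw s)) : len κ (y * sw s) = len κ y + 1 := by
  classical
  rw [up_sw_iff hy hs] at h
  have hnot : (y s.1, y s.2) ∉ Finset.univ.filter (fun p : Fin n × Fin n =>
      p.1 < p.2 ∧ κ p.1 = κ p.2 ∧ y⁻¹ p.2 < y⁻¹ p.1) := by
    rw [CB1.mem_inv]
    rintro ⟨-, -, h3⟩
    rw [CB1.inv_apply', CB1.inv_apply'] at h3
    exact absurd h3 (not_lt.2 hs.1.le)
  unfold len
  rw [← Finset.card_insert_of_notMem hnot]
  congr 1
  ext ⟨p, q⟩
  rw [Finset.mem_insert, CB1.mem_inv, CB1.mem_inv]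
  simp only
  rw [CB1.inv_mul_sw_apply, CB1.inv_mul_sw_apply]
  by_cases hpq : (p, q) = (y s.1, y s.2)
  · simp only [Prod.mk.injEq] at hpq
    rw [hpq.1, hpq.2, CB1.inv_apply', CB1.inv_apply']
    constructor
    · intro _; exact Or.inl rfl
    · intro _
      refine ⟨h, by rw [hy, hy]; exact hs.2.1, ?_⟩
      rw [sw, Equiv.swap_apply_left, Equiv.swap_apply_right]
      exact hs.1
  · constructor
    · rintro ⟨h1, h2, h3⟩
      right
      refine ⟨h1, h2, ?_⟩
      rwa [hs.cb1_lt_iff (by rw [hy.inv, hy.inv]; exact h2.symm)] at h3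
      · rintro ⟨e1, e2⟩
        -- `q = y s.1`, `p = y s.2`
        have e3 : q = y s.1 := by rw [← e1, CB1.apply_inv']
        have e4 : p = y s.2 := by rw [← e2, CB1.apply_inv']
        rw [e3, e4] at h1
        exact absurd h1 (not_lt.2 h.le)
      · rintro ⟨e1, e2⟩
        apply hpq
        rw [← e1, ← e2, CB1.apply_inv', CB1.apply_inv']
    · rintro (h1 | ⟨h1, h2, h3⟩)
      · exact absurd h1 hpq
      · refine ⟨h1, h2, ?_⟩
        rw [hs.cb1_lt_iff (by rw [hy.inv, hy.inv]; exact h2.symm)]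
        · exact h3
        · rintro ⟨e1, e2⟩
          have e3 : q = y s.1 := by rw [← e1, CB1.apply_inv']
          have e4 : p = y s.2 := by rw [← e2, CB1.apply_inv']
          rw [e3, e4] at h1
          exact absurd h1 (not_lt.2 h.le)
        · rintro ⟨e1, e2⟩
          apply hpq
          rw [← e1, ← e2, CB1.apply_inv', CB1.apply_inv']

/-- crossing lemma -/
theorem Up.crossing {y z : Pm n} (hy : InW κ y) {s : Fin n × Fin n} (hs : Smp κ s)
    (h : Up κ y z) (hne : z ≠ y * sw s) : Up κ (y * sw s) (z * sw s) := by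
  obtain ⟨a, b, hab, hk, hlt, rfl⟩ := h
  refine ⟨a, b, hab, hk, ?_, by rw [mul_assoc]⟩
  rw [CB1.inv_mul_sw_apply, CB1.inv_mul_sw_apply, hs.cb1_lt_iff (by rw [hy.inv, hy.inv]; exact hk)]
  · exact hlt
  · rintro ⟨e1, e2⟩
    apply hne
    rw [CB1.mul_sw, ← e1, ← e2, CB1.apply_inv', CB1.apply_inv']
  · rintro ⟨e1, e2⟩
    rw [e1, e2] at hlt
    exact absurd hlt (not_lt.2 hs.1.le)

theorem len_one : len κ 1 = 0 := by
  unfold len
  rw [Finset.card_eq_zero, Finset.filter_eq_empty_iff]
  rintro ⟨p, q⟩ _ ⟨h1, _, h3⟩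
  simp only [inv_one, Equiv.Perm.coe_one, id_eq] at h1 h3
  exact absurd h1 (not_lt.2 h3.le)

theorem exists_descent {x : Pm n} (hx : InW κ x) (hx1 : x ≠ 1) :
    ∃ s, Smp κ s ∧ Up κ (x * sw s) x := by
  classical
  -- a pair of a block which is inverted
  have h1 : ∃ i j : Fin n, i < j ∧ κ i = κ j ∧ x j < x i := by
    have hne : ∃ i, x i ≠ i := by
      by_contra hcon
      push Not at hcon
      exact hx1 (Equiv.ext hcon)
    obtain ⟨i, hi, hmin⟩ := WellFounded.has_min (wellFounded_lt : WellFounded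
      ((· < ·) : Fin n → Fin n → Prop)) {i | x i ≠ i} hne
    have hfix : ∀ j, j < i → x j = j := by
      intro j hj
      by_contra hcon
      exact hmin j hcon hj
    have hi1 : i < x i := by
      rcases lt_trichotomy (x i) i with h | h | h
      · have := hfix _ h
        exact absurd (x.injective this) hi
      · exact absurd h hi
      · exact h
    have hj : x (x⁻¹ i) = i := CB1.apply_inv' _ _
    have hij : i < x⁻¹ i := by
      rcases lt_trichotomy (x⁻¹ i) i with h | h | h
      · have h' := hfix _ h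
        rw [hj] at h'
        rw [← h'] at h
        exact absurd h (lt_irrefl _)
      · rw [h] at hj; exact absurd hj hi
      · exact h
    refine ⟨i, x⁻¹ i, hij, (hx.inv i).symm, ?_⟩
    rw [hj]; exact hi1
  -- choose one with the smallest distance
  have h2 : ∃ m : ℕ, ∃ i j : Fin n, i < j ∧ κ i = κ j ∧ x j < x i ∧ j.val - i.val = m := by
    obtain ⟨i, j, a, b, c⟩ := h1
    exact ⟨_, i, j, a, b, c, rfl⟩
  obtain ⟨i, j, hij, hk, hlt, hm⟩ := Nat.find_spec h2
  have hmin : ∀ i' j' : Fin n, i' < j' → κ i' = κ j' → x j' < x i' →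
      j.val - i.val ≤ j'.val - i'.val := by
    intro i' j' a b c
    rw [hm]
    exact Nat.find_min' h2 ⟨i', j', a, b, c, rfl⟩
  have hs : Smp κ (i, j) := by
    refine ⟨hij, hk, ?_⟩
    intro k hik hkj hkk
    simp only at hik hkj hkk
    have a1 : i.val < k.val := hik
    have a2 : k.val < j.val := hkj
    rcases lt_trichotomy (x k) (x i) with h | h | h
    · have := hmin i k hik hkk.symm h
      omega
    · exact absurd (x.injective h) hik.ne'
    · have := hmin k j hkj (hkk.trans hk) (hlt.trans h)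
      omega
  refine ⟨(i, j), hs, ?_⟩
  exact (dn_sw_iff hx hs).2 hlt

end KLFin
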