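import Mathlib
import Pool.Agent.KLFin.BKL2
import Pool.Agent.KLFin.BEDefs
import Pool.Agent.KLFin.CB1
import Pool.Agent.KLFin.CB2

/-!
# Part B of MP_d9d356_co: the Hecke algebra of the Young subgroup `W_κ`, interface
-/

set_option linter.unusedSectionVars false

open LaurentPolynomial

namespace KLFin

variable {n : ℕ}

/-- the Young subgroup -/
def Yg (κ : Fin n → ℕ) : Subgroup (Pm n) where
  carrier := {w | InW κ w}
  mul_mem' ha hb := InW.mul ha hb
  one_mem' := InW_one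
  inv_mem' ha := InW.inv ha

theorem mem_Yg {κ : Fin n → ℕ} {w : Pm n} : w ∈ Yg κ ↔ InW κ w := Iff.rfl

noncomputable instance instFintypeYg (κ : Fin n → ℕ) : Fintype (Yg κ) := Fintype.ofFinite _

theorem len_inv (κ : Fin n → ℕ) {y : Pm n} (hy : InW κ y) : len κ y⁻¹ = len κ y := by
  classical
  unfold len
  refine Finset.card_bij (fun p _ => (y p.2, y p.1)) ?_ ?_ ?_
  · rintro ⟨a, b⟩ hp
    simp only [Finset.mem_filter, Finset.mem_univ, true_and, inv_inv] at hp ⊢
    refine ⟨hp.2.2, ?_, ?_⟩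
    · rw [hy, hy]; exact hp.2.1.symm
    · rw [CB1.inv_apply', CB1.inv_apply']
      exact hp.1
  · rintro ⟨a, b⟩ _ ⟨c, d⟩ _ h
    simp only [Prod.mk.injEq, EmbeddingLike.apply_eq_iff_eq] at h
    rw [Prod.mk.injEq]
    exact ⟨h.2, h.1⟩
  · rintro ⟨a, b⟩ hp
    simp only [Finset.mem_filter, Finset.mem_univ, true_and] at hp
    refine ⟨(y⁻¹ b, y⁻¹ a), ?_, ?_⟩
    · simp only [Finset.mem_filter, Finset.mem_univ, true_and, inv_inv]
      refine ⟨hp.2.2, ?_, ?_⟩
      · rw [InW.inv hy, InW.inv hy]; exact hp.2.1.symm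
      · rw [CB1.apply_inv', CB1.apply_inv']
        exact hp.1
    · simp

theorem len_lt_iff_up (κ : Fin n → ℕ) {y : Pm n} (hy : InW κ y) {s : Fin n × Fin n}
    (hs : Smp κ s) : len κ y < len κ (y * sw s) ↔ Up κ y (y * sw s) := by
  constructor
  · intro h
    rcases rel_dichotomy (Or.inl rfl) hy hs with h1 | h1
    · exact h1
    · have := h1.len_lt
      omega
  · exact fun h => h.len_lt

theorem len_mul_sw_cases (κ : Fin n → ℕ) {y : Pm n} (hy : InW κ y) {s : Fin n × Fin n}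
    (hs : Smp κ s) : len κ (y * sw s) = len κ y + 1 ∨ len κ y = len κ (y * sw s) + 1 := by
  rcases rel_dichotomy (r := Up κ) (Or.inl rfl) hy hs with h1 | h1
  · left
    exact len_mul_sw hy hs h1
  · right
    have h2 : y * sw s * sw s = y := mul_sw_cancel y s
    have h3 := len_mul_sw (hy.mul hs.inW) hs (by rw [h2]; exact h1)
    rw [h2] at h3
    exact h3

/-- the datum of `W_κ` -/
noncomputable def YD (κ : Fin n → ℕ) : HDatum (Yg κ) where
  S := {s | ∃ p, Smp κ p ∧ (s : Pm n) = sw p}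
  ℓ w := len κ w
  sq := by
    rintro s ⟨p, hp, hs⟩
    apply Subtype.ext
    rw [Subgroup.coe_mul, hs, sw_mul_sw]
    rfl
  len_one := len_one
  len_inv w := len_inv κ w.2
  len_step := by
    rintro s ⟨p, hp, hs⟩ w
    rw [Subgroup.coe_mul, hs]
    exact len_mul_sw_cases κ w.2 hp
  desc := by
    intro w hw
    obtain ⟨p, hp, h⟩ := exists_descent w.2 (fun h => hw (Subtype.ext h))
    refine ⟨⟨sw p, hp.inW⟩, ⟨p, hp, rfl⟩, ?_⟩
    exact h.len_lt
  exch := by
    rintro s ⟨p, hp, hs⟩ t ⟨q, hq, ht⟩ w h1 h2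
    simp only [Subgroup.coe_mul, hs, ht] at h1 h2
    apply Subtype.ext
    rw [Subgroup.coe_mul, Subgroup.coe_mul, hs, ht]
    by_contra hne
    have hw : InW κ (w : Pm n) := w.2
    have e : sw p = Equiv.swap p.1 p.2 := rfl
    rcases up_or_dn (κ := κ) (w : Pm n) hp.1 hp.2.1 with h | h
    · rw [← e] at h
      have h3 := (Up.crossing hw hq h hne).len_lt
      have h4 := h.len_lt
      omega
    · rw [← e] at h
      have hw' : InW κ (sw p * (w : Pm n)) := hp.inW.mul hw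
      have h3 := (Up.crossing hw' hq h (by
        intro h5
        apply hne
        calc sw p * (w : Pm n) = sw p * w * sw q * sw q := (mul_sw_cancel _ q).symm
          _ = w * sw q := by rw [← h5])).len_lt
      have h4 := h.len_lt
      omega

/-- the Hecke algebra of `W_κ` -/
noncomputable abbrev HK (κ : Fin n → ℕ) := Hk (YD κ)

open Classical in
/-- the basis element `T_y`, zero for `y ∉ W_κ` -/
noncomputable def TT (κ : Fin n → ℕ) (y : Pm n) : HK κ :=
  if h : InW κ y then Tb (YD κ) ⟨y, h⟩ else 0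

theorem TT_of (κ : Fin n → ℕ) {y : Pm n} (h : InW κ y) : TT κ y = Tb (YD κ) ⟨y, h⟩ := dif_pos h

theorem TT_not (κ : Fin n → ℕ) {y : Pm n} (h : ¬ InW κ y) : TT κ y = 0 := dif_neg h

theorem TT_one (κ : Fin n → ℕ) : TT κ 1 = 1 := by
  rw [TT_of κ InW_one]
  exact Tb_one (YD κ)

theorem TT_mul (κ : Fin n → ℕ) {y z : Pm n} (hy : InW κ y) (hz : InW κ z)
    (h : len κ (y * z) = len κ y + len κ z) : TT κ y * TT κ z = TT κ (y * z) := by
  rw [TT_of κ hy, TT_of κ hz, TT_of κ (hy.mul hz)]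
  exact Tb_mul (YD κ) ⟨y, hy⟩ ⟨z, hz⟩ h

theorem sw_mem_S {κ : Fin n → ℕ} {s : Fin n × Fin n} (hs : Smp κ s) :
    (⟨sw s, hs.inW⟩ : Yg κ) ∈ (YD κ).S := ⟨s, hs, rfl⟩

theorem TT_mul_up (κ : Fin n → ℕ) {y : Pm n} (hy : InW κ y) {s : Fin n × Fin n} (hs : Smp κ s)
    (h : Up κ y (y * sw s)) : TT κ y * TT κ (sw s) = TT κ (y * sw s) := by
  rw [TT_of κ hy, TT_of κ hs.inW, TT_of κ (hy.mul hs.inW)]
  exact mul_Ts_up (YD κ) (sw_mem_S hs) (w := ⟨y, hy⟩) h.len_lt

theorem TT_mul_dn (κ : Fin n → ℕ) {y : Pm n} (hy : InW κ y) {s : Fin n × Fin n} (hs : Smp κ s)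
    (h : Up κ (y * sw s) y) : TT κ y * TT κ (sw s) =
      (T 2 - 1 : Av) • TT κ y + (T 2 : Av) • TT κ (y * sw s) := by
  rw [TT_of κ hy, TT_of κ hs.inW, TT_of κ (hy.mul hs.inW)]
  exact mul_Ts_dn (YD κ) (sw_mem_S hs) (w := ⟨y, hy⟩) h.len_lt

theorem TT_mul_left_up (κ : Fin n → ℕ) {y : Pm n} (hy : InW κ y) {s : Fin n × Fin n}
    (hs : Smp κ s) (h : Up κ y (sw s * y)) : TT κ (sw s) * TT κ y = TT κ (sw s * y) := by
  rw [TT_of κ hy, TT_of κ hs.inW, TT_of κ (hs.inW.mul hy)]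
  exact Ts_mul_up (YD κ) (sw_mem_S hs) (w := ⟨y, hy⟩) h.len_lt

theorem TT_mul_left_dn (κ : Fin n → ℕ) {y : Pm n} (hy : InW κ y) {s : Fin n × Fin n}
    (hs : Smp κ s) (h : Up κ (sw s * y) y) : TT κ (sw s) * TT κ y =
      (T 2 - 1 : Av) • TT κ y + (T 2 : Av) • TT κ (sw s * y) := by
  rw [TT_of κ hy, TT_of κ hs.inW, TT_of κ (hs.inW.mul hy)]
  exact Ts_mul_dn (YD κ) (sw_mem_S hs) (w := ⟨y, hy⟩) h.len_lt

theorem TT_sq (κ : Fin n → ℕ) {s : Fin n × Fin n} (hs : Smp κ s) :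
    TT κ (sw s) * TT κ (sw s) = (T 2 - 1 : Av) • TT κ (sw s) + (T 2 : Av) • 1 := by
  rw [TT_of κ hs.inW]
  exact Ts_sq (YD κ) (sw_mem_S hs)

theorem bar_TT (κ : Fin n → ℕ) {y : Pm n} (hy : InW κ y) :
    bar (YD κ) (TT κ y) * TT κ y⁻¹ = 1 ∧ TT κ y⁻¹ * bar (YD κ) (TT κ y) = 1 := by
  have h1 : TT κ y⁻¹ = Tb (YD κ) (⟨y, hy⟩ : Yg κ)⁻¹ := TT_of κ hy.inv
  rw [h1, TT_of κ hy, bar_Tb, Ti]
  exact ⟨Ring.inverse_mul_cancel _ (isUnit_Tb _ _), Ring.mul_inverse_cancel _ (isUnit_Tb _ _)⟩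

theorem bar_TT_sw (κ : Fin n → ℕ) {s : Fin n × Fin n} (hs : Smp κ s) :
    bar (YD κ) (TT κ (sw s)) = (T (-2) : Av) • TT κ (sw s) + (T (-2) - 1 : Av) • 1 := by
  rw [TT_of κ hs.inW, bar_Ts _ (sw_mem_S hs)]
  rfl

/-! ### polynomials in `q` -/

/-- evaluation of a polynomial at `q = v²` -/
noncomputable def qe : Polynomial ℤ →+* Av :=
  (Polynomial.aeval (T 2 : Av)).toRingHom

theorem qe_X : qe Polynomial.X = T 2 := Polynomial.aeval_X _

theorem qe_C (c : ℤ) : qe (Polynomial.C c) = C c := by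
  change Polynomial.aeval (T 2 : Av) (Polynomial.C c) = C c
  rw [Polynomial.aeval_C]
  rfl

theorem qe_monomial (k : ℕ) (c : ℤ) : qe (Polynomial.monomial k c) = C c * T (2 * (k : ℤ)) := by
  rw [← Polynomial.C_mul_X_pow_eq_monomial, map_mul, qe_C, map_pow, qe_X, T_pow]
  congr 2
  ring

theorem coeff_qe (p : Polynomial ℤ) (m : ℤ) :
    (qe p).coeff m = ∑ k ∈ p.support, if 2 * (k : ℤ) = m then p.coeff k else 0 := by
  conv_lhs => rw [p.as_sum_support]
  rw [map_sum, AddMonoidAlgebra.coeff_sum, Finsupp.finsetSum_apply]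
  refine Finset.sum_congr rfl fun k _ => ?_
  rw [qe_monomial, ← single_eq_C_mul_T, AddMonoidAlgebra.coeff_single, Finsupp.single_apply]

theorem coeff_qe_two_mul (p : Polynomial ℤ) (k : ℕ) : (qe p).coeff (2 * (k : ℤ)) = p.coeff k := by
  rw [coeff_qe]
  by_cases hk : k ∈ p.support
  · rw [Finset.sum_eq_single_of_mem k hk]
    · rw [if_pos rfl]
    · intro j _ hj
      rw [if_neg]
      intro h
      apply hj
      omega
  · rw [Finset.sum_eq_zero]
    · rw [Polynomial.notMem_support_iff] at hk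
      exact hk.symm
    · intro j hj
      rw [if_neg]
      intro h
      apply hk
      have : j = k := by omega
      rwa [← this]

theorem qe_injective : Function.Injective qe := by
  intro p p' h
  ext k
  rw [← coeff_qe_two_mul, ← coeff_qe_two_mul, h]

theorem coeff_qe_eq_zero (p : Polynomial ℤ) (m : ℤ) (h : m < 0 ∨ 2 * (p.natDegree : ℤ) < m) :
    (qe p).coeff m = 0 := by
  rw [coeff_qe]
  refine Finset.sum_eq_zero fun k hk => ?_
  rw [if_neg]
  intro hkm
  have := Polynomial.le_natDegree_of_mem_supp k hk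
  omega

theorem NegA_qe {p : Polynomial ℤ} {m : ℤ} (h : p ≠ 0 → m + 2 * p.natDegree + 1 ≤ 0) :
    NegA (T m * qe p) := fun k hk => by
  by_cases h0 : p = 0
  · rw [h0, map_zero, mul_zero]; simp
  · rw [coeff_T_mul]
    apply coeff_qe_eq_zero
    have := h h0
    right
    omega

/-! ### elements -/

/-- `v^{-d} ∑_y f_y(q) T_y` -/
noncomputable def elH (κ : Fin n → ℕ) (d : ℕ) (f : Pm n → Polynomial ℤ) : HK κ :=
  (T (-(d : ℤ)) : Av) • ∑ y : Pm n, qe (f y) • TT κ y

theorem sum_TT (κ : Fin n → ℕ) (g : Pm n → Av) :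
    ∑ y : Pm n, g y • TT κ y = ∑ y : Yg κ, g (y : Pm n) • Tb (YD κ) y := by
  classical
  have h1 : ∑ y : Pm n, g y • TT κ y =
      ∑ y ∈ Finset.univ.filter (fun y : Pm n => InW κ y), g y • TT κ y := by
    rw [Finset.sum_filter]
    refine Finset.sum_congr rfl fun y _ => ?_
    split_ifs with h
    · rfl
    · rw [TT_not κ h, smul_zero]
  rw [h1]
  symm
  refine Finset.sum_bij (fun (y : Yg κ) _ => (y : Pm n)) ?_ ?_ ?_ ?_
  · intro y _
    rw [Finset.mem_filter]
    exact ⟨Finset.mem_univ _, y.2⟩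
  · intro y _ z _ h
    exact Subtype.ext h
  · intro y hy
    rw [Finset.mem_filter] at hy
    exact ⟨⟨y, hy.2⟩, Finset.mem_univ _, rfl⟩
  · intro y _
    rw [TT_of κ y.2]

theorem ev_sumTT (κ : Fin n → ℕ) (F : Pm n → Av) (z : Yg κ) :
    ev (YD κ) (∑ y : Pm n, F y • TT κ y) z = F z.1 := by
  rw [sum_TT]
  exact ev_sum_smul_Tb (YD κ) (fun y : Yg κ => F y) z

theorem ev_elH (κ : Fin n → ℕ) (d : ℕ) (f : Pm n → Polynomial ℤ) (y : Yg κ) :
    ev (YD κ) (elH κ d f) y = T (-(d : ℤ)) * qe (f y) := by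
  rw [elH, sum_TT, map_smul, Pi.smul_apply, smul_eq_mul]
  congr 1
  exact ev_sum_smul_Tb (YD κ) (fun y : Yg κ => qe (f y)) y

/-- bar invariance of `v^{-d} ∑_y f_y(q) T_y` -/
def BI (κ : Fin n → ℕ) (d : ℕ) (f : Pm n → Polynomial ℤ) : Prop :=
  bar (YD κ) (elH κ d f) = elH κ d f

theorem elH_add (κ : Fin n → ℕ) (d : ℕ) (f g : Pm n → Polynomial ℤ) :
    elH κ d (f + g) = elH κ d f + elH κ d g := by
  simp only [elH, Pi.add_apply, map_add, add_smul, Finset.sum_add_distrib, smul_add]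

theorem elH_zero (κ : Fin n → ℕ) (d : ℕ) : elH κ d 0 = 0 := by
  simp [elH]

theorem elH_neg (κ : Fin n → ℕ) (d : ℕ) (f : Pm n → Polynomial ℤ) :
    elH κ d (-f) = (-1 : Av) • elH κ d f := by
  have h1 : ∑ y : Pm n, qe ((-f) y) • TT κ y = (-1 : Av) • ∑ y : Pm n, qe (f y) • TT κ y := by
    rw [Finset.smul_sum]
    refine Finset.sum_congr rfl fun y _ => ?_
    rw [smul_smul, neg_one_mul, Pi.neg_apply, map_neg]
  rw [elH, elH, h1, smul_smul, smul_smul, mul_comm]

theorem bar_neg_one_smul (κ : Fin n → ℕ) (c : HK κ) :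
    bar (YD κ) ((-1 : Av) • c) = (-1 : Av) • bar (YD κ) c := by
  rw [bar_smul, map_neg, map_one]

theorem elH_shift (κ : Fin n → ℕ) (d : ℕ) (f : Pm n → Polynomial ℤ) :
    elH κ (d + 2) (fun y => Polynomial.X * f y) = elH κ d f := by
  simp only [elH, map_mul, qe_X, mul_smul]
  rw [← Finset.smul_sum, smul_smul, ← T_add]
  congr 2
  push_cast
  ring

/-- the function of `f · (1 + T_s)` -/
noncomputable def mulF (κ : Fin n → ℕ) (s : Fin n × Fin n) (f : Pm n → Polynomial ℤ) :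
    Pm n → Polynomial ℤ := by
  classical exact fun y => if Up κ y (y * sw s) then f y + Polynomial.X * f (y * sw s)
        else f (y * sw s) + Polynomial.X * f y

theorem elH_mul (κ : Fin n → ℕ) (d : ℕ) (f : Pm n → Polynomial ℤ) {s : Fin n × Fin n}
    (hs : Smp κ s) : elH κ (d + 1) (mulF κ s f) =
      elH κ d f * Cs (YD κ) ⟨sw s, hs.inW⟩ := by
  classical
  apply (ev (YD κ)).injective
  funext y
  rw [ev_elH, Cs, mul_smul_comm, map_smul, mul_add, mul_one, map_add, Pi.smul_apply,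
    Pi.add_apply, ev_mul_Ts _ (sw_mem_S hs), Rop_apply, ev_elH, ev_elH, smul_eq_mul]
  have h1 : (YD κ).ℓ y < (YD κ).ℓ (y * ⟨sw s, hs.inW⟩) ↔ Up κ (y : Pm n) (y * sw s) :=
    len_lt_iff_up κ y.2 hs
  have h2 : (T (-((d + 1 : ℕ) : ℤ)) : Av) = T (-1) * T (-(d : ℤ)) := by
    rw [← T_add]
    congr 1
    push_cast
    ring
  have h3 : ((y * ⟨sw s, hs.inW⟩ : Yg κ) : Pm n) = (y : Pm n) * sw s := rfl
  rw [h2, h3]
  unfold mulF
  by_cases h : Up κ (y : Pm n) (y * sw s)
  · rw [if_pos h, if_pos (h1.mpr h), map_add, map_mul, qe_X]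
    ring
  · rw [if_neg h, if_neg (fun h' => h (h1.mp h')), map_add, map_mul, qe_X]
    ring

theorem SD_BI {κ : Fin n → ℕ} {d : ℕ} {f : Pm n → Polynomial ℤ} (h : SD κ d f) : BI κ d f := by
  classical
  induction h with
  | one =>
    have h1 : elH κ 0 (fun y => if y = 1 then 1 else 0) = 1 := by
      rw [elH, Finset.sum_eq_single 1]
      · rw [if_pos rfl, map_one, one_smul, TT_one]
        simp
      · intro y _ hy
        rw [if_neg hy, map_zero, zero_smul]
      · simp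
    unfold BI
    rw [h1, map_one]
  | zero d => unfold BI; rw [elH_zero, map_zero]
  | add _ _ h1 h2 =>
    unfold BI at h1 h2 ⊢
    rw [elH_add, map_add, h1, h2]
  | neg _ h1 =>
    unfold BI at h1 ⊢
    rw [elH_neg, bar_neg_one_smul, h1]
  | shift _ h1 =>
    unfold BI at h1 ⊢
    rw [elH_shift, h1]
  | @mul d f s hs _ h1 =>
    unfold BI at h1 ⊢
    have h2 : (fun y => if Up κ y (y * sw s) then f y + Polynomial.X * f (y * sw s)
        else f (y * sw s) + Polynomial.X * f y) = mulF κ s f := by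
      unfold mulF
      congr!
    rw [h2, elH_mul κ d f hs, map_mul, h1, bar_Cs _ (sw_mem_S hs)]

theorem BI_unique {κ : Fin n → ℕ} {d : ℕ} {f : Pm n → Polynomial ℤ} (h : BI κ d f)
    (hdeg : ∀ y, InW κ y → f y ≠ 0 → len κ y + 2 * (f y).natDegree + 1 ≤ d) :
    ∀ y, InW κ y → f y = 0 := by
  intro y hy
  have h1 : elH κ d f = 0 := by
    apply bar_unique (YD κ) _ h
    intro y
    rw [ev_elH, ← mul_assoc, ← T_add]
    apply NegA_qe
    intro h0
    have h2 : (len κ (y : Pm n) : ℤ) + 2 * (f y).natDegree + 1 ≤ d := by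
      exact_mod_cast hdeg y y.2 h0
    have h3 : (YD κ).ℓ y = len κ (y : Pm n) := rfl
    rw [h3]
    omega
  have h2 := ev_elH κ d f ⟨y, hy⟩
  rw [h1, map_zero] at h2
  have h3 : (T (d : ℤ) : Av) * (T (-(d : ℤ)) * qe (f y)) = qe (f y) := by
    rw [← mul_assoc, ← T_add, add_neg_cancel, T_zero, one_mul]
  have h4 : qe (f y) = 0 := by
    rw [← h3]
    change T (d : ℤ) * (T (-(d : ℤ)) * qe (f ((⟨y, hy⟩ : Yg κ) : Pm n))) = 0
    rw [← h2]
    simp
  exact qe_injective (by rw [h4, map_zero])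

/-- integral version of the family of a Kazhdan-Lusztig element -/
structure IsKL (κ : Fin n → ℕ) (x : Pm n) (P : Pm n → Polynomial ℤ) : Prop where
  bi : BI κ (len κ x) P
  one : P x = 1
  deg : ∀ y, y ≠ x → P y ≠ 0 → len κ y + 2 * (P y).natDegree + 1 ≤ len κ x
  supp : ∀ y, y ∉ Le (Up κ) x → P y = 0

theorem KLF.isKL {κ : Fin n → ℕ} {x : Pm n} {P : Pm n → Polynomial ℕ} (h : KLF κ x P) :
    IsKL κ x (fun y => (P y).map (Nat.castRingHom ℤ)) where
  bi := SD_BI h.sd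
  one := by simp [h.one]
  deg := by
    intro y hy h0
    have h1 : P y ≠ 0 := by
      intro h2
      apply h0
      rw [h2, Polynomial.map_zero]
    have h2 := h.deg y hy h1
    have h3 := Polynomial.natDegree_map_le (f := Nat.castRingHom ℤ) (p := P y)
    omega
  supp := by
    intro y hy
    rw [h.supp y hy, Polynomial.map_zero]

theorem Le_not_inW {κ : Fin n → ℕ} {x y : Pm n} (hx : InW κ x) (hy : ¬ InW κ y) :
    y ∉ Le (Up κ) x := fun h => hy (Le_inW (Or.inl rfl) hx h)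

theorem IsKL.unique {κ : Fin n → ℕ} {x : Pm n} (hx : InW κ x) {P P' : Pm n → Polynomial ℤ}
    (h : IsKL κ x P) (h' : IsKL κ x P') : P = P' := by
  have h1 : BI κ (len κ x) (P + -P') := by
    unfold BI
    have h2 := h.bi
    have h3 := h'.bi
    unfold BI at h2 h3
    rw [elH_add, elH_neg, map_add, bar_neg_one_smul, h2, h3]
  have h2 := BI_unique h1 (by
    intro y _ h0
    by_cases hyx : y = x
    · exfalso
      apply h0
      rw [hyx, Pi.add_apply, Pi.neg_apply, h.one, h'.one, add_neg_cancel]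
    · have h4 : (P y - P' y).natDegree ≤ max (P y).natDegree (P' y).natDegree :=
        Polynomial.natDegree_sub_le _ _
      have h5 : (P + -P') y = P y - P' y := by
        rw [Pi.add_apply, Pi.neg_apply, sub_eq_add_neg]
      rw [h5] at h0 ⊢
      by_cases e1 : P y = 0
      · by_cases e2 : P' y = 0
        · rw [e1, e2, sub_zero] at h0
          exact absurd rfl h0
        · have h7 := h'.deg y hyx e2
          have h8 : (P y).natDegree = 0 := by rw [e1, Polynomial.natDegree_zero]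
          omega
      · have h6 := h.deg y hyx e1
        by_cases e2 : P' y = 0
        · have h8 : (P' y).natDegree = 0 := by rw [e2, Polynomial.natDegree_zero]
          omega
        · have := h'.deg y hyx e2
          omega)
  funext y
  by_cases hy : InW κ y
  · have h3 := h2 y hy
    rw [Pi.add_apply, Pi.neg_apply, ← sub_eq_add_neg] at h3
    exact sub_eq_zero.mp h3
  · rw [h.supp y (Le_not_inW hx hy), h'.supp y (Le_not_inW hx hy)]

theorem map_natCast_injective :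
    Function.Injective (Polynomial.map (Nat.castRingHom ℤ)) :=
  Polynomial.map_injective _ (fun a b h => by simpa using h)

theorem KLF.unique {κ : Fin n → ℕ} {x : Pm n} (hx : InW κ x) {P P' : Pm n → Polynomial ℕ}
    (h : KLF κ x P) (h' : KLF κ x P') : P = P' := by
  have h1 := IsKL.unique hx h.isKL h'.isKL
  funext y
  exact map_natCast_injective (congrFun h1 y)

theorem IsKL.kle {κ : Fin n → ℕ} {x : Pm n} (hx : InW κ x) {P : Pm n → Polynomial ℤ}
    (h : IsKL κ x P) : KLe (YD κ) ⟨x, hx⟩ (elH κ (len κ x) P) where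
  bar := h.bi
  one := by
    rw [nc, ev_elH]
    have h1 : (YD κ).ℓ ⟨x, hx⟩ = len κ x := rfl
    rw [h1, ← mul_assoc, ← T_add, add_neg_cancel, T_zero, one_mul]
    change qe (P x) = 1
    rw [h.one, map_one]
  neg := by
    intro y hy
    have hy' : (y : Pm n) ≠ x := fun e => hy (Subtype.ext e)
    rw [nc, ev_elH, ← mul_assoc, ← T_add]
    apply NegA_qe
    intro h0
    have h1 := h.deg y hy' h0
    have h2 : (YD κ).ℓ y = len κ (y : Pm n) := rfl
    rw [h2]
    omega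
  supp := by
    intro y hy hl
    have hy' : (y : Pm n) ≠ x := fun e => hy (Subtype.ext e)
    rw [nc, ev_elH]
    have h1 : P (y : Pm n) = 0 := by
      by_contra h0
      have h1 := h.deg y hy' h0
      have h2 : (YD κ).ℓ y = len κ (y : Pm n) := rfl
      have h3 : (YD κ).ℓ ⟨x, hx⟩ = len κ x := rfl
      omega
    rw [h1, map_zero, mul_zero, mul_zero]

theorem qe_of_T_mul {d : ℤ} {p p' : Polynomial ℤ} (h : T d * qe p = T d * qe p') : p = p' := by
  apply qe_injective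
  have h1 := congrArg (fun a : Av => T (-d) * a) h
  simp only [← mul_assoc, ← T_add, neg_add_cancel, T_zero, one_mul] at h1
  exact h1

/-- right descents -/
theorem IsKL.desc {κ : Fin n → ℕ} {x : Pm n} (hx : InW κ x) {P : Pm n → Polynomial ℤ}
    (h : IsKL κ x P) {s : Fin n × Fin n} (hs : Smp κ s) (hd : Up κ (x * sw s) x) (y : Pm n) :
    P (y * sw s) = P y := by
  by_cases hy : InW κ y
  · have h1 := (h.kle hx).desc_right (YD κ) (sw_mem_S hs) hd.len_lt ⟨y, hy⟩
    rw [ev_elH, ev_elH] at h1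
    exact qe_of_T_mul h1
  · have hy' : ¬ InW κ (y * sw s) := fun h' => hy (by
      have := h'.mul hs.inW
      rwa [mul_sw_cancel] at this)
    rw [h.supp y (Le_not_inW hx hy), h.supp _ (Le_not_inW hx hy')]

/-- left descents -/
theorem IsKL.desc_left {κ : Fin n → ℕ} {x : Pm n} (hx : InW κ x) {P : Pm n → Polynomial ℤ}
    (h : IsKL κ x P) {s : Fin n × Fin n} (hs : Smp κ s) (hd : Up κ (sw s * x) x) (y : Pm n) :
    P (sw s * y) = P y := by
  by_cases hy : InW κ y
  · have h1 := (h.kle hx).desc_left (YD κ) (sw_mem_S hs) hd.len_lt ⟨y, hy⟩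
    rw [ev_elH, ev_elH] at h1
    exact qe_of_T_mul h1
  · have hy' : ¬ InW κ (sw s * y) := fun h' => hy (by
      have := hs.inW.mul h'
      rwa [← mul_assoc, sw_mul_sw, one_mul] at this)
    rw [h.supp y (Le_not_inW hx hy), h.supp _ (Le_not_inW hx hy')]

/-- symmetry -/
theorem IsKL.inv_eq {κ : Fin n → ℕ} {x : Pm n} (hx : InW κ x) {P P' : Pm n → Polynomial ℤ}
    (h : IsKL κ x P) (h' : IsKL κ x⁻¹ P') (y : Pm n) : P' y⁻¹ = P y := by
  by_cases hy : InW κ y
  · have h1 := ((h.kle hx).tau).unique (YD κ) (h'.kle hx.inv)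
    have h2 := congrArg (fun c => ev (YD κ) c ⟨y⁻¹, hy.inv⟩) h1
    simp only [ev_tau, ev_elH] at h2
    have h3 : ((⟨y⁻¹, hy.inv⟩ : Yg κ)⁻¹ : Yg κ) = ⟨y, hy⟩ := by
      apply Subtype.ext
      simp
    rw [h3, len_inv κ hx] at h2
    exact (qe_of_T_mul h2).symm
  · have hy' : ¬ InW κ y⁻¹ := fun h' => hy (by simpa using h'.inv)
    rw [h.supp y (Le_not_inW hx hy), h'.supp _ (Le_not_inW hx.inv hy')]

theorem KLF.desc {κ : Fin n → ℕ} {x : Pm n} (hx : InW κ x) {P : Pm n → Polynomial ℕ}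
    (h : KLF κ x P) {s : Fin n × Fin n} (hs : Smp κ s) (hd : Up κ (x * sw s) x) (y : Pm n) :
    P (y * sw s) = P y :=
  map_natCast_injective (h.isKL.desc hx hs hd y)

theorem KLF.desc_left {κ : Fin n → ℕ} {x : Pm n} (hx : InW κ x) {P : Pm n → Polynomial ℕ}
    (h : KLF κ x P) {s : Fin n × Fin n} (hs : Smp κ s) (hd : Up κ (sw s * x) x) (y : Pm n) :
    P (sw s * y) = P y :=
  map_natCast_injective (h.isKL.desc_left hx hs hd y)

theorem KLF.inv_eq {κ : Fin n → ℕ} {x : Pm n} (hx : InW κ x) {P P' : Pm n → Polynomial ℕ}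
    (h : KLF κ x P) (h' : KLF κ x⁻¹ P') (y : Pm n) : P' y⁻¹ = P y :=
  map_natCast_injective (h.isKL.inv_eq hx h'.isKL y)

end KLFin
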