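import Mathlib
import Pool.Agent.KLFin.CDefs2

/-!
# Part C, block CE1: elements of `θ_s O`, first half (MP_d9d356_co)
-/

open MvPolynomial

namespace KLFin

variable {n : ℕ} {s : Fin n × Fin n} {O P : Obj n}

namespace CE1

theorem al_ne (hs : s.1 ≠ s.2) (y : Pm n) : al y s ≠ 0 := by
  intro h
  rw [al, sub_eq_zero] at h
  exact hs (y.injective (X_injective h))

theorem homog_of_al_mul (hs : s.1 ≠ s.2) (y : Pm n) {g : Rg n} {d : ℕ}
    (h : (al y s * g).IsHomogeneous (d + 1)) : g.IsHomogeneous d := by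
  have h1 := hcomp_mul_succ (al_homog y s) g d
  rw [homogeneousComponent_of_mem h, if_pos rfl] at h1
  have h2 := mul_left_cancel₀ (al_ne hs y) h1
  rw [h2]
  exact homogeneousComponent_isHomogeneous d g

theorem zero_of_al_mul (hs : s.1 ≠ s.2) (y : Pm n) {g : Rg n}
    (h : (al y s * g).IsHomogeneous 0) : g = 0 := by
  have h1 := hcomp_mul_lt (al_homog y s) g 0 (by norm_num)
  rw [homogeneousComponent_of_mem h, if_pos rfl] at h1
  exact (mul_eq_zero.mp h1).resolve_left (al_ne hs y)

theorem homog_of_two_mul {g : Rg n} {d : ℕ} (h : (2 * g).IsHomogeneous d) :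
    g.IsHomogeneous d := by
  have h1 : g = C (1 / 2) * (2 * g) := by
    rw [← mul_assoc, C_half_two, one_mul]
  rw [h1]
  have h2 := (isHomogeneous_C (Fin n) (1 / 2 : ℝ)).mul h
  rwa [zero_add] at h2

/-- the two values of `el s a b` at `i` -/
theorem el_false (a b : O.M) (i : O.I) :
    (el s a b).1 (i, false) = a.1 i + al (O.π i) s * b.1 i := rfl

theorem el_true (a b : O.M) (i : O.I) :
    (el s a b).1 (i, true) = a.1 i - al (O.π i) s * b.1 i := by
  change a.1 i + al (O.π i * sw s) s * b.1 i = _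
  rw [al_mul_sw]
  ring

theorem act_theta_π {f : Rg n} (hf : act (sw s) f = f) (p : (theta s O).I) :
    act ((theta s O).π p) f = act (O.π p.1) f := by
  obtain ⟨i, b⟩ := p
  cases b
  · rfl
  · change act (O.π i * sw s) f = act (O.π i) f
    rw [act_mul, hf]

theorem act_theta_al (p : (theta s O).I) :
    act ((theta s O).π p) (al 1 s) = al ((theta s O).π p) s := by
  rw [← al_eq_act]

theorem act_al_al (p : (theta s O).I) :
    act (O.π p.1) (al 1 s * al 1 s) = al ((theta s O).π p) s * al ((theta s O).π p) s := by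
  obtain ⟨i, b⟩ := p
  cases b
  · change act (O.π i) (al 1 s * al 1 s) = al (O.π i) s * al (O.π i) s
    rw [map_mul, ← al_eq_act]
  · change act (O.π i) (al 1 s * al 1 s) = al (O.π i * sw s) s * al (O.π i * sw s) s
    rw [map_mul, ← al_eq_act, al_mul_sw]
    ring

end CE1

open CE1

theorem el_surj (m : (theta s O).M) : ∃ a b : O.M, m = el s a b := by
  obtain ⟨m, ⟨⟨a, b⟩, ⟨ha, hb⟩, rfl⟩⟩ := m
  exact ⟨⟨a, ha⟩, ⟨b, hb⟩, rfl⟩

theorem el_inj (hs : s.1 ≠ s.2) {a b a' b' : O.M} (h : el s a b = el s a' b') :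
    a = a' ∧ b = b' := by
  have h1 : ∀ i, a.1 i + al (O.π i) s * b.1 i = a'.1 i + al (O.π i) s * b'.1 i := by
    intro i
    rw [← el_false, ← el_false, h]
  have h2 : ∀ i, a.1 i - al (O.π i) s * b.1 i = a'.1 i - al (O.π i) s * b'.1 i := by
    intro i
    rw [← el_true, ← el_true, h]
  constructor
  · ext1; funext i
    have h3 : (2 : Rg n) * (a.1 i - a'.1 i) = 0 := by linear_combination h1 i + h2 i
    exact sub_eq_zero.mp ((mul_eq_zero.mp h3).resolve_left two_ne_zero)
  · ext1; funext i
    have h3 : (2 : Rg n) * (al (O.π i) s * (b.1 i - b'.1 i)) = 0 := by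
      linear_combination h1 i - h2 i
    have h4 := (mul_eq_zero.mp h3).resolve_left two_ne_zero
    exact sub_eq_zero.mp ((mul_eq_zero.mp h4).resolve_left (al_ne hs _))

theorem el_add (a b a' b' : O.M) : el s (a + a') (b + b') = el s a b + el s a' b' := by
  ext1; funext p
  change a.1 p.1 + a'.1 p.1 + al ((theta s O).π p) s * (b.1 p.1 + b'.1 p.1) =
    a.1 p.1 + al ((theta s O).π p) s * b.1 p.1 + (a'.1 p.1 + al ((theta s O).π p) s * b'.1 p.1)
  ring

theorem el_smul (f : Rg n) (a b : O.M) : el s (f • a) (f • b) = f • el s a b := by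
  ext1; funext p
  change f * a.1 p.1 + al ((theta s O).π p) s * (f * b.1 p.1) =
    f * (a.1 p.1 + al ((theta s O).π p) s * b.1 p.1)
  ring

/-- the value over `y` at an index lying over `y` or `y s` -/
theorem el_val (a b : O.M) (p : (theta s O).I) :
    (el s a b).1 p = a.1 p.1 + al ((theta s O).π p) s * b.1 p.1 := rfl

theorem rmul_el_inv (hs : s.1 ≠ s.2) {f : Rg n} (hf : act (sw s) f = f) (a b : O.M) :
    (theta s O).rmul f (el s a b) = el s (O.rmul f a) (O.rmul f b) := by
  ext1; funext p
  rw [Obj.rmul_val, el_val, el_val, Obj.rmul_val, Obj.rmul_val, act_theta_π hf]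
  ring

theorem rmul_el_al (hs : s.1 ≠ s.2) (a b : O.M) :
    (theta s O).rmul (al 1 s) (el s a b) = el s (O.rmul (al 1 s * al 1 s) b) a := by
  ext1; funext p
  rw [Obj.rmul_val, el_val, el_val, Obj.rmul_val, act_theta_al, act_al_al]
  ring

theorem el_mem_dg (hs : s.1 ≠ s.2) (a b : O.M) (d : ℕ) :
    el s a b ∈ (theta s O).dg (d + 1) ↔ a ∈ O.dg (d + 1) ∧ b ∈ O.dg d := by
  constructor
  · intro h
    constructor
    · intro i
      apply homog_of_two_mul
      have h1 := (h (i, false)).add (h (i, true))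
      rw [el_false, el_true] at h1
      convert h1 using 1
      ring
    · intro i
      apply homog_of_al_mul hs (O.π i)
      apply homog_of_two_mul
      have h1 := (h (i, false)).sub (h (i, true))
      rw [el_false, el_true] at h1
      have e : 2 * (al (O.π i) s * b.1 i) = (a.1 i + al (O.π i) s * b.1 i) -
          (a.1 i - al (O.π i) s * b.1 i) := by ring
      rw [e]
      exact h1
  · rintro ⟨ha, hb⟩ p
    rw [el_val]
    have h1 := (al_homog ((theta s O).π p) s).mul (hb p.1)
    rw [add_comm 1 d] at h1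
    exact (ha p.1).add h1

theorem el_mem_dg0 (hs : s.1 ≠ s.2) (a b : O.M) :
    el s a b ∈ (theta s O).dg 0 ↔ a ∈ O.dg 0 ∧ b = 0 := by
  constructor
  · intro h
    constructor
    · intro i
      apply homog_of_two_mul
      have h1 := (h (i, false)).add (h (i, true))
      rw [el_false, el_true] at h1
      convert h1 using 1
      ring
    · ext1; funext i
      apply zero_of_al_mul hs (O.π i)
      apply homog_of_two_mul
      have h1 := (h (i, false)).sub (h (i, true))
      rw [el_false, el_true] at h1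
      have e : 2 * (al (O.π i) s * b.1 i) = (a.1 i + al (O.π i) s * b.1 i) -
          (a.1 i - al (O.π i) s * b.1 i) := by ring
      rw [e]
      exact h1
  · rintro ⟨ha, rfl⟩ p
    rw [el_val]
    have h1 : (0 : O.M).1 p.1 = 0 := rfl
    rw [h1, mul_zero, add_zero]
    exact ha p.1

/-- linear maps out of `θ_s O` -/
theorem exists_lin_of_el (hs : s.1 ≠ s.2) {N : Type} [AddCommGroup N] [Module (Rg n) N]
    (g h : O.M →ₗ[Rg n] N) :
    ∃ φ : (theta s O).M →ₗ[Rg n] N, ∀ a b, φ (el s a b) = g a + h b := by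
  let F : (O.M × O.M) →ₗ[Rg n] (theta s O).M :=
    { toFun := fun c => el s c.1 c.2
      map_add' := fun c c' => el_add _ _ _ _
      map_smul' := fun f c => el_smul f _ _ }
  have hF : Function.Bijective F := by
    constructor
    · rintro ⟨a, b⟩ ⟨a', b'⟩ hab
      obtain ⟨h1, h2⟩ := el_inj hs hab
      exact Prod.ext h1 h2
    · intro m
      obtain ⟨a, b, rfl⟩ := el_surj m
      exact ⟨(a, b), rfl⟩
  let E := LinearEquiv.ofBijective F hF
  refine ⟨(g.coprod h) ∘ₗ E.symm.toLinearMap, fun a b => ?_⟩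
  have h1 : E.symm (el s a b) = (a, b) := by
    rw [LinearEquiv.symm_apply_eq]
    rfl
  rw [LinearMap.comp_apply, LinearEquiv.coe_coe, h1, LinearMap.coprod_apply]

theorem BiMap.rmul {φ : O.M →ₗ[Rg n] P.M} (hφ : BiMap φ) (f : Rg n) (m : O.M) :
    φ (O.rmul f m) = P.rmul f (φ m) := by
  induction f using MvPolynomial.induction_on generalizing m with
  | C a =>
      have h1 : ∀ (Q : Obj n) (m : Q.M), Q.rmul (C a) m = (C a : Rg n) • m := by
        intro Q m
        ext1; funext i
        rw [Obj.rmul_val, act_C]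
        rfl
      rw [h1, h1, map_smul]
  | add p q hp hq =>
      rw [Obj.rmul_add, Obj.rmul_add, map_add, hp, hq]
  | mul_X p j hp =>
      rw [Obj.rmul_mul, Obj.rmul_mul, hp, hφ]

theorem BiMap.MRp {φ : O.M →ₗ[Rg n] P.M} (hφ : BiMap φ) {m : O.M} (hm : m ∈ O.MRp) :
    φ m ∈ P.MRp := by
  have h1 : O.MRp ≤ P.MRp.comap φ := by
    refine iSup_le fun j => ?_
    rintro _ ⟨a, rfl⟩
    rw [Submodule.mem_comap, hφ]
    exact Submodule.mem_iSup_of_mem j ⟨φ a, rfl⟩
  exact h1 hm

theorem mem_MRp_of_rmul {f : Rg n} (hf : constantCoeff f = 0) (m : O.M) :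
    O.rmul f m ∈ O.MRp := by
  have key : ∀ (f : Rg n) (m : O.M),
      O.rmul f m - O.rmul (C (constantCoeff f)) m ∈ O.MRp := by
    intro f
    induction f using MvPolynomial.induction_on with
    | C a =>
        intro m
        rw [constantCoeff_C, sub_self]
        exact zero_mem _
    | add p q hp hq =>
        intro m
        have h1 := add_mem (hp m) (hq m)
        rw [map_add, C_add, Obj.rmul_add, Obj.rmul_add]
        convert h1 using 1
        abel
    | mul_X p j hp =>
        intro m
        rw [map_mul, constantCoeff_X, mul_zero, C_0]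
        have h1 : O.rmul 0 m = 0 := by
          ext1; funext i
          rw [Obj.rmul_val, map_zero, zero_mul]
          rfl
        rw [h1, sub_zero, mul_comm, Obj.rmul_mul]
        exact Submodule.mem_iSup_of_mem j ⟨_, rfl⟩
  have h1 := key f m
  rw [hf, C_0] at h1
  have h2 : O.rmul 0 m = 0 := by
    ext1; funext i
    rw [Obj.rmul_val, map_zero, zero_mul]
    rfl
  rwa [h2, sub_zero] at h1

/-- homogeneous components -/
theorem exists_comp (O : Obj n) : ∃ c : ℕ → O.M →ₗ[ℝ] O.M, (∀ d m, c d m ∈ O.dg d) ∧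
    (∀ d, ∀ m ∈ O.dg d, c d m = m) ∧ (∀ d d', d ≠ d' → ∀ m ∈ O.dg d, c d' m = 0) ∧
    (∀ m, ∃ N, m = ∑ d ∈ Finset.range N, c d m) ∧
    (∀ d m i, (c d m).1 i = homogeneousComponent d (m.1 i)) := by
  let c : ℕ → O.M →ₗ[ℝ] O.M := fun d =>
    { toFun := fun m => ⟨fun i => homogeneousComponent d (m.1 i), O.graded m.1 m.2 d⟩
      map_add' := by
        intro a b
        ext1; funext i
        exact map_add (homogeneousComponent d) (a.1 i) (b.1 i)
      map_smul' := by
        intro r a
        ext1; funext i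
        exact map_smul (homogeneousComponent d) r (a.1 i) }
  have hc : ∀ d m i, (c d m).1 i = homogeneousComponent d (m.1 i) := fun _ _ _ => rfl
  refine ⟨c, ?_, ?_, ?_, ?_, hc⟩
  · intro d m i
    rw [hc]
    exact homogeneousComponent_isHomogeneous d _
  · intro d m hm
    ext1; funext i
    rw [hc, homogeneousComponent_of_mem (hm i), if_pos rfl]
  · intro d d' hd m hm
    ext1; funext i
    rw [hc, homogeneousComponent_of_mem (hm i), if_neg hd.symm]
    rfl
  · intro m
    refine ⟨(Finset.univ.sup fun i => (m.1 i).totalDegree) + 1, ?_⟩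
    ext1; funext i
    have h1 : (∑ d ∈ Finset.range ((Finset.univ.sup fun i => (m.1 i).totalDegree) + 1),
        c d m).1 i = ∑ d ∈ Finset.range ((Finset.univ.sup fun i => (m.1 i).totalDegree) + 1),
        homogeneousComponent d (m.1 i) := by
      rw [Submodule.coe_sum, Finset.sum_apply]
      rfl
    rw [h1]
    have h2 : (m.1 i).totalDegree ≤ Finset.univ.sup fun i => (m.1 i).totalDegree :=
      Finset.le_sup (f := fun i => (m.1 i).totalDegree) (Finset.mem_univ i)
    conv_lhs => rw [← sum_homogeneousComponent (m.1 i)]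
    apply Finset.sum_subset
    · intro d hd
      rw [Finset.mem_range] at hd ⊢
      omega
    · intro d _ hd
      rw [Finset.mem_range, not_lt] at hd
      exact homogeneousComponent_eq_zero d _ (by omega)

end KLFin
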