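import Mathlib
import Pool.Agent.KLFin.CDefs2

/-!
# Part C, section CS: separators and supports (MP_d9d356_co)
-/

open MvPolynomial

namespace KLFin

variable {n : ℕ} {κ : Fin n → ℕ}

/-- multiplication of the value over `w` by `c w` preserves every object -/
def IsMult (c : Pm n → Rg n) : Prop :=
  ∀ O : Obj n, ∀ m ∈ O.M, (fun i => c (O.π i) * m i) ∈ O.M

theorem IsMult_sub (j : Fin n) (w : Pm n) : IsMult (fun v : Pm n => X (v j) - X (w j)) := by
  intro O m hm
  have h1 := O.M.sub_mem (O.right_mem m hm j) (O.M.smul_mem (X (w j)) hm)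
  have h2 : (fun i => (X (O.π i j) - X (w j) : Rg n) * m i) =
      (fun i => X (O.π i j) * m i) - (X (w j) : Rg n) • m := by
    funext i
    simp only [Pi.sub_apply, Pi.smul_apply, smul_eq_mul]
    ring
  rw [h2]
  exact h1

theorem IsMult.mul {c d : Pm n → Rg n} (hc : IsMult c) (hd : IsMult d) :
    IsMult (fun w => c w * d w) := by
  intro O m hm
  have h1 := hc O _ (hd O m hm)
  simpa only [mul_assoc] using h1

theorem IsMult.add {c d : Pm n → Rg n} (hc : IsMult c) (hd : IsMult d) :
    IsMult (fun w => c w + d w) := by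
  intro O m hm
  have h1 := O.M.add_mem (hc O m hm) (hd O m hm)
  have h2 : (fun i => (c (O.π i) + d (O.π i)) * m i) =
      (fun i => c (O.π i) * m i) + fun i => d (O.π i) * m i := by
    funext i
    simp only [Pi.add_apply]
    ring
  rw [h2]
  exact h1

theorem IsMult_const (f : Rg n) : IsMult (fun _ : Pm n => f) := by
  intro O m hm
  exact O.M.smul_mem f hm

/-- the product of the factors `x_{w j} - x_a`, `(j, a)` in the list -/
noncomputable def sepL (L : List (Fin n × Fin n)) (w : Pm n) : Rg n :=
  (L.map fun q => (X (w q.1) - X q.2 : Rg n)).prod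

theorem sepL_nil (w : Pm n) : sepL [] w = 1 := by simp [sepL]

theorem sepL_cons (q : Fin n × Fin n) (L : List (Fin n × Fin n)) (w : Pm n) :
    sepL (q :: L) w = (X (w q.1) - X q.2) * sepL L w := by simp [sepL]

theorem sepL_isMult (L : List (Fin n × Fin n)) : IsMult (sepL L) := by
  induction L with
  | nil =>
    have := IsMult_const (1 : Rg n)
    convert this using 1
    funext w
    exact sepL_nil w
  | cons q L ih =>
    have h1 : IsMult (fun v : Pm n => (X (v q.1) - X q.2 : Rg n)) := by
      have h2 := IsMult_sub q.1 (Equiv.swap q.1 q.2)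
      simpa only [Equiv.swap_apply_left] using h2
    have h3 := h1.mul ih
    convert h3 using 1
    funext w
    exact sepL_cons q L w

theorem sepL_homog (L : List (Fin n × Fin n)) (w : Pm n) :
    (sepL L w).IsHomogeneous L.length := by
  induction L with
  | nil => rw [sepL_nil]; exact isHomogeneous_one _ _
  | cons q L ih =>
    rw [sepL_cons, List.length_cons, add_comm]
    exact ((isHomogeneous_X _ _).sub (isHomogeneous_X _ _)).mul ih

theorem exists_sepL (S : Finset (Pm n)) (y : Pm n) (Q : Rg n → Prop) (h1 : Q 1)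
    (hmul : ∀ f g, Q f → Q g → Q (f * g)) (h : ∀ w ∈ S, ∃ j, Q (X (y j) - X (w j))) :
    ∃ L : List (Fin n × Fin n), Q (sepL L y) ∧ ∀ w ∈ S, sepL L w = 0 := by
  classical
  induction S using Finset.induction_on with
  | empty => exact ⟨[], by rw [sepL_nil]; exact h1, fun w hw => absurd hw (Finset.notMem_empty w)⟩
  | insert a S ha ih =>
    obtain ⟨L, hL1, hL2⟩ := ih (fun w hw => h w (Finset.mem_insert_of_mem hw))
    obtain ⟨j, hj⟩ := h a (Finset.mem_insert_self a S)
    refine ⟨(j, a j) :: L, ?_, ?_⟩
    · rw [sepL_cons]; exact hmul _ _ hj hL1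
    · intro w hw
      rw [sepL_cons]
      rcases Finset.mem_insert.mp hw with rfl | hw
      · rw [sub_self, zero_mul]
      · rw [hL2 w hw, mul_zero]

theorem exists_sepL_ne (y : Pm n) :
    ∃ L : List (Fin n × Fin n), sepL L y ≠ 0 ∧ ∀ w, w ≠ y → sepL L w = 0 := by
  classical
  obtain ⟨L, h1, h2⟩ := exists_sepL (Finset.univ.erase y) y (fun f => f ≠ 0) one_ne_zero
    (fun f g hf hg => mul_ne_zero hf hg) (by
      intro w hw
      have hne : w ≠ y := Finset.ne_of_mem_erase hw
      by_contra hcon
      push Not at hcon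
      apply hne
      ext j
      have h3 := sub_eq_zero.mp (hcon j)
      rw [X_injective h3])
  exact ⟨L, h1, fun w hw => h2 w (Finset.mem_erase.mpr ⟨hw, Finset.mem_univ w⟩)⟩

/-- separates `y` from everything else -/
theorem exists_sep (y : Pm n) : ∃ (c : Pm n → Rg n) (N : ℕ), IsMult c ∧ c y ≠ 0 ∧
    (∀ w, w ≠ y → c w = 0) ∧ (∀ w, (c w).IsHomogeneous N) := by
  obtain ⟨L, h1, h2⟩ := exists_sepL_ne y
  exact ⟨sepL L, L.length, sepL_isMult L, h1, h2, sepL_homog L⟩

/-- a prime divisor of two roots determines the root -/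
theorem cs_root_pair {p : Rg n} (hp : Prime p) {a b c d : Fin n} (hab : a ≠ b) (hcd : c ≠ d)
    (h1 : p ∣ (X a - X b : Rg n)) (h2 : p ∣ (X c - X d : Rg n)) :
    (c = a ∧ d = b) ∨ (c = b ∧ d = a) := by
  have hne : (X a - X b : Rg n) ≠ 0 := by
    intro h
    exact hab (X_injective (sub_eq_zero.mp h))
  have hdvd : (X a - X b : Rg n) ∣ p := by
    obtain ⟨q, hq⟩ := h1
    have hq0 : q ≠ 0 := by
      rintro rfl
      exact hne (by rw [hq, mul_zero])
    have hdeg : (X a - X b : Rg n).totalDegree = p.totalDegree + q.totalDegree := by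
      rw [hq]
      exact totalDegree_mul_of_isDomain hp.ne_zero hq0
    have hle : (X a - X b : Rg n).totalDegree ≤ 1 :=
      ((isHomogeneous_X ℝ a).sub (isHomogeneous_X ℝ b)).totalDegree_le
    have hpd : p.totalDegree ≠ 0 := by
      intro h0
      rw [totalDegree_eq_zero_iff_eq_C] at h0
      apply hp.not_isUnit
      rw [h0]
      have hc : p.coeff 0 ≠ 0 := by
        intro h3
        apply hp.ne_zero
        rw [h0, h3, C_0]
      exact (isUnit_iff_ne_zero.mpr hc).map (C : ℝ →+* Rg n)
    have hqd : q.totalDegree = 0 := by omega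
    rw [totalDegree_eq_zero_iff_eq_C] at hqd
    have hc : q.coeff 0 ≠ 0 := by
      intro h3
      apply hq0
      rw [hqd, h3, C_0]
    have hu : IsUnit q := by
      rw [hqd]
      exact (isUnit_iff_ne_zero.mpr hc).map (C : ℝ →+* Rg n)
    rw [hq]
    exact (hu.mul_right_dvd).mpr dvd_rfl
  have h3 : (X a - X b : Rg n) ∣ X c - X d := hdvd.trans h2
  classical
  have h4 := map_dvd (rename (Function.update id b a) : Rg n →ₐ[ℝ] Rg n) h3
  rw [map_sub, map_sub, rename_X, rename_X, rename_X, rename_X, Function.update_self,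
    Function.update_of_ne hab, id, sub_self, zero_dvd_iff, sub_eq_zero] at h4
  have h5 := X_injective h4
  by_cases hcb : c = b
  · right
    refine ⟨hcb, ?_⟩
    rw [hcb, Function.update_self, Function.update_of_ne (by rw [← hcb]; exact hcd.symm), id] at h5
    exact h5.symm
  · rw [Function.update_of_ne hcb, id] at h5
    by_cases hdb : d = b
    · left
      rw [hdb, Function.update_self] at h5
      exact ⟨h5, hdb⟩
    · rw [Function.update_of_ne hdb, id] at h5
      exact absurd h5 hcd

/-- prime separator: avoids the prime `p` at `y`, kills every `w ≠ y` except possibly `t y` with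
`p ∣ α_t` -/
theorem exists_sep_prime {y : Pm n} (hy : InW κ y) (p : Rg n) (hp : Prime p) :
    ∃ (c : Pm n → Rg n) (N : ℕ), IsMult c ∧ ¬ p ∣ c y ∧ (∀ w, (c w).IsHomogeneous N) ∧
      ∀ w, InW κ w → w ≠ y →
        (∀ a b : Fin n, a < b → κ a = κ b → w = Equiv.swap a b * y → ¬ p ∣ (X a - X b : Rg n)) →
        c w = 0 := by
  classical
  set S : Finset (Pm n) := Finset.univ.filter fun w => InW κ w ∧ w ≠ y ∧
    ∀ a b : Fin n, a < b → κ a = κ b → w = Equiv.swap a b * y → ¬ p ∣ (X a - X b : Rg n) with hS
  obtain ⟨L, h1, h2⟩ := exists_sepL S y (fun f => ¬ p ∣ f)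
    (fun h => hp.not_isUnit (isUnit_of_dvd_one h))
    (fun f g hf hg h => (hp.dvd_or_dvd h).elim hf hg) (by
      intro w hw
      rw [hS, Finset.mem_filter] at hw
      obtain ⟨-, hwW, hwy, hex⟩ := hw
      by_contra hcon
      push Not at hcon
      obtain ⟨j, hj⟩ : ∃ j, y j ≠ w j := by
        by_contra h
        push Not at h
        exact hwy (Equiv.ext fun j => (h j).symm)
      have hk : κ (y j) = κ (w j) := by rw [hy j, hwW j]
      have hw_eq : w = Equiv.swap (y j) (w j) * y := by
        ext i
        rw [Equiv.Perm.mul_apply]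
        by_cases hi : y i = w i
        · have h3 : y i ≠ y j := by
            intro h
            have := y.injective h
            exact hj (by rw [← this, hi])
          have h4 : y i ≠ w j := by
            intro h
            rw [hi] at h
            have := w.injective h
            exact hj (by rw [← this, hi])
          rw [Equiv.swap_apply_of_ne_of_ne h3 h4, hi]
        · rcases cs_root_pair hp hj hi (hcon j) (hcon i) with ⟨h3, h4⟩ | ⟨h3, h4⟩
          · rw [h3, Equiv.swap_apply_left, h4]
          · rw [h3, Equiv.swap_apply_right, h4]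
      rcases lt_or_gt_of_ne hj with hlt | hlt
      · exact hex _ _ hlt hk hw_eq (hcon j)
      · refine hex _ _ hlt hk.symm (by rw [Equiv.swap_comm]; exact hw_eq) ?_
        have := hcon j
        rw [← neg_sub] at this
        exact (dvd_neg.mp this))
  refine ⟨sepL L, L.length, sepL_isMult L, h1, sepL_homog L, ?_⟩
  intro w hw hwy hex
  exact h2 w (by rw [hS, Finset.mem_filter]; exact ⟨Finset.mem_univ w, hw, hwy, hex⟩)

/-- the operator product `∏ (· x_j - x_a ·)` -/
noncomputable def opsL (O : Obj n) : List (Fin n × Fin n) → O.M → O.M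
  | [], m => m
  | q :: L, m => O.rmul (X q.1) (opsL O L m) - (X q.2 : Rg n) • opsL O L m

theorem opsL_val (O : Obj n) (L : List (Fin n × Fin n)) (m : O.M) (i : O.I) :
    (opsL O L m).1 i = sepL L (O.π i) * m.1 i := by
  induction L with
  | nil => rw [sepL_nil, one_mul]; rfl
  | cons q L ih =>
    have h1 : (opsL O (q :: L) m).1 i =
        X (O.π i q.1) * (opsL O L m).1 i - X q.2 * (opsL O L m).1 i := by
      change (O.rmul (X q.1) (opsL O L m) - (X q.2 : Rg n) • opsL O L m).1 i = _
      rw [Submodule.coe_sub, Pi.sub_apply, Obj.rmul_val, act_X]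
      rfl
    rw [h1, ih, sepL_cons]
    ring

theorem BiMap.opsL {O P : Obj n} {φ : O.M →ₗ[Rg n] P.M} (hφ : BiMap φ)
    (L : List (Fin n × Fin n)) (m : O.M) : φ (opsL O L m) = opsL P L (φ m) := by
  induction L with
  | nil => rfl
  | cons q L ih =>
    change φ (O.rmul (X q.1) (KLFin.opsL O L m) - (X q.2 : Rg n) • KLFin.opsL O L m) =
      P.rmul (X q.1) (KLFin.opsL P L (φ m)) - (X q.2 : Rg n) • KLFin.opsL P L (φ m)
    rw [map_sub, map_smul, hφ, ih]

/-- morphisms respect components -/
theorem BiMap.vanish {O P : Obj n} {φ : O.M →ₗ[Rg n] P.M} (hφ : BiMap φ) {y : Pm n} {m : O.M}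
    (hm : ∀ i, O.π i = y → m.1 i = 0) : ∀ i, P.π i = y → (φ m).1 i = 0 := by
  obtain ⟨L, h1, h2⟩ := exists_sepL_ne y
  have h3 : KLFin.opsL O L m = 0 := by
    ext1
    funext i
    rw [opsL_val]
    by_cases hi : O.π i = y
    · rw [hm i hi, mul_zero]; rfl
    · rw [h2 _ hi, zero_mul]; rfl
  have h4 := hφ.opsL L m
  rw [h3, map_zero] at h4
  intro i hi
  have h5 := opsL_val P L (φ m) i
  rw [← h4, hi] at h5
  have h6 : sepL L y * (φ m).1 i = 0 := h5.symm
  exact (mul_eq_zero.mp h6).resolve_left h1

end KLFin
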