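import Mathlib
import Pool.Agent.KLFin.CDefs2

/-!
# Part C, block CD: the Demazure operator (MP_d9d356_co)
-/

open MvPolynomial

namespace KLFin

variable {n : ℕ}

section CD

variable {s : Fin n × Fin n}

theorem cd_act_sw_sw (s : Fin n × Fin n) (f : Rg n) : act (sw s) (act (sw s) f) = f := by
  rw [← act_mul]
  have : sw s * sw s = 1 := by simp [sw]
  rw [this, act_one]

theorem al_dvd_sub (s : Fin n × Fin n) (f : Rg n) : al 1 s ∣ f - act (sw s) f := by
  induction f using MvPolynomial.induction_on with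
  | C a => simp
  | add p q hp hq =>
      have : p + q - act (sw s) (p + q) = (p - act (sw s) p) + (q - act (sw s) q) := by
        rw [map_add]; ring
      rw [this]
      exact dvd_add hp hq
  | mul_X p j hp =>
      have h1 : p * X j - act (sw s) (p * X j) =
          (p - act (sw s) p) * X j + act (sw s) p * (X j - X (sw s j)) := by
        rw [map_mul, act_X]; ring
      rw [h1]
      refine dvd_add (Dvd.dvd.mul_right hp _) (Dvd.dvd.mul_left ?_ _)
      by_cases ha : j = s.1
      · subst ha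
        refine ⟨1, ?_⟩
        simp [al, sw]
      · by_cases hb : j = s.2
        · subst hb
          refine ⟨-1, ?_⟩
          simp [al, sw]
        · have : sw s j = j := Equiv.swap_apply_of_ne_of_ne ha hb
          rw [this, sub_self]
          exact dvd_zero _

theorem cd_root_ne_zero {a b : Fin n} (h : a ≠ b) : (X a - X b : Rg n) ≠ 0 := by
  intro h0
  exact h (X_injective (sub_eq_zero.1 h0))

theorem al_ne_zero (hs : s.1 ≠ s.2) (y : Pm n) : al y s ≠ 0 :=
  cd_root_ne_zero fun h => hs (y.injective h)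

/-- the automorphism `x_a ↦ x_a + c x_b` -/
noncomputable def cd_shear (a b : Fin n) (c : Rg n) : Rg n →ₐ[ℝ] Rg n :=
  aeval (fun i => if i = a then X a + c * X b else X i)

theorem root_prime {a b : Fin n} (h : a ≠ b) : Prime (X a - X b : Rg n) := by
  have h1 : ((cd_shear a b 1).comp (cd_shear a b (-1)) : Rg n →ₐ[ℝ] Rg n) = AlgHom.id ℝ _ := by
    apply MvPolynomial.algHom_ext
    intro i
    by_cases hi : i = a
    · subst hi
      simp [cd_shear, h.symm]
    · simp [cd_shear, hi]
  have h2 : ((cd_shear a b (-1)).comp (cd_shear a b 1) : Rg n →ₐ[ℝ] Rg n) = AlgHom.id ℝ _ := by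
    apply MvPolynomial.algHom_ext
    intro i
    by_cases hi : i = a
    · subst hi
      simp [cd_shear, h.symm]
    · simp [cd_shear, hi]
  let e : Rg n ≃ₐ[ℝ] Rg n := AlgEquiv.ofAlgHom (cd_shear a b 1) (cd_shear a b (-1)) h1 h2
  have he : e (X a - X b) = X a := by
    show cd_shear a b 1 (X a - X b) = X a
    simp [cd_shear, h.symm]
  rw [← MulEquiv.prime_iff e (p := (X a - X b : Rg n)), he]
  exact X_prime

theorem al_prime (hs : s.1 ≠ s.2) : Prime (al 1 s : Rg n) := by
  simpa [al] using root_prime (n := n) hs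

/-- two roots are associated only if they are equal up to sign -/
theorem root_dvd_root {a b c d : Fin n} (_h : a ≠ b) (h' : c ≠ d)
    (hd : (X a - X b : Rg n) ∣ X c - X d) : (c = a ∧ d = b) ∨ (c = b ∧ d = a) := by
  obtain ⟨g, hg⟩ := hd
  have h1 := congrArg (rename (fun i => if i = a then b else i) : Rg n →ₐ[ℝ] Rg n) hg
  simp only [map_sub, map_mul, rename_X, if_true] at h1
  have h2 : (X (if b = a then b else b) : Rg n) = X b := by simp
  rw [h2, sub_self, zero_mul, sub_eq_zero] at h1
  have h3 := X_injective h1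
  by_cases hc : c = a
  · left
    refine ⟨hc, ?_⟩
    rw [if_pos hc] at h3
    by_cases hda : d = a
    · exact absurd (hc.trans hda.symm) h'
    · rw [if_neg hda] at h3
      exact h3.symm
  · rw [if_neg hc] at h3
    by_cases hda : d = a
    · right
      rw [if_pos hda] at h3
      exact ⟨h3, hda⟩
    · rw [if_neg hda] at h3
      exact absurd h3 h'

theorem dem_spec (s : Fin n × Fin n) (_hs : s.1 ≠ s.2) (f : Rg n) :
    al 1 s * dem s f = f - act (sw s) f := by
  unfold dem
  rw [dif_pos (al_dvd_sub s f)]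
  exact (al_dvd_sub s f).choose_spec.symm

theorem cd_dem_unique (hs : s.1 ≠ s.2) {f g : Rg n} (h : al 1 s * g = f - act (sw s) f) :
    dem s f = g :=
  mul_left_cancel₀ (al_ne_zero hs 1) ((dem_spec s hs f).trans h.symm)

theorem dem_add (hs : s.1 ≠ s.2) (f g : Rg n) : dem s (f + g) = dem s f + dem s g := by
  apply cd_dem_unique hs
  rw [mul_add, dem_spec s hs, dem_spec s hs, map_add]; ring

theorem dem_smul (hs : s.1 ≠ s.2) (c : ℝ) (f : Rg n) : dem s (c • f) = c • dem s f := by
  apply cd_dem_unique hs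
  rw [mul_smul_comm, dem_spec s hs, map_smul, smul_sub]

theorem dem_mul (hs : s.1 ≠ s.2) (f g : Rg n) :
    dem s (f * g) = dem s f * g + act (sw s) f * dem s g := by
  apply cd_dem_unique hs
  have h1 := dem_spec s hs f
  have h2 := dem_spec s hs g
  rw [map_mul]
  linear_combination g * h1 + act (sw s) f * h2

theorem dem_inv (hs : s.1 ≠ s.2) {f : Rg n} (hf : act (sw s) f = f) : dem s f = 0 := by
  apply cd_dem_unique hs
  rw [hf, sub_self, mul_zero]

theorem inv_of_dem (hs : s.1 ≠ s.2) {f : Rg n} (hf : dem s f = 0) : act (sw s) f = f := by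
  have h := dem_spec s hs f
  rw [hf, mul_zero] at h
  exact (sub_eq_zero.1 h.symm).symm

theorem dem_inv_mul (hs : s.1 ≠ s.2) {f : Rg n} (hf : act (sw s) f = f) (g : Rg n) :
    dem s (f * g) = f * dem s g := by
  rw [dem_mul hs, dem_inv hs hf, hf, zero_mul, zero_add]

theorem act_dem (hs : s.1 ≠ s.2) (f : Rg n) : act (sw s) (dem s f) = dem s f := by
  symm
  apply cd_dem_unique hs
  have h := congrArg (act (sw s)) (dem_spec s hs f)
  rw [map_mul, act_sw_al, map_sub, cd_act_sw_sw] at h
  linear_combination -h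

theorem dem_al (hs : s.1 ≠ s.2) : dem s (al 1 s) = 2 := by
  apply cd_dem_unique hs
  rw [act_sw_al]; ring

theorem dem_homog (hs : s.1 ≠ s.2) {f : Rg n} {k : ℕ} (hf : f.IsHomogeneous (k + 1)) :
    (dem s f).IsHomogeneous k := by
  have h1 : (al 1 s * dem s f).IsHomogeneous (k + 1) := by
    rw [dem_spec s hs]
    exact hf.sub (act_homog hf)
  have h2 : al 1 s * homogeneousComponent k (dem s f) = al 1 s * dem s f := by
    rw [← hcomp_mul_succ (al_homog 1 s), homogeneousComponent_of_mem h1, if_pos rfl]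
  have h3 := mul_left_cancel₀ (al_ne_zero hs 1) h2
  rw [← h3]
  exact homogeneousComponent_isHomogeneous _ _

theorem dem_homog0 (hs : s.1 ≠ s.2) {f : Rg n} (hf : f.IsHomogeneous 0) : dem s f = 0 := by
  have h1 : (al 1 s * dem s f).IsHomogeneous 0 := by
    rw [dem_spec s hs]
    exact hf.sub (act_homog hf)
  have h2 : homogeneousComponent 0 (al 1 s * dem s f) = 0 :=
    hcomp_mul_lt (al_homog 1 s) _ 0 (by norm_num)
  rw [homogeneousComponent_of_mem h1, if_pos rfl] at h2
  exact (mul_eq_zero.1 h2).resolve_left (al_ne_zero hs 1)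

/-- `f = u + v α` with invariant `u`, `v = ∂f/2` -/
theorem dem_decomp (hs : s.1 ≠ s.2) (f : Rg n) :
    ∃ u v : Rg n, act (sw s) u = u ∧ act (sw s) v = v ∧ f = u + v * al 1 s ∧
      v = C (1 / 2) * dem s f ∧ (∀ k, f.IsHomogeneous k → u.IsHomogeneous k) := by
  refine ⟨C (1 / 2) * (f + act (sw s) f), C (1 / 2) * dem s f, ?_, ?_, ?_, rfl, ?_⟩
  · rw [map_mul, act_C, map_add, cd_act_sw_sw, add_comm]
  · rw [map_mul, act_C, act_dem hs]
  · have h := dem_spec s hs f
    linear_combination (-f) * C_half_two (n := n) - C (1 / 2) * h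
  · intro k hk
    have h := (isHomogeneous_C (Fin n) (1 / 2 : ℝ)).mul (hk.add (act_homog (w := sw s) hk))
    simpa using h

theorem constantCoeff_dem_al_mul (hs : s.1 ≠ s.2) (f : Rg n) :
    constantCoeff (dem s (al 1 s * f)) = 2 * constantCoeff f := by
  rw [dem_mul hs, dem_al hs, act_sw_al]
  have h2 : (constantCoeff (2 : Rg n) : ℝ) = 2 := map_ofNat _ 2
  rw [map_add, map_mul, map_mul, h2]
  simp [al]

/-- positivity: `∂_s(y⁻¹ρ) = c_{y(s₁)} - c_{y(s₂)}` -/
theorem dem_act_rho (hs : s.1 ≠ s.2) (y : Pm n) :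
    dem s (act y⁻¹ (rho n)) = C ((y s.2 : ℝ) - (y s.1 : ℝ)) := by
  apply cd_dem_unique hs
  have h1 : act y⁻¹ (rho n) = ∑ j : Fin n, C (-((y j : ℕ) : ℝ)) * X j := by
    unfold rho
    rw [map_sum, ← Equiv.sum_comp y]
    refine Finset.sum_congr rfl fun j _ => ?_
    rw [map_mul, act_C, act_X]
    simp
  rw [h1, map_sum, ← Finset.sum_sub_distrib]
  have h2 : ∀ j : Fin n, C (-((y j : ℕ) : ℝ)) * X j -
      act (sw s) (C (-((y j : ℕ) : ℝ)) * X j) =
      C (-((y j : ℕ) : ℝ)) * (X j - X (sw s j)) := by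
    intro j
    rw [map_mul, act_C, act_X]; ring
  rw [Finset.sum_congr rfl fun j _ => h2 j]
  have h3 : ∑ j : Fin n, (C (-((y j : ℕ) : ℝ)) * (X j - X (sw s j)) : Rg n) =
      ∑ j ∈ ({s.1, s.2} : Finset (Fin n)), C (-((y j : ℕ) : ℝ)) * (X j - X (sw s j)) := by
    symm
    apply Finset.sum_subset (Finset.subset_univ _)
    intro j _ hj
    rw [Finset.mem_insert, Finset.mem_singleton, not_or] at hj
    have : sw s j = j := Equiv.swap_apply_of_ne_of_ne hj.1 hj.2
    rw [this, sub_self, mul_zero]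
  rw [h3, Finset.sum_pair hs]
  have e1 : sw s s.1 = s.2 := Equiv.swap_apply_left _ _
  have e2 : sw s s.2 = s.1 := Equiv.swap_apply_right _ _
  rw [e1, e2, C_sub, C_neg, C_neg]
  simp only [al, Equiv.Perm.coe_one, id_eq]
  ring

end CD

end KLFin
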