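import Mathlib
import Pool.Agent.KLFin.CDefs2
import Pool.Agent.KLFin.CD

/-!
# Block DI1: the diamond lemma (MP_d9d356_co)
-/

open MvPolynomial

namespace KLFin

variable {n : ℕ} {κ : Fin n → ℕ} {r : Pm n → Pm n → Prop}

namespace DI1

/-- In a graded free module, divisibility by two coprime primes. -/
theorem mem_of_coprime {I : Type} {N : Submodule (Rg n) (I → Rg n)} {p : Polynomial ℕ}
    (h : GF N p) {f g : Rg n} (hf : Prime f) (hfg : ¬ f ∣ g) {v : I → Rg n}
    (h1 : f • v ∈ N) (h2 : g • v ∈ N) : v ∈ N := by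
  obtain ⟨k, b, e, -, hlin, hspan, -⟩ := h
  rw [← hspan] at h1 h2 ⊢
  rw [Submodule.mem_span_range_iff_exists_fun] at h1 h2 ⊢
  obtain ⟨a, ha⟩ := h1
  obtain ⟨c, hc⟩ := h2
  have h3 : ∀ i, g * a i = f * c i := by
    have h4 : ∑ i, (g * a i - f * c i) • b i = 0 := by
      have e1 : ∑ i, (g * a i - f * c i) • b i = g • ∑ i, a i • b i - f • ∑ i, c i • b i := by
        rw [Finset.smul_sum, Finset.smul_sum, ← Finset.sum_sub_distrib]
        apply Finset.sum_congr rfl
        intro i _
        rw [sub_smul, mul_smul, mul_smul]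
      rw [e1, ha, hc, smul_comm, sub_self]
    intro i
    have h5 := Fintype.linearIndependent_iff.mp hlin _ h4 i
    exact sub_eq_zero.mp h5
  have h6 : ∀ i, f ∣ a i := by
    intro i
    have h7 : f ∣ g * a i := ⟨c i, h3 i⟩
    exact (hf.dvd_or_dvd h7).resolve_left hfg
  choose a' ha' using h6
  refine ⟨a', ?_⟩
  have h8 : f • (∑ i, a' i • b i - v) = 0 := by
    rw [smul_sub, ← ha, Finset.smul_sum, sub_eq_zero]
    apply Finset.sum_congr rfl
    intro i _
    rw [← mul_smul, ← ha' i]
  have h9 := (smul_eq_zero.mp h8).resolve_left hf.ne_zero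
  exact sub_eq_zero.mp h9

/-- Two different moved pairs. -/
theorem exists_two {y z : Pm n} (hyz : y ≠ z) (hne : ∀ a b : Fin n, z ≠ Equiv.swap a b * y) :
    ∃ j k : Fin n, y j ≠ z j ∧ y k ≠ z k ∧
      ¬ ((y k = y j ∧ z k = z j) ∨ (y k = z j ∧ z k = y j)) := by
  have h1 : ∃ j, y j ≠ z j := by
    by_contra h
    push Not at h
    exact hyz (Equiv.ext h)
  obtain ⟨j, hj⟩ := h1
  by_contra hcon
  push Not at hcon
  apply hne (y j) (z j)
  ext k
  rw [Equiv.Perm.mul_apply]
  by_cases hk : y k = z k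
  · have h2 : y k ≠ y j := by
      intro h
      have : k = j := y.injective h
      rw [this] at hk
      exact hj hk
    have h3 : y k ≠ z j := by
      intro h
      rw [hk] at h
      have : k = j := z.injective h
      rw [this] at hk
      exact hj hk
    rw [Equiv.swap_apply_of_ne_of_ne h2 h3, hk]
  · rcases hcon j k hj hk with ⟨h2, h3⟩ | ⟨h2, h3⟩
    · rw [h2, Equiv.swap_apply_left, h3]
    · rw [h2, Equiv.swap_apply_right, h3]

end DI1

open DI1

theorem diamond (hr : r = Up κ ∨ r = Dn κ) (O : Obj n) (hW : ∀ i, InW κ (O.π i))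
    {Ω : Set (Pm n)} {y z : Pm n} (hy : y ∉ Ω) (hz : z ∉ Ω) (hyz : y ≠ z)
    (hΩ : Low r Ω) (hΩy : Low r (insert y Ω)) (hΩz : Low r (insert z Ω))
    {p : Polynomial ℕ} (hF : GF ((O.sec (insert y Ω)).map (Obj.res O.π y)) p)
    {m : O.I → Rg n} (hm : m ∈ O.sec (insert y (insert z Ω))) :
    ∃ m₁ ∈ O.sec (insert y Ω), ∃ m₂ ∈ O.sec (insert z Ω), m = m₁ + m₂ := by
  have hmM : m ∈ O.M := hm.1
  have hms : ∀ i, O.π i ∉ insert y (insert z Ω) → m i = 0 := hm.2
  by_cases hyO : ∃ i, O.π i = y
  swap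
  · refine ⟨0, Submodule.zero_mem _, m, ⟨hmM, ?_⟩, (zero_add m).symm⟩
    intro i hi
    apply hms
    rw [Set.mem_insert_iff, not_or]
    exact ⟨fun h => hyO ⟨i, h⟩, hi⟩
  by_cases hzO : ∃ i, O.π i = z
  swap
  · refine ⟨m, ⟨hmM, ?_⟩, 0, Submodule.zero_mem _, (add_zero m).symm⟩
    intro i hi
    apply hms
    rw [Set.mem_insert_iff, not_or] at hi ⊢
    rw [Set.mem_insert_iff, not_or]
    exact ⟨hi.1, fun h => hzO ⟨i, h⟩, hi.2⟩
  have hyW : InW κ y := by obtain ⟨i, hi⟩ := hyO; rw [← hi]; exact hW i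
  have hzW : InW κ z := by obtain ⟨i, hi⟩ := hzO; rw [← hi]; exact hW i
  -- `z` is not `t y`
  have hne : ∀ a b : Fin n, z ≠ Equiv.swap a b * y := by
    have main : ∀ a b : Fin n, a < b → z ≠ Equiv.swap a b * y := by
      intro a b hab hzab
      have hκ : κ a = κ b := by
        have h0 : y (y⁻¹ a) = a := y.apply_symm_apply a
        have h1 := hzW (y⁻¹ a)
        rw [hzab, Equiv.Perm.mul_apply, h0, Equiv.swap_apply_left] at h1
        have h2 := hyW (y⁻¹ a)
        rw [h0] at h2
        rw [h1, h2]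
      have hcases : Up κ y z ∨ Up κ z y := by
        rcases lt_trichotomy (y⁻¹ a) (y⁻¹ b) with h | h | h
        · exact Or.inl ⟨a, b, hab, hκ, h, hzab⟩
        · exact absurd (y⁻¹.injective h) hab.ne
        · right
          refine ⟨a, b, hab, hκ, ?_, ?_⟩
          · rw [hzab, mul_inv_rev, Equiv.swap_inv, Equiv.Perm.mul_apply, Equiv.Perm.mul_apply,
              Equiv.swap_apply_left, Equiv.swap_apply_right]
            exact h
          · rw [hzab, ← mul_assoc, Equiv.swap_mul_self, one_mul]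
      have hup : ¬ r y z := by
        intro h
        have h1 := hΩz y z h (Set.mem_insert z Ω)
        rcases h1 with h1 | h1
        · exact hyz h1
        · exact hy h1
      have hdn : ¬ r z y := by
        intro h
        have h1 := hΩy z y h (Set.mem_insert y Ω)
        rcases h1 with h1 | h1
        · exact hyz h1.symm
        · exact hz h1
      rcases hr with rfl | rfl
      · rcases hcases with h | h
        · exact hup h
        · exact hdn h
      · rcases hcases with h | h
        · exact hdn h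
        · exact hup h
    intro a b
    rcases lt_trichotomy a b with h | h | h
    · exact main a b h
    · rw [h, Equiv.swap_self]
      intro h1
      apply hyz
      rw [h1]
      rfl
    · rw [Equiv.swap_comm]
      exact main b a h
  obtain ⟨j, k, hj, hk, hjk⟩ := exists_two hyz hne
  -- the difference operators
  have hstep : ∀ j : Fin n, (X (y j) - X (z j) : Rg n) • Obj.res O.π y m ∈
      (O.sec (insert y Ω)).map (Obj.res O.π y) := by
    intro j
    refine ⟨fun i => X (O.π i j) * m i - X (z j) * m i, ⟨?_, ?_⟩, ?_⟩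
    · exact O.M.sub_mem (O.right_mem m hmM j) (O.M.smul_mem (X (z j)) hmM)
    · intro i hi
      change X (O.π i j) * m i - X (z j) * m i = 0
      by_cases hiz : O.π i = z
      · rw [hiz, sub_self]
      · rw [Set.mem_insert_iff, not_or] at hi
        rw [hms i (by
          rw [Set.mem_insert_iff, not_or, Set.mem_insert_iff, not_or]
          exact ⟨hi.1, hiz, hi.2⟩), mul_zero, mul_zero, sub_self]
    · funext i
      simp only [Obj.res, LinearMap.coe_mk, AddHom.coe_mk, Pi.smul_apply, smul_eq_mul]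
      split_ifs with hi
      · rw [hi]; ring
      · rw [mul_zero]
  have hprime := root_prime (n := n) hj
  have hnd : ¬ (X (y j) - X (z j) : Rg n) ∣ X (y k) - X (z k) := by
    intro hd
    exact hjk (root_dvd_root hj hk hd)
  have hv := mem_of_coprime hF hprime hnd (hstep j) (hstep k)
  obtain ⟨m₁, hm₁, hres⟩ := hv
  refine ⟨m₁, hm₁, m - m₁, ⟨O.M.sub_mem hmM hm₁.1, ?_⟩, by abel⟩
  intro i hi
  rw [Pi.sub_apply]
  by_cases hiy : O.π i = y
  · have h1 := congrFun hres i
    simp only [Obj.res, LinearMap.coe_mk, AddHom.coe_mk, if_pos hiy] at h1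
    rw [h1, sub_self]
  · rw [hms i (by rw [Set.mem_insert_iff, not_or]; exact ⟨hiy, hi⟩),
      hm₁.2 i (by
        rw [Set.mem_insert_iff, not_or] at hi ⊢
        exact ⟨hiy, hi.2⟩), sub_self]

end KLFin
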