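import Pool.Agent.KLFin.CB2
import Pool.Agent.KLFin.DI1

/-!
Part C, block DI2 (MP_d9d356_co): independence of the local stalks.
-/

open MvPolynomial

namespace KLFin

variable {n : ℕ} {κ : Fin n → ℕ} {r : Pm n → Pm n → Prop}

theorem Obj.sec_mono (O : Obj n) {Ω Ω' : Set (Pm n)} (h : Ω ⊆ Ω') : O.sec Ω ≤ O.sec Ω' := by
  rintro m ⟨hm, hm'⟩
  exact ⟨hm, fun i hi => hm' i (fun hi' => hi (h hi'))⟩

theorem Le_subset_of_Low {y : Pm n} {Ω : Set (Pm n)} (hΩ : Low r Ω) (hy : y ∈ Ω) :
    Le r y ⊆ Ω := by
  intro z hz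
  induction hz using Relation.ReflTransGen.head_induction_on with
  | refl => exact hy
  | head h' _ ih => exact hΩ _ _ h' ih

theorem Dsub_indep (hr : r = Up κ ∨ r = Dn κ) (O : Obj n) (hW : ∀ i, InW κ (O.π i))
    {y : Pm n} {p : Polynomial ℕ} (hp : GF (O.Dsub r y) p) {Ω : Set (Pm n)} (hy : y ∉ Ω)
    (hΩ : Low r Ω) (hΩy : Low r (insert y Ω)) :
    (O.sec (insert y Ω)).map (Obj.res O.π y) = O.Dsub r y := by
  classical
  obtain ⟨ht, hht⟩ := exists_height (κ := κ) hr
  have hht' : ∀ a b, Relation.ReflTransGen r a b → ht a ≤ ht b := by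
    intro a b hab
    induction hab with
    | refl => exact le_rfl
    | tail _ h ih => exact ih.trans (hht _ _ h).le
  have hnocyc : ∀ a, r y a → Relation.ReflTransGen r a y → False := by
    intro a h1 h2
    have h3 := hht _ _ h1
    have h4 := hht' _ _ h2
    omega
  -- the set `{< y}`
  set Ω0 : Set (Pm n) := Le r y \ {y} with hΩ0
  have hLe : Le r y ⊆ insert y Ω := Le_subset_of_Low hΩy (Set.mem_insert _ _)
  have hins : insert y Ω0 = Le r y := by
    ext z
    constructor
    · rintro (rfl | hz)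
      · exact Relation.ReflTransGen.refl
      · exact hz.1
    · intro hz
      by_cases h : z = y
      · exact Or.inl h
      · exact Or.inr ⟨hz, h⟩
  have hlow0 : ∀ a b, r a b → b ∈ Ω0 → a ∈ Ω0 := by
    rintro a b hab ⟨hb, hby⟩
    refine ⟨Relation.ReflTransGen.head hab hb, ?_⟩
    rintro rfl
    exact hnocyc b hab hb
  -- induction on the number of further elements
  have key : ∀ (k : ℕ) (Ω : Set (Pm n)), (Ω \ Ω0).ncard = k → y ∉ Ω → Low r Ω →
      Low r (insert y Ω) → (O.sec (insert y Ω)).map (Obj.res O.π y) = O.Dsub r y := by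
    intro k
    induction k with
    | zero =>
      intro Ω hk hy hΩ hΩy
      have h1 : Ω \ Ω0 = ∅ := by
        rwa [Set.ncard_eq_zero (Set.toFinite _)] at hk
      have h2 : Ω ⊆ Ω0 := Set.sdiff_eq_empty.mp h1
      have h3 : Ω0 ⊆ Ω := by
        rintro z ⟨hz, hzy⟩
        exact (Le_subset_of_Low hΩy (Set.mem_insert _ _) hz).resolve_left hzy
      have h4 : Ω = Ω0 := Set.Subset.antisymm h2 h3
      rw [h4, hins]; rfl
    | succ k ih =>
      intro Ω hk hy hΩ hΩy
      have hne : (Ω \ Ω0).Nonempty := by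
        rw [← Set.ncard_pos (Set.toFinite _), hk]; omega
      obtain ⟨z, hz, hmax⟩ := Set.exists_max_image (Ω \ Ω0) ht (Set.toFinite _) hne
      have hzy : y ≠ z := by rintro rfl; exact hy hz.1
      have h3 : Ω0 ⊆ Ω := by
        rintro z ⟨hz, hzy⟩
        exact (Le_subset_of_Low hΩy (Set.mem_insert _ _) hz).resolve_left hzy
      set Ω' : Set (Pm n) := Ω \ {z} with hΩ'
      have hzΩ' : z ∉ Ω' := fun h => h.2 rfl
      have hinsz : insert z Ω' = Ω := by
        rw [hΩ', Set.insert_sdiff_singleton, Set.insert_eq_of_mem hz.1]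
      have hlow' : Low r Ω' := by
        rintro a b hab ⟨hb, hbz⟩
        refine ⟨hΩ _ _ hab hb, ?_⟩
        rintro rfl
        by_cases hb0 : b ∈ Ω0
        · exact hz.2 (hlow0 _ _ hab hb0)
        · have h5 := hmax b ⟨hb, hb0⟩
          have h6 := hht _ _ hab
          omega
      have hlowy' : Low r (insert y Ω') := by
        rintro a b hab (rfl | hb)
        · rcases hΩy a b hab (Set.mem_insert _ _) with h5 | h5
          · exact Or.inl h5
          · refine Or.inr ⟨h5, ?_⟩
            rintro rfl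
            exact hz.2 ⟨Relation.ReflTransGen.single hab, fun h6 => hzy h6.symm⟩
        · exact Or.inr (hlow' _ _ hab hb)
      have hcard : (Ω' \ Ω0).ncard = k := by
        have h5 : Ω' \ Ω0 = (Ω \ Ω0) \ {z} := by
          ext a
          constructor
          · rintro ⟨⟨h6, h7⟩, h8⟩
            exact ⟨⟨h6, h8⟩, h7⟩
          · rintro ⟨⟨h6, h8⟩, h7⟩
            exact ⟨⟨h6, h7⟩, h8⟩
        rw [h5, Set.ncard_sdiff_singleton_of_mem hz, hk, Nat.add_sub_cancel]
      have hy' : y ∉ Ω' := fun h => hy h.1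
      have hih := ih Ω' hcard hy' hlow' hlowy'
      have hsub : insert y Ω' ⊆ insert y Ω := Set.insert_subset_insert Set.sdiff_subset
      apply le_antisymm
      · rintro _ ⟨m, hm, rfl⟩
        have hm' : m ∈ O.sec (insert y (insert z Ω')) := by rw [hinsz]; exact hm
        obtain ⟨m₁, hm₁, m₂, hm₂, he⟩ := diamond (κ := κ) hr O hW hy' hzΩ' hzy hlow' hlowy'
          (by rw [hinsz]; exact hΩ) (by rw [hih]; exact hp) hm'
        rw [← hih]
        refine ⟨m₁, hm₁, ?_⟩
        have h7 : Obj.res O.π y m₂ = 0 := by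
          funext i
          change (if O.π i = y then m₂ i else 0) = 0
          split_ifs with h8
          · apply hm₂.2
            rw [h8]
            rintro (h9 | h9)
            · exact hzy h9
            · exact hy' h9
          · rfl
        rw [he, map_add, h7, add_zero]
      · rw [← hih]
        exact Submodule.map_mono (O.sec_mono hsub)
  exact key _ Ω rfl hy hΩ hΩy

end KLFin
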