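import Mathlib
import Pool.Agent.KLFin.CDefs2

/-!
# Graded submodules of function spaces (MP_d9d356_co, part C, section GF): the definition `Grd`
-/

open MvPolynomial

namespace KLFin

variable {n : ℕ}

/-- graded submodule -/
def Grd {I : Type} (N : Submodule (Rg n) (I → Rg n)) : Prop :=
  ∀ m ∈ N, ∀ d, (fun i => homogeneousComponent d (m i)) ∈ N

end KLFin
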