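import Mathlib
import Pool.Agent.KLFin.GFDefs

/-!
# Graded free submodules of function spaces (MP_d9d356_co, part C, section GF)
-/

open MvPolynomial

namespace KLFin

variable {n : ℕ}

/-! ### auxiliary lemmas -/

/-- components of a combination of homogeneous vectors -/
theorem GFaux.hc_comb {I ι : Type} [Fintype ι] {b : ι → (I → Rg n)} {e : ι → ℕ}
    (hb : ∀ i, Hg (e i) (b i)) (f : ι → Rg n) (d : ℕ) :
    (fun x => homogeneousComponent d ((∑ i, f i • b i) x)) =
      ∑ i, (if e i ≤ d then homogeneousComponent (d - e i) (f i) else 0) • b i := by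
  funext x
  simp only [Finset.sum_apply, Pi.smul_apply, smul_eq_mul, map_sum]
  refine Finset.sum_congr rfl fun i _ => ?_
  split_ifs with h
  · have := hcomp_mul_succ (hb i x) (f i) (d - e i)
    rw [Nat.sub_add_cancel h] at this
    rw [mul_comm (f i), this, mul_comm]
  · rw [mul_comm, hcomp_mul_lt (hb i x) (f i) d (by omega), zero_mul]

theorem GFaux.hc_self {I : Type} {m : I → Rg n} {d : ℕ} (hm : Hg d m) :
    (fun x => homogeneousComponent d (m x)) = m := by
  funext x
  rw [homogeneousComponent_of_mem (hm x), if_pos rfl]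

theorem GFaux.hc_ne {I : Type} {m : I → Rg n} {d d' : ℕ} (hm : Hg d m) (h : d ≠ d') :
    (fun x => homogeneousComponent d' (m x)) = 0 := by
  funext x
  rw [homogeneousComponent_of_mem (hm x), if_neg (by omega)]
  rfl

/-- the coefficients of a homogeneous vector are homogeneous -/
theorem GFaux.coef {I ι : Type} [Fintype ι] {b : ι → (I → Rg n)} {e : ι → ℕ}
    (hb : ∀ i, Hg (e i) (b i)) (hli : LinearIndependent (Rg n) b) {f : ι → Rg n} {d : ℕ}
    (hm : Hg d (∑ i, f i • b i)) (i : ι) :
    f i = if e i ≤ d then homogeneousComponent (d - e i) (f i) else 0 := by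
  have h := GFaux.hc_comb hb f d
  rw [GFaux.hc_self hm, ← sub_eq_zero, ← Finset.sum_sub_distrib] at h
  simp only [← sub_smul] at h
  have := Fintype.linearIndependent_iff.1 hli _ h i
  exact sub_eq_zero.1 this

theorem GFaux.coef_gt {I ι : Type} [Fintype ι] {b : ι → (I → Rg n)} {e : ι → ℕ}
    (hb : ∀ i, Hg (e i) (b i)) (hli : LinearIndependent (Rg n) b) {f : ι → Rg n} {d : ℕ}
    (hm : Hg d (∑ i, f i • b i)) (i : ι) (h : d < e i) : f i = 0 := by
  rw [GFaux.coef hb hli hm i, if_neg (by omega)]

theorem GFaux.coef_homog {I ι : Type} [Fintype ι] {b : ι → (I → Rg n)} {e : ι → ℕ}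
    (hb : ∀ i, Hg (e i) (b i)) (hli : LinearIndependent (Rg n) b) {f : ι → Rg n} {d : ℕ}
    (hm : Hg d (∑ i, f i • b i)) (i : ι) : (f i).IsHomogeneous (d - e i) := by
  rw [GFaux.coef hb hli hm i]
  split_ifs with h
  · exact homogeneousComponent_isHomogeneous _ _
  · exact isHomogeneous_zero _ _ _

theorem GFaux.constCoef {I ι : Type} [Fintype ι] {b : ι → (I → Rg n)} {e : ι → ℕ}
    (hb : ∀ i, Hg (e i) (b i)) (hli : LinearIndependent (Rg n) b) {f : ι → Rg n} {d : ℕ}
    (hm : Hg d (∑ i, f i • b i)) (i : ι) (h : e i ≠ d) : constantCoeff (f i) = 0 := by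
  rcases lt_or_ge d (e i) with h1 | h1
  · rw [GFaux.coef_gt hb hli hm i h1, map_zero]
  · have h2 := GFaux.coef_homog hb hli hm i
    by_contra h3
    have := h2 (d := 0) (by simpa [constantCoeff_eq] using h3)
    simp at this
    omega

theorem GFaux.coeff_sumX {ι : Type} [Fintype ι] (e : ι → ℕ) (d : ℕ) :
    (∑ i, (Polynomial.X : Polynomial ℕ) ^ (e i)).coeff d =
      Fintype.card {i // e i = d} := by
  classical
  simp only [Polynomial.finsetSum_coeff, Polynomial.coeff_X_pow, Fintype.card_subtype]
  rw [Finset.card_filter]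
  exact Finset.sum_congr rfl fun i _ => by simp [eq_comm]

theorem GFaux.of_fintype {I ι : Type} [Fintype ι] {N : Submodule (Rg n) (I → Rg n)}
    (b : ι → (I → Rg n)) (e : ι → ℕ) (hb : ∀ i, Hg (e i) (b i))
    (hli : LinearIndependent (Rg n) b) (hs : Submodule.span (Rg n) (Set.range b) = N) :
    GF N (∑ i, Polynomial.X ^ (e i)) := by
  classical
  let σ := (Fintype.equivFin ι).symm
  refine ⟨Fintype.card ι, b ∘ σ, e ∘ σ, fun i => hb _, hli.comp σ σ.injective, ?_, ?_⟩
  · rw [σ.surjective.range_comp]; exact hs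
  · exact (Equiv.sum_comp σ (fun i => (Polynomial.X : Polynomial ℕ) ^ (e i))).symm

theorem GFaux.hc_sum {I : Type} [Fintype I] (m : I → Rg n) :
    ∃ K : ℕ, ∀ K' ≥ K, m = ∑ d ∈ Finset.range K', (fun x => homogeneousComponent d (m x)) := by
  classical
  refine ⟨(Finset.univ.sup fun x => (m x).totalDegree) + 1, fun K' hK' => ?_⟩
  funext x
  rw [Finset.sum_apply]
  conv_lhs => rw [← sum_homogeneousComponent (m x)]
  refine Finset.sum_subset ?_ ?_
  · intro d hd
    simp only [Finset.mem_range] at *
    have h1 : (m x).totalDegree ≤ Finset.univ.sup fun x => (m x).totalDegree :=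
      Finset.le_sup (f := fun x => (m x).totalDegree) (Finset.mem_univ x)
    omega
  · intro d _ hd
    exact homogeneousComponent_eq_zero _ _ (by simpa using hd)

/-- degree preserving maps commute with taking components -/
theorem GFaux.hc_map {I J : Type} [Fintype I]
    (f : (I → Rg n) →ₗ[Rg n] (J → Rg n)) (hf : ∀ d m, Hg d m → Hg d (f m))
    (m : I → Rg n) (d : ℕ) :
    f (fun x => homogeneousComponent d (m x)) = fun y => homogeneousComponent d (f m y) := by
  classical
  obtain ⟨K, hK⟩ := GFaux.hc_sum m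
  have h := hK (max K (d + 1)) (le_max_left _ _)
  have h1 : f m = ∑ d' ∈ Finset.range (max K (d + 1)),
      f (fun x => homogeneousComponent d' (m x)) := by
    conv_lhs => rw [h]
    rw [map_sum]
  rw [h1]
  funext y
  rw [Finset.sum_apply, map_sum]
  have h2 : ∀ d' ∈ Finset.range (max K (d + 1)),
      homogeneousComponent d (f (fun x => homogeneousComponent d' (m x)) y) =
      if d' = d then f (fun x => homogeneousComponent d (m x)) y else 0 := by
    intro d' _
    have h3 : Hg d' (f (fun x => homogeneousComponent d' (m x))) :=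
      hf _ _ (fun x => homogeneousComponent_isHomogeneous _ _)
    rw [homogeneousComponent_of_mem (h3 y)]
    by_cases hd : d' = d
    · subst hd; simp
    · rw [if_neg (Ne.symm hd), if_neg hd]
  rw [Finset.sum_congr rfl h2, Finset.sum_ite_eq', if_pos]
  simp

/-! ### the statements -/

set_option linter.unusedSectionVars false

section GF

variable {I J : Type} [Fintype I] [Fintype J]

theorem GF.unique {N : Submodule (Rg n) (I → Rg n)} {p q : Polynomial ℕ} (hp : GF N p)
    (hq : GF N q) : p = q := by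
  classical
  obtain ⟨k, b, e, hb, hli, hs, rfl⟩ := hp
  obtain ⟨k', b', e', hb', hli', hs', rfl⟩ := hq
  have h1 : ∀ j, ∃ a : Fin k → Rg n, ∑ i, a i • b i = b' j := fun j =>
    (Submodule.mem_span_range_iff_exists_fun _).1
      (hs.symm ▸ hs' ▸ Submodule.subset_span ⟨j, rfl⟩ : b' j ∈ Submodule.span _ (Set.range b))
  have h2 : ∀ i, ∃ a : Fin k' → Rg n, ∑ j, a j • b' j = b i := fun i =>
    (Submodule.mem_span_range_iff_exists_fun _).1
      (hs'.symm ▸ hs ▸ Submodule.subset_span ⟨i, rfl⟩ : b i ∈ Submodule.span _ (Set.range b'))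
  choose a ha using h1
  choose a' ha' using h2
  have key : ∀ {k k' : ℕ} {b : Fin k → (I → Rg n)} {b' : Fin k' → (I → Rg n)}
      (_ : LinearIndependent (Rg n) b') {a : Fin k' → Fin k → Rg n} {a' : Fin k → Fin k' → Rg n}
      (_ : ∀ j, ∑ i, a j i • b i = b' j) (_ : ∀ i, ∑ j, a' i j • b' j = b i) (j l : Fin k'),
      ∑ i, constantCoeff (a j i) * constantCoeff (a' i l) = if j = l then 1 else 0 := by
    intro k k' b b' hli a a' h h' j l
    have h3 : ∑ l, ((∑ i, a j i * a' i l) - if j = l then 1 else 0) • b' l = 0 := by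
      simp only [sub_smul, Finset.sum_sub_distrib, Finset.sum_smul, ite_smul, one_smul, zero_smul,
        Finset.sum_ite_eq, Finset.mem_univ, if_true]
      rw [Finset.sum_comm, sub_eq_zero]
      conv_rhs => rw [← h j]
      refine Finset.sum_congr rfl fun i _ => ?_
      rw [← h' i, Finset.smul_sum]
      simp only [mul_smul]
    have h4 := Fintype.linearIndependent_iff.1 hli _ h3 l
    have h5 := congrArg constantCoeff (sub_eq_zero.1 h4)
    rw [map_sum] at h5
    simp only [map_mul] at h5
    rw [h5]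
    split_ifs <;> simp
  have k1 := key hli' ha ha'
  have k2 := key hli ha' ha
  have z1 : ∀ j i, e i ≠ e' j → constantCoeff (a j i) = 0 := fun j i h =>
    GFaux.constCoef hb hli (d := e' j) (by rw [ha j]; exact hb' j) i h
  have z2 : ∀ i j, e' j ≠ e i → constantCoeff (a' i j) = 0 := fun i j h =>
    GFaux.constCoef hb' hli' (d := e i) (by rw [ha' i]; exact hb i) j h
  ext d
  rw [GFaux.coeff_sumX, GFaux.coeff_sumX]
  let A : Matrix {j // e' j = d} {i // e i = d} ℝ := fun j i => constantCoeff (a j.1 i.1)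
  let B : Matrix {i // e i = d} {j // e' j = d} ℝ := fun i j => constantCoeff (a' i.1 j.1)
  have hAB : A * B = 1 := by
    ext j l
    rw [Matrix.mul_apply, Matrix.one_apply]
    have h3 := Finset.sum_subtype (F := inferInstance) (Finset.univ.filter (fun i => e i = d))
      (p := fun i => e i = d) (by simp) (fun i => constantCoeff (a j.1 i) * constantCoeff (a' i l.1))
    rw [Finset.sum_filter_of_ne, k1] at h3
    · change ∑ i : {i // e i = d}, constantCoeff (a j.1 i.1) * constantCoeff (a' i.1 l.1) = _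
      rw [← h3]
      simp [Subtype.ext_iff]
    · intro i _ hi
      by_contra hc
      exact hi (by rw [z1 j.1 i (by rw [j.2]; exact hc), zero_mul])
  have hBA : B * A = 1 := by
    ext i l
    rw [Matrix.mul_apply, Matrix.one_apply]
    have h3 := Finset.sum_subtype (F := inferInstance) (Finset.univ.filter (fun j => e' j = d))
      (p := fun j => e' j = d) (by simp) (fun j => constantCoeff (a' i.1 j) * constantCoeff (a j l.1))
    rw [Finset.sum_filter_of_ne, k2] at h3
    · change ∑ j : {j // e' j = d}, constantCoeff (a' i.1 j.1) * constantCoeff (a j.1 l.1) = _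
      rw [← h3]
      simp [Subtype.ext_iff]
    · intro j _ hj
      by_contra hc
      exact hj (by rw [z2 i.1 j (by rw [i.2]; exact hc), zero_mul])
  exact (Matrix.square_of_invertible A B hAB hBA).symm

theorem GF_bot : GF (⊥ : Submodule (Rg n) (I → Rg n)) 0 :=
  ⟨0, fun i => i.elim0, fun i => i.elim0, fun i => i.elim0, linearIndependent_empty_type,
    by simp, by simp⟩

theorem GF_zero {N : Submodule (Rg n) (I → Rg n)} (h : GF N 0) : N = ⊥ := by
  obtain ⟨k, b, e, hb, hli, hs, h0⟩ := h
  have h1 := congrArg (Polynomial.eval 1) h0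
  rw [Polynomial.eval_finsetSum] at h1
  simp at h1
  subst h1
  rw [← hs, Set.range_eq_empty, Submodule.span_empty]

theorem GF.grd {N : Submodule (Rg n) (I → Rg n)} {p : Polynomial ℕ} (h : GF N p) : Grd N := by
  obtain ⟨k, b, e, hb, hli, hs, rfl⟩ := h
  intro m hm d
  rw [← hs] at hm ⊢
  obtain ⟨c, rfl⟩ := (Submodule.mem_span_range_iff_exists_fun _).1 hm
  rw [GFaux.hc_comb hb c d]
  exact Submodule.sum_mem _ fun i _ => Submodule.smul_mem _ _ (Submodule.subset_span ⟨i, rfl⟩)

/-- extension of graded free by graded free -/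
theorem GF.ext {N : Submodule (Rg n) (I → Rg n)} (hN : Grd N)
    (f : (I → Rg n) →ₗ[Rg n] (J → Rg n)) (hf : ∀ d m, Hg d m → Hg d (f m))
    {p q : Polynomial ℕ} (h1 : GF (N ⊓ LinearMap.ker f) p) (h2 : GF (N.map f) q) :
    GF N (p + q) := by
  classical
  obtain ⟨k, b, e, hb, hli, hs, rfl⟩ := h1
  obtain ⟨k', b', e', hb', hli', hs', rfl⟩ := h2
  have h3 : ∀ j, ∃ c ∈ N, Hg (e' j) c ∧ f c = b' j := by
    intro j
    have : b' j ∈ N.map f := by rw [← hs']; exact Submodule.subset_span ⟨j, rfl⟩
    obtain ⟨m, hm, hfm⟩ := this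
    refine ⟨_, hN m hm (e' j), fun x => homogeneousComponent_isHomogeneous _ _, ?_⟩
    rw [GFaux.hc_map f hf, hfm, GFaux.hc_self (hb' j)]
  choose c hcN hcH hfc using h3
  have hbN : ∀ i, b i ∈ N ⊓ LinearMap.ker f := fun i => by
    rw [← hs]; exact Submodule.subset_span ⟨i, rfl⟩
  have hfb : ∀ i, f (b i) = 0 := fun i => (hbN i).2
  have := GFaux.of_fintype (N := N) (Sum.elim b c) (Sum.elim e e') ?_ ?_ ?_
  · rwa [Fintype.sum_sum_type] at this
  · rintro (i | j)
    · exact hb i
    · exact hcH j
  · rw [Fintype.linearIndependent_iff]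
    intro g hg
    rw [Fintype.sum_sum_type] at hg
    simp only [Sum.elim_inl, Sum.elim_inr] at hg
    have h4 := congrArg f hg
    simp only [map_add, map_sum, map_smul, hfb, hfc, smul_zero, Finset.sum_const_zero, zero_add,
      map_zero] at h4
    have h5 := Fintype.linearIndependent_iff.1 hli' _ h4
    simp only [h5, zero_smul, Finset.sum_const_zero, add_zero] at hg
    have h6 := Fintype.linearIndependent_iff.1 hli _ hg
    rintro (i | j)
    · exact h6 i
    · exact h5 j
  · apply le_antisymm
    · rw [Submodule.span_le]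
      rintro _ ⟨i | j, rfl⟩
      · exact (hbN i).1
      · exact hcN j
    · intro m hm
      have : f m ∈ N.map f := ⟨m, hm, rfl⟩
      rw [← hs'] at this
      obtain ⟨a, ha⟩ := (Submodule.mem_span_range_iff_exists_fun _).1 this
      have h7 : m - ∑ j, a j • c j ∈ N ⊓ LinearMap.ker f := by
        refine ⟨N.sub_mem hm (N.sum_mem fun j _ => N.smul_mem _ (hcN j)), ?_⟩
        change f (m - ∑ j, a j • c j) = 0
        rw [map_sub, map_sum]
        simp only [map_smul, hfc]
        rw [ha, sub_self]
      rw [← hs] at h7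
      have h8 : Submodule.span (Rg n) (Set.range b) ≤
          Submodule.span (Rg n) (Set.range (Sum.elim b c)) :=
        Submodule.span_mono (by rintro _ ⟨i, rfl⟩; exact ⟨Sum.inl i, rfl⟩)
      have h9 := Submodule.add_mem _ (h8 h7)
        (Submodule.sum_mem (Submodule.span (Rg n) (Set.range (Sum.elim b c)))
          (t := Finset.univ) (f := fun j => a j • c j)
          fun j _ => Submodule.smul_mem _ _ (Submodule.subset_span ⟨Sum.inr j, rfl⟩))
      simpa using h9

/-- transport along a degree preserving isomorphism; shift by `k` -/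
theorem GF.equiv {N : Submodule (Rg n) (I → Rg n)} {N' : Submodule (Rg n) (J → Rg n)}
    {p : Polynomial ℕ} (h : GF N p) (f : N ≃ₗ[Rg n] N') (k : ℕ)
    (hf : ∀ d, ∀ m : N, Hg d m.1 → Hg (d + k) (f m).1) : GF N' (Polynomial.X ^ k * p) := by
  obtain ⟨r, b, e, hb, hli, hs, rfl⟩ := h
  have hbN : ∀ i, b i ∈ N := fun i => by
    rw [← hs]; exact Submodule.subset_span ⟨i, rfl⟩
  let b0 : Fin r → N := fun i => ⟨b i, hbN i⟩
  have hli0 : LinearIndependent (Rg n) b0 := by
    apply LinearIndependent.of_comp N.subtype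
    exact hli
  have hs0 : Submodule.span (Rg n) (Set.range b0) = ⊤ := by
    apply Submodule.map_injective_of_injective N.subtype_injective
    rw [Submodule.map_span, ← Set.range_comp, Submodule.map_top, Submodule.range_subtype]
    exact hs
  refine ⟨r, fun i => (f (b0 i)).1, fun i => e i + k, fun i => hf _ _ (hb i), ?_, ?_, ?_⟩
  · have := (hli0.map' f.toLinearMap f.ker).map' N'.subtype N'.ker_subtype
    exact this
  · have : (fun i => (f (b0 i)).1) = N'.subtype ∘ f.toLinearMap ∘ b0 := rfl
    rw [this, Set.range_comp, Set.range_comp, ← Submodule.map_span, ← Submodule.map_span, hs0,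
      Submodule.map_top, LinearMap.range_eq_top.2 f.surjective, Submodule.map_top,
      Submodule.range_subtype]
  · rw [Finset.mul_sum]
    exact Finset.sum_congr rfl fun i _ => by rw [pow_add, mul_comm]

/-- an element of degree `d` needs a generator of degree `≤ d` -/
theorem GF.exists_le {N : Submodule (Rg n) (I → Rg n)} {p : Polynomial ℕ} (h : GF N p)
    {m : I → Rg n} (hm : m ∈ N) {d : ℕ} (hd : Hg d m) (h0 : m ≠ 0) :
    ∃ k ≤ d, p.coeff k ≠ 0 := by
  obtain ⟨r, b, e, hb, hli, hs, rfl⟩ := h
  rw [← hs] at hm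
  obtain ⟨f, rfl⟩ := (Submodule.mem_span_range_iff_exists_fun _).1 hm
  have : ∃ i, f i ≠ 0 := by
    by_contra hc
    push Not at hc
    exact h0 (by simp [hc])
  obtain ⟨i, hi⟩ := this
  refine ⟨e i, ?_, ?_⟩
  · by_contra hc
    exact hi (GFaux.coef_gt hb hli hd i (by omega))
  · rw [GFaux.coeff_sumX]
    have : Nonempty {j // e j = e i} := ⟨⟨i, rfl⟩⟩
    exact Fintype.card_ne_zero

/-- lowest degree part -/
theorem GF.lowest {N : Submodule (Rg n) (I → Rg n)} {p : Polynomial ℕ} (h : GF N p) {d : ℕ}
    (hlow : ∀ k < d, p.coeff k = 0) :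
    ∃ v : Fin (p.coeff d) → (I → Rg n), (∀ i, v i ∈ N ∧ Hg d (v i)) ∧ LinearIndependent ℝ v ∧
      ∀ m ∈ N, Hg d m → m ∈ Submodule.span ℝ (Set.range v) := by
  classical
  obtain ⟨r, b, e, hb, hli, hs, rfl⟩ := h
  have he : ∀ i, d ≤ e i := by
    intro i
    by_contra hc
    have h1 := hlow (e i) (by omega)
    rw [GFaux.coeff_sumX] at h1
    have : Nonempty {j // e j = e i} := ⟨⟨i, rfl⟩⟩
    exact Fintype.card_ne_zero h1
  let σ : Fin ((∑ i, (Polynomial.X : Polynomial ℕ) ^ (e i)).coeff d) ≃ {i // e i = d} :=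
    (finCongr (GFaux.coeff_sumX e d)).trans (Fintype.equivFin _).symm
  have hbN : ∀ i, b i ∈ N := fun i => by
    rw [← hs]; exact Submodule.subset_span ⟨i, rfl⟩
  refine ⟨fun i => b (σ i).1, fun i => ⟨hbN _, ?_⟩, ?_, ?_⟩
  · have := hb (σ i).1
    rwa [(σ i).2] at this
  · have h1 : LinearIndependent ℝ b := by
      apply hli.restrict_scalars
      intro a c hac
      simpa [MvPolynomial.smul_eq_C_mul] using hac
    exact h1.comp (fun i => (σ i).1) (Subtype.val_injective.comp σ.injective)
  · intro m hm hd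
    rw [← hs] at hm
    obtain ⟨f, rfl⟩ := (Submodule.mem_span_range_iff_exists_fun _).1 hm
    refine Submodule.sum_mem _ fun i _ => ?_
    rcases (he i).lt_or_eq with h1 | h1
    · rw [GFaux.coef_gt hb hli hd i h1, zero_smul]
      exact Submodule.zero_mem _
    · have h2 := GFaux.coef_homog hb hli hd i
      rw [← h1, Nat.sub_self] at h2
      have h3 : f i = C (coeff 0 (f i)) := by
        rw [← homogeneousComponent_zero, homogeneousComponent_of_mem h2, if_pos rfl]
      rw [h3]
      have h4 : (C (coeff 0 (f i)) : Rg n) • b i = (coeff 0 (f i)) • b i := by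
        funext x
        simp [MvPolynomial.smul_eq_C_mul]
      rw [h4]
      refine Submodule.smul_mem _ _ (Submodule.subset_span ⟨σ.symm ⟨i, h1.symm⟩, ?_⟩)
      simp

end GF

end KLFin
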