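import Mathlib
import Pool.Agent.KLFin.CDefs2
import Pool.Agent.KLFin.CB1
import Pool.Agent.KLFin.CD
import Pool.Agent.KLFin.CE1
import Pool.Agent.KLFin.CS

/-!
# Part C, block NI1: the condition (star) for `θ_s O` (MP_d9d356_co)
-/

open MvPolynomial

namespace KLFin

variable {n : ℕ} {κ : Fin n → ℕ}

theorem NI1.swap_unique {a b c d : Fin n} (hab : a < b) (hcd : c < d)
    (h : (Equiv.swap a b : Pm n) = Equiv.swap c d) : c = a ∧ d = b := by
  have h1 : Equiv.swap c d a = b := by rw [← h]; simp
  have h2 : Equiv.swap c d b = a := by rw [← h]; simp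
  by_cases hc : a = c
  · subst hc
    simp at h1
    exact ⟨rfl, h1⟩
  · by_cases hd : a = d
    · subst hd
      simp at h1
      subst h1
      exact absurd hab (not_lt.mpr hcd.le)
    · rw [Equiv.swap_apply_of_ne_of_ne hc hd] at h1
      exact absurd h1 hab.ne

theorem NI1.star_theta_aux_mul {α p c : Rg n} (hα : Prime α) (hp : ¬ α ∣ p) (hc : ¬ α ∣ c) :
    ¬ α ∣ p * c := fun h => (hα.dvd_or_dvd h).elim hp hc

theorem star_theta {O : Obj n} (h : Nice κ O) {s : Fin n × Fin n} (hs : Smp κ s) :
    ∀ a b : Fin n, a < b → κ a = κ b → ∀ x : Pm n, x⁻¹ a < x⁻¹ b →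
    ∀ u ∈ (theta s O).M, (∀ i, (theta s O).π i = x → u i = 0) →
      ∃ p : Rg n, ¬ ((X a - X b : Rg n) ∣ p) ∧ ∃ v ∈ (theta s O).M,
        ∀ i, (theta s O).π i = Equiv.swap a b * x → p * u i = (X a - X b) * v i := by
  intro a b hab hk x hx u hu hux
  have hα : Prime (X a - X b : Rg n) := root_prime hab.ne
  have hα1 : ¬ (X a - X b : Rg n) ∣ 1 := hα.not_dvd_one
  by_cases hxW : InW κ x
  swap
  · -- no component over `t x`
    refine ⟨1, hα1, 0, Submodule.zero_mem _, ?_⟩
    intro i hi
    exfalso
    apply hxW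
    have h1 : InW κ ((theta s O).π i) := by
      change InW κ (if i.2 then O.π i.1 * sw s else O.π i.1)
      split_ifs
      · exact (h.inW _).mul hs.inW
      · exact h.inW _
    rw [hi] at h1
    have h2 : x = Equiv.swap a b * (Equiv.swap a b * x) := by
      rw [← mul_assoc, Equiv.swap_mul_self, one_mul]
    rw [h2]
    exact (InW_swap hk).mul h1
  obtain ⟨A, B, hAB⟩ := el_surj (⟨u, hu⟩ : (theta s O).M)
  have hval : ∀ p : (theta s O).I, u p = A.1 p.1 + al ((theta s O).π p) s * B.1 p.1 := by
    intro p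
    have h1 : u p = (el s A B).1 p := by rw [← hAB]
    rw [h1, el_val]
  -- relation over `x` and `x s`
  have hrel : ∀ i, (O.π i = x ∨ O.π i = x * sw s) → A.1 i + al x s * B.1 i = 0 := by
    intro i hi
    rcases hi with hi | hi
    · have h1 := hval (i, false)
      have h2 : (theta s O).π (i, false) = x := by
        change (if false = true then O.π i * sw s else O.π i) = x
        simpa using hi
      rw [hux _ h2, h2] at h1
      exact h1.symm
    · have h1 := hval (i, true)
      have h2 : (theta s O).π (i, true) = x := by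
        change (if true = true then O.π i * sw s else O.π i) = x
        simp [hi, mul_assoc, sw_mul_sw]
      rw [hux _ h2, h2] at h1
      exact h1.symm
  -- components over `t x`
  have hcomp : ∀ p : (theta s O).I, (theta s O).π p = Equiv.swap a b * x →
      O.π p.1 = Equiv.swap a b * x ∨ O.π p.1 = Equiv.swap a b * x * sw s := by
    intro p hp
    have h1 : (if p.2 then O.π p.1 * sw s else O.π p.1) = Equiv.swap a b * x := hp
    by_cases h2 : p.2 = true
    · rw [if_pos h2] at h1
      right
      rw [← h1, mul_assoc, sw_mul_sw, mul_one]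
    · rw [if_neg h2] at h1
      left; exact h1
  by_cases hcase : Equiv.swap a b * x = x * sw s
  · -- `t x = x s`
    refine ⟨1, hα1, (el s ((-2 : Rg n) • B) 0).1, (el s _ _).2, ?_⟩
    intro p hp
    have hsw : Equiv.swap a b = Equiv.swap (x s.1) (x s.2) := by
      have h1 : Equiv.swap a b = x * sw s * x⁻¹ := by
        rw [← hcase, mul_assoc, mul_inv_cancel, mul_one]
      rw [h1]
      exact (Equiv.swap_apply_apply x s.1 s.2).symm
    have hlt : x s.1 < x s.2 := by
      rw [← up_sw_iff hxW hs, ← hcase]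
      exact ⟨a, b, hab, hk, hx, rfl⟩
    obtain ⟨h1, h2⟩ := NI1.swap_unique hab hlt hsw
    have hal : al x s = X a - X b := by rw [al, h1, h2]
    have h3 : al (Equiv.swap a b * x) s = - al x s := by rw [hcase, al_mul_sw]
    have h4 : A.1 p.1 + al x s * B.1 p.1 = 0 := by
      apply hrel
      rcases hcomp p hp with h5 | h5
      · right; rw [h5, hcase]
      · left; rw [h5, hcase, mul_assoc, sw_mul_sw, mul_one]
    rw [el_val, hval p, hp, h3, ← hal]
    have h6 : (((-2 : Rg n) • B : O.M)).1 p.1 = -2 * B.1 p.1 := rfl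
    have h7 : ((0 : O.M)).1 p.1 = 0 := rfl
    rw [h6, h7]
    linear_combination h4
  · -- `t x ≠ x s`
    have hup : Up κ x (Equiv.swap a b * x) := ⟨a, b, hab, hk, hx, rfl⟩
    have hup' : Up κ (x * sw s) (Equiv.swap a b * x * sw s) := hup.crossing hxW hs hcase
    have hxs : (x * sw s)⁻¹ a < (x * sw s)⁻¹ b := by
      obtain ⟨a', b', hab', hk', hlt', heq⟩ := hup'
      have h1 : (Equiv.swap a b : Pm n) = Equiv.swap a' b' := by
        rw [mul_assoc] at heq
        exact mul_right_cancel heq
      obtain ⟨h2, h3⟩ := NI1.swap_unique hab hab' h1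
      rw [h2, h3] at hlt'
      exact hlt'
    set g : O.M := A + al x s • B with hg
    have hgi : ∀ i, g.1 i = A.1 i + al x s * B.1 i := fun i => rfl
    obtain ⟨p1, hp1, v1, hv1, hv1'⟩ := h.star a b hab hk x hx g.1 g.2
      (fun i hi => by rw [hgi]; exact hrel i (Or.inl hi))
    obtain ⟨p2, hp2, v2, hv2, hv2'⟩ := h.star a b hab hk (x * sw s) hxs g.1 g.2
      (fun i hi => by rw [hgi]; exact hrel i (Or.inr hi))
    have htxW : InW κ (Equiv.swap a b * x) := (InW_swap hk).mul hxW
    have htxsW : InW κ (Equiv.swap a b * x * sw s) := htxW.mul hs.inW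
    have htt : (Equiv.swap a b : Pm n) * Equiv.swap a b = 1 := Equiv.swap_mul_self a b
    have hss : (sw s : Pm n) ≠ 1 := by
      intro h1
      have h2 : sw s s.1 = s.1 := by rw [h1]; rfl
      rw [sw, Equiv.swap_apply_left] at h2
      exact absurd h2 hs.1.ne'
    have hne : Equiv.swap a b * x * sw s ≠ Equiv.swap a b * x := by
      intro h1
      apply hss
      exact mul_left_cancel (h1.trans (mul_one _).symm)
    obtain ⟨c1, -, hc1m, hc1, -, hc1z⟩ := exists_sep_prime htxW (X a - X b : Rg n) hα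
    obtain ⟨c2, -, hc2m, hc2, -, hc2z⟩ := exists_sep_prime htxsW (X a - X b : Rg n) hα
    have hc1s : c1 (Equiv.swap a b * x * sw s) = 0 := by
      apply hc1z _ htxsW hne
      intro a' b' hab' hk' heq hdvd
      rcases root_dvd_root hab.ne hab'.ne hdvd with ⟨h1, h2⟩ | ⟨h1, h2⟩
      · subst h1; subst h2
        rw [← mul_assoc, htt, one_mul] at heq
        apply hcase
        calc _ = _ * x * sw s * sw s := by rw [mul_assoc _ (sw s), sw_mul_sw, mul_one]
          _ = x * sw s := by rw [heq]
      · subst h1; subst h2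
        exact absurd hab (not_lt.mpr hab'.le)
    have hc2s : c2 (Equiv.swap a b * x) = 0 := by
      apply hc2z _ htxW hne.symm
      intro a' b' hab' hk' heq hdvd
      rcases root_dvd_root hab.ne hab'.ne hdvd with ⟨h1, h2⟩ | ⟨h1, h2⟩
      · subst h1; subst h2
        apply hcase
        rw [heq, mul_assoc _ x, ← mul_assoc _ _ (x * sw s), htt, one_mul]
      · subst h1; subst h2
        exact absurd hab (not_lt.mpr hab'.le)
    -- `al x s - al (t x) s` is a multiple of the root
    obtain ⟨q, hq⟩ : (X a - X b : Rg n) ∣ al x s - al (Equiv.swap a b * x) s := by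
      have h1 := al_dvd_sub (a, b) (al x s)
      have h2 : (al 1 (a, b) : Rg n) = X a - X b := by simp [al]
      have h3 : act (sw (a, b)) (al x s) = al (Equiv.swap a b * x) s := by
        rw [al_eq_act x, ← act_mul, ← al_eq_act]; rfl
      rw [h2, h3] at h1
      exact h1
    set p : Rg n := p1 * p2 * c1 (Equiv.swap a b * x) * c2 (Equiv.swap a b * x * sw s) with hp
    have hpα : ¬ (X a - X b : Rg n) ∣ p :=
      NI1.star_theta_aux_mul hα (NI1.star_theta_aux_mul hα (NI1.star_theta_aux_mul hα hp1 hp2) hc1) hc2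
    let w1 : O.M := ⟨fun i => c1 (O.π i) * v1 i, hc1m O v1 hv1⟩
    let w2 : O.M := ⟨fun i => c2 (O.π i) * v2 i, hc2m O v2 hv2⟩
    let v' : O.M := (p2 * c2 (Equiv.swap a b * x * sw s)) • w1 +
      (p1 * c1 (Equiv.swap a b * x)) • w2
    have hv' : ∀ i, v'.1 i = (p2 * c2 (Equiv.swap a b * x * sw s)) * (c1 (O.π i) * v1 i) +
      (p1 * c1 (Equiv.swap a b * x)) * (c2 (O.π i) * v2 i) := fun i => rfl
    have hkey : ∀ i, (O.π i = Equiv.swap a b * x ∨ O.π i = Equiv.swap a b * x * sw s) →
        p * g.1 i = (X a - X b) * v'.1 i := by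
      intro i hi
      rcases hi with hi | hi
      · have h1 := hv1' i hi
        rw [hv', hi, hc2s, hp]
        linear_combination (p2 * c1 (Equiv.swap a b * x) *
          c2 (Equiv.swap a b * x * sw s)) * h1
      · have h1 := hv2' i (by rw [hi, mul_assoc])
        rw [hv', hi, hc1s, hp]
        linear_combination (p1 * c1 (Equiv.swap a b * x) *
          c2 (Equiv.swap a b * x * sw s)) * h1
    refine ⟨p, hpα, (el s (v' - (p * q) • B) 0).1, (el s _ _).2, ?_⟩
    intro i hi
    have h1 := hkey i.1 (hcomp i hi)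
    rw [el_val, hval i, hi]
    have h6 : ((v' - (p * q) • B : O.M)).1 i.1 = v'.1 i.1 - (p * q) * B.1 i.1 := rfl
    have h7 : ((0 : O.M)).1 i.1 = 0 := rfl
    rw [h6, h7]
    rw [hgi] at h1
    linear_combination h1 - p * B.1 i.1 * hq

end KLFin
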