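import Mathlib
import Pool.Agent.KLFin.CB1
import Pool.Agent.KLFin.CB2
import Pool.Agent.KLFin.CD
import Pool.Agent.KLFin.GF1
import Pool.Agent.KLFin.DI1
import Pool.Agent.KLFin.DI2

/-!
# ST1: structure theorem for `θ_s` (MP_d9d356_co, part C)
-/

open MvPolynomial

namespace KLFin

variable {n : ℕ} {κ : Fin n → ℕ} {r : Pm n → Pm n → Prop}

namespace ST1

/-- transport along a map which is injective on `N` -/
theorem GF_mapInj {I J : Type} [Fintype I] [Fintype J] {N : Submodule (Rg n) (I → Rg n)}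
    {p : Polynomial ℕ} (h : GF N p) (T : (I → Rg n) →ₗ[Rg n] (J → Rg n)) (k : ℕ)
    (hinj : ∀ m ∈ N, T m = 0 → m = 0) (hdeg : ∀ d m, Hg d m → Hg (d + k) (T m)) :
    GF (N.map T) (Polynomial.X ^ k * p) := by
  have hi : Function.Injective (T.domRestrict N) := by
    rw [← LinearMap.ker_eq_bot, LinearMap.ker_eq_bot']
    intro m hm
    exact Subtype.ext (hinj m.1 m.2 hm)
  have hr : LinearMap.range (T.domRestrict N) = N.map T := by
    ext v
    constructor
    · rintro ⟨m, rfl⟩; exact ⟨m.1, m.2, rfl⟩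
    · rintro ⟨m, hm, rfl⟩; exact ⟨⟨m, hm⟩, rfl⟩
  have e := LinearEquiv.ofInjective (T.domRestrict N) hi
  rw [← hr]
  refine GF.equiv h (LinearEquiv.ofInjective (T.domRestrict N) hi) k ?_
  intro d m hm
  exact hdeg d m.1 hm

/-- restriction to the components over `y` and `z` -/
noncomputable def res2 {I : Type} (π : I → Pm n) (y z : Pm n) :
    (I → Rg n) →ₗ[Rg n] (I → Rg n) where
  toFun m i := if π i = y ∨ π i = z then m i else 0
  map_add' a b := by funext i; by_cases h : π i = y ∨ π i = z <;> simp [h]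
  map_smul' c a := by funext i; by_cases h : π i = y ∨ π i = z <;> simp [h]

theorem res_apply {I : Type} (π : I → Pm n) (y : Pm n) (m : I → Rg n) (i : I) :
    Obj.res π y m i = if π i = y then m i else 0 := rfl

theorem res2_apply {I : Type} (π : I → Pm n) (y z : Pm n) (m : I → Rg n) (i : I) :
    res2 π y z m i = if π i = y ∨ π i = z then m i else 0 := rfl

theorem mem_sec {O : Obj n} {Ω : Set (Pm n)} {m : O.I → Rg n} :
    m ∈ O.sec Ω ↔ m ∈ O.M ∧ ∀ i, O.π i ∉ Ω → m i = 0 := Iff.rfl

theorem sec_mono {O : Obj n} {Ω Ω' : Set (Pm n)} (h : Ω ⊆ Ω') : O.sec Ω ≤ O.sec Ω' := by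
  intro m hm
  exact ⟨hm.1, fun i hi => hm.2 i (fun h' => hi (h h'))⟩

/-! ### order facts for `y < y s` -/

theorem Le_self (r : Pm n → Pm n → Prop) (y : Pm n) : y ∈ Le r y := Relation.ReflTransGen.refl

theorem Le_trans {x y z : Pm n} (h : x ∈ Le r y) (h' : y ∈ Le r z) : x ∈ Le r z :=
  Relation.ReflTransGen.trans h h'

theorem Le_height {h : Pm n → ℕ} (hh : ∀ y z, r y z → h y < h z) {x y : Pm n}
    (hx : x ∈ Le r y) : h x ≤ h y ∧ (h x = h y → x = y) := by
  have hx' : Relation.ReflTransGen r x y := hx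
  induction hx' with
  | refl => exact ⟨le_rfl, fun _ => rfl⟩
  | tail hab hbc ih =>
    have h1 := ih hab
    have h2 := hh _ _ hbc
    exact ⟨by omega, fun h3 => by omega⟩

/-- a height function with the covering property -/
theorem exists_height2 (hr : r = Up κ ∨ r = Dn κ) {y : Pm n} (hy : InW κ y) {s : Fin n × Fin n}
    (hs : Smp κ s) (h : r y (y * sw s)) :
    ∃ H : Pm n → ℤ, (∀ a b, r a b → H a < H b) ∧ H (y * sw s) = H y + 1 := by
  rcases hr with rfl | rfl
  · refine ⟨fun z => (len κ z : ℤ), fun a b hab => ?_, ?_⟩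
    · have := hab.len_lt
      simp only
      omega
    · have := len_mul_sw hy hs h
      simp only
      omega
  · refine ⟨fun z => -(len κ z : ℤ), fun a b hab => ?_, ?_⟩
    · have h1 : Up κ b a := hab
      have := h1.len_lt
      simp only
      omega
    · have h1 : Up κ (y * sw s) y := h
      have hw : InW κ (y * sw s) := hy.mul hs.inW
      have h2 : y * sw s * sw s = y := by rw [mul_assoc, sw_mul_sw, mul_one]
      have h3 := len_mul_sw hw hs (by rw [h2]; exact h1)
      rw [h2] at h3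
      simp only
      omega

theorem Le_heightZ {H : Pm n → ℤ} (hh : ∀ y z, r y z → H y < H z) {x y : Pm n}
    (hx : x ∈ Le r y) : H x ≤ H y ∧ (H x = H y → x = y) := by
  have hx' : Relation.ReflTransGen r x y := hx
  induction hx' with
  | refl => exact ⟨le_rfl, fun _ => rfl⟩
  | tail hab hbc ih =>
    have h1 := ih hab
    have h2 := hh _ _ hbc
    exact ⟨by omega, fun h3 => by omega⟩

section

variable {y : Pm n} {s : Fin n × Fin n}

theorem mul_sw_sw (y : Pm n) (s : Fin n × Fin n) : y * sw s * sw s = y := by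
  rw [mul_assoc, sw_mul_sw, mul_one]

/-- `{≤ y s} ∖ {y, y s}` and `{≤ y s} ∖ {y s}` are lower sets -/
theorem low_facts (hr : r = Up κ ∨ r = Dn κ) (hy : InW κ y) (hs : Smp κ s)
    (h : r y (y * sw s)) :
    y ≠ y * sw s ∧ Low r (Le r (y * sw s) \ {y, y * sw s}) ∧
    insert y (Le r (y * sw s) \ {y, y * sw s}) = Le r (y * sw s) \ {y * sw s} ∧
    Low r (Le r (y * sw s) \ {y * sw s}) := by
  obtain ⟨H, hH, hHy⟩ := exists_height2 hr hy hs h
  have hne : y ≠ y * sw s := by
    intro h1
    rw [← h1] at hHy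
    omega
  have hyle : y ∈ Le r (y * sw s) := Relation.ReflTransGen.single h
  have hL := Low_Le r (y * sw s)
  refine ⟨hne, ?_, ?_, ?_⟩
  · intro a b hab hb
    have hb1 : b ∈ Le r (y * sw s) := hb.1
    have hb2 : b ≠ y ∧ b ≠ y * sw s := by
      constructor
      · intro h1; exact hb.2 (by simp [h1])
      · intro h1; exact hb.2 (by simp [h1])
    have h1 := hH a b hab
    have h2 := Le_heightZ hH hb1
    have h3 : H b < H (y * sw s) := lt_of_le_of_ne h2.1 (fun h4 => hb2.2 (h2.2 h4))
    refine ⟨hL a b hab hb1, ?_⟩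
    rintro (rfl | h4)
    · omega
    · rw [Set.mem_singleton_iff] at h4
      rw [h4] at h1; omega
  · ext z
    simp only [Set.mem_insert_iff, Set.mem_sdiff, Set.mem_singleton_iff, not_or]
    constructor
    · rintro (rfl | ⟨h1, h2, h3⟩)
      · exact ⟨hyle, hne⟩
      · exact ⟨h1, h3⟩
    · rintro ⟨h1, h2⟩
      by_cases h3 : z = y
      · exact Or.inl h3
      · exact Or.inr ⟨h1, h3, h2⟩
  · intro a b hab hb
    have h1 := hH a b hab
    have h2 := Le_heightZ hH hb.1
    refine ⟨hL a b hab hb.1, ?_⟩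
    intro h4
    rw [Set.mem_singleton_iff] at h4
    rw [h4] at h1; omega

/-- `{≤ y s}` is right `s`-stable -/
theorem Lam_stable (hr : r = Up κ ∨ r = Dn κ) (hy : InW κ y) (hs : Smp κ s)
    (h : r y (y * sw s)) {z : Pm n} : z * sw s ∈ Le r (y * sw s) ↔ z ∈ Le r (y * sw s) := by
  have hw : InW κ (y * sw s) := hy.mul hs.inW
  have key : ∀ z, z ∈ Le r (y * sw s) → z * sw s ∈ Le r (y * sw s) := by
    intro z hz
    exact Le_mul_sw hr hw hs (by rw [mul_sw_sw]; exact h) hz
  constructor
  · intro hz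
    have := key _ hz
    rwa [mul_sw_sw] at this
  · exact key z

/-! ### the module `Q` -/

/-- values over `{y, y s}` of the sections on `{≤ y s}` -/
noncomputable def Qm (r : Pm n → Pm n → Prop) (O : Obj n) (s : Fin n × Fin n) (y : Pm n) :
    Submodule (Rg n) (O.I → Rg n) :=
  (O.sec (Le r (y * sw s))).map (res2 O.π y (y * sw s))

theorem Qm_grd (O : Obj n) (s : Fin n × Fin n) (y : Pm n) : Grd (Qm r O s y) := by
  rintro _ ⟨m, hm, rfl⟩ d
  refine ⟨fun i => homogeneousComponent d (m i), ⟨O.graded m hm.1 d, ?_⟩, ?_⟩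
  · intro i hi
    simp only
    rw [hm.2 i hi, map_zero]
  · funext i
    rw [res2_apply, res2_apply]
    split_ifs
    · rfl
    · rw [map_zero]

theorem Qm_GF (hr : r = Up κ ∨ r = Dn κ) (O : Obj n) (hW : ∀ i, InW κ (O.π i))
    (hs : Smp κ s) (p : Pm n → Polynomial ℕ)
    (hp : ∀ y, GF (O.Dsub r y) (p y)) (hy : InW κ y) (h : r y (y * sw s)) :
    GF (Qm r O s y) (p y + p (y * sw s)) := by
  obtain ⟨hne, hlow, hins, hlow'⟩ := low_facts hr hy hs h
  have hind : (O.sec (Le r (y * sw s) \ {y * sw s})).map (Obj.res O.π y) = O.Dsub r y := by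
    rw [← hins]
    exact Dsub_indep hr O hW (hp y) (by simp) hlow (by rw [hins]; exact hlow')
  refine GF.ext (Qm_grd O s y) (Obj.res O.π (y * sw s)) ?_ ?_ ?_
  · intro d m hm i
    rw [res_apply]
    split_ifs
    · exact hm i
    · exact isHomogeneous_zero _ _ _
  · have : Qm r O s y ⊓ LinearMap.ker (Obj.res O.π (y * sw s)) = O.Dsub r y := by
      rw [← hind]
      ext v
      constructor
      · rintro ⟨⟨m, hm, rfl⟩, hv⟩
        have hv' : ∀ i, O.π i = y * sw s → m i = 0 := by
          intro i hi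
          have h1 := congrFun (LinearMap.mem_ker.mp hv) i
          rw [res_apply, if_pos hi, res2_apply, if_pos (Or.inr hi)] at h1
          exact h1
        refine ⟨m, ⟨hm.1, ?_⟩, ?_⟩
        · intro i hi
          by_cases h1 : O.π i = y * sw s
          · exact hv' i h1
          · exact hm.2 i (fun h2 => hi ⟨h2, h1⟩)
        · funext i
          rw [res_apply, res2_apply]
          by_cases h1 : O.π i = y
          · rw [if_pos h1, if_pos (Or.inl h1)]
          · rw [if_neg h1]
            by_cases h2 : O.π i = y * sw s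
            · rw [if_pos (Or.inr h2), hv' i h2]
            · rw [if_neg (by tauto)]
      · rintro ⟨m, hm, rfl⟩
        refine ⟨⟨m, sec_mono Set.sdiff_subset hm, ?_⟩, ?_⟩
        · funext i
          rw [res_apply, res2_apply]
          by_cases h1 : O.π i = y
          · rw [if_pos h1, if_pos (Or.inl h1)]
          · rw [if_neg h1]
            by_cases h2 : O.π i = y * sw s
            · rw [if_pos (Or.inr h2)]
              exact hm.2 i (fun h3 => h3.2 h2)
            · rw [if_neg (by tauto)]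
        · apply LinearMap.mem_ker.mpr
          funext i
          rw [res_apply, res_apply]
          by_cases h1 : O.π i = y * sw s
          · rw [if_pos h1, if_neg (by rw [h1]; exact fun h2 => hne h2.symm)]; rfl
          · rw [if_neg h1]; rfl
    rw [this]
    exact hp y
  · have : (Qm r O s y).map (Obj.res O.π (y * sw s)) = O.Dsub r (y * sw s) := by
      unfold Qm Obj.Dsub
      rw [← Submodule.map_comp]
      congr 1
      apply LinearMap.ext
      intro m
      funext i
      rw [LinearMap.comp_apply, res_apply, res_apply, res2_apply]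
      by_cases h1 : O.π i = y * sw s
      · rw [if_pos h1, if_pos h1, if_pos (Or.inr h1)]
      · rw [if_neg h1, if_neg h1]
    rw [this]
    exact hp _

/-! ### sections of `θ_s O` -/

theorem theta_pi_false (O : Obj n) (s : Fin n × Fin n) (i : O.I) :
    (theta s O).π (i, false) = O.π i := rfl

theorem theta_pi_true (O : Obj n) (s : Fin n × Fin n) (i : O.I) :
    (theta s O).π (i, true) = O.π i * sw s := rfl

theorem elFun_false (O : Obj n) (s : Fin n × Fin n) (a b : O.I → Rg n) (i : O.I) :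
    elFun O.π s (a, b) (i, false) = a i + al (O.π i) s * b i := rfl

theorem elFun_true (O : Obj n) (s : Fin n × Fin n) (a b : O.I → Rg n) (i : O.I) :
    elFun O.π s (a, b) (i, true) = a i - al (O.π i) s * b i := by
  change a i + al (O.π i * sw s) s * b i = _
  rw [al_mul_sw]; ring

theorem two_ne_zero_Rg : (2 : Rg n) ≠ 0 := two_ne_zero

/-- sections over `s`-stable sets -/
theorem mem_theta_sec {O : Obj n} (hs : s.1 ≠ s.2) {Λ : Set (Pm n)}
    (hΛ : ∀ z, z * sw s ∈ Λ ↔ z ∈ Λ) {u : O.I × Bool → Rg n} :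
    u ∈ (theta s O).sec Λ ↔ ∃ a ∈ O.sec Λ, ∃ b ∈ O.sec Λ, u = elFun O.π s (a, b) := by
  constructor
  · rintro ⟨⟨⟨a, b⟩, ⟨ha, hb⟩, rfl⟩, hu⟩
    simp only at ha hb
    have key : ∀ i, O.π i ∉ Λ → a i = 0 ∧ b i = 0 := by
      intro i hi
      have h1 := hu (i, false) hi
      have h2 := hu (i, true) (by rw [theta_pi_true, hΛ]; exact hi)
      rw [elFun_false] at h1
      rw [elFun_true] at h2
      have h3 : (2 : Rg n) * a i = 0 := by linear_combination h1 + h2
      have h4 : a i = 0 := (mul_eq_zero.mp h3).resolve_left two_ne_zero_Rg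
      rw [h4, zero_add] at h1
      exact ⟨h4, (mul_eq_zero.mp h1).resolve_left (al_ne_zero hs _)⟩
    exact ⟨a, ⟨ha, fun i hi => (key i hi).1⟩, b, ⟨hb, fun i hi => (key i hi).2⟩, rfl⟩
  · rintro ⟨a, ha, b, hb, rfl⟩
    refine ⟨⟨(a, b), ⟨ha.1, hb.1⟩, rfl⟩, ?_⟩
    rintro ⟨i, ε⟩ hi
    have hi' : O.π i ∉ Λ := by
      cases ε
      · exact hi
      · rwa [theta_pi_true, hΛ] at hi
    cases ε
    · rw [elFun_false, ha.2 i hi', hb.2 i hi']; ring
    · rw [elFun_true, ha.2 i hi', hb.2 i hi']; ring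

/-- spreading of a function to the components over `z` of `θ_s` -/
noncomputable def spr (O : Obj n) (s : Fin n × Fin n) (z : Pm n) (c : Rg n) :
    (O.I → Rg n) →ₗ[Rg n] (O.I × Bool → Rg n) where
  toFun m p := if (theta s O).π p = z then c * m p.1 else 0
  map_add' a b := by
    funext p
    by_cases h : (theta s O).π p = z <;> simp [h, mul_add]
  map_smul' c' a := by
    funext p
    by_cases h : (theta s O).π p = z
    · simp only [h, if_true, Pi.smul_apply, smul_eq_mul, RingHom.id_apply]; ring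
    · simp [h]

theorem spr_apply (O : Obj n) (s : Fin n × Fin n) (z : Pm n) (c : Rg n) (m : O.I → Rg n)
    (p : O.I × Bool) : spr O s z c m p = if (theta s O).π p = z then c * m p.1 else 0 := rfl

theorem spr_inj (O : Obj n) (z : Pm n) {c : Rg n} (hc : c ≠ 0) (hz : z = y ∨ z = y * sw s)
    {m : O.I → Rg n} (hm : m ∈ Qm r O s y) (h0 : spr O s z c m = 0) : m = 0 := by
  obtain ⟨m', _, rfl⟩ := hm
  funext i
  by_cases h1 : O.π i = y ∨ O.π i = y * sw s
  · have h2 : ∃ ε : Bool, (theta s O).π (i, ε) = z := by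
      rcases h1 with h1 | h1 <;> rcases hz with hz | hz
      · exact ⟨false, by rw [theta_pi_false, h1, hz]⟩
      · exact ⟨true, by rw [theta_pi_true, h1, hz]⟩
      · exact ⟨true, by rw [theta_pi_true, h1, hz, mul_sw_sw]⟩
      · exact ⟨false, by rw [theta_pi_false, h1, hz]⟩
    obtain ⟨ε, hε⟩ := h2
    have h3 := congrFun h0 (i, ε)
    rw [spr_apply, if_pos hε] at h3
    exact (mul_eq_zero.mp h3).resolve_left hc
  · rw [res2_apply, if_neg h1]; rfl

theorem theta_pi_mem (O : Obj n) {z : Pm n} (hz : z = y ∨ z = y * sw s) {i : O.I} {ε : Bool}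
    (h : (theta s O).π (i, ε) = z) : O.π i = y ∨ O.π i = y * sw s := by
  cases ε
  · rw [theta_pi_false] at h
    rw [h]; exact hz
  · rw [theta_pi_true] at h
    have h1 : O.π i = z * sw s := by rw [← h, mul_sw_sw]
    rw [h1]
    rcases hz with rfl | rfl
    · exact Or.inr rfl
    · rw [mul_sw_sw]; exact Or.inl rfl

/-- the value over `z` of `a ⊗ 1 + b ⊗ α` -/
theorem elFun_val (O : Obj n) (a b : O.I → Rg n) {z : Pm n} {i : O.I} {ε : Bool}
    (h : (theta s O).π (i, ε) = z) : elFun O.π s (a, b) (i, ε) = a i + al z s * b i := by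
  rw [← h]
  cases ε <;> rfl

/-- the values over `y s` -/
theorem theta_Dsub_top (hr : r = Up κ ∨ r = Dn κ) (O : Obj n)
    (hs : Smp κ s) (hy : InW κ y) (h : r y (y * sw s)) :
    (theta s O).Dsub r (y * sw s) = (Qm r O s y).map (spr O s (y * sw s) 1) := by
  have hst := fun z => Lam_stable (z := z) hr hy hs h
  have hs' : s.1 ≠ s.2 := ne_of_lt hs.1
  ext v
  constructor
  · rintro ⟨u, hu, rfl⟩
    obtain ⟨a, ha, b, hb, rfl⟩ := (mem_theta_sec hs' hst).mp hu
    refine ⟨_, ⟨a - al y s • b, Submodule.sub_mem _ ha (Submodule.smul_mem _ _ hb), rfl⟩, ?_⟩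
    funext ⟨i, ε⟩
    change (if (theta s O).π (i, ε) = y * sw s then
      1 * res2 O.π y (y * sw s) (a - al y s • b) i else 0) =
      (if (theta s O).π (i, ε) = y * sw s then elFun O.π s (a, b) (i, ε) else 0)
    by_cases h1 : (theta s O).π (i, ε) = y * sw s
    · rw [if_pos h1, if_pos h1, res2_apply, if_pos (theta_pi_mem O (Or.inr rfl) h1),
        elFun_val O a b h1, al_mul_sw, Pi.sub_apply, Pi.smul_apply, smul_eq_mul]
      ring
    · rw [if_neg h1, if_neg h1]
  · rintro ⟨_, ⟨m, hm, rfl⟩, rfl⟩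
    refine ⟨elFun O.π s (m, 0), (mem_theta_sec hs' hst).mpr ⟨m, hm, 0, Submodule.zero_mem _, rfl⟩,
      ?_⟩
    funext ⟨i, ε⟩
    change (if (theta s O).π (i, ε) = y * sw s then elFun O.π s (m, 0) (i, ε) else 0) =
      (if (theta s O).π (i, ε) = y * sw s then 1 * res2 O.π y (y * sw s) m i else 0)
    by_cases h1 : (theta s O).π (i, ε) = y * sw s
    · rw [if_pos h1, if_pos h1, res2_apply, if_pos (theta_pi_mem O (Or.inr rfl) h1),
        elFun_val O m 0 h1, Pi.zero_apply]
      ring
    · rw [if_neg h1, if_neg h1]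

/-- the values over `y` of the sections on `{≤ y s} ∖ {y s}` -/
theorem theta_val_bot (hr : r = Up κ ∨ r = Dn κ) (O : Obj n)
    (hs : Smp κ s) (hy : InW κ y) (h : r y (y * sw s)) :
    ((theta s O).sec (Le r (y * sw s) \ {y * sw s})).map (Obj.res (theta s O).π y) =
      (Qm r O s y).map (spr O s y (2 * al y s)) := by
  have hst := fun z => Lam_stable (z := z) hr hy hs h
  have hs' : s.1 ≠ s.2 := ne_of_lt hs.1
  ext v
  constructor
  · rintro ⟨u, hu, rfl⟩
    obtain ⟨a, ha, b, hb, rfl⟩ := (mem_theta_sec hs' hst).mp (sec_mono Set.sdiff_subset hu)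
    have hab : ∀ i, (O.π i = y ∨ O.π i = y * sw s) → a i = al y s * b i := by
      intro i hi
      have h2 : ∃ ε : Bool, (theta s O).π (i, ε) = y * sw s := by
        rcases hi with h1 | h1
        · exact ⟨true, by rw [theta_pi_true, h1]⟩
        · exact ⟨false, by rw [theta_pi_false, h1]⟩
      obtain ⟨ε, hε⟩ := h2
      have h3 := hu.2 (i, ε) (by rw [hε]; exact fun h4 => h4.2 rfl)
      rw [elFun_val O a b hε, al_mul_sw] at h3
      linear_combination h3
    refine ⟨_, ⟨b, hb, rfl⟩, ?_⟩
    funext ⟨i, ε⟩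
    change (if (theta s O).π (i, ε) = y then
      (2 * al y s) * res2 O.π y (y * sw s) b i else 0) =
      (if (theta s O).π (i, ε) = y then elFun O.π s (a, b) (i, ε) else 0)
    by_cases h1 : (theta s O).π (i, ε) = y
    · rw [if_pos h1, if_pos h1, res2_apply, if_pos (theta_pi_mem O (Or.inl rfl) h1),
        elFun_val O a b h1, hab i (theta_pi_mem O (Or.inl rfl) h1)]
      ring
    · rw [if_neg h1, if_neg h1]
  · rintro ⟨_, ⟨b, hb, rfl⟩, rfl⟩
    have hu : elFun O.π s (al y s • b, b) ∈ (theta s O).sec (Le r (y * sw s)) :=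
      (mem_theta_sec hs' hst).mpr ⟨_, Submodule.smul_mem _ _ hb, b, hb, rfl⟩
    refine ⟨elFun O.π s (al y s • b, b), ⟨hu.1, ?_⟩, ?_⟩
    · rintro ⟨i, ε⟩ hi
      by_cases h1 : (theta s O).π (i, ε) = y * sw s
      · rw [elFun_val O _ b h1, al_mul_sw, Pi.smul_apply, smul_eq_mul]; ring
      · exact hu.2 (i, ε) (fun h2 => hi ⟨h2, h1⟩)
    · funext ⟨i, ε⟩
      change (if (theta s O).π (i, ε) = y then elFun O.π s (al y s • b, b) (i, ε) else 0) =
        (if (theta s O).π (i, ε) = y then (2 * al y s) * res2 O.π y (y * sw s) b i else 0)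
      by_cases h1 : (theta s O).π (i, ε) = y
      · rw [if_pos h1, if_pos h1, res2_apply, if_pos (theta_pi_mem O (Or.inl rfl) h1),
          elFun_val O _ b h1, Pi.smul_apply, smul_eq_mul]
        ring
      · rw [if_neg h1, if_neg h1]

theorem theta_hW {O : Obj n} (hW : ∀ i, InW κ (O.π i)) (hs : Smp κ s) :
    ∀ p, InW κ ((theta s O).π p) := by
  rintro ⟨i, ε⟩
  cases ε
  · exact hW i
  · exact (hW i).mul hs.inW

theorem theta_GF_top (hr : r = Up κ ∨ r = Dn κ) (O : Obj n) (hW : ∀ i, InW κ (O.π i))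
    (hs : Smp κ s) (p : Pm n → Polynomial ℕ)
    (hp : ∀ y, GF (O.Dsub r y) (p y)) (hy : InW κ y) (h : r y (y * sw s)) :
    GF ((theta s O).Dsub r (y * sw s)) (p y + p (y * sw s)) := by
  have hQ := Qm_GF hr O hW hs p hp hy h
  rw [theta_Dsub_top hr O hs hy h]
  have := GF_mapInj hQ (spr O s (y * sw s) 1) 0
    (fun m hm h0 => spr_inj O (y * sw s) one_ne_zero (Or.inr rfl) hm h0) ?_
  · rwa [pow_zero, one_mul] at this
  · rintro d m hm ⟨i, ε⟩
    rw [spr_apply]
    split_ifs
    · rw [one_mul]; exact hm i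
    · exact isHomogeneous_zero _ _ _

/-- removal of the superfluous elements -/
theorem shrink (hr : r = Up κ ∨ r = Dn κ) (O : Obj n) (hW : ∀ i, InW κ (O.π i))
    (hs : Smp κ s) (p : Pm n → Polynomial ℕ)
    (hp : ∀ y, GF (O.Dsub r y) (p y)) (hy : InW κ y) (h : r y (y * sw s)) (N : ℕ) :
    ∀ Ω : Set (Pm n), (Ω \ Le r y).ncard = N → y ∉ Ω → Low r (insert y Ω) → Low r Ω →
      Le r y ⊆ insert y Ω → Ω ⊆ Le r (y * sw s) →
      ((theta s O).sec (insert y Ω)).map (Obj.res (theta s O).π y) = (theta s O).Dsub r y := by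
  induction N with
  | zero =>
    intro Ω hc hyΩ _ _ hsub _
    have h1 : Ω \ Le r y = ∅ := by
      rwa [Set.ncard_eq_zero (Set.toFinite _)] at hc
    have h2 : insert y Ω = Le r y := by
      apply Set.Subset.antisymm _ hsub
      rintro z (rfl | hz)
      · exact Le_self r z
      · by_contra h3
        exact (Set.eq_empty_iff_forall_notMem.mp h1 z) ⟨hz, h3⟩
    rw [h2]; rfl
  | succ N ih =>
    intro Ω hc hyΩ hlow1 hlow2 hsub hsup
    obtain ⟨H, hH, hHy⟩ := exists_height2 hr hy hs h
    have hne : (Ω \ Le r y).Nonempty := by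
      rw [Set.nonempty_iff_ne_empty]
      intro h1
      rw [h1, Set.ncard_empty] at hc
      omega
    obtain ⟨z, hz, hmax⟩ := Set.exists_max_image (Ω \ Le r y) H (Set.toFinite _) hne
    have hzy : z ≠ y := fun h1 => hz.2 (by rw [h1]; exact Le_self r y)
    -- `z s < z`
    have hzW : InW κ z := Le_inW hr (hy.mul hs.inW) (hsup hz.1)
    have hzs : r (z * sw s) z := by
      by_contra h1
      have h2 : r z (z * sw s) := by
        rcases lt_trichotomy (z s.1) (z s.2) with h3 | h3 | h3
        · rcases hr with rfl | rfl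
          · exact (up_sw_iff hzW hs).mpr h3
          · exfalso; apply h1
            exact (up_sw_iff hzW hs).mpr h3
        · exact absurd (z.injective h3) (ne_of_lt hs.1)
        · rcases hr with rfl | rfl
          · exfalso; apply h1
            exact (dn_sw_iff hzW hs).mpr h3
          · exact (dn_sw_iff hzW hs).mpr h3
      exact hz.2 (Le_lift hr hy hs h (hsup hz.1) h2)
    have hGz : GF ((theta s O).Dsub r z) (p (z * sw s) + p z) := by
      have h1 := theta_GF_top (y := z * sw s) hr O hW hs p hp (hzW.mul hs.inW)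
        (by rw [mul_sw_sw]; exact hzs)
      rwa [mul_sw_sw] at h1
    -- the smaller set
    have hlowΩ : Low r (Ω \ {z}) := by
      intro a b hab hb
      refine ⟨hlow2 a b hab hb.1, ?_⟩
      intro h1
      rw [Set.mem_singleton_iff] at h1
      subst h1
      by_cases h2 : b ∈ Le r y
      · exact hz.2 (Low_Le r y _ _ hab h2)
      · have h3 := hmax b ⟨hb.1, h2⟩
        have h4 := hH _ _ hab
        omega
    have hlowy : Low r (insert y (Ω \ {z})) := by
      rintro a b hab (rfl | hb)
      · have h1 := hlow1 a b hab (Set.mem_insert _ _)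
        rcases h1 with h1 | h1
        · exact Or.inl h1
        · refine Or.inr ⟨h1, ?_⟩
          intro h2
          rw [Set.mem_singleton_iff] at h2
          subst h2
          exact hz.2 (Low_Le r b _ _ hab (Le_self r b))
      · exact Or.inr (hlowΩ a b hab hb)
    have hins : insert z (Ω \ {z}) = Ω := by
      rw [Set.insert_sdiff_singleton, Set.insert_eq_of_mem hz.1]
    have hrec := ih (Ω \ {z}) ?_ (fun h1 => hyΩ h1.1) hlowy hlowΩ ?_
      (Set.sdiff_subset.trans hsup)
    · rw [← hrec]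
      ext v
      constructor
      · rintro ⟨u, hu, rfl⟩
        have hF : GF (((theta s O).sec (insert z (Ω \ {z}))).map (Obj.res (theta s O).π z))
            (p (z * sw s) + p z) := by
          rw [Dsub_indep hr (theta s O) (theta_hW hW hs) hGz (by simp) hlowΩ
            (by rw [hins]; exact hlow2)]
          exact hGz
        have hu' : u ∈ (theta s O).sec (insert z (insert y (Ω \ {z}))) := by
          rw [Set.insert_comm, hins]
          exact hu
        obtain ⟨m₁, hm₁, m₂, hm₂, rfl⟩ := diamond hr (theta s O) (theta_hW hW hs)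
          (Ω := Ω \ {z}) (y := z) (z := y) (by simp) (fun h1 => hyΩ h1.1) hzy hlowΩ
          (by rw [hins]; exact hlow2) hlowy hF hu'
        refine ⟨m₂, hm₂, ?_⟩
        funext q
        rw [res_apply, res_apply]
        by_cases h1 : (theta s O).π q = y
        · rw [if_pos h1, if_pos h1, Pi.add_apply, hm₁.2 q, zero_add]
          rw [h1, hins]; exact hyΩ
        · rw [if_neg h1, if_neg h1]
      · rintro ⟨u, hu, rfl⟩
        exact ⟨u, sec_mono (Set.insert_subset_insert Set.sdiff_subset) hu, rfl⟩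
    · have h1 : (Ω \ {z}) \ Le r y = (Ω \ Le r y) \ {z} := by
        ext w; simp only [Set.mem_sdiff, Set.mem_singleton_iff]; tauto
      rw [h1, Set.ncard_sdiff_singleton_of_mem hz, hc]
      rfl
    · intro w hw
      rcases hsub hw with h1 | h1
      · exact Or.inl h1
      · refine Or.inr ⟨h1, ?_⟩
        intro h2
        rw [Set.mem_singleton_iff] at h2
        subst h2
        exact hz.2 hw

end

end ST1

open ST1 in
/-- the structure theorem -/
theorem theta_GF (hr : r = Up κ ∨ r = Dn κ) (O : Obj n) (hW : ∀ i, InW κ (O.π i))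
    {s : Fin n × Fin n} (hs : Smp κ s) (p : Pm n → Polynomial ℕ)
    (hp : ∀ y, GF (O.Dsub r y) (p y)) {y : Pm n} (hy : InW κ y) (h : r y (y * sw s)) :
    GF ((theta s O).Dsub r y) (Polynomial.X * (p y + p (y * sw s))) ∧
    GF ((theta s O).Dsub r (y * sw s)) (p y + p (y * sw s)) := by
  refine ⟨?_, theta_GF_top hr O hW hs p hp hy h⟩
  obtain ⟨hne, hlow, hins, hlow'⟩ := low_facts hr hy hs h
  obtain ⟨H, hH, hHy⟩ := exists_height2 hr hy hs h
  have hQ := Qm_GF hr O hW hs p hp hy h
  have hsh := shrink hr O hW hs p hp hy h _ (Le r (y * sw s) \ {y, y * sw s}) rfl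
    (by simp) (by rw [hins]; exact hlow') hlow ?_ Set.sdiff_subset
  · rw [← hsh, hins, theta_val_bot hr O hs hy h]
    have h2 : (2 * al y s : Rg n) ≠ 0 := mul_ne_zero two_ne_zero_Rg (al_ne_zero (ne_of_lt hs.1) y)
    have := GF_mapInj hQ (spr O s y (2 * al y s)) 1
      (fun m hm h0 => spr_inj O y h2 (Or.inl rfl) hm h0) ?_
    · rwa [pow_one] at this
    · rintro d m hm ⟨i, ε⟩
      rw [spr_apply]
      split_ifs
      · have h3 : (2 * al y s * m i : Rg n) = C 2 * (al y s * m i) := by
          rw [map_ofNat]; ring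
        rw [h3, add_comm d 1]
        have h4 := (isHomogeneous_C (Fin n) (2 : ℝ)).mul ((al_homog y s).mul (hm i))
        rwa [zero_add] at h4
      · exact isHomogeneous_zero _ _ _
  · rw [hins]
    intro z hz
    refine ⟨Le_trans hz (Relation.ReflTransGen.single h), ?_⟩
    intro h1
    rw [Set.mem_singleton_iff] at h1
    have h2 := (Le_heightZ hH hz).1
    rw [h1] at h2
    omega

end KLFin
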