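import Mathlib
import Pool.Agent.KLFin.CDefs2
import Pool.Agent.KLFin.CB1
import Pool.Agent.KLFin.CD
import Pool.Agent.KLFin.CE1
import Pool.Agent.KLFin.CS
import Pool.Agent.KLFin.GF1
import Pool.Agent.KLFin.GF2
import Pool.Agent.KLFin.ST1
import Pool.Agent.KLFin.NI1

/-!
# Part C, block NI2: nice objects (MP_d9d356_co)
-/

open MvPolynomial

namespace KLFin

variable {n : ℕ} {κ : Fin n → ℕ}

theorem NI2.theta_pi_inW {O : Obj n} (hW : ∀ i, InW κ (O.π i)) {s : Fin n × Fin n} (hs : Smp κ s) :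
    ∀ i, InW κ ((theta s O).π i) := by
  intro i
  change InW κ (if i.2 then O.π i.1 * sw s else O.π i.1)
  split_ifs
  · exact (hW _).mul hs.inW
  · exact hW _

theorem NI2.Dsub_eq_bot (O : Obj n) (r : Pm n → Pm n → Prop) {y : Pm n} (hy : ∀ i, O.π i ≠ y) :
    O.Dsub r y = ⊥ := by
  rw [eq_bot_iff]
  rintro _ ⟨m, _, rfl⟩
  rw [Submodule.mem_bot]
  funext i
  change (if O.π i = y then m i else 0) = 0
  rw [if_neg (hy i)]

theorem NI2.GF_top_unit : GF (⊤ : Submodule (Rg n) (Unit → Rg n)) 1 := by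
  refine ⟨1, fun _ _ => 1, fun _ => 0, fun _ _ => isHomogeneous_one _ _, ?_, ?_, by simp⟩
  · rw [linearIndependent_unique_iff]
    intro h
    have := congrFun h ()
    simp at this
  · rw [eq_top_iff]
    intro m _
    have h1 : m = (m ()) • (fun _ => (1 : Rg n)) := by
      funext i; simp
    rw [h1]
    apply Submodule.smul_mem
    apply Submodule.subset_span
    exact ⟨0, rfl⟩

theorem NI2.Re_Dsub_one (r : Pm n → Pm n → Prop) : (Re n).Dsub r 1 = ⊤ := by
  rw [eq_top_iff]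
  intro m _
  refine ⟨m, ⟨trivial, ?_⟩, ?_⟩
  · intro i hi
    exact absurd Relation.ReflTransGen.refl hi
  · funext i
    change (if (1 : Pm n) = 1 then m i else 0) = m i
    rw [if_pos rfl]

theorem NI2.Re_Dsub_ne (r : Pm n → Pm n → Prop) {y : Pm n} (hy : y ≠ 1) : (Re n).Dsub r y = ⊥ :=
  NI2.Dsub_eq_bot _ _ (fun _ => hy.symm)

theorem NI2.Re_GF (r : Pm n → Pm n → Prop) (y : Pm n) [Decidable (y = 1)] :
    GF ((Re n).Dsub r y) (if y = 1 then 1 else 0) := by
  by_cases h : y = 1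
  · rw [if_pos h, h, NI2.Re_Dsub_one]; exact NI2.GF_top_unit
  · rw [if_neg h, NI2.Re_Dsub_ne _ h]; exact GF_bot

theorem Nice_Re : Nice κ (Re n) where
  inW _ := InW_one
  lo y := by classical exact ⟨_, NI2.Re_GF _ y⟩
  up y := by classical exact ⟨_, NI2.Re_GF _ y⟩
  star := by
    intro a b hab hk x hx u _ _
    refine ⟨1, (root_prime hab.ne).not_dvd_one, 0, Submodule.zero_mem _, ?_⟩
    intro i hi
    exfalso
    have h1 : x = Equiv.swap a b := by
      have h2 : (1 : Pm n) = Equiv.swap a b * x := hi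
      have h3 : (Equiv.swap a b)⁻¹ = x := inv_eq_of_mul_eq_one_right h2.symm
      rw [← h3, Equiv.swap_inv]
    rw [h1, Equiv.swap_inv, Equiv.swap_apply_left, Equiv.swap_apply_right] at hx
    exact absurd hab (not_lt.mpr hx.le)

theorem CharRel_Re : CharRel κ 0 (Re n) (fun y => if y = 1 then 1 else 0) where
  up y := by
    have h := NI2.Re_GF (n := n) (Dn κ) y
    by_cases hy : y = 1
    · subst hy
      simpa [len_one] using h
    · simpa [hy] using h
  lo y := by
    have h := NI2.Re_GF (n := n) (Up κ) y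
    by_cases hy : y = 1
    · subst hy
      simp only [if_true] at h ⊢
      rw [len_one, Polynomial.reflect_one, pow_zero]
      exact h
    · simpa [hy] using h
  deg y := by
    intro hy
    by_cases h1 : y = 1
    · subst h1; simp [len_one]
    · simp [h1] at hy

theorem NI2.theta_exists_GF {r : Pm n → Pm n → Prop} (hr : r = Up κ ∨ r = Dn κ) {O : Obj n}
    (hW : ∀ i, InW κ (O.π i)) (hO : ∀ y, ∃ p, GF (O.Dsub r y) p)
    {s : Fin n × Fin n} (hs : Smp κ s) (y : Pm n) : ∃ p, GF ((theta s O).Dsub r y) p := by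
  choose p hp using hO
  by_cases hy : InW κ y
  swap
  · refine ⟨0, ?_⟩
    rw [NI2.Dsub_eq_bot]
    · exact GF_bot
    · intro i hi
      apply hy
      rw [← hi]
      exact NI2.theta_pi_inW hW hs i
  · have h1 : r y (y * sw s) ∨ r (y * sw s) (y * sw s * sw s) := by
      have h2 : y * sw s * sw s = y := by rw [mul_assoc, sw_mul_sw, mul_one]
      rw [h2]
      have h3 : Up κ y (y * sw s) ∨ Dn κ y (y * sw s) := by
        rw [up_sw_iff hy hs, dn_sw_iff hy hs]
        have : y s.1 ≠ y s.2 := fun h => hs.1.ne (y.injective h)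
        exact lt_or_gt_of_ne this
      rcases hr with hr | hr
      · rw [hr]; exact h3
      · rw [hr]; exact h3.symm
    rcases h1 with h1 | h1
    · exact ⟨_, (theta_GF hr O hW hs p hp hy h1).1⟩
    · have h2 := (theta_GF hr O hW hs p hp (hy.mul hs.inW) h1).2
      have h3 : y * sw s * sw s = y := by rw [mul_assoc, sw_mul_sw, mul_one]
      rw [h3] at h2
      exact ⟨_, h2⟩

theorem Nice.theta {O : Obj n} (h : Nice κ O) {s : Fin n × Fin n} (hs : Smp κ s) :
    Nice κ (theta s O) where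
  inW := NI2.theta_pi_inW h.inW hs
  lo := NI2.theta_exists_GF (Or.inl rfl) h.inW h.lo hs
  up := NI2.theta_exists_GF (Or.inr rfl) h.inW h.up hs
  star := star_theta h hs

theorem Nice_BS {l : List (Fin n × Fin n)} (hl : ∀ s ∈ l, Smp κ s) : Nice κ (BS l) := by
  induction l with
  | nil => exact Nice_Re
  | cons s l ih =>
    exact (ih (fun t ht => hl t (List.mem_cons_of_mem _ ht))).theta (hl s List.mem_cons_self)

/-! ### direct summands -/

/-- degree zero maps commute with homogeneous components -/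
theorem NI2.degMap_comp_zero {O P : Obj n} {φ : O.M →ₗ[Rg n] P.M} (hφ : DegMap φ 0) (m : O.M)
    (d : ℕ) (md : O.M) (hmd : ∀ i, md.1 i = homogeneousComponent d (m.1 i)) (j : P.I) :
    (φ md).1 j = homogeneousComponent d ((φ m).1 j) := by
  obtain ⟨c, h1, h2, h3, h4, h5⟩ := exists_comp O
  have hmd' : md = c d m := by
    ext1; funext i; rw [hmd, h5]
  obtain ⟨N, hN⟩ := h4 m
  have hdeg : ∀ d', φ (c d' m) ∈ P.dg d' := by
    intro d'
    exact (hφ d' (c d' m) (h1 d' m)).1 d' (by simp)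
  have h6 : (φ m).1 j = ∑ d' ∈ Finset.range N, (φ (c d' m)).1 j := by
    conv_lhs => rw [hN]
    rw [map_sum, AddSubmonoidClass.coe_finsetSum, Finset.sum_apply]
  rw [hmd', h6, map_sum]
  have h7 : ∀ d' ∈ Finset.range N, homogeneousComponent d ((φ (c d' m)).1 j) =
      if d' = d then (φ (c d m)).1 j else 0 := by
    intro d' _
    rw [homogeneousComponent_of_mem (hdeg d' j)]
    by_cases h : d' = d
    · subst h; simp
    · rw [if_neg h, if_neg (fun h' => h h'.symm)]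
  rw [Finset.sum_congr rfl h7, Finset.sum_ite_eq']
  split_ifs with h8
  · rfl
  · -- `d ≥ N`: `c d m = 0`
    have h9 : c d m = 0 := by
      conv_lhs => rw [hN]
      rw [map_sum]
      apply Finset.sum_eq_zero
      intro d' hd'
      exact h3 d' d (fun h => h8 (h ▸ hd')) _ (h1 d' m)
    rw [h9, map_zero]; rfl

theorem NI2.gf_of_ker_eq {I J : Type} [Fintype I] [Fintype J] {S : Type} [AddCommGroup S]
    [Module (Rg n) S] (f1 : S →ₗ[Rg n] (I → Rg n)) (f2 : S →ₗ[Rg n] (J → Rg n))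
    (hker : LinearMap.ker f1 = LinearMap.ker f2)
    (hdeg : ∀ d m, Hg d (f2 m) → Hg d (f1 m)) {p : Polynomial ℕ}
    (hp : GF (LinearMap.range f2) p) : ∃ p', GF (LinearMap.range f1) p' := by
  let E : LinearMap.range f2 ≃ₗ[Rg n] LinearMap.range f1 :=
    ((LinearMap.quotKerEquivRange f2).symm.trans (Submodule.quotEquivOfEq (LinearMap.ker f2)
      (LinearMap.ker f1) hker.symm)).trans (LinearMap.quotKerEquivRange f1)
  have hE : ∀ m : S, E ⟨f2 m, m, rfl⟩ = ⟨f1 m, m, rfl⟩ := by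
    intro m
    have h1 : (LinearMap.quotKerEquivRange f2).symm ⟨f2 m, m, rfl⟩ =
        Submodule.Quotient.mk m := by
      rw [LinearEquiv.symm_apply_eq]
      rfl
    change LinearMap.quotKerEquivRange f1 (Submodule.quotEquivOfEq _ _ hker.symm
      ((LinearMap.quotKerEquivRange f2).symm ⟨f2 m, m, rfl⟩)) = _
    rw [h1]
    rfl
  have hEdeg : ∀ d, ∀ m : LinearMap.range f2, Hg d m.1 → Hg (d + 0) (E m).1 := by
    rintro d ⟨_, m, rfl⟩ hd
    rw [hE, add_zero]
    exact hdeg d m hd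
  exact ⟨_, hp.equiv E 0 hEdeg⟩

theorem NI2.summand_exists_GF {r : Pm n → Pm n → Prop} {O P : Obj n}
    {f : O.M →ₗ[Rg n] P.M} {g : P.M →ₗ[Rg n] O.M} (hf : BiMap f) (hg : BiMap g)
    (hf0 : DegMap f 0) (hg0 : DegMap g 0) (hgf : ∀ m, g (f m) = m) {y : Pm n}
    {p : Polynomial ℕ} (hP : GF (P.Dsub r y) p) : ∃ p', GF (O.Dsub r y) p' := by
  classical
  -- basic facts
  have hcompO : ∀ (m : O.M) (d : ℕ), (fun i => homogeneousComponent d (m.1 i)) ∈ O.M :=
    fun m d => O.graded m.1 m.2 d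
  have hcompP : ∀ (m : P.M) (d : ℕ), (fun i => homogeneousComponent d (m.1 i)) ∈ P.M :=
    fun m d => P.graded m.1 m.2 d
  have hsecf : ∀ m : O.M, m.1 ∈ O.sec (Le r y) → (f m).1 ∈ P.sec (Le r y) := by
    intro m hm
    refine ⟨(f m).2, fun i hi => ?_⟩
    exact hf.vanish (y := P.π i) (fun k hk => hm.2 k (by rw [hk]; exact hi)) i rfl
  have hsecg : ∀ m : P.M, m.1 ∈ P.sec (Le r y) → (g m).1 ∈ O.sec (Le r y) := by
    intro m hm
    refine ⟨(g m).2, fun i hi => ?_⟩
    exact hg.vanish (y := O.π i) (fun k hk => hm.2 k (by rw [hk]; exact hi)) i rfl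
  have hres0 : ∀ (Q : Obj n) (m : Q.I → Rg n), Obj.res Q.π y m = 0 ↔
      ∀ i, Q.π i = y → m i = 0 := by
    intro Q m
    constructor
    · intro h i hi
      have := congrFun h i
      change (if Q.π i = y then m i else 0) = 0 at this
      rwa [if_pos hi] at this
    · intro h
      funext i
      change (if Q.π i = y then m i else 0) = 0
      split_ifs with hi
      · exact h i hi
      · rfl
  have hleO : O.sec (Le r y) ≤ O.M := fun m hm => hm.1
  have hleP : P.sec (Le r y) ≤ P.M := fun m hm => hm.1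
  let f1 : O.sec (Le r y) →ₗ[Rg n] (O.I → Rg n) :=
    (Obj.res O.π y).comp (O.sec (Le r y)).subtype
  let f2 : O.sec (Le r y) →ₗ[Rg n] (P.I → Rg n) :=
    (Obj.res P.π y).comp (P.M.subtype.comp (f.comp (Submodule.inclusion hleO)))
  let e : P.M →ₗ[Rg n] P.M := LinearMap.id - f.comp g
  let f3 : P.sec (Le r y) →ₗ[Rg n] (P.I → Rg n) :=
    (Obj.res P.π y).comp (P.M.subtype.comp (e.comp (Submodule.inclusion hleP)))
  have hr1 : LinearMap.range f1 = O.Dsub r y := by
    ext z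
    constructor
    · rintro ⟨m, rfl⟩
      exact ⟨m.1, m.2, rfl⟩
    · rintro ⟨m, hm, rfl⟩
      exact ⟨⟨m, hm⟩, rfl⟩
  have hker : LinearMap.ker f1 = LinearMap.ker f2 := by
    ext m
    rw [LinearMap.mem_ker, LinearMap.mem_ker]
    constructor
    · intro h
      have h1 := (hres0 O m.1).mp h
      exact (hres0 P (f ⟨m.1, hleO m.2⟩).1).mpr (hf.vanish h1)
    · intro h
      have h1 := (hres0 P (f ⟨m.1, hleO m.2⟩).1).mp h
      apply (hres0 O m.1).mpr
      have h2 := hg.vanish h1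
      rw [hgf] at h2
      exact h2
  have hTe : ∀ m : P.M, m.1 ∈ P.sec (Le r y) → (e m).1 ∈ P.sec (Le r y) := by
    intro m hm
    have : (e m).1 = m.1 - (f (g m)).1 := rfl
    rw [this]
    exact Submodule.sub_mem _ hm (hsecf _ (hsecg _ hm))
  have hsup : LinearMap.range f2 ⊔ LinearMap.range f3 = P.Dsub r y := by
    apply le_antisymm
    · rw [sup_le_iff]
      constructor
      · rintro _ ⟨m, rfl⟩
        exact ⟨(f ⟨m.1, hleO m.2⟩).1, hsecf _ m.2, rfl⟩
      · rintro _ ⟨m, rfl⟩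
        exact ⟨(e ⟨m.1, hleP m.2⟩).1, hTe _ m.2, rfl⟩
    · rintro _ ⟨m, hm, rfl⟩
      have h1 : Obj.res P.π y m = f2 ⟨(g ⟨m, hm.1⟩).1, hsecg ⟨m, hm.1⟩ hm⟩ +
          f3 ⟨m, hm⟩ := by
        change _ = Obj.res P.π y (f (g ⟨m, hm.1⟩)).1 +
          Obj.res P.π y ((⟨m, hm.1⟩ : P.M) - f (g ⟨m, hm.1⟩)).1
        rw [← map_add]
        congr 1
        simp
      rw [h1]
      exact Submodule.add_mem_sup ⟨_, rfl⟩ ⟨_, rfl⟩
  have hdisj : Disjoint (LinearMap.range f2) (LinearMap.range f3) := by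
    rw [Submodule.disjoint_def]
    rintro z ⟨m1, hm1⟩ ⟨m2, hm2⟩
    have h1 : Obj.res P.π y (f ⟨m1.1, hleO m1.2⟩ - e ⟨m2.1, hleP m2.2⟩).1 = 0 := by
      have : (f ⟨m1.1, hleO m1.2⟩ - e ⟨m2.1, hleP m2.2⟩).1 =
        (f ⟨m1.1, hleO m1.2⟩).1 - (e ⟨m2.1, hleP m2.2⟩).1 := rfl
      rw [this, map_sub, sub_eq_zero]
      exact hm1.trans hm2.symm
    have h2 := hg.vanish ((hres0 P _).mp h1)
    have h3 : g (f ⟨m1.1, hleO m1.2⟩ - e ⟨m2.1, hleP m2.2⟩) = ⟨m1.1, hleO m1.2⟩ := by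
      rw [map_sub, hgf]
      have : g (e ⟨m2.1, hleP m2.2⟩) = 0 := by
        change g (⟨m2.1, hleP m2.2⟩ - f (g ⟨m2.1, hleP m2.2⟩)) = 0
        rw [map_sub, hgf, sub_self]
      rw [this, sub_zero]
    rw [h3] at h2
    have h4 := hf.vanish h2
    rw [← hm1]
    exact (hres0 P _).mpr h4
  have hrescomp : ∀ (Q : Obj n) (m : Q.I → Rg n) (d : ℕ),
      (fun i => homogeneousComponent d (Obj.res Q.π y m i)) =
        Obj.res Q.π y (fun i => homogeneousComponent d (m i)) := by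
    intro Q m d
    funext i
    change homogeneousComponent d (if Q.π i = y then m i else 0) =
      (if Q.π i = y then homogeneousComponent d (m i) else 0)
    split_ifs <;> simp
  have hSd : ∀ (Q : Obj n) (m : Q.I → Rg n), m ∈ Q.sec (Le r y) → ∀ (d : ℕ),
      (fun i => homogeneousComponent d (m i)) ∈ Q.sec (Le r y) := by
    intro Q m hm d
    refine ⟨Q.graded m hm.1 d, fun i hi => ?_⟩
    change homogeneousComponent d (m i) = 0
    rw [hm.2 i hi, map_zero]
  have hf2c : ∀ (m : O.sec (Le r y)) (d : ℕ), f2 ⟨_, hSd O m.1 m.2 d⟩ =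
      fun i => homogeneousComponent d (f2 m i) := by
    intro m d
    have h1 : f2 m = Obj.res P.π y (f ⟨m.1, hleO m.2⟩).1 := rfl
    rw [h1, hrescomp]
    change Obj.res P.π y (f ⟨_, hleO (hSd O m.1 m.2 d)⟩).1 = _
    congr 1
    funext j
    exact NI2.degMap_comp_zero hf0 ⟨m.1, hleO m.2⟩ d _ (fun i => rfl) j
  have hgrd1 : Grd (LinearMap.range f2) := by
    rintro _ ⟨m, rfl⟩ d
    exact ⟨_, hf2c m d⟩
  have hgrd2 : Grd (LinearMap.range f3) := by
    rintro _ ⟨m, rfl⟩ d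
    refine ⟨⟨_, hSd P m.1 m.2 d⟩, ?_⟩
    have h1 : f3 m = Obj.res P.π y (e ⟨m.1, hleP m.2⟩).1 := rfl
    rw [h1, hrescomp]
    change Obj.res P.π y (e ⟨_, hleP (hSd P m.1 m.2 d)⟩).1 = _
    congr 1
    funext j
    change homogeneousComponent d (m.1 j) - (f (g ⟨_, hleP (hSd P m.1 m.2 d)⟩)).1 j =
      homogeneousComponent d (m.1 j - (f (g ⟨m.1, hleP m.2⟩)).1 j)
    rw [map_sub, NI2.degMap_comp_zero hf0 (g ⟨m.1, hleP m.2⟩) d _
      (fun i => NI2.degMap_comp_zero hg0 ⟨m.1, hleP m.2⟩ d _ (fun i => rfl) i) j]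
  obtain ⟨p1, p2, hp1, -, -⟩ := GF.summand hP hsup hdisj hgrd1 hgrd2
  -- transport to `O`
  rw [← hr1]
  have hdeg : ∀ d m, Hg d (f2 m) → Hg d (f1 m) := by
    intro d m hd
    have h1 : f2 ⟨_, hSd O m.1 m.2 d⟩ = f2 m := by
      rw [hf2c]
      funext i
      exact (homogeneousComponent_of_mem (hd i)).trans (if_pos rfl)
    have h2 : (m - ⟨_, hSd O m.1 m.2 d⟩) ∈ LinearMap.ker f2 := by
      rw [LinearMap.mem_ker, map_sub, h1, sub_self]
    rw [← hker, LinearMap.mem_ker, map_sub, sub_eq_zero] at h2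
    rw [h2]
    intro i
    change (if O.π i = y then homogeneousComponent d (m.1 i) else 0).IsHomogeneous d
    split_ifs
    · exact homogeneousComponent_isHomogeneous _ _
    · exact isHomogeneous_zero _ _ _
  exact NI2.gf_of_ker_eq f1 f2 hker hdeg hp1

theorem Nice.summand {O P : Obj n} (h : Nice κ P) (hO : IsSummand O P)
    (hW : ∀ i, InW κ (O.π i)) : Nice κ O := by
  obtain ⟨f, g, hf, hg, hf0, hg0, hgf⟩ := hO
  refine ⟨hW, ?_, ?_, ?_⟩
  · intro y
    obtain ⟨p, hp⟩ := h.lo y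
    exact NI2.summand_exists_GF hf hg hf0 hg0 hgf hp
  · intro y
    obtain ⟨p, hp⟩ := h.up y
    exact NI2.summand_exists_GF hf hg hf0 hg0 hgf hp
  · intro a b hab hk x hx u hu hux
    obtain ⟨p, hp, v, hv, hv'⟩ := h.star a b hab hk x hx (f ⟨u, hu⟩).1 (f ⟨u, hu⟩).2
      (hf.vanish hux)
    refine ⟨p, hp, (g ⟨v, hv⟩).1, (g ⟨v, hv⟩).2, ?_⟩
    have h1 : ∀ i, P.π i = Equiv.swap a b * x →
        (p • f ⟨u, hu⟩ - (X a - X b : Rg n) • (⟨v, hv⟩ : P.M)).1 i = 0 := by
      intro i hi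
      have := hv' i hi
      change p * (f ⟨u, hu⟩).1 i - (X a - X b) * v i = 0
      rw [this, sub_self]
    have h2 := hg.vanish h1
    rw [map_sub, map_smul, map_smul, hgf] at h2
    intro i hi
    have h3 := h2 i hi
    change p * u i - (X a - X b) * (g ⟨v, hv⟩).1 i = 0 at h3
    exact sub_eq_zero.mp h3

end KLFin
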