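import Mathlib
import Pool.Agent.KLFin.CDefs3
import Pool.Agent.KLFin.CB2
import Pool.Agent.KLFin.CE2
import Pool.Agent.KLFin.CS
import Pool.Agent.KLFin.DI2
import Pool.Agent.KLFin.NI2

/-!
# Part C, block DC3: the lifting property for `θ_s`, for summands and for `R_e` (MP_d9d356_co)
-/

open MvPolynomial

namespace KLFin

variable {n : ℕ} {κ : Fin n → ℕ} {s : Fin n × Fin n}

namespace DC3

/-- the second component of an element of `θ_s N` as a linear map -/
theorem exists_snd (hs : s.1 ≠ s.2) (N : Obj n) :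
    ∃ q : (theta s N).M →ₗ[Rg n] N.M, ∀ a b : N.M, q (el s a b) = b := by
  obtain ⟨φ, hφ⟩ := exists_lin_of_el (O := N) hs (0 : N.M →ₗ[Rg n] N.M) LinearMap.id
  exact ⟨φ, fun a b => by simp [hφ]⟩

theorem rmul_smul' {O : Obj n} (f g : Rg n) (m : O.M) : O.rmul f (g • m) = g • O.rmul f m :=
  (O.rmul f).map_smul g m

theorem rmul_C {O : Obj n} (c : ℝ) (m : O.M) : O.rmul (C c) m = (C c : Rg n) • m := by
  ext1; funext i; simp [Obj.rmul]

theorem mem_dg_iff {O : Obj n} {m : O.M} {d : ℕ} : m ∈ O.dg d ↔ ∀ i, (m.1 i).IsHomogeneous d :=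
  Iff.rfl

theorem smul_mem_dg {O : Obj n} {m : O.M} {d k : ℕ} {f : Rg n} (hf : f.IsHomogeneous k)
    (hm : m ∈ O.dg d) : f • m ∈ O.dg (d + k) := by
  intro i
  have h := hf.mul (hm i)
  have e : (f • m).1 i = f * m.1 i := rfl
  rw [e, add_comm d k]
  exact h

theorem rmul_mem_dg {O : Obj n} {m : O.M} {d k : ℕ} {f : Rg n} (hf : f.IsHomogeneous k)
    (hm : m ∈ O.dg d) : O.rmul f m ∈ O.dg (d + k) := by
  intro i
  rw [Obj.rmul_val, add_comm d k]
  exact (act_homog hf).mul (hm i)

/-- two pieces of a bimodule map -/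
theorem rmul_X_eq {O : Obj n} (hs : s.1 ≠ s.2) (j : Fin n) (m : O.M) :
    O.rmul (X j) m = O.rmul (uPart s j) m + (C (vPart s j) : Rg n) • O.rmul (al 1 s) m := by
  conv_lhs => rw [X_eq_uv s hs j]
  rw [Obj.rmul_add, Obj.rmul_mul, rmul_C]

end DC3

open DC3

/-- DC3: lifting property for `θ_s` -/
theorem LiftProp.theta {x : Pm n} (hx : InW κ x) (hs : Smp κ s) (hup : Up κ x (x * sw s))
    {O : Obj n} (hO : Nice κ O) {b0 : O.M} (h : LiftProp κ x O b0) (hb0 : b0 ∈ O.dg 0)
    (hsupp : ∀ (m : O.M) (i : O.I), O.π i ∉ Le (Up κ) x → m.1 i = 0)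
    (hgen : ∀ m : O.M, ∃ f : Rg n, ∀ i, O.π i = x → m.1 i = f * b0.1 i)
    (hne : ∃ i, O.π i = x ∧ b0.1 i ≠ 0) :
    LiftProp κ (x * sw s) (theta s O) (el s b0 0) := by
  have hs' : s.1 ≠ s.2 := hs.1.ne
  intro N hN e m hm hmsupp
  have hxs : InW κ (x * sw s) := hx.mul hs.inW
  have hlen : len κ (x * sw s) = len κ x + 1 := len_mul_sw hx hs hup
  have hxx : x * sw s * sw s = x := by rw [mul_assoc, sw_mul_sw, mul_one]
  have hNθ : Nice κ (KLFin.theta s N) := hN.theta hs
  -- the element `u`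
  set u : (KLFin.theta s N).M := el s ((al x s) • m) m with hu
  have huval : ∀ p, u.1 p = (al x s + al ((KLFin.theta s N).π p) s) * m.1 p.1 := by
    intro p
    rw [hu, el_val]
    have e1 : (al x s • m).1 p.1 = al x s * m.1 p.1 := rfl
    rw [e1]; ring
  have hπ : ∀ p : (KLFin.theta s N).I, (KLFin.theta s N).π p = N.π p.1 ∨
      (KLFin.theta s N).π p = N.π p.1 * sw s := by
    intro p
    change (if p.2 then N.π p.1 * sw s else N.π p.1) = _ ∨ _
    cases hp : p.2 <;> simp [hp, KLFin.theta]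
  -- supports
  have husupp : ∀ p, (KLFin.theta s N).π p ∉ Le (Up κ) (x * sw s) → u.1 p = 0 := by
    intro p hp
    have hp' : N.π p.1 ∉ Le (Up κ) (x * sw s) := by
      intro hmem
      apply hp
      rcases hπ p with h1 | h1
      · rw [h1]; exact hmem
      · rw [h1]
        exact Le_mul_sw (Or.inl rfl) hxs hs (by rw [hxx]; exact hup) hmem
    rw [huval, hmsupp _ hp', mul_zero]
  have huxs : ∀ p, (KLFin.theta s N).π p = x * sw s → u.1 p = 0 := by
    intro p hp
    rw [huval, hp, al_mul_sw]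
    ring
  -- `Ω`
  set Ω : Set (Pm n) := {z | z ∈ Le (Up κ) (x * sw s) ∧ z ≠ x * sw s ∧ z ≠ x} with hΩdef
  have hxlt : x ∈ Le (Up κ) (x * sw s) := Relation.ReflTransGen.single hup
  have hxne : x ≠ x * sw s := hup.ne
  have hlow1 : Low (Up κ) Ω := by
    rintro y z hyz ⟨hz1, hz2, hz3⟩
    have hy1 : y ∈ Le (Up κ) (x * sw s) := Low_Le _ _ y z hyz hz1
    have hlyz := hyz.len_lt
    have hlz := Le_len hz1
    refine ⟨hy1, ?_, ?_⟩
    · rintro rfl
      omega
    · rintro rfl
      apply hz2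
      apply hlz.2
      omega
  have hlow2 : Low (Up κ) (insert x Ω) := by
    intro y z hyz hz
    rcases hz with rfl | hz
    · right
      have hlyz := hyz.len_lt
      refine ⟨Relation.ReflTransGen.trans (Relation.ReflTransGen.single hyz) hxlt, ?_, hyz.ne⟩
      rintro rfl
      omega
    · right; exact hlow1 y z hyz hz
  have hxΩ : x ∉ Ω := fun hh => hh.2.2 rfl
  obtain ⟨p, hp⟩ := hNθ.lo x
  have hind := Dsub_indep (Or.inl rfl) (KLFin.theta s N) hNθ.inW hp hxΩ hlow1 hlow2
  have husec : u.1 ∈ (KLFin.theta s N).sec (insert x Ω) := by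
    refine ⟨u.2, ?_⟩
    intro i hi
    by_cases h1 : (KLFin.theta s N).π i ∈ Le (Up κ) (x * sw s)
    · by_cases h2 : (KLFin.theta s N).π i = x * sw s
      · exact huxs i h2
      · exfalso
        apply hi
        by_cases h3 : (KLFin.theta s N).π i = x
        · left; exact h3
        · right; exact ⟨h1, h2, h3⟩
    · exact husupp i h1
  have hures : Obj.res (KLFin.theta s N).π x u.1 ∈ (KLFin.theta s N).Dsub (Up κ) x := by
    rw [← hind]
    exact Submodule.mem_map_of_mem husec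
  obtain ⟨u₁, hu₁, hu₁r⟩ := hures
  have hu₁x : ∀ i, (KLFin.theta s N).π i = x → u₁ i = u.1 i := by
    intro i hi
    have := congrFun hu₁r i
    simpa [Obj.res, hi] using this
  -- homogeneous component
  have hudeg : u ∈ (KLFin.theta s N).dg (e + 1) := by
    rw [hu, el_mem_dg hs']
    exact ⟨smul_mem_dg (al_homog x s) hm, hm⟩
  set u₂ : (KLFin.theta s N).M := ⟨fun i => homogeneousComponent (e + 1) (u₁ i),
    (KLFin.theta s N).graded u₁ hu₁.1 (e + 1)⟩ with hu₂
  have hu₂x : ∀ i, (KLFin.theta s N).π i = x → u₂.1 i = u.1 i := by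
    intro i hi
    change homogeneousComponent (e + 1) (u₁ i) = u.1 i
    rw [hu₁x i hi, homogeneousComponent_of_mem (hudeg i), if_pos rfl]
  have hu₂dg : u₂ ∈ (KLFin.theta s N).dg (e + 1) := fun i => homogeneousComponent_isHomogeneous _ _
  have hu₂supp : ∀ i, (KLFin.theta s N).π i ∉ Le (Up κ) x → u₂.1 i = 0 := by
    intro i hi
    change homogeneousComponent (e + 1) (u₁ i) = 0
    rw [hu₁.2 i hi, map_zero]
  obtain ⟨G, hG, hGd, hGv⟩ := h (KLFin.theta s N) hNθ (e + 1) u₂ hu₂dg hu₂supp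
  -- second component
  obtain ⟨q, hq⟩ := exists_snd hs' N
  obtain ⟨φ, hφ⟩ := exists_lin_of_el (O := O) hs' (q ∘ₗ G) (N.rmul (al 1 s) ∘ₗ (q ∘ₗ G))
  have hφ' : ∀ a b, φ (el s a b) = q (G a) + N.rmul (al 1 s) (q (G b)) := by
    intro a b; rw [hφ]; rfl
  have hqinv : ∀ f : Rg n, act (sw s) f = f → ∀ w, q ((KLFin.theta s N).rmul f w) = N.rmul f (q w) := by
    intro f hf w
    obtain ⟨c, d, rfl⟩ := el_surj w
    rw [rmul_el_inv hs' hf, hq, hq]
  have hφinv : ∀ f : Rg n, act (sw s) f = f → ∀ w, φ ((KLFin.theta s O).rmul f w) = N.rmul f (φ w) := by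
    intro f hf w
    obtain ⟨a, b, rfl⟩ := el_surj w
    rw [rmul_el_inv hs' hf, hφ', hφ', hG.rmul, hG.rmul, hqinv f hf, hqinv f hf, map_add]
    congr 1
    rw [← Obj.rmul_mul, ← Obj.rmul_mul, mul_comm]
  have hal2 : act (sw s) (al 1 s * al 1 s) = al 1 s * al 1 s := by
    rw [map_mul, act_sw_al]; ring
  have hφal : ∀ w, φ ((KLFin.theta s O).rmul (al 1 s) w) = N.rmul (al 1 s) (φ w) := by
    intro w
    obtain ⟨a, b, rfl⟩ := el_surj w
    rw [rmul_el_al hs', hφ', hφ', hG.rmul, hqinv _ hal2, map_add, Obj.rmul_mul, add_comm]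
  refine ⟨φ, ?_, ?_, ?_⟩
  · intro j w
    rw [rmul_X_eq hs', rmul_X_eq hs' j (φ w), map_add, map_smul, hφinv _ (act_sw_uPart s j), hφal]
  · -- degree
    have hqG : ∀ i : ℕ, ∀ a ∈ O.dg i, q (G a) ∈ N.dg (i + e) := by
      intro i a ha
      have h1 := (hGd i a ha).1 (i + e + 1) (by push_cast; ring)
      obtain ⟨c, d, hcd⟩ := el_surj (G a)
      rw [hcd, el_mem_dg hs'] at h1
      rw [hcd, hq]
      exact h1.2
    intro i w hw
    obtain ⟨a, b, rfl⟩ := el_surj w
    refine ⟨?_, fun hneg => absurd hneg (by push_cast; omega)⟩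
    intro j hj
    have hj' : j = i + e := by omega
    subst hj'
    rw [hφ']
    cases i with
    | zero =>
      rw [el_mem_dg0 hs'] at hw
      rw [hw.2, map_zero, map_zero, map_zero, add_zero]
      exact hqG 0 a hw.1
    | succ i =>
      rw [el_mem_dg hs'] at hw
      refine Submodule.add_mem _ (hqG (i + 1) a hw.1) ?_
      have h3 := rmul_mem_dg (al_homog 1 s) (hqG i b hw.2)
      have e3 : i + e + 1 = i + 1 + e := by omega
      rw [e3] at h3
      exact h3
  · intro i hi
    rw [hφ', map_zero, map_zero, map_zero, add_zero]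
    obtain ⟨c, d, hcd⟩ := el_surj (G b0)
    rw [hcd, hq]
    -- values of `G b0`
    have key : ∀ k : (KLFin.theta s N).I,
        (G b0).1 k = c.1 k.1 + al ((KLFin.theta s N).π k) s * d.1 k.1 := by
      intro k
      rw [hcd, el_val]
    have hv1' : (KLFin.theta s N).π ((i, true) : N.I × Bool) = x := by
      change (if true then N.π i * sw s else N.π i) = x
      rw [if_pos rfl, hi, hxx]
    have hv2' : (KLFin.theta s N).π ((i, false) : N.I × Bool) = x * sw s := by
      change (if false then N.π i * sw s else N.π i) = x * sw s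
      rw [if_neg (by simp), hi]
    have hv1 : c.1 i + al x s * d.1 i = (al x s + al x s) * m.1 i := by
      have h1 := key ((i, true) : N.I × Bool)
      have h2 := hGv ((i, true) : N.I × Bool) hv1'
      have h3 := hu₂x ((i, true) : N.I × Bool) hv1'
      have h4 := huval ((i, true) : N.I × Bool)
      rw [hv1'] at h1 h4
      exact h1.symm.trans (h2.trans (h3.trans h4))
    have hv2 : c.1 i + -al x s * d.1 i = 0 := by
      have h1 := key ((i, false) : N.I × Bool)
      rw [hv2', al_mul_sw] at h1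
      refine h1.symm.trans ?_
      refine hG.vanish (y := x * sw s) ?_ ((i, false) : N.I × Bool) hv2'
      intro k hk
      apply hsupp
      rw [hk]
      intro hmem
      have := (Le_len hmem).1
      omega
    have hal : al x s ≠ 0 := al_ne_zero hs' x
    have h2 : (2 : Rg n) ≠ 0 := by
      intro h0
      have := C_half_two (n := n)
      rw [h0, mul_zero] at this
      exact zero_ne_one this
    have h4 : (2 * al x s) * (d.1 i - m.1 i) = 0 := by
      linear_combination hv1 - hv2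
    have h5 := (mul_eq_zero.mp h4).resolve_left (mul_ne_zero h2 hal)
    exact sub_eq_zero.mp h5

theorem LiftProp.summand {x : Pm n} {O P : Obj n} {b0 : P.M} (h : LiftProp κ x P b0)
    (i : O.M →ₗ[Rg n] P.M) (p : P.M →ₗ[Rg n] O.M) (hi : BiMap i) (hp : BiMap p)
    (hid : DegMap i 0) (hpi : ∀ m, p (i m) = m)
    (hx : ∀ k, P.π k = x → (i (p b0)).1 k = b0.1 k) : LiftProp κ x O (p b0) := by
  intro N hN e m hm hmsupp
  obtain ⟨φ, hφ, hφd, hφv⟩ := h N hN e m hm hmsupp
  refine ⟨φ ∘ₗ i, ?_, ?_, ?_⟩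
  · intro j w
    rw [LinearMap.comp_apply, hi, hφ]; rfl
  · intro k a ha
    have h1 := (hid k a ha).1 k (by ring)
    exact hφd k (i a) h1
  · intro k hk
    rw [LinearMap.comp_apply, ← hφv k hk]
    have h1 : ∀ k, P.π k = x → (i (p b0) - b0).1 k = 0 := by
      intro k hk
      have e1 : (i (p b0) - b0).1 k = (i (p b0)).1 k - b0.1 k := rfl
      rw [e1, hx k hk, sub_self]
    have h2 := hφ.vanish h1 k hk
    rw [map_sub] at h2
    have e2 : (φ (i (p b0)) - φ b0).1 k = (φ (i (p b0))).1 k - (φ b0).1 k := rfl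
    rw [e2] at h2
    exact sub_eq_zero.mp h2

theorem LiftProp_Re : LiftProp κ 1 (Re n) ⟨fun _ => 1, trivial⟩ := by
  intro N hN e m hm hmsupp
  have hsup : ∀ i, N.π i ≠ 1 → m.1 i = 0 := by
    intro i hi
    apply hmsupp
    intro hmem
    apply hi
    have h1 := Le_len hmem
    rw [len_one] at h1
    exact h1.2 (by omega)
  let φ : (Re n).M →ₗ[Rg n] N.M :=
    { toFun := fun f => (f.1 () : Rg n) • m
      map_add' := fun a b => by
        have e : (a + b).1 () = a.1 () + b.1 () := rfl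
        rw [e, add_smul]
      map_smul' := fun c a => by
        have e : (c • a).1 () = c * a.1 () := rfl
        rw [e, mul_smul]; rfl }
  have hφv : ∀ f, φ f = (f.1 () : Rg n) • m := fun f => rfl
  refine ⟨φ, ?_, ?_, ?_⟩
  · intro j f
    rw [hφv, hφv]
    ext1
    funext i
    have e0 : ((Re n).rmul (X j) f).1 () = X j * f.1 () := by
      change act 1 (X j) * f.1 () = _
      rw [act_one]
    have e1 : ((((Re n).rmul (X j) f).1 ()) • m).1 i = (X j * f.1 ()) * m.1 i := by
      change (((Re n).rmul (X j) f).1 ()) * m.1 i = _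
      rw [e0]
    have e2 : (N.rmul (X j) (f.1 () • m)).1 i = X (N.π i j) * (f.1 () * m.1 i) := by
      rw [Obj.rmul_val, act_X]; rfl
    rw [e1, e2]
    by_cases hi : N.π i = 1
    · rw [hi]; simp [mul_assoc]
    · rw [hsup i hi]; simp
  · intro i a ha
    refine ⟨?_, fun hneg => absurd hneg (by push_cast; omega)⟩
    intro j hj
    have hj' : j = e + i := by omega
    subst hj'
    rw [hφv]
    exact smul_mem_dg (ha ()) hm
  · intro i hi
    rw [hφv]
    change (1 : Rg n) * m.1 i = m.1 i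
    rw [one_mul]

end KLFin
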