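import Mathlib
import Pool.Agent.KLFin.CB1
import Pool.Agent.KLFin.CB2
import Pool.Agent.KLFin.CDefs3
import Pool.Agent.KLFin.NI2
import Pool.Agent.KLFin.DC3

/-!
# Part C, block CC0: Bott-Samelson objects of reduced words, translations (MP_d9d356_co)
-/

open MvPolynomial

namespace KLFin

variable {n : ℕ} {κ : Fin n → ℕ}

theorem BS_one_mem (l : List (Fin n × Fin n)) : (fun _ => 1) ∈ (BS l).M := by
  induction l with
  | nil => trivial
  | cons s l ih =>
      refine ⟨(fun _ => 1, 0), ⟨ih, (BS l).M.zero_mem⟩, ?_⟩
      funext p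
      simp [elFun]

theorem cc0_inW {l : List (Fin n × Fin n)} (hl : ∀ s ∈ l, Smp κ s) : InW κ (wprod l) := by
  induction l with
  | nil => exact InW_one
  | cons s l ih =>
      exact (ih fun t ht => hl t (List.mem_cons_of_mem _ ht)).mul
        (hl s List.mem_cons_self).inW

/-- the two possibilities for a simple reflection -/
theorem cc0_up_or_dn {y : Pm n} (hy : InW κ y) {s : Fin n × Fin n} (hs : Smp κ s) :
    Up κ y (y * sw s) ∨ Up κ (y * sw s) y := by
  rcases lt_trichotomy (y s.1) (y s.2) with h | h | h
  · exact Or.inl ((up_sw_iff hy hs).2 h)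
  · exact absurd (y.injective h) (ne_of_lt hs.1)
  · exact Or.inr ((dn_sw_iff hy hs).2 h)

theorem cc0_len_le {l : List (Fin n × Fin n)} (hl : ∀ s ∈ l, Smp κ s) :
    len κ (wprod l) ≤ l.length := by
  induction l with
  | nil => exact le_of_eq len_one
  | cons s l ih =>
      have hl' : ∀ t ∈ l, Smp κ t := fun t ht => hl t (List.mem_cons_of_mem _ ht)
      have hs := hl s List.mem_cons_self
      have hy := cc0_inW hl'
      have h1 := ih hl'
      show len κ (wprod l * sw s) ≤ _
      rw [List.length_cons]
      rcases cc0_up_or_dn hy hs with h | h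
      · rw [len_mul_sw hy hs h]; omega
      · have := h.len_lt; omega

/-- the last letter of a reduced word goes up -/
theorem cc0_cons {s : Fin n × Fin n} {l : List (Fin n × Fin n)} (hl : ∀ t ∈ s :: l, Smp κ t)
    (hred : (s :: l).length = len κ (wprod (s :: l))) :
    (∀ t ∈ l, Smp κ t) ∧ Smp κ s ∧ l.length = len κ (wprod l) ∧
      Up κ (wprod l) (wprod l * sw s) := by
  have hl' : ∀ t ∈ l, Smp κ t := fun t ht => hl t (List.mem_cons_of_mem _ ht)
  have hs := hl s List.mem_cons_self
  have hy := cc0_inW hl'
  have h1 := cc0_len_le hl'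
  have h2 : l.length + 1 = len κ (wprod l * sw s) := hred
  rcases cc0_up_or_dn hy hs with h | h
  · have h3 := len_mul_sw hy hs h
    exact ⟨hl', hs, by omega, h⟩
  · have := h.len_lt
    omega

/-- all points of the Bott-Samelson object of a reduced word lie below the product -/
theorem cc0_le {l : List (Fin n × Fin n)} (hl : ∀ s ∈ l, Smp κ s)
    (hred : l.length = len κ (wprod l)) (i : (BS l).I) :
    (BS l).π i ∈ Le (Up κ) (wprod l) := by
  induction l with
  | nil => exact Relation.ReflTransGen.refl
  | cons s l ih =>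
      obtain ⟨hl', hs, hred', hup⟩ := cc0_cons hl hred
      have hy := cc0_inW hl'
      obtain ⟨j, ε⟩ := i
      have h1 : (BS l).π j ∈ Le (Up κ) (wprod l) := ih hl' hred' j
      have h2 : (BS l).π j ∈ Le (Up κ) (wprod l * sw s) :=
        Relation.ReflTransGen.tail h1 hup
      show (if ε then (BS l).π j * sw s else (BS l).π j) ∈ Le (Up κ) (wprod l * sw s)
      cases ε
      · simpa using h2
      · have h3 : wprod l * sw s * sw s = wprod l := by
          rw [mul_assoc, sw_mul_sw, mul_one]
        have h4 : Up κ (wprod l * sw s * sw s) (wprod l * sw s) := by rw [h3]; exact hup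
        simpa using Le_mul_sw (Or.inl rfl) (hy.mul hs.inW) hs h4 h2

/-- for a reduced word there is exactly one index over the product -/
theorem BS_full {l : List (Fin n × Fin n)} (hl : ∀ s ∈ l, Smp κ s)
    (hred : l.length = len κ (wprod l)) : ∃! i, (BS l).π i = wprod l := by
  induction l with
  | nil => exact ⟨(), rfl, fun _ _ => rfl⟩
  | cons s l ih =>
      obtain ⟨hl', hs, hred', hup⟩ := cc0_cons hl hred
      obtain ⟨i0, h0, huniq⟩ := ih hl' hred'
      simp only at h0 huniq
      refine ⟨(i0, true), ?_, ?_⟩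
      · show (if true then (BS l).π i0 * sw s else (BS l).π i0) = wprod l * sw s
        rw [if_pos rfl, h0]
      · rintro ⟨j, ε⟩ hj
        have hj' : (if ε then (BS l).π j * sw s else (BS l).π j) = wprod l * sw s := hj
        cases ε
        · exfalso
          have h1 : (BS l).π j = wprod l * sw s := by simpa using hj'
          have h2 := (Le_len (cc0_le hl' hred' j)).1
          rw [h1] at h2
          have h3 := hup.len_lt
          omega
        · have h1 : (BS l).π j * sw s = wprod l * sw s := by simpa using hj'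
          have h2 : (BS l).π j = wprod l := mul_right_cancel h1
          rw [huniq j h2]

theorem BS_supp {l : List (Fin n × Fin n)} (hl : ∀ s ∈ l, Smp κ s)
    (hred : l.length = len κ (wprod l)) (m : (BS l).M) (i : (BS l).I)
    (hi : (BS l).π i ∉ Le (Up κ) (wprod l)) : m.1 i = 0 :=
  absurd (cc0_le hl hred i) hi

theorem LiftProp_BS {l : List (Fin n × Fin n)} (hl : ∀ s ∈ l, Smp κ s)
    (hred : l.length = len κ (wprod l)) :
    LiftProp κ (wprod l) (BS l) ⟨fun _ => 1, BS_one_mem l⟩ := by
  induction l with
  | nil => exact LiftProp_Re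
  | cons s l ih =>
      obtain ⟨hl', hs, hred', hup⟩ := cc0_cons hl hred
      obtain ⟨i0, h0, huniq⟩ := BS_full hl' hred'
      simp only at h0 huniq
      have h1 := LiftProp.theta (cc0_inW hl') hs hup (Nice_BS hl') (ih hl' hred')
        (fun _ => isHomogeneous_one _ _) (BS_supp hl' hred')
        (fun m => ⟨m.1 i0, fun i hi => by rw [huniq i hi]; simp⟩) ⟨i0, h0, one_ne_zero⟩
      have h2 : el s (⟨fun _ => 1, BS_one_mem l⟩ : (BS l).M) 0 =
          (⟨fun _ => 1, BS_one_mem (s :: l)⟩ : (BS (s :: l)).M) := by
        apply Subtype.ext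
        funext p
        simp [el, elFun]
      rw [h2] at h1
      exact h1

theorem tr_trInv (κ : Fin n → ℕ) (f : Rg n) :
    tr κ (trInv κ f) = f ∧ trInv κ (tr κ f) = f := by
  have h1 : (tr κ).comp (trInv κ) = AlgHom.id ℝ (Rg n) := by
    apply MvPolynomial.algHom_ext
    intro i
    simp [tr, trInv]
  have h2 : (trInv κ).comp (tr κ) = AlgHom.id ℝ (Rg n) := by
    apply MvPolynomial.algHom_ext
    intro i
    simp [tr, trInv]
  exact ⟨DFunLike.congr_fun h1 f, DFunLike.congr_fun h2 f⟩

theorem tr_act {w : Pm n} (hw : InW κ w) (f : Rg n) : tr κ (act w f) = act w (tr κ f) := by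
  have h1 : (tr κ).comp (act w) = (act w).comp (tr κ) := by
    apply MvPolynomial.algHom_ext
    intro i
    simp [tr, act, hw i]
  exact DFunLike.congr_fun h1 f

end KLFin
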