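import Mathlib
import Pool.Agent.KLFin.CB1
import Pool.Agent.KLFin.CDefs3

/-!
# KL-CC1: the summand `BS'(u)` of `BS(l)` over a coset `W_κ c` (MP_d9d356_co)
-/

open MvPolynomial

namespace KLFin

variable {n : ℕ} {κ : Fin n → ℕ}

namespace CC1

theorem inW_BS {u : List (Fin n × Fin n)} (hu : ∀ s ∈ u, Smp κ s) (i : (BS u).I) :
    InW κ ((BS u).π i) := by
  induction u with
  | nil => exact InW_one
  | cons s u ih =>
    have hs := hu s (by simp)
    have hu' : ∀ s ∈ u, Smp κ s := fun t ht => hu t (by simp [ht])
    obtain ⟨j, e⟩ := i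
    change InW κ (if e = true then (BS u).π j * sw s else (BS u).π j)
    cases e
    · simpa using ih hu' j
    · simpa using (ih hu' j).mul hs.inW

theorem tr_X (κ : Fin n → ℕ) (a : Fin n) : tr κ (X a) = X a + C (κ a : ℝ) := by simp [tr]

theorem trInv_X (κ : Fin n → ℕ) (a : Fin n) : trInv κ (X a) = X a - C (κ a : ℝ) := by
  simp [trInv]

theorem tr_C (κ : Fin n → ℕ) (r : ℝ) : tr κ (C r) = C r := (tr κ).commutes r

theorem trInv_C (κ : Fin n → ℕ) (r : ℝ) : trInv κ (C r) = C r := (trInv κ).commutes r

theorem trInv_tr (κ : Fin n → ℕ) (f : Rg n) : trInv κ (tr κ f) = f := by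
  have : (trInv κ).comp (tr κ) = AlgHom.id ℝ (Rg n) := by
    apply MvPolynomial.algHom_ext
    intro i
    simp [tr_X, trInv_X]
  exact congrArg (fun φ : Rg n →ₐ[ℝ] Rg n => φ f) this

theorem constantCoeff_act (w : Pm n) (f : Rg n) : constantCoeff (act w f) = constantCoeff f := by
  simp [act]

theorem inW_wprod {l : List (Fin n × Fin n)} (hl : ∀ s ∈ l, Smp κ s) : InW κ (wprod l) := by
  induction l with
  | nil => exact InW_one
  | cons s l ih =>
    exact (ih (fun t ht => hl t (by simp [ht]))).mul (hl s (by simp)).inW

theorem len_step {y : Pm n} (hy : InW κ y) {s : Fin n × Fin n} (hs : Smp κ s) :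
    (Up κ y (y * sw s) ∧ len κ (y * sw s) = len κ y + 1) ∨
      (Up κ (y * sw s) y ∧ len κ y = len κ (y * sw s) + 1) := by
  have hne : y s.1 ≠ y s.2 := fun h => absurd (y.injective h) (ne_of_lt hs.1)
  rcases lt_or_gt_of_ne hne with h | h
  · left
    have hu := (up_sw_iff hy hs).2 h
    exact ⟨hu, len_mul_sw hy hs hu⟩
  · right
    have hd : Dn κ y (y * sw s) := (dn_sw_iff hy hs).2 h
    have hu : Up κ (y * sw s) y := hd
    refine ⟨hu, ?_⟩
    have h2 : Up κ (y * sw s) (y * sw s * sw s) := by rw [CB1.mul_sw_mul_sw]; exact hu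
    have := len_mul_sw (hy.mul hs.inW) hs h2
    rw [CB1.mul_sw_mul_sw] at this
    exact this

theorem len_wprod_le {l : List (Fin n × Fin n)} (hl : ∀ s ∈ l, Smp κ s) :
    len κ (wprod l) ≤ l.length := by
  induction l with
  | nil => simp [wprod, len_one]
  | cons s l ih =>
    have h1 := ih (fun t ht => hl t (by simp [ht]))
    have hw : InW κ (wprod l) := inW_wprod (fun t ht => hl t (by simp [ht]))
    rcases len_step hw (hl s (by simp)) with ⟨_, h⟩ | ⟨_, h⟩
    · change len κ (wprod l * sw s) ≤ _
      rw [h]; simpa using h1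
    · change len κ (wprod l * sw s) ≤ _
      simp only [List.length_cons]
      omega

theorem red_cons {s : Fin n × Fin n} {l : List (Fin n × Fin n)} (hl : ∀ t ∈ s :: l, Smp κ t)
    (hred : (s :: l).length = len κ (wprod (s :: l))) :
    l.length = len κ (wprod l) ∧ Up κ (wprod l) (wprod l * sw s) := by
  have hl' : ∀ t ∈ l, Smp κ t := fun t ht => hl t (by simp [ht])
  have h1 := len_wprod_le hl'
  have hw : InW κ (wprod l) := inW_wprod hl'
  change (s :: l).length = len κ (wprod l * sw s) at hred
  simp only [List.length_cons] at hred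
  rcases len_step hw (hl s (by simp)) with ⟨hu, h⟩ | ⟨_, h⟩
  · exact ⟨by omega, hu⟩
  · omega

/-- base case: a minimal coset representative in `W_κ` is trivial -/
theorem min_eq_one {c : Pm n} (hcW : InW κ c)
    (hc : ∀ a b : Fin n, a < b → κ a = κ b → c⁻¹ a < c⁻¹ b) : c = 1 := by
  by_contra hne
  obtain ⟨s, hs, hup⟩ := exists_descent hcW hne
  have h1 : c s.2 < c s.1 := (dn_sw_iff hcW hs).1 hup
  have h2 : κ (c s.2) = κ (c s.1) := by rw [hcW, hcW, hs.2.1]
  have h3 := hc _ _ h1 h2
  rw [CB1.inv_apply', CB1.inv_apply'] at h3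
  exact absurd h3 (not_lt.2 (le_of_lt hs.1))

theorem mem_theta {s : Fin n × Fin n} {O : Obj n} {m : O.I × Bool → Rg n} :
    m ∈ (theta s O).M ↔ ∃ a ∈ O.M, ∃ b ∈ O.M, elFun O.π s (a, b) = m := by
  constructor
  · rintro ⟨⟨a, b⟩, ⟨ha, hb⟩, rfl⟩
    exact ⟨a, ha, b, hb, rfl⟩
  · rintro ⟨a, ha, b, hb, rfl⟩
    exact ⟨(a, b), ⟨ha, hb⟩, rfl⟩

theorem elFun_apply {I : Type} (π : I → Pm n) (s : Fin n × Fin n) (a b : I → Rg n)
    (p : I × Bool) :
    elFun π s (a, b) p = a p.1 + al (if p.2 then π p.1 * sw s else π p.1) s * b p.1 := rfl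

/-- the shifted root `f = x_{c s₁} - x_{c s₂} + κ(c s₁) - κ(c s₂)` -/
noncomputable def froot (κ : Fin n → ℕ) (c : Pm n) (s : Fin n × Fin n) : Rg n :=
  X (c s.1) - X (c s.2) + C ((κ (c s.1) : ℝ) - κ (c s.2))

theorem tr_al (c : Pm n) (s : Fin n × Fin n) {y : Pm n} (hy : InW κ y) :
    tr κ (al (y * c) s) = act y (froot κ c s) := by
  unfold al froot
  rw [map_sub, tr_X, tr_X, map_add, map_sub, act_X, act_X, act_C, Equiv.Perm.mul_apply,
    Equiv.Perm.mul_apply, hy, hy, map_sub]
  ring

theorem tr_al_block (c : Pm n) (s : Fin n × Fin n) {y : Pm n} (hy : InW κ y)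
    (hk : κ (c s.1) = κ (c s.2)) :
    tr κ (al (y * c) s) = al y (c s.1, c s.2) := by
  rw [tr_al c s hy]
  unfold froot al
  rw [hk]
  simp

end CC1

open CC1 in
/-- CC1: the summand `BS'(u)` of `BS(l)` over the coset `W_κ c`, after translation and up to
elements with non-zero constant term -/
theorem coset_words (κ : Fin n → ℕ) (l : List (Fin n × Fin n)) (hl : ∀ s ∈ l, Smp (κ0 n) s)
    (hred : l.length = len (κ0 n) (wprod l)) (w' c : Pm n) (hw' : InW κ w')
    (hc : ∀ a b : Fin n, a < b → κ a = κ b → c⁻¹ a < c⁻¹ b) (hprod : wprod l = w' * c) :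
    ∃ (u : List (Fin n × Fin n)) (ι : (BS u).I → (BS l).I) (g : Rg n),
      (∀ s ∈ u, Smp κ s) ∧ wprod u = w' ∧ u.length = len κ w' ∧ Function.Injective ι ∧
      (∀ i, (BS l).π (ι i) = (BS u).π i * c) ∧ constantCoeff g ≠ 0 ∧
      (∀ m ∈ (BS l).M, (fun i => tr κ (m (ι i))) ∈ (BS u).M) ∧
      (∀ m ∈ (BS u).M, ∃ m' ∈ (BS l).M, (∀ i, m' (ι i) = trInv κ (g * m i)) ∧
        ∀ k, k ∉ Set.range ι → m' k = 0) := by
  induction l generalizing w' c with
  | nil =>
    have h1 : c = w'⁻¹ := by
      have : (1 : Pm n) = w' * c := hprod
      exact (inv_eq_of_mul_eq_one_right this.symm).symm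
    have hcW : InW κ c := h1 ▸ hw'.inv
    have hc1 : c = 1 := min_eq_one hcW hc
    have hw1 : w' = 1 := by
      have h2 := h1.symm
      rw [hc1] at h2
      exact inv_eq_one.1 h2
    subst hc1
    subst hw1
    refine ⟨[], id, 1, by simp, rfl, by simp [len_one], Function.injective_id, ?_, by simp,
      fun _ _ => trivial, fun m _ => ⟨fun i => trInv κ (m i), trivial, fun i => by simp, ?_⟩⟩
    · intro i; simp
    · intro k hk
      exact absurd ⟨k, rfl⟩ hk
  | cons s l ih =>
    have hl' : ∀ t ∈ l, Smp (κ0 n) t := fun t ht => hl t (by simp [ht])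
    have hs : Smp (κ0 n) s := hl s (by simp)
    obtain ⟨hred', hup⟩ := red_cons hl hred
    have hlt : (wprod l) s.1 < (wprod l) s.2 :=
      (up_sw_iff (κ := κ0 n) (fun _ => rfl) hs).1 hup
    have hadj : ∀ k, s.1 < k → k < s.2 → False := fun k h1 h2 => hs.2.2 k h1 h2 rfl
    have hw1 : wprod l = w' * c * sw s := by
      have h : wprod l * sw s = w' * c := hprod
      rw [← h, CB1.mul_sw_mul_sw]
    by_cases hk : κ (c s.1) = κ (c s.2)
    · -- case A
      set s' : Fin n × Fin n := (c s.1, c s.2) with hs'
      have hcs : c * sw s = sw s' * c := by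
        unfold sw
        rw [hs', Equiv.mul_swap_eq_swap_mul]
      have hlt' : c s.1 < c s.2 := by
        rcases lt_trichotomy (c s.1) (c s.2) with h | h | h
        · exact h
        · exact absurd (c.injective h) (ne_of_lt hs.1)
        · have h3 := hc _ _ h hk.symm
          rw [CB1.inv_apply', CB1.inv_apply'] at h3
          exact absurd h3 (not_lt.2 (le_of_lt hs.1))
      have hsmp : Smp κ s' := by
        refine ⟨hlt', hk, fun k h1 h2 h3 => ?_⟩
        have h4 := hc _ _ h1 h3.symm
        have h5 := hc _ _ h2 (h3.trans hk)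
        change c⁻¹ (c s.1) < c⁻¹ k at h4
        change c⁻¹ k < c⁻¹ (c s.2) at h5
        rw [CB1.inv_apply'] at h4 h5
        exact hadj _ h4 h5
      have hw1' : InW κ (w' * sw s') := hw'.mul hsmp.inW
      have hprod' : wprod l = w' * sw s' * c := by rw [hw1, mul_assoc, hcs, mul_assoc]
      obtain ⟨u, ι, g, hu, hwu, hlen, hinj, hπ, hg, hA, hB⟩ :=
        ih hl' hred' (w' * sw s') c hw1' hc hprod'
      have hupκ : Up κ (w' * sw s') (w' * sw s' * sw s') := by
        rw [up_sw_iff hw1' hsmp]
        have := hlt
        rw [hprod'] at this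
        exact this
      have hlen' := len_mul_sw hw1' hsmp hupκ
      rw [CB1.mul_sw_mul_sw] at hlen'
      refine ⟨s' :: u, fun p => (ι p.1, p.2), g, ?_, ?_, ?_, ?_, ?_, hg, ?_, ?_⟩
      · intro t ht
        rcases List.mem_cons.1 ht with rfl | ht
        · exact hsmp
        · exact hu t ht
      · change wprod u * sw s' = w'
        rw [hwu, CB1.mul_sw_mul_sw]
      · rw [List.length_cons, hlen, hlen']
      · rintro ⟨i, e⟩ ⟨j, e'⟩ h
        have h' : (ι i, e) = (ι j, e') := h
        rw [Prod.mk.injEq] at h'
        exact Prod.ext (hinj h'.1) h'.2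
      · rintro ⟨i, e⟩
        change (if e = true then (BS l).π (ι i) * sw s else (BS l).π (ι i)) =
          (if e = true then (BS u).π i * sw s' else (BS u).π i) * c
        cases e
        · simpa using hπ i
        · simp only [if_true]
          rw [hπ i, mul_assoc, mul_assoc, hcs]
      · intro m hm
        obtain ⟨a, ha, b, hb, rfl⟩ := mem_theta.1 hm
        refine mem_theta.2 ⟨_, hA a ha, _, hA b hb, ?_⟩
        funext p
        obtain ⟨i, e⟩ := p
        have hW : InW κ (if e = true then (BS u).π i * sw s' else (BS u).π i) := by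
          cases e
          · simpa using inW_BS hu i
          · simpa using (inW_BS hu i).mul hsmp.inW
        have hidx : (if e = true then (BS l).π (ι i) * sw s else (BS l).π (ι i)) =
            (if e = true then (BS u).π i * sw s' else (BS u).π i) * c := by
          cases e
          · simpa using hπ i
          · simp only [if_true]
            rw [hπ i, mul_assoc, mul_assoc, hcs]
        rw [elFun_apply, elFun_apply]
        simp only
        rw [hidx, map_add, map_mul, tr_al_block c s hW hk]
      · intro m hm
        obtain ⟨a, ha, b, hb, rfl⟩ := mem_theta.1 hm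
        obtain ⟨a', ha', haι, ha0⟩ := hB a ha
        obtain ⟨b', hb', hbι, hb0⟩ := hB b hb
        refine ⟨elFun (BS l).π s (a', b'), mem_theta.2 ⟨a', ha', b', hb', rfl⟩, ?_, ?_⟩
        · rintro ⟨i, e⟩
          have hW : InW κ (if e = true then (BS u).π i * sw s' else (BS u).π i) := by
            cases e
            · simpa using inW_BS hu i
            · simpa using (inW_BS hu i).mul hsmp.inW
          have hidx : (if e = true then (BS l).π (ι i) * sw s else (BS l).π (ι i)) =
              (if e = true then (BS u).π i * sw s' else (BS u).π i) * c := by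
            cases e
            · simpa using hπ i
            · simp only [if_true]
              rw [hπ i, mul_assoc, mul_assoc, hcs]
          rw [elFun_apply, elFun_apply]
          simp only
          rw [hidx, haι, hbι, ← tr_al_block c s hW hk, mul_add, map_add]
          have h9 : g * (tr κ (al ((if e = true then (BS u).π i * sw s' else (BS u).π i) * c) s) *
              b i) = tr κ (al ((if e = true then (BS u).π i * sw s' else (BS u).π i) * c) s) *
              (g * b i) := by ring
          rw [h9, map_mul (trInv κ) (tr κ _), trInv_tr]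
        · rintro ⟨k, e⟩ hk'
          have hk1 : k ∉ Set.range ι := by
            rintro ⟨i, rfl⟩
            exact hk' ⟨(i, e), rfl⟩
          rw [elFun_apply]
          simp only
          rw [ha0 k hk1, hb0 k hk1]
          simp
    · -- case B
      have hne12 : s.1 ≠ s.2 := ne_of_lt hs.1
      have hc1 : ∀ a b : Fin n, a < b → κ a = κ b → (c * sw s)⁻¹ a < (c * sw s)⁻¹ b := by
        intro a b hab hkab
        have h1 := hc a b hab hkab
        have hinv : ∀ x, (c * sw s)⁻¹ x = sw s (c⁻¹ x) := by
          intro x
          rw [mul_inv_rev, CB1.sw_inv]; rfl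
        rw [hinv, hinv]
        -- `s` preserves the order except for the pair `(s.1, s.2)`
        have hnot : ¬ (c⁻¹ a = s.1 ∧ c⁻¹ b = s.2) := by
          rintro ⟨h2, h3⟩
          apply hk
          rw [← h2, ← h3, CB1.apply_inv', CB1.apply_inv']
          exact hkab
        generalize c⁻¹ a = x at h1 hnot
        generalize c⁻¹ b = y at h1 hnot
        unfold sw
        by_cases hx1 : x = s.1
        · subst hx1
          rw [Equiv.swap_apply_left]
          have hy2 : y ≠ s.2 := fun h => hnot ⟨rfl, h⟩
          have hy1 : y ≠ s.1 := fun h => absurd h1 (by rw [h]; exact lt_irrefl _)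
          rw [Equiv.swap_apply_of_ne_of_ne hy1 hy2]
          rcases lt_trichotomy s.2 y with h | h | h
          · exact h
          · exact absurd h.symm hy2
          · exact (hadj y h1 h).elim
        · by_cases hx2 : x = s.2
          · subst hx2
            rw [Equiv.swap_apply_right]
            have hy2 : y ≠ s.2 := fun h => absurd h1 (by rw [h]; exact lt_irrefl _)
            have hy1 : y ≠ s.1 := fun h => by
              rw [h] at h1
              exact absurd h1 (not_lt.2 (le_of_lt hs.1))
            rw [Equiv.swap_apply_of_ne_of_ne hy1 hy2]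
            exact lt_trans hs.1 h1
          · rw [Equiv.swap_apply_of_ne_of_ne hx1 hx2]
            by_cases hy1 : y = s.1
            · subst hy1
              rw [Equiv.swap_apply_left]
              exact lt_trans h1 hs.1
            · by_cases hy2 : y = s.2
              · subst hy2
                rw [Equiv.swap_apply_right]
                rcases lt_trichotomy x s.1 with h | h | h
                · exact h
                · exact absurd h hx1
                · exact (hadj x h h1).elim
              · rw [Equiv.swap_apply_of_ne_of_ne hy1 hy2]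
                exact h1
      have hprod' : wprod l = w' * (c * sw s) := by rw [hw1, mul_assoc]
      obtain ⟨u, ι, g, hu, hwu, hlen, hinj, hπ, hg, hA, hB⟩ :=
        ih hl' hred' w' (c * sw s) hw' hc1 hprod'
      classical
      -- the invariant `N = ∏_{v ∈ W_κ} v f` and the cofactor `h`
      set f : Rg n := froot κ c s with hf
      set W : Finset (Pm n) := Finset.univ.filter (fun v => InW κ v) with hW
      set N : Rg n := ∏ v ∈ W, act v f with hN
      set h : Rg n := ∏ v ∈ W.erase 1, act v f with hh
      have h1W : (1 : Pm n) ∈ W := by rw [hW]; simp [InW_one]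
      have hfh : f * h = N := by
        rw [hN, ← Finset.mul_prod_erase W _ h1W, act_one]
      have hNinv : ∀ y : Pm n, InW κ y → act y N = N := by
        intro y hy
        rw [hN, map_prod]
        apply Finset.prod_bij (fun v _ => y * v)
        · intro v hv
          simp only [hW, Finset.mem_filter, Finset.mem_univ, true_and] at hv ⊢
          exact hy.mul hv
        · intro v _ v' _ hvv
          exact mul_left_cancel hvv
        · intro v hv
          simp only [hW, Finset.mem_filter, Finset.mem_univ, true_and] at hv
          refine ⟨y⁻¹ * v, ?_, by simp⟩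
          simp only [hW, Finset.mem_filter, Finset.mem_univ, true_and]
          exact hy.inv.mul hv
        · intro v _
          rw [act_mul]
      have hfc : constantCoeff f ≠ 0 := by
        rw [hf]
        unfold froot
        simp only [map_add, map_sub, constantCoeff_X, constantCoeff_C, sub_zero, zero_add]
        intro h0
        apply hk
        have : (κ (c s.1) : ℝ) = κ (c s.2) := by linarith
        exact_mod_cast this
      have hNc : constantCoeff N ≠ 0 := by
        rw [hN, map_prod]
        apply Finset.prod_ne_zero_iff.2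
        intro v _
        rw [constantCoeff_act]
        exact hfc
      have hcc : c * sw s * sw s = c := CB1.mul_sw_mul_sw c s
      refine ⟨u, fun i => (ι i, true), 2 * g * N, hu, hwu, hlen, ?_, ?_, ?_, ?_, ?_⟩
      · intro i j hij
        have h' : (ι i, true) = (ι j, true) := hij
        rw [Prod.mk.injEq] at h'
        exact hinj h'.1
      · intro i
        change (if true = true then (BS l).π (ι i) * sw s else (BS l).π (ι i)) = _
        rw [if_pos rfl, hπ i, mul_assoc, hcc]
      · rw [map_mul, map_mul]
        simp only [map_ofNat]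
        exact mul_ne_zero (mul_ne_zero (by norm_num) hg) hNc
      · intro m hm
        obtain ⟨a, ha, b, hb, rfl⟩ := mem_theta.1 hm
        have h1 := (BS u).M.add_mem (hA a ha) ((BS u).rmul_mem f _ (hA b hb))
        convert h1 using 1
        funext i
        rw [elFun_apply]
        simp only [if_true, Pi.add_apply]
        rw [hπ i, mul_assoc, hcc, map_add, map_mul, tr_al c s (inW_BS hu i)]
      · intro m hm
        obtain ⟨b', hb', hbι, hb0⟩ := hB _ ((BS u).rmul_mem h m hm)
        have ha' := (BS l).rmul_mem (al 1 s) b' hb'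
        refine ⟨elFun (BS l).π s (-(fun i => act ((BS l).π i) (al 1 s) * b' i), b'),
          mem_theta.2 ⟨_, (BS l).M.neg_mem ha', b', hb', rfl⟩, ?_, ?_⟩
        · intro i
          rw [elFun_apply]
          simp only [if_true, Pi.neg_apply]
          rw [hbι i, ← al_eq_act]
          have h2 : al ((BS l).π (ι i)) s = - al ((BS l).π (ι i) * sw s) s := by
            rw [al_mul_sw, neg_neg]
          rw [h2, hπ i, mul_assoc ((BS u).π i), hcc]
          have h3 : al ((BS u).π i * c) s = trInv κ (act ((BS u).π i) f) := by
            rw [hf, ← tr_al c s (inW_BS hu i), trInv_tr]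
          rw [h3]
          have h4 : (2 * g * N * m i : Rg n) =
              2 * (act ((BS u).π i) f * (g * (act ((BS u).π i) h * m i))) := by
            have h5 : act ((BS u).π i) f * act ((BS u).π i) h = N := by
              rw [← map_mul, hfh, hNinv _ (inW_BS hu i)]
            rw [← h5]; ring
          rw [h4, map_mul (trInv κ) 2, map_mul (trInv κ) (act ((BS u).π i) f)]
          simp only [map_ofNat]
          ring
        · rintro ⟨k, e⟩ hk'
          rw [elFun_apply]
          simp only [Pi.neg_apply]
          by_cases hkr : k ∈ Set.range ι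
          · obtain ⟨i, rfl⟩ := hkr
            have he : e = false := by
              cases e
              · rfl
              · exact absurd ⟨i, rfl⟩ hk'
            subst he
            simp only [Bool.false_eq_true, if_false]
            rw [← al_eq_act]
            ring
          · rw [hb0 k hkr]
            simp

end KLFin
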