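import Mathlib
import Pool.Agent.KLFin.CDefs2

/-!
# Part C, block FR2: adjoints and restriction of a form to a self-adjoint idempotent
-/

open MvPolynomial

namespace KLFin

variable {n : ℕ}

namespace FR2

/-! ### homogeneous components -/

/-- the homogeneous component of degree `d` -/
noncomputable def cmp (O : Obj n) (d : ℕ) : O.M →ₗ[ℝ] O.M where
  toFun m := ⟨fun i => homogeneousComponent d (m.1 i), O.graded m.1 m.2 d⟩
  map_add' a b := by ext1; funext i; simp
  map_smul' c a := by ext1; funext i; simp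

theorem cmp_val (O : Obj n) (d : ℕ) (m : O.M) (i : O.I) :
    (cmp O d m).1 i = homogeneousComponent d (m.1 i) := rfl

theorem cmp_mem (O : Obj n) (d : ℕ) (m : O.M) : cmp O d m ∈ O.dg d :=
  fun i => homogeneousComponent_isHomogeneous d (m.1 i)

theorem mem_dg {O : Obj n} {d : ℕ} {m : O.M} : m ∈ O.dg d ↔ ∀ i, (m.1 i).IsHomogeneous d :=
  Iff.rfl

theorem cmp_self {O : Obj n} {d : ℕ} {m : O.M} (h : m ∈ O.dg d) : cmp O d m = m := by
  ext1; funext i
  rw [cmp_val, homogeneousComponent_of_mem (h i), if_pos rfl]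

theorem cmp_ne {O : Obj n} {d e : ℕ} {m : O.M} (h : m ∈ O.dg d) (hde : e ≠ d) :
    cmp O e m = 0 := by
  ext1; funext i
  rw [cmp_val, homogeneousComponent_of_mem (h i), if_neg hde]
  rfl

theorem exists_sum (O : Obj n) (m : O.M) :
    ∃ N : ℕ, m = ∑ d ∈ Finset.range N, cmp O d m := by
  refine ⟨(Finset.univ.sup fun i => (m.1 i).totalDegree) + 1, ?_⟩
  ext1; funext i
  have h1 : (∑ d ∈ Finset.range ((Finset.univ.sup fun i => (m.1 i).totalDegree) + 1),
      cmp O d m).1 i = ∑ d ∈ Finset.range ((Finset.univ.sup fun i => (m.1 i).totalDegree) + 1),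
      homogeneousComponent d (m.1 i) := by
    rw [AddSubmonoidClass.coe_finsetSum, Finset.sum_apply]
    rfl
  rw [h1]
  conv_lhs => rw [← sum_homogeneousComponent (m.1 i)]
  apply Finset.sum_subset
  · intro k hk
    rw [Finset.mem_range] at hk ⊢
    have := Finset.le_sup (f := fun i => (m.1 i).totalDegree) (Finset.mem_univ i)
    omega
  · intro k _ hk
    rw [Finset.mem_range, not_lt] at hk
    exact homogeneousComponent_eq_zero _ _ (by omega)

/-- a property of all homogeneous elements extends -/
theorem lin_eq_zero {O : Obj n} {V : Type} [AddCommGroup V] [Module ℝ V] (g : O.M →ₗ[ℝ] V)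
    (h : ∀ l, ∀ a ∈ O.dg l, g a = 0) (a : O.M) : g a = 0 := by
  obtain ⟨N, hN⟩ := exists_sum O a
  rw [hN, map_sum]
  exact Finset.sum_eq_zero fun d _ => h d _ (cmp_mem O d a)

theorem bimap_rmul {O P : Obj n} {φ : O.M →ₗ[Rg n] P.M} (hφ : BiMap φ) (f : Rg n) (m : O.M) :
    φ (O.rmul f m) = P.rmul f (φ m) := by
  have hC : ∀ (Q : Obj n) (c : ℝ) (m : Q.M), Q.rmul (C c) m = (C c : Rg n) • m := by
    intro Q c m
    ext1; funext i
    simp
  induction f using MvPolynomial.induction_on generalizing m with
  | C a => rw [hC, hC, map_smul]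
  | add p q hp hq => rw [Obj.rmul_add, Obj.rmul_add, map_add, hp, hq]
  | mul_X p j hp => rw [Obj.rmul_mul, Obj.rmul_mul, hp, hφ]

end FR2

open FR2

/-- adjoints -/
theorem exists_adjoint {O P : Obj n} {d d' : ℕ} (Fm : Frm O d) (Gm : Frm P d')
    (φ : O.M →ₗ[Rg n] P.M) (hφ : BiMap φ) :
    ∃ ψ : P.M →ₗ[Rg n] O.M, BiMap ψ ∧ (∀ m b, Fm.F (ψ m) b = Gm.F m (φ b)) ∧
      ∀ e : ℤ, DegMap φ e → DegMap ψ (e + d - d') := by
  have hex : ∀ m : P.M, ∃ c : O.M, ∀ a, Gm.F m (φ a) = Fm.F a c := by
    intro m
    obtain ⟨b, hb⟩ := Fm.perfect ((Gm.F m).comp (φ.restrictScalars ℝ)) (by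
      intro f a
      simp only [LinearMap.comp_apply, LinearMap.restrictScalars_apply]
      rw [bimap_rmul hφ, Gm.symm, Gm.right, Gm.symm])
    exact ⟨b, hb⟩
  choose ψ hψ using hex
  have huniq : ∀ c c' : O.M, (∀ a, Fm.F a c = Fm.F a c') → c = c' := by
    intro c c' h
    rw [← sub_eq_zero]
    apply Fm.nondeg
    intro a
    rw [map_sub, h a, sub_self]
  have hψ' : ∀ m b, Fm.F (ψ m) b = Gm.F m (φ b) := by
    intro m b
    rw [hψ, Fm.symm]
  let Ψ : P.M →ₗ[Rg n] O.M :=
    { toFun := ψ
      map_add' := by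
        intro m m'
        apply huniq
        intro a
        rw [← hψ, map_add, map_add, LinearMap.add_apply, hψ, hψ]
      map_smul' := by
        intro f m
        apply huniq
        intro a
        rw [← hψ, RingHom.id_apply, Gm.left, ← map_smul, hψ, Fm.left] }
  refine ⟨Ψ, ?_, hψ', ?_⟩
  · intro j m
    apply huniq
    intro a
    change Fm.F a (ψ _) = Fm.F a (O.rmul (X j) (ψ m))
    rw [← hψ, Gm.right, hψ, Fm.symm a (O.rmul (X j) (ψ m)), Fm.right, Fm.symm]
  · intro e he i m hm
    -- all components of the wrong degree vanish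
    have key : ∀ k : ℕ, (k : ℤ) ≠ i + (e + d - d') → cmp O k (ψ m) = 0 := by
      intro k hk
      apply Fm.nondeg
      intro a
      have h0 : ∀ a, Fm.F a (cmp O k (ψ m)) = (Fm.F.flip (cmp O k (ψ m))) a := fun a => rfl
      rw [h0]
      refine lin_eq_zero (Fm.F.flip (cmp O k (ψ m))) (fun l a ha => ?_) a
      rw [LinearMap.flip_apply]
      by_cases hlk : l + k < d
      · exact Fm.deg0 l k a ha _ (cmp_mem O k _) hlk
      push Not at hlk
      obtain ⟨t, ht⟩ : ∃ t, l + k = t + d := ⟨l + k - d, by omega⟩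
      have h1 : (Fm.F a (cmp O k (ψ m))).IsHomogeneous t :=
        Fm.deg l k t a ha _ (cmp_mem O k _) ht
      -- the component of degree `t` of `Fm.F a (ψ m)`
      have h2 : homogeneousComponent t (Fm.F a (ψ m)) = Fm.F a (cmp O k (ψ m)) := by
        obtain ⟨N, hN⟩ := exists_sum O (ψ m)
        have h3 : Fm.F a (ψ m) = ∑ k' ∈ Finset.range N, Fm.F a (cmp O k' (ψ m)) := by
          conv_lhs => rw [hN]
          rw [map_sum]
        have h4 : ∀ k' : ℕ, homogeneousComponent t (Fm.F a (cmp O k' (ψ m))) =
            if k' = k then Fm.F a (cmp O k (ψ m)) else 0 := by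
          intro k'
          by_cases hkk : k' = k
          · subst hkk
            rw [if_pos rfl, homogeneousComponent_of_mem h1, if_pos rfl]
          · rw [if_neg hkk]
            by_cases hlk' : l + k' < d
            · rw [Fm.deg0 l k' a ha _ (cmp_mem O k' _) hlk', map_zero]
            · push Not at hlk'
              obtain ⟨t', ht'⟩ : ∃ t', l + k' = t' + d := ⟨l + k' - d, by omega⟩
              rw [homogeneousComponent_of_mem (Fm.deg l k' t' a ha _ (cmp_mem O k' _) ht'),
                if_neg (by omega)]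
        rw [h3, map_sum, Finset.sum_congr rfl fun k' _ => h4 k']
        rw [Finset.sum_ite_eq']
        split_ifs with hkN
        · rfl
        · -- the component vanishes
          rw [Finset.mem_range, not_lt] at hkN
          have h5 : cmp O k (ψ m) = 0 := by
            conv_lhs => rw [hN]
            rw [map_sum]
            refine Finset.sum_eq_zero fun k' hk' => ?_
            rw [Finset.mem_range] at hk'
            exact cmp_ne (cmp_mem O k' (ψ m)) (by omega)
          rw [h5, map_zero]
      rw [← h2, ← hψ]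
      -- degree of `Gm.F m (φ a)`
      obtain ⟨q1, q2⟩ := he l a ha
      by_cases hle : (l : ℤ) + e < 0
      · rw [q2 hle, map_zero, map_zero]
      · push Not at hle
        obtain ⟨j, hj⟩ := Int.eq_ofNat_of_zero_le hle
        have q3 := q1 j hj.symm
        by_cases hij : i + j < d'
        · rw [Gm.deg0 i j m hm _ q3 hij, map_zero]
        · push Not at hij
          obtain ⟨t', ht'⟩ : ∃ t', i + j = t' + d' := ⟨i + j - d', by omega⟩
          rw [homogeneousComponent_of_mem (Gm.deg i j t' m hm _ q3 ht'), if_neg]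
          intro htt
          apply hk
          omega
    constructor
    · intro j hj
      have h1 : ψ m = cmp O j (ψ m) := by
        obtain ⟨N, hN⟩ := exists_sum O (ψ m)
        by_cases hjN : j ∈ Finset.range N
        · conv_lhs => rw [hN]
          rw [Finset.sum_eq_single j]
          · intro k _ hkj
            apply key
            rw [← hj]
            exact_mod_cast hkj
          · intro h; exact absurd hjN h
        · have h2 : ψ m = 0 := by
            rw [hN]
            refine Finset.sum_eq_zero fun k hk => ?_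
            apply key
            rw [← hj]
            intro hh
            have : k = j := by exact_mod_cast hh
            exact hjN (this ▸ hk)
          rw [h2, map_zero]
      change ψ m ∈ O.dg j
      rw [h1]
      exact cmp_mem O j _
    · intro hneg
      change ψ m = 0
      obtain ⟨N, hN⟩ := exists_sum O (ψ m)
      rw [hN]
      refine Finset.sum_eq_zero fun k _ => ?_
      apply key
      omega

namespace FR2

/-- the image of a bimodule endomorphism of degree `0` -/
noncomputable def img (O : Obj n) (q : O.M →ₗ[Rg n] O.M) (hq : BiMap q) (hd : DegMap q 0) :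
    Obj n where
  I := O.I
  π := O.π
  M := (LinearMap.range q).map O.M.subtype
  right_mem := by
    rintro _ ⟨_, ⟨b, rfl⟩, rfl⟩ j
    refine ⟨q (O.rmul (X j) b), ⟨_, rfl⟩, ?_⟩
    rw [hq j b]
    funext i
    simp
  graded := by
    rintro _ ⟨_, ⟨b, rfl⟩, rfl⟩ d
    refine ⟨q (cmp O d b), ⟨_, rfl⟩, ?_⟩
    have h1 : cmp O d (q b) = q (cmp O d b) := by
      obtain ⟨N, hN⟩ := exists_sum O b
      have h2 : ∀ k, q (cmp O k b) ∈ O.dg k := fun k =>
        (hd k _ (cmp_mem O k b)).1 k (by simp)
      have h3 : cmp O d (q b) = ∑ k ∈ Finset.range N, cmp O d (q (cmp O k b)) := by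
        conv_lhs => rw [hN]
        rw [map_sum, map_sum]
      rw [h3]
      by_cases hdN : d ∈ Finset.range N
      · rw [Finset.sum_eq_single d]
        · exact cmp_self (h2 d)
        · intro k _ hkd
          exact cmp_ne (h2 k) hkd.symm
        · intro h; exact absurd hdN h
      · have h4 : cmp O d b = 0 := by
          conv_lhs => rw [hN]
          rw [map_sum]
          refine Finset.sum_eq_zero fun k hk => cmp_ne (cmp_mem O k b) ?_
          rintro rfl
          exact hdN hk
        rw [h4, map_zero]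
        refine Finset.sum_eq_zero fun k hk => cmp_ne (h2 k) ?_
        rintro rfl
        exact hdN hk
    rw [← h1]
    rfl

end FR2

/-- restriction of a form to a self-adjoint idempotent -/
theorem Frm.ofIdem {O : Obj n} {d : ℕ} (Fm : Frm O d) (q : O.M →ₗ[Rg n] O.M) (hq : BiMap q)
    (hd : DegMap q 0) (hqq : ∀ m, q (q m) = q m) (ha : ∀ a b, Fm.F (q a) b = Fm.F a (q b)) :
    ∃ (P : Obj n) (Gm : Frm P d) (i : P.M →ₗ[Rg n] O.M) (p : O.M →ₗ[Rg n] P.M),
      (∀ k, ∃ k', P.π k = O.π k') ∧ BiMap i ∧ BiMap p ∧ DegMap i 0 ∧ DegMap p 0 ∧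
      (∀ m, p (i m) = m) ∧ (∀ m, i (p m) = q m) ∧
      (∀ a b, Gm.F a b = Fm.F (i a) (i b)) ∧ (∀ a b, Gm.F (p a) b = Fm.F a (i b)) := by
  have hmem : ∀ m : (img O q hq hd).M, m.1 ∈ O.M := by
    rintro ⟨_, ⟨b, hb, rfl⟩⟩
    exact b.2
  let i : (img O q hq hd).M →ₗ[Rg n] O.M :=
    { toFun := fun m => ⟨m.1, hmem m⟩
      map_add' := by intro a b; rfl
      map_smul' := by intro a b; rfl }
  let p : O.M →ₗ[Rg n] (img O q hq hd).M :=
    { toFun := fun m => ⟨(q m).1, ⟨q m, ⟨m, rfl⟩, rfl⟩⟩
      map_add' := by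
        intro a b
        ext1
        change (q (a + b)).1 = (q a).1 + (q b).1
        rw [map_add]; rfl
      map_smul' := by
        intro c a
        ext1
        change (q (c • a)).1 = c • (q a).1
        rw [map_smul]; rfl }
  have hip : ∀ m, i (p m) = q m := fun m => rfl
  have hpi : ∀ m, p (i m) = m := by
    rintro ⟨_, ⟨_, ⟨b, rfl⟩, rfl⟩⟩
    ext1
    change (q (q b)).1 = (q b).1
    rw [hqq]
  have hqi : ∀ m, q (i m) = i m := by
    intro m
    rw [← hip, hpi]
  have hir : ∀ (f : Rg n) (m : (img O q hq hd).M), i ((img O q hq hd).rmul f m) =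
      O.rmul f (i m) := fun f m => rfl
  have hpr : ∀ (f : Rg n) (m : O.M), p (O.rmul f m) = (img O q hq hd).rmul f (p m) := by
    intro f m
    ext1
    change (q (O.rmul f m)).1 = _
    rw [bimap_rmul hq]
    rfl
  have hid : ∀ (k : ℕ) (m : (img O q hq hd).M), m ∈ (img O q hq hd).dg k → i m ∈ O.dg k :=
    fun k m hm => hm
  let G : (img O q hq hd).M →ₗ[ℝ] (img O q hq hd).M →ₗ[ℝ] Rg n :=
    (Fm.F.compl₂ (i.restrictScalars ℝ)).comp (i.restrictScalars ℝ)
  have hG : ∀ a b, G a b = Fm.F (i a) (i b) := fun a b => rfl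
  refine ⟨img O q hq hd,
    { F := G
      symm := fun a b => Fm.symm _ _
      left := fun f a b => by
        have h1 : i (f • a) = f • i a := map_smul i f a
        have h2 : i (f • b) = f • i b := map_smul i f b
        rw [hG, hG, h1, h2]
        exact Fm.left f (i a) (i b)
      right := fun f a b => Fm.right f (i a) (i b)
      deg := fun k l t a ha' b hb' h => Fm.deg k l t (i a) (hid _ _ ha') (i b) (hid _ _ hb') h
      deg0 := fun k l a ha' b hb' h => Fm.deg0 k l (i a) (hid _ _ ha') (i b) (hid _ _ hb') h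
      perfect := ?_
      nondeg := ?_ }, i, p, fun k => ⟨k, rfl⟩, fun j m => rfl, fun j m => hpr _ _, ?_, ?_, hpi,
      hip, hG, ?_⟩
  · intro g hg
    obtain ⟨b, hb⟩ := Fm.perfect (g.comp (p.restrictScalars ℝ)) (by
      intro f a
      simp only [LinearMap.comp_apply, LinearMap.restrictScalars_apply]
      rw [hpr, hg])
    refine ⟨p b, fun a => ?_⟩
    have h1 := hb (i a)
    simp only [LinearMap.comp_apply, LinearMap.restrictScalars_apply] at h1
    rw [hpi] at h1
    rw [h1, hG, hip, ← ha, hqi]
  · intro b hb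
    have h1 : i b = 0 := by
      apply Fm.nondeg
      intro a
      rw [← hqi b, ← ha, ← hip]
      exact hb (p a)
    have h2 := congrArg p h1
    rw [hpi, map_zero] at h2
    exact h2
  · intro k m hm
    refine ⟨fun j hj => ?_, fun hneg => ?_⟩
    · have : j = k := by simpa using hj
      subst this
      exact hm
    · exfalso
      have : (0 : ℤ) ≤ k := Int.natCast_nonneg k
      omega
  · intro k m hm
    refine ⟨fun j hj => ?_, fun hneg => ?_⟩
    · exact (hd k m hm).1 j hj
    · exfalso
      have : (0 : ℤ) ≤ k := Int.natCast_nonneg k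
      omega
  · intro a b
    change Fm.F (i (p a)) (i b) = _
    rw [hip, ha, hqi]

end KLFin
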