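import Pool.Agent.KLFin.CDefs2

/-!
Part C, block FC (MP_d9d356_co): membership in codimension one.
-/

open MvPolynomial

namespace KLFin

variable {n : ℕ}

/-- coordinates in a basis -/
theorem exists_coord {I : Type} {N : Submodule (Rg n) (I → Rg n)} {k : ℕ}
    {b : Fin k → (I → Rg n)} (hs : Submodule.span (Rg n) (Set.range b) = N) {v : I → Rg n}
    (hv : v ∈ N) : ∃ a : Fin k → Rg n, v = ∑ i, a i • b i := by
  rw [← hs, Submodule.mem_span_range_iff_exists_fun] at hv
  obtain ⟨a, ha⟩ := hv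
  exact ⟨a, ha.symm⟩

theorem coord_eq {I : Type} {k : ℕ} {b : Fin k → (I → Rg n)} (hb : LinearIndependent (Rg n) b)
    {a a' : Fin k → Rg n} (h : ∑ i, a i • b i = ∑ i, a' i • b i) : a = a' := by
  have h1 : ∑ i, (a i - a' i) • b i = 0 := by
    simp only [sub_smul, Finset.sum_sub_distrib, h, sub_self]
  have h2 := Fintype.linearIndependent_iff.mp hb _ h1
  funext i
  exact sub_eq_zero.mp (h2 i)

theorem fun_smul_cancel {I : Type} {c : Rg n} (hc : c ≠ 0) {v w : I → Rg n}
    (h : c • v = c • w) : v = w := by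
  funext i
  have := congrFun h i
  simp only [Pi.smul_apply, smul_eq_mul] at this
  exact mul_left_cancel₀ hc this

theorem GF.mem_of_prime {I : Type} [Fintype I] {N : Submodule (Rg n) (I → Rg n)}
    {p : Polynomial ℕ} (h : GF N p) {v : I → Rg n}
    (hv : ∀ q : Rg n, Prime q → ∃ c, ¬ q ∣ c ∧ c • v ∈ N) (h0 : ∃ c : Rg n, c ≠ 0 ∧ c • v ∈ N) :
    v ∈ N := by
  obtain ⟨k, b, e, -, hb, hs, -⟩ := h
  obtain ⟨c, hc, hcv⟩ := h0
  induction c using UniqueFactorizationMonoid.induction_on_prime with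
  | h₁ => exact absurd rfl hc
  | h₂ x hx =>
    obtain ⟨u, rfl⟩ := hx
    have := N.smul_mem (↑u⁻¹ : Rg n) hcv
    rwa [smul_smul, Units.inv_mul, one_smul] at this
  | h₃ a q ha hq ih =>
    apply ih ha
    obtain ⟨c, hqc, hc'⟩ := hv q hq
    obtain ⟨α, hα⟩ := exists_coord hs hcv
    obtain ⟨β, hβ⟩ := exists_coord hs (N.smul_mem a hc')
    have h1 : ∑ i, (c * α i) • b i = ∑ i, (q * β i) • b i := by
      have e1 : ∑ i, (c * α i) • b i = c • ((q * a) • v) := by
        rw [hα, Finset.smul_sum]; simp only [smul_smul]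
      have e2 : ∑ i, (q * β i) • b i = q • (a • (c • v)) := by
        rw [hβ, Finset.smul_sum]; simp only [smul_smul]
      rw [e1, e2, smul_smul, smul_smul, smul_smul]
      congr 1; ring
    have h2 := coord_eq hb h1
    have h3 : ∀ i, q ∣ α i := by
      intro i
      have : q ∣ c * α i := ⟨β i, congrFun h2 i⟩
      exact (hq.dvd_or_dvd this).resolve_left hqc
    choose γ hγ using h3
    have h4 : a • v = ∑ i, γ i • b i := by
      apply fun_smul_cancel hq.ne_zero
      rw [smul_smul, hα, Finset.smul_sum]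
      apply Finset.sum_congr rfl
      intro i _
      rw [smul_smul, ← hγ i]
    rw [h4, ← hs]
    exact Submodule.sum_mem _ fun i _ =>
      Submodule.smul_mem _ _ (Submodule.subset_span ⟨i, rfl⟩)

theorem dvd_of_prime_local {g a : Rg n} (hg : g ≠ 0)
    (h : ∀ q : Rg n, Prime q → ∃ c, ¬ q ∣ c ∧ g ∣ c * a) : g ∣ a := by
  induction g using UniqueFactorizationMonoid.induction_on_prime with
  | h₁ => exact absurd rfl hg
  | h₂ x hx => exact hx.dvd
  | h₃ g' q hg' hq ih =>
    have h1 : g' ∣ a := by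
      apply ih hg'
      intro r hr
      obtain ⟨c, hc, hd⟩ := h r hr
      exact ⟨c, hc, (Dvd.intro_left q rfl).trans hd⟩
    obtain ⟨a', rfl⟩ := h1
    obtain ⟨c, hc, d, hd⟩ := h q hq
    have h2 : q ∣ c * a' := by
      refine ⟨d, ?_⟩
      apply mul_left_cancel₀ hg'
      linear_combination hd
    obtain ⟨a'', rfl⟩ := (hq.dvd_or_dvd h2).resolve_left hc
    exact ⟨a'', by ring⟩

theorem GF.div_of_prime {I : Type} [Fintype I] {N : Submodule (Rg n) (I → Rg n)}
    {p : Polynomial ℕ} (h : GF N p) {v : I → Rg n} (hvN : v ∈ N) {g : Rg n} (hg : g ≠ 0)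
    (hv : ∀ q : Rg n, Prime q → ∃ c, ¬ q ∣ c ∧ ∃ u ∈ N, c • v = g • u) :
    ∃ u ∈ N, v = g • u := by
  obtain ⟨k, b, e, -, hb, hs, -⟩ := h
  obtain ⟨a, ha⟩ := exists_coord hs hvN
  have h1 : ∀ i, g ∣ a i := by
    intro i
    apply dvd_of_prime_local hg
    intro q hq
    obtain ⟨c, hc, u, hu, hcu⟩ := hv q hq
    obtain ⟨β, hβ⟩ := exists_coord hs hu
    refine ⟨c, hc, β i, ?_⟩
    have h2 : ∑ i, (c * a i) • b i = ∑ i, (g * β i) • b i := by
      have e1 : ∑ i, (c * a i) • b i = c • v := by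
        rw [ha, Finset.smul_sum]; simp only [smul_smul]
      have e2 : ∑ i, (g * β i) • b i = g • u := by
        rw [hβ, Finset.smul_sum]; simp only [smul_smul]
      rw [e1, e2, hcu]
    exact congrFun (coord_eq hb h2) i
  choose γ hγ using h1
  refine ⟨∑ i, γ i • b i, ?_, ?_⟩
  · rw [← hs]
    exact Submodule.sum_mem _ fun i _ =>
      Submodule.smul_mem _ _ (Submodule.subset_span ⟨i, rfl⟩)
  · rw [ha, Finset.smul_sum]
    apply Finset.sum_congr rfl
    intro i _
    rw [smul_smul, ← hγ i]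

end KLFin
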