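import Mathlib
import Pool.Agent.KLFin.CD
import Pool.Agent.KLFin.FC

/-!
# Part C, block DV1: the division lemma (C3) (MP_d9d356_co)
-/

open MvPolynomial

namespace KLFin

variable {n : ℕ} {κ : Fin n → ℕ}

/-- a potential decreasing along `Up` -/
def dv1Pot (y : Pm n) : ℤ := ∑ i : Fin n, (i : ℤ) * ((y⁻¹ i : Fin n) : ℤ)

theorem dv1Pot_lt {y z : Pm n} (h : Up κ y z) : dv1Pot z < dv1Pot y := by
  obtain ⟨a, b, hab, -, hy, rfl⟩ := h
  unfold dv1Pot
  have hne : a ≠ b := ne_of_lt hab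
  rw [← sub_pos, ← Finset.sum_sub_distrib]
  rw [← Finset.add_sum_erase _ _ (Finset.mem_univ a),
    ← Finset.add_sum_erase _ _ (Finset.mem_erase.2 ⟨hne.symm, Finset.mem_univ b⟩)]
  rw [Finset.sum_eq_zero]
  · have h1 : (Equiv.swap a b * y)⁻¹ a = y⁻¹ b := by simp [mul_inv_rev]
    have h2 : (Equiv.swap a b * y)⁻¹ b = y⁻¹ a := by simp [mul_inv_rev]
    rw [h1, h2]
    have h3 : (a : ℤ) < b := by exact_mod_cast hab
    have h4 : ((y⁻¹ a : Fin n) : ℤ) < ((y⁻¹ b : Fin n) : ℤ) := by exact_mod_cast hy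
    nlinarith
  · intro i hi
    rw [Finset.mem_erase, Finset.mem_erase] at hi
    have : (Equiv.swap a b * y)⁻¹ i = y⁻¹ i := by
      simp only [mul_inv_rev, Equiv.swap_inv, Equiv.Perm.coe_mul, Function.comp_apply]
      rw [Equiv.swap_apply_of_ne_of_ne hi.2.1 hi.1]
    rw [this, sub_self]

/-- product of the roots `α_t`, `t y < y` -/
noncomputable def rootProd (κ : Fin n → ℕ) (y : Pm n) : Rg n :=
  ∏ p ∈ Finset.univ.filter (fun p : Fin n × Fin n =>
    p.1 < p.2 ∧ κ p.1 = κ p.2 ∧ y⁻¹ p.2 < y⁻¹ p.1), (X p.1 - X p.2)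

theorem rootProd_homog (y : Pm n) : (rootProd κ y).IsHomogeneous (len κ y) := by
  unfold rootProd len
  rw [Finset.card_eq_sum_ones]
  exact IsHomogeneous.prod _ _ _ (fun p _ => (isHomogeneous_X _ _).sub (isHomogeneous_X _ _))

theorem rootProd_ne_zero (y : Pm n) : rootProd κ y ≠ 0 := by
  unfold rootProd
  rw [Finset.prod_ne_zero_iff]
  intro p hp
  rw [Finset.mem_filter] at hp
  exact (root_prime (ne_of_lt hp.2.1)).ne_zero

theorem Nice.div {O : Obj n} (h : Nice κ O) {J : Type} [Fintype J]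
    {N : Submodule (Rg n) (J → Rg n)} {p : Polynomial ℕ} (hN : GF N p) {y : Pm n}
    (hy : InW κ y) (f : O.M →ₗ[Rg n] (J → Rg n)) (hfN : ∀ m, f m ∈ N)
    (hf : ∀ m : O.M, (∀ i, O.π i = y → m.1 i = 0) → f m = 0)
    {m : O.M} (hm : ∀ i, O.π i ∉ Le (Dn κ) y → m.1 i = 0) :
    ∃ u ∈ N, f m = rootProd κ y • u := by
  classical
  refine hN.div_of_prime (hfN m) (rootProd_ne_zero y) ?_
  intro q hq
  set S := Finset.univ.filter (fun p : Fin n × Fin n =>
    p.1 < p.2 ∧ κ p.1 = κ p.2 ∧ y⁻¹ p.2 < y⁻¹ p.1) with hS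
  by_cases hex : ∃ s ∈ S, q ∣ (X s.1 - X s.2 : Rg n)
  · obtain ⟨⟨a, b⟩, hs, hqs⟩ := hex
    have hs' := hs
    rw [hS, Finset.mem_filter] at hs'
    obtain ⟨-, hab, hk, hinv⟩ := hs'
    simp only at hab hk hinv hqs
    have hassoc : Associated q (X a - X b : Rg n) :=
      hq.irreducible.associated_of_dvd (root_prime (ne_of_lt hab)).irreducible hqs
    set x : Pm n := Equiv.swap a b * y with hx
    have hxa : x⁻¹ a = y⁻¹ b := by simp [hx, mul_inv_rev]
    have hxb : x⁻¹ b = y⁻¹ a := by simp [hx, mul_inv_rev]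
    have htx : Equiv.swap a b * x = y := by simp [hx]
    have hup : Up κ x y := ⟨a, b, hab, hk, by rw [hxa, hxb]; exact hinv, htx.symm⟩
    -- `x` is not `≥ y`
    have hxnot : x ∉ Le (Dn κ) y := by
      intro hmem
      have hlen : ∀ z w : Pm n, Relation.ReflTransGen (Dn κ) z w → dv1Pot z ≤ dv1Pot w := by
        intro z w hzw
        induction hzw with
        | refl => exact le_refl _
        | tail _ hbc ih => exact ih.trans (le_of_lt (dv1Pot_lt hbc))
      exact absurd (dv1Pot_lt hup) (not_lt.2 (hlen x y hmem))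
    obtain ⟨c, hc, v, hv, hcv⟩ := h.star a b hab hk x (by rw [hxa, hxb]; exact hinv) m.1 m.2
      (fun i hi => hm i (by rw [hi]; exact hxnot))
    have hfv : c • f m = (X a - X b : Rg n) • f ⟨v, hv⟩ := by
      rw [← map_smul, ← map_smul, ← sub_eq_zero, ← map_sub]
      apply hf
      intro i hi
      have := hcv i (by rw [htx]; exact hi)
      simp only [Submodule.coe_sub, Submodule.coe_smul, Pi.sub_apply, Pi.smul_apply, smul_eq_mul]
      rw [this, sub_self]
    refine ⟨c * ∏ s ∈ S.erase (a, b), (X s.1 - X s.2), ?_, f ⟨v, hv⟩, hfN _, ?_⟩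
    · intro hd
      rcases hq.dvd_or_dvd hd with h1 | h1
      · exact hc (hassoc.symm.dvd.trans h1)
      · obtain ⟨s, hsm, hsd⟩ := (Prime.dvd_finsetProd_iff hq _).1 h1
        rw [Finset.mem_erase] at hsm
        have hs2 := hsm.2
        rw [hS, Finset.mem_filter] at hs2
        rcases root_dvd_root (ne_of_lt hab) (ne_of_lt hs2.2.1)
          (hassoc.symm.dvd.trans hsd) with ⟨e1, e2⟩ | ⟨e1, e2⟩
        · exact hsm.1 (Prod.ext e1 e2)
        · have := hs2.2.1
          rw [e1, e2] at this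
          exact lt_asymm hab this
    · have hprod : rootProd κ y = (∏ s ∈ S.erase (a, b), (X s.1 - X s.2 : Rg n)) *
          (X a - X b) := by
        have := Finset.prod_erase_mul S (fun s : Fin n × Fin n => (X s.1 - X s.2 : Rg n)) hs
        simp only at this
        rw [this]; rfl
      rw [hprod, mul_comm c, mul_smul, hfv, mul_smul]
  · refine ⟨rootProd κ y, ?_, f m, hfN m, rfl⟩
    intro hd
    obtain ⟨s, hsm, hsd⟩ := (Prime.dvd_finsetProd_iff hq _).1 hd
    exact hex ⟨s, hsm, hsd⟩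

end KLFin
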