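import Mathlib
import Pool.Agent.KLFin.CDefs3
import Pool.Agent.KLFin.CS
import Pool.Agent.KLFin.GF1
import Pool.Agent.KLFin.DV2

/-!
# Block HV1 (C7): vanishing of homomorphisms between KL objects
-/

open MvPolynomial

namespace KLFin

variable {n : ℕ} {κ : Fin n → ℕ}

/-- the numbers: either the strict inequality, or `y = x = z` -/
theorem KLObj.hom_aux {x z : Pm n} (B : KLObj κ x)
    (B' : KLObj κ z) (φ : B.O.M →ₗ[Rg n] B'.O.M) (hφ : BiMap φ) {e : ℤ} (he : DegMap φ e)
    (h0 : φ ≠ 0) :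
    (len κ z : ℤ) < len κ x + 2 * e ∨ (x = z ∧ 0 ≤ e ∧
      ∃ m : B.O.M, ∃ i, B'.O.π i = x ∧ (φ m).1 i ≠ 0) := by
  obtain ⟨y, p, -, hPy, hGF, ⟨m, -, hm⟩, j, hj, hje⟩ :=
    hom_degree B.nice B'.nice B.char φ hφ he h0
  have hp : p = (B'.P y).reflect (len κ z - len κ y) := GF.unique hGF (B'.char.lo y)
  rw [hp, Polynomial.coeff_reflect] at hj
  have hP'y : B'.P y ≠ 0 := by
    intro h
    rw [h, Polynomial.coeff_zero] at hj
    exact hj rfl
  have hdeg := B'.char.deg y hP'y
  have h1 : Polynomial.revAt (len κ z - len κ y) j ≤ (B'.P y).natDegree :=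
    Polynomial.le_natDegree_of_ne_zero hj
  have hjN : j ≤ len κ z - len κ y := by
    by_contra hcon
    have h2 : Polynomial.revAt (len κ z - len κ y) j = j :=
      Polynomial.revAt_eq_self_of_lt (by omega)
    rw [h2] at h1
    omega
  rw [Polynomial.revAt_le hjN] at h1
  by_cases hyz : y = z
  · subst hyz
    have hz1 : (B'.P y).natDegree = 0 := by rw [B'.Px, Polynomial.natDegree_one]
    have hj0 : j = 0 := by omega
    subst hj0
    by_cases hyx : y = x
    · subst hyx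
      have hx1 : (B.P y).natDegree = 0 := by rw [B.Px, Polynomial.natDegree_one]
      right
      rw [hx1] at hje
      refine ⟨rfl, by push_cast at hje; linarith, m, hm⟩
    · left
      have h3 := B.Pdeg y hyx hPy
      push_cast at hje
      omega
  · have h3 := B'.Pdeg y hyz hP'y
    left
    by_cases hyx : y = x
    · subst hyx
      have hx1 : (B.P y).natDegree = 0 := by rw [B.Px, Polynomial.natDegree_one]
      rw [hx1] at hje
      push_cast at hje
      omega
    · have h4 := B.Pdeg y hyx hPy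
      omega

/-- (C7) -/
theorem KLObj.hom_vanish {x z : Pm n} (hx : InW κ x) (hz : InW κ z) (B : KLObj κ x)
    (B' : KLObj κ z) (φ : B.O.M →ₗ[Rg n] B'.O.M) (hφ : BiMap φ) {e : ℤ} (he : DegMap φ e)
    (h0 : φ ≠ 0) :
    (len κ z : ℤ) ≤ len κ x + 2 * e ∧ ((len κ z : ℤ) = len κ x + 2 * e → x = z) := by
  rcases B.hom_aux B' φ hφ he h0 with h | ⟨rfl, h, -⟩
  · exact ⟨h.le, fun h' => absurd h' h.ne⟩
  · exact ⟨by omega, fun _ => rfl⟩

/-- a degree 0 morphism between KL objects of the same type which kills the generator over `x`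
vanishes -/
theorem KLObj.hom_zero {x : Pm n} (hx : InW κ x) (B B' : KLObj κ x)
    (φ : B.O.M →ₗ[Rg n] B'.O.M) (hφ : BiMap φ) (he : DegMap φ 0)
    (h0 : ∀ i, B'.O.π i = x → (φ B.b0).1 i = 0) : φ = 0 := by
  by_contra hne
  rcases B.hom_aux B' φ hφ he hne with h | ⟨-, -, m, i, hi, hmi⟩
  · simp at h
  · apply hmi
    obtain ⟨f, hf⟩ := B.gen m
    have h1 : ∀ i, B.O.π i = x → (m - f • B.b0 : B.O.M).1 i = 0 := by
      intro k hk
      have h2 : (m - f • B.b0 : B.O.M).1 k = m.1 k - f * B.b0.1 k := rfl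
      rw [h2, hf k hk, sub_self]
    have h3 := hφ.vanish h1 i hi
    have h4 : (φ (m - f • B.b0)).1 i = (φ m).1 i - f * (φ B.b0).1 i := by
      rw [map_sub, map_smul]; rfl
    rw [h4, h0 i hi, mul_zero, sub_zero] at h3
    exact h3

theorem smul_C_mem_dg {O : Obj n} {d : ℕ} {m : O.M} (hm : m ∈ O.dg d) (c : ℝ) :
    (C c : Rg n) • m ∈ O.dg d := by
  intro i
  have h := (isHomogeneous_C (Fin n) c).mul (hm i)
  rw [zero_add] at h
  exact h

theorem KLObj.hom_scalar {x : Pm n} (hx : InW κ x) (B : KLObj κ x)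
    (φ : B.O.M →ₗ[Rg n] B.O.M) (hφ : BiMap φ) (he : DegMap φ 0) :
    ∃ c : ℝ, ∀ m, φ m = (C c : Rg n) • m := by
  obtain ⟨f, hf⟩ := B.gen (φ B.b0)
  obtain ⟨i₀, hi₀, hb₀⟩ := B.b0_ne
  have hφb : φ B.b0 ∈ B.O.dg 0 := (he 0 B.b0 B.b0_mem).1 0 (by simp)
  have h1 : (B.b0.1 i₀).totalDegree = 0 :=
    Nat.eq_zero_of_le_zero (B.b0_mem i₀).totalDegree_le
  have h2 : ((φ B.b0).1 i₀).totalDegree = 0 :=
    Nat.eq_zero_of_le_zero (hφb i₀).totalDegree_le
  rw [totalDegree_eq_zero_iff_eq_C] at h1 h2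
  set r : ℝ := coeff 0 (B.b0.1 i₀) with hr
  set r' : ℝ := coeff 0 ((φ B.b0).1 i₀) with hr'
  have hr0 : r ≠ 0 := by
    intro h
    rw [h, C_0] at h1
    exact hb₀ h1
  have hfc : f = C (r' / r) := by
    have h3 := hf i₀ hi₀
    rw [h1, h2] at h3
    have h4 : f * C r = C (r' / r) * C r := by
      rw [← h3, ← C_mul, div_mul_cancel₀ _ hr0]
    exact mul_right_cancel₀ (by
      intro h5
      exact hr0 (by simpa using h5)) h4
  refine ⟨r' / r, ?_⟩
  have hψ : φ - (C (r' / r) : Rg n) • (LinearMap.id : B.O.M →ₗ[Rg n] B.O.M) = 0 := by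
    apply B.hom_zero hx B
    · intro j m
      have h3 : (C (r' / r) : Rg n) • B.O.rmul (X j) m = B.O.rmul (X j) ((C (r' / r) : Rg n) • m) :=
        (map_smul _ _ _).symm
      rw [LinearMap.sub_apply, LinearMap.sub_apply, LinearMap.smul_apply, LinearMap.smul_apply,
        LinearMap.id_apply, LinearMap.id_apply, hφ j m, h3, ← map_sub]
    · intro i a ha
      refine ⟨fun j hj => ?_, fun h => ?_⟩
      · have hij : j = i := by omega
        subst hij
        rw [LinearMap.sub_apply, LinearMap.smul_apply, LinearMap.id_apply]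
        exact (B.O.dg j).sub_mem ((he j a ha).1 j hj) (smul_C_mem_dg ha _)
      · exfalso; omega
    · intro i hi
      rw [LinearMap.sub_apply, LinearMap.smul_apply, LinearMap.id_apply]
      have h3 : (φ B.b0 - (C (r' / r) : Rg n) • B.b0 : B.O.M).1 i =
          (φ B.b0).1 i - C (r' / r) * B.b0.1 i := rfl
      rw [h3, hf i hi, hfc, sub_self]
  intro m
  have h3 := LinearMap.congr_fun hψ m
  rw [LinearMap.sub_apply, LinearMap.smul_apply, LinearMap.id_apply, LinearMap.zero_apply,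
    sub_eq_zero] at h3
  exact h3

end KLFin
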