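import Mathlib
import Pool.Agent.KLFin.CDefs3
import Pool.Agent.KLFin.CS
import Pool.Agent.KLFin.FR2
import Pool.Agent.KLFin.HV1
import Pool.Agent.KLFin.CC0
import Pool.Agent.KLFin.NI2

/-!
# Part C, block CC2: KL objects are summands of Bott-Samelson objects; endomorphisms
-/

open MvPolynomial

namespace KLFin

variable {n : ℕ} {κ : Fin n → ℕ}

namespace CC2

open FR2

/-- components with integer index -/
noncomputable def cc (O : Obj n) (j : ℤ) : O.M →ₗ[ℝ] O.M := if 0 ≤ j then cmp O j.toNat else 0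

theorem cc_nat (O : Obj n) (j : ℕ) : cc O (j : ℤ) = cmp O j := by
  unfold cc
  rw [if_pos (Int.natCast_nonneg j), Int.toNat_natCast]

theorem cc_neg (O : Obj n) {j : ℤ} (hj : j < 0) : cc O j = 0 := by
  unfold cc
  rw [if_neg (by omega)]

theorem cmp_succ_smul (O : Obj n) (k : ℕ) (i : Fin n) (m : O.M) :
    cmp O (k + 1) ((X i : Rg n) • m) = (X i : Rg n) • cmp O k m := by
  ext1; funext t
  change homogeneousComponent (k + 1) (X i * m.1 t) = X i * homogeneousComponent k (m.1 t)
  exact hcomp_mul_succ (isHomogeneous_X _ i) _ _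

theorem cmp_zero_smul (O : Obj n) (i : Fin n) (m : O.M) :
    cmp O 0 ((X i : Rg n) • m) = 0 := by
  ext1; funext t
  change homogeneousComponent 0 (X i * m.1 t) = 0
  exact hcomp_mul_lt (isHomogeneous_X _ i) _ _ (by norm_num)

theorem cmp_succ_rmul (O : Obj n) (k : ℕ) (i : Fin n) (m : O.M) :
    cmp O (k + 1) (O.rmul (X i) m) = O.rmul (X i) (cmp O k m) := by
  ext1; funext t
  change homogeneousComponent (k + 1) (act (O.π t) (X i) * m.1 t) =
    act (O.π t) (X i) * homogeneousComponent k (m.1 t)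
  rw [act_X]
  exact hcomp_mul_succ (isHomogeneous_X _ _) _ _

theorem cmp_zero_rmul (O : Obj n) (i : Fin n) (m : O.M) :
    cmp O 0 (O.rmul (X i) m) = 0 := by
  ext1; funext t
  change homogeneousComponent 0 (act (O.π t) (X i) * m.1 t) = 0
  rw [act_X]
  exact hcomp_mul_lt (isHomogeneous_X _ _) _ _ (by norm_num)

theorem cc_succ_smul (O : Obj n) (j : ℤ) (i : Fin n) (m : O.M) :
    cc O (j + 1) ((X i : Rg n) • m) = (X i : Rg n) • cc O j m := by
  rcases lt_trichotomy j (-1) with h | h | h
  · rw [cc_neg O (by omega), cc_neg O (by omega), LinearMap.zero_apply, LinearMap.zero_apply,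
      smul_zero]
  · subst h
    rw [cc_neg O (by omega : (-1 : ℤ) < 0)]
    have : (-1 : ℤ) + 1 = ((0 : ℕ) : ℤ) := by norm_num
    rw [this, cc_nat, cmp_zero_smul, LinearMap.zero_apply, smul_zero]
  · obtain ⟨k, rfl⟩ := Int.eq_ofNat_of_zero_le (by omega : 0 ≤ j)
    have : ((k : ℤ) + 1) = ((k + 1 : ℕ) : ℤ) := by push_cast; ring
    rw [this, cc_nat, cc_nat, cmp_succ_smul]

theorem cc_succ_rmul (O : Obj n) (j : ℤ) (i : Fin n) (m : O.M) :
    cc O (j + 1) (O.rmul (X i) m) = O.rmul (X i) (cc O j m) := by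
  rcases lt_trichotomy j (-1) with h | h | h
  · rw [cc_neg O (by omega), cc_neg O (by omega), LinearMap.zero_apply, LinearMap.zero_apply,
      map_zero]
  · subst h
    rw [cc_neg O (by omega : (-1 : ℤ) < 0)]
    have : (-1 : ℤ) + 1 = ((0 : ℕ) : ℤ) := by norm_num
    rw [this, cc_nat, cmp_zero_rmul, LinearMap.zero_apply, map_zero]
  · obtain ⟨k, rfl⟩ := Int.eq_ofNat_of_zero_le (by omega : 0 ≤ j)
    have : ((k : ℤ) + 1) = ((k + 1 : ℕ) : ℤ) := by push_cast; ring
    rw [this, cc_nat, cc_nat, cmp_succ_rmul]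

/-- a bound for the degrees -/
noncomputable def bd (O : Obj n) (m : O.M) : ℕ :=
  (Finset.univ.sup fun i => (m.1 i).totalDegree) + 1

theorem cmp_bd {O : Obj n} {m : O.M} {k : ℕ} (hk : bd O m ≤ k) : cmp O k m = 0 := by
  ext1; funext i
  change homogeneousComponent k (m.1 i) = 0
  apply homogeneousComponent_eq_zero
  have := Finset.le_sup (f := fun i => (m.1 i).totalDegree) (Finset.mem_univ i)
  unfold bd at hk
  omega

theorem sum_bd {O : Obj n} {m : O.M} {M : ℕ} (hM : bd O m ≤ M) :
    m = ∑ k ∈ Finset.range M, cmp O k m := by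
  obtain ⟨N, hN⟩ := exists_sum O m
  have h1 : ∀ M', max M N ≤ M' → m = ∑ k ∈ Finset.range M', cmp O k m := by
    intro M' hM'
    conv_lhs => rw [hN]
    apply Finset.sum_subset
    · intro k hk
      rw [Finset.mem_range] at hk ⊢
      omega
    · intro k _ hk
      rw [Finset.mem_range, not_lt] at hk
      conv_lhs => rw [hN]
      rw [map_sum]
      refine Finset.sum_eq_zero fun l hl => ?_
      rw [Finset.mem_range] at hl
      exact cmp_ne (cmp_mem O l m) (by omega)
  conv_lhs => rw [h1 (max M N) le_rfl]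
  symm
  apply Finset.sum_subset
  · intro k hk
    rw [Finset.mem_range] at hk ⊢
    omega
  · intro k _ hk
    rw [Finset.mem_range, not_lt] at hk
    exact cmp_bd (by omega)

variable {O P : Obj n} (φ : O.M →ₗ[Rg n] P.M) (e : ℤ)

/-- the component of degree `e` of `φ`, as a function -/
noncomputable def hcF (M : ℕ) (a : O.M) : P.M :=
  ∑ k ∈ Finset.range M, cc P (k + e) (φ (cmp O k a))

theorem hcF_stable {a : O.M} {M M' : ℕ} (hM : bd O a ≤ M) (hM' : M ≤ M') :
    hcF φ e M' a = hcF φ e M a := by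
  unfold hcF
  symm
  apply Finset.sum_subset
  · intro k hk
    rw [Finset.mem_range] at hk ⊢
    omega
  · intro k _ hk
    rw [Finset.mem_range, not_lt] at hk
    rw [cmp_bd (by omega), map_zero, map_zero]

theorem hcF_add (M : ℕ) (a b : O.M) : hcF φ e M (a + b) = hcF φ e M a + hcF φ e M b := by
  unfold hcF
  rw [← Finset.sum_add_distrib]
  refine Finset.sum_congr rfl fun k _ => ?_
  rw [map_add, map_add, map_add]

theorem hcF_eq {a : O.M} {M : ℕ} (hM : bd O a ≤ M) : hcF φ e (bd O a) a = hcF φ e M a :=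
  (hcF_stable φ e le_rfl hM).symm

theorem hcF_smul_X (i : Fin n) (M : ℕ) (a : O.M) :
    hcF φ e (M + 1) ((X i : Rg n) • a) = (X i : Rg n) • hcF φ e M a := by
  unfold hcF
  rw [Finset.sum_range_succ', Finset.smul_sum, cmp_zero_smul, map_zero, map_zero, add_zero]
  refine Finset.sum_congr rfl fun k _ => ?_
  rw [cmp_succ_smul, map_smul]
  have : ((k + 1 : ℕ) : ℤ) + e = ((k : ℤ) + e) + 1 := by push_cast; ring
  rw [this, cc_succ_smul]

theorem hcF_rmul_X (hφ : BiMap φ) (i : Fin n) (M : ℕ) (a : O.M) :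
    hcF φ e (M + 1) (O.rmul (X i) a) = P.rmul (X i) (hcF φ e M a) := by
  unfold hcF
  rw [Finset.sum_range_succ', map_sum, cmp_zero_rmul, map_zero, map_zero, add_zero]
  refine Finset.sum_congr rfl fun k _ => ?_
  rw [cmp_succ_rmul, hφ]
  have : ((k + 1 : ℕ) : ℤ) + e = ((k : ℤ) + e) + 1 := by push_cast; ring
  rw [this, cc_succ_rmul]

theorem C_smul (O : Obj n) (r : ℝ) (a : O.M) : (C r : Rg n) • a = r • a := by
  ext1; funext i
  change C r * a.1 i = r • a.1 i
  rw [MvPolynomial.smul_eq_C_mul]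

theorem hcF_smul_C (r : ℝ) (M : ℕ) (a : O.M) :
    hcF φ e M ((C r : Rg n) • a) = (C r : Rg n) • hcF φ e M a := by
  unfold hcF
  rw [Finset.smul_sum]
  refine Finset.sum_congr rfl fun k _ => ?_
  have h1 : cmp O k ((C r : Rg n) • a) = (C r : Rg n) • cmp O k a := by
    rw [C_smul, C_smul, map_smul]
  rw [h1, map_smul, C_smul, C_smul, map_smul]

/-- the component of degree `e` of a morphism -/
theorem exists_hom_comp (hφ : BiMap φ) :
    ∃ φe : O.M →ₗ[Rg n] P.M, BiMap φe ∧ DegMap φe e ∧
      ∀ (k : ℕ) (a : O.M), a ∈ O.dg k → ∀ j : ℕ, (j : ℤ) = k + e → φe a = cmp P j (φ a) := by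
  let F : O.M → P.M := fun a => hcF φ e (bd O a) a
  have hF : ∀ (a : O.M) (M : ℕ), bd O a ≤ M → F a = hcF φ e M a := fun a M hM =>
    hcF_eq φ e hM
  have hadd : ∀ a b, F (a + b) = F a + F b := by
    intro a b
    set M := max (bd O (a + b)) (max (bd O a) (bd O b))
    rw [hF (a + b) M (le_max_left _ _), hF a M ((le_max_left _ _).trans (le_max_right _ _)),
      hF b M ((le_max_right _ _).trans (le_max_right _ _)), hcF_add]
  have hX : ∀ (i : Fin n) (a : O.M), F ((X i : Rg n) • a) = (X i : Rg n) • F a := by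
    intro i a
    set M := max (bd O ((X i : Rg n) • a)) (bd O a)
    rw [hF _ (M + 1) ((le_max_left _ _).trans (Nat.le_succ _)), hF a M (le_max_right _ _),
      hcF_smul_X]
  have hXr : ∀ (i : Fin n) (a : O.M), F (O.rmul (X i) a) = P.rmul (X i) (F a) := by
    intro i a
    set M := max (bd O (O.rmul (X i) a)) (bd O a)
    rw [hF _ (M + 1) ((le_max_left _ _).trans (Nat.le_succ _)), hF a M (le_max_right _ _),
      hcF_rmul_X φ e hφ]
  have hC : ∀ (r : ℝ) (a : O.M), F ((C r : Rg n) • a) = (C r : Rg n) • F a := by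
    intro r a
    set M := max (bd O ((C r : Rg n) • a)) (bd O a)
    rw [hF _ M (le_max_left _ _), hF a M (le_max_right _ _), hcF_smul_C]
  let Φ : O.M →ₗ[Rg n] P.M :=
    { toFun := F
      map_add' := hadd
      map_smul' := by
        intro f a
        rw [RingHom.id_apply]
        induction f using MvPolynomial.induction_on generalizing a with
        | C r => exact hC r a
        | add p q hp hq => rw [add_smul, hadd, hp, hq, add_smul]
        | mul_X p i hp => rw [mul_smul, hp, hX, mul_smul] }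
  have hval : ∀ (k : ℕ) (a : O.M), a ∈ O.dg k → F a = cc P (k + e) (φ a) := by
    intro k a ha
    rw [hF a (max (bd O a) (k + 1)) (le_max_left _ _)]
    unfold hcF
    rw [Finset.sum_eq_single k]
    · rw [cmp_self ha]
    · intro l _ hl
      rw [cmp_ne ha hl, map_zero, map_zero]
    · intro hk
      exfalso
      apply hk
      rw [Finset.mem_range]
      omega
  refine ⟨Φ, fun i a => hXr i a, fun k a ha => ⟨fun j hj => ?_, fun hneg => ?_⟩, ?_⟩
  · change F a ∈ P.dg j
    rw [hval k a ha, ← hj, cc_nat]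
    exact cmp_mem P j _
  · change F a = 0
    rw [hval k a ha, cc_neg P hneg, LinearMap.zero_apply]
  · intro k a ha j hj
    change F a = _
    rw [hval k a ha, ← hj, cc_nat]

end CC2

open FR2 CC2

/-- CC2: every KL object of type `wprod u` is a summand of `BS u`, with generator `1` -/
theorem KLObj.summand_BS {u : List (Fin n × Fin n)} (hu : ∀ s ∈ u, Smp κ s)
    (hred : u.length = len κ (wprod u)) (B : KLObj κ (wprod u)) :
    ∃ (i : B.O.M →ₗ[Rg n] (BS u).M) (p : (BS u).M →ₗ[Rg n] B.O.M), BiMap i ∧ BiMap p ∧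
      DegMap i 0 ∧ DegMap p 0 ∧ (∀ m, p (i m) = m) ∧
      (∀ k, (BS u).π k = wprod u → (i B.b0).1 k = 1) ∧
      (∀ k, B.O.π k = wprod u → (p ⟨fun _ => 1, BS_one_mem u⟩).1 k = B.b0.1 k) := by
  obtain ⟨i, hi, hid, hi1⟩ := B.lift (BS u) (Nice_BS hu) 0 ⟨fun _ => 1, BS_one_mem u⟩
    (fun _ => isHomogeneous_one _ _) (fun k hk => BS_supp hu hred _ k hk)
  obtain ⟨p, hp, hpd, hp1⟩ := LiftProp_BS hu hred B.O B.nice 0 B.b0 B.b0_mem (B.supp B.b0)
  have hid' : DegMap i 0 := by simpa using hid
  have hpd' : DegMap p 0 := by simpa using hpd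
  have hx : InW κ (wprod u) := by
    obtain ⟨k, hk, _⟩ := B.b0_ne
    rw [← hk]
    exact B.nice.inW k
  have hcomp : BiMap (p.comp i) := fun j m => by
    rw [LinearMap.comp_apply, hi, hp, LinearMap.comp_apply]
  have hcompd : DegMap (p.comp i) 0 := by
    intro k a ha
    refine ⟨fun j hj => ?_, fun hneg => ?_⟩
    · have : j = k := by simpa using hj
      subst this
      exact (hpd' j _ ((hid' j a ha).1 j (by simp))).1 j (by simp)
    · exfalso
      have : (0 : ℤ) ≤ k := Int.natCast_nonneg k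
      omega
  obtain ⟨c, hc⟩ := B.hom_scalar hx (p.comp i) hcomp hcompd
  -- the value over `x`
  have hv : ∀ k, B.O.π k = wprod u → (p (i B.b0)).1 k = B.b0.1 k := by
    intro k hk
    have h1 := hp.vanish (y := wprod u) (m := i B.b0 - ⟨fun _ => 1, BS_one_mem u⟩) (by
      intro l hl
      change (i B.b0).1 l - 1 = 0
      rw [hi1 l hl]
      simp) k hk
    rw [map_sub] at h1
    have h2 : (p (i B.b0)).1 k - (p ⟨fun _ => 1, BS_one_mem u⟩).1 k = 0 := h1
    rw [sub_eq_zero.1 h2, hp1 k hk]
  have hc1 : c = 1 := by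
    obtain ⟨k, hk, hk0⟩ := B.b0_ne
    have h1 := hv k hk
    have h2 : (p (i B.b0)).1 k = C c * B.b0.1 k := by
      have := hc B.b0
      rw [LinearMap.comp_apply] at this
      rw [this]
      rfl
    rw [h2] at h1
    have h3 : (C c - 1 : Rg n) * B.b0.1 k = 0 := by
      rw [sub_mul, h1, one_mul, sub_self]
    rcases mul_eq_zero.1 h3 with h4 | h4
    · have h5 : (C c : Rg n) = C 1 := by
        rw [C_1]
        exact sub_eq_zero.1 h4
      exact C_injective _ _ h5
    · exact absurd h4 hk0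
  refine ⟨i, p, hi, hp, hid', hpd', fun m => ?_, fun k hk => hi1 k hk, fun k hk => hp1 k hk⟩
  have := hc m
  rw [LinearMap.comp_apply, hc1, C_1, one_smul] at this
  exact this

/-- CC3: a (non homogeneous) endomorphism of a KL object whose value over `x` is multiplication by
`g` with non-zero constant term is injective -/
theorem KLObj.endo_inj {x : Pm n} (hx : InW κ x) (B : KLObj κ x)
    (φ : B.O.M →ₗ[Rg n] B.O.M) (hφ : BiMap φ) (g : Rg n) (hg : constantCoeff g ≠ 0)
    (h : ∀ i, B.O.π i = x → (φ B.b0).1 i = g * B.b0.1 i) : Function.Injective φ := by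
  -- negative components vanish
  have hneg : ∀ (k j : ℕ), j < k → ∀ a ∈ B.O.dg k, cmp B.O j (φ a) = 0 := by
    intro k j hjk a ha
    obtain ⟨φe, h1, h2, h3⟩ := exists_hom_comp φ ((j : ℤ) - k) hφ
    rw [← h3 k a ha j (by ring)]
    by_contra hne
    have h0 : φe ≠ 0 := by
      intro h0
      rw [h0] at hne
      exact hne rfl
    have := (B.hom_vanish hx hx B φe h1 h2 h0).1
    omega
  -- the component of degree `0` is a scalar
  obtain ⟨φ0, h1, h2, h3⟩ := exists_hom_comp φ 0 hφ
  obtain ⟨c, hc⟩ := B.hom_scalar hx φ0 h1 h2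
  have hc0 : c ≠ 0 := by
    obtain ⟨i, hi, hi0⟩ := B.b0_ne
    have h4 := h3 0 B.b0 B.b0_mem 0 (by simp)
    rw [hc] at h4
    have h5 : C c * B.b0.1 i = homogeneousComponent 0 (g * B.b0.1 i) := by
      rw [← h i hi]
      exact congrFun (congrArg Subtype.val h4) i
    have h6 : homogeneousComponent 0 (g * B.b0.1 i) = C (constantCoeff g) * B.b0.1 i := by
      rw [mul_comm g]
      have := hcomp_mul_succ (f := B.b0.1 i) (k := 0) (B.b0_mem i) g 0
      rw [zero_add] at this
      rw [this, homogeneousComponent_zero, mul_comm]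
      rfl
    rw [h6] at h5
    have h7 := mul_right_cancel₀ hi0 h5
    have h8 := C_injective _ _ h7
    rw [h8]
    exact hg
  rw [← LinearMap.ker_eq_bot, LinearMap.ker_eq_bot']
  intro a ha
  by_contra hne
  -- the lowest component
  have hex : ∃ k, cmp B.O k a ≠ 0 := by
    by_contra hall
    push Not at hall
    apply hne
    rw [sum_bd (le_refl (bd B.O a))]
    exact Finset.sum_eq_zero fun k _ => hall k
  classical
  set k := Nat.find hex with hk
  have hk0 : cmp B.O k a ≠ 0 := Nat.find_spec hex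
  have hlt : ∀ l < k, cmp B.O l a = 0 := by
    intro l hl
    have := Nat.find_min hex hl
    push Not at this
    exact this
  have h4 : cmp B.O k (φ a) = φ0 (cmp B.O k a) := by
    set M := max (bd B.O a) (k + 1) with hM
    have h5 : φ a = ∑ l ∈ Finset.range M, φ (cmp B.O l a) := by
      conv_lhs => rw [sum_bd (m := a) (le_max_left _ _ : bd B.O a ≤ M)]
      rw [map_sum]
    rw [h5, map_sum, Finset.sum_eq_single k]
    · exact (h3 k _ (cmp_mem B.O k a) k (by simp)).symm
    · intro l _ hlk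
      rcases lt_or_gt_of_ne hlk with hl | hl
      · rw [hlt l hl, map_zero, map_zero]
      · exact hneg l k hl _ (cmp_mem B.O l a)
    · intro hkM
      exfalso
      apply hkM
      rw [Finset.mem_range]
      omega
  rw [ha, map_zero, hc, CC2.C_smul] at h4
  rcases smul_eq_zero.1 h4.symm with h5 | h5
  · exact hc0 h5
  · exact hk0 h5

end KLFin
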