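import Mathlib
import Pool.Agent.KLFin.CDefs3
import Pool.Agent.KLFin.CS

/-! # Part C, block CC3 (MP_d9d356_co): ranks over `y` of a KL object  (helper48) -/

open MvPolynomial

namespace KLFin

variable {n : ℕ} {κ : Fin n → ℕ}

/-- multiplication by a separator, as a linear map -/
noncomputable def cc3Sep (O : Obj n) {c : Pm n → Rg n} (hc : IsMult c) : O.M →ₗ[Rg n] O.M where
  toFun m := ⟨fun i => c (O.π i) * m.1 i, hc O m.1 m.2⟩
  map_add' a b := by ext1; funext i; simp [mul_add]
  map_smul' f a := by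
    ext1; funext i
    simp only [SetLike.val_smul, Pi.smul_apply, smul_eq_mul, RingHom.id_apply]
    ring

theorem cc3Sep_val (O : Obj n) {c : Pm n → Rg n} (hc : IsMult c) (m : O.M) (i : O.I) :
    (cc3Sep O hc m).1 i = c (O.π i) * m.1 i := rfl

/-- values over `y`, multiplied by the separator, lie in `D'_y` -/
theorem cc3_mem (O : Obj n) (r : Pm n → Pm n → Prop) {y : Pm n} {c : Pm n → Rg n}
    (hc : IsMult c) (h0 : ∀ w, w ≠ y → c w = 0) (m : O.M) :
    (cc3Sep O hc m).1 ∈ O.Dsub r y := by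
  refine ⟨(cc3Sep O hc m).1, ⟨(cc3Sep O hc m).2, ?_⟩, ?_⟩
  · intro i hi
    have hne : O.π i ≠ y := by
      rintro h
      apply hi
      rw [h]
      exact Relation.ReflTransGen.refl
    rw [cc3Sep_val, h0 _ hne, zero_mul]
  · funext i
    simp only [Obj.res, LinearMap.coe_mk, AddHom.coe_mk]
    split_ifs with h
    · rfl
    · rw [cc3Sep_val, h0 _ h, zero_mul]

/-- a graded basis of `D'_y` has `P_y(1)` elements -/
theorem cc3_basis {x : Pm n} (B : KLObj κ x) (y : Pm n) :
    ∃ b : Fin ((B.P y).eval 1) → (B.O.I → Rg n), LinearIndependent (Rg n) b ∧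
      Submodule.span (Rg n) (Set.range b) = B.O.Dsub (Dn κ) y := by
  obtain ⟨r, b, e, _, hli, hspan, hp⟩ := B.char.up y
  have hr : (B.P y).eval 1 = r := by
    have := congrArg (Polynomial.eval 1) hp
    rw [Polynomial.eval_mul, Polynomial.eval_pow, Polynomial.eval_X, one_pow, one_mul,
      Polynomial.eval_finsetSum] at this
    simpa using this
  subst hr
  exact ⟨b, hli, hspan⟩

/-- rank over `y` -/
theorem KLObj.rank_le {x : Pm n} (B : KLObj κ x) (y : Pm n) {k : ℕ} (hk : (B.P y).eval 1 < k)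
    (v : Fin k → B.O.M) :
    ∃ c : Fin k → Rg n, c ≠ 0 ∧ ∀ i, B.O.π i = y → (∑ j, c j • v j : B.O.M).1 i = 0 := by
  classical
  obtain ⟨c, N, hc, hcy, hc0, _⟩ := exists_sep y
  obtain ⟨b, hli, hspan⟩ := cc3_basis B y
  have hnot : ¬ LinearIndependent (Rg n) (fun j => (cc3Sep B.O hc (v j)).1) := by
    intro h
    have h1 := linearIndependent_le_span_aux' _ h (Set.range b) (by
      rintro _ ⟨j, rfl⟩
      simp only
      rw [hspan]
      exact cc3_mem B.O _ hc hc0 (v j))
    rw [Fintype.card_fin] at h1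
    have h2 : Fintype.card (Set.range b) ≤ Fintype.card (Fin ((B.P y).eval 1)) :=
      Fintype.card_range_le b
    rw [Fintype.card_fin] at h2
    omega
  rw [Fintype.not_linearIndependent_iff] at hnot
  obtain ⟨g, hg, j0, hj0⟩ := hnot
  refine ⟨g, fun h => hj0 (by rw [h]; rfl), ?_⟩
  intro i hi
  have h1 := congrFun hg i
  rw [Finset.sum_apply] at h1
  simp only [Pi.smul_apply, smul_eq_mul, cc3Sep_val, hi, Pi.zero_apply] at h1
  have h2 : c y * (∑ j, g j • v j : B.O.M).1 i = 0 := by
    rw [AddSubmonoidClass.coe_finsetSum, Finset.sum_apply, Finset.mul_sum, ← h1]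
    refine Finset.sum_congr rfl fun j _ => ?_
    simp only [SetLike.val_smul, Pi.smul_apply, smul_eq_mul]
    ring
  exact (mul_eq_zero.1 h2).resolve_left hcy

theorem KLObj.exists_indep {x : Pm n} (B : KLObj κ x) (y : Pm n) :
    ∃ v : Fin ((B.P y).eval 1) → B.O.M, LinearIndependent (Rg n) v ∧
      ∀ j i, B.O.π i ≠ y → (v j).1 i = 0 := by
  classical
  obtain ⟨c, N, hc, hcy, hc0, _⟩ := exists_sep y
  obtain ⟨b, hli, hspan⟩ := cc3_basis B y
  have hb : ∀ j, ∃ m : B.O.M, Obj.res B.O.π y m.1 = b j := by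
    intro j
    have : b j ∈ B.O.Dsub (Dn κ) y := by
      rw [← hspan]; exact Submodule.subset_span ⟨j, rfl⟩
    obtain ⟨m, hm, hmb⟩ := this
    exact ⟨⟨m, hm.1⟩, hmb⟩
  choose m hm using hb
  have hval : ∀ j, (cc3Sep B.O hc (m j)).1 = c y • b j := by
    intro j
    funext i
    rw [cc3Sep_val, ← hm j]
    simp only [Obj.res, Pi.smul_apply, smul_eq_mul, LinearMap.coe_mk, AddHom.coe_mk]
    split_ifs with h
    · rw [h]
    · rw [hc0 _ h, zero_mul, mul_zero]
  refine ⟨fun j => cc3Sep B.O hc (m j), ?_, ?_⟩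
  · rw [Fintype.linearIndependent_iff]
    intro g hg
    rw [Fintype.linearIndependent_iff] at hli
    have h1 : ∑ j, (g j * c y) • b j = 0 := by
      have h2 := congrArg Subtype.val hg
      rw [AddSubmonoidClass.coe_finsetSum] at h2
      simp only [SetLike.val_smul, hval, smul_smul] at h2
      exact h2
    intro j
    have h3 := hli _ h1 j
    rcases mul_eq_zero.1 h3 with h4 | h4
    · exact h4
    · exact absurd h4 hcy
  · intro j i hi
    rw [cc3Sep_val, hc0 _ hi, zero_mul]

end KLFin
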