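import Mathlib
import Pool.Agent.KLFin.CC0
import Pool.Agent.KLFin.CC1
import Pool.Agent.KLFin.CC2
import Pool.Agent.KLFin.CC3
import Pool.Agent.KLFin.NI2
import Pool.Agent.KLFin.CS
import Pool.Agent.KLFin.CE2

/-!
# Part C, block CC4: coset comparison (MP_d9d356_co)
-/

open MvPolynomial

namespace KLFin

variable {n : ℕ} {κ : Fin n → ℕ}

theorem cc4_trInv_act {w : Pm n} (hw : InW κ w) (f : Rg n) :
    trInv κ (act w f) = act w (trInv κ f) := by
  have h1 : tr κ (trInv κ (act w f)) = tr κ (act w (trInv κ f)) := by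
    rw [(tr_trInv κ _).1, tr_act hw, (tr_trInv κ _).1]
  have h2 := congrArg (trInv κ) h1
  rwa [(tr_trInv κ _).2, (tr_trInv κ _).2] at h2

section Up

variable {I J : Type}

open Classical in
/-- extension by zero along `ι` of `trInv (g m)` -/
noncomputable def cc4Up (κ : Fin n → ℕ) (ι : I → J) (g : Rg n) (m : I → Rg n) : J → Rg n :=
  fun k => if h : ∃ i, ι i = k then trInv κ (g * m h.choose) else 0

theorem cc4Up_apply {ι : I → J} (hι : Function.Injective ι) (g : Rg n) (m : I → Rg n) (i : I) :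
    cc4Up κ ι g m (ι i) = trInv κ (g * m i) := by
  have h : ∃ j, ι j = ι i := ⟨i, rfl⟩
  unfold cc4Up
  rw [dif_pos h, hι h.choose_spec]

theorem cc4Up_not {ι : I → J} (g : Rg n) (m : I → Rg n) (k : J) (hk : k ∉ Set.range ι) :
    cc4Up κ ι g m k = 0 := by
  unfold cc4Up
  rw [dif_neg]
  rintro ⟨i, hi⟩
  exact hk ⟨i, hi⟩

theorem cc4Up_ext {ι : I → J} {a b : J → Rg n} (h1 : ∀ i, a (ι i) = b (ι i))
    (h2 : ∀ k, k ∉ Set.range ι → a k = b k) : a = b := by
  funext k
  by_cases hk : k ∈ Set.range ι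
  · obtain ⟨i, rfl⟩ := hk
    exact h1 i
  · exact h2 k hk

theorem cc4Up_add {ι : I → J} (hι : Function.Injective ι) (g : Rg n) (m m' : I → Rg n) :
    cc4Up κ ι g (m + m') = cc4Up κ ι g m + cc4Up κ ι g m' := by
  refine cc4Up_ext (ι := ι) (fun i => ?_) (fun k hk => ?_)
  · rw [Pi.add_apply, cc4Up_apply hι, cc4Up_apply hι, cc4Up_apply hι, Pi.add_apply, mul_add,
      map_add]
  · rw [Pi.add_apply, cc4Up_not g _ k hk, cc4Up_not g _ k hk, cc4Up_not g _ k hk, add_zero]

theorem cc4Up_smul {ι : I → J} (hι : Function.Injective ι) (g f : Rg n) (m : I → Rg n) :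
    cc4Up κ ι g (f • m) = trInv κ f • cc4Up κ ι g m := by
  refine cc4Up_ext (ι := ι) (fun i => ?_) (fun k hk => ?_)
  · rw [Pi.smul_apply, cc4Up_apply hι, cc4Up_apply hι, Pi.smul_apply, smul_eq_mul, smul_eq_mul,
      ← map_mul]
    congr 1
    ring
  · rw [Pi.smul_apply, cc4Up_not g _ k hk, cc4Up_not g _ k hk, smul_zero]

end Up

/-- equality over `y` implies equality of the images over `y` -/
theorem cc4_congr {O P : Obj n} {φ : O.M →ₗ[Rg n] P.M} (hφ : BiMap φ) {y : Pm n} {m m' : O.M}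
    (h : ∀ i, O.π i = y → m.1 i = m'.1 i) : ∀ i, P.π i = y → (φ m).1 i = (φ m').1 i := by
  intro i hi
  have h1 := hφ.vanish (y := y) (m := m - m') (fun j hj => by
    show m.1 j - m'.1 j = 0
    rw [h j hj, sub_self]) i hi
  rw [map_sub] at h1
  exact sub_eq_zero.1 h1

/-- CC4: coset comparison -/
theorem KLObj.coset {w w' c : Pm n} (hw : w = w' * c) (hw' : InW κ w')
    (hc : ∀ a b : Fin n, a < b → κ a = κ b → c⁻¹ a < c⁻¹ b)
    (B : KLObj (κ0 n) w) (B' : KLObj κ w') : (B'.P 1).eval 1 ≤ (B.P c).eval 1 := by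
  classical
  by_contra hlt
  rw [not_le] at hlt
  obtain ⟨l, hl, hlw, hlen, -⟩ := B.bs
  obtain ⟨u, ι, g, hu, hprod, hulen, hι, hπ, hg, hdown, hup⟩ :=
    coset_words κ l hl (by rw [hlen, hlw]) w' c hw' hc (by rw [hlw, hw])
  subst hlw
  subst hprod
  obtain ⟨i, p, hi, hp, -, -, hpi, hi0, hp0⟩ := B.summand_BS hl hlen
  obtain ⟨i', p', hi', hp', -, -, hpi', hi0', hp0'⟩ := B'.summand_BS hu hulen
  have hW : ∀ k, InW κ ((BS u).π k) := (Nice_BS hu).inW
  -- the maps up and down
  have hupm : ∀ m : (BS u).M, cc4Up κ ι g m.1 ∈ (BS l).M := by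
    intro m
    obtain ⟨m', hm', h1, h2⟩ := hup m.1 m.2
    have : cc4Up κ ι g m.1 = m' := cc4Up_ext (ι := ι)
      (fun k => by rw [cc4Up_apply hι, h1]) (fun k hk => by rw [cc4Up_not g _ k hk, h2 k hk])
    rw [this]
    exact hm'
  let U : (BS u).M → (BS l).M := fun m => ⟨cc4Up κ ι g m.1, hupm m⟩
  let D : (BS l).M → (BS u).M := fun m => ⟨fun k => tr κ (m.1 (ι k)), hdown m.1 m.2⟩
  have hUadd : ∀ a b, U (a + b) = U a + U b := fun a b => Subtype.ext (cc4Up_add hι g a.1 b.1)
  have hUsmul : ∀ (f : Rg n) a, U (f • a) = trInv κ f • U a := fun f a =>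
    Subtype.ext (cc4Up_smul hι g f a.1)
  have hDadd : ∀ a b, D (a + b) = D a + D b := by
    intro a b
    apply Subtype.ext
    funext k
    show tr κ (a.1 (ι k) + b.1 (ι k)) = tr κ (a.1 (ι k)) + tr κ (b.1 (ι k))
    rw [map_add]
  have hDsmul : ∀ (f : Rg n) a, D (f • a) = tr κ f • D a := by
    intro f a
    apply Subtype.ext
    funext k
    show tr κ (f * a.1 (ι k)) = tr κ f * tr κ (a.1 (ι k))
    rw [map_mul]
  have hUr : ∀ (j : Fin n) a, U ((BS u).rmul (X j) a) =
      (BS l).rmul (act c⁻¹ (trInv κ (X j))) (U a) := by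
    intro j a
    apply Subtype.ext
    refine cc4Up_ext (ι := ι) (fun k => ?_) (fun k hk => ?_)
    · show cc4Up κ ι g ((BS u).rmul (X j) a).1 (ι k) =
        act ((BS l).π (ι k)) (act c⁻¹ (trInv κ (X j))) * cc4Up κ ι g a.1 (ι k)
      rw [cc4Up_apply hι, cc4Up_apply hι, Obj.rmul_val, hπ, ← act_mul, mul_assoc, mul_inv_cancel,
        mul_one, ← cc4_trInv_act (hW k), ← map_mul]
      congr 1
      ring
    · show cc4Up κ ι g ((BS u).rmul (X j) a).1 k =
        act ((BS l).π k) (act c⁻¹ (trInv κ (X j))) * cc4Up κ ι g a.1 k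
      rw [cc4Up_not g _ k hk, cc4Up_not g _ k hk, mul_zero]
  have hDr : ∀ (j : Fin n) a, D ((BS l).rmul (act c⁻¹ (trInv κ (X j))) a) =
      (BS u).rmul (X j) (D a) := by
    intro j a
    apply Subtype.ext
    funext k
    show tr κ (act ((BS l).π (ι k)) (act c⁻¹ (trInv κ (X j))) * a.1 (ι k)) =
      act ((BS u).π k) (X j) * tr κ (a.1 (ι k))
    rw [map_mul, hπ, ← act_mul, mul_assoc, mul_inv_cancel, mul_one, tr_act (hW k),
      (tr_trInv κ _).1]
  -- the endomorphism of `B'`
  let θ : B'.O.M →ₗ[Rg n] B'.O.M :=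
    { toFun := fun m => p' (D (i (p (U (i' m)))))
      map_add' := by
        intro a b
        rw [map_add, hUadd, map_add, map_add, hDadd, map_add]
      map_smul' := by
        intro f a
        rw [map_smul, hUsmul, map_smul, map_smul, hDsmul, map_smul, (tr_trInv κ f).1,
          RingHom.id_apply] }
  have hθ : BiMap θ := by
    intro j m
    show p' (D (i (p (U (i' (B'.O.rmul (X j) m)))))) =
      B'.O.rmul (X j) (p' (D (i (p (U (i' m))))))
    rw [hi' j m, hUr, hp.rmul, hi.rmul, hDr, hp' j]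
  -- identities over the top element
  have hq : ∀ (m : (BS l).M) (k : (BS l).I), (BS l).π k = wprod l → (i (p m)).1 k = m.1 k := by
    intro m k hk
    obtain ⟨k0, hk0, huniq⟩ := BS_full hl hlen
    have h1 : ∀ j, (BS l).π j = wprod l → m.1 j =
        ((m.1 k) • (⟨fun _ => 1, BS_one_mem l⟩ : (BS l).M)).1 j := by
      intro j hj
      have : j = k := (huniq j hj).trans (huniq k hk).symm
      rw [this]
      show m.1 k = m.1 k * 1
      rw [mul_one]
    have h2 : ∀ j, B.O.π j = wprod l → (p m).1 j = (m.1 k • B.b0).1 j := by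
      intro j hj
      rw [cc4_congr hp h1 j hj, map_smul]
      show m.1 k * _ = m.1 k * _
      rw [hp0 j hj]
    rw [cc4_congr hi h2 k hk, map_smul]
    show m.1 k * (i B.b0).1 k = m.1 k
    rw [hi0 k hk, mul_one]
  have hθ0 : ∀ k, B'.O.π k = wprod u → (θ B'.b0).1 k = g * B'.b0.1 k := by
    intro k hk
    obtain ⟨k0, hk0, huniq⟩ := BS_full hu hulen
    have h1 : ∀ j, (BS u).π j = wprod u → (D (i (p (U (i' B'.b0))))).1 j =
        (g • (⟨fun _ => 1, BS_one_mem u⟩ : (BS u).M)).1 j := by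
      intro j hj
      show tr κ ((i (p (U (i' B'.b0)))).1 (ι j)) = g * 1
      rw [hq _ (ι j) (by rw [hπ, hj, hw])]
      show tr κ (cc4Up κ ι g (i' B'.b0).1 (ι j)) = g * 1
      rw [cc4Up_apply hι, (tr_trInv κ _).1, hi0' j hj]
    show (p' (D (i (p (U (i' B'.b0)))))).1 k = g * B'.b0.1 k
    rw [cc4_congr hp' h1 k hk, map_smul]
    show g * _ = g * _
    rw [hp0' k hk]
  have hinj := B'.endo_inj hw' θ hθ g hg hθ0
  -- rank comparison
  obtain ⟨v, hv, hvs⟩ := B'.exists_indep 1
  obtain ⟨a, ha, hav⟩ := B.rank_le c hlt (fun j => p (U (i' (v j))))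
  have hsupp : ∀ j k, B.O.π k ≠ c → (p (U (i' (v j)))).1 k = 0 := by
    intro j k hk
    refine hp.vanish (y := B.O.π k) (fun k' hk' => ?_) k rfl
    show cc4Up κ ι g (i' (v j)).1 k' = 0
    by_cases hr : k' ∈ Set.range ι
    · obtain ⟨k'', rfl⟩ := hr
      rw [cc4Up_apply hι]
      have h1 : (BS u).π k'' ≠ 1 := by
        intro h2
        apply hk
        rw [← hk', hπ, h2, one_mul]
      rw [hi'.vanish (y := (BS u).π k'') (m := v j)
        (fun q hq' => hvs j q (by rw [hq']; exact h1)) k'' rfl, mul_zero, map_zero]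
    · exact cc4Up_not g _ k' hr
  have h0 : (∑ j, a j • p (U (i' (v j))) : B.O.M) = 0 := by
    apply Subtype.ext
    funext k
    by_cases hk : B.O.π k = c
    · exact hav k hk
    · have h1 : (∑ j, a j • p (U (i' (v j))) : B.O.M).1 k =
          ∑ j, a j * (p (U (i' (v j)))).1 k := by
        rw [AddSubmonoidClass.coe_finsetSum, Finset.sum_apply]
        rfl
      rw [h1]
      exact Finset.sum_eq_zero fun j _ => by rw [hsupp j k hk, mul_zero]
  have h1 : θ (∑ j, tr κ (a j) • v j) = 0 := by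
    have h2 : ∀ x : B.O.M, x = 0 → p' (D (i x)) = 0 := by
      rintro x rfl
      have h3 : D 0 = 0 := by
        have := hDsmul 0 0
        rw [zero_smul, map_zero, zero_smul] at this
        exact this
      rw [map_zero, h3, map_zero]
    have h4 : θ (∑ j, tr κ (a j) • v j) = p' (D (i (∑ j, a j • p (U (i' (v j)))))) := by
      rw [map_sum]
      have h5 : ∀ j, θ (tr κ (a j) • v j) = p' (D (i (a j • p (U (i' (v j)))))) := by
        intro j
        rw [map_smul, map_smul, hDsmul, map_smul]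
        rfl
      rw [Finset.sum_congr rfl fun j _ => h5 j, map_sum]
      have hDsum : ∀ (s : Finset (Fin ((B'.P 1).eval 1))) (x : _ → (BS l).M),
          D (∑ j ∈ s, x j) = ∑ j ∈ s, D (x j) := by
        intro s x
        induction s using Finset.induction_on with
        | empty =>
          rw [Finset.sum_empty, Finset.sum_empty]
          have := hDsmul 0 0
          rw [zero_smul, map_zero, zero_smul] at this
          exact this
        | insert a s ha ih => rw [Finset.sum_insert ha, Finset.sum_insert ha, hDadd, ih]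
      rw [hDsum, map_sum]
    rw [h4]
    exact h2 _ h0
  have h2 : (∑ j, tr κ (a j) • v j : B'.O.M) = 0 := hinj (by rw [h1, map_zero])
  have h3 := Fintype.linearIndependent_iff.1 hv (fun j => tr κ (a j)) h2
  apply ha
  funext j
  have h4 := congrArg (trInv κ) (h3 j)
  rwa [(tr_trInv κ _).2, map_zero] at h4

end KLFin
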