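import Pool.Agent.KLFin.MN2
import Pool.Agent.KLFin.CC4
import Pool.Agent.KLFin.BIface
import Pool.Agent.KLFin.BE2
import Pool.Agent.KLFin.CB2

/-!
# Part B (MP_d9d356_co), BE0: existence, monotonicity and coset comparison for the families `KLF`
-/

namespace KLFin

variable {n : ℕ} {κ : Fin n → ℕ}

theorem exists_KLM (κ : Fin n → ℕ) {x : Pm n} (hx : InW κ x) : ∃ P, KLF κ x P ∧ MonoF κ P := by
  obtain ⟨P, h1, h2, h3, h4, h5⟩ := KL_exists κ x hx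
  exact ⟨P, ⟨h1, h2, h3, h4⟩, h5⟩

theorem KLF_coset {w w' c : Pm n} (hw : w = w' * c) (hw' : InW κ w')
    (hc : ∀ a b : Fin n, a < b → κ a = κ b → c⁻¹ a < c⁻¹ b) {P P' : Pm n → Polynomial ℕ}
    (hP : KLF (κ0 n) w P) (hP' : KLF κ w' P') : (P' 1).eval 1 ≤ (P c).eval 1 := by
  obtain ⟨B⟩ := (full w (κ0_inW w)).ex
  obtain ⟨B'⟩ := (full w' hw').ex
  have e1 : P = B.P := KLF.unique (κ0_inW w) hP ⟨B.sd, B.Px, B.Pdeg, B.Psupp⟩
  have e2 : P' = B'.P := KLF.unique hw' hP' ⟨B'.sd, B'.Px, B'.Pdeg, B'.Psupp⟩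
  rw [e1, e2]
  exact KLObj.coset hw hw' hc B B'

end KLFin
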