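import Pool.Agent.KLFin.BEDefs
import Pool.Agent.KLFin.CB1

/-!
# Part B (MP_d9d356_co), BE1: embeddings of symmetric groups and of Kazhdan-Lusztig families
-/

open Finset

namespace KLFin

variable {n k l : ℕ} {κ : Fin n → ℕ}

section basic

variable (e : Fin k ↪o Fin n)

theorem vx_apply (y : Pm k) (i : Fin k) : vx e y (e i) = e (y i) :=
  Equiv.Perm.viaEmbedding_apply y e.toEmbedding i

theorem vx_fix (y : Pm k) {m : Fin n} (h : ∀ i, e i ≠ m) : vx e y m = m :=
  Equiv.Perm.viaEmbedding_apply_of_notMem y e.toEmbedding m (by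
    rintro ⟨i, hi⟩
    exact h i hi)

theorem vx_mul (y z : Pm k) : vx e (y * z) = vx e y * vx e z :=
  map_mul (Equiv.Perm.viaEmbeddingHom e.toEmbedding) y z

theorem vx_one : vx e 1 = 1 := map_one (Equiv.Perm.viaEmbeddingHom e.toEmbedding)

theorem vx_inv (y : Pm k) : (vx e y)⁻¹ = vx e y⁻¹ :=
  (map_inv (Equiv.Perm.viaEmbeddingHom e.toEmbedding) y).symm

theorem vx_inj {y z : Pm k} (h : vx e y = vx e z) : y = z :=
  Equiv.Perm.viaEmbeddingHom_injective e.toEmbedding h

theorem vx_swap (a b : Fin k) : vx e (Equiv.swap a b) = Equiv.swap (e a) (e b) := by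
  ext m
  by_cases h : ∃ i, e i = m
  · obtain ⟨i, rfl⟩ := h
    rw [vx_apply]
    by_cases h1 : i = a
    · subst h1; rw [Equiv.swap_apply_left, Equiv.swap_apply_left]
    · by_cases h2 : i = b
      · subst h2; rw [Equiv.swap_apply_right, Equiv.swap_apply_right]
      · rw [Equiv.swap_apply_of_ne_of_ne h1 h2, Equiv.swap_apply_of_ne_of_ne
          (fun h => h1 (e.injective h)) (fun h => h2 (e.injective h))]
  · push Not at h
    rw [vx_fix e _ h, Equiv.swap_apply_of_ne_of_ne (h a).symm (h b).symm]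

theorem vx_sw (s : Fin k × Fin k) : vx e (sw s) = sw (e s.1, e s.2) := vx_swap e _ _

end basic

section emb

variable {e : Fin k ↪o Fin n}

theorem vx_inW (h : EmbOK κ e) (y : Pm k) : InW κ (vx e y) := by
  intro m
  by_cases hm : ∃ i, e i = m
  · obtain ⟨i, rfl⟩ := hm
    rw [vx_apply]; exact h.blk _ _
  · push Not at hm
    rw [vx_fix e _ hm]

theorem κ0_inW (y : Pm k) : InW (κ0 k) y := fun _ => rfl

theorem EmbOK.smp (h : EmbOK κ e) {s : Fin k × Fin k} (hs : Smp (κ0 k) s) :
    Smp κ (e s.1, e s.2) := by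
  refine ⟨e.lt_iff_lt.mpr hs.1, h.blk _ _, ?_⟩
  intro m h1 h2 h3
  obtain ⟨t, rfl⟩ := h.conv _ _ m h1 h2 h3
  exact hs.2.2 t (e.lt_iff_lt.mp h1) (e.lt_iff_lt.mp h2) rfl

/-- inversions of an extension -/
theorem vx_inversion (h : EmbOK κ e) (y : Pm k) {a b : Fin n} (hab : a < b) (hκ : κ a = κ b)
    (hi : (vx e y)⁻¹ b < (vx e y)⁻¹ a) :
    ∃ a' b', e a' = a ∧ e b' = b ∧ a' < b' ∧ y⁻¹ b' < y⁻¹ a' := by
  rw [vx_inv] at hi
  have key : ∀ m : Fin n, (∃ i, e i = m) ∨ (vx e y⁻¹ m = m ∧ ∀ i, e i ≠ m) := by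
    intro m
    by_cases hm : ∃ i, e i = m
    · exact Or.inl hm
    · push Not at hm
      exact Or.inr ⟨vx_fix e _ hm, hm⟩
  rcases key a with ⟨a', rfl⟩ | ⟨ha, ha'⟩
  · rcases key b with ⟨b', rfl⟩ | ⟨hb, hb'⟩
    · rw [vx_apply, vx_apply] at hi
      exact ⟨a', b', rfl, rfl, e.lt_iff_lt.mp hab, e.lt_iff_lt.mp hi⟩
    · exfalso
      rw [vx_apply, hb] at hi
      obtain ⟨t, ht⟩ := h.conv a' (y⁻¹ a') b hab hi hκ.symm
      exact hb' t ht
  · exfalso
    rw [ha] at hi
    rcases key b with ⟨b', rfl⟩ | ⟨hb, hb'⟩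
    · rw [vx_apply] at hi
      obtain ⟨t, ht⟩ := h.conv (y⁻¹ b') b' a hi hab (hκ.trans (h.blk _ _))
      exact ha' t ht
    · rw [hb] at hi
      exact absurd hi (not_lt.mpr hab.le)

theorem vx_up (h : EmbOK κ e) {y z : Pm k} (hyz : Up (κ0 k) y z) : Up κ (vx e y) (vx e z) := by
  obtain ⟨a, b, hab, -, hlt, rfl⟩ := hyz
  refine ⟨e a, e b, e.lt_iff_lt.mpr hab, h.blk _ _, ?_, ?_⟩
  · rw [vx_inv, vx_apply, vx_apply]; exact e.lt_iff_lt.mpr hlt
  · rw [vx_mul, vx_swap]

theorem vx_le (h : EmbOK κ e) {y x : Pm k} (hyx : y ∈ Le (Up (κ0 k)) x) :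
    vx e y ∈ Le (Up κ) (vx e x) := by
  change Relation.ReflTransGen (Up κ) (vx e y) (vx e x)
  have hyx' : Relation.ReflTransGen (Up (κ0 k)) y x := hyx
  induction hyx' with
  | refl => exact Relation.ReflTransGen.refl
  | tail h1 h2 ih => exact (ih h1).tail (vx_up h h2)

theorem vx_len (h : EmbOK κ e) (y : Pm k) : len κ (vx e y) = len (κ0 k) y := by
  classical
  unfold len
  symm
  apply Finset.card_bij (fun p _ => (e p.1, e p.2))
  · rintro ⟨a, b⟩ hp
    simp only [mem_filter, mem_univ, true_and] at hp ⊢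
    refine ⟨e.lt_iff_lt.mpr hp.1, h.blk _ _, ?_⟩
    rw [vx_inv, vx_apply, vx_apply]
    exact e.lt_iff_lt.mpr hp.2.2
  · rintro ⟨a, b⟩ _ ⟨a', b'⟩ _ heq
    simp only [Prod.mk.injEq, EmbeddingLike.apply_eq_iff_eq] at heq
    exact Prod.ext heq.1 heq.2
  · rintro ⟨a, b⟩ hp
    simp only [mem_filter, mem_univ, true_and] at hp
    obtain ⟨a', b', rfl, rfl, h1, h2⟩ := vx_inversion h y hp.1 hp.2.1 hp.2.2
    exact ⟨(a', b'), by simp only [mem_filter, mem_univ, true_and]; exact ⟨h1, rfl, h2⟩, rfl⟩

end emb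

section push

variable {R : Type*} [Semiring R] (e : Fin k ↪o Fin n)

theorem push_apply (f : Pm k → R) (y : Pm k) : push e f (vx e y) = f y := by
  classical
  unfold push
  rw [Finset.sum_eq_single y]
  · rw [if_pos rfl]
  · intro z _ hz
    rw [if_neg (fun h => hz (vx_inj e h))]
  · intro h; exact absurd (mem_univ _) h

theorem push_not (f : Pm k → R) {z : Pm n} (h : ∀ y, vx e y ≠ z) : push e f z = 0 := by
  unfold push
  apply Finset.sum_eq_zero
  intro y _
  rw [if_neg (h y)]

end push

section SD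

variable {e : Fin k ↪o Fin n}

theorem up_vx_sw (h : EmbOK κ e) {s : Fin k × Fin k} (hs : Smp (κ0 k) s) (y : Pm k) :
    Up κ (vx e y) (vx e y * sw (e s.1, e s.2)) ↔ Up (κ0 k) y (y * sw s) := by
  rw [up_sw_iff (vx_inW h y) (h.smp hs), up_sw_iff (κ0_inW y) hs, vx_apply, vx_apply,
    e.lt_iff_lt]

theorem SD_push (h : EmbOK κ e) {d : ℕ} {f : Pm k → Polynomial ℤ} (hf : SD (κ0 k) d f) :
    SD κ d (push e f) := by
  classical
  induction hf with
  | one =>
    have : push e (fun y : Pm k => if y = 1 then (1 : Polynomial ℤ) else 0) =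
        fun z => if z = 1 then 1 else 0 := by
      funext z
      by_cases hz : ∃ y, vx e y = z
      · obtain ⟨y, rfl⟩ := hz
        rw [push_apply]
        by_cases hy : y = 1
        · subst hy; rw [if_pos rfl, vx_one, if_pos rfl]
        · rw [if_neg hy, if_neg]
          intro h1
          exact hy (vx_inj e (h1.trans (vx_one e).symm))
      · push Not at hz
        rw [push_not e _ hz, if_neg]
        intro h1
        exact hz 1 (by rw [h1, vx_one])
    rw [this]
    exact SD.one
  | zero d =>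
    have : push e (0 : Pm k → Polynomial ℤ) = 0 := by
      funext z
      unfold push
      simp
    rw [this]
    exact SD.zero d
  | @add d f g _ _ ih1 ih2 =>
    have : push e (f + g) = push e f + push e g := by
      funext z
      unfold push
      rw [Pi.add_apply, ← Finset.sum_add_distrib]
      apply Finset.sum_congr rfl
      intro y _
      split_ifs <;> simp
    rw [this]
    exact SD.add ih1 ih2
  | @neg d f _ ih =>
    have : push e (-f) = - push e f := by
      funext z
      unfold push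
      rw [Pi.neg_apply, ← Finset.sum_neg_distrib]
      apply Finset.sum_congr rfl
      intro y _
      split_ifs <;> simp
    rw [this]
    exact SD.neg ih
  | @shift d f _ ih =>
    have : push e (fun y => Polynomial.X * f y) = fun z => Polynomial.X * push e f z := by
      funext z
      unfold push
      rw [Finset.mul_sum]
      apply Finset.sum_congr rfl
      intro y _
      split_ifs <;> simp
    rw [this]
    exact SD.shift ih
  | @mul d f s hs _ ih =>
    have : push e (fun y => if Up (κ0 k) y (y * sw s) then f y + Polynomial.X * f (y * sw s)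
        else f (y * sw s) + Polynomial.X * f y) =
        fun z => if Up κ z (z * sw (e s.1, e s.2)) then
          push e f z + Polynomial.X * push e f (z * sw (e s.1, e s.2))
          else push e f (z * sw (e s.1, e s.2)) + Polynomial.X * push e f z := by
      funext z
      by_cases hz : ∃ y, vx e y = z
      · obtain ⟨y, rfl⟩ := hz
        have e1 : vx e y * sw (e s.1, e s.2) = vx e (y * sw s) := by rw [vx_mul, vx_sw]
        rw [push_apply]
        by_cases hu : Up (κ0 k) y (y * sw s)
        · rw [if_pos hu, if_pos ((up_vx_sw h hs y).mpr hu), e1, push_apply, push_apply]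
        · rw [if_neg hu, if_neg (fun h' => hu ((up_vx_sw h hs y).mp h')), e1, push_apply,
            push_apply]
      · push Not at hz
        have hz' : ∀ y, vx e y ≠ z * sw (e s.1, e s.2) := by
          intro y hy
          apply hz (y * sw s)
          rw [vx_mul, vx_sw, hy, mul_assoc, sw_mul_sw, mul_one]
        rw [push_not e _ hz, push_not e _ hz, push_not e _ hz']
        simp
    rw [this]
    exact SD.mul _ (h.smp hs) ih

theorem map_push (e : Fin k ↪o Fin n) (P : Pm k → Polynomial ℕ) :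
    (fun z => (push e P z).map (Nat.castRingHom ℤ)) =
      push e (fun y => (P y).map (Nat.castRingHom ℤ)) := by
  funext z
  by_cases hz : ∃ y, vx e y = z
  · obtain ⟨y, rfl⟩ := hz
    rw [push_apply, push_apply]
  · push Not at hz
    rw [push_not e _ hz, push_not e _ hz, Polynomial.map_zero]

/-- (B3) the Kazhdan-Lusztig family of an extension -/
theorem KLF_push (h : EmbOK κ e) {x : Pm k} {P : Pm k → Polynomial ℕ}
    (hP : KLF (κ0 k) x P) : KLF κ (vx e x) (push e P) where
  sd := by
    rw [map_push, vx_len h]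
    exact SD_push h hP.sd
  one := by rw [push_apply]; exact hP.one
  deg := by
    intro z hz h0
    by_cases hz' : ∃ y, vx e y = z
    · obtain ⟨y, rfl⟩ := hz'
      rw [push_apply] at h0 ⊢
      rw [vx_len h, vx_len h]
      exact hP.deg y (fun h => hz (by rw [h])) h0
    · push Not at hz'
      exact absurd (push_not e _ hz') h0
  supp := by
    intro z hz
    by_cases hz' : ∃ y, vx e y = z
    · obtain ⟨y, rfl⟩ := hz'
      rw [push_apply]
      exact hP.supp y (fun h' => hz (vx_le h h'))
    · push Not at hz'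
      exact push_not e _ hz'

end SD

end KLFin
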