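import Pool.Agent.KLFin.BE0

/-!
# Part B (MP_d9d356_co), BE3: the numbers `N(w) = P_{1,w}(1)` and supermultiplicativity
-/

open Finset

namespace KLFin

variable {n k l : ℕ} {κ : Fin n → ℕ}

/-- A Kazhdan-Lusztig family of `w` in `S_n`. -/
noncomputable def PP {n : ℕ} (w : Pm n) : Pm n → Polynomial ℕ :=
  (exists_KLM (κ0 n) (κ0_inW w)).choose

theorem PP_spec (w : Pm n) : KLF (κ0 n) w (PP w) :=
  (exists_KLM (κ0 n) (κ0_inW w)).choose_spec.1

theorem PP_mono (w : Pm n) : MonoF (κ0 n) (PP w) :=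
  (exists_KLM (κ0 n) (κ0_inW w)).choose_spec.2

/-- `N(w) = P_{1,w}(1)` -/
noncomputable def NN {n : ℕ} (w : Pm n) : ℕ := (PP w 1).eval 1

theorem MonoF.le {P : Pm n → Polynomial ℕ} (h : MonoF κ P) {y z : Pm n}
    (hyz : y ∈ Le (Up κ) z) : (P z).eval 1 ≤ (P y).eval 1 := by
  have h' : Relation.ReflTransGen (Up κ) y z := hyz
  clear hyz
  induction h' with
  | refl => exact le_rfl
  | tail _ h2 ih => exact (h _ _ h2).trans ih

theorem PP_one_le {w y : Pm n} (hy : y ∈ Le (Up (κ0 n)) w) : 1 ≤ (PP w y).eval 1 := by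
  have := (PP_mono w).le hy
  rw [(PP_spec w).one, Polynomial.eval_one] at this
  exact this

theorem NN_one_le (w : Pm n) : 1 ≤ NN w := PP_one_le (one_mem_Le (κ0_inW w))

theorem PP_le_NN (w y : Pm n) : (PP w y).eval 1 ≤ NN w :=
  (PP_mono w).le (one_mem_Le (κ0_inW y))

theorem NN_mul (w : Pm n) (v : Pm k) (u : Pm l) (S T : Finset (Fin n)) (hd : Disjoint S T)
    (hST : S ∪ T = univ) (hv : Rel w S v) (hu : Rel w T u) : NN v * NN u ≤ NN w := by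
  classical
  obtain ⟨e, he, hev⟩ := hv
  obtain ⟨e', he', heu⟩ := hu
  have hinv : ∀ {m : ℕ} (y : Pm m) (i : Fin m), y (y⁻¹ i) = i := fun y i =>
    CB1.apply_inv' y i
  have hinv' : ∀ {m : ℕ} (y : Pm m) (i : Fin m), y⁻¹ (y i) = i := fun y i =>
    CB1.inv_apply' y i
  let e₁ : Fin k ↪o Fin n := OrderEmbedding.ofStrictMono (fun a => w (e (v⁻¹ a))) (by
    intro a b hab
    apply (hev _ _).mp
    rw [hinv, hinv]; exact hab)
  let e₂ : Fin l ↪o Fin n := OrderEmbedding.ofStrictMono (fun a => w (e' (u⁻¹ a))) (by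
    intro a b hab
    apply (heu _ _).mp
    rw [hinv, hinv]; exact hab)
  have he₁ : ∀ i, e₁ (v i) = w (e i) := by
    intro i
    change w (e (v⁻¹ (v i))) = _
    rw [hinv']
  have he₂ : ∀ i, e₂ (u i) = w (e' i) := by
    intro i
    change w (e' (u⁻¹ (u i))) = _
    rw [hinv']
  have hS : ∀ m, m ∈ S ↔ ∃ i, e i = m := by
    intro m
    rw [← he]
    simp
  have hT : ∀ m, m ∈ T ↔ ∃ i, e' i = m := by
    intro m
    rw [← he']
    simp
  have hTS : ∀ m, m ∉ S → m ∈ T := by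
    intro m hm
    have : m ∈ S ∪ T := by rw [hST]; exact mem_univ _
    exact (mem_union.mp this).resolve_left hm
  let κ : Fin n → ℕ := fun a => if w⁻¹ a ∈ S then 0 else 1
  have hκ₁ : ∀ i, κ (e₁ i) = 0 := by
    intro i
    have h1 : w⁻¹ (e₁ i) = e (v⁻¹ i) := by
      have := he₁ (v⁻¹ i)
      rw [hinv] at this
      rw [this, hinv']
    change (if w⁻¹ (e₁ i) ∈ S then 0 else 1) = 0
    rw [h1, if_pos ((hS _).mpr ⟨_, rfl⟩)]
  have hκ₂ : ∀ i, κ (e₂ i) = 1 := by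
    intro i
    have h1 : w⁻¹ (e₂ i) = e' (u⁻¹ i) := by
      have := he₂ (u⁻¹ i)
      rw [hinv] at this
      rw [this, hinv']
    change (if w⁻¹ (e₂ i) ∈ S then 0 else 1) = 1
    rw [h1, if_neg]
    intro h2
    exact Finset.disjoint_left.mp hd h2 ((hT _).mpr ⟨_, rfl⟩)
  have hr₁ : ∀ m, κ m = 0 → ∃ t, e₁ t = m := by
    intro m hm
    by_cases h2 : w⁻¹ m ∈ S
    · obtain ⟨i, hi⟩ := (hS _).mp h2
      exact ⟨v i, by rw [he₁, hi, hinv]⟩
    · exfalso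
      have : κ m = 1 := if_neg h2
      omega
  have hr₂ : ∀ m, κ m = 1 → ∃ t, e₂ t = m := by
    intro m hm
    by_cases h2 : w⁻¹ m ∈ S
    · exfalso
      have : κ m = 0 := if_pos h2
      omega
    · obtain ⟨i, hi⟩ := (hT _).mp (hTS _ h2)
      exact ⟨u i, by rw [he₂, hi, hinv]⟩
  have h₁ : EmbOK κ e₁ := ⟨fun i j => by rw [hκ₁, hκ₁],
    fun i j m _ _ hm => hr₁ m (by rw [hm, hκ₁])⟩
  have h₂ : EmbOK κ e₂ := ⟨fun i j => by rw [hκ₂, hκ₂],
    fun i j m _ _ hm => hr₂ m (by rw [hm, hκ₂])⟩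
  have hsep : Sep κ e₁ e₂ := by
    intro i j
    rw [hκ₁, hκ₂]; omega
  let w' : Pm n := vx e₁ v * vx e₂ u
  let c : Pm n := w'⁻¹ * w
  have hw : w = w' * c := by rw [mul_inv_cancel_left]
  have hc₁ : ∀ i, c⁻¹ (e₁ i) = e i := by
    intro i
    rw [Equiv.Perm.inv_eq_iff_eq]
    change e₁ i = w'⁻¹ (w (e i))
    rw [← he₁, Equiv.Perm.eq_inv_iff_eq]
    exact vv_apply₁ hsep v u i
  have hc₂ : ∀ i, c⁻¹ (e₂ i) = e' i := by
    intro i
    rw [Equiv.Perm.inv_eq_iff_eq]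
    change e₂ i = w'⁻¹ (w (e' i))
    rw [← he₂, Equiv.Perm.eq_inv_iff_eq]
    exact vv_apply₂ hsep v u i
  have hcc : ∀ a b : Fin n, a < b → κ a = κ b → c⁻¹ a < c⁻¹ b := by
    intro a b hab hk
    have h01 : κ a = 0 ∨ κ a = 1 := by
      by_cases h2 : w⁻¹ a ∈ S
      · exact Or.inl (if_pos h2)
      · exact Or.inr (if_neg h2)
    rcases h01 with h0 | h0
    · obtain ⟨i, rfl⟩ := hr₁ a h0
      obtain ⟨j, rfl⟩ := hr₁ b (hk ▸ h0)
      rw [hc₁, hc₁, e.lt_iff_lt]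
      exact e₁.lt_iff_lt.mp hab
    · obtain ⟨i, rfl⟩ := hr₂ a h0
      obtain ⟨j, rfl⟩ := hr₂ b (hk ▸ h0)
      rw [hc₂, hc₂, e'.lt_iff_lt]
      exact e₂.lt_iff_lt.mp hab
  have hKL := KLF_bx h₁ h₂ hsep (PP_spec v) (PP_spec u)
  have h3 := KLF_coset hw (vv_inW h₁ h₂ v u) hcc (PP_spec w) hKL
  have h4 : (bx e₁ e₂ (PP v) (PP u) 1).eval 1 = NN v * NN u := by
    have : (1 : Pm n) = vx e₁ 1 * vx e₂ 1 := by rw [vx_one, vx_one, one_mul]
    rw [this, bx_apply hsep, Polynomial.eval_mul]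
    rfl
  rw [h4] at h3
  exact h3.trans (PP_le_NN w c)

end KLFin
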