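import Mathlib
import Pool.Agent.KLFin.BEDefs
import Pool.Agent.KLFin.CB1
import Pool.Agent.KLFin.CB2

/-! # Part B, block LC (MP_d9d356_co): two facts on the Bruhat order  (helper48) -/

open Finset

namespace KLFin

variable {n : ℕ}

namespace LC

theorem count_step {y z : Pm n} (h : Up (κ0 n) y z) (i j : ℕ) :
    (univ.filter (fun p : Fin n => (p : ℕ) < i ∧ j ≤ (y p : ℕ))).card ≤
      (univ.filter (fun p : Fin n => (p : ℕ) < i ∧ j ≤ (z p : ℕ))).card := by
  classical
  obtain ⟨a, b, hab, _, hlt, rfl⟩ := h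
  have hab' : (a : ℕ) < b := hab
  have hlt' : ((y⁻¹ a : Fin n) : ℕ) < (y⁻¹ b : Fin n) := hlt
  have hya : y (y⁻¹ a) = a := CB1.apply_inv' y a
  have hyb : y (y⁻¹ b) = b := CB1.apply_inv' y b
  have hP : (Equiv.swap a b * y) (y⁻¹ a) = b := by
    rw [Equiv.Perm.mul_apply, hya, Equiv.swap_apply_left]
  have hQ : (Equiv.swap a b * y) (y⁻¹ b) = a := by
    rw [Equiv.Perm.mul_apply, hyb, Equiv.swap_apply_right]
  have hO : ∀ p, p ≠ y⁻¹ a → p ≠ y⁻¹ b → (Equiv.swap a b * y) p = y p := by
    intro p h1 h2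
    rw [Equiv.Perm.mul_apply]
    apply Equiv.swap_apply_of_ne_of_ne
    · intro h; apply h1; rw [← h, CB1.inv_apply']
    · intro h; apply h2; rw [← h, CB1.inv_apply']
  refine Finset.card_le_card_of_injOn
    (fun p => if p = y⁻¹ b ∧ (a : ℕ) < j then y⁻¹ a else p) ?_ ?_
  · intro p hp
    rw [Finset.mem_coe, mem_filter] at hp
    obtain ⟨_, hpi, hpj⟩ := hp
    rw [Finset.mem_coe, mem_filter]
    refine ⟨mem_univ _, ?_⟩
    simp only
    split_ifs with hc
    · obtain ⟨rfl, hc2⟩ := hc
      rw [hP]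
      rw [hyb] at hpj
      exact ⟨by omega, hpj⟩
    · refine ⟨hpi, ?_⟩
      by_cases h1 : p = y⁻¹ a
      · subst h1
        rw [hP]; rw [hya] at hpj; omega
      · by_cases h2 : p = y⁻¹ b
        · subst h2
          rw [hQ]
          by_contra hlt
          exact hc ⟨rfl, by omega⟩
        · rw [hO p h1 h2]; exact hpj
  · intro p hp q hq hpq
    rw [Finset.mem_coe, mem_filter] at hp hq
    obtain ⟨_, _, hpj⟩ := hp
    obtain ⟨_, _, hqj⟩ := hq
    simp only at hpq
    split_ifs at hpq with h1 h2 h2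
    · rw [h1.1, h2.1]
    · exfalso
      rw [← hpq, hya] at hqj
      omega
    · exfalso
      rw [hpq, hya] at hpj
      omega
    · exact hpq

theorem smp_eq {s t : Fin n × Fin n} (hs : Smp (κ0 n) s) (ht : Smp (κ0 n) t)
    (h1 : t.1 ≤ s.1) (h2 : s.1 < t.2) : t = s := by
  obtain ⟨s1, _, s3⟩ := hs
  obtain ⟨t1, _, t3⟩ := ht
  have e1 : t.1 = s.1 := by
    rcases lt_or_eq_of_le h1 with h | h
    · exact absurd rfl (t3 s.1 h h2)
    · exact h
  have e2 : t.2 = s.2 := by
    rcases lt_trichotomy t.2 s.2 with h | h | h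
    · exact absurd rfl (s3 t.2 h2 h)
    · exact h
    · exact absurd rfl (t3 s.2 (e1 ▸ s1) h)
  exact Prod.ext e1 e2

end LC

/-- counts are monotone -/
theorem Le_count {x z : Pm n} (hz : z ∈ Le (Up (κ0 n)) x) (i j : ℕ) :
    (univ.filter (fun p : Fin n => (p : ℕ) < i ∧ j ≤ (z p : ℕ))).card ≤
      (univ.filter (fun p : Fin n => (p : ℕ) < i ∧ j ≤ (x p : ℕ))).card := by
  have hz' : Relation.ReflTransGen (Up (κ0 n)) z x := hz
  induction hz' with
  | refl => exact le_rfl
  | tail hab hbc ih => exact (ih hab).trans (LC.count_step hbc i j)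

/-- a simple reflection `(t, t+1)` lies below `x` if `x` does not preserve `[0, t]` -/
theorem sw_mem_Le {x : Pm n} {s : Fin n × Fin n} (hs : Smp (κ0 n) s)
    (h : ∃ i : Fin n, i ≤ s.1 ∧ s.1 < x i) : sw s ∈ Le (Up (κ0 n)) x := by
  induction hl : len (κ0 n) x using Nat.strong_induction_on generalizing x with
  | _ m ih =>
  have hW : ∀ y : Pm n, InW (κ0 n) y := fun y i => rfl
  have hx1 : x ≠ 1 := by
    rintro rfl
    obtain ⟨i, h1, h2⟩ := h
    exact absurd (lt_of_lt_of_le h2 h1) (lt_irrefl _)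
  obtain ⟨t, ht, hup⟩ := exists_descent (hW x) hx1
  by_cases h' : ∃ i : Fin n, i ≤ s.1 ∧ s.1 < (x * sw t) i
  · have h1 := ih (len (κ0 n) (x * sw t)) (by rw [← hl]; exact hup.len_lt) h' rfl
    exact Relation.ReflTransGen.tail h1 hup
  · push Not at h'
    obtain ⟨i, hi1, hi2⟩ := h
    have hxi : x i = (x * sw t) (sw t i) := by
      rw [Equiv.Perm.mul_apply]
      simp [sw]
    have h3 : s.1 < sw t i := by
      by_contra hcon
      push Not at hcon
      have := h' _ hcon
      rw [← hxi] at this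
      exact absurd (lt_of_lt_of_le hi2 this) (lt_irrefl _)
    have hts : t = s := by
      by_cases e1 : i = t.1
      · subst e1
        have : sw t t.1 = t.2 := by simp [sw]
        rw [this] at h3
        exact LC.smp_eq hs ht hi1 h3
      · by_cases e2 : i = t.2
        · subst e2
          have : sw t t.2 = t.1 := by simp [sw]
          rw [this] at h3
          exact absurd (lt_trans (lt_of_le_of_lt hi1 h3) ht.1) (lt_irrefl _)
        · have : sw t i = i := by
            unfold sw
            exact Equiv.swap_apply_of_ne_of_ne e1 e2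
          rw [this] at h3
          exact absurd (lt_of_le_of_lt hi1 h3) (lt_irrefl _)
    subst hts
    have h4 := Le_mul_sw (Or.inl rfl) (hW x) ht hup (one_mem_Le (hW x))
    rwa [one_mul] at h4

end KLFin
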