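import Pool.Agent.KLFin.BE3
import Pool.Agent.KLFin.LC
import Pool.Agent.KLFin.A8a

/-!
# Part B (MP_d9d356_co), BE4: the two families `K_{2,k}` and `F_k`
-/

open Finset

namespace KLFin

variable {n k l : ℕ} {κ : Fin n → ℕ}

theorem sw_sw (z : Pm n) (s : Fin n × Fin n) : z * sw s * sw s = z := by
  rw [mul_assoc, sw_mul_sw, mul_one]

theorem Up.not_symm {y z : Pm n} (h : Up κ y z) : ¬ Up κ z y := fun h' =>
  absurd (h.len_lt.trans h'.len_lt) (lt_irrefl _)

theorem up_or_dn_sw {y : Pm n} {s : Fin n × Fin n} (hs : Smp κ s) (hy : InW κ y) :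
    Up κ y (y * sw s) ∨ Up κ (y * sw s) y := by
  rcases lt_trichotomy (y s.1) (y s.2) with h | h | h
  · exact Or.inl ((up_sw_iff hy hs).mpr h)
  · exact absurd (y.injective h) hs.1.ne
  · exact Or.inr ((dn_sw_iff hy hs).mpr h)

/-- If no `z` with `z s < z` has maximal degree, then `C'_x C'_s = C'_{x s}`. -/
theorem KLF_step {x : Pm n} (hx : InW κ x) {s : Fin n × Fin n} (hs : Smp κ s)
    (hup : Up κ x (x * sw s)) {P : Pm n → Polynomial ℕ} (hP : KLF κ x P)
    (hnm : ∀ z, Up κ (z * sw s) z → P z ≠ 0 → len κ z + 2 * (P z).natDegree + 1 < len κ x) :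
    open Classical in KLF κ (x * sw s) (fun y => if Up κ y (y * sw s) then
      P y + Polynomial.X * P (y * sw s) else P (y * sw s) + Polynomial.X * P y) := by
  classical
  have hlen := len_mul_sw hx hs hup
  have hsupp : ∀ y, P y ≠ 0 → y ∈ Le (Up κ) x := by
    intro y hy
    by_contra h
    exact hy (hP.supp y h)
  have hW : ∀ y, P y ≠ 0 → InW κ y := fun y hy => Le_inW (Or.inl rfl) hx (hsupp y hy)
  have hbig : ∀ y, P y ≠ 0 → y ∈ Le (Up κ) (x * sw s) := fun y hy =>
    Relation.ReflTransGen.tail (hsupp y hy) hup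
  have hbig' : ∀ y, P (y * sw s) ≠ 0 → y ∈ Le (Up κ) (x * sw s) := by
    intro y hy
    have h1 := Le_mul_sw (Or.inl rfl) (hx.mul hs.inW) hs (by rw [sw_sw]; exact hup)
      (hbig _ hy)
    rwa [sw_sw] at h1
  have hPxs : P (x * sw s) = 0 := by
    by_contra h
    have h1 := (Le_len (hsupp _ h)).1
    omega
  refine ⟨?_, ?_, ?_, ?_⟩
  · rw [hlen]
    have h1 := SD.mul s hs hP.sd
    convert h1 using 1
    funext y
    split_ifs <;> simp
  · have h1 : ¬ Up κ (x * sw s) (x * sw s * sw s) := by
      rw [sw_sw]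
      exact hup.not_symm
    change (if Up κ (x * sw s) (x * sw s * sw s) then _ else _) = _
    rw [if_neg h1, sw_sw, hP.one, hPxs, mul_zero, add_zero]
  · intro y hy h0
    rw [hlen]
    by_cases hu : Up κ y (y * sw s)
    · rw [if_pos hu] at h0 ⊢
      have hne : y * sw s ≠ x := by
        intro h
        have h2 : y = x * sw s := by rw [← h, sw_sw]
        rw [← h2] at hup
        rw [h] at hu
        exact hup.not_symm hu
      have hP' : P (y * sw s) ≠ 0 → len κ y + 2 * (P (y * sw s)).natDegree + 2 ≤ len κ x := by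
        intro h
        have h1 := hP.deg _ hne h
        have hyW : InW κ y := by
          have := (hW _ h).mul hs.inW
          rwa [sw_sw] at this
        rw [len_mul_sw hyW hs hu] at h1
        omega
      have hd1 : len κ y + 2 * (P y).natDegree + 1 ≤ len κ x + 1 := by
        by_cases h1 : y = x
        · subst h1; rw [hP.one]; simp
        · by_cases h2 : P y = 0
          · rw [h2, zero_add] at h0
            have h3 := hP' (right_ne_zero_of_mul h0)
            rw [h2]; simp only [Polynomial.natDegree_zero]; omega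
          · have := hP.deg y h1 h2; omega
      have hd2 : len κ y + 2 * (Polynomial.X * P (y * sw s)).natDegree + 1 ≤ len κ x + 1 := by
        by_cases h2 : P (y * sw s) = 0
        · rw [h2, mul_zero]; simp only [Polynomial.natDegree_zero]; omega
        · have h3 := hP' h2
          rw [Polynomial.natDegree_X_mul h2]; omega
      have := Polynomial.natDegree_add_le (P y) (Polynomial.X * P (y * sw s))
      rcases le_max_iff.mp this with h | h <;> omega
    · rw [if_neg hu] at h0 ⊢
      have hyW : InW κ y := by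
        by_cases h2 : P y = 0
        · rw [h2, mul_zero, add_zero] at h0
          have := (hW _ h0).mul hs.inW
          rwa [sw_sw] at this
        · exact hW _ h2
      have hdn : Up κ (y * sw s) y := (up_or_dn_sw hs hyW).resolve_left hu
      have hly : len κ y = len κ (y * sw s) + 1 := by
        have := len_mul_sw (hyW.mul hs.inW) hs (by rw [sw_sw]; exact hdn)
        rwa [sw_sw] at this
      have hne : y * sw s ≠ x := by
        intro h
        apply hy
        rw [← h, sw_sw]
      have hP' : P y ≠ 0 → len κ y + 2 * (P y).natDegree + 1 < len κ x := hnm y hdn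
      have hd1 : len κ y + 2 * (P (y * sw s)).natDegree + 1 ≤ len κ x + 1 := by
        by_cases h2 : P (y * sw s) = 0
        · rw [h2, zero_add] at h0
          have h3 := hP' (right_ne_zero_of_mul h0)
          rw [h2]; simp only [Polynomial.natDegree_zero]; omega
        · have := hP.deg _ hne h2; omega
      have hd2 : len κ y + 2 * (Polynomial.X * P y).natDegree + 1 ≤ len κ x + 1 := by
        by_cases h2 : P y = 0
        · rw [h2, mul_zero]
          by_cases h3 : P (y * sw s) = 0
          · rw [h2, h3] at h0; simp at h0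
          · have := hP.deg _ hne h3
            simp only [Polynomial.natDegree_zero]; omega
        · have h3 := hP' h2
          rw [Polynomial.natDegree_X_mul h2]; omega
      have := Polynomial.natDegree_add_le (P (y * sw s)) (Polynomial.X * P y)
      rcases le_max_iff.mp this with h | h <;> omega
  · intro y hy
    have h1 : P y = 0 := by
      by_contra h; exact hy (hbig y h)
    have h2 : P (y * sw s) = 0 := by
      by_contra h; exact hy (hbig' y h)
    simp only [h1, h2]
    split_ifs <;> simp

/-- The criterion for `KLF_step` from the descents of `x`. -/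
theorem KLF_nomu {x : Pm n} (hx : InW κ x) {s : Fin n × Fin n}
    (hup : Up κ x (x * sw s)) {P : Pm n → Polynomial ℕ} (hP : KLF κ x P)
    (hc : ∀ z ∈ Le (Up κ) x, Up κ (z * sw s) z →
      (∀ r, Smp κ r → Up κ (x * sw r) x → z * sw r = x ∨ Up κ (z * sw r) z) → False) :
    ∀ z, Up κ (z * sw s) z → P z ≠ 0 → len κ z + 2 * (P z).natDegree + 1 < len κ x := by
  intro z hz h0
  by_contra hcon
  have hzx : z ≠ x := by
    rintro rfl
    exact hup.not_symm hz
  have hdeg := hP.deg z hzx h0
  have hzL : z ∈ Le (Up κ) x := by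
    by_contra h
    exact h0 (hP.supp z h)
  have hzW : InW κ z := Le_inW (Or.inl rfl) hx hzL
  apply hc z hzL hz
  intro r hr hrx
  by_cases h1 : z * sw r = x
  · exact Or.inl h1
  · right
    rcases up_or_dn_sw hr hzW with h | h
    · exfalso
      have h2 := hP.desc hx hr hrx z
      have h3 := hP.deg _ h1 (by rw [h2]; exact h0)
      rw [h2, len_mul_sw hzW hr h] at h3
      omega
    · exact h

theorem NN_step (x : Pm n) {s : Fin n × Fin n} (hs : Smp (κ0 n) s)
    (hup : Up (κ0 n) x (x * sw s)) (hle : sw s ∈ Le (Up (κ0 n)) x)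
    (hc : ∀ z ∈ Le (Up (κ0 n)) x, Up (κ0 n) (z * sw s) z →
      (∀ r, Smp (κ0 n) r → Up (κ0 n) (x * sw r) x → z * sw r = x ∨ Up (κ0 n) (z * sw r) z) →
      False) : NN x + 1 ≤ NN (x * sw s) := by
  classical
  have h1 := KLF_step (κ0_inW x) hs hup (PP_spec x) (KLF_nomu (κ0_inW x) hup (PP_spec x) hc)
  have h2 := KLF.unique (κ0_inW _) (PP_spec (x * sw s)) h1
  have h3 : Up (κ0 n) 1 (1 * sw s) := (up_sw_iff (κ0_inW 1) hs).mpr hs.1
  have h4 : NN (x * sw s) = NN x + (PP x (sw s)).eval 1 := by
    unfold NN
    rw [h2]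
    change Polynomial.eval 1 (if Up (κ0 n) 1 (1 * sw s) then _ else _) = _
    rw [if_pos h3, one_mul, Polynomial.eval_add, Polynomial.eval_mul, Polynomial.eval_X, one_mul]
  rw [h4]
  have := PP_one_le hle
  omega

/-- removing one position does not increase `N` -/
theorem NN_remove (w : Pm (n + 1)) (p : Fin (n + 1)) (v : Pm n)
    (hv : ∀ i j, v i < v j ↔ w (p.succAbove i) < w (p.succAbove j)) : NN v ≤ NN w := by
  classical
  have h1 : Rel w (univ.erase p) v := by
    refine ⟨Fin.succAboveOrderEmb p, ?_, hv⟩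
    ext m
    simp only [mem_map, mem_univ, true_and, mem_erase, and_true]
    constructor
    · rintro ⟨i, rfl⟩
      exact Fin.succAbove_ne p i
    · intro hm
      obtain ⟨i, hi⟩ := Fin.exists_succAbove_eq hm
      exact ⟨i, hi⟩
  obtain ⟨u, hu⟩ := exists_Rel w {p}
  have h2 := NN_mul w v u (univ.erase p) {p} (by simp) (by simp) h1 hu
  have h3 := NN_one_le u
  calc NN v ≤ NN v * NN u := Nat.le_mul_of_pos_right _ h3
    _ ≤ NN w := h2

theorem smp_κ0 {s : Fin n × Fin n} : Smp (κ0 n) s ↔ (s.2 : ℕ) = s.1 + 1 := by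
  constructor
  · rintro ⟨h1, -, h3⟩
    by_contra h
    have h4 : (s.1 : ℕ) < s.2 := h1
    exact h3 ⟨s.1 + 1, by have := s.2.2; omega⟩ (Fin.lt_def.mpr (by simp))
      (Fin.lt_def.mpr (by simp only; omega)) rfl
  · intro h
    refine ⟨Fin.lt_def.mpr (by omega), rfl, fun m h1 h2 => ?_⟩
    rw [Fin.lt_def] at h1 h2
    omega

theorem dn_sw_κ0 {y : Pm n} {s : Fin n × Fin n} (hs : Smp (κ0 n) s) :
    Up (κ0 n) (y * sw s) y ↔ y s.2 < y s.1 := dn_sw_iff (κ0_inW y) hs

theorem up_sw_κ0 {y : Pm n} {s : Fin n × Fin n} (hs : Smp (κ0 n) s) :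
    Up (κ0 n) y (y * sw s) ↔ y s.1 < y s.2 := up_sw_iff (κ0_inW y) hs

theorem mul_sw_apply (y : Pm n) (s : Fin n × Fin n) (i : Fin n) :
    (y * sw s) i = y (Equiv.swap s.1 s.2 i) := rfl

/-- `K_{2,k}` -/
theorem NN_bip : ∀ (k : ℕ) (w : Pm (k + 2)), w 0 < w 1 →
    (∀ i j : Fin (k + 2), 2 ≤ (i : ℕ) → i < j → w i < w j) →
    (∀ i : Fin (k + 2), 2 ≤ (i : ℕ) → w i < w 0) → k ≤ NN w := by
  intro k
  induction k with
  | zero => intro w _ _ _; exact Nat.zero_le _
  | succ m ih =>
    intro w h01 hinc hlow
    by_cases hm : m = 0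
    · subst hm; exact NN_one_le w
    obtain ⟨m, rfl⟩ := Nat.exists_eq_succ_of_ne_zero hm
    -- positions 0,1,2,3 exist
    let p0 : Fin (m + 1 + 1 + 2) := ⟨0, by omega⟩
    let p1 : Fin (m + 1 + 1 + 2) := ⟨1, by omega⟩
    let p2 : Fin (m + 1 + 1 + 2) := ⟨2, by omega⟩
    let p3 : Fin (m + 1 + 1 + 2) := ⟨3, by omega⟩
    have e0 : (0 : Fin (m + 1 + 1 + 2)) = p0 := rfl
    have e1 : (1 : Fin (m + 1 + 1 + 2)) = p1 := rfl
    change w p0 < w p1 at h01
    change ∀ i : Fin (m + 1 + 1 + 2), 2 ≤ (i : ℕ) → w i < w p0 at hlow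
    have hs : Smp (κ0 (m + 1 + 1 + 2)) (p1, p2) := smp_κ0.mpr rfl
    have hr1 : Smp (κ0 (m + 1 + 1 + 2)) (p0, p1) := smp_κ0.mpr rfl
    have hr3 : Smp (κ0 (m + 1 + 1 + 2)) (p2, p3) := smp_κ0.mpr rfl
    have w20 : w p2 < w p0 := hlow p2 (by simp [p2])
    have w21 : w p2 < w p1 := w20.trans h01
    have w23 : w p2 < w p3 := hinc p2 p3 (by simp [p2]) (Fin.lt_def.mpr (by simp [p2, p3]))
    have w30 : w p3 < w p0 := hlow p3 (by simp [p3])
    have w31 : w p3 < w p1 := w30.trans h01
    let x : Pm (m + 1 + 1 + 2) := w * sw (p1, p2)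
    have n01 : p0 ≠ p1 := by simp [p0, p1]
    have n02 : p0 ≠ p2 := by simp [p0, p2]
    have n31 : p3 ≠ p1 := by simp [p3, p1]
    have n32 : p3 ≠ p2 := by simp [p3, p2]
    have n03 : p0 ≠ p3 := by simp [p0, p3]
    have n12 : p1 ≠ p2 := by simp [p1, p2]
    have x0 : x p0 = w p0 := by
      change w (Equiv.swap p1 p2 p0) = _
      rw [Equiv.swap_apply_of_ne_of_ne n01 n02]
    have x1 : x p1 = w p2 := by
      change w (Equiv.swap p1 p2 p1) = _
      rw [Equiv.swap_apply_left]
    have x2 : x p2 = w p1 := by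
      change w (Equiv.swap p1 p2 p2) = _
      rw [Equiv.swap_apply_right]
    have x3 : x p3 = w p3 := by
      change w (Equiv.swap p1 p2 p3) = _
      rw [Equiv.swap_apply_of_ne_of_ne n31 n32]
    have hxw : x * sw (p1, p2) = w := sw_sw w _
    -- the value of `w` at `p2` is zero
    have hw2 : (w p2 : ℕ) = 0 := by
      by_contra hne
      let z0 : Fin (m + 1 + 1 + 2) := ⟨0, by omega⟩
      have hz : w (w⁻¹ z0) = z0 := w.apply_symm_apply z0
      generalize w⁻¹ z0 = p at hz
      have hlt : w p < w p2 := by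
        rw [hz, Fin.lt_def]
        exact Nat.pos_of_ne_zero hne
      by_cases hp : 2 ≤ (p : ℕ)
      · by_cases hp2 : p = p2
        · rw [hp2] at hlt; exact lt_irrefl _ hlt
        · have h1 : p2 < p := by
            rw [Fin.lt_def]
            have : (p : ℕ) ≠ 2 := fun h => hp2 (Fin.ext h)
            change 2 < (p : ℕ)
            omega
          exact absurd (hinc p2 p (by simp [p2]) h1) (not_lt.mpr hlt.le)
      · have : p = p0 ∨ p = p1 := by
          have h2 : (p : ℕ) = 0 ∨ (p : ℕ) = 1 := by omega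
          rcases h2 with h2 | h2
          · exact Or.inl (Fin.ext h2)
          · exact Or.inr (Fin.ext h2)
        rcases this with rfl | rfl
        · exact absurd hlt (not_lt.mpr w20.le)
        · exact absurd hlt (not_lt.mpr w21.le)
    have hup : Up (κ0 _) x (x * sw (p1, p2)) := (up_sw_κ0 hs).mpr (by
      simp only; rw [x1, x2]; exact w21)
    have hle : sw (p1, p2) ∈ Le (Up (κ0 (m + 1 + 1 + 2))) x := by
      apply sw_mem_Le hs
      refine ⟨p0, Fin.le_def.mpr (by simp [p0]), ?_⟩
      simp only
      rw [x0, Fin.lt_def]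
      have h1 : (w p2 : ℕ) < w p3 := w23
      have h2 : (w p3 : ℕ) < w p0 := w30
      change 1 < (w p0 : ℕ)
      omega
    have hstep := NN_step x hs hup hle (by
      intro z hz hzs hzr
      have z21 : z p2 < z p1 := (dn_sw_κ0 hs).mp hzs
      have z10 : z p1 < z p0 := by
        rcases hzr (p0, p1) hr1 ((dn_sw_κ0 hr1).mpr (by simp only; rw [x0, x1]; exact w20)) with
          h | h
        · exfalso
          have hz' : z = x * sw (p0, p1) := by rw [← h, sw_sw]
          have a1 : z p1 = w p0 := by
            rw [hz']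
            change x (Equiv.swap p0 p1 p1) = _
            rw [Equiv.swap_apply_right, x0]
          have a2 : z p2 = w p1 := by
            rw [hz']
            change x (Equiv.swap p0 p1 p2) = _
            rw [Equiv.swap_apply_of_ne_of_ne n02.symm n12.symm, x2]
          rw [a1, a2] at z21
          exact absurd z21 (not_lt.mpr h01.le)
        · exact (dn_sw_κ0 hr1).mp h
      have z32 : z p3 < z p2 := by
        rcases hzr (p2, p3) hr3 ((dn_sw_κ0 hr3).mpr (by simp only; rw [x2, x3]; exact w31)) with
          h | h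
        · exfalso
          have hz' : z = x * sw (p2, p3) := by rw [← h, sw_sw]
          have a1 : z p1 = w p2 := by
            rw [hz']
            change x (Equiv.swap p2 p3 p1) = _
            rw [Equiv.swap_apply_of_ne_of_ne n12 n31.symm, x1]
          have a2 : z p2 = w p3 := by
            rw [hz']
            change x (Equiv.swap p2 p3 p2) = _
            rw [Equiv.swap_apply_left, x3]
          rw [a1, a2] at z21
          exact absurd z21 (not_lt.mpr w23.le)
        · exact (dn_sw_κ0 hr3).mp h
      have hcount := Le_count hz 3 1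
      have c1 : ({p0, p1, p2} : Finset (Fin (m + 1 + 1 + 2))) ⊆
          univ.filter (fun p : Fin (m + 1 + 1 + 2) => (p : ℕ) < 3 ∧ 1 ≤ (z p : ℕ)) := by
        intro p hp
        simp only [mem_insert, mem_singleton] at hp
        simp only [mem_filter, mem_univ, true_and]
        have b1 : (z p3 : ℕ) < z p2 := z32
        have b2 : (z p2 : ℕ) < z p1 := z21
        have b3 : (z p1 : ℕ) < z p0 := z10
        rcases hp with rfl | rfl | rfl
        · exact ⟨by simp [p0], by omega⟩
        · exact ⟨by simp [p1], by omega⟩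
        · exact ⟨by simp [p2], by omega⟩
      have c2 : (univ.filter (fun p : Fin (m + 1 + 1 + 2) => (p : ℕ) < 3 ∧ 1 ≤ (x p : ℕ))) ⊆
          {p0, p2} := by
        intro p hp
        simp only [mem_filter, mem_univ, true_and] at hp
        simp only [mem_insert, mem_singleton]
        have h3 : (p : ℕ) = 0 ∨ (p : ℕ) = 1 ∨ (p : ℕ) = 2 := by omega
        rcases h3 with h3 | h3 | h3
        · exact Or.inl (Fin.ext h3)
        · exfalso
          have : p = p1 := Fin.ext h3
          rw [this, x1] at hp
          omega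
        · exact Or.inr (Fin.ext h3)
      have c3 := Finset.card_le_card c1
      have c4 := (Finset.card_le_card c2).trans Finset.card_le_two
      have c5 : ({p0, p1, p2} : Finset (Fin (m + 1 + 1 + 2))).card = 3 := by
        rw [Finset.card_eq_three]
        exact ⟨p0, p1, p2, n01, n02, n12, rfl⟩
      omega)
    rw [hxw] at hstep
    -- the pattern of `x` without the position 1
    obtain ⟨v, -, hv⟩ := exists_Rel_of_emb x (Fin.succAboveOrderEmb p1)
    have hv' : ∀ i j, v i < v j ↔ x (p1.succAbove i) < x (p1.succAbove j) := hv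
    have hrem := NN_remove x p1 v hv'
    have s0 : p1.succAbove (0 : Fin (m + 1 + 2)) = p0 := by
      apply Fin.ext; simp [Fin.succAbove, p1, p0, Fin.lt_def]
    have s1 : p1.succAbove (1 : Fin (m + 1 + 2)) = p2 := by
      apply Fin.ext; simp [Fin.succAbove, p1, p2, Fin.lt_def]
    have sge : ∀ i : Fin (m + 1 + 2), 1 ≤ (i : ℕ) → ((p1.succAbove i : Fin _) : ℕ) = i + 1 := by
      intro i hi
      have v1 : (p1 : ℕ) = 1 := rfl
      have : ¬ (i.castSucc < p1) := by
        rw [Fin.lt_def, v1, Fin.val_castSucc]; omega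
      simp [Fin.succAbove, this]
    have xge : ∀ p : Fin (m + 1 + 1 + 2), 3 ≤ (p : ℕ) → x p = w p := by
      intro p hp
      change w (Equiv.swap p1 p2 p) = _
      rw [Equiv.swap_apply_of_ne_of_ne]
      · intro h; rw [h] at hp; simp [p1] at hp
      · intro h; rw [h] at hp; simp [p2] at hp
    have hk := ih v (by rw [hv', s0, s1, x0, x2]; exact h01) (by
      intro i j hi hij
      have hj : 2 ≤ (j : ℕ) := hi.trans (Fin.lt_def.mp hij).le
      have a1 := sge i (by omega)
      have a2 := sge j (by omega)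
      rw [hv', xge (p1.succAbove i) (by omega), xge (p1.succAbove j) (by omega)]
      apply hinc
      · omega
      · rw [Fin.lt_def, a1, a2]
        have := Fin.lt_def.mp hij
        omega) (by
      intro i hi
      have a1 := sge i (by omega)
      rw [hv', s0, x0, xge (p1.succAbove i) (by omega)]
      apply hlow
      omega)
    omega

/-- `F_k` -/
theorem NN_fan : ∀ (k : ℕ) (w : Pm (k + 2)),
    (∀ i j : Fin (k + 2), 1 ≤ (i : ℕ) → i < j → (j : ℕ) < k + 1 → w i < w j) →
    (∀ i : Fin (k + 2), 1 ≤ (i : ℕ) → (i : ℕ) < k + 1 → w (Fin.last (k + 1)) < w i ∧ w i < w 0) →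
    w (Fin.last (k + 1)) < w 0 → k ≤ NN w := by
  intro k
  induction k with
  | zero => intro w _ _ _; exact Nat.zero_le _
  | succ m ih =>
    intro w hinc hmid hlast
    by_cases hm : m = 0
    · subst hm; exact NN_one_le w
    obtain ⟨m, rfl⟩ := Nat.exists_eq_succ_of_ne_zero hm
    let p0 : Fin (m + 1 + 1 + 2) := ⟨0, by omega⟩
    let p1 : Fin (m + 1 + 1 + 2) := ⟨1, by omega⟩
    let p2 : Fin (m + 1 + 1 + 2) := ⟨2, by omega⟩
    let pl : Fin (m + 1 + 1 + 2) := Fin.last (m + 1 + 1 + 1)
    have e0 : (0 : Fin (m + 1 + 1 + 2)) = p0 := rfl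
    change w pl < w p0 at hlast
    have hmid' : ∀ i : Fin (m + 1 + 1 + 2), 1 ≤ (i : ℕ) → (i : ℕ) < m + 1 + 1 + 1 →
        w pl < w i ∧ w i < w p0 := hmid
    have hs : Smp (κ0 (m + 1 + 1 + 2)) (p0, p1) := smp_κ0.mpr rfl
    have hr2 : Smp (κ0 (m + 1 + 1 + 2)) (p1, p2) := smp_κ0.mpr rfl
    have v0 : (p0 : ℕ) = 0 := rfl
    have v1 : (p1 : ℕ) = 1 := rfl
    have v2 : (p2 : ℕ) = 2 := rfl
    have vl : (pl : ℕ) = m + 3 := rfl
    have w1l : w pl < w p1 := (hmid' p1 (by omega) (by omega)).1
    have w10 : w p1 < w p0 := (hmid' p1 (by omega) (by omega)).2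
    have w20 : w p2 < w p0 := (hmid' p2 (by omega) (by omega)).2
    have w12 : w p1 < w p2 := hinc p1 p2 (by omega) (Fin.lt_def.mpr (by omega)) (by omega)
    let x : Pm (m + 1 + 1 + 2) := w * sw (p0, p1)
    have n01 : p0 ≠ p1 := by simp [p0, p1]
    have n02 : p0 ≠ p2 := by simp [p0, p2]
    have n12 : p1 ≠ p2 := by simp [p1, p2]
    have x0 : x p0 = w p1 := by
      change w (Equiv.swap p0 p1 p0) = _
      rw [Equiv.swap_apply_left]
    have x1 : x p1 = w p0 := by
      change w (Equiv.swap p0 p1 p1) = _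
      rw [Equiv.swap_apply_right]
    have xge : ∀ p : Fin (m + 1 + 1 + 2), 2 ≤ (p : ℕ) → x p = w p := by
      intro p hp
      change w (Equiv.swap p0 p1 p) = _
      rw [Equiv.swap_apply_of_ne_of_ne]
      · intro h; rw [h] at hp; omega
      · intro h; rw [h] at hp; omega
    have x2 : x p2 = w p2 := xge p2 (by omega)
    have hxw : x * sw (p0, p1) = w := sw_sw w _
    -- the value at `p1` is one
    have hw1 : (w p1 : ℕ) ≤ 1 := by
      by_contra hne
      let z0 : Fin (m + 1 + 1 + 2) := ⟨1, by omega⟩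
      have hz : w (w⁻¹ z0) = z0 := w.apply_symm_apply z0
      let y0 : Fin (m + 1 + 1 + 2) := ⟨0, by omega⟩
      have hy : w (w⁻¹ y0) = y0 := w.apply_symm_apply y0
      have hcls : ∀ p, w p < w p1 → p = pl := by
        intro p hlt
        by_cases h0 : (p : ℕ) = 0
        · have : p = p0 := Fin.ext h0
          rw [this] at hlt
          exact absurd hlt (not_lt.mpr w10.le)
        · by_cases h3 : (p : ℕ) < m + 1 + 1 + 1
          · by_cases h4 : (p : ℕ) = 1
            · have : p = p1 := Fin.ext h4
              rw [this] at hlt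
              exact absurd hlt (lt_irrefl _)
            · have := hinc p1 p (by omega) (Fin.lt_def.mpr (by omega)) (by omega)
              exact absurd hlt (not_lt.mpr this.le)
          · apply Fin.ext
            have := p.2
            omega
      have a1 := hcls (w⁻¹ z0) (by rw [hz, Fin.lt_def]; change 1 < (w p1 : ℕ); omega)
      have a2 := hcls (w⁻¹ y0) (by rw [hy, Fin.lt_def]; change 0 < (w p1 : ℕ); omega)
      rw [a1] at hz
      rw [a2, hz] at hy
      have := congrArg Fin.val hy
      simp [z0, y0] at this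
    have hup : Up (κ0 _) x (x * sw (p0, p1)) := (up_sw_κ0 hs).mpr (by
      simp only; rw [x0, x1]; exact w10)
    have hle : sw (p0, p1) ∈ Le (Up (κ0 (m + 1 + 1 + 2))) x := by
      apply sw_mem_Le hs
      refine ⟨p0, le_rfl, ?_⟩
      simp only
      rw [x0, Fin.lt_def]
      have h1 : (w pl : ℕ) < w p1 := w1l
      omega
    have hstep := NN_step x hs hup hle (by
      intro z hz hzs hzr
      have z10 : z p1 < z p0 := (dn_sw_κ0 hs).mp hzs
      have z21 : z p2 < z p1 := by
        rcases hzr (p1, p2) hr2 ((dn_sw_κ0 hr2).mpr (by simp only; rw [x1, x2]; exact w20)) with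
          h | h
        · exfalso
          have hz' : z = x * sw (p1, p2) := by rw [← h, sw_sw]
          have a1 : z p1 = w p2 := by
            rw [hz']
            change x (Equiv.swap p1 p2 p1) = _
            rw [Equiv.swap_apply_left, x2]
          have a2 : z p0 = w p1 := by
            rw [hz']
            change x (Equiv.swap p1 p2 p0) = _
            rw [Equiv.swap_apply_of_ne_of_ne n01 n02, x0]
          rw [a1, a2] at z10
          exact absurd z10 (not_lt.mpr w12.le)
        · exact (dn_sw_κ0 hr2).mp h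
      have hcount := Le_count hz 1 2
      have c1 : ({p0} : Finset (Fin (m + 1 + 1 + 2))) ⊆
          univ.filter (fun p : Fin (m + 1 + 1 + 2) => (p : ℕ) < 1 ∧ 2 ≤ (z p : ℕ)) := by
        intro p hp
        simp only [mem_singleton] at hp
        simp only [mem_filter, mem_univ, true_and]
        have b2 : (z p2 : ℕ) < z p1 := z21
        have b3 : (z p1 : ℕ) < z p0 := z10
        subst hp
        exact ⟨by omega, by omega⟩
      have c2 : (univ.filter (fun p : Fin (m + 1 + 1 + 2) => (p : ℕ) < 1 ∧ 2 ≤ (x p : ℕ))) =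
          ∅ := by
        rw [Finset.filter_eq_empty_iff]
        rintro p - ⟨h1, h2⟩
        have : p = p0 := Fin.ext (by omega)
        rw [this, x0] at h2
        omega
      have c3 := Finset.card_le_card c1
      rw [c2, Finset.card_empty] at hcount
      rw [Finset.card_singleton] at c3
      omega)
    rw [hxw] at hstep
    obtain ⟨v, -, hv⟩ := exists_Rel_of_emb x (Fin.succAboveOrderEmb p0)
    have hv' : ∀ i j, v i < v j ↔ x (p0.succAbove i) < x (p0.succAbove j) := hv
    have hrem := NN_remove x p0 v hv'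
    have sval : ∀ i : Fin (m + 1 + 2), ((p0.succAbove i : Fin _) : ℕ) = i + 1 := by
      intro i
      have : ¬ (i.castSucc < p0) := by
        rw [Fin.lt_def]; omega
      simp [Fin.succAbove, this]
    have s0 : p0.succAbove (0 : Fin (m + 1 + 2)) = p1 := Fin.ext (by rw [sval]; rfl)
    have sl : p0.succAbove (Fin.last (m + 1 + 1)) = pl := Fin.ext (by rw [sval]; rfl)
    have xl : x pl = w pl := xge pl (by omega)
    have hk := ih v (by
      intro i j hi hij hj
      have a1 := sval i
      have a2 := sval j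
      have hij' := Fin.lt_def.mp hij
      rw [hv', xge (p0.succAbove i) (by omega), xge (p0.succAbove j) (by omega)]
      apply hinc
      · omega
      · rw [Fin.lt_def]; omega
      · omega) (by
      intro i hi hi2
      have a1 := sval i
      have h1 := hmid' (p0.succAbove i) (by omega) (by omega)
      rw [hv', hv', s0, sl, xl, x1, xge (p0.succAbove i) (by omega)]
      exact h1) (by
      rw [hv', s0, sl, xl, x1]
      exact hlast)
    omega

end KLFin
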