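import Mathlib
import Pool.Agent.KLFin.BEDefs

/-!
# Part B (MP_d9d356_co), block CUTC: the combinatorics of the cut.
-/

open Finset

namespace KLFin

namespace CUTC

theorem card_lt_perm {m : ℕ} (v : Equiv.Perm (Fin m)) (x : Fin m) :
    (univ.filter (fun y : Fin m => v y < v x)).card = (v x : ℕ) := by
  have : univ.filter (fun y : Fin m => v y < v x) = (Finset.Iio (v x)).map v⁻¹.toEmbedding := by
    ext y
    simp only [mem_filter, mem_univ, true_and, mem_map_equiv, mem_Iio]
    rw [show (v⁻¹ : Equiv.Perm (Fin m)).symm y = v y from rfl]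
  rw [this, card_map, Fin.card_Iio]

theorem card_ge_perm {m : ℕ} (v : Equiv.Perm (Fin m)) (b : ℕ) :
    (univ.filter (fun y : Fin m => b ≤ (v y : ℕ))).card = m - b := by
  have h1 : univ.filter (fun y : Fin m => b ≤ (v y : ℕ)) =
      (univ.filter (fun y : Fin m => b ≤ (y : ℕ))).map v⁻¹.toEmbedding := by
    ext y
    simp only [mem_filter, mem_univ, true_and, mem_map_equiv]
    rw [show (v⁻¹ : Equiv.Perm (Fin m)).symm y = v y from rfl]
  rw [h1, card_map]
  have h2 : (univ.filter (fun y : Fin m => b ≤ (y : ℕ))).card +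
      (univ.filter (fun y : Fin m => (y : ℕ) < b)).card = m := by
    have := Finset.card_filter_add_card_filter_not (s := (univ : Finset (Fin m)))
      (fun y : Fin m => b ≤ (y : ℕ))
    simpa [not_le] using this
  have h3 : (univ.filter (fun y : Fin m => (y : ℕ) < b)).card = min b m := by
    have h4 : (univ.filter (fun y : Fin m => (y : ℕ) < b)).map Fin.valEmbedding =
        Finset.range (min b m) := by
      ext t
      simp only [mem_map, mem_filter, mem_univ, true_and, Fin.valEmbedding_apply, mem_range,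
        lt_min_iff]
      constructor
      · rintro ⟨y, hy, rfl⟩; exact ⟨hy, y.2⟩
      · rintro ⟨h, h'⟩; exact ⟨⟨t, h'⟩, h, rfl⟩
    rw [← card_map, h4, card_range]
  omega

theorem card_lt {m : ℕ} (b : ℕ) :
    (univ.filter (fun y : Fin m => (y : ℕ) < b)).card = min b m := by
  have h4 : (univ.filter (fun y : Fin m => (y : ℕ) < b)).map Fin.valEmbedding =
      Finset.range (min b m) := by
    ext t
    simp only [mem_map, mem_filter, mem_univ, true_and, Fin.valEmbedding_apply, mem_range,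
      lt_min_iff]
    constructor
    · rintro ⟨y, hy, rfl⟩; exact ⟨hy, y.2⟩
    · rintro ⟨h, h'⟩; exact ⟨⟨t, h'⟩, h, rfl⟩
  rw [← card_map, h4, card_range]

theorem inv_self {m : ℕ} (f : Equiv.Perm (Fin m)) (x : Fin m) : f⁻¹ (f x) = x :=
  f.symm_apply_apply x

theorem self_inv {m : ℕ} (f : Equiv.Perm (Fin m)) (x : Fin m) : f (f⁻¹ x) = x :=
  f.apply_symm_apply x

theorem vx_apply {n k : ℕ} (e : Fin k ↪o Fin n) (y : Pm k) (i : Fin k) :
    vx e y (e i) = e (y i) :=
  Equiv.Perm.viaEmbedding_apply y e.toEmbedding i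

theorem vx_notMem {n k : ℕ} (e : Fin k ↪o Fin n) (y : Pm k) (x : Fin n)
    (h : ∀ i, e i ≠ x) : vx e y x = x := by
  apply Equiv.Perm.viaEmbedding_apply_of_notMem
  rintro ⟨i, hi⟩
  exact h i hi

end CUTC

open CUTC

/-- the factorisation `w = w₂ α`, `w₁ = d α` of a permutation with a decreasing cut -/
theorem cut_factor {n k l : ℕ} (w : Pm n) (v : Pm k) (u : Pm l) (a b : ℕ)
    (h1 : ∀ i : Fin n, a ≤ (i : ℕ) → b ≤ (w i : ℕ))
    (h2 : Dec w (univ.filter (fun i => (i : ℕ) < a ∧ b ≤ (w i : ℕ))))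
    (h3 : Rel w (univ.filter (fun i => (i : ℕ) < a)) v)
    (h4 : Rel w (univ.filter (fun i => b ≤ (w i : ℕ))) u) :
    ∃ (e₁ : Fin k ↪o Fin n) (e₂ : Fin l ↪o Fin n) (α d : Pm n),
      (∀ i, ((e₁ i : Fin n) : ℕ) = i) ∧ (∀ i, ((e₂ i : Fin n) : ℕ) + l = i + n) ∧
      vx e₁ v ∈ GA n a ∧ vx e₂ u ∈ GB n b ∧ (∀ y, vx e₁ y ∈ GA n a) ∧ (∀ y, vx e₂ y ∈ GB n b) ∧
      α ∈ MA n a b ∧ d ∈ GJ n a b ∧ w = vx e₂ u * α ∧ vx e₁ v = d * α ∧
      (∀ i j : Fin n, b ≤ (i : ℕ) → i < j → (j : ℕ) < a → d j < d i) ∧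
      (∀ i j : Fin n, b ≤ (i : ℕ) → i < j → (j : ℕ) < a → vx e₂ u j < vx e₂ u i) := by
  classical
  obtain ⟨f₁, hf₁, hv⟩ := h3
  obtain ⟨f₂, hf₂, hu⟩ := h4
  -- cardinalities
  have hk : k = min a n := by
    have h := congrArg Finset.card hf₁
    rw [card_map, card_univ, Fintype.card_fin, card_lt] at h
    exact h
  have hl : l = n - b := by
    have h := congrArg Finset.card hf₂
    rw [card_map, card_univ, Fintype.card_fin, card_ge_perm] at h
    exact h
  have hkn : k ≤ n := by omega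
  have hln : l ≤ n := by omega
  -- the embeddings
  have hm₁ : ∀ x : Fin n, (x : ℕ) < a ↔ ∃ i, f₁ i = x := by
    intro x
    have := congrArg (fun S => x ∈ S) hf₁
    simp only [mem_map, mem_univ, true_and, mem_filter, eq_iff_iff] at this
    rw [← this]; rfl
  have hm₂ : ∀ x : Fin n, b ≤ (w x : ℕ) ↔ ∃ i, f₂ i = x := by
    intro x
    have := congrArg (fun S => x ∈ S) hf₂
    simp only [mem_map, mem_univ, true_and, mem_filter, eq_iff_iff] at this
    rw [← this]; rfl
  let e₂ : Fin l ↪o Fin n := OrderEmbedding.ofStrictMono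
    (fun i => (⟨(i : ℕ) + (n - l), by have := i.2; omega⟩ : Fin n)) (by
      intro i j hij
      have : (i : ℕ) < j := hij
      show (i : ℕ) + (n - l) < (j : ℕ) + (n - l)
      omega)
  have he₂ : ∀ i, ((e₂ i : Fin n) : ℕ) = i + (n - l) := fun i => rfl
  have he₁ : ∀ i, ((f₁ i : Fin n) : ℕ) = i := by
    let e₁ : Fin k ↪o Fin n := Fin.castLEOrderEmb hkn
    have : f₁ = e₁ := by
      rw [← OrderEmbedding.range_inj]
      ext x
      constructor
      · rintro hx
        have hx' : (x : ℕ) < a := (hm₁ x).2 hx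
        exact ⟨⟨x, by have := x.2; omega⟩, rfl⟩
      · rintro ⟨i, rfl⟩
        apply (hm₁ _).1
        have := i.2
        show (i : ℕ) < a
        omega
    intro i
    rw [this]; rfl
  -- `w ∘ f₂ = e₂ ∘ u`
  have hw₂ : ∀ i, w (f₂ i) = e₂ (u i) := by
    let g : Fin l ↪o Fin n := OrderEmbedding.ofStrictMono
      (fun i => w (f₂ (u.symm i))) (by
        intro i j hij
        show w (f₂ (u.symm i)) < w (f₂ (u.symm j))
        rw [← hu]
        simpa using hij)
    have : g = e₂ := by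
      rw [← OrderEmbedding.range_inj]
      ext x
      constructor
      · rintro ⟨i, rfl⟩
        have h5 : b ≤ (w (f₂ (u.symm i)) : ℕ) := (hm₂ _).2 ⟨_, rfl⟩
        have h6 : (w (f₂ (u.symm i)) : ℕ) < n := (w (f₂ (u.symm i))).2
        refine ⟨⟨(w (f₂ (u.symm i)) : ℕ) - (n - l), by omega⟩, ?_⟩
        apply Fin.ext
        rw [he₂]
        show (w (f₂ (u.symm i)) : ℕ) - (n - l) + (n - l) = (w (f₂ (u.symm i)) : ℕ)
        omega
      · rintro ⟨i, rfl⟩
        have h5 : b ≤ (w (w.symm (e₂ i)) : ℕ) := by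
          rw [Equiv.apply_symm_apply, he₂]; omega
        obtain ⟨j, hj⟩ := (hm₂ _).1 h5
        refine ⟨u j, ?_⟩
        show w (f₂ (u.symm (u j))) = e₂ i
        rw [Equiv.symm_apply_apply, hj, Equiv.apply_symm_apply]
    intro i
    have h7 := congrArg (fun h : Fin l ↪o Fin n => h (u i)) this
    rw [← h7]
    show w (f₂ i) = w (f₂ (u.symm (u i)))
    rw [Equiv.symm_apply_apply]
  set w₁ := vx f₁ v with hw₁def
  set w₂ := vx e₂ u with hw₂def
  have hw₁a : ∀ i, w₁ (f₁ i) = f₁ (v i) := fun i => vx_apply f₁ v i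
  have hw₂a : ∀ i, w₂ (e₂ i) = e₂ (u i) := fun i => vx_apply e₂ u i
  have hf₁a : ∀ (y : Pm k) (x : Fin n), a ≤ (x : ℕ) → vx f₁ y x = x := by
    intro y x hx
    apply vx_notMem
    intro i hi
    have := (hm₁ x).2 ⟨i, hi⟩
    omega
  have he₂b : ∀ (y : Pm l) (x : Fin n), (x : ℕ) < b → vx e₂ y x = x := by
    intro y x hx
    apply vx_notMem
    intro i hi
    have h8 := he₂ i
    rw [hi] at h8
    have := x.2
    have := i.2
    omega
  let α : Pm n := w₂⁻¹ * w
  have hα₂ : ∀ i, α (f₂ i) = e₂ i := by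
    intro i
    show w₂⁻¹ (w (f₂ i)) = e₂ i
    rw [hw₂, ← hw₂a, inv_self]
  have hαb : ∀ x, (w x : ℕ) < b → α x = w x := by
    intro x hx
    show w₂⁻¹ (w x) = w x
    rw [Equiv.Perm.inv_eq_iff_eq]
    exact (he₂b u _ hx).symm
  have hαa : ∀ x : Fin n, a ≤ (x : ℕ) → α x = x := by
    intro x hx
    obtain ⟨j, hj⟩ := (hm₂ x).1 (h1 x hx)
    rw [← hj, hα₂, hj]
    -- count
    have hc : (univ.filter (fun y : Fin l => j ≤ y)).map f₂.toEmbedding =
        univ.filter (fun y : Fin n => x ≤ y) := by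
      ext y
      simp only [mem_map, mem_filter, mem_univ, true_and]
      constructor
      · rintro ⟨i, hi, rfl⟩
        rw [← hj]
        exact f₂.monotone hi
      · intro hy
        have hy' : (x : ℕ) ≤ y := hy
        obtain ⟨i, hi⟩ := (hm₂ y).1 (h1 y (by omega))
        refine ⟨i, ?_, hi⟩
        rw [← hi, ← hj] at hy
        exact f₂.le_iff_le.1 hy
    have hc' := congrArg Finset.card hc
    rw [card_map] at hc'
    have e5 : univ.filter (fun y : Fin l => j ≤ y) = Finset.Ici j := by ext; simp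
    have e6 : univ.filter (fun y : Fin n => x ≤ y) = Finset.Ici x := by ext; simp
    rw [e5, e6, Fin.card_Ici, Fin.card_Ici] at hc'
    apply Fin.ext
    rw [he₂]
    have := x.2
    have := j.2
    omega
  have hαinv : ∀ i, α⁻¹ (e₂ i) = f₂ i := by
    intro i
    rw [← hα₂, inv_self]
  -- elements `≥ b` are of the form `e₂ i`
  have hge : ∀ x : Fin n, b ≤ (x : ℕ) → ∃ i, e₂ i = x := by
    intro x hx
    have := x.2
    refine ⟨⟨(x : ℕ) - (n - l), by omega⟩, ?_⟩
    apply Fin.ext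
    rw [he₂]
    show (x : ℕ) - (n - l) + (n - l) = x
    omega
  have hαinva : ∀ x : Fin n, a ≤ (x : ℕ) → α⁻¹ x = x := by
    intro x hx
    rw [Equiv.Perm.inv_eq_iff_eq]
    exact (hαa x hx).symm
  have hαinvlt : ∀ x : Fin n, (x : ℕ) < a → ((α⁻¹ x : Fin n) : ℕ) < a := by
    intro x hx
    by_contra hcon
    have h9 := hαa (α⁻¹ x) (by omega)
    rw [self_inv] at h9
    rw [← h9] at hcon
    exact hcon hx
  have hαmono : ∀ i j : Fin n, b ≤ (i : ℕ) → i < j → α⁻¹ i < α⁻¹ j := by
    intro i j hi hij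
    have hij' : (i : ℕ) < j := hij
    obtain ⟨i', hi'⟩ := hge i hi
    obtain ⟨j', hj'⟩ := hge j (by omega)
    rw [← hi', ← hj', hαinv, hαinv]
    rw [← hi', ← hj'] at hij
    exact f₂.strictMono (e₂.lt_iff_lt.1 hij)
  have hwge : ∀ i : Fin n, b ≤ (i : ℕ) → b ≤ (w (α⁻¹ i) : ℕ) := by
    intro i hi
    obtain ⟨i', hi'⟩ := hge i hi
    rw [← hi', hαinv]
    exact (hm₂ _).2 ⟨_, rfl⟩
  have hwdec : ∀ i j : Fin n, b ≤ (i : ℕ) → i < j → (j : ℕ) < a →
      w (α⁻¹ j) < w (α⁻¹ i) := by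
    intro i j hi hij hj
    have hij' : (i : ℕ) < j := hij
    apply h2
    · simp only [mem_filter, mem_univ, true_and]
      exact ⟨hαinvlt i (by omega), hwge i hi⟩
    · simp only [mem_filter, mem_univ, true_and]
      exact ⟨hαinvlt j hj, hwge j (by omega)⟩
    · exact hαmono i j hi hij
  have hw₁lt : ∀ p q : Fin n, (p : ℕ) < a → (q : ℕ) < a → w p < w q → w₁ p < w₁ q := by
    intro p q hp hq hpq
    obtain ⟨p', rfl⟩ := (hm₁ p).1 hp
    obtain ⟨q', rfl⟩ := (hm₁ q).1 hq
    rw [hw₁a, hw₁a]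
    exact f₁.strictMono ((hv _ _).2 hpq)
  -- `w₁ = w` at small values
  have hw₁b : ∀ p : Fin n, (w p : ℕ) < b → w₁ p = w p := by
    intro p hp
    have hpa : (p : ℕ) < a := by
      by_contra hcon
      have := h1 p (by omega)
      omega
    obtain ⟨x, hx⟩ := (hm₁ p).1 hpa
    have hc : (univ.filter (fun y : Fin k => v y < v x)).map f₁.toEmbedding =
        univ.filter (fun q : Fin n => w q < w p) := by
      ext q
      simp only [mem_map, mem_filter, mem_univ, true_and]
      constructor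
      · rintro ⟨i, hi, rfl⟩
        rw [← hx]
        exact (hv _ _).1 hi
      · intro hq
        have hq' : (w q : ℕ) < w p := hq
        have hqa : (q : ℕ) < a := by
          by_contra hcon
          have := h1 q (by omega)
          omega
        obtain ⟨i, hi⟩ := (hm₁ q).1 hqa
        refine ⟨i, ?_, hi⟩
        rw [hv, hx]
        rw [hi]
        exact hq
    have hc' := congrArg Finset.card hc
    rw [card_map, card_lt_perm, card_lt_perm] at hc'
    apply Fin.ext
    rw [← hx, hw₁a, he₁, hc', hx]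
  have hdα : w₁ = (w₁ * α⁻¹) * α := by group
  refine ⟨f₁, e₂, α, w₁ * α⁻¹, he₁, ?_, ?_, ?_, ?_, ?_, ?_, ?_, ?_, hdα, ?_, ?_⟩
  · intro i
    rw [he₂]; omega
  · simp only [GA, mem_filter, mem_univ, true_and]
    exact hf₁a v
  · simp only [GB, mem_filter, mem_univ, true_and]
    exact he₂b u
  · intro y
    simp only [GA, mem_filter, mem_univ, true_and]
    exact hf₁a y
  · intro y
    simp only [GB, mem_filter, mem_univ, true_and]
    exact he₂b y
  · simp only [MA, GA, mem_filter, mem_univ, true_and]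
    exact ⟨hαa, fun i j hi hij _ => hαmono i j hi hij⟩
  · simp only [GJ, mem_filter, mem_univ, true_and]
    intro i hi
    by_cases hia : a ≤ (i : ℕ)
    · rw [Equiv.Perm.mul_apply, hαinva i hia]
      exact hf₁a v i hia
    · have hib : (i : ℕ) < b := by omega
      have h10 : α⁻¹ i = w⁻¹ i := by
        rw [Equiv.Perm.inv_eq_iff_eq, hαb]
        · rw [self_inv]
        · rw [self_inv]; exact hib
      rw [Equiv.Perm.mul_apply, h10, hw₁b]
      · rw [self_inv]
      · rw [self_inv]; exact hib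
  · show w = w₂ * (w₂⁻¹ * w)
    group
  · intro i j hi hij hj
    have hij' : (i : ℕ) < j := hij
    rw [Equiv.Perm.mul_apply, Equiv.Perm.mul_apply]
    exact hw₁lt _ _ (hαinvlt j hj) (hαinvlt i (by omega)) (hwdec i j hi hij hj)
  · intro i j hi hij hj
    have h11 : ∀ x, w₂ x = w (α⁻¹ x) := by
      intro x
      show w₂ x = w ((w₂⁻¹ * w)⁻¹ x)
      simp
    rw [h11, h11]
    exact hwdec i j hi hij hj

end KLFin
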