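import Mathlib
import Pool.Agent.KLFin.BEDefs

/-!
# Block TF1a (MP_d9d356_co): lengths add for `y ∈ GB`, `α ∈ MA`; injectivity of the product.
-/

open Finset

namespace KLFin

variable {n : ℕ}

namespace TF1a

theorem mem_GA {a : ℕ} {y : Pm n} : y ∈ GA n a ↔ ∀ i : Fin n, a ≤ (i : ℕ) → y i = i := by
  unfold GA; simp

theorem mem_GB {b : ℕ} {y : Pm n} : y ∈ GB n b ↔ ∀ i : Fin n, (i : ℕ) < b → y i = i := by
  unfold GB; simp

theorem mem_MA {a b : ℕ} {y : Pm n} : y ∈ MA n a b ↔ y ∈ GA n a ∧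
    ∀ i j : Fin n, b ≤ (i : ℕ) → i < j → (j : ℕ) < a → y⁻¹ i < y⁻¹ j := by
  unfold MA; simp

theorem inv_ap (y : Pm n) (i : Fin n) : y⁻¹ (y i) = i := y.symm_apply_apply i

theorem inv_fix {y : Pm n} {i : Fin n} (h : y i = i) : y⁻¹ i = i := by
  rw [Equiv.Perm.inv_eq_iff_eq]; exact h.symm

/-- a permutation fixing `i ≥ a` maps `[0,a)` to itself -/
theorem lt_of_fix {a : ℕ} {y : Pm n} (h : ∀ i : Fin n, a ≤ (i : ℕ) → y i = i) {i : Fin n}
    (hi : (i : ℕ) < a) : (y i : ℕ) < a := by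
  by_contra hc
  have h1 := h (y i) (not_lt.mp hc)
  have h2 := y.injective h1
  rw [h2] at hc
  exact hc hi

/-- a permutation fixing `i < b` maps `[b,n)` to itself -/
theorem ge_of_fix {b : ℕ} {y : Pm n} (h : ∀ i : Fin n, (i : ℕ) < b → y i = i) {i : Fin n}
    (hi : b ≤ (i : ℕ)) : b ≤ (y i : ℕ) := by
  by_contra hc
  have h1 := h (y i) (not_le.mp hc)
  have h2 := y.injective h1
  rw [h2] at hc
  exact hc hi

theorem no_both {a b : ℕ} {y α : Pm n} (hy : y ∈ GB n b) (hα : α ∈ MA n a b) {v u : Fin n}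
    (hvu : v < u) (h1 : y u < y v) : α⁻¹ v < α⁻¹ u := by
  rw [mem_GB] at hy
  rw [mem_MA, mem_GA] at hα
  obtain ⟨hα1, hα2⟩ := hα
  have hv : b ≤ (v : ℕ) := by
    by_contra hc
    rw [not_le] at hc
    rw [hy v hc] at h1
    have h2 : (y u : ℕ) < b := lt_trans (Fin.lt_def.mp h1) hc
    have h3 := y.injective (hy (y u) h2)
    rw [h3] at h1
    exact absurd hvu (not_lt.mpr h1.le)
  have hα1' : ∀ i : Fin n, a ≤ (i : ℕ) → α⁻¹ i = i := fun i hi => inv_fix (hα1 i hi)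
  by_cases hu : (u : ℕ) < a
  · exact hα2 v u hv hvu hu
  · rw [not_lt] at hu
    rw [hα1' u hu]
    by_cases hva : (v : ℕ) < a
    · exact Fin.lt_def.mpr (lt_of_lt_of_le (lt_of_fix hα1' hva) hu)
    · rw [hα1' v (not_lt.mp hva)]; exact hvu

end TF1a

open TF1a

/-- lengths add -/
theorem len_mul_add {a b : ℕ} {y α : Pm n} (hy : y ∈ GB n b) (hα : α ∈ MA n a b) :
    len (κ0 n) (y * α) = len (κ0 n) y + len (κ0 n) α := by
  classical
  unfold len
  set A := Finset.univ.filter (fun p : Fin n × Fin n =>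
    p.1 < p.2 ∧ κ0 n p.1 = κ0 n p.2 ∧ (y * α)⁻¹ p.2 < (y * α)⁻¹ p.1) with hA
  set B := Finset.univ.filter (fun p : Fin n × Fin n =>
    p.1 < p.2 ∧ κ0 n p.1 = κ0 n p.2 ∧ y⁻¹ p.2 < y⁻¹ p.1) with hB
  set C := Finset.univ.filter (fun p : Fin n × Fin n =>
    p.1 < p.2 ∧ κ0 n p.1 = κ0 n p.2 ∧ α⁻¹ p.2 < α⁻¹ p.1) with hC
  have hk : ∀ i j : Fin n, κ0 n i = κ0 n j := fun i j => rfl
  let f : Fin n × Fin n ↪ Fin n × Fin n :=
    ⟨fun p => (y p.1, y p.2), fun p q h => by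
      simp only [Prod.mk.injEq, EmbeddingLike.apply_eq_iff_eq] at h
      exact Prod.ext h.1 h.2⟩
  have hf : ∀ p, f p = (y p.1, y p.2) := fun p => rfl
  have hinv : ∀ i, (y * α)⁻¹ i = α⁻¹ (y⁻¹ i) := by
    intro i; rw [mul_inv_rev]; rfl
  have key : A = B ∪ C.map f := by
    ext ⟨p, q⟩
    simp only [hA, hB, hC, Finset.mem_union, Finset.mem_map, Finset.mem_filter,
      Finset.mem_univ, true_and, hf, Prod.exists, Prod.mk.injEq, hinv]
    constructor
    · rintro ⟨h1, h2, h3⟩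
      by_cases h4 : y⁻¹ q < y⁻¹ p
      · exact Or.inl ⟨h1, h2, h4⟩
      · right
        refine ⟨y⁻¹ p, y⁻¹ q, ⟨?_, hk _ _, h3⟩, by simp, by simp⟩
        refine lt_of_le_of_ne (not_lt.mp h4) ?_
        intro h5
        exact h1.ne (y⁻¹.injective h5)
    · rintro (⟨h1, h2, h3⟩ | ⟨u, v, ⟨h1, h2, h3⟩, rfl, rfl⟩)
      · refine ⟨h1, h2, no_both hy hα h3 ?_⟩
        simpa using h1
      · refine ⟨?_, hk _ _, by simpa using h3⟩
        by_contra hc
        have h4 : y v < y u := lt_of_le_of_ne (not_lt.mp hc)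
          (fun h => h1.ne (y.injective h).symm)
        exact absurd (no_both hy hα h1 h4) (not_lt.mpr h3.le)
  have hdis : Disjoint B (C.map f) := by
    rw [Finset.disjoint_left]
    rintro ⟨p, q⟩ h1 h2
    simp only [hB, hC, Finset.mem_map, Finset.mem_filter,
      Finset.mem_univ, true_and, hf, Prod.exists, Prod.mk.injEq] at h1 h2
    obtain ⟨u, v, ⟨h3, _, _⟩, rfl, rfl⟩ := h2
    have h4 := h1.2.2
    simp only [inv_ap] at h4
    exact absurd h3 (not_lt.mpr h4.le)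
  rw [key, Finset.card_union_of_disjoint hdis, Finset.card_map]

theorem GB_MA_inj {a b : ℕ} {y y' α α' : Pm n} (hy : y ∈ GB n b) (hy' : y' ∈ GB n b)
    (hα : α ∈ MA n a b) (hα' : α' ∈ MA n a b) (h : y * α = y' * α') : y = y' ∧ α = α' := by
  rw [mem_GB] at hy hy'
  rw [mem_MA, mem_GA] at hα hα'
  obtain ⟨hα1, hα2⟩ := hα
  obtain ⟨hα1', hα2'⟩ := hα'
  -- `g = y⁻¹ y' = α α'⁻¹`
  set g : Pm n := y⁻¹ * y' with hg
  have hg2 : g = α * α'⁻¹ := by
    rw [hg, eq_mul_inv_iff_mul_eq, mul_assoc, ← h, inv_mul_cancel_left]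
  have hlow : ∀ i : Fin n, (i : ℕ) < b → g i = i := by
    intro i hi
    rw [hg, Equiv.Perm.mul_apply, hy' i hi]
    exact inv_fix (hy i hi)
  have hhigh : ∀ i : Fin n, a ≤ (i : ℕ) → g i = i := by
    intro i hi
    rw [hg2, Equiv.Perm.mul_apply, inv_fix (hα1' i hi), hα1 i hi]
  have hα' : ∀ i, α'⁻¹ i = α⁻¹ (g i) := by
    intro i
    rw [hg2, Equiv.Perm.mul_apply, inv_ap]
  have hmono : StrictMono g := by
    intro i j hij
    by_cases hib : (i : ℕ) < b
    · rw [hlow i hib]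
      by_cases hjb : (j : ℕ) < b
      · rw [hlow j hjb]; exact hij
      · exact Fin.lt_def.mpr (lt_of_lt_of_le hib (ge_of_fix hlow (not_lt.mp hjb)))
    · rw [not_lt] at hib
      by_cases hja : a ≤ (j : ℕ)
      · rw [hhigh j hja]
        by_cases hia : a ≤ (i : ℕ)
        · rw [hhigh i hia]; exact hij
        · exact Fin.lt_def.mpr (lt_of_lt_of_le (lt_of_fix hhigh (not_le.mp hia)) hja)
      · rw [not_le] at hja
        have hia : (i : ℕ) < a := lt_trans (Fin.lt_def.mp hij) hja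
        have h1 := hα2' i j hib hij hja
        rw [hα', hα'] at h1
        by_contra hc
        have h2 : g j < g i := lt_of_le_of_ne (not_lt.mp hc)
          (fun h => hij.ne (g.injective h).symm)
        have h3 := hα2 (g j) (g i) (ge_of_fix hlow (hib.trans (Fin.le_def.mp hij.le))) h2
          (lt_of_fix hhigh hia)
        exact absurd h1 (not_lt.mpr h3.le)
  have hg1 : g = 1 := by
    let e : Fin n ≃o Fin n := StrictMono.orderIsoOfSurjective g hmono g.surjective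
    have he : e = OrderIso.refl (Fin n) := Subsingleton.elim _ _
    apply Equiv.ext
    intro i
    have := congrArg (fun e : Fin n ≃o Fin n => e i) he
    exact this
  constructor
  · have h1 : y⁻¹ * y' = 1 := hg1
    exact (inv_mul_eq_one.mp h1)
  · rw [hg1] at hg2
    exact (mul_inv_eq_one.mp hg2.symm)

end KLFin
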