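import Mathlib
import Pool.Agent.KLFin.BEDefs
import Pool.Agent.KLFin.CB1

/-!
# Block TF1b: parabolic decompositions in `S_n` (MP_d9d356_co, part B)
-/

open Finset

namespace KLFin

variable {n k l : ℕ}

namespace TF1b

theorem mem_GA {a : ℕ} {y : Pm n} : y ∈ GA n a ↔ ∀ i : Fin n, a ≤ (i : ℕ) → y i = i := by
  simp [GA]

theorem mem_GJ {a b : ℕ} {y : Pm n} :
    y ∈ GJ n a b ↔ ∀ i : Fin n, ((i : ℕ) < b ∨ a ≤ (i : ℕ)) → y i = i := by
  simp [GJ]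

theorem mem_MA {a b : ℕ} {y : Pm n} :
    y ∈ MA n a b ↔ y ∈ GA n a ∧ ∀ i j : Fin n, b ≤ (i : ℕ) → i < j → (j : ℕ) < a →
      y⁻¹ i < y⁻¹ j := by
  simp [MA]

theorem GJ_one {a b : ℕ} : (1 : Pm n) ∈ GJ n a b := mem_GJ.mpr fun _ _ => rfl

theorem GJ_mul {a b : ℕ} {y z : Pm n} (hy : y ∈ GJ n a b) (hz : z ∈ GJ n a b) :
    y * z ∈ GJ n a b := by
  rw [mem_GJ] at *
  intro i hi
  rw [Equiv.Perm.mul_apply, hz i hi, hy i hi]

theorem GJ_inv {a b : ℕ} {y : Pm n} (hy : y ∈ GJ n a b) : y⁻¹ ∈ GJ n a b := by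
  rw [mem_GJ] at *
  intro i hi
  rw [Equiv.Perm.inv_eq_iff_eq, hy i hi]

theorem GA_mul {a : ℕ} {y z : Pm n} (hy : y ∈ GA n a) (hz : z ∈ GA n a) :
    y * z ∈ GA n a := by
  rw [mem_GA] at *
  intro i hi
  rw [Equiv.Perm.mul_apply, hz i hi, hy i hi]

theorem GJ_GA {a b : ℕ} {y : Pm n} (hy : y ∈ GJ n a b) : y ∈ GA n a := by
  rw [mem_GJ] at hy
  rw [mem_GA]
  exact fun i hi => hy i (Or.inr hi)

/-- elements of `GJ` preserve `[b, a)` -/
theorem GJ_maps {a b : ℕ} {y : Pm n} (hy : y ∈ GJ n a b) {i : Fin n} (h1 : b ≤ (i : ℕ))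
    (h2 : (i : ℕ) < a) : b ≤ (y i : ℕ) ∧ (y i : ℕ) < a := by
  rw [mem_GJ] at hy
  by_contra hcon
  have h3 : ((y i : Fin n) : ℕ) < b ∨ a ≤ ((y i : Fin n) : ℕ) := by omega
  have h4 := hy (y i) h3
  have h5 : y i = i := y.injective h4
  rw [h5] at h3
  omega

theorem swap_GJ {a b : ℕ} {i j : Fin n} (hi : b ≤ (i : ℕ)) (hi' : (i : ℕ) < a)
    (hj : b ≤ (j : ℕ)) (hj' : (j : ℕ) < a) : Equiv.swap i j ∈ GJ n a b := by
  rw [mem_GJ]
  intro k hk
  apply Equiv.swap_apply_of_ne_of_ne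
  · rintro rfl; omega
  · rintro rfl; omega

/-- the Young datum with the only non-trivial block `[b, a)` -/
def kp (n a b : ℕ) : Fin n → ℕ := fun i => if b ≤ (i : ℕ) ∧ (i : ℕ) < a then 0 else (i : ℕ) + 1

theorem kp_inW {a b : ℕ} {y : Pm n} (hy : y ∈ GJ n a b) : InW (kp n a b) y := by
  intro i
  unfold kp
  by_cases hi : b ≤ (i : ℕ) ∧ (i : ℕ) < a
  · rw [if_pos hi, if_pos (GJ_maps hy hi.1 hi.2)]
  · have h1 : y i = i := mem_GJ.mp hy i (by omega)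
    rw [h1]

theorem kp_smp {a b : ℕ} {s : Fin n × Fin n} (hs : Smp (kp n a b) s) :
    Smp (κ0 n) s ∧ b ≤ (s.1 : ℕ) ∧ (s.2 : ℕ) < a := by
  obtain ⟨h1, h2, h3⟩ := hs
  have h1' : (s.1 : ℕ) < (s.2 : ℕ) := h1
  unfold kp at h2
  have h4 : (b ≤ (s.1 : ℕ) ∧ (s.1 : ℕ) < a) ∧ (b ≤ (s.2 : ℕ) ∧ (s.2 : ℕ) < a) := by
    split_ifs at h2 with h5 h6
    · exact ⟨h5, h6⟩
    · omega
  refine ⟨⟨h1, rfl, fun k hk1 hk2 => ?_⟩, h4.1.1, h4.2.2⟩
  exfalso
  apply h3 k hk1 hk2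
  have hk1' : (s.1 : ℕ) < (k : ℕ) := hk1
  have hk2' : (k : ℕ) < (s.2 : ℕ) := hk2
  unfold kp
  rw [if_pos h4.1, if_pos ⟨by omega, by omega⟩]

theorem up_kp {a b : ℕ} {y z : Pm n} (h : Up (kp n a b) y z) : Up (κ0 n) y z := by
  obtain ⟨i, j, h1, _, h3, h4⟩ := h
  exact ⟨i, j, h1, rfl, h3, h4⟩

/-- inversions of elements of `GJ` are inside `[b, a)` -/
theorem GJ_inversion {a b : ℕ} {y : Pm n} (hy : y ∈ GJ n a b) {p q : Fin n} (hpq : p < q)
    (h : y⁻¹ q < y⁻¹ p) : b ≤ (p : ℕ) ∧ (q : ℕ) < a := by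
  have hy' := GJ_inv hy
  have hpq' : (p : ℕ) < (q : ℕ) := hpq
  have h' : ((y⁻¹ q : Fin n) : ℕ) < ((y⁻¹ p : Fin n) : ℕ) := h
  by_contra hcon
  by_cases hp : b ≤ (p : ℕ) ∧ (p : ℕ) < a
  · have h1 := GJ_maps hy' hp.1 hp.2
    have h2 : y⁻¹ q = q := mem_GJ.mp hy' q (by omega)
    rw [h2] at h'
    omega
  · have h1 : y⁻¹ p = p := mem_GJ.mp hy' p (by omega)
    rw [h1] at h'
    by_cases hq : b ≤ (q : ℕ) ∧ (q : ℕ) < a
    · have h2 := GJ_maps hy' hq.1 hq.2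
      omega
    · have h2 : y⁻¹ q = q := mem_GJ.mp hy' q (by omega)
      rw [h2] at h'
      omega

end TF1b

open TF1b

/-- `GA = GJ · MA`, uniquely -/
theorem GA_decomp {a b : ℕ} {M : Type*} [AddCommMonoid M] (F : Pm n → M) :
    ∑ z ∈ GA n a, F z = ∑ e ∈ GJ n a b, ∑ α ∈ MA n a b, F (e * α) := by
  classical
  rw [← Finset.sum_product']
  symm
  apply Finset.sum_bij (fun (p : Pm n × Pm n) _ => p.1 * p.2)
  · rintro ⟨e, α⟩ hp
    rw [Finset.mem_product] at hp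
    exact GA_mul (GJ_GA hp.1) (mem_MA.mp hp.2).1
  · rintro ⟨e, α⟩ hp ⟨e', α'⟩ hp' heq
    rw [Finset.mem_product] at hp hp'
    simp only at heq hp hp'
    have hα := (mem_MA.mp hp.2).2
    have hα' := (mem_MA.mp hp'.2).2
    -- `f = e'⁻¹ e`, `f α = α'`
    have hf : e'⁻¹ * e ∈ GJ n a b := GJ_mul (GJ_inv hp'.1) hp.1
    have hfα : α' = (e'⁻¹ * e) * α := by
      rw [mul_assoc, heq, ← mul_assoc, inv_mul_cancel, one_mul]
    -- `g = f⁻¹` is increasing on `[b, a)`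
    have hinc : ∀ i j : Fin n, b ≤ (i : ℕ) → i < j → (j : ℕ) < a →
        (e'⁻¹ * e)⁻¹ i < (e'⁻¹ * e)⁻¹ j := by
      intro i j hi hij hj
      have hij' : (i : ℕ) < (j : ℕ) := hij
      have h1 := hα' i j hi hij hj
      rw [hfα, mul_inv_rev, Equiv.Perm.mul_apply, Equiv.Perm.mul_apply] at h1
      have h2 := GJ_maps (GJ_inv hf) hi (by omega)
      have h3 := GJ_maps (GJ_inv hf) (i := j) (by omega) hj
      rcases lt_trichotomy ((e'⁻¹ * e)⁻¹ i) ((e'⁻¹ * e)⁻¹ j) with h4 | h4 | h4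
      · exact h4
      · exfalso
        exact hij.ne ((e'⁻¹ * e)⁻¹.injective h4)
      · exfalso
        exact lt_asymm h1 (hα _ _ h3.1 h4 h2.2)
    have hf1 : e'⁻¹ * e = 1 := by
      by_contra hne
      obtain ⟨s, hs, hup⟩ := exists_descent (kp_inW hf) hne
      obtain ⟨i, j, hij, hk, hlt, hz⟩ := up_kp hup
      -- an inversion of `f`
      have hy : (e'⁻¹ * e) * sw s = Equiv.swap i j * (e'⁻¹ * e) := by
        conv_rhs => rw [hz]
        rw [← mul_assoc, Equiv.swap_mul_self, one_mul]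
      have hz' : ((e'⁻¹ * e) * sw s)⁻¹ = (e'⁻¹ * e)⁻¹ * Equiv.swap i j := by
        rw [hy, mul_inv_rev (Equiv.swap i j), Equiv.swap_inv]
      rw [hz', Equiv.Perm.mul_apply, Equiv.Perm.mul_apply, Equiv.swap_apply_left,
        Equiv.swap_apply_right] at hlt
      obtain ⟨h5, h6⟩ := GJ_inversion hf hij hlt
      exact lt_asymm hlt (hinc i j h5 hij h6)
    have he : e = e' := by
      rw [← mul_one e', ← hf1, ← mul_assoc, mul_inv_cancel, one_mul]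
    subst he
    rw [Prod.mk.injEq]
    exact ⟨rfl, mul_left_cancel heq⟩
  · intro z hz
    obtain ⟨e, he, hmin⟩ := Finset.exists_min_image (GJ n a b)
      (fun e => len (κ0 n) (e⁻¹ * z)) ⟨1, GJ_one⟩
    refine ⟨(e, e⁻¹ * z), ?_, ?_⟩
    · rw [Finset.mem_product]
      refine ⟨he, ?_⟩
      rw [mem_MA]
      refine ⟨GA_mul (GJ_GA (GJ_inv he)) hz, ?_⟩
      intro i j hi hij hj
      have hij' : (i : ℕ) < (j : ℕ) := hij
      by_contra hcon
      have hlt : (e⁻¹ * z)⁻¹ j < (e⁻¹ * z)⁻¹ i := by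
        rcases lt_trichotomy ((e⁻¹ * z)⁻¹ i) ((e⁻¹ * z)⁻¹ j) with h4 | h4 | h4
        · exact absurd h4 hcon
        · exact absurd ((e⁻¹ * z)⁻¹.injective h4) hij.ne
        · exact h4
      have hup : Up (κ0 n) (Equiv.swap i j * (e⁻¹ * z)) (e⁻¹ * z) := by
        refine ⟨i, j, hij, rfl, ?_, ?_⟩
        · rw [mul_inv_rev, Equiv.swap_inv, Equiv.Perm.mul_apply, Equiv.Perm.mul_apply,
            Equiv.swap_apply_left, Equiv.swap_apply_right]
          exact hlt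
        · rw [← mul_assoc, Equiv.swap_mul_self, one_mul]
      have h1 := hup.len_lt
      have h2 := hmin (e * Equiv.swap i j) (GJ_mul he (swap_GJ hi (by omega) (by omega) hj))
      rw [mul_inv_rev, Equiv.swap_inv, mul_assoc] at h2
      omega
    · simp only
      rw [← mul_assoc, mul_inv_cancel, one_mul]
  · rintro ⟨e, α⟩ _
    rfl

/-- the elements of `GJ` are products of simple reflections in `[b,a)`, with lengths -/
theorem GJ_induction {a b : ℕ} {p : Pm n → Prop} (h1 : p 1)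
    (hs : ∀ e ∈ GJ n a b, p e → ∀ s : Fin n × Fin n, Smp (κ0 n) s → b ≤ (s.1 : ℕ) →
      (s.2 : ℕ) < a → Up (κ0 n) e (e * sw s) → p (e * sw s)) : ∀ e ∈ GJ n a b, p e := by
  have key : ∀ m : ℕ, ∀ e ∈ GJ n a b, len (κ0 n) e = m → p e := by
    intro m
    induction m using Nat.strong_induction_on with
    | _ m ih =>
      intro e he hm
      by_cases h : e = 1
      · rw [h]; exact h1
      · obtain ⟨s, hsm, hup⟩ := exists_descent (kp_inW he) h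
        obtain ⟨hs0, hb, ha⟩ := kp_smp hsm
        have hup' := up_kp hup
        have hs12 : (s.1 : ℕ) < (s.2 : ℕ) := hs0.1
        have hmem : e * sw s ∈ GJ n a b := GJ_mul he (swap_GJ hb (by omega) (by omega) ha)
        have hee : e * sw s * sw s = e := by rw [mul_assoc, sw_mul_sw, mul_one]
        have hp := ih _ (hm ▸ hup'.len_lt) (e * sw s) hmem rfl
        have h2 := hs (e * sw s) hmem hp s hs0 hb ha (by rw [hee]; exact hup')
        rwa [hee] at h2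
  exact fun e he => key _ e he rfl

/-- the longest element `d` of `GJ`: `e ↦ d e` is a bijection of `GJ` with
`ℓ(d e) = ℓ(d) - ℓ(e)` -/
theorem GJ_longest {a b : ℕ} {d : Pm n} (hd : d ∈ GJ n a b)
    (hdec : ∀ i j : Fin n, b ≤ (i : ℕ) → i < j → (j : ℕ) < a → d j < d i) :
    ∀ e ∈ GJ n a b, d * e ∈ GJ n a b ∧ len (κ0 n) (d * e) + len (κ0 n) e = len (κ0 n) d := by
  classical
  intro e he
  have hde := GJ_mul hd he
  refine ⟨hde, ?_⟩
  set Pr : Finset (Fin n × Fin n) := Finset.univ.filter (fun p : Fin n × Fin n =>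
    p.1 < p.2 ∧ b ≤ (p.1 : ℕ) ∧ (p.2 : ℕ) < a) with hPr
  have hlen : ∀ y ∈ GJ n a b, len (κ0 n) y = (Pr.filter (fun p => y⁻¹ p.2 < y⁻¹ p.1)).card := by
    intro y hy
    unfold len
    congr 1
    ext ⟨p, q⟩
    simp only [hPr, Finset.mem_filter, Finset.mem_univ, true_and]
    constructor
    · rintro ⟨h1, _, h3⟩
      exact ⟨⟨h1, GJ_inversion hy h1 h3⟩, h3⟩
    · rintro ⟨⟨h1, _⟩, h3⟩
      exact ⟨h1, rfl, h3⟩
  have hdinv : ∀ i j : Fin n, b ≤ (i : ℕ) → i < j → (j : ℕ) < a → d⁻¹ j < d⁻¹ i := by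
    intro i j hi hij hj
    have hij' : (i : ℕ) < (j : ℕ) := hij
    have h2 := GJ_maps (GJ_inv hd) hi (by omega)
    have h3 := GJ_maps (GJ_inv hd) (i := j) (by omega) hj
    rcases lt_trichotomy (d⁻¹ j) (d⁻¹ i) with h4 | h4 | h4
    · exact h4
    · exact absurd (d⁻¹.injective h4).symm hij.ne
    · exfalso
      have h5 := hdec _ _ h2.1 h4 h3.2
      rw [CB1.apply_inv', CB1.apply_inv'] at h5
      exact lt_asymm hij h5
  have h1 : len (κ0 n) d = Pr.card := by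
    rw [hlen d hd]
    congr 1
    apply Finset.filter_true_of_mem
    rintro ⟨p, q⟩ hpq
    simp only [hPr, Finset.mem_filter, Finset.mem_univ, true_and] at hpq
    exact hdinv p q hpq.2.1 hpq.1 hpq.2.2
  rw [h1, hlen _ hde, hlen _ he, ← Finset.card_filter_add_card_filter_not (s := Pr)
    (fun p => e⁻¹ p.2 < e⁻¹ p.1), add_comm]
  congr 1
  apply Finset.card_nbij' (fun p => (d⁻¹ p.2, d⁻¹ p.1)) (fun p => (d p.2, d p.1))
  · rintro ⟨p, q⟩ hpq
    simp only [hPr, Finset.coe_filter, Finset.mem_filter, Finset.mem_univ, true_and,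
      Set.mem_ofPred_eq] at hpq ⊢
    obtain ⟨⟨h2, h3, h4⟩, h5⟩ := hpq
    have h2' : (p : ℕ) < (q : ℕ) := h2
    rw [mul_inv_rev, Equiv.Perm.mul_apply, Equiv.Perm.mul_apply] at h5
    exact ⟨⟨hdinv p q h3 h2 h4, (GJ_maps (GJ_inv hd) (i := q) (by omega) h4).1,
      (GJ_maps (GJ_inv hd) (i := p) h3 (by omega)).2⟩, not_lt.mpr h5.le⟩
  · rintro ⟨p, q⟩ hpq
    simp only [hPr, Finset.coe_filter, Finset.mem_filter, Finset.mem_univ, true_and,
      Set.mem_ofPred_eq] at hpq ⊢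
    obtain ⟨⟨h2, h3, h4⟩, h5⟩ := hpq
    have h2' : (p : ℕ) < (q : ℕ) := h2
    refine ⟨⟨hdec p q h3 h2 h4, (GJ_maps hd (i := q) (by omega) h4).1,
      (GJ_maps hd (i := p) h3 (by omega)).2⟩, ?_⟩
    rw [mul_inv_rev, Equiv.Perm.mul_apply, Equiv.Perm.mul_apply, CB1.inv_apply',
      CB1.inv_apply']
    rcases lt_trichotomy (e⁻¹ p) (e⁻¹ q) with h6 | h6 | h6
    · exact h6
    · exact absurd (e⁻¹.injective h6) h2.ne
    · exact absurd h6 h5
  · rintro ⟨p, q⟩ _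
    simp only [CB1.apply_inv']
  · rintro ⟨p, q⟩ _
    simp only [CB1.inv_apply']

end KLFin
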