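import Pool.Agent.KLFin.BIface
import Pool.Agent.KLFin.BE2
import Pool.Agent.KLFin.TF1a
import Pool.Agent.KLFin.TF1b
import Pool.Agent.KLFin.CUTC

/-!
# Part B (MP_d9d356_co), BE5: the two factor lemma and the cut formula
-/

open Finset LaurentPolynomial

namespace KLFin

namespace BE5

variable {n : ℕ}

/-- the abbreviation for the trivial datum -/
noncomputable abbrev H0 (n : ℕ) : Type := HK (κ0 n)

theorem T_add' (a b : ℤ) : (T (a + b) : Av) = T a * T b := T_add a b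

theorem smul_cancel {G : Type} [Group G] [Fintype G] [DecidableEq G] (D : HDatum G) {g : Av}
    {x y : Hk D} (h : g • x = g • y) (hg : g ≠ 0) : x = y := by
  apply (ev D).injective
  funext z
  have h1 := congrArg (fun t => ev D t z) h
  simp only [map_smul, Pi.smul_apply, smul_eq_mul] at h1
  exact mul_left_cancel₀ hg h1

theorem elH_add2 {κ : Fin n → ℕ} (d : ℕ) (f f' : Pm n → Polynomial ℤ) :
    elH κ d (fun y => f y + f' y) = elH κ d f + elH κ d f' := by
  unfold elH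
  simp only [map_add, add_smul, Finset.sum_add_distrib, smul_add]

theorem inW0 (y : Pm n) : InW (κ0 n) y := fun _ => rfl

/-- sum of the basis elements with an invariant coefficient function -/
theorem sum_mul_sw (F : Pm n → Av) {s : Fin n × Fin n} (hs : Smp (κ0 n) s)
    (hF : ∀ y, F (y * sw s) = F y) :
    (∑ y : Pm n, F y • TT (κ0 n) y) * TT (κ0 n) (sw s) =
      (T 2 : Av) • ∑ y : Pm n, F y • TT (κ0 n) y := by
  have hsW : (⟨sw s, hs.inW⟩ : Yg (κ0 n)) ∈ (YD (κ0 n)).S := ⟨s, hs, rfl⟩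
  have e1 : TT (κ0 n) (sw s) = Tb (YD (κ0 n)) ⟨sw s, hs.inW⟩ := dif_pos hs.inW
  apply (ev (YD (κ0 n))).injective
  rw [e1, ev_mul_Ts _ hsW]
  funext z
  rw [Rop_apply, map_smul, Pi.smul_apply, ev_sumTT, ev_sumTT, smul_eq_mul]
  have e2 : ((z * ⟨sw s, hs.inW⟩ : Yg (κ0 n)) : Pm n) = z.1 * sw s := rfl
  rw [e2, hF]
  split_ifs <;> ring

end BE5

open BE5

section TF

variable {n a b : ℕ}

/-- the product family -/
noncomputable def QQ (n a b : ℕ) (P₁ P₂ : Pm n → Polynomial ℕ) : Pm n → Polynomial ℕ :=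
  fun z => ∑ y ∈ GB n b, ∑ α ∈ MA n a b, if y * α = z then P₂ y * P₁ α else 0

theorem QQ_apply {P₁ P₂ : Pm n → Polynomial ℕ} {y α : Pm n} (hy : y ∈ GB n b)
    (hα : α ∈ MA n a b) : QQ n a b P₁ P₂ (y * α) = P₂ y * P₁ α := by
  unfold QQ
  rw [Finset.sum_eq_single y, Finset.sum_eq_single α]
  · rw [if_pos rfl]
  · intro α' hα' hne
    rw [if_neg]
    intro h
    exact hne (GB_MA_inj hy hy hα' hα h).2
  · intro h; exact absurd hα h
  · intro y' hy' hne
    apply Finset.sum_eq_zero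
    intro α' hα'
    rw [if_neg]
    intro h
    exact hne (GB_MA_inj hy' hy hα' hα h).1
  · intro h; exact absurd hy h

theorem QQ_ne {P₁ P₂ : Pm n → Polynomial ℕ} {z : Pm n} (h : QQ n a b P₁ P₂ z ≠ 0) :
    ∃ y ∈ GB n b, ∃ α ∈ MA n a b, y * α = z ∧ P₂ y ≠ 0 ∧ P₁ α ≠ 0 := by
  unfold QQ at h
  obtain ⟨y, hy, h1⟩ := Finset.exists_ne_zero_of_sum_ne_zero h
  obtain ⟨α, hα, h2⟩ := Finset.exists_ne_zero_of_sum_ne_zero h1
  by_cases h3 : y * α = z
  · rw [if_pos h3] at h2
    exact ⟨y, hy, α, hα, h3, left_ne_zero_of_mul h2, right_ne_zero_of_mul h2⟩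
  · rw [if_neg h3] at h2
    exact absurd rfl h2

theorem GJ_sub_GB {e : Pm n} (he : e ∈ GJ n a b) : e ∈ GB n b := by
  rw [TF1a.mem_GB]
  intro i hi
  exact TF1b.mem_GJ.mp he i (Or.inl hi)

/-- The two factor lemma. -/
theorem two_factor {w₁ w₂ α d : Pm n} {P₁ P₂ : Pm n → Polynomial ℕ}
    (hα : α ∈ MA n a b) (hd : d ∈ GJ n a b) (hw₁ : w₁ = d * α) (hw₂ : w₂ ∈ GB n b)
    (hdec : ∀ i j : Fin n, b ≤ (i : ℕ) → i < j → (j : ℕ) < a → d j < d i)
    (hdec₂ : ∀ i j : Fin n, b ≤ (i : ℕ) → i < j → (j : ℕ) < a → w₂ j < w₂ i)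
    (h₁ : KLF (κ0 n) w₁ P₁) (h₂ : KLF (κ0 n) w₂ P₂) (hs₁ : ∀ z, z ∉ GA n a → P₁ z = 0)
    (hs₂ : ∀ z, z ∉ GB n b → P₂ z = 0) {P : Pm n → Polynomial ℕ}
    (hP : KLF (κ0 n) (w₂ * α) P) : P 1 = P₂ 1 * P₁ 1 := by
  classical
  have h1GB : (1 : Pm n) ∈ GB n b := TF1a.mem_GB.mpr fun _ _ => rfl
  have h1MA : (1 : Pm n) ∈ MA n a b := by
    rw [TF1a.mem_MA]
    refine ⟨TF1a.mem_GA.mpr fun _ _ => rfl, fun i j _ hij _ => ?_⟩
    simpa using hij
  have hlen : ∀ {y β : Pm n}, y ∈ GB n b → β ∈ MA n a b →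
      len (κ0 n) (y * β) = len (κ0 n) y + len (κ0 n) β := fun hy hβ => len_mul_add hy hβ
  have hlw : len (κ0 n) (w₂ * α) = len (κ0 n) w₂ + len (κ0 n) α := hlen hw₂ hα
  have hl1 : len (κ0 n) w₁ = len (κ0 n) d + len (κ0 n) α := by
    rw [hw₁]; exact hlen (GJ_sub_GB hd) hα
  -- left invariance of `P₁`
  have hinv₁ : ∀ e ∈ GJ n a b, ∀ z, P₁ (e * z) = P₁ z := by
    apply GJ_induction
    · intro z; rw [one_mul]
    · intro e _ ih s hs hsb hsa _ z
      rw [mul_assoc, ih]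
      apply h₁.desc_left (inW0 _) hs
      refine ⟨s.1, s.2, hs.1, rfl, ?_, ?_⟩
      · have e1 : ∀ i, (sw s * w₁)⁻¹ i = w₁⁻¹ (sw s i) := by
          intro i
          rw [mul_inv_rev, Equiv.Perm.mul_apply, CB1.sw_inv]
        have e2 : sw s s.1 = s.2 := Equiv.swap_apply_left _ _
        have e3 : sw s s.2 = s.1 := Equiv.swap_apply_right _ _
        rw [e1, e1, e2, e3, hw₁, mul_inv_rev, Equiv.Perm.mul_apply, Equiv.Perm.mul_apply]
        -- `d⁻¹` is decreasing on `[b,a)`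
        have hs1 : b ≤ (s.1 : ℕ) := hsb
        have hs2 : (s.2 : ℕ) < a := hsa
        have hlt : (s.1 : ℕ) < s.2 := hs.1
        have m1 := TF1b.GJ_maps (TF1b.GJ_inv hd) hs1 (by omega)
        have m2 := TF1b.GJ_maps (TF1b.GJ_inv hd) (i := s.2) (by omega) hs2
        have hlt2 : d⁻¹ s.2 < d⁻¹ s.1 := by
          rcases lt_trichotomy (d⁻¹ s.2) (d⁻¹ s.1) with h | h | h
          · exact h
          · exact absurd ((d⁻¹).injective h) hs.1.ne'
          · exfalso
            have := hdec _ _ m1.1 h m2.2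
            rw [CB1.apply_inv', CB1.apply_inv'] at this
            exact absurd hs.1 (not_lt.mpr this.le)
        exact (TF1a.mem_MA.mp hα).2 _ _ m2.1 hlt2 m1.2
      · rw [← mul_assoc, show Equiv.swap s.1 s.2 * sw s = 1 from sw_mul_sw s, one_mul]
  have hP1α : P₁ α = 1 := by
    rw [← hinv₁ d hd α, ← hw₁]; exact h₁.one
  -- coefficients in `Av`
  let c₁ : Pm n → Av := fun z => qe ((P₁ z).map (Nat.castRingHom ℤ))
  let c₂ : Pm n → Av := fun z => qe ((P₂ z).map (Nat.castRingHom ℤ))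
  let Q : Pm n → Polynomial ℕ := QQ n a b P₁ P₂
  let cQ : Pm n → Av := fun z => qe ((Q z).map (Nat.castRingHom ℤ))
  let S₁ : H0 n := ∑ y : Pm n, c₁ y • TT (κ0 n) y
  let S₂ : H0 n := ∑ y : Pm n, c₂ y • TT (κ0 n) y
  let V : H0 n := ∑ β ∈ MA n a b, c₁ β • TT (κ0 n) β
  let E : H0 n := ∑ e ∈ GJ n a b, TT (κ0 n) e
  have hc₁0 : ∀ z, z ∉ GA n a → c₁ z = 0 := by
    intro z hz; simp only [c₁]; rw [hs₁ z hz, Polynomial.map_zero, map_zero]
  have hc₂0 : ∀ z, z ∉ GB n b → c₂ z = 0 := by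
    intro z hz; simp only [c₂]; rw [hs₂ z hz, Polynomial.map_zero, map_zero]
  have hc₁i : ∀ e ∈ GJ n a b, ∀ z, c₁ (e * z) = c₁ z := by
    intro e he z; simp only [c₁]; rw [hinv₁ e he]
  -- `S₁ = E V`
  have hS₁ : S₁ = E * V := by
    have e1 : S₁ = ∑ z ∈ GA n a, c₁ z • TT (κ0 n) z := by
      symm
      apply Finset.sum_subset (Finset.subset_univ _)
      intro z _ hz
      rw [hc₁0 z hz, zero_smul]
    rw [e1, GA_decomp (b := b), Finset.sum_mul_sum]
    apply Finset.sum_congr rfl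
    intro e he
    apply Finset.sum_congr rfl
    intro β hβ
    rw [hc₁i e he, mul_smul_comm, TT_mul _ (inW0 _) (inW0 _) (hlen (GJ_sub_GB he) hβ)]
  -- `S₂ E = g S₂`
  have hS₂e : ∀ e ∈ GJ n a b, S₂ * TT (κ0 n) e = (T (2 * (len (κ0 n) e : ℤ)) : Av) • S₂ := by
    apply GJ_induction
    · rw [TT_one, len_one, mul_one]; simp
    · intro e _ ih s hs hsb hsa hup
      have hl := len_mul_sw (inW0 e) hs hup
      have hls : len (κ0 n) (sw s) = 1 := by
        have h0 : Up (κ0 n) 1 (1 * sw s) := (up_sw_iff (inW0 1) hs).mpr hs.1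
        have := len_mul_sw (inW0 1) hs h0
        rwa [one_mul, len_one, zero_add] at this
      have e1 : TT (κ0 n) (e * sw s) = TT (κ0 n) e * TT (κ0 n) (sw s) :=
        (TT_mul _ (inW0 _) (inW0 _) (by rw [hl, hls])).symm
      rw [e1, ← mul_assoc, ih, smul_mul_assoc, sum_mul_sw c₂ hs, smul_smul, ← T_add, hl]
      · congr 2
      · intro y
        simp only [c₂]
        rw [h₂.desc (inW0 _) hs ((dn_sw_iff (inW0 _) hs).mpr (hdec₂ _ _ hsb hs.1 hsa))]
  let g : Av := ∑ e ∈ GJ n a b, T (2 * (len (κ0 n) e : ℤ))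
  have hS₂E : S₂ * E = g • S₂ := by
    simp only [E, g]
    rw [Finset.mul_sum, Finset.sum_smul]
    exact Finset.sum_congr rfl hS₂e
  -- `S₂ V = Σ Q`
  have hS₂V : S₂ * V = ∑ z : Pm n, cQ z • TT (κ0 n) z := by
    have e1 : S₂ = ∑ y ∈ GB n b, c₂ y • TT (κ0 n) y := by
      symm
      apply Finset.sum_subset (Finset.subset_univ _)
      intro z _ hz
      rw [hc₂0 z hz, zero_smul]
    have e2 : ∀ z, cQ z = ∑ y ∈ GB n b, ∑ β ∈ MA n a b, if y * β = z then c₂ y * c₁ β else 0 := by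
      intro z
      simp only [cQ, Q, QQ, c₁, c₂]
      rw [Polynomial.map_sum, map_sum]
      apply Finset.sum_congr rfl
      intro y _
      rw [Polynomial.map_sum, map_sum]
      apply Finset.sum_congr rfl
      intro β _
      split_ifs
      · rw [Polynomial.map_mul, map_mul]
      · rw [Polynomial.map_zero, map_zero]
    rw [e1, Finset.sum_mul_sum]
    simp only [e2, Finset.sum_smul]
    symm
    rw [Finset.sum_comm]
    apply Finset.sum_congr rfl
    intro y hy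
    rw [Finset.sum_comm]
    apply Finset.sum_congr rfl
    intro β hβ
    rw [Finset.sum_eq_single (y * β)]
    · rw [if_pos rfl, smul_mul_smul_comm, TT_mul _ (inW0 _) (inW0 _) (hlen hy hβ)]
    · intro z _ hz
      rw [if_neg hz.symm, zero_smul]
    · intro h; exact absurd (Finset.mem_univ _) h
  -- bar invariance
  have hb₁ : bar (YD (κ0 n)) ((T (-(len (κ0 n) w₁ : ℤ)) : Av) • S₁) =
      (T (-(len (κ0 n) w₁ : ℤ)) : Av) • S₁ := SD_BI h₁.sd
  have hb₂ : bar (YD (κ0 n)) ((T (-(len (κ0 n) w₂ : ℤ)) : Av) • S₂) =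
      (T (-(len (κ0 n) w₂ : ℤ)) : Av) • S₂ := SD_BI h₂.sd
  let Z : H0 n := (T (-(len (κ0 n) (w₂ * α) : ℤ)) : Av) • (S₂ * V)
  let g' : Av := ∑ e ∈ GJ n a b, T (2 * (len (κ0 n) e : ℤ) - len (κ0 n) d)
  have hg' : g' = T (-(len (κ0 n) d : ℤ)) * g := by
    simp only [g', g]
    rw [Finset.mul_sum]
    apply Finset.sum_congr rfl
    intro e _
    rw [← T_add]
    congr 1
    ring
  have hprod : ((T (-(len (κ0 n) w₂ : ℤ)) : Av) • S₂) * ((T (-(len (κ0 n) w₁ : ℤ)) : Av) • S₁) =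
      g' • Z := by
    simp only [Z]
    rw [smul_mul_smul_comm, hS₁, ← mul_assoc, hS₂E, smul_mul_assoc, smul_smul, smul_smul, hg',
      hlw, hl1]
    congr 1
    rw [← T_add, mul_right_comm, ← T_add]
    congr 2
    push_cast
    ring
  have hinvg : invert g' = g' := by
    simp only [g']
    rw [map_sum]
    have e1 : ∀ e ∈ GJ n a b, (invert (T (2 * (len (κ0 n) e : ℤ) - len (κ0 n) d)) : Av) =
        T (2 * (len (κ0 n) (d * e) : ℤ) - len (κ0 n) d) := by
      intro e he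
      rw [invert_T]
      congr 1
      have := (GJ_longest hd hdec e he).2
      have h3 : (len (κ0 n) (d * e) : ℤ) + len (κ0 n) e = len (κ0 n) d := by exact_mod_cast this
      linarith
    rw [Finset.sum_congr rfl e1]
    apply Finset.sum_bij (fun e _ => d * e)
    · intro e he; exact (GJ_longest hd hdec e he).1
    · intro e _ e' _ h; exact mul_left_cancel h
    · intro e he
      exact ⟨d⁻¹ * e, TF1b.GJ_mul (TF1b.GJ_inv hd) he, by rw [mul_inv_cancel_left]⟩
    · intro e _; rfl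
  have hg'0 : g' ≠ 0 := by
    intro h0
    have h1 := congrArg (LaurentPolynomial.eval₂ (RingHom.id ℤ) (1 : ℤˣ)) h0
    simp only [g', map_sum, map_zero] at h1
    have h2 : ∀ e ∈ GJ n a b, LaurentPolynomial.eval₂ (RingHom.id ℤ) (1 : ℤˣ)
        (T (2 * (len (κ0 n) e : ℤ) - len (κ0 n) d) : Av) = 1 := by
      intro e _
      simp
    rw [Finset.sum_congr rfl h2, Finset.sum_const, nsmul_eq_mul, mul_one] at h1
    have h3 : (GJ n a b).card = 0 := by exact_mod_cast h1
    rw [Finset.card_eq_zero] at h3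
    exact absurd (h3 ▸ hd) (Finset.notMem_empty _)
  have hZ : bar (YD (κ0 n)) Z = Z := by
    have h1 : bar (YD (κ0 n)) (g' • Z) = g' • Z := by
      rw [← hprod, map_mul, hb₁, hb₂]
    rw [bar_smul, hinvg] at h1
    exact smul_cancel _ h1 hg'0
  have hBIQ : BI (κ0 n) (len (κ0 n) (w₂ * α)) (fun z => (Q z).map (Nat.castRingHom ℤ)) := by
    have e1 : elH (κ0 n) (len (κ0 n) (w₂ * α)) (fun z => (Q z).map (Nat.castRingHom ℤ)) = Z := by
      simp only [Z, elH, hS₂V, cQ]
    unfold BI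
    rw [e1, hZ]
  -- degree bounds
  have hQone : Q (w₂ * α) = 1 := by
    simp only [Q]
    rw [QQ_apply hw₂ hα, h₂.one, hP1α, mul_one]
  have hdegα : ∀ β ∈ MA n a b, β ≠ α → P₁ β ≠ 0 →
      len (κ0 n) β + 2 * (P₁ β).natDegree + 1 ≤ len (κ0 n) α := by
    intro β hβ hne h0
    have h3 := h₁.deg (d * β) (by
      rw [hw₁]; intro h; exact hne (mul_left_cancel h)) (by rw [hinv₁ d hd]; exact h0)
    rw [hinv₁ d hd, hlen (GJ_sub_GB hd) hβ, hl1] at h3
    omega
  have hQdeg : ∀ z, z ≠ w₂ * α → Q z ≠ 0 →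
      len (κ0 n) z + 2 * (Q z).natDegree + 1 ≤ len (κ0 n) (w₂ * α) := by
    intro z hz h0
    obtain ⟨y, hy, β, hβ, rfl, hPy, hPβ⟩ := QQ_ne h0
    have e1 : Q (y * β) = P₂ y * P₁ β := QQ_apply hy hβ
    rw [e1, Polynomial.natDegree_mul hPy hPβ, hlen hy hβ, hlw]
    by_cases hyw : y = w₂
    · subst hyw
      have hβα : β ≠ α := fun h => hz (by rw [h])
      have := hdegα β hβ hβα hPβ
      rw [h₂.one, Polynomial.natDegree_one]
      omega
    · have h3 := h₂.deg y hyw hPy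
      by_cases hβα : β = α
      · rw [hβα, hP1α, Polynomial.natDegree_one]
        omega
      · have := hdegα β hβ hβα hPβ
        omega
  -- uniqueness
  have hdiff := BI_unique (κ := κ0 n) (d := len (κ0 n) (w₂ * α))
    (f := fun z => (P z).map (Nat.castRingHom ℤ) - (Q z).map (Nat.castRingHom ℤ)) (by
      have e1 : elH (κ0 n) (len (κ0 n) (w₂ * α)) (fun z => (P z).map (Nat.castRingHom ℤ)) =
          elH (κ0 n) (len (κ0 n) (w₂ * α)) (fun z => (P z).map (Nat.castRingHom ℤ) -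
            (Q z).map (Nat.castRingHom ℤ)) +
          elH (κ0 n) (len (κ0 n) (w₂ * α)) (fun z => (Q z).map (Nat.castRingHom ℤ)) := by
        rw [← elH_add2]
        simp only [sub_add_cancel]
      have h3 : BI (κ0 n) (len (κ0 n) (w₂ * α)) (fun z => (P z).map (Nat.castRingHom ℤ)) :=
        SD_BI hP.sd
      unfold BI at h3 hBIQ ⊢
      rw [e1, map_add, hBIQ] at h3
      exact add_right_cancel h3) (by
      intro z _ h0
      have hz : z ≠ w₂ * α := by
        rintro rfl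
        apply h0
        simp only [hP.one, hQone, sub_self]
      have hn : ∀ p : Polynomial ℕ, (p.map (Nat.castRingHom ℤ)).natDegree = p.natDegree := fun p =>
        Polynomial.natDegree_map_eq_of_injective Nat.cast_injective p
      have hsub := Polynomial.natDegree_sub_le ((P z).map (Nat.castRingHom ℤ))
        ((Q z).map (Nat.castRingHom ℤ))
      rw [hn, hn] at hsub
      by_cases hPz : P z = 0
      · by_cases hQz : Q z = 0
        · exfalso; apply h0; simp only [hPz, hQz, sub_self]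
        · have := hQdeg z hz hQz
          rw [hPz, Polynomial.natDegree_zero, max_eq_right (Nat.zero_le _)] at hsub
          simp only [hPz]
          omega
      · have h4 := hP.deg z hz hPz
        by_cases hQz : Q z = 0
        · rw [hQz, Polynomial.natDegree_zero, max_eq_left (Nat.zero_le _)] at hsub
          simp only [hQz]
          omega
        · have := hQdeg z hz hQz
          rcases le_max_iff.mp hsub with h | h <;> omega)
  have hfin := hdiff 1 (inW0 1)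
  have h5 : (P 1).map (Nat.castRingHom ℤ) = (Q 1).map (Nat.castRingHom ℤ) := sub_eq_zero.mp hfin
  have h6 : P 1 = Q 1 := Polynomial.map_injective _ Nat.cast_injective h5
  rw [h6]
  have h7 : Q (1 * 1) = P₂ 1 * P₁ 1 := QQ_apply h1GB h1MA
  rwa [mul_one] at h7

end TF

end KLFin
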