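import Pool.Agent.KLFin.BE4
import Pool.Agent.KLFin.BE5

/-!
# Part B (MP_d9d356_co), BE6: the cut formula and the structure `GlobalN`
-/

open Finset

namespace KLFin

theorem NN_cut {n k l : ℕ} (w : Pm n) (v : Pm k) (u : Pm l) (a b : ℕ)
    (h1 : ∀ i : Fin n, a ≤ (i : ℕ) → b ≤ (w i : ℕ))
    (h2 : Dec w (univ.filter (fun i => (i : ℕ) < a ∧ b ≤ (w i : ℕ))))
    (h3 : Rel w (univ.filter (fun i => (i : ℕ) < a)) v)
    (h4 : Rel w (univ.filter (fun i => b ≤ (w i : ℕ))) u) : NN w = NN v * NN u := by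
  obtain ⟨e₁, e₂, α, d, he₁, he₂, -, hw₂, hs₁, hs₂, hα, hd, hw, hw₁, hdec, hdec₂⟩ :=
    cut_factor w v u a b h1 h2 h3 h4
  have ok₁ : EmbOK (κ0 n) e₁ := by
    refine ⟨fun _ _ => rfl, fun i j m _ hm _ => ?_⟩
    have h5 : (m : ℕ) < (e₁ j : Fin n) := hm
    rw [he₁] at h5
    exact ⟨⟨m, h5.trans j.isLt⟩, Fin.ext (he₁ _)⟩
  have ok₂ : EmbOK (κ0 n) e₂ := by
    refine ⟨fun _ _ => rfl, fun i j m hm _ _ => ?_⟩
    have h5 : ((e₂ i : Fin n) : ℕ) < m := hm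
    have h6 := he₂ i
    have h7 := m.isLt
    refine ⟨⟨(m : ℕ) + l - n, by omega⟩, Fin.ext ?_⟩
    have h8 := he₂ ⟨(m : ℕ) + l - n, by omega⟩
    simp only at h8
    omega
  have hP := PP_spec w
  have hP' : KLF (κ0 n) (vx e₂ u * α) (PP w) := by rw [← hw]; exact hP
  have key := two_factor hα hd hw₁ hw₂ hdec hdec₂ (KLF_push ok₁ (PP_spec v))
    (KLF_push ok₂ (PP_spec u))
    (fun z hz => push_not e₁ _ (fun y hy => hz (hy ▸ hs₁ y)))
    (fun z hz => push_not e₂ _ (fun y hy => hz (hy ▸ hs₂ y))) hP'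
  have e1 : push e₁ (PP v) 1 = PP v 1 := by
    have := push_apply e₁ (PP v) 1
    rwa [vx_one] at this
  have e2 : push e₂ (PP u) 1 = PP u 1 := by
    have := push_apply e₂ (PP u) 1
    rwa [vx_one] at this
  unfold NN
  rw [key, e1, e2, Polynomial.eval_mul, mul_comm]

theorem NN_inv {n : ℕ} (w : Pm n) : NN w⁻¹ = NN w := by
  have := KLF.inv_eq (κ0_inW w) (PP_spec w) (PP_spec w⁻¹) 1
  unfold NN
  rw [← this, inv_one]

/-- the numbers `N(w) = P_{1,w}(1)` have all the properties used in Part A -/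
theorem globalN : GlobalN (fun n w => NN (n := n) w) where
  one_le _ w := NN_one_le w
  mul _ _ _ w v u S T hd hST hv hu := NN_mul w v u S T hd hST hv hu
  cut _ _ _ w v u a b h1 h2 h3 h4 := NN_cut w v u a b h1 h2 h3 h4
  inv _ w := NN_inv w
  bip k w h1 h2 h3 := NN_bip k w h1 h2 h3
  fan k w h1 h2 h3 := NN_fan k w h1 h2 h3

end KLFin
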