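import Mathlib
import Pool.Agent.KLFin.CDefs3
import Pool.Agent.KLFin.LA1

/-!
# Part C, stage 2, CT1 (first half): continuity in `ζ` (MP_d9d356_co)
-/

open MvPolynomial

namespace KLFin

variable {n : ℕ} {κ : Fin n → ℕ} {s : Fin n × Fin n}

/-- powers of an affine family of operators depend continuously on the parameter -/
theorem continuous_pow_affine {V : Type*} [AddCommGroup V] [Module ℝ V] (A B : V →ₗ[ℝ] V)
    (k : ℕ) (v : V) (g : V →ₗ[ℝ] ℝ) : Continuous fun t : ℝ => g (((A + t • B) ^ k) v) := by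
  induction k generalizing g with
  | zero => simpa using continuous_const
  | succ k ih =>
    have h1 : (fun t : ℝ => g (((A + t • B) ^ (k + 1)) v)) =
        fun t : ℝ => (g.comp A) (((A + t • B) ^ k) v) + t * (g.comp B) (((A + t • B) ^ k) v) := by
      funext t
      rw [pow_succ', Module.End.mul_apply, LinearMap.add_apply, LinearMap.smul_apply, map_add,
        map_smul, smul_eq_mul]
      rfl
    rw [h1]
    exact (ih _).add (continuous_id.mul (ih _))

/-- Hodge-Riemann is preserved in the family `A + ζ T`, `ζ ≥ 0`, if hard Lefschetz holds -/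
theorem HR_of_HL_family {P : Obj n} [FiniteDimensional ℝ P.Qt] {d : ℕ}
    (F : P.M →ₗ[ℝ] P.M →ₗ[ℝ] Rg n) (A T : P.M →ₗ[ℝ] P.M)
    (hq : ∀ ζ : ℝ, ∃ Fq Lq, IsQuot P F (A + ζ • T) Fq Lq ∧ LefSp P.Qi d Lq Fq ∧
      (HRop P d F (A + ζ • T) ↔ HRie P.Qi d Lq Fq) ∧ (HLop P d (A + ζ • T) ↔ HLef P.Qi d Lq))
    (hHL : ∀ ζ : ℝ, 0 ≤ ζ → HLop P d (A + ζ • T))
    (h0 : ∃ ζ : ℝ, 0 ≤ ζ ∧ HRop P d F (A + ζ • T)) :
    ∀ ζ : ℝ, 0 ≤ ζ → HRop P d F (A + ζ • T) := by
  choose Fq Lq hQ hS hR hL using hq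
  have hsurj : Function.Surjective (P.MRp.restrictScalars ℝ).mkQ := Submodule.mkQ_surjective _
  have hF : ∀ ζ, Fq ζ = Fq 0 := by
    intro ζ
    apply LinearMap.ext
    intro u
    apply LinearMap.ext
    intro v
    obtain ⟨a, rfl⟩ := hsurj u
    obtain ⟨b, rfl⟩ := hsurj v
    rw [(hQ ζ).1, (hQ 0).1]
  have hLq : ∀ ζ, Lq ζ = Lq 0 + ζ • (Lq 1 - Lq 0) := by
    intro ζ
    apply LinearMap.ext
    intro u
    obtain ⟨a, rfl⟩ := hsurj u
    rw [LinearMap.add_apply, LinearMap.smul_apply, LinearMap.sub_apply, (hQ ζ).2, (hQ 0).2,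
      (hQ 1).2, ← map_sub, ← map_smul, ← map_add]
    congr 1
    simp only [LinearMap.add_apply, LinearMap.smul_apply, zero_smul, add_zero, one_smul]
    rw [add_sub_cancel_left]
  obtain ⟨t₀, ht₀, hHR⟩ := h0
  have key := HRie_of_HLef (Vi := P.Qi) (d := d) (Set.Ici (0 : ℝ)) isPreconnected_Ici Lq Fq
    (fun t _ => hS t) (fun t ht => (hL t).mp (hHL t ht)) (by
      intro i _ u _ v _
      apply Continuous.continuousOn
      have h1 : (fun t : ℝ => Fq t u ((Lq t ^ (d - 2 * i)) v)) =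
          fun t : ℝ => Fq 0 u (((Lq 0 + t • (Lq 1 - Lq 0)) ^ (d - 2 * i)) v) := by
        funext t
        rw [hF t, hLq t]
      rw [h1]
      exact continuous_pow_affine _ _ _ _ _) t₀ ht₀ ((hR t₀).mp hHR)
  intro ζ hζ
  exact (hR ζ).mpr (key ζ hζ)

end KLFin
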