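import Mathlib
import Pool.Agent.KLFin.CDefs3
import Pool.Agent.KLFin.CE1

/-! # Part C, block QT1 (MP_d9d356_co), general part: the quotient by `R_+`  (helper72)

`RBasis O` is the conclusion of `Nice.right_basis`. -/

open MvPolynomial

namespace KLFin

variable {n : ℕ} {κ : Fin n → ℕ}

/-- `O` is free as a right module, with a homogeneous basis -/
def RBasis (O : Obj n) : Prop :=
  ∃ (K : ℕ) (u : Fin K → O.M) (e : Fin K → ℕ), (∀ k, u k ∈ O.dg (e k)) ∧
    (∀ m : O.M, ∃ f : Fin K → Rg n, m = ∑ k, O.rmul (f k) (u k)) ∧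
    (∀ f : Fin K → Rg n, ∑ k, O.rmul (f k) (u k) = 0 → ∀ k, f k = 0)

theorem dg_zero_MRp {O : Obj n} {m : O.M} (hm : m ∈ O.dg 0) (h : m ∈ O.MRp) : m = 0 := by
  have key : ∀ i, constantCoeff (m.1 i) = 0 := by
    unfold Obj.MRp at h
    refine Submodule.iSup_induction (fun j : Fin n => LinearMap.range (O.rmul (X j)))
      (motive := fun m : O.M => ∀ i, constantCoeff (m.1 i) = 0) h ?_ ?_ ?_
    · rintro j _ ⟨a, rfl⟩ i
      simp
    · intro i
      simp
    · intro a b ha hb i
      simp [ha i, hb i]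
  ext1
  funext i
  have h1 := hm i
  have h2 : m.1 i = C (constantCoeff (m.1 i)) := by
    have := homogeneousComponent_of_mem (m := 0) (n := 0)
      ((mem_homogeneousSubmodule 0 (m.1 i)).2 h1)
    rw [if_pos rfl, homogeneousComponent_zero] at this
    rw [constantCoeff_eq]
    exact this.symm
  rw [h2, key i]
  simp

/-- coordinates with respect to a right basis are right linear functionals, hence given by the
form -/
theorem qt1_dual {O : Obj n} {d : ℕ} (Fm : Frm O d) {K : ℕ} {u : Fin K → O.M}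
    (h1 : ∀ m : O.M, ∃ f : Fin K → Rg n, m = ∑ k, O.rmul (f k) (u k))
    (h2 : ∀ f : Fin K → Rg n, ∑ k, O.rmul (f k) (u k) = 0 → ∀ k, f k = 0) :
    ∃ b : Fin K → O.M, ∀ m : O.M, m = ∑ k, O.rmul (Fm.F m (b k)) (u k) := by
  classical
  choose c hc using h1
  have huniq : ∀ (m : O.M) (f : Fin K → Rg n), m = ∑ k, O.rmul (f k) (u k) → c m = f := by
    intro m f hf
    have h3 : ∑ k, O.rmul ((c m - f) k) (u k) = 0 := by
      have h4 : ∀ k, O.rmul ((c m - f) k) (u k) =
          O.rmul (c m k) (u k) - O.rmul (f k) (u k) := by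
        intro k
        have := O.rmul_add ((c m - f) k) (f k) (u k)
        simp only [Pi.sub_apply, sub_add_cancel] at this
        simp only [Pi.sub_apply]
        rw [this]
        simp
      rw [Finset.sum_congr rfl fun k _ => h4 k, Finset.sum_sub_distrib, ← hc m, ← hf, sub_self]
    funext k
    have := h2 _ h3 k
    simpa [sub_eq_zero] using this
  have hadd : ∀ a b : O.M, c (a + b) = c a + c b := by
    intro a b
    apply huniq
    conv_lhs => rw [hc a, hc b]
    rw [← Finset.sum_add_distrib]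
    exact Finset.sum_congr rfl fun k _ => (O.rmul_add _ _ _).symm
  have hrm : ∀ (f : Rg n) (a : O.M), c (O.rmul f a) = fun k => f * c a k := by
    intro f a
    apply huniq
    conv_lhs => rw [hc a]
    rw [map_sum]
    exact Finset.sum_congr rfl fun k _ => (O.rmul_mul _ _ _).symm
  have hsm : ∀ (r : ℝ) (a : O.M), r • a = O.rmul (C r) a := by
    intro r a
    ext1
    funext i
    simp [MvPolynomial.smul_eq_C_mul]
  have hsmul : ∀ (r : ℝ) (a : O.M) (k : Fin K), c (r • a) k = r • c a k := by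
    intro r a k
    rw [hsm, hrm, MvPolynomial.smul_eq_C_mul]
  have hex : ∀ k, ∃ b, ∀ a, c a k = Fm.F a b := by
    intro k
    obtain ⟨b, hb⟩ := Fm.perfect
      { toFun := fun a => c a k
        map_add' := fun a b => by rw [hadd]; rfl
        map_smul' := fun r a => by rw [hsmul]; rfl }
      (fun f a => by
        show c (O.rmul f a) k = f * c a k
        rw [hrm])
    exact ⟨b, fun a => hb a⟩
  choose b hb using hex
  refine ⟨b, fun m => ?_⟩
  conv_lhs => rw [hc m]
  exact Finset.sum_congr rfl fun k _ => by rw [hb]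

theorem qt1_mem {O : Obj n} (hO : RBasis O) {d : ℕ} (Fm : Frm O d) {m : O.M}
    (h : ∀ b, constantCoeff (Fm.F m b) = 0) : m ∈ O.MRp := by
  obtain ⟨K, u, e, _, h1, h2⟩ := hO
  obtain ⟨b, hb⟩ := qt1_dual Fm h1 h2
  rw [hb m]
  exact Submodule.sum_mem _ fun k _ => mem_MRp_of_rmul (h (b k)) (u k)

/-- the constant coefficient of a homogeneous polynomial of positive degree -/
theorem qt1_cc {f : Rg n} {k : ℕ} (hf : f.IsHomogeneous k) (hk : 0 < k) :
    constantCoeff f = 0 := by
  rw [constantCoeff_eq]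
  by_contra hne
  have := hf hne
  simp at this
  omega

theorem qt1_nondeg {O : Obj n} (hO : RBasis O) {d : ℕ} (Fm : Frm O d) {i : ℕ}
    {m : O.M} (hm : m ∈ O.dg i)
    (h : ∀ j, i + j = d → ∀ m' ∈ O.dg j, constantCoeff (Fm.F m m') = 0) : m ∈ O.MRp := by
  apply qt1_mem hO Fm
  intro b
  obtain ⟨c, hc1, _, _, hc4, _⟩ := exists_comp O
  obtain ⟨N, hN⟩ := hc4 b
  rw [hN, map_sum, map_sum]
  apply Finset.sum_eq_zero
  intro j _
  rcases lt_trichotomy (i + j) d with hlt | heq | hgt
  · rw [Fm.deg0 i j m hm _ (hc1 j b) hlt, map_zero]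
  · exact h j heq _ (hc1 j b)
  · obtain ⟨k, hk⟩ : ∃ k, i + j = k + d := ⟨i + j - d, by omega⟩
    exact qt1_cc (Fm.deg i j k m hm _ (hc1 j b) hk) (by omega)

theorem qt1_finite {O : Obj n} (hO : RBasis O) : FiniteDimensional ℝ O.Qt := by
  obtain ⟨K, u, e, _, h1, h2⟩ := hO
  let φ : (Fin K → ℝ) →ₗ[ℝ] O.Qt :=
    ∑ k, (LinearMap.proj k).smulRight ((O.MRp.restrictScalars ℝ).mkQ (u k))
  have hφ : Function.Surjective φ := by
    intro q
    obtain ⟨m, rfl⟩ := Submodule.mkQ_surjective _ q
    obtain ⟨f, hf⟩ := h1 m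
    refine ⟨fun k => constantCoeff (f k), ?_⟩
    have h3 : φ (fun k => constantCoeff (f k)) =
        (O.MRp.restrictScalars ℝ).mkQ (∑ k, constantCoeff (f k) • u k) := by
      simp only [φ, LinearMap.sum_apply, LinearMap.smulRight_apply, LinearMap.proj_apply, map_sum,
        map_smul]
    rw [h3, Submodule.mkQ_apply, Submodule.mkQ_apply, Submodule.Quotient.eq]
    rw [Submodule.restrictScalars_mem]
    rw [hf, ← Finset.sum_sub_distrib]
    refine Submodule.sum_mem _ fun k _ => ?_
    have h4 : constantCoeff (f k) • u k - O.rmul (f k) (u k) =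
        O.rmul (C (constantCoeff (f k)) - f k) (u k) := by
      ext1
      funext i
      simp [MvPolynomial.smul_eq_C_mul, sub_mul]
    rw [h4]
    exact mem_MRp_of_rmul (by simp) _
  exact Module.Finite.of_surjective φ hφ

end KLFin
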