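import Mathlib
import Pool.Agent.KLFin.CB2
import Pool.Agent.KLFin.DI2

/-!
# Part C, block RD1: right bases adapted to the order (MP_d9d356_co)
-/

open MvPolynomial

namespace KLFin

variable {n : ℕ} {κ : Fin n → ℕ}

/-- `u` is a homogeneous right basis of the sections supported in `Ω` -/
structure RBs (O : Obj n) (Ω : Set (Pm n)) {ι : Type} [Fintype ι] (u : ι → O.M) (e : ι → ℕ) :
    Prop where
  hdg : ∀ k, u k ∈ O.dg (e k)
  hsec : ∀ k, ∀ i, O.π i ∉ Ω → (u k).1 i = 0
  span : ∀ m : O.M, (∀ i, O.π i ∉ Ω → m.1 i = 0) → ∃ f : ι → Rg n, m = ∑ k, O.rmul (f k) (u k)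
  indep : ∀ f : ι → Rg n, ∑ k, O.rmul (f k) (u k) = 0 → ∀ k, f k = 0

theorem RBs_empty (O : Obj n) (u : Empty → O.M) (e : Empty → ℕ) : RBs O ∅ u e where
  hdg k := k.elim
  hsec k := k.elim
  span m hm := by
    refine ⟨fun k => k.elim, ?_⟩
    simp only [Finset.univ_eq_empty, Finset.sum_empty]
    ext1; funext i
    exact hm i (by simp)
  indep f _ k := k.elim

/-- homogeneous components of sections -/
theorem rd_comp_mem_sec (O : Obj n) {Ω : Set (Pm n)} {m : O.I → Rg n} (hm : m ∈ O.sec Ω) (d : ℕ) :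
    (fun i => homogeneousComponent d (m i)) ∈ O.sec Ω :=
  ⟨O.graded m hm.1 d, fun i hi => by simp only [hm.2 i hi, map_zero]⟩

theorem rd_sum_val (O : Obj n) {ι : Type} (s : Finset ι) (g : ι → O.M) (i : O.I) :
    (∑ k ∈ s, g k).1 i = ∑ k ∈ s, (g k).1 i := by
  rw [AddSubmonoidClass.coe_finsetSum, Finset.sum_apply]

theorem rd_act_inj (w : Pm n) {f : Rg n} (h : act w f = 0) : f = 0 := by
  have := congrArg (act w⁻¹) h
  rwa [← act_mul, inv_mul_cancel, act_one, map_zero] at this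

theorem RBs.step {O : Obj n} (h : Nice κ O) {Ω : Set (Pm n)} {y : Pm n} (hy : y ∉ Ω)
    (hΩ : Low (Up κ) Ω) (hΩy : Low (Up κ) (insert y Ω)) {ι : Type} [Fintype ι] {u : ι → O.M}
    {e : ι → ℕ} (hu : RBs O Ω u e) :
    ∃ (k : ℕ) (u' : Fin k → O.M) (e' : Fin k → ℕ),
      RBs O (insert y Ω) (Sum.elim u u') (Sum.elim e e') := by
  classical
  obtain ⟨p, hp⟩ := h.lo y
  have hD := Dsub_indep (κ := κ) (Or.inl rfl) O h.inW hp hy hΩ hΩy
  obtain ⟨k, b, d, hbh, hbi, hbs, -⟩ := hp
  -- homogeneous lifts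
  have hlift : ∀ j, ∃ m : O.M, m ∈ O.dg (d j) ∧ (∀ i, O.π i ∉ insert y Ω → m.1 i = 0) ∧
      ∀ i, O.π i = y → m.1 i = b j i := by
    intro j
    have hbj : b j ∈ O.Dsub (Up κ) y := by
      rw [← hbs]; exact Submodule.subset_span ⟨j, rfl⟩
    rw [← hD] at hbj
    obtain ⟨m, hm, hmb⟩ := hbj
    have hc := rd_comp_mem_sec O hm (d j)
    refine ⟨⟨_, hc.1⟩, ?_, hc.2, ?_⟩
    · intro i
      exact homogeneousComponent_isHomogeneous _ _
    · intro i hi
      have := congrFun hmb i
      simp only [Obj.res, LinearMap.coe_mk, AddHom.coe_mk, if_pos hi] at this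
      simp only [this]
      rw [homogeneousComponent_of_mem (hbh j i), if_pos rfl]
  -- values of `b` vanish away from `y`
  have hb0 : ∀ j i, O.π i ≠ y → b j i = 0 := by
    intro j i hi
    have hbj : b j ∈ O.Dsub (Up κ) y := by
      rw [← hbs]; exact Submodule.subset_span ⟨j, rfl⟩
    obtain ⟨m, hm, hmb⟩ := hbj
    rw [← hmb]
    simp [Obj.res, hi]
  choose v hv1 hv2 hv3 using hlift
  refine ⟨k, v, d, ?_⟩
  refine ⟨?_, ?_, ?_, ?_⟩
  · rintro (i | j)
    · exact hu.hdg i
    · exact hv1 j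
  · rintro (i | j) l hl
    · exact hu.hsec i l (fun hl' => hl (Set.mem_insert_of_mem _ hl'))
    · exact hv2 j l hl
  · intro m hm
    have hm' : Obj.res O.π y m.1 ∈ Submodule.span (Rg n) (Set.range b) := by
      rw [hbs, ← hD]
      exact ⟨m.1, ⟨m.2, hm⟩, rfl⟩
    obtain ⟨c, hc⟩ := (Submodule.mem_span_range_iff_exists_fun _).1 hm'
    obtain ⟨f, hf⟩ := hu.span (m - ∑ j, O.rmul (act y⁻¹ (c j)) (v j)) (by
      intro i hi
      rw [AddSubgroupClass.coe_sub, Pi.sub_apply, rd_sum_val]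
      by_cases hiy : O.π i = y
      · have h1 := congrFun hc i
        simp only [Obj.res, LinearMap.coe_mk, AddHom.coe_mk, if_pos hiy, Finset.sum_apply,
          Pi.smul_apply, smul_eq_mul] at h1
        rw [← h1, sub_eq_zero]
        apply Finset.sum_congr rfl
        intro j _
        rw [Obj.rmul_val, hiy, ← act_mul, mul_inv_cancel, act_one, hv3 j i hiy]
      · have h2 : O.π i ∉ insert y Ω := by
          simp only [Set.mem_insert_iff, not_or]; exact ⟨hiy, hi⟩
        rw [hm i h2, zero_sub, neg_eq_zero]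
        apply Finset.sum_eq_zero
        intro j _
        rw [Obj.rmul_val, hv2 j i h2, mul_zero])
    refine ⟨Sum.elim f (fun j => act y⁻¹ (c j)), ?_⟩
    rw [Fintype.sum_sum_type]
    simp only [Sum.elim_inl, Sum.elim_inr]
    rw [← hf]; abel
  · intro f hf
    rw [Fintype.sum_sum_type] at hf
    simp only [Sum.elim_inl, Sum.elim_inr] at hf
    have h1 : ∀ j, f (Sum.inr j) = 0 := by
      have h2 : ∑ j, act y (f (Sum.inr j)) • b j = 0 := by
        funext i
        rw [Finset.sum_apply]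
        simp only [Pi.smul_apply, smul_eq_mul, Pi.zero_apply]
        by_cases hiy : O.π i = y
        · have h3 := congrArg (fun m : O.M => m.1 i) hf
          simp only [Submodule.coe_add, Pi.add_apply, rd_sum_val, ZeroMemClass.coe_zero,
            Pi.zero_apply] at h3
          rw [Finset.sum_eq_zero (s := Finset.univ)
            (f := fun k => (O.rmul (f (Sum.inl k)) (u k)).1 i), zero_add] at h3
          · rw [← h3]
            apply Finset.sum_congr rfl
            intro j _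
            rw [Obj.rmul_val, hiy, hv3 j i hiy]
          · intro k _
            rw [Obj.rmul_val, hu.hsec k i (by rw [hiy]; exact hy), mul_zero]
        · apply Finset.sum_eq_zero
          intro j _
          rw [hb0 j i hiy, mul_zero]
      intro j
      have := (Fintype.linearIndependent_iff.1 hbi) (fun j => act y (f (Sum.inr j))) h2 j
      exact rd_act_inj y this
    have h4 : ∑ k, O.rmul (f (Sum.inl k)) (u k) = 0 := by
      rw [← hf]
      symm
      rw [add_eq_left]
      apply Finset.sum_eq_zero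
      intro j _
      rw [h1 j]
      ext1; funext i; simp
    rintro (k | j)
    · exact hu.indep (fun k => f (Sum.inl k)) h4 k
    · exact h1 j

theorem RBs.reindex {O : Obj n} {Ω : Set (Pm n)} {ι ι' : Type} [Fintype ι] [Fintype ι']
    {u : ι → O.M} {e : ι → ℕ} (hu : RBs O Ω u e) (φ : ι' ≃ ι) :
    RBs O Ω (u ∘ φ) (e ∘ φ) where
  hdg k := hu.hdg _
  hsec k := hu.hsec _
  span m hm := by
    obtain ⟨f, hf⟩ := hu.span m hm
    refine ⟨f ∘ φ, ?_⟩
    rw [hf]
    exact (Equiv.sum_comp φ (fun k => O.rmul (f k) (u k))).symm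
  indep f hf k := by
    have := hu.indep (f ∘ φ.symm) (by
      rw [← hf, ← Equiv.sum_comp φ]
      simp) (φ k)
    simpa using this

/-- extension of adapted right bases -/
theorem RBs.extend {O : Obj n} (h : Nice κ O) {Ω : Set (Pm n)} (hΩ : Low (Up κ) Ω) {ι : Type}
    [Fintype ι] {u : ι → O.M} {e : ι → ℕ} (hu : RBs O Ω u e) :
    ∀ (N : ℕ) (Ω' : Set (Pm n)), Low (Up κ) Ω' → Ω ⊆ Ω' → (Ω' \ Ω).ncard = N →
    ∃ (k : ℕ) (u' : Fin k → O.M) (e' : Fin k → ℕ),
      RBs O Ω' (Sum.elim u u') (Sum.elim e e') := by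
  classical
  intro N
  induction N with
  | zero =>
    intro Ω' _ hs hN
    have hE : Ω' = Ω := by
      have : Ω' \ Ω = ∅ := (Set.ncard_eq_zero (Set.toFinite _)).1 hN
      exact Set.Subset.antisymm (Set.sdiff_eq_empty.1 this) hs
    subst hE
    refine ⟨0, Fin.elim0, Fin.elim0, ?_⟩
    have := hu.reindex (Equiv.sumEmpty ι (Fin 0))
    have e1 : u ∘ (Equiv.sumEmpty ι (Fin 0)) = Sum.elim u Fin.elim0 := by
      funext x; rcases x with x | x
      · rfl
      · exact x.elim0
    have e2 : e ∘ (Equiv.sumEmpty ι (Fin 0)) = Sum.elim e Fin.elim0 := by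
      funext x; rcases x with x | x
      · rfl
      · exact x.elim0
    rwa [e1, e2] at this
  | succ N ih =>
    intro Ω' hΩ' hs hN
    obtain ⟨ht, hht⟩ := exists_height (κ := κ) (r := Up κ) (Or.inl rfl)
    have hne : (Ω' \ Ω).Nonempty := by
      rw [← Set.ncard_pos (Set.toFinite _), hN]; omega
    obtain ⟨y, hy, hmax⟩ := Set.exists_max_image (Ω' \ Ω) ht (Set.toFinite _) hne
    have hlow : Low (Up κ) (Ω' \ {y}) := by
      intro a b hab hb
      refine ⟨hΩ' a b hab hb.1, ?_⟩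
      rintro (rfl : a = y)
      by_cases hbΩ : b ∈ Ω
      · exact hy.2 (hΩ _ _ hab hbΩ)
      · have h1 := hmax b ⟨hb.1, hbΩ⟩
        have h2 := hht _ _ hab
        omega
    have hins : insert y (Ω' \ {y}) = Ω' := Set.insert_sdiff_self_of_mem hy.1
    obtain ⟨k, u', e', hk⟩ := ih (Ω' \ {y}) hlow (by
      intro a ha
      refine ⟨hs ha, ?_⟩
      rintro (rfl : a = y)
      exact hy.2 ha) (by
      have : (Ω' \ {y}) \ Ω = (Ω' \ Ω) \ {y} := by
        ext a; simp only [Set.mem_sdiff, Set.mem_singleton_iff]; tauto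
      rw [this, Set.ncard_sdiff_singleton_of_mem hy, hN]; rfl)
    obtain ⟨l, u2, e2, hl⟩ := hk.step h (y := y) (by simp) hlow (by rw [hins]; exact hΩ')
    rw [hins] at hl
    have hφ : (ι ⊕ Fin k) ⊕ Fin l ≃ ι ⊕ Fin (k + l) :=
      (Equiv.sumAssoc ι (Fin k) (Fin l)).trans (Equiv.sumCongr (Equiv.refl ι) finSumFinEquiv)
    refine ⟨k + l, fun j => Sum.elim u' u2 (finSumFinEquiv.symm j),
      fun j => Sum.elim e' e2 (finSumFinEquiv.symm j), ?_⟩
    have := hl.reindex ((Equiv.sumCongr (Equiv.refl ι) finSumFinEquiv.symm).trans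
      (Equiv.sumAssoc ι (Fin k) (Fin l)).symm)
    convert this using 1
    · funext x
      rcases x with x | x
      · rfl
      · rcases hx : finSumFinEquiv.symm x with z | z <;>
          simp [hx]
    · funext x
      rcases x with x | x
      · rfl
      · rcases hx : finSumFinEquiv.symm x with z | z <;>
          simp [hx]

/-- a right basis whose first part is a right basis of the sections supported in the lower set
`Ω` -/
theorem Nice.adapted_basis {O : Obj n} (h : Nice κ O) {Ω : Set (Pm n)} (hΩ : Low (Up κ) Ω) :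
    ∃ (A B : ℕ) (u : Fin A ⊕ Fin B → O.M) (e : Fin A ⊕ Fin B → ℕ), (∀ k, u k ∈ O.dg (e k)) ∧
      (∀ m : O.M, ∃ f : Fin A ⊕ Fin B → Rg n, m = ∑ k, O.rmul (f k) (u k)) ∧
      (∀ f : Fin A ⊕ Fin B → Rg n, ∑ k, O.rmul (f k) (u k) = 0 → ∀ k, f k = 0) ∧
      (∀ k, ∀ i, O.π i ∉ Ω → (u (Sum.inl k)).1 i = 0) ∧
      (∀ m : O.M, (∀ i, O.π i ∉ Ω → m.1 i = 0) →
        ∃ f : Fin A → Rg n, m = ∑ k, O.rmul (f k) (u (Sum.inl k))) := by
  classical
  have h0 : Low (Up κ) (∅ : Set (Pm n)) := fun _ _ _ hz => hz.elim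
  obtain ⟨A, u1, e1, h1⟩ := (RBs_empty O (fun k => k.elim) (fun k => k.elim)).extend h h0 _ Ω hΩ
    (Set.empty_subset _) rfl
  have h1' := h1.reindex (Equiv.emptySum Empty (Fin A)).symm
  have huniv : Low (Up κ) (Set.univ : Set (Pm n)) := fun _ _ _ _ => trivial
  obtain ⟨B, u2, e2, h2⟩ := h1'.extend h hΩ _ Set.univ huniv (Set.subset_univ _) rfl
  refine ⟨A, B, _, _, h2.hdg, ?_, h2.indep, ?_, ?_⟩
  · intro m
    exact h2.span m (fun i hi => absurd trivial hi)
  · intro k i hi
    exact h1'.hsec k i hi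
  · intro m hm
    exact h1'.span m hm

/-- right basis adapted to the order: every nice object is free as a right module -/
theorem Nice.right_basis {O : Obj n} (h : Nice κ O) :
    ∃ (K : ℕ) (u : Fin K → O.M) (e : Fin K → ℕ), (∀ k, u k ∈ O.dg (e k)) ∧
      (∀ m : O.M, ∃ f : Fin K → Rg n, m = ∑ k, O.rmul (f k) (u k)) ∧
      (∀ f : Fin K → Rg n, ∑ k, O.rmul (f k) (u k) = 0 → ∀ k, f k = 0) := by
  classical
  have h0 : Low (Up κ) (∅ : Set (Pm n)) := fun _ _ _ hz => hz.elim
  have huniv : Low (Up κ) (Set.univ : Set (Pm n)) := fun _ _ _ _ => trivial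
  obtain ⟨A, u1, e1, h1⟩ := (RBs_empty O (fun k => k.elim) (fun k => k.elim)).extend h h0 _
    Set.univ huniv (Set.empty_subset _) rfl
  have h1' := h1.reindex (Equiv.emptySum Empty (Fin A)).symm
  exact ⟨A, _, _, h1'.hdg, fun m => h1'.span m (fun i hi => absurd trivial hi), h1'.indep⟩

end KLFin
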