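import Mathlib
import Pool.Agent.KLFin.QT1a
import Pool.Agent.KLFin.RD1

/-! # Part C, block QT1 (MP_d9d356_co): the quotient by `R_+`  (helper72) -/

open MvPolynomial

namespace KLFin

variable {n : ℕ} {κ : Fin n → ℕ}

theorem Nice.rbasis {O : Obj n} (hO : Nice κ O) : RBasis O := hO.right_basis

/-- elements of degree `> d` are in `O R_+` -/
theorem Frm.top {O : Obj n} (hO : Nice κ O) {d : ℕ} (Fm : Frm O d) {i : ℕ} (hi : d < i)
    {m : O.M} (hm : m ∈ O.dg i) : m ∈ O.MRp :=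
  qt1_nondeg hO.rbasis Fm hm fun j hj => absurd hj (by omega)

theorem Frm.nondeg_quot {O : Obj n} (hO : Nice κ O) {d : ℕ} (Fm : Frm O d) {i : ℕ} (hi : i ≤ d)
    {m : O.M} (hm : m ∈ O.dg i)
    (h : ∀ m' ∈ O.dg (d - i), constantCoeff (Fm.F m m') = 0) : m ∈ O.MRp :=
  qt1_nondeg hO.rbasis Fm hm fun j hj => by
    obtain rfl : j = d - i := by omega
    exact h

theorem Qt_finite {O : Obj n} (hO : Nice κ O) : FiniteDimensional ℝ O.Qt :=
  qt1_finite hO.rbasis

end KLFin
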