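import Mathlib
import Pool.Agent.KLFin.CDefs3
import Pool.Agent.KLFin.CE1
import Pool.Agent.KLFin.CD
import Pool.Agent.KLFin.QT1

/-!
# Part C, block QT2: the quotient by `R_+`, admissible operators (MP_d9d356_co)
-/

open MvPolynomial

namespace KLFin

variable {n : ℕ} {κ : Fin n → ℕ} {s : Fin n × Fin n}

/-! ### generalities -/

/-- the constant coefficient as a linear map -/
noncomputable def qt2_ccL (n : ℕ) : Rg n →ₗ[ℝ] ℝ where
  toFun := constantCoeff
  map_add' := map_add _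
  map_smul' := by
    intro r f
    rw [smul_eq_C_mul, map_mul, constantCoeff_C, RingHom.id_apply, smul_eq_mul]

@[simp] theorem qt2_ccL_apply (f : Rg n) : qt2_ccL n f = constantCoeff f := rfl

theorem qt2_cc_act (w : Pm n) (f : Rg n) :
    constantCoeff (act w f) = constantCoeff f := by
  rw [act, constantCoeff_rename]

theorem qt2_cc_rho : constantCoeff (rho n) = 0 := by
  rw [rho, map_sum]
  apply Finset.sum_eq_zero
  intro i _
  rw [map_mul, constantCoeff_X, mul_zero]

theorem qt2_rho_homog : (rho n).IsHomogeneous 1 := by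
  rw [rho]
  apply MvPolynomial.IsHomogeneous.sum
  intro i _
  have h := (isHomogeneous_C (Fin n) (-(i : ℝ))).mul (isHomogeneous_X ℝ i)
  rwa [zero_add] at h

theorem qt2_MRp_induction {O : Obj n} {p : O.M → Prop} (h0 : p 0)
    (hadd : ∀ a b, p a → p b → p (a + b)) (hr : ∀ j a, p (O.rmul (X j) a)) {m : O.M}
    (hm : m ∈ O.MRp) : p m := by
  rw [Obj.MRp] at hm
  induction hm using Submodule.iSup_induction' with
  | mem j m hm =>
      obtain ⟨a, rfl⟩ := hm
      exact hr j a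
  | zero => exact h0
  | add a b _ _ ha hb => exact hadd a b ha hb

theorem Frm.qt2_cc_MRp {O : Obj n} {d : ℕ} (Fm : Frm O d) {m : O.M} (hm : m ∈ O.MRp) (b : O.M) :
    constantCoeff (Fm.F m b) = 0 := by
  refine qt2_MRp_induction (p := fun m => constantCoeff (Fm.F m b) = 0) ?_ ?_ ?_ hm
  · rw [map_zero, LinearMap.zero_apply, map_zero]
  · intro a c ha hc
    rw [map_add, LinearMap.add_apply, map_add, ha, hc, add_zero]
  · intro j a
    rw [Fm.right, map_mul, constantCoeff_X, zero_mul]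

theorem Frm.qt2_right' {O : Obj n} {d : ℕ} (Fm : Frm O d) (f : Rg n) (a b : O.M) :
    Fm.F a (O.rmul f b) = f * Fm.F a b := by
  rw [Fm.symm, Fm.right, Fm.symm]

/-! ### the quotient -/

theorem exists_quot {O : Obj n} (hO : Nice κ O) {d : ℕ} (Fm : Frm O d)
    (L : O.M →ₗ[ℝ] O.M) (hL : AdmOp O Fm.F L) :
    ∃ Fq Lq, IsQuot O Fm.F L Fq Lq ∧ LefSp O.Qi d Lq Fq ∧
      (HRop O d Fm.F L ↔ HRie O.Qi d Lq Fq) ∧ (HLop O d L ↔ HLef O.Qi d Lq) := by
  set p : Submodule ℝ O.M := O.MRp.restrictScalars ℝ with hp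
  have hmem : ∀ m : O.M, m ∈ p ↔ m ∈ O.MRp := fun m => Iff.rfl
  -- the form
  let B : O.M →ₗ[ℝ] O.M →ₗ[ℝ] ℝ := Fm.F.compr₂ (qt2_ccL n)
  have hB : ∀ a b, B a b = constantCoeff (Fm.F a b) := fun a b => rfl
  have hB1 : ∀ a, p ≤ LinearMap.ker (B a) := by
    intro a b hb
    rw [LinearMap.mem_ker, hB, Fm.symm]
    exact Fm.qt2_cc_MRp hb a
  let B1 : O.M →ₗ[ℝ] (O.Qt →ₗ[ℝ] ℝ) :=
    { toFun := fun a => p.liftQ (B a) (hB1 a)
      map_add' := by
        intro a b
        apply LinearMap.ext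
        intro q
        obtain ⟨c, rfl⟩ := p.mkQ_surjective q
        simp only [Submodule.mkQ_apply, Submodule.liftQ_apply, map_add, LinearMap.add_apply]
      map_smul' := by
        intro r a
        apply LinearMap.ext
        intro q
        obtain ⟨c, rfl⟩ := p.mkQ_surjective q
        simp only [Submodule.mkQ_apply, Submodule.liftQ_apply, map_smul, LinearMap.smul_apply,
          RingHom.id_apply] }
  have hB2 : p ≤ LinearMap.ker B1 := by
    intro a ha
    rw [LinearMap.mem_ker]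
    apply LinearMap.ext
    intro q
    obtain ⟨c, rfl⟩ := p.mkQ_surjective q
    change B a c = 0
    rw [hB]
    exact Fm.qt2_cc_MRp ha c
  let Fq : O.Qt →ₗ[ℝ] O.Qt →ₗ[ℝ] ℝ := p.liftQ B1 hB2
  have hFq : ∀ a b : O.M, Fq (p.mkQ a) (p.mkQ b) = constantCoeff (Fm.F a b) := fun a b => rfl
  let Lq : O.Qt →ₗ[ℝ] O.Qt := p.mapQ p L (fun m hm => hL.mrp m hm)
  have hLq : ∀ a : O.M, Lq (p.mkQ a) = p.mkQ (L a) := fun a => rfl
  have hLqk : ∀ (k : ℕ) (a : O.M), (Lq ^ k) (p.mkQ a) = p.mkQ ((L ^ k) a) := by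
    intro k
    induction k with
    | zero => intro a; rfl
    | succ k ih =>
        intro a
        rw [pow_succ', pow_succ', Module.End.mul_apply, Module.End.mul_apply, ih, hLq]
  have hzero : ∀ a : O.M, p.mkQ a = 0 ↔ a ∈ O.MRp := by
    intro a
    rw [Submodule.mkQ_apply, Submodule.Quotient.mk_eq_zero]
    exact hmem a
  have hQi : ∀ i (u : O.Qt), u ∈ O.Qi i ↔ ∃ a ∈ O.dg i, p.mkQ a = u := by
    intro i u
    exact Submodule.mem_map
  refine ⟨Fq, Lq, ⟨hFq, hLq⟩, ⟨?_, ?_, ?_, ?_, ?_⟩, ?_, ?_⟩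
  · intro i u hu
    obtain ⟨a, ha, rfl⟩ := (hQi i u).mp hu
    rw [hLq]
    exact (hQi _ _).mpr ⟨_, hL.deg i a ha, rfl⟩
  · intro i hi
    rw [eq_bot_iff]
    intro u hu
    obtain ⟨a, ha, rfl⟩ := (hQi i u).mp hu
    rw [Submodule.mem_bot, hzero]
    exact Frm.top hO Fm hi ha
  · intro u v
    obtain ⟨a, rfl⟩ := p.mkQ_surjective u
    obtain ⟨b, rfl⟩ := p.mkQ_surjective v
    rw [hFq, hFq, Fm.symm]
  · intro u v
    obtain ⟨a, rfl⟩ := p.mkQ_surjective u
    obtain ⟨b, rfl⟩ := p.mkQ_surjective v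
    rw [hLq, hLq, hFq, hFq, hL.adj]
  · intro i hi u hu h
    obtain ⟨a, ha, rfl⟩ := (hQi i u).mp hu
    rw [hzero]
    apply Frm.nondeg_quot hO Fm hi ha
    intro m' hm'
    rw [← hFq]
    exact h _ ((hQi _ _).mpr ⟨m', hm', rfl⟩)
  · constructor
    · intro h i hi u hu h1 h2
      obtain ⟨a, ha, rfl⟩ := (hQi i u).mp hu
      rw [hLqk, hzero] at h1
      rw [Ne, hzero] at h2
      rw [hLqk, hFq]
      exact (h i hi a ha h1).resolve_left h2
    · intro h i hi b hb h1
      by_cases h2 : b ∈ O.MRp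
      · exact Or.inl h2
      · right
        have h3 := h i hi (p.mkQ b) ((hQi _ _).mpr ⟨b, hb, rfl⟩)
          (by rw [hLqk, hzero]; exact h1) (by rw [Ne, hzero]; exact h2)
        rwa [hLqk, hFq] at h3
  · constructor
    · intro h i hi u hu h1
      obtain ⟨a, ha, rfl⟩ := (hQi i u).mp hu
      rw [hLqk, hzero] at h1
      rw [hzero]
      exact h i hi a ha h1
    · intro h i hi b hb h1
      have h3 := h i hi (p.mkQ b) ((hQi _ _).mpr ⟨b, hb, rfl⟩) (by rw [hLqk, hzero]; exact h1)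
      rwa [hzero] at h3

/-! ### admissible operators -/

theorem qt2_Lrho_apply {O : Obj n} (m : O.M) : Lrho O m = rho n • m := rfl

theorem qt2_Lrho_deg {O : Obj n} (i : ℕ) (a : O.M) (ha : a ∈ O.dg i) : Lrho O a ∈ O.dg (i + 1) := by
  intro k
  have h : (Lrho O a).1 k = rho n * a.1 k := rfl
  rw [h, add_comm i 1]
  exact qt2_rho_homog.mul (ha k)

theorem AdmOp_rho {O : Obj n} {d : ℕ} (Fm : Frm O d) : AdmOp O Fm.F (Lrho O) := by
  refine ⟨qt2_Lrho_deg, ?_, ?_⟩
  · intro a ha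
    exact O.MRp.smul_mem (rho n) ha
  · intro a b
    exact Fm.left (rho n) a b

theorem exists_mid (hs : s.1 ≠ s.2) (O : Obj n) : ∃ T, IsMid s O T := by
  let g : O.M →ₗ[Rg n] (theta s O).M :=
    { toFun := fun a => el s (O.rmul (rho n) a) 0
      map_add' := by
        intro a b
        rw [map_add, ← el_add, add_zero]
      map_smul' := by
        intro f a
        rw [map_smul, RingHom.id_apply, ← el_smul, smul_zero] }
  let h : O.M →ₗ[Rg n] (theta s O).M :=
    { toFun := fun b => el s 0 (O.rmul (rho n) b)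
      map_add' := by
        intro a b
        rw [map_add, ← el_add, add_zero]
      map_smul' := by
        intro f a
        rw [map_smul, RingHom.id_apply, ← el_smul, smul_zero] }
  obtain ⟨φ, hφ⟩ := exists_lin_of_el hs g h
  refine ⟨φ.restrictScalars ℝ, ?_⟩
  intro a b
  change φ (el s a b) = _
  rw [hφ]
  change el s (O.rmul (rho n) a) 0 + el s 0 (O.rmul (rho n) b) = _
  rw [← el_add, add_zero, zero_add]

theorem qt2_rmul_comm {O : Obj n} (f g : Rg n) (m : O.M) :
    O.rmul f (O.rmul g m) = O.rmul g (O.rmul f m) := by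
  rw [← Obj.rmul_mul, ← Obj.rmul_mul, mul_comm]

/-- the middle multiplication commutes with the right action -/
theorem IsMid.qt2_rmul (hs : s.1 ≠ s.2) {O : Obj n} {T : (theta s O).M →ₗ[ℝ] (theta s O).M}
    (hT : IsMid s O T) (j : Fin n) (m : (theta s O).M) :
    T ((theta s O).rmul (X j) m) = (theta s O).rmul (X j) (T m) := by
  have h1 : ∀ m : (theta s O).M, T ((theta s O).rmul (uPart s j) m) =
      (theta s O).rmul (uPart s j) (T m) := by
    intro m
    obtain ⟨a, b, rfl⟩ := el_surj m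
    rw [rmul_el_inv hs (act_sw_uPart s j), hT, hT, rmul_el_inv hs (act_sw_uPart s j),
      qt2_rmul_comm, qt2_rmul_comm (rho n)]
  have h2 : ∀ m : (theta s O).M, T ((theta s O).rmul (al 1 s) m) =
      (theta s O).rmul (al 1 s) (T m) := by
    intro m
    obtain ⟨a, b, rfl⟩ := el_surj m
    rw [rmul_el_al hs, hT, hT, rmul_el_al hs, qt2_rmul_comm]
  have h3 : ∀ (c : ℝ) (m : (theta s O).M), T ((theta s O).rmul (C c) m) =
      (theta s O).rmul (C c) (T m) := by
    intro c m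
    have h4 : ∀ m : (theta s O).M, (theta s O).rmul (C c) m = c • m := by
      intro m
      ext1; funext i
      rw [Obj.rmul_val, act_C]
      change C c * m.1 i = c • m.1 i
      rw [smul_eq_C_mul]
    rw [h4, h4, map_smul]
  rw [X_eq_uv s hs j, Obj.rmul_add, Obj.rmul_add, map_add, Obj.rmul_mul, Obj.rmul_mul, h1, h3, h2]

theorem IsMid.qt2_deg (hs : s.1 ≠ s.2) {O : Obj n} {T : (theta s O).M →ₗ[ℝ] (theta s O).M}
    (hT : IsMid s O T) (i : ℕ) (m : (theta s O).M) (hm : m ∈ (theta s O).dg i) :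
    T m ∈ (theta s O).dg (i + 1) := by
  have h1 : ∀ (i : ℕ) (a : O.M), a ∈ O.dg i → O.rmul (rho n) a ∈ O.dg (i + 1) := by
    intro i a ha k
    rw [Obj.rmul_val, add_comm i 1]
    exact (act_homog qt2_rho_homog).mul (ha k)
  obtain ⟨a, b, rfl⟩ := el_surj m
  rw [hT]
  rcases i with _ | i
  · rw [el_mem_dg0 hs] at hm
    obtain ⟨ha, rfl⟩ := hm
    rw [map_zero, el_mem_dg hs]
    exact ⟨h1 0 a ha, (O.dg 0).zero_mem⟩
  · rw [el_mem_dg hs] at hm ⊢
    exact ⟨h1 _ a hm.1, h1 _ b hm.2⟩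

theorem IsMid.qt2_adj (_hs : s.1 ≠ s.2) {O : Obj n} {d : ℕ} (Fm : Frm O d)
    (G : Frm (theta s O) (d + 1)) (hG : IsThetaFrm s Fm G)
    {T : (theta s O).M →ₗ[ℝ] (theta s O).M} (hT : IsMid s O T) (m m' : (theta s O).M) :
    G.F (T m) m' = G.F m (T m') := by
  obtain ⟨a, b, rfl⟩ := el_surj m
  obtain ⟨a', b', rfl⟩ := el_surj m'
  rw [hT, hT, hG, hG]
  simp only [Fm.right, Fm.qt2_right']

theorem AdmOp_theta {O : Obj n} {d : ℕ} (Fm : Frm O d) (hs : s.1 ≠ s.2)
    (G : Frm (theta s O) (d + 1)) (hG : IsThetaFrm s Fm G)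
    (T : (theta s O).M →ₗ[ℝ] (theta s O).M) (hT : IsMid s O T) (ζ : ℝ) :
    AdmOp (theta s O) G.F (Lrho (theta s O) + ζ • T) := by
  refine ⟨?_, ?_, ?_⟩
  · intro i a ha
    rw [LinearMap.add_apply, LinearMap.smul_apply]
    exact Submodule.add_mem _ (qt2_Lrho_deg i a ha) (Submodule.smul_mem _ ζ (hT.qt2_deg hs i a ha))
  · intro a ha
    rw [LinearMap.add_apply, LinearMap.smul_apply]
    have h1 : T a ∈ (theta s O).MRp := by
      refine qt2_MRp_induction (p := fun m => T m ∈ (theta s O).MRp) ?_ ?_ ?_ ha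
      · rw [map_zero]
        exact Submodule.zero_mem _
      · intro a b ha hb
        rw [map_add]
        exact Submodule.add_mem _ ha hb
      · intro j a
        rw [hT.qt2_rmul hs]
        exact Submodule.mem_iSup_of_mem j ⟨_, rfl⟩
    apply Submodule.add_mem
    · exact (theta s O).MRp.smul_mem (rho n) ha
    · exact ((theta s O).MRp.restrictScalars ℝ).smul_mem ζ h1
  · intro a b
    rw [LinearMap.add_apply, LinearMap.smul_apply, LinearMap.add_apply, LinearMap.smul_apply,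
      map_add, LinearMap.add_apply, map_smul, LinearMap.smul_apply, map_add, map_smul,
      hT.qt2_adj hs Fm G hG]
    congr 1
    exact G.left (rho n) a b

end KLFin
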