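import Mathlib
import Pool.Agent.KLFin.CDefs3
import Pool.Agent.KLFin.CD
import Pool.Agent.KLFin.CE1
import Pool.Agent.KLFin.CE2
import Pool.Agent.KLFin.RD1

/-!
# Part C, block DP2: splitting of a KL object with respect to a right descent (MP_d9d356_co)
-/

open MvPolynomial

namespace KLFin

variable {n : ℕ} {κ : Fin n → ℕ} {s : Fin n × Fin n}

namespace DP2

variable {O : Obj n}

theorem rmul_zero_left (m : O.M) : O.rmul 0 m = 0 := by
  ext1; funext i
  rw [Obj.rmul_val, map_zero, zero_mul]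
  rfl

theorem rmul_C (c : ℝ) (m : O.M) : O.rmul (C c) m = (C c : Rg n) • m := by
  ext1; funext i
  rw [Obj.rmul_val, act_C]
  rfl

theorem rmul_comm (f g : Rg n) (m : O.M) : O.rmul f (O.rmul g m) = O.rmul g (O.rmul f m) := by
  rw [← Obj.rmul_mul, mul_comm, Obj.rmul_mul]

theorem rmul_sub_left (f g : Rg n) (m : O.M) : O.rmul (f - g) m = O.rmul f m - O.rmul g m := by
  ext1; funext i
  change act (O.π i) (f - g) * m.1 i = act (O.π i) f * m.1 i - act (O.π i) g * m.1 i
  rw [map_sub, sub_mul]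

theorem rmul_sum_left {ι : Type} (t : Finset ι) (f : ι → Rg n) (m : O.M) :
    O.rmul (∑ k ∈ t, f k) m = ∑ k ∈ t, O.rmul (f k) m := by
  classical
  induction t using Finset.induction_on with
  | empty => simp [rmul_zero_left]
  | insert a t ha ih => rw [Finset.sum_insert ha, Finset.sum_insert ha, Obj.rmul_add, ih]

/-- generators of `O R^s_+` -/
theorem rmul_mem_MRs {f : Rg n} (hf : act (sw s) f = f) (h0 : constantCoeff f = 0) (a : O.M) :
    O.rmul f a ∈ O.MRs s :=
  Submodule.subset_span ⟨f, a, hf, h0, rfl⟩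

theorem MRs_le_MRp : O.MRs s ≤ O.MRp := by
  rw [Obj.MRs, Submodule.span_le]
  rintro _ ⟨f, a, _, h0, rfl⟩
  exact mem_MRp_of_rmul h0 a

/-- `O R^s_+` is stable under the right action -/
theorem rmul_MRs (g : Rg n) {m : O.M} (hm : m ∈ O.MRs s) : O.rmul g m ∈ O.MRs s := by
  have h1 : O.MRs s ≤ (O.MRs s).comap (O.rmul g) := by
    conv_lhs => rw [Obj.MRs]
    rw [Submodule.span_le]
    rintro _ ⟨f, a, hf, h0, rfl⟩
    rw [SetLike.mem_coe, Submodule.mem_comap, rmul_comm]
    exact rmul_mem_MRs hf h0 _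
  exact h1 hm

/-- an endomorphism commuting with the invariants preserves `O R^s_+` -/
theorem map_MRs {P : Obj n} (D : O.M →ₗ[Rg n] P.M)
    (h2 : ∀ f, act (sw s) f = f → ∀ b, D (O.rmul f b) = P.rmul f (D b)) {m : O.M}
    (hm : m ∈ O.MRs s) : D m ∈ P.MRs s := by
  have h1 : O.MRs s ≤ (P.MRs s).comap D := by
    rw [Obj.MRs, Submodule.span_le]
    rintro _ ⟨f, a, hf, h0, rfl⟩
    rw [SetLike.mem_coe, Submodule.mem_comap, h2 f hf]
    exact rmul_mem_MRs hf h0 _
  exact h1 hm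

theorem constantCoeff_uPart (s : Fin n × Fin n) (j : Fin n) :
    constantCoeff (uPart s j) = 0 := by
  simp [uPart]

theorem constantCoeff_al (y : Pm n) (s : Fin n × Fin n) : constantCoeff (al y s) = 0 := by
  simp [al]

/-- `m ∈ O R_+` is of the form `A + c α` with `A ∈ O R^s_+` -/
theorem exists_MRs_al (hs : s.1 ≠ s.2) {m : O.M} (hm : m ∈ O.MRp) :
    ∃ A ∈ O.MRs s, ∃ c : O.M, m = A + O.rmul (al 1 s) c := by
  have h1 : O.MRp ≤ O.MRs s ⊔ LinearMap.range (O.rmul (al 1 s)) := by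
    refine iSup_le fun j => ?_
    rintro _ ⟨a, rfl⟩
    rw [X_eq_uv s hs j, Obj.rmul_add]
    refine Submodule.add_mem_sup (rmul_mem_MRs (act_sw_uPart s j) (constantCoeff_uPart s j) a) ?_
    refine ⟨O.rmul (C (vPart s j)) a, ?_⟩
    rw [rmul_comm, ← Obj.rmul_mul]
  obtain ⟨A, hA, B, ⟨c, rfl⟩, hAB⟩ := Submodule.mem_sup.1 (h1 hm)
  exact ⟨A, hA, c, hAB.symm⟩

/-- `α² ∈ R^s_+` -/
theorem al_sq_mem (c : O.M) : O.rmul (al 1 s * al 1 s) c ∈ O.MRs s := by
  refine rmul_mem_MRs ?_ ?_ c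
  · rw [map_mul, act_sw_al]; ring
  · rw [map_mul, constantCoeff_al, mul_zero]

/-- elements of `ker D` in `O R_+` are in `O R^s_+` -/
theorem ker_MRp (hs : s.1 ≠ s.2) (D : O.M →ₗ[Rg n] O.M)
    (h1 : ∀ b, D (O.rmul (al 1 s) b) + O.rmul (al 1 s) (D b) = b)
    (h2 : ∀ f, act (sw s) f = f → ∀ b, D (O.rmul f b) = O.rmul f (D b)) {m : O.M}
    (hD : D m = 0) (hm : m ∈ O.MRp) : m ∈ O.MRs s := by
  obtain ⟨A, hA, c, rfl⟩ := exists_MRs_al hs hm
  refine Submodule.add_mem _ hA ?_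
  rw [map_add] at hD
  have hc := h1 c
  have hc' : c = O.rmul (al 1 s) (D c) - D A := by
    have : D (O.rmul (al 1 s) c) = - D A := by
      rw [eq_neg_iff_add_eq_zero, add_comm]; exact hD
    rw [this] at hc
    rw [sub_eq_add_neg, add_comm]
    exact hc.symm
  rw [hc', map_sub, ← Obj.rmul_mul]
  exact Submodule.sub_mem _ (al_sq_mem _) (rmul_MRs _ (map_MRs D h2 hA))

end DP2

/-- consequences of `DProp`: `B = N ⊕ N α` with `⟨N,N⟩ ⊆ R^s`; membership modulo `B R^s_+`:
`n₀ + n₁ α ∈ B R^s_+` iff `n₀, n₁ ∈ B R_+` -/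
theorem DProp.split {x : Pm n} {B : KLObj κ x} (_hB : Nice κ B.O) (hs : Smp κ s)
    (D : B.O.M →ₗ[Rg n] B.O.M)
    (h1 : ∀ b, D (B.O.rmul (al 1 s) b) + B.O.rmul (al 1 s) (D b) = b)
    (h2 : ∀ f, act (sw s) f = f → ∀ b, D (B.O.rmul f b) = B.O.rmul f (D b))
    (h3 : ∀ b, D (D b) = 0) (m : B.O.M) :
    ∃ n₀ n₁ : B.O.M, D n₀ = 0 ∧ D n₁ = 0 ∧ m = n₀ + B.O.rmul (al 1 s) n₁ ∧ n₁ = D m ∧
      (m ∈ B.O.MRs s ↔ n₀ ∈ B.O.MRp ∧ n₁ ∈ B.O.MRp) ∧
      (m ∈ B.O.MRp ↔ n₀ ∈ B.O.MRp) := by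
  have hne : s.1 ≠ s.2 := ne_of_lt hs.1
  have hD0 : D (m - B.O.rmul (al 1 s) (D m)) = 0 := by
    have := h1 (D m)
    rw [h3, map_zero, add_zero] at this
    rw [map_sub, this, sub_self]
  have hal : B.O.rmul (al 1 s) (D m) ∈ B.O.MRp :=
    mem_MRp_of_rmul (DP2.constantCoeff_al 1 s) _
  refine ⟨m - B.O.rmul (al 1 s) (D m), D m, hD0, h3 m, by abel, rfl, ⟨?_, ?_⟩, ⟨?_, ?_⟩⟩
  · intro hm
    exact ⟨Submodule.sub_mem _ (DP2.MRs_le_MRp hm) hal, DP2.MRs_le_MRp (DP2.map_MRs D h2 hm)⟩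
  · rintro ⟨hm0, hm1⟩
    have h4 := DP2.ker_MRp hne D h1 h2 hD0 hm0
    have h5 := DP2.rmul_MRs (al 1 s) (DP2.ker_MRp hne D h1 h2 (h3 m) hm1)
    have := Submodule.add_mem _ h4 h5
    rwa [sub_add_cancel] at this
  · intro hm
    exact Submodule.sub_mem _ hm hal
  · intro hm
    have := Submodule.add_mem _ hm hal
    rwa [sub_add_cancel] at this

theorem MRs_al {O : Obj n} (_hO : Nice κ O) (hs : Smp κ s) {a : O.M} (ha : a ∈ O.MRp) {i : ℕ}
    (hi : a ∈ O.dg (i + 1)) :
    ∃ a₁ ∈ O.dg i, a - O.rmul (al 1 s) a₁ ∈ O.MRs s := by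
  have hne : s.1 ≠ s.2 := ne_of_lt hs.1
  obtain ⟨c, hc1, hc2, -, -, hc5⟩ := exists_comp O
  -- components of right multiples
  have hcX : ∀ (f : Rg n), f.IsHomogeneous 1 → ∀ m : O.M,
      c (i + 1) (O.rmul f m) = O.rmul f (c i m) := by
    intro f hf m
    ext1; funext k
    rw [hc5, Obj.rmul_val, Obj.rmul_val, hc5]
    exact hcomp_mul_succ (act_homog hf) _ _
  have key : ∀ m ∈ O.MRp, ∃ a₁ ∈ O.dg i, c (i + 1) m - O.rmul (al 1 s) a₁ ∈ O.MRs s := by
    intro m hm
    have h1 : O.MRp ≤ O.MRp := le_rfl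
    refine Submodule.iSup_induction (fun j : Fin n => LinearMap.range (O.rmul (X j)))
      (motive := fun m => ∃ a₁ ∈ O.dg i, c (i + 1) m - O.rmul (al 1 s) a₁ ∈ O.MRs s) hm ?_ ?_ ?_
    · rintro j _ ⟨b, rfl⟩
      refine ⟨c i (O.rmul (C (vPart s j)) b), hc1 _ _, ?_⟩
      rw [X_eq_uv s hne j, Obj.rmul_add, map_add, hcX _ (by
        unfold uPart
        have := (isHomogeneous_C (Fin n) (1 / 2 : ℝ)).mul
          ((isHomogeneous_X ℝ j).add (isHomogeneous_X ℝ (sw s j)))
        rwa [zero_add] at this)]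
      rw [mul_comm (C (vPart s j)), Obj.rmul_mul, hcX _ (al_homog 1 s), add_sub_cancel_right]
      exact DP2.rmul_mem_MRs (act_sw_uPart s j) (DP2.constantCoeff_uPart s j) _
    · refine ⟨0, Submodule.zero_mem _, ?_⟩
      rw [map_zero, map_zero, sub_zero]
      exact Submodule.zero_mem _
    · rintro m m' ⟨a₁, h1, h2⟩ ⟨a₂, h3, h4⟩
      refine ⟨a₁ + a₂, Submodule.add_mem _ h1 h3, ?_⟩
      have := Submodule.add_mem _ h2 h4
      rw [map_add, map_add]
      convert this using 1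
      abel
  obtain ⟨a₁, h1, h2⟩ := key a ha
  refine ⟨a₁, h1, ?_⟩
  rwa [hc2 _ a hi] at h2

namespace DP2

/-- `g` has no constant term and its linear part is `s`-invariant -/
def Jq (s : Fin n × Fin n) (g : Rg n) : Prop :=
  constantCoeff g = 0 ∧ act (sw s) (homogeneousComponent 1 g) = homogeneousComponent 1 g

theorem hc0 (g : Rg n) : homogeneousComponent 0 g = C (constantCoeff g) := by
  rw [homogeneousComponent_zero]; rfl

/-- linear part of a product with a factor without constant term -/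
theorem hc1_mul {g : Rg n} (hg : constantCoeff g = 0) (h : Rg n) :
    homogeneousComponent 1 (g * h) = C (constantCoeff h) * homogeneousComponent 1 g := by
  induction h using MvPolynomial.induction_on with
  | C a =>
      rw [constantCoeff_C, mul_comm, homogeneousComponent_C_mul]
  | add p q hp hq =>
      rw [mul_add, map_add, hp, hq, map_add, C_add, add_mul]
  | mul_X p j _ =>
      have h0 : constantCoeff (p * X j : Rg n) = 0 := by
        rw [map_mul, constantCoeff_X, mul_zero]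
      rw [h0, C_0, zero_mul]
      have h1 : g * (p * X j) = X j * (g * p) := by ring
      have h2 := hcomp_mul_succ (isHomogeneous_X ℝ j) (g * p) 0
      rw [h1]
      rw [zero_add] at h2
      rw [h2, hc0, map_mul, hg, zero_mul, C_0, mul_zero]

theorem Jq_mul {g : Rg n} (hg : Jq s g) (h : Rg n) : Jq s (g * h) := by
  refine ⟨by rw [map_mul, hg.1, zero_mul], ?_⟩
  rw [hc1_mul hg.1, map_mul, act_C, hg.2]

theorem Jq_add {g h : Rg n} (hg : Jq s g) (hh : Jq s h) : Jq s (g + h) := by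
  refine ⟨by rw [map_add, hg.1, hh.1, add_zero], ?_⟩
  rw [map_add, map_add, hg.2, hh.2]

theorem Jq_zero : Jq s (0 : Rg n) := ⟨map_zero _, by rw [map_zero, map_zero]⟩

theorem Jq_sum {ι : Type} (t : Finset ι) (f : ι → Rg n) (hf : ∀ k ∈ t, Jq s (f k)) :
    Jq s (∑ k ∈ t, f k) := by
  classical
  induction t using Finset.induction_on with
  | empty => exact Jq_zero
  | insert a t ha ih =>
      rw [Finset.sum_insert ha]
      exact Jq_add (hf a (Finset.mem_insert_self a t))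
        (ih fun k hk => hf k (Finset.mem_insert_of_mem hk))

theorem act_hcomp (w : Pm n) (f : Rg n) (d : ℕ) :
    act w (homogeneousComponent d f) = homogeneousComponent d (act w f) := by
  classical
  conv_rhs => rw [← sum_homogeneousComponent f]
  rw [map_sum, map_sum]
  have h : ∀ i ∈ Finset.range (f.totalDegree + 1),
      homogeneousComponent d (act w (homogeneousComponent i f)) =
        if i = d then act w (homogeneousComponent d f) else 0 := by
    intro i _
    have h1 : (act w (homogeneousComponent i f)).IsHomogeneous i :=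
      act_homog (homogeneousComponent_isHomogeneous i f)
    rw [homogeneousComponent_of_mem h1]
    by_cases hid : i = d
    · subst hid; simp
    · rw [if_neg hid, if_neg (fun h => hid h.symm)]
  rw [Finset.sum_congr rfl h, Finset.sum_ite_eq']
  split_ifs with h2
  · rfl
  · rw [homogeneousComponent_eq_zero d f (by simpa using h2)]; simp

theorem Jq_of_inv {f : Rg n} (hf : act (sw s) f = f) (h0 : constantCoeff f = 0) : Jq s f := by
  refine ⟨h0, ?_⟩
  rw [act_hcomp, hf]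

/-- coordinates of elements of `O R^s_+` -/
theorem coord_MRs {O : Obj n} {K : ℕ} {u : Fin K → O.M}
    (hu : ∀ m : O.M, ∃ f : Fin K → Rg n, m = ∑ k, O.rmul (f k) (u k)) {m : O.M}
    (hm : m ∈ O.MRs s) : ∃ g : Fin K → Rg n, (∀ k, Jq s (g k)) ∧
      m = ∑ k, O.rmul (g k) (u k) := by
  rw [Obj.MRs] at hm
  induction hm using Submodule.span_induction with
  | mem x hx =>
      obtain ⟨f, a, hf, h0, rfl⟩ := hx
      obtain ⟨h, rfl⟩ := hu a
      refine ⟨fun k => f * h k, fun k => Jq_mul (Jq_of_inv hf h0) _, ?_⟩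
      rw [map_sum]
      exact Finset.sum_congr rfl fun k _ => (Obj.rmul_mul _ _ _ _).symm
  | zero =>
      refine ⟨fun _ => 0, fun _ => Jq_zero, ?_⟩
      simp [rmul_zero_left]
  | add x y _ _ hx hy =>
      obtain ⟨g, hg, rfl⟩ := hx
      obtain ⟨h, hh, rfl⟩ := hy
      refine ⟨fun k => g k + h k, fun k => Jq_add (hg k) (hh k), ?_⟩
      rw [← Finset.sum_add_distrib]
      exact Finset.sum_congr rfl fun k _ => (Obj.rmul_add _ _ _ _).symm
  | smul r x _ hx =>
      obtain ⟨g, hg, rfl⟩ := hx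
      choose h hh using fun k => hu (r • u k)
      refine ⟨fun l => ∑ k, g k * h k l, fun l => Jq_sum _ _ fun k _ => Jq_mul (hg k) _, ?_⟩
      rw [Finset.smul_sum]
      have h1 : ∀ k, r • O.rmul (g k) (u k) = ∑ l, O.rmul (g k * h k l) (u l) := by
        intro k
        rw [← map_smul, hh k, map_sum]
        exact Finset.sum_congr rfl fun l _ => (Obj.rmul_mul _ _ _ _).symm
      rw [Finset.sum_congr rfl fun k _ => h1 k, Finset.sum_comm]
      exact Finset.sum_congr rfl fun l _ => (rmul_sum_left _ _ _).symm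

end DP2

theorem MRs_al_iff {O : Obj n} (hO : Nice κ O) (hs : Smp κ s) (a : O.M) :
    O.rmul (al 1 s) a ∈ O.MRs s ↔ a ∈ O.MRp := by
  have hne : s.1 ≠ s.2 := ne_of_lt hs.1
  constructor
  · intro h
    obtain ⟨K, u, e, _, hu, hind⟩ := hO.right_basis
    obtain ⟨g, hg, hga⟩ := DP2.coord_MRs hu h
    obtain ⟨f, rfl⟩ := hu a
    have h1 : ∀ k, al 1 s * f k - g k = 0 := by
      apply hind
      have h2 : ∀ k, O.rmul (al 1 s * f k - g k) (u k) =
          O.rmul (al 1 s * f k) (u k) - O.rmul (g k) (u k) := fun k => DP2.rmul_sub_left _ _ _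
      rw [Finset.sum_congr rfl fun k _ => h2 k, Finset.sum_sub_distrib, ← hga, map_sum,
        sub_eq_zero]
      exact Finset.sum_congr rfl fun k _ => Obj.rmul_mul _ _ _ _
    refine Submodule.sum_mem _ fun k _ => mem_MRp_of_rmul ?_ _
    have h2 : g k = al 1 s * f k := (sub_eq_zero.1 (h1 k)).symm
    have h3 := (hg k).2
    rw [h2, DP2.hc1_mul (DP2.constantCoeff_al 1 s), homogeneousComponent_of_mem (al_homog 1 s),
      if_pos rfl, map_mul, act_C, act_sw_al] at h3
    have h4 : (2 : Rg n) * (C (constantCoeff (f k)) * al 1 s) = 0 := by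
      linear_combination -h3
    have h5 : (C (constantCoeff (f k)) : Rg n) * al 1 s = 0 := by
      rcases mul_eq_zero.1 h4 with h | h
      · exact absurd h two_ne_zero
      · exact h
    rcases mul_eq_zero.1 h5 with h | h
    · exact (C_eq_zero).1 h
    · exact absurd h (al_ne_zero hne 1)
  · intro h
    obtain ⟨A, hA, c, rfl⟩ := DP2.exists_MRs_al hne h
    rw [map_add, ← Obj.rmul_mul]
    exact Submodule.add_mem _ (DP2.rmul_MRs _ hA) (DP2.al_sq_mem _)

end KLFin
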