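import Mathlib
import Pool.Agent.KLFin.CDefs3
import Pool.Agent.KLFin.CE1
import Pool.Agent.KLFin.CD
import Pool.Agent.KLFin.LA4
import Pool.Agent.KLFin.CE2
import Pool.Agent.KLFin.QT1
import Pool.Agent.KLFin.QT2
import Pool.Agent.KLFin.DP2
import Pool.Agent.KLFin.NI2

/-!
# Block CT2 of MP_d9d356_co: Hodge-Riemann relations on `θ_s O` for large `ζ`
-/

open MvPolynomial

namespace KLFin

variable {n : ℕ} {κ : Fin n → ℕ} {s : Fin n × Fin n}

/-! ### transport of Lefschetz spaces along a linear equivalence -/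

section Transport

variable {V W : Type*} [AddCommGroup V] [Module ℝ V] [AddCommGroup W] [Module ℝ W]

theorem ct2_pow (Φ : V ≃ₗ[ℝ] W) (L : V →ₗ[ℝ] V) (L' : W →ₗ[ℝ] W)
    (hL : ∀ u, L' (Φ u) = Φ (L u)) (k : ℕ) (u : V) : (L' ^ k) (Φ u) = Φ ((L ^ k) u) := by
  induction k generalizing u with
  | zero => simp
  | succ k ih => rw [pow_succ, pow_succ, Module.End.mul_apply, Module.End.mul_apply, hL, ih]

theorem ct2_LefSp (Φ : V ≃ₗ[ℝ] W) {Vi : ℕ → Submodule ℝ V} {Wi : ℕ → Submodule ℝ W}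
    (hVi : ∀ i u, u ∈ Vi i ↔ Φ u ∈ Wi i) {L : V →ₗ[ℝ] V} {L' : W →ₗ[ℝ] W}
    {F : V →ₗ[ℝ] V →ₗ[ℝ] ℝ} {F' : W →ₗ[ℝ] W →ₗ[ℝ] ℝ}
    (hL : ∀ u, L' (Φ u) = Φ (L u)) (hF : ∀ u v, F' (Φ u) (Φ v) = F u v) {d : ℕ}
    (h : LefSp Wi d L' F') : LefSp Vi d L F where
  deg i u hu := by
    rw [hVi, ← hL]
    exact h.deg i _ ((hVi i u).1 hu)
  top i hi := by
    rw [eq_bot_iff]
    intro u hu
    have h1 := (hVi i u).1 hu
    rw [h.top i hi, Submodule.mem_bot] at h1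
    rw [Submodule.mem_bot]
    exact Φ.map_eq_zero_iff.1 h1
  symm u v := by rw [← hF, ← hF, h.symm]
  adj u v := by rw [← hF, ← hF, ← hL, ← hL, h.adj]
  nondeg i hi u hu huv := by
    have := h.nondeg i hi (Φ u) ((hVi i u).1 hu) (by
      intro w hw
      obtain ⟨v, rfl⟩ := Φ.surjective w
      rw [hF]
      exact huv v ((hVi _ v).2 hw))
    exact Φ.map_eq_zero_iff.1 this

theorem ct2_HRie (Φ : V ≃ₗ[ℝ] W) {Vi : ℕ → Submodule ℝ V} {Wi : ℕ → Submodule ℝ W}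
    (hVi : ∀ i u, u ∈ Vi i ↔ Φ u ∈ Wi i) {L : V →ₗ[ℝ] V} {L' : W →ₗ[ℝ] W}
    {F : V →ₗ[ℝ] V →ₗ[ℝ] ℝ} {F' : W →ₗ[ℝ] W →ₗ[ℝ] ℝ}
    (hL : ∀ u, L' (Φ u) = Φ (L u)) (hF : ∀ u v, F' (Φ u) (Φ v) = F u v) {d : ℕ}
    (h : HRie Vi d L F) : HRie Wi d L' F' := by
  intro i hi w hw h0 hne
  obtain ⟨u, rfl⟩ := Φ.surjective w
  rw [ct2_pow Φ L L' hL, Φ.map_eq_zero_iff] at h0
  have := h i hi u ((hVi i u).2 hw) h0 (fun h' => hne (by rw [h', map_zero]))
  rw [ct2_pow Φ L L' hL, hF]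
  exact this

end Transport

/-! ### facts on `MRs` -/

theorem ct2_MRs_rmul {O : Obj n} {f : Rg n} (hf : act (sw s) f = f) (h0 : constantCoeff f = 0)
    (a : O.M) : O.rmul f a ∈ O.MRs s :=
  Submodule.subset_span ⟨f, a, hf, h0, rfl⟩

theorem ct2_MRs_le {O : Obj n} : O.MRs s ≤ O.MRp := by
  apply Submodule.span_le.2
  rintro m ⟨f, a, _, h0, rfl⟩
  exact mem_MRp_of_rmul h0 a

/-- real scalars on `O.M` -/
theorem ct2_real_smul {O : Obj n} (c : ℝ) (m : O.M) : c • m = (C c : Rg n) • m := by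
  ext1; funext i
  simp [MvPolynomial.smul_eq_C_mul]

theorem ct2_MRp_dec {O : Obj n} (hs : s.1 ≠ s.2) {m : O.M} (hm : m ∈ O.MRp) :
    ∃ m₁ : O.M, m - O.rmul (al 1 s) m₁ ∈ O.MRs s := by
  unfold Obj.MRp at hm
  induction hm using Submodule.iSup_induction' with
  | mem j x hx =>
    obtain ⟨y, rfl⟩ := hx
    refine ⟨(C (vPart s j) : Rg n) • y, ?_⟩
    have h1 : O.rmul (X j) y - O.rmul (al 1 s) ((C (vPart s j) : Rg n) • y) =
        O.rmul (uPart s j) y := by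
      conv_lhs => rw [X_eq_uv s hs j]
      rw [Obj.rmul_add]
      ext1; funext i
      simp only [Submodule.coe_sub, Submodule.coe_add, Pi.sub_apply, Pi.add_apply, Obj.rmul_val,
        map_mul, act_C, Submodule.coe_smul, Pi.smul_apply, smul_eq_mul]
      ring
    rw [h1]
    apply ct2_MRs_rmul (act_sw_uPart s j)
    simp [uPart]
  | zero => exact ⟨0, by simp⟩
  | add x y _ _ hx hy =>
    obtain ⟨x₁, hx₁⟩ := hx
    obtain ⟨y₁, hy₁⟩ := hy
    refine ⟨x₁ + y₁, ?_⟩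
    have := (O.MRs s).add_mem hx₁ hy₁
    rw [map_add]
    convert this using 1
    abel

/-! ### a graded section of `O → O / O R_+` -/

theorem ct2_comp_MRp {O : Obj n} {c : ℕ → O.M →ₗ[ℝ] O.M}
    (hc : ∀ d m i, (c d m).1 i = homogeneousComponent d (m.1 i)) (k : ℕ) {m : O.M}
    (hm : m ∈ O.MRp) : c k m ∈ O.MRp := by
  have hm' := hm
  unfold Obj.MRp at hm'
  induction hm' using Submodule.iSup_induction' with
  | mem j x hx =>
    obtain ⟨y, rfl⟩ := hx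
    cases k with
    | zero =>
      have : c 0 (O.rmul (X j) y) = 0 := by
        ext1; funext i
        rw [hc, Obj.rmul_val, act_X, hcomp_mul_lt (isHomogeneous_X _ _) _ _ (by norm_num)]
        rfl
      rw [this]
      exact zero_mem _
    | succ k =>
      have : c (k + 1) (O.rmul (X j) y) = O.rmul (X j) (c k y) := by
        ext1; funext i
        rw [hc, Obj.rmul_val, act_X, hcomp_mul_succ (isHomogeneous_X _ _), Obj.rmul_val, act_X,
          hc]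
      rw [this]
      exact mem_MRp_of_rmul (by simp) _
  | zero => rw [map_zero]; exact zero_mem _
  | add x y hx hy ihx ihy =>
    rw [map_add]
    exact add_mem (ihx hx) (ihy hy)

theorem ct2_section {O : Obj n} (hO : Nice κ O) {d : ℕ} (Fm : Frm O d) :
    ∃ σ : O.Qt →ₗ[ℝ] O.M, (∀ v, (O.MRp.restrictScalars ℝ).mkQ (σ v) = v) ∧
      ∀ i, ∀ v ∈ O.Qi i, σ v ∈ O.dg i := by
  classical
  obtain ⟨c, hc1, hc2, hc3, hc4, hc5⟩ := exists_comp O
  set q := (O.MRp.restrictScalars ℝ).mkQ with hq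
  have hqz : ∀ m : O.M, q m = 0 ↔ m ∈ O.MRp := by
    intro m
    rw [hq, Submodule.mkQ_apply, Submodule.Quotient.mk_eq_zero, Submodule.restrictScalars_mem]
  obtain ⟨g, hg⟩ := LinearMap.exists_rightInverse_of_surjective q
    (LinearMap.range_eq_top.2 (Submodule.mkQ_surjective _))
  have hg' : ∀ v, q (g v) = v := fun v => by
    have := LinearMap.congr_fun hg v
    simpa using this
  have hle : ∀ k, O.MRp.restrictScalars ℝ ≤ (O.MRp.restrictScalars ℝ).comap (c k) := by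
    intro k m hm
    rw [Submodule.mem_comap, Submodule.restrictScalars_mem]
    exact ct2_comp_MRp hc5 k hm
  set p : ℕ → O.Qt →ₗ[ℝ] O.Qt := fun k =>
    Submodule.mapQ (O.MRp.restrictScalars ℝ) (O.MRp.restrictScalars ℝ) (c k) (hle k) with hp
  have hpq : ∀ k m, p k (q m) = q (c k m) := fun k m => by
    simp [hp, hq]
  refine ⟨∑ k ∈ Finset.range (d + 1), (c k).comp (g.comp (p k)), ?_, ?_⟩
  · intro v
    obtain ⟨m, rfl⟩ := Submodule.mkQ_surjective _ v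
    change q _ = q m
    rw [LinearMap.sum_apply, map_sum]
    have h1 : ∀ k, q ((c k).comp (g.comp (p k)) (q m)) = q (c k m) := by
      intro k
      simp only [LinearMap.comp_apply]
      rw [hpq]
      have h2 : g (q (c k m)) - c k m ∈ O.MRp := by
        rw [← hqz, map_sub, hg', sub_self]
      have h3 := ct2_comp_MRp hc5 k h2
      rw [map_sub, hc2 k (c k m) (hc1 k m), ← hqz, map_sub, sub_eq_zero] at h3
      exact h3
    rw [Finset.sum_congr rfl (fun k _ => h1 k)]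
    obtain ⟨N, hN⟩ := hc4 m
    have hbig : ∀ k, N ≤ k → c k m = 0 := by
      intro k hk
      rw [hN, map_sum]
      apply Finset.sum_eq_zero
      intro j hj
      rw [Finset.mem_range] at hj
      exact hc3 j k (by omega) _ (hc1 j m)
    have hsum : ∀ N' N'' : ℕ, N' ≤ N'' → (∀ k, N' ≤ k → q (c k m) = 0) →
        ∑ k ∈ Finset.range N', q (c k m) = ∑ k ∈ Finset.range N'', q (c k m) := by
      intro N' N'' hle hz
      apply Finset.sum_subset (Finset.range_mono hle)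
      intro k _ hk
      rw [Finset.mem_range, not_lt] at hk
      exact hz k hk
    have e1 := hsum (d + 1) (max N (d + 1)) (le_max_right _ _) (by
      intro k hk
      rw [hqz]
      exact Frm.top hO Fm (by omega : d < k) (hc1 k m))
    have e2 := hsum N (max N (d + 1)) (le_max_left _ _) (by
      intro k hk
      rw [hbig k hk, map_zero])
    rw [e1, ← e2, ← map_sum, ← hN]
  · intro i v hv
    obtain ⟨m, hm, rfl⟩ := hv
    rw [LinearMap.sum_apply]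
    apply Submodule.sum_mem
    intro k _
    simp only [LinearMap.comp_apply]
    change c k (g (p k (q m))) ∈ O.dg i
    rw [hpq]
    by_cases hik : k = i
    · subst hik
      exact hc1 _ _
    · rw [hc3 i k (Ne.symm hik) m hm, map_zero, map_zero, map_zero]
      exact zero_mem _

/-! ### the map `O → θ_s O / R_+`, `a ↦ a ⊗ 1` -/

/-- `a ↦ a ⊗ 1` -/
noncomputable def ct2_elL (s : Fin n × Fin n) (O : Obj n) : O.M →ₗ[ℝ] (theta s O).M where
  toFun a := el s a 0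
  map_add' a b := by
    have := el_add (s := s) a 0 b 0
    rw [add_zero] at this
    exact this
  map_smul' c a := by
    rw [RingHom.id_apply, ct2_real_smul, ct2_real_smul, ← el_smul, smul_zero]

/-- `a ↦ a ⊗ 1` modulo `R_+` -/
noncomputable def ct2_psi (s : Fin n × Fin n) (O : Obj n) : O.M →ₗ[ℝ] (theta s O).Qt :=
  (((theta s O).MRp.restrictScalars ℝ).mkQ).comp (ct2_elL s O)

theorem ct2_psi_apply {O : Obj n} (a : O.M) :
    ct2_psi s O a = ((theta s O).MRp.restrictScalars ℝ).mkQ (el s a 0) := rfl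

theorem ct2_psi_zero {O : Obj n} (hs : s.1 ≠ s.2) (a : O.M) :
    ct2_psi s O a = 0 ↔ a ∈ O.MRs s := by
  rw [ct2_psi_apply, Submodule.mkQ_apply, Submodule.Quotient.mk_eq_zero,
    Submodule.restrictScalars_mem, el_mem_MRp hs]

theorem ct2_psi_el {O : Obj n} (hs : s.1 ≠ s.2) (a b : O.M) :
    ((theta s O).MRp.restrictScalars ℝ).mkQ (el s a b) = ct2_psi s O a := by
  rw [ct2_psi_apply, ← sub_eq_zero, ← map_sub]
  have h : el s a b - el s a 0 = el s 0 b := by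
    have := el_add (s := s) a 0 0 b
    rw [add_zero, zero_add] at this
    rw [this, add_sub_cancel_left]
  rw [h, Submodule.mkQ_apply, Submodule.Quotient.mk_eq_zero, Submodule.restrictScalars_mem,
    el_mem_MRp hs]
  exact zero_mem _

theorem ct2_psi_congr {O : Obj n} (hs : s.1 ≠ s.2) {a b : O.M} (h : a - b ∈ O.MRs s) :
    ct2_psi s O a = ct2_psi s O b := by
  rw [← sub_eq_zero, ← map_sub, ct2_psi_zero hs]
  exact h

theorem ct2_psi_al_congr {O : Obj n} (hO : Nice κ O) (hs : Smp κ s) {a b : O.M}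
    (h : a - b ∈ O.MRp) :
    ct2_psi s O (O.rmul (al 1 s) a) = ct2_psi s O (O.rmul (al 1 s) b) := by
  apply ct2_psi_congr hs.1.ne
  rw [← map_sub, MRs_al_iff hO hs]
  exact h

theorem ct2_rho_dec (hs : Smp κ s) : ∃ (c : ℝ) (u : Rg n), 0 < c ∧ act (sw s) u = u ∧
    constantCoeff u = 0 ∧ rho n = u + C c * al 1 s := by
  have hs' : s.1 ≠ s.2 := hs.1.ne
  obtain ⟨u, v, hu, _, huv, hvd, _⟩ := dem_decomp hs' (rho n)
  have h1 := dem_act_rho hs' 1
  rw [inv_one, act_one] at h1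
  rw [h1, ← C_mul] at hvd
  refine ⟨1 / 2 * ((((1 : Pm n) s.2 : Fin n) : ℝ) - (((1 : Pm n) s.1 : Fin n) : ℝ)), u, ?_, hu,
    ?_, ?_⟩
  · have h2 : ((s.1 : ℕ) : ℝ) < ((s.2 : ℕ) : ℝ) := by
      exact_mod_cast hs.1
    simp only [Equiv.Perm.coe_one, id_eq]
    linarith
  · have h3 := congrArg constantCoeff huv
    have h4 : constantCoeff (rho n) = (0 : ℝ) := by
      simp [rho]
    have h5 : constantCoeff (al 1 s : Rg n) = (0 : ℝ) := by
      simp [al]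
    rw [h4, map_add, map_mul, h5, mul_zero, add_zero] at h3
    exact h3.symm
  · rw [huv, hvd]

/-! ### the isomorphism `V × V ≃ θ_s O / R_+` -/

/-- `(v₀, v₁) ↦ (σ v₀ + (σ v₁) α) ⊗ 1` -/
noncomputable def ct2_Phi (s : Fin n × Fin n) (O : Obj n) (σ : O.Qt →ₗ[ℝ] O.M) :
    O.Qt × O.Qt →ₗ[ℝ] (theta s O).Qt :=
  ((ct2_psi s O).comp σ).comp (LinearMap.fst ℝ O.Qt O.Qt) +
    ((ct2_psi s O).comp (((O.rmul (al 1 s)).restrictScalars ℝ).comp σ)).comp
      (LinearMap.snd ℝ O.Qt O.Qt)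

theorem ct2_Phi_apply {O : Obj n} (σ : O.Qt →ₗ[ℝ] O.M) (v : O.Qt × O.Qt) :
    ct2_Phi s O σ v = ct2_psi s O (σ v.1) + ct2_psi s O (O.rmul (al 1 s) (σ v.2)) := rfl

theorem ct2_Phi_apply' {O : Obj n} (σ : O.Qt →ₗ[ℝ] O.M) (v : O.Qt × O.Qt) :
    ct2_Phi s O σ v = ct2_psi s O (σ v.1 + O.rmul (al 1 s) (σ v.2)) := by
  rw [ct2_Phi_apply, map_add]

theorem ct2_q_zero {O : Obj n} (m : O.M) :
    (O.MRp.restrictScalars ℝ).mkQ m = 0 ↔ m ∈ O.MRp := by
  rw [Submodule.mkQ_apply, Submodule.Quotient.mk_eq_zero, Submodule.restrictScalars_mem]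

theorem ct2_sub_section {O : Obj n} (σ : O.Qt →ₗ[ℝ] O.M)
    (hσ : ∀ v, (O.MRp.restrictScalars ℝ).mkQ (σ v) = v) (m : O.M) :
    m - σ ((O.MRp.restrictScalars ℝ).mkQ m) ∈ O.MRp := by
  rw [← ct2_q_zero, map_sub, hσ, sub_self]

theorem ct2_Phi_inj {O : Obj n} (hO : Nice κ O) (hs : Smp κ s) (σ : O.Qt →ₗ[ℝ] O.M)
    (hσ : ∀ v, (O.MRp.restrictScalars ℝ).mkQ (σ v) = v) :
    Function.Injective (ct2_Phi s O σ) := by
  rw [injective_iff_map_eq_zero]
  rintro ⟨v₀, v₁⟩ h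
  rw [ct2_Phi_apply', ct2_psi_zero hs.1.ne] at h
  simp only at h
  have h1 := ct2_MRs_le h
  have hal : constantCoeff (al 1 s : Rg n) = 0 := by simp [al]
  have h2 : v₀ = 0 := by
    rw [← ct2_q_zero, map_add, hσ] at h1
    rw [(ct2_q_zero (O := O) (O.rmul (al 1 s) (σ v₁))).2 (mem_MRp_of_rmul hal _), add_zero] at h1
    exact h1
  subst h2
  rw [map_zero, zero_add, MRs_al_iff hO hs, ← ct2_q_zero, hσ] at h
  rw [h]
  rfl

/-- if `m - σ (q a)`... : decomposition of `ψ m` -/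
theorem ct2_psi_eq_Phi {O : Obj n} (hO : Nice κ O) (hs : Smp κ s) (σ : O.Qt →ₗ[ℝ] O.M)
    (hσ : ∀ v, (O.MRp.restrictScalars ℝ).mkQ (σ v) = v) {m m₁ : O.M}
    (h : m - σ ((O.MRp.restrictScalars ℝ).mkQ m) - O.rmul (al 1 s) m₁ ∈ O.MRs s) :
    ct2_psi s O m = ct2_Phi s O σ
      ((O.MRp.restrictScalars ℝ).mkQ m, (O.MRp.restrictScalars ℝ).mkQ m₁) := by
  rw [ct2_Phi_apply]
  simp only
  rw [← ct2_psi_al_congr hO hs (ct2_sub_section σ hσ m₁), ← map_add]
  apply ct2_psi_congr hs.1.ne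
  convert h using 1
  abel

theorem ct2_Phi_surj {O : Obj n} (hO : Nice κ O) (hs : Smp κ s) (σ : O.Qt →ₗ[ℝ] O.M)
    (hσ : ∀ v, (O.MRp.restrictScalars ℝ).mkQ (σ v) = v) :
    Function.Surjective (ct2_Phi s O σ) := by
  intro w
  obtain ⟨m, rfl⟩ := Submodule.mkQ_surjective _ w
  obtain ⟨a, b, rfl⟩ := el_surj m
  rw [ct2_psi_el hs.1.ne]
  obtain ⟨m₁, hm₁⟩ := ct2_MRp_dec hs.1.ne (ct2_sub_section σ hσ a)
  exact ⟨_, (ct2_psi_eq_Phi hO hs σ hσ hm₁).symm⟩

theorem ct2_Phi_grade {O : Obj n} (hO : Nice κ O) (hs : Smp κ s) (σ : O.Qt →ₗ[ℝ] O.M)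
    (hσ : ∀ v, (O.MRp.restrictScalars ℝ).mkQ (σ v) = v)
    (hσd : ∀ i, ∀ v ∈ O.Qi i, σ v ∈ O.dg i) (i : ℕ) (u : O.Qt × O.Qt) :
    u ∈ tensVi O.Qi i ↔ ct2_Phi s O σ u ∈ (theta s O).Qi i := by
  have hs' := hs.1.ne
  cases i with
  | zero =>
    constructor
    · intro hu
      obtain ⟨h0, h1⟩ := hu
      change u.1 ∈ O.Qi 0 at h0
      change u.2 ∈ (⊥ : Submodule ℝ O.Qt) at h1
      rw [Submodule.mem_bot] at h1
      refine ⟨el s (σ u.1) 0, ?_, ?_⟩
      · exact (el_mem_dg0 hs' _ _).2 ⟨hσd 0 _ h0, rfl⟩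
      · rw [ct2_Phi_apply, h1, map_zero, map_zero, map_zero, add_zero]
        rfl
    · rintro ⟨m, hm, hmu⟩
      obtain ⟨a, b, rfl⟩ := el_surj m
      obtain ⟨ha, hb⟩ := (el_mem_dg0 hs' a b).1 hm
      rw [ct2_psi_el hs'] at hmu
      have h1 : a - σ ((O.MRp.restrictScalars ℝ).mkQ a) = 0 := by
        apply dg_zero_MRp _ (ct2_sub_section σ hσ a)
        exact Submodule.sub_mem _ ha (hσd 0 _ ⟨a, ha, rfl⟩)
      have h2 := ct2_psi_eq_Phi hO hs σ hσ (m := a) (m₁ := 0) (by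
        rw [h1, map_zero, sub_zero]; exact zero_mem _)
      rw [h2] at hmu
      rw [← ct2_Phi_inj hO hs σ hσ hmu]
      exact ⟨⟨a, ha, rfl⟩, by simp⟩
  | succ i =>
    constructor
    · rintro ⟨h0, h1⟩
      change u.1 ∈ O.Qi (i + 1) at h0
      change u.2 ∈ O.Qi i at h1
      refine ⟨el s (σ u.1 + O.rmul (al 1 s) (σ u.2)) 0, ?_, ?_⟩
      · refine (el_mem_dg hs' _ _ i).2 ⟨?_, zero_mem _⟩
        refine Submodule.add_mem _ (hσd _ _ h0) ?_
        intro j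
        have h3 := (act_homog (w := O.π j) (al_homog 1 s)).mul (hσd i _ h1 j)
        rw [add_comm] at h3
        exact h3
      · rw [ct2_Phi_apply']
        rfl
    · rintro ⟨m, hm, hmu⟩
      obtain ⟨a, b, rfl⟩ := el_surj m
      obtain ⟨ha, hb⟩ := (el_mem_dg hs' a b i).1 hm
      rw [ct2_psi_el hs'] at hmu
      obtain ⟨a₁, ha₁, h1⟩ := MRs_al hO hs (ct2_sub_section σ hσ a) (i := i)
        (Submodule.sub_mem _ ha (hσd _ _ ⟨a, ha, rfl⟩))
      rw [ct2_psi_eq_Phi hO hs σ hσ h1] at hmu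
      rw [← ct2_Phi_inj hO hs σ hσ hmu]
      exact ⟨⟨a, ha, rfl⟩, ⟨a₁, ha₁, rfl⟩⟩

/-! ### Lemma A -/

/-- Lemma A -/
theorem theta_HR_large {O : Obj n} (hO : Nice κ O) {d : ℕ} (Fm : Frm O d)
    (hHR : HRop O d Fm.F (Lrho O)) (hs : Smp κ s)
    (G : Frm (theta s O) (d + 1)) (hG : IsThetaFrm s Fm G)
    (T : (theta s O).M →ₗ[ℝ] (theta s O).M) (hT : IsMid s O T) :
    ∃ Z : ℝ, 0 ≤ Z ∧ ∀ ζ : ℝ, Z ≤ ζ →
      HRop (theta s O) (d + 1) G.F (Lrho (theta s O) + ζ • T) := by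
  have hs' : s.1 ≠ s.2 := hs.1.ne
  have hfin : FiniteDimensional ℝ O.Qt := Qt_finite hO
  obtain ⟨Fq, Lq, ⟨hFq, hLq⟩, hLef, hHRiff, _⟩ := exists_quot hO Fm (Lrho O) (AdmOp_rho Fm)
  have hHR' := hHRiff.1 hHR
  obtain ⟨σ, hσ, hσd⟩ := ct2_section hO Fm
  obtain ⟨c, u, hc, hu, hu0, hrho⟩ := ct2_rho_dec hs
  set Φ : (O.Qt × O.Qt) ≃ₗ[ℝ] (theta s O).Qt :=
    LinearEquiv.ofBijective (ct2_Phi s O σ) ⟨ct2_Phi_inj hO hs σ hσ, ct2_Phi_surj hO hs σ hσ⟩
    with hΦ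
  have hΦa : ∀ v, Φ v = ct2_Phi s O σ v := fun v => rfl
  -- the operator `τ`
  set τ : O.Qt →ₗ[ℝ] O.Qt := (LinearMap.snd ℝ O.Qt O.Qt).comp
    ((Φ.symm : (theta s O).Qt →ₗ[ℝ] O.Qt × O.Qt).comp
      ((ct2_psi s O).comp ((Lrho O).comp σ - σ.comp Lq))) with hτ
  have hτa : ∀ v, τ v = (Φ.symm (ct2_psi s O (Lrho O (σ v) - σ (Lq v)))).2 := fun v => rfl
  -- `q (ρ σ v) = Lq v`
  have hq1 : ∀ v, (O.MRp.restrictScalars ℝ).mkQ (Lrho O (σ v)) = Lq v := by
    intro v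
    rw [← hLq, hσ]
  have hmem : ∀ v, Lrho O (σ v) - σ (Lq v) ∈ O.MRp := by
    intro v
    have := ct2_sub_section σ hσ (Lrho O (σ v))
    rwa [hq1] at this
  have hq0 : ∀ v, (O.MRp.restrictScalars ℝ).mkQ (Lrho O (σ v) - σ (Lq v)) = 0 := fun v =>
    (ct2_q_zero _).2 (hmem v)
  -- `ψ` of an element of `MRp`
  have hkey : ∀ v (m₁ : O.M),
      (Lrho O (σ v) - σ (Lq v)) - O.rmul (al 1 s) m₁ ∈ O.MRs s →
      ct2_psi s O (Lrho O (σ v) - σ (Lq v)) = Φ (0, (O.MRp.restrictScalars ℝ).mkQ m₁) := by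
    intro v m₁ h
    rw [hΦa]
    have := ct2_psi_eq_Phi hO hs σ hσ (m := Lrho O (σ v) - σ (Lq v)) (m₁ := m₁) (by
      rw [hq0, map_zero, sub_zero]; exact h)
    rw [this, hq0]
  have hτΦ : ∀ v, ct2_psi s O (Lrho O (σ v) - σ (Lq v)) = Φ (0, τ v) := by
    intro v
    obtain ⟨m₁, hm₁⟩ := ct2_MRp_dec hs' (hmem v)
    rw [hτa, hkey v m₁ hm₁, LinearEquiv.symm_apply_apply]
  have hτd : ∀ i, ∀ v ∈ O.Qi i, τ v ∈ O.Qi i := by
    intro i v hv
    have hdeg : Lrho O (σ v) - σ (Lq v) ∈ O.dg (i + 1) :=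
      Submodule.sub_mem _ ((AdmOp_rho Fm).deg i _ (hσd i v hv)) (hσd _ _ (hLef.deg i v hv))
    obtain ⟨m₁, hm₁d, hm₁⟩ := MRs_al hO hs (hmem v) hdeg
    rw [hτa, hkey v m₁ hm₁, LinearEquiv.symm_apply_apply]
    exact ⟨m₁, hm₁d, rfl⟩
  -- the form `K`
  have hdem0 : dem s (0 : Rg n) = 0 := by
    have := dem_smul hs' 0 (0 : Rg n)
    simpa using this
  set K : O.Qt →ₗ[ℝ] O.Qt →ₗ[ℝ] ℝ := LinearMap.mk₂ ℝ
    (fun v w => constantCoeff (dem s (Fm.F (σ v) (σ w))))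
    (by intro a b c; simp only [map_add, LinearMap.add_apply, dem_add hs'])
    (by
      intro r a b
      simp only [map_smul, LinearMap.smul_apply, dem_smul hs', smul_eq_mul]
      rw [MvPolynomial.smul_eq_C_mul, map_mul, constantCoeff_C])
    (by intro a b c; simp only [map_add, dem_add hs'])
    (by
      intro r a b
      simp only [map_smul, dem_smul hs', smul_eq_mul]
      rw [MvPolynomial.smul_eq_C_mul, map_mul, constantCoeff_C]) with hK
  have hKa : ∀ v w, K v w = constantCoeff (dem s (Fm.F (σ v) (σ w))) := fun v w => rfl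
  have hal0 : constantCoeff (al 1 s : Rg n) = 0 := by simp [al]
  have hright' : ∀ (f : Rg n) (a b : O.M), Fm.F a (O.rmul f b) = f * Fm.F a b := by
    intro f a b
    rw [Fm.symm, Fm.right, Fm.symm]
  have hFq' : ∀ v w, Fq v w = constantCoeff (Fm.F (σ v) (σ w)) := by
    intro v w
    rw [← hFq, hσ, hσ]
  -- the quotient of `θ_s O`
  have hOθ : Nice κ (theta s O) := hO.theta hs
  have hquot := fun ζ : ℝ => exists_quot hOθ G (Lrho (theta s O) + ζ • T)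
    (AdmOp_theta Fm hs' G hG T hT ζ)
  have hmain : ∀ ζ : ℝ, ∃ (Fq' : (theta s O).Qt →ₗ[ℝ] (theta s O).Qt →ₗ[ℝ] ℝ)
      (Lq' : (theta s O).Qt →ₗ[ℝ] (theta s O).Qt),
      (∀ v, Lq' (Φ v) = Φ (tensL Lq (τ + (ζ * c) • LinearMap.id) v)) ∧
      (∀ v w, Fq' (Φ v) (Φ w) = tensF Fq K v w) ∧
      LefSp (theta s O).Qi (d + 1) Lq' Fq' ∧
      (HRop (theta s O) (d + 1) G.F (Lrho (theta s O) + ζ • T) ↔
        HRie (theta s O).Qi (d + 1) Lq' Fq') := by
    intro ζ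
    obtain ⟨Fq', Lq', ⟨hFq1, hLq1⟩, hLef1, hHR1, _⟩ := hquot ζ
    refine ⟨Fq', Lq', ?_, ?_, hLef1, hHR1⟩
    · intro v
      rw [hΦa, ct2_Phi_apply', ct2_psi_apply, hLq1]
      set a : O.M := σ v.1 + O.rmul (al 1 s) (σ v.2) with ha
      have e1 : (Lrho (theta s O) + ζ • T) (el s a 0) =
          el s (Lrho O a + ζ • O.rmul (rho n) a) 0 := by
        rw [LinearMap.add_apply, LinearMap.smul_apply, hT a 0, map_zero]
        have e2 : Lrho (theta s O) (el s a 0) = el s (Lrho O a) 0 := by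
          change rho n • el s a 0 = el s (rho n • a) 0
          rw [← el_smul, smul_zero]
        have e3 : ζ • el s (O.rmul (rho n) a) (0 : O.M) = el s (ζ • O.rmul (rho n) a) 0 :=
          ((ct2_elL s O).map_smul ζ (O.rmul (rho n) a)).symm
        rw [e2, e3]
        exact ((ct2_elL s O).map_add (Lrho O a) (ζ • O.rmul (rho n) a)).symm
      rw [e1, ← ct2_psi_apply, map_add, map_smul]
      -- right multiplication by rho
      have e4 : ct2_psi s O (O.rmul (rho n) a) = c • ct2_psi s O (O.rmul (al 1 s) (σ v.1)) := by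
        rw [← map_smul]
        apply ct2_psi_congr hs'
        have : O.rmul (rho n) a - c • O.rmul (al 1 s) (σ v.1) =
            O.rmul u a + O.rmul (al 1 s * al 1 s) (c • σ v.2) := by
          rw [hrho]
          ext1; funext i
          simp only [ha, Submodule.coe_sub, Submodule.coe_add, Pi.sub_apply, Pi.add_apply,
            Obj.rmul_val, map_mul, map_add, act_C, ct2_real_smul, Submodule.coe_smul,
            Pi.smul_apply, smul_eq_mul]
          ring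
        rw [this]
        refine Submodule.add_mem _ (ct2_MRs_rmul hu hu0 _) (ct2_MRs_rmul ?_ ?_ _)
        · rw [map_mul, act_sw_al]; ring
        · rw [map_mul, hal0, mul_zero]
      -- left multiplication by rho
      have e5 : Lrho O a = Lrho O (σ v.1) + O.rmul (al 1 s) (Lrho O (σ v.2)) := by
        change rho n • a = rho n • σ v.1 + O.rmul (al 1 s) (rho n • σ v.2)
        rw [ha, smul_add, map_smul]
      have e6 : ct2_psi s O (Lrho O (σ v.1)) = ct2_psi s O (σ (Lq v.1)) + Φ (0, τ v.1) := by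
        rw [← hτΦ, map_sub]; abel
      have e7 : ct2_psi s O (O.rmul (al 1 s) (Lrho O (σ v.2))) =
          ct2_psi s O (O.rmul (al 1 s) (σ (Lq v.2))) :=
        ct2_psi_al_congr hO hs (hmem v.2)
      rw [e4, e5, map_add, e6, e7, hΦa, hΦa, ct2_Phi_apply, ct2_Phi_apply, tensL_apply]
      simp only [map_zero, zero_add, map_add, LinearMap.add_apply, LinearMap.smul_apply,
        LinearMap.id_apply]
      have e8 : ct2_psi s O (O.rmul (al 1 s) (σ ((ζ * c) • v.1))) =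
          ζ • c • ct2_psi s O (O.rmul (al 1 s) (σ v.1)) := by
        rw [map_smul, ← mul_smul]
        rw [show O.rmul (al 1 s) ((ζ * c) • σ v.1) = (ζ * c) • O.rmul (al 1 s) (σ v.1) by
          rw [ct2_real_smul, map_smul, ← ct2_real_smul]]
        rw [map_smul]
      rw [e8]
      abel
    · intro v w
      rw [hΦa, hΦa, ct2_Phi_apply', ct2_Phi_apply', ct2_psi_apply, ct2_psi_apply, hFq1, hG]
      rw [map_zero, LinearMap.map_zero, LinearMap.map_zero, LinearMap.zero_apply, hdem0]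
      rw [tensF_apply, hKa, hFq', hFq']
      have e1 : Fm.F (σ v.1 + O.rmul (al 1 s) (σ v.2)) (σ w.1 + O.rmul (al 1 s) (σ w.2)) =
          Fm.F (σ v.1) (σ w.1) + al 1 s * (Fm.F (σ v.1) (σ w.2) + Fm.F (σ v.2) (σ w.1) +
            al 1 s * Fm.F (σ v.2) (σ w.2)) := by
        simp only [map_add, LinearMap.add_apply, Fm.right, hright']
        ring
      rw [e1, dem_add hs']
      simp only [map_add, map_mul, hal0, zero_mul, add_zero, constantCoeff_dem_al_mul hs']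
  have hLS : ∀ ζ : ℝ, LefSp (tensVi O.Qi) (d + 1)
      (tensL Lq (τ + (ζ * c) • LinearMap.id)) (tensF Fq K) := by
    intro ζ
    obtain ⟨Fq', Lq', h1, h2, h3, _⟩ := hmain ζ
    exact ct2_LefSp Φ (ct2_Phi_grade hO hs σ hσ hσd) h1 h2 h3
  obtain ⟨Z, hZ, hlarge⟩ := HRie_large hLef hHR' c hc hτd (fun ζ _ => hLS ζ)
  refine ⟨Z, hZ, ?_⟩
  intro ζ hζ
  obtain ⟨Fq', Lq', h1, h2, h3, h4⟩ := hmain ζ
  rw [h4]
  exact ct2_HRie Φ (ct2_Phi_grade hO hs σ hσ hσd) h1 h2 (hlarge ζ hζ)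

end KLFin
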