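import Mathlib
import Pool.Agent.KLFin.CDefs2
import Pool.Agent.KLFin.RD1

/-! # Part C, block RD2 (MP_d9d356_co): `M_Ω ∩ M R_+ = M_Ω R_+`  (helper48) -/

open MvPolynomial

namespace KLFin

variable {n : ℕ} {κ : Fin n → ℕ}

/-- homogeneous component of an element of `O.M` -/
noncomputable def rd2hc (O : Obj n) (d : ℕ) (m : O.M) : O.M :=
  ⟨fun i => homogeneousComponent d (m.1 i), O.graded m.1 m.2 d⟩

theorem rd2hc_mem (O : Obj n) (d : ℕ) (m : O.M) : rd2hc O d m ∈ O.dg d := by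
  intro i
  exact homogeneousComponent_isHomogeneous d _

theorem rd2hc_rmul (O : Obj n) (d : ℕ) (j : Fin n) (m : O.M) :
    rd2hc O (d + 1) (O.rmul (X j) m) = O.rmul (X j) (rd2hc O d m) := by
  ext1
  funext i
  simp only [rd2hc, Obj.rmul_val, act_X]
  exact hcomp_mul_succ (isHomogeneous_X _ _) _ _

theorem rd2hc_sum (O : Obj n) (d : ℕ) {ι : Type*} (s : Finset ι) (f : ι → O.M) :
    rd2hc O d (∑ k ∈ s, f k) = ∑ k ∈ s, rd2hc O d (f k) := by
  ext1
  funext i
  simp [rd2hc, Finset.sum_apply]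

theorem rd2hc_eq (O : Obj n) (d : ℕ) {m : O.M} (hm : m ∈ O.dg d) : rd2hc O d m = m := by
  ext1
  funext i
  simp only [rd2hc]
  rw [homogeneousComponent_of_mem (hm i), if_pos rfl]

theorem rd2_mem_MRp {O : Obj n} {m : O.M} (hR : m ∈ O.MRp) :
    ∃ g : Fin n → O.M, m = ∑ j, O.rmul (X j) (g j) := by
  classical
  unfold Obj.MRp at hR
  refine Submodule.iSup_induction (motive := fun m => ∃ g : Fin n → O.M,
    m = ∑ j, O.rmul (X j) (g j)) _ hR ?_ ?_ ?_
  · rintro j _ ⟨a, rfl⟩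
    refine ⟨fun k => if k = j then a else 0, ?_⟩
    rw [Finset.sum_eq_single j]
    · simp
    · intro b _ hb; simp [hb]
    · intro hj; exact absurd (Finset.mem_univ _) hj
  · exact ⟨fun _ => 0, by simp⟩
  · rintro x y ⟨a, rfl⟩ ⟨b, rfl⟩
    exact ⟨fun j => a j + b j, by simp [Finset.sum_add_distrib]⟩

theorem rd2_rmul_sum (O : Obj n) {ι : Type*} (s : Finset ι) (f : ι → Rg n) (m : O.M) :
    O.rmul (∑ k ∈ s, f k) m = ∑ k ∈ s, O.rmul (f k) m := by
  classical
  induction s using Finset.induction_on with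
  | empty => ext1; funext i; simp
  | insert a s ha ih => rw [Finset.sum_insert ha, Finset.sum_insert ha, O.rmul_add, ih]

/-- `M_Ω ∩ M R_+ = M_Ω R_+` for lower sets `Ω` -/
theorem Nice.sec_MRp {O : Obj n} (h : Nice κ O) {Ω : Set (Pm n)} (hΩ : Low (Up κ) Ω) {d : ℕ}
    {m : O.M} (hmd : m ∈ O.dg (d + 1)) (hm : ∀ i, O.π i ∉ Ω → m.1 i = 0) (hR : m ∈ O.MRp) :
    ∃ g : Fin n → O.M, (∀ j, g j ∈ O.dg d) ∧ (∀ j, ∀ i, O.π i ∉ Ω → (g j).1 i = 0) ∧
      m = ∑ j, O.rmul (X j) (g j) := by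
  classical
  obtain ⟨A, B, u, e, hue, hspan, hind, hsupp, hsec⟩ := h.adapted_basis hΩ
  obtain ⟨g, hg⟩ := rd2_mem_MRp hR
  choose f hf using fun j => hspan (g j)
  obtain ⟨F, hF⟩ := hsec m hm
  have key : ∀ k : Fin A ⊕ Fin B,
      (Sum.elim F (fun _ => 0) k - ∑ j, X j * f j k : Rg n) = 0 := by
    apply hind
    have h1 : m = ∑ k, O.rmul (Sum.elim F (fun _ => (0 : Rg n)) k) (u k) := by
      rw [Fintype.sum_sum_type]
      simp only [Sum.elim_inl, Sum.elim_inr]
      rw [← hF]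
      have : ∑ x : Fin B, O.rmul (0 : Rg n) (u (Sum.inr x)) = 0 := by
        apply Finset.sum_eq_zero
        intro x _
        ext1; funext i; simp
      rw [this, add_zero]
    have h2 : m = ∑ k, O.rmul (∑ j, X j * f j k) (u k) := by
      rw [hg]
      have : ∀ j, O.rmul (X j) (g j) = ∑ k, O.rmul (X j * f j k) (u k) := by
        intro j
        conv_lhs => rw [hf j, map_sum]
        exact Finset.sum_congr rfl fun k _ => (O.rmul_mul _ _ _).symm
      rw [Finset.sum_congr rfl fun j _ => this j, Finset.sum_comm]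
      exact Finset.sum_congr rfl fun k _ => (rd2_rmul_sum O _ _ _).symm
    have h3 : ∀ k, O.rmul (Sum.elim F (fun _ => 0) k - ∑ j, X j * f j k : Rg n) (u k) =
        O.rmul (Sum.elim F (fun _ => 0) k) (u k) - O.rmul (∑ j, X j * f j k) (u k) := by
      intro k
      ext1; funext i; simp [sub_mul]
    rw [Finset.sum_congr rfl fun k _ => h3 k, Finset.sum_sub_distrib, ← h1, ← h2, sub_self]
  refine ⟨fun j => rd2hc O d (∑ k, O.rmul (f j (Sum.inl k)) (u (Sum.inl k))),
    fun j => rd2hc_mem _ _ _, ?_, ?_⟩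
  · intro j i hi
    have : (∑ k, O.rmul (f j (Sum.inl k)) (u (Sum.inl k))).1 i = 0 := by
      rw [AddSubmonoidClass.coe_finsetSum, Finset.sum_apply]
      apply Finset.sum_eq_zero
      intro k _
      rw [Obj.rmul_val, hsupp k i hi, mul_zero]
    simp only [rd2hc]
    rw [this, map_zero]
  · have h4 : m = ∑ j, O.rmul (X j) (∑ k, O.rmul (f j (Sum.inl k)) (u (Sum.inl k))) := by
      conv_lhs => rw [hF]
      have : ∀ k, O.rmul (F k) (u (Sum.inl k)) = ∑ j, O.rmul (X j * f j (Sum.inl k)) (u (Sum.inl k)) := by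
        intro k
        have := key (Sum.inl k)
        rw [Sum.elim_inl, sub_eq_zero] at this
        rw [this, rd2_rmul_sum]
      rw [Finset.sum_congr rfl fun k _ => this k, Finset.sum_comm]
      refine Finset.sum_congr rfl fun j _ => ?_
      rw [map_sum]
      exact Finset.sum_congr rfl fun k _ => O.rmul_mul _ _ _
    calc m = rd2hc O (d + 1) m := (rd2hc_eq O _ hmd).symm
      _ = _ := by
        conv_lhs => rw [h4]
        rw [rd2hc_sum]
        exact Finset.sum_congr rfl fun j _ => rd2hc_rmul O d j _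

end KLFin
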