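import Mathlib
import Pool.Agent.KLFin.CDefs2
import Pool.Agent.KLFin.CB1
import Pool.Agent.KLFin.GF1
import Pool.Agent.KLFin.ST1

/-!
# KL-ST2: characters of `θ_s O` (MP_d9d356_co)
-/

open MvPolynomial

namespace KLFin

variable {n : ℕ} {κ : Fin n → ℕ}

/-! ## proofs -/

theorem Obj.Dsub_eq_bot (O : Obj n) (r : Pm n → Pm n → Prop) {y : Pm n}
    (h : ∀ i, O.π i ≠ y) : O.Dsub r y = ⊥ := by
  rw [eq_bot_iff]
  rintro _ ⟨m, -, rfl⟩
  rw [Submodule.mem_bot]
  funext i
  simp [Obj.res, h i]

theorem Obj.Dsub_eq_bot' (O : Obj n) (hW : ∀ i, InW κ (O.π i)) (r : Pm n → Pm n → Prop) {y : Pm n}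
    (hy : ¬ InW κ y) : O.Dsub r y = ⊥ :=
  O.Dsub_eq_bot r (fun i hi => by subst hi; exact hy (hW i))

theorem reflect_succ_X_mul {N : ℕ} {g : Polynomial ℕ} (hg : g.natDegree ≤ N) :
    (Polynomial.X * g).reflect (N + 1) = g.reflect N := by
  have h1 : (Polynomial.X : Polynomial ℕ).reflect 1 = 1 := by
    have := Polynomial.reflect_monomial (R := ℕ) 1 1
    rw [pow_one] at this
    rw [this, Polynomial.revAt_le (le_refl 1)]
    simp
  rw [add_comm N 1, Polynomial.reflect_mul _ _ Polynomial.natDegree_X_le hg, h1, one_mul]

theorem reflect_succ {N : ℕ} {g : Polynomial ℕ} (hg : g.natDegree ≤ N) :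
    g.reflect (N + 1) = Polynomial.X * g.reflect N := by
  have h1 : (1 : Polynomial ℕ).reflect 1 = Polynomial.X := by
    have := Polynomial.reflect_monomial (R := ℕ) 1 0
    rw [pow_zero] at this
    rw [this, Polynomial.revAt_le (Nat.zero_le 1)]
    simp
  have h2 := Polynomial.reflect_mul (1 : Polynomial ℕ) g (F := 1) (G := N) (by simp) hg
  rw [one_mul, h1] at h2
  rw [add_comm N 1, h2]

/-- the two cases of the definition -/
theorem InW.cases_sw {y : Pm n} (hy : InW κ y) {s : Fin n × Fin n} (hs : Smp κ s) :
    Up κ y (y * sw s) ∨ Up κ (y * sw s) y := by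
  have hne : s.1 ≠ s.2 := ne_of_lt hs.1
  rcases lt_or_gt_of_ne (fun h => hne (y.injective h)) with h | h
  · exact Or.inl ((up_sw_iff hy hs).2 h)
  · exact Or.inr ((dn_sw_iff hy hs).2 h)

open Classical in
theorem CharRel.theta {O : Obj n} (hW : ∀ i, InW κ (O.π i)) {d : ℕ} {P : Pm n → Polynomial ℕ}
    (h : CharRel κ d O P) {s : Fin n × Fin n} (hs : Smp κ s) :
    CharRel κ (d + 1) (theta s O)
      (fun y => if Up κ y (y * sw s) then P y + Polynomial.X * P (y * sw s)
        else P (y * sw s) + Polynomial.X * P y) := by
  have hss : ∀ y : Pm n, y * sw s * sw s = y := by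
    intro y; rw [mul_assoc, sw_mul_sw, mul_one]
  -- the characters vanish outside of `W_κ`
  have hP0 : ∀ y, ¬ InW κ y → P y = 0 := by
    intro y hy
    have h1 := h.up y
    rw [O.Dsub_eq_bot' hW (Dn κ) hy] at h1
    have h2 := GF.unique h1 GF_bot
    by_contra h3
    exact (mul_ne_zero (pow_ne_zero _ Polynomial.X_ne_zero) h3) h2
  have hWs : ∀ y, InW κ (y * sw s) → InW κ y := by
    intro y hy
    have := hy.mul hs.inW
    rwa [hss] at this
  have hWt : ∀ i, InW κ ((KLFin.theta s O).π i) := by
    rintro ⟨i, b⟩
    cases b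
    · exact hW i
    · exact (hW i).mul hs.inW
  have hPs0 : ∀ y, ¬ InW κ y → P (y * sw s) = 0 := fun y hy => hP0 _ (fun h' => hy (hWs y h'))
  -- degrees
  have hdeg : ∀ y, P y = 0 ∨ len κ y + (P y).natDegree ≤ d := fun y => by
    by_cases hy : P y = 0
    · exact Or.inl hy
    · exact Or.inr (h.deg y hy)
  -- up and down cases give the two structure statements
  have hX : ∀ y, InW κ y → Up κ y (y * sw s) →
      (GF ((KLFin.theta s O).Dsub (Up κ) y) (Polynomial.X * ((P y).reflect (d - len κ y)
        + (P (y * sw s)).reflect (d - len κ (y * sw s)))) ∧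
      GF ((KLFin.theta s O).Dsub (Up κ) (y * sw s)) ((P y).reflect (d - len κ y)
        + (P (y * sw s)).reflect (d - len κ (y * sw s)))) ∧
      (GF ((KLFin.theta s O).Dsub (Dn κ) (y * sw s)) (Polynomial.X *
        (Polynomial.X ^ (len κ (y * sw s)) * P (y * sw s) + Polynomial.X ^ (len κ y) * P y)) ∧
      GF ((KLFin.theta s O).Dsub (Dn κ) y)
        (Polynomial.X ^ (len κ (y * sw s)) * P (y * sw s) + Polynomial.X ^ (len κ y) * P y)) := by
    intro y hy hu
    refine ⟨theta_GF (Or.inl rfl) O hW hs (fun y => (P y).reflect (d - len κ y)) h.lo hy hu, ?_⟩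
    have h2 := theta_GF (Or.inr rfl) O hW hs (fun y => Polynomial.X ^ (len κ y) * P y) h.up
      (hy.mul hs.inW) (by rw [hss]; exact hu)
    rw [hss] at h2
    exact h2
  -- the reflection identities, `y < y s`
  have hrefl : ∀ y, InW κ y → Up κ y (y * sw s) →
      (P y + Polynomial.X * P (y * sw s)).reflect (d + 1 - len κ y) =
        Polynomial.X * ((P y).reflect (d - len κ y)
          + (P (y * sw s)).reflect (d - len κ (y * sw s))) ∧
      (P y + Polynomial.X * P (y * sw s)).reflect (d + 1 - len κ (y * sw s)) =
        ((P y).reflect (d - len κ y) + (P (y * sw s)).reflect (d - len κ (y * sw s))) := by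
    intro y hy hu
    have hl := len_mul_sw hy hs hu
    rw [hl, Polynomial.reflect_add, Polynomial.reflect_add]
    constructor
    · rw [mul_add]
      congr 1
      · rcases hdeg y with h0 | h0
        · simp [h0]
        · rw [show d + 1 - len κ y = (d - len κ y) + 1 by omega]
          exact reflect_succ (by omega)
      · rcases hdeg (y * sw s) with h0 | h0
        · simp [h0]
        · rw [show d + 1 - len κ y = ((d - (len κ y + 1)) + 1) + 1 by omega,
            reflect_succ_X_mul (by omega)]
          exact reflect_succ (by omega)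
    · congr 1
      · rw [show d + 1 - (len κ y + 1) = d - len κ y by omega]
      · rcases hdeg (y * sw s) with h0 | h0
        · simp [h0]
        · rw [show d + 1 - (len κ y + 1) = (d - (len κ y + 1)) + 1 by omega]
          exact reflect_succ_X_mul (by omega)
  -- degree bound of the new characters
  have hdegP : ∀ y, InW κ y → Up κ y (y * sw s) → P y + Polynomial.X * P (y * sw s) ≠ 0 →
      len κ (y * sw s) + (P y + Polynomial.X * P (y * sw s)).natDegree ≤ d + 1 := by
    intro y hy hu hne
    have hl := len_mul_sw hy hs hu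
    have h1 := Polynomial.natDegree_add_le (P y) (Polynomial.X * P (y * sw s))
    rcases hdeg y with h0 | h0
    · rcases hdeg (y * sw s) with h0' | h0'
      · exact absurd (by simp [h0, h0']) hne
      · have h2 := Polynomial.natDegree_mul_le (p := Polynomial.X) (q := P (y * sw s))
        have h3 : (Polynomial.X : Polynomial ℕ).natDegree ≤ 1 := Polynomial.natDegree_X_le
        rw [h0, zero_add]
        omega
    · rcases hdeg (y * sw s) with h0' | h0'
      · rw [h0', mul_zero, add_zero]
        omega
      · have h2 := Polynomial.natDegree_mul_le (p := Polynomial.X) (q := P (y * sw s))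
        have h3 : (Polynomial.X : Polynomial ℕ).natDegree ≤ 1 := Polynomial.natDegree_X_le
        have h4 : max (P y).natDegree (Polynomial.X * P (y * sw s)).natDegree ≤
            max (P y).natDegree (1 + (P (y * sw s)).natDegree) := by
          apply max_le_max le_rfl
          omega
        have h5 : max (P y).natDegree (1 + (P (y * sw s)).natDegree) ≤ d - len κ y := by
          apply max_le <;> omega
        omega
  -- the value outside of `W_κ`
  have hout : ∀ y, ¬ InW κ y → (if Up κ y (y * sw s) then P y + Polynomial.X * P (y * sw s)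
        else P (y * sw s) + Polynomial.X * P y) = 0 := by
    intro y hy
    rw [hP0 y hy, hPs0 y hy]
    simp
  have hnot : ∀ y, InW κ y → Up κ (y * sw s) y → ¬ Up κ y (y * sw s) := by
    intro y hy h1 h2
    have h3 := (up_sw_iff hy hs).1 h2
    have h4 := (dn_sw_iff hy hs).1 h1
    exact absurd h3 (not_lt.2 h4.le)
  refine ⟨fun y => ?_, fun y => ?_, fun y => ?_⟩
  · -- up
    by_cases hy : InW κ y
    · rcases hy.cases_sw hs with hu | hu
      · have hl := len_mul_sw hy hs hu
        rw [if_pos hu]
        have := (hX y hy hu).2.2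
        rw [hl] at this
        convert this using 1
        ring
      · rw [if_neg (hnot y hy hu)]
        have hy' : InW κ (y * sw s) := hy.mul hs.inW
        have hu' : Up κ (y * sw s) (y * sw s * sw s) := by rw [hss]; exact hu
        have hl := len_mul_sw hy' hs hu'
        have := (hX _ hy' hu').2.1
        rw [hss] at this hl
        rw [hl] at this ⊢
        convert this using 1
        ring
    · rw [hout y hy, mul_zero, Obj.Dsub_eq_bot' _ hWt _ hy]
      exact GF_bot
  · -- lo
    by_cases hy : InW κ y
    · rcases hy.cases_sw hs with hu | hu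
      · rw [if_pos hu, (hrefl y hy hu).1]
        exact (hX y hy hu).1.1
      · rw [if_neg (hnot y hy hu)]
        have hy' : InW κ (y * sw s) := hy.mul hs.inW
        have hu' : Up κ (y * sw s) (y * sw s * sw s) := by rw [hss]; exact hu
        have h1 := (hrefl _ hy' hu').2
        have h2 := (hX _ hy' hu').1.2
        rw [hss] at h1 h2
        rw [h1]
        exact h2
    · rw [hout y hy, Polynomial.reflect_zero, Obj.Dsub_eq_bot' _ hWt _ hy]
      exact GF_bot
  · -- degrees
    intro hne
    by_cases hy : InW κ y
    · rcases hy.cases_sw hs with hu | hu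
      · rw [if_pos hu] at hne ⊢
        have := hdegP y hy hu hne
        have hl := len_mul_sw hy hs hu
        omega
      · rw [if_neg (hnot y hy hu)] at hne ⊢
        have hy' : InW κ (y * sw s) := hy.mul hs.inW
        have hu' : Up κ (y * sw s) (y * sw s * sw s) := by rw [hss]; exact hu
        have := hdegP _ hy' hu' (by rw [hss]; exact hne)
        rw [hss] at this
        exact this
    · exact absurd (hout y hy) hne

end KLFin
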