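import Mathlib
import Pool.Agent.KLFin.CDefs3
import Pool.Agent.KLFin.CB1
import Pool.Agent.KLFin.CE1
import Pool.Agent.KLFin.CB2
import Pool.Agent.KLFin.DC0

/-!
# Part C, block DC4: generator and support of `θ_s B_x` over `x s` (MP_d9d356_co)
-/

open MvPolynomial

namespace KLFin

variable {n : ℕ} {κ : Fin n → ℕ} {s : Fin n × Fin n}

/-- DC4: generator and support of `θ_s B_x` over `x s` -/
theorem theta_gen {x : Pm n} (hx : InW κ x) (hs : Smp κ s) (hup : Up κ x (x * sw s))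
    (B : KLObj κ x) :
    (∀ (m : (theta s B.O).M) (i : (theta s B.O).I),
      (theta s B.O).π i ∉ Le (Up κ) (x * sw s) → m.1 i = 0) ∧
    (∀ m : (theta s B.O).M, ∃ f : Rg n, ∀ i, (theta s B.O).π i = x * sw s →
      m.1 i = f * (el s B.b0 (0 : B.O.M)).1 i) ∧
    (el s B.b0 (0 : B.O.M) ∈ (theta s B.O).dg 0) ∧
    (∃ i, (theta s B.O).π i = x * sw s ∧ (el s B.b0 (0 : B.O.M)).1 i ≠ 0) := by
  have hne : s.1 ≠ s.2 := ne_of_lt hs.1
  have hlx : len κ x < len κ (x * sw s) := hup.len_lt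
  have hxs : x * sw s ∉ Le (Up κ) x := by
    intro h
    have := (Le_len h).1
    omega
  have hπ : ∀ i : (theta s B.O).I, (theta s B.O).π i = if i.2 then B.O.π i.1 * sw s
      else B.O.π i.1 := fun i => rfl
  refine ⟨?_, ?_, ?_, ?_⟩
  · intro m i hi
    obtain ⟨a, b, rfl⟩ := el_surj m
    have hi' : B.O.π i.1 ∉ Le (Up κ) x := by
      intro h
      apply hi
      rw [hπ]
      cases i.2
      · simpa using DC0.Le_sub hup h
      · simpa using DC0.Le_sub' hx hs hup h
    rw [el_val, B.supp a _ hi', B.supp b _ hi']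
    simp
  · intro m
    obtain ⟨a, b, rfl⟩ := el_surj m
    obtain ⟨f, hf⟩ := B.gen a
    obtain ⟨g, hg⟩ := B.gen b
    refine ⟨f + al (x * sw s) s * g, ?_⟩
    intro i hi
    rw [el_val, el_val, hi]
    rw [hπ] at hi
    cases hi2 : i.2
    · rw [hi2] at hi
      simp only [Bool.false_eq_true, if_false] at hi
      have hi' : B.O.π i.1 ∉ Le (Up κ) x := by rw [hi]; exact hxs
      rw [B.supp a _ hi', B.supp b _ hi', B.supp B.b0 _ hi']
      simp
    · rw [hi2] at hi
      simp only [if_true] at hi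
      have hi' : B.O.π i.1 = x := mul_right_cancel hi
      rw [hf _ hi', hg _ hi']
      simp
      ring
  · rw [el_mem_dg0 hne]
    exact ⟨B.b0_mem, rfl⟩
  · obtain ⟨i, hi, hi0⟩ := B.b0_ne
    refine ⟨(i, true), ?_, ?_⟩
    · change B.O.π i * sw s = x * sw s
      rw [hi]
    · change B.b0.1 i + al (B.O.π i * sw s) s * (0 : B.O.M).1 i ≠ 0
      have h0 : (0 : B.O.M).1 i = 0 := rfl
      rw [h0, mul_zero, add_zero]
      exact hi0

end KLFin
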