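import Mathlib
import Pool.Agent.KLFin.CS
import Pool.Agent.KLFin.GF1
import Pool.Agent.KLFin.FR2

/-!
# HV2: uniqueness of KL objects (MP_d9d356_co), with the two inputs (endomorphisms of degree `0`
are scalars, elements of degree `d+1` are in `O R_+`) as hypotheses
-/

open MvPolynomial

namespace KLFin

variable {n : ℕ} {κ : Fin n → ℕ}

theorem HV2.degMap_comp {O P Q : Obj n} {φ : O.M →ₗ[Rg n] P.M} {ψ : P.M →ₗ[Rg n] Q.M}
    (hφ : DegMap φ 0) (hψ : DegMap ψ 0) : DegMap (ψ.comp φ) 0 := by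
  intro i a ha
  refine ⟨fun j hj => ?_, fun h => ?_⟩
  · exact (hψ i (φ a) ((hφ i a ha).1 i (by simp))).1 j hj
  · omega

theorem HV2.biMap_comp {O P Q : Obj n} {φ : O.M →ₗ[Rg n] P.M} {ψ : P.M →ₗ[Rg n] Q.M}
    (hφ : BiMap φ) (hψ : BiMap ψ) : BiMap (ψ.comp φ) := by
  intro j m
  simp only [LinearMap.comp_apply]
  rw [hφ j m, hψ j (φ m)]

theorem HV2.C_smul (O : Obj n) (c : ℝ) (a : O.M) : (C c : Rg n) • a = c • a := by
  ext1
  funext i
  simp [MvPolynomial.smul_eq_C_mul]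

theorem HV2.biMap_smul {O P : Obj n} {φ : O.M →ₗ[Rg n] P.M} (hφ : BiMap φ) (c : Rg n) :
    BiMap (c • φ) := by
  intro j m
  simp only [LinearMap.smul_apply]
  rw [hφ j m, map_smul]

theorem HV2.degMap_smul {O P : Obj n} {φ : O.M →ₗ[Rg n] P.M} (hφ : DegMap φ 0) (c : ℝ) :
    DegMap ((C c : Rg n) • φ) 0 := by
  intro i a ha
  refine ⟨fun j hj => ?_, fun h => ?_⟩
  · simp only [LinearMap.smul_apply]
    rw [HV2.C_smul]
    exact (P.dg j).smul_mem c ((hφ i a ha).1 j hj)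
  · omega

theorem HV2.dg_zero_MRp {O : Obj n} {m : O.M} (hm : m ∈ O.dg 0) (h : m ∈ O.MRp) : m = 0 := by
  have h1 : ∀ m ∈ O.MRp, ∀ i, constantCoeff (m.1 i) = 0 := by
    intro m hm
    unfold Obj.MRp at hm
    induction hm using Submodule.iSup_induction' with
    | mem j x hx =>
        obtain ⟨y, rfl⟩ := hx
        intro i
        simp
    | zero => intro i; simp
    | add x y _ _ hx hy => intro i; simp [hx i, hy i]
  ext1
  funext i
  have h2 : (m.1 i).IsHomogeneous 0 := hm i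
  have h3 : m.1 i = C (constantCoeff (m.1 i)) := by
    have := homogeneousComponent_zero (m.1 i)
    rw [homogeneousComponent_of_mem h2, if_pos rfl] at this
    rw [this]
    simp
  rw [h3, h1 m h i]
  simp

theorem HV2.supp_map {O P : Obj n} {φ : O.M →ₗ[Rg n] P.M} (hφ : BiMap φ) {Ω : Set (Pm n)}
    {m : O.M} (hm : ∀ i, O.π i ∉ Ω → m.1 i = 0) : ∀ i, P.π i ∉ Ω → (φ m).1 i = 0 := by
  intro i hi
  refine hφ.vanish (y := P.π i) (fun k hk => hm k ?_) i rfl
  rw [hk]; exact hi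

/-- the map on stalks induced by a morphism -/
theorem HV2.exists_stalk {O P : Obj n} (φ : O.M →ₗ[Rg n] P.M) (hφ : BiMap φ)
    (r : Pm n → Pm n → Prop) (y : Pm n) :
    ∃ T : O.Dsub r y →ₗ[Rg n] P.Dsub r y, ∀ (m : O.M) (hm : m.1 ∈ O.sec (Le r y)),
      (T ⟨Obj.res O.π y m.1, Submodule.mem_map_of_mem hm⟩).1 = Obj.res P.π y (φ m).1 := by
  classical
  -- sections as a submodule of `O.M`
  let h : O.sec (Le r y) →ₗ[Rg n] O.Dsub r y :=
    ((Obj.res O.π y).domRestrict (O.sec (Le r y))).codRestrict (O.Dsub r y)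
      (fun m => Submodule.mem_map_of_mem m.2)
  let ι : O.sec (Le r y) →ₗ[Rg n] O.M :=
    (O.sec (Le r y)).subtype.codRestrict O.M (fun m => m.2.1)
  have hsec : ∀ m : O.sec (Le r y), (φ (ι m)).1 ∈ P.sec (Le r y) := by
    intro m
    exact ⟨(φ (ι m)).2, HV2.supp_map hφ (fun i hi => m.2.2 i hi)⟩
  let g : O.sec (Le r y) →ₗ[Rg n] P.Dsub r y :=
    ((Obj.res P.π y).comp (P.M.subtype.comp (φ.comp ι))).codRestrict (P.Dsub r y)
      (fun m => Submodule.mem_map_of_mem (hsec m))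
  have hsurj : Function.Surjective h := by
    rintro ⟨v, hv⟩
    obtain ⟨m, hm, rfl⟩ := hv
    exact ⟨⟨m, hm⟩, rfl⟩
  have hker : LinearMap.ker h ≤ LinearMap.ker g := by
    intro m hm
    rw [LinearMap.mem_ker] at hm ⊢
    have h0 : ∀ i, O.π i = y → (ι m).1 i = 0 := by
      intro i hi
      have := congrFun (congrArg Subtype.val hm) i
      change (if O.π i = y then m.1 i else 0) = 0 at this
      rw [if_pos hi] at this
      exact this
    ext1
    funext i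
    change (if P.π i = y then (φ (ι m)).1 i else 0) = 0
    by_cases hi : P.π i = y
    · rw [if_pos hi]; exact hφ.vanish h0 i hi
    · rw [if_neg hi]
  refine ⟨((LinearMap.ker h).liftQ g hker).comp
    (h.quotKerEquivOfSurjective hsurj).symm.toLinearMap, fun m hm => ?_⟩
  have h1 : (⟨Obj.res O.π y m.1, Submodule.mem_map_of_mem hm⟩ : O.Dsub r y) = h ⟨m.1, hm⟩ := rfl
  rw [h1, LinearMap.comp_apply]
  have h2 : (h.quotKerEquivOfSurjective hsurj).symm (h ⟨m.1, hm⟩) =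
      (LinearMap.ker h).mkQ ⟨m.1, hm⟩ := by
    rw [LinearEquiv.symm_apply_eq]
    rfl
  rw [LinearEquiv.coe_coe, h2]
  rfl

/-- isomorphic objects have isomorphic stalks -/
theorem HV2.GF_iso {O P : Obj n} {φ : O.M →ₗ[Rg n] P.M} {ψ : P.M →ₗ[Rg n] O.M}
    (hφ : BiMap φ) (hψ : BiMap ψ) (hd : DegMap φ 0)
    (h1 : ∀ m, ψ (φ m) = m) (h2 : ∀ m, φ (ψ m) = m) {r : Pm n → Pm n → Prop} {y : Pm n}
    {p : Polynomial ℕ} (h : GF (O.Dsub r y) p) : GF (P.Dsub r y) p := by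
  classical
  obtain ⟨T, hT⟩ := HV2.exists_stalk φ hφ r y
  obtain ⟨T', hT'⟩ := HV2.exists_stalk ψ hψ r y
  have e1 : ∀ v, T' (T v) = v := by
    rintro ⟨v, hv⟩
    obtain ⟨m, hm, rfl⟩ := hv
    have hm' : (φ ⟨m, hm.1⟩).1 ∈ P.sec (Le r y) :=
      ⟨(φ ⟨m, hm.1⟩).2, HV2.supp_map hφ (fun i hi => hm.2 i hi)⟩
    have a1 := hT ⟨m, hm.1⟩ hm
    have a2 : T ⟨Obj.res O.π y m, Submodule.mem_map_of_mem hm⟩ =
        ⟨Obj.res P.π y (φ ⟨m, hm.1⟩).1, Submodule.mem_map_of_mem hm'⟩ := Subtype.ext a1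
    rw [a2]
    ext1
    rw [hT' _ hm', h1]
  have e2 : ∀ v, T (T' v) = v := by
    rintro ⟨v, hv⟩
    obtain ⟨m, hm, rfl⟩ := hv
    have hm' : (ψ ⟨m, hm.1⟩).1 ∈ O.sec (Le r y) :=
      ⟨(ψ ⟨m, hm.1⟩).2, HV2.supp_map hψ (fun i hi => hm.2 i hi)⟩
    have a1 := hT' ⟨m, hm.1⟩ hm
    have a2 : T' ⟨Obj.res P.π y m, Submodule.mem_map_of_mem hm⟩ =
        ⟨Obj.res O.π y (ψ ⟨m, hm.1⟩).1, Submodule.mem_map_of_mem hm'⟩ := Subtype.ext a1
    rw [a2]
    ext1
    rw [hT _ hm', h2]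
  let E : O.Dsub r y ≃ₗ[Rg n] P.Dsub r y :=
    LinearEquiv.ofLinearMap T T' (LinearMap.ext e2) (LinearMap.ext e1)
  have := GF.equiv h E 0 (by
    rintro d ⟨v, hv⟩ hd'
    obtain ⟨m, hm, rfl⟩ := hv
    have hm0 : (fun i => homogeneousComponent d (m i)) ∈ O.sec (Le r y) :=
      ⟨O.graded m hm.1 d, fun i hi => by simp [hm.2 i hi]⟩
    have hres : Obj.res O.π y (fun i => homogeneousComponent d (m i)) = Obj.res O.π y m := by
      funext i
      have := hd' i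
      change (if O.π i = y then m i else 0).IsHomogeneous d at this
      change (if O.π i = y then homogeneousComponent d (m i) else 0) =
        (if O.π i = y then m i else 0)
      by_cases hi : O.π i = y
      · rw [if_pos hi] at this ⊢
        rw [if_pos hi, homogeneousComponent_of_mem this, if_pos rfl]
      · rw [if_neg hi, if_neg hi]
    have a1 := hT ⟨_, hm0.1⟩ hm0
    have a2 : E ⟨Obj.res O.π y m, Submodule.mem_map_of_mem hm⟩ =
        T ⟨Obj.res O.π y (fun i => homogeneousComponent d (m i)),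
          Submodule.mem_map_of_mem hm0⟩ := by
      change T _ = T _
      congr 1
      exact Subtype.ext hres.symm
    rw [a2, a1]
    have hdg : (⟨_, hm0.1⟩ : O.M) ∈ O.dg d := fun i => homogeneousComponent_isHomogeneous d (m i)
    have hdg' := (hd d _ hdg).1 (d + 0) (by simp)
    intro i
    change (if P.π i = y then (φ ⟨_, hm0.1⟩).1 i else 0).IsHomogeneous (d + 0)
    by_cases hi : P.π i = y
    · rw [if_pos hi]; exact hdg' i
    · rw [if_neg hi]; exact isHomogeneous_zero _ _ _)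
  simpa using this

theorem HV2.smul_adj {O : Obj n} {d : ℕ} (Fm : Frm O d) (c : ℝ) (a b : O.M) :
    Fm.F ((C c : Rg n) • a) b = c • Fm.F a b := by
  rw [HV2.C_smul, map_smul, LinearMap.smul_apply]

/-- a degree `0` isomorphism is compatible with powers of `ρ` -/
theorem HV2.map_Lrho_pow {O P : Obj n} (φ : O.M →ₗ[Rg n] P.M) (k : ℕ) (m : O.M) :
    φ ((Lrho O ^ k) m) = (Lrho P ^ k) (φ m) := by
  induction k generalizing m with
  | zero => rfl
  | succ k ih =>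
      rw [pow_succ, pow_succ, Module.End.mul_apply, Module.End.mul_apply, ih]
      congr 1
      exact map_smul φ (rho n) m

theorem HV2.Lrho_pow_mem {O : Obj n} {i : ℕ} {m : O.M} (hm : m ∈ O.dg i) (k : ℕ) :
    (Lrho O ^ k) m ∈ O.dg (i + k) := by
  induction k generalizing m i with
  | zero => exact hm
  | succ k ih =>
      rw [pow_succ, Module.End.mul_apply]
      have h1 : Lrho O m ∈ O.dg (i + 1) := by
        intro j
        have h2 : (rho n).IsHomogeneous 1 := by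
          unfold rho
          apply IsHomogeneous.sum
          intro i _
          have := (isHomogeneous_C (Fin n) (-(i : ℝ))).mul (isHomogeneous_X ℝ i)
          simpa using this
        have h3 : (Lrho O m).1 j = rho n * m.1 j := rfl
        rw [h3, add_comm]
        exact h2.mul (hm j)
      have := ih h1
      rwa [show i + 1 + k = i + (k + 1) by ring] at this

/-- uniqueness, from the two inputs -/
theorem KLObj.unique_of {x : Pm n}
    (hsc : ∀ (B : KLObj κ x) (φ : B.O.M →ₗ[Rg n] B.O.M), BiMap φ → DegMap φ 0 →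
      ∃ c : ℝ, ∀ m, φ m = (C c : Rg n) • m)
    (htop : ∀ (B : KLObj κ x) (m : B.O.M), m ∈ B.O.dg (len κ x + 1) → m ∈ B.O.MRp)
    (B B' : KLObj κ x) :
    ∃ (φ : B.O.M →ₗ[Rg n] B'.O.M) (ψ : B'.O.M →ₗ[Rg n] B.O.M), BiMap φ ∧ BiMap ψ ∧
      DegMap φ 0 ∧ DegMap ψ 0 ∧ (∀ m, ψ (φ m) = m) ∧ (∀ m, φ (ψ m) = m) ∧
      ∀ a b, B'.Fm.F (φ a) (φ b) = B.Fm.F a b := by
  classical
  -- lifts
  have key : ∀ B B' : KLObj κ x, ∃ φ : B.O.M →ₗ[Rg n] B'.O.M, BiMap φ ∧ DegMap φ 0 ∧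
      ∀ i, B'.O.π i = x → (φ B.b0).1 i = B'.b0.1 i := by
    intro B B'
    obtain ⟨φ, h1, h2, h3⟩ := B.lift B'.O B'.nice 0 B'.b0 B'.b0_mem
      (fun i hi => B'.supp B'.b0 i hi)
    exact ⟨φ, h1, h2, h3⟩
  have inv : ∀ (B B' : KLObj κ x) (φ : B.O.M →ₗ[Rg n] B'.O.M) (ψ : B'.O.M →ₗ[Rg n] B.O.M),
      BiMap φ → BiMap ψ → DegMap φ 0 → DegMap ψ 0 →
      (∀ i, B'.O.π i = x → (φ B.b0).1 i = B'.b0.1 i) →
      (∀ i, B.O.π i = x → (ψ B'.b0).1 i = B.b0.1 i) → ∀ m, ψ (φ m) = m := by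
    intro B B' φ ψ hφ hψ hφd hψd h1 h2
    obtain ⟨c, hc⟩ := hsc B (ψ.comp φ) (HV2.biMap_comp hφ hψ) (HV2.degMap_comp hφd hψd)
    have h3 : ∀ i, B.O.π i = x → (ψ (φ B.b0)).1 i = B.b0.1 i := by
      intro i hi
      have h4 := hψ.vanish (y := x) (m := φ B.b0 - B'.b0)
        (fun k hk => by
          change (φ B.b0).1 k - B'.b0.1 k = 0
          rw [h1 k hk, sub_self]) i hi
      rw [map_sub] at h4
      change (ψ (φ B.b0)).1 i - (ψ B'.b0).1 i = 0 at h4
      rw [h2 i hi] at h4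
      exact sub_eq_zero.1 h4
    obtain ⟨i, hi, hne⟩ := B.b0_ne
    have h5 := h3 i hi
    have h6 : (ψ (φ B.b0)) = (C c : Rg n) • B.b0 := hc B.b0
    rw [h6] at h5
    change (C c : Rg n) * B.b0.1 i = B.b0.1 i at h5
    have h7 : (C c : Rg n) = 1 := by
      have : ((C c : Rg n) - 1) * B.b0.1 i = 0 := by rw [sub_mul, h5]; ring
      rcases mul_eq_zero.1 this with h | h
      · exact sub_eq_zero.1 h
      · exact absurd h hne
    intro m
    have := hc m
    rw [LinearMap.comp_apply, h7, one_smul] at this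
    exact this
  obtain ⟨φ, hφ, hφd, hφb⟩ := key B B'
  obtain ⟨ψ, hψ, hψd, hψb⟩ := key B' B
  have i1 := inv B B' φ ψ hφ hψ hφd hψd hφb hψb
  have i2 := inv B' B ψ φ hψ hφ hψd hφd hψb hφb
  -- the form
  obtain ⟨φs, hφs, hadj, hdeg⟩ := exists_adjoint B.Fm B'.Fm φ hφ
  have hφsd : DegMap φs 0 := by
    have := hdeg 0 hφd
    simpa using this
  obtain ⟨c, hc⟩ := hsc B (φs.comp φ) (HV2.biMap_comp hφ hφs) (HV2.degMap_comp hφd hφsd)
  have hF : ∀ a b, B'.Fm.F (φ a) (φ b) = c • B.Fm.F a b := by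
    intro a b
    rw [← hadj, ← HV2.smul_adj, ← hc a]
    rfl
  -- positivity of `c`
  have hpos : ∀ (B : KLObj κ x) (b : B.O.M), b ∈ B.O.dg 0 → b ≠ 0 →
      0 < constantCoeff (B.Fm.F b ((Lrho B.O ^ (len κ x)) b)) := by
    intro B b hb hb0
    have h1 := B.hr 0 (by omega) b hb (by
      have := HV2.Lrho_pow_mem hb (len κ x - 2 * 0 + 1)
      rw [show 0 + (len κ x - 2 * 0 + 1) = len κ x + 1 by omega] at this
      exact htop B _ this)
    rcases h1 with h1 | h1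
    · exact absurd (HV2.dg_zero_MRp hb h1) hb0
    · simpa using h1
  have hb0 : B.b0 ≠ 0 := by
    obtain ⟨i, hi, hne⟩ := B.b0_ne
    intro h
    apply hne
    rw [h]; rfl
  have hφb0 : φ B.b0 ≠ 0 := by
    intro h
    apply hb0
    rw [← i1 B.b0, h, map_zero]
  have p1 := hpos B B.b0 B.b0_mem hb0
  have p2 := hpos B' (φ B.b0) ((hφd 0 _ B.b0_mem).1 0 (by simp)) hφb0
  rw [← HV2.map_Lrho_pow, hF] at p2
  have hcpos : 0 < c := by
    have : constantCoeff (c • B.Fm.F B.b0 ((Lrho B.O ^ (len κ x)) B.b0)) =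
        c * constantCoeff (B.Fm.F B.b0 ((Lrho B.O ^ (len κ x)) B.b0)) := by
      rw [MvPolynomial.smul_eq_C_mul, map_mul, constantCoeff_C]
    rw [this] at p2
    exact (mul_pos_iff_of_pos_right p1).1 p2
  -- rescale
  have hs : Real.sqrt c * Real.sqrt c = c := Real.mul_self_sqrt hcpos.le
  have hs0 : Real.sqrt c ≠ 0 := (Real.sqrt_pos.2 hcpos).ne'
  refine ⟨(C (Real.sqrt c)⁻¹ : Rg n) • φ, (C (Real.sqrt c) : Rg n) • ψ,
    HV2.biMap_smul hφ _, HV2.biMap_smul hψ _, HV2.degMap_smul hφd _, HV2.degMap_smul hψd _,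
    fun m => ?_, fun m => ?_, fun a b => ?_⟩
  · simp only [LinearMap.smul_apply, map_smul, i1, smul_smul]
    rw [← C_mul, inv_mul_cancel₀ hs0, C_1, one_smul]
  · simp only [LinearMap.smul_apply, map_smul, i2, smul_smul]
    rw [← C_mul, mul_inv_cancel₀ hs0, C_1, one_smul]
  · simp only [LinearMap.smul_apply]
    rw [HV2.smul_adj, B'.Fm.symm, HV2.smul_adj, B'.Fm.symm, hF, smul_smul, smul_smul]
    have : (Real.sqrt c)⁻¹ * (Real.sqrt c)⁻¹ * c = 1 := by
      rw [← mul_inv, hs, inv_mul_cancel₀ hcpos.ne']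
    rw [this, one_smul]

/-- uniqueness of the characters, from an isomorphism -/
theorem KLObj.P_unique_of {x : Pm n} (B B' : KLObj κ x)
    (h : ∃ (φ : B.O.M →ₗ[Rg n] B'.O.M) (ψ : B'.O.M →ₗ[Rg n] B.O.M), BiMap φ ∧ BiMap ψ ∧
      DegMap φ 0 ∧ DegMap ψ 0 ∧ (∀ m, ψ (φ m) = m) ∧ (∀ m, φ (ψ m) = m) ∧
      ∀ a b, B'.Fm.F (φ a) (φ b) = B.Fm.F a b) : B.P = B'.P := by
  obtain ⟨φ, ψ, hφ, hψ, hφd, -, i1, i2, -⟩ := h
  funext y
  have h1 := HV2.GF_iso hφ hψ hφd i1 i2 (B.char.up y)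
  have h2 := GF.unique h1 (B'.char.up y)
  ext k
  have h3 := congrArg (fun p => Polynomial.coeff p (k + len κ y)) h2
  simpa [Polynomial.coeff_X_pow_mul] using h3

end KLFin
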