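import Mathlib
import Pool.Agent.KLFin.HV1
import Pool.Agent.KLFin.HV2
import Pool.Agent.KLFin.QT1

/-!
# HV2f: uniqueness of KL objects up to isometry (MP_d9d356_co)
-/

open MvPolynomial

namespace KLFin

variable {n : ℕ} {κ : Fin n → ℕ}

theorem KLObj.unique {x : Pm n} (hx : InW κ x) (B B' : KLObj κ x) :
    ∃ (φ : B.O.M →ₗ[Rg n] B'.O.M) (ψ : B'.O.M →ₗ[Rg n] B.O.M), BiMap φ ∧ BiMap ψ ∧
      DegMap φ 0 ∧ DegMap ψ 0 ∧ (∀ m, ψ (φ m) = m) ∧ (∀ m, φ (ψ m) = m) ∧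
      ∀ a b, B'.Fm.F (φ a) (φ b) = B.Fm.F a b :=
  KLObj.unique_of (fun B φ h1 h2 => KLObj.hom_scalar hx B φ h1 h2)
    (fun B _ hm => Frm.top B.nice B.Fm (Nat.lt_succ_self _) hm) B B'

theorem KLObj.P_unique {x : Pm n} (hx : InW κ x) (B B' : KLObj κ x) : B.P = B'.P :=
  KLObj.P_unique_of B B' (KLObj.unique hx B B')

end KLFin
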