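import Mathlib
import Pool.Agent.KLFin.CDefs3
import Pool.Agent.KLFin.CD
import Pool.Agent.KLFin.CE1
import Pool.Agent.KLFin.HV1
import Pool.Agent.KLFin.HV2f

/-!
# Part C, block DP1: the operator `D_s` of a KL object with right descent `s` (C11)
(MP_d9d356_co)
-/

open MvPolynomial

namespace KLFin

variable {n : ℕ} {κ : Fin n → ℕ} {s : Fin n × Fin n}

namespace DP1

variable {O P Q : Obj n}

/-- composition of homogeneous maps -/
theorem DegMap.comp {φ : O.M →ₗ[Rg n] P.M} {ψ : P.M →ₗ[Rg n] Q.M} {e f : ℤ} (hφ : DegMap φ e)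
    (hψ : DegMap ψ f) (hef : 0 ≤ e ∨ f ≤ 0) : DegMap (ψ ∘ₗ φ) (e + f) := by
  intro i a ha
  obtain ⟨h1, h2⟩ := hφ i a ha
  by_cases hi : 0 ≤ (i : ℤ) + e
  · obtain ⟨k, hk⟩ := Int.eq_ofNat_of_zero_le hi
    obtain ⟨h3, h4⟩ := hψ k (φ a) (h1 k hk.symm)
    refine ⟨fun j hj => h3 j (by omega), fun hlt => h4 (by omega)⟩
  · have h0 : φ a = 0 := h2 (by omega)
    refine ⟨fun j _ => ?_, fun _ => ?_⟩
    · rw [LinearMap.comp_apply, h0, map_zero]
      exact Submodule.zero_mem _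
    · rw [LinearMap.comp_apply, h0, map_zero]

theorem BiMap.comp {φ : O.M →ₗ[Rg n] P.M} {ψ : P.M →ₗ[Rg n] Q.M} (hφ : BiMap φ)
    (hψ : BiMap ψ) : BiMap (ψ ∘ₗ φ) := by
  intro j m
  rw [LinearMap.comp_apply, LinearMap.comp_apply, hφ, hψ]

/-- the operator `a ⊗ 1 + b ⊗ α ↦ b ⊗ 1` on `θ_s O` -/
theorem exists_Dth (hs : s.1 ≠ s.2) (O : Obj n) :
    ∃ D : (theta s O).M →ₗ[Rg n] (theta s O).M, (∀ a b, D (el s a b) = el s b 0) ∧
      (∀ b, D ((theta s O).rmul (al 1 s) b) + (theta s O).rmul (al 1 s) (D b) = b) ∧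
      (∀ f, act (sw s) f = f → ∀ b, D ((theta s O).rmul f b) = (theta s O).rmul f (D b)) ∧
      DegMap D (-1) ∧ ∀ b, D (D b) = 0 := by
  have hadd : ∀ a b : O.M, (el s (a + b) 0 : (theta s O).M) = el s a 0 + el s b 0 := by
    intro a b
    rw [← el_add, add_zero]
  have hsm : ∀ (f : Rg n) (a : O.M), (el s (f • a) 0 : (theta s O).M) = f • el s a 0 := by
    intro f a
    rw [← el_smul, smul_zero]
  let h : O.M →ₗ[Rg n] (theta s O).M :=
    { toFun := fun a => el s a 0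
      map_add' := hadd
      map_smul' := hsm }
  obtain ⟨D, hD⟩ := exists_lin_of_el (N := (theta s O).M) hs (0 : O.M →ₗ[Rg n] (theta s O).M) h
  have hD' : ∀ a b, D (el s a b) = el s b 0 := by
    intro a b
    rw [hD, LinearMap.zero_apply, zero_add]
    rfl
  have e0 : (el s (0 : O.M) (0 : O.M) : (theta s O).M) = 0 := by
    have := hadd 0 0
    rw [add_zero] at this
    exact left_eq_add.1 this
  refine ⟨D, hD', ?_, ?_, ?_, ?_⟩
  · intro m
    obtain ⟨a, b, rfl⟩ := el_surj m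
    rw [rmul_el_al hs, hD', hD', rmul_el_al hs, map_zero, ← el_add, add_zero, zero_add]
  · intro f hf m
    obtain ⟨a, b, rfl⟩ := el_surj m
    rw [rmul_el_inv hs hf, hD', hD', rmul_el_inv hs hf, map_zero]
  · intro i m hm
    obtain ⟨a, b, rfl⟩ := el_surj m
    rw [hD']
    cases i with
    | zero =>
      rw [el_mem_dg0 hs] at hm
      rw [hm.2, e0]
      exact ⟨fun _ _ => Submodule.zero_mem _, fun _ => rfl⟩
    | succ i =>
      rw [el_mem_dg hs] at hm
      refine ⟨fun j hj => ?_, fun hlt => ?_⟩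
      · have hji : j = i := by push_cast at hj; omega
        subst hji
        cases j with
        | zero => rw [el_mem_dg0 hs]; exact ⟨hm.2, rfl⟩
        | succ j => rw [el_mem_dg hs]; exact ⟨hm.2, Submodule.zero_mem _⟩
      · push_cast at hlt; omega
  · intro m
    obtain ⟨a, b, rfl⟩ := el_surj m
    rw [hD', hD', e0]

/-- an endomorphism with `D(bα) + D(b)α = b`, commuting with the invariants: `D²` is a bimodule
endomorphism -/
theorem sq_biMap (hs : s.1 ≠ s.2) (D : O.M →ₗ[Rg n] O.M)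
    (h1 : ∀ b, D (O.rmul (al 1 s) b) + O.rmul (al 1 s) (D b) = b)
    (h2 : ∀ f, act (sw s) f = f → ∀ b, D (O.rmul f b) = O.rmul f (D b)) : BiMap (D ∘ₗ D) := by
  have hC : ∀ (c : ℝ) (m : O.M), O.rmul (C c) m = (C c : Rg n) • m := by
    intro c m
    ext1; funext i
    rw [Obj.rmul_val, act_C]
    rfl
  have hal : ∀ b, D (D (O.rmul (al 1 s) b)) = O.rmul (al 1 s) (D (D b)) := by
    intro b
    have h3 := h1 b
    have h4 := h1 (D b)
    rw [← eq_sub_iff_add_eq] at h3 h4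
    rw [h3, map_sub, h4]
    abel
  intro j m
  rw [LinearMap.comp_apply, LinearMap.comp_apply, X_eq_uv s hs j, Obj.rmul_add, Obj.rmul_add,
    map_add, map_add, h2 _ (act_sw_uPart s j), h2 _ (act_sw_uPart s j), Obj.rmul_mul,
    Obj.rmul_mul, hC, hC, map_smul, map_smul, hal]

end DP1

theorem DProp_of_summand {x : Pm n} (hx : InW κ x) (B : KLObj κ x) {O : Obj n} {d : ℕ}
    (Fm : Frm O d) (hs : Smp κ s) (G : Frm (theta s O) (d + 1)) (hG : IsThetaFrm s Fm G)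
    (i : B.O.M →ₗ[Rg n] (theta s O).M) (p : (theta s O).M →ₗ[Rg n] B.O.M)
    (hip : BiMap i ∧ BiMap p ∧ DegMap i 0 ∧ DegMap p 0 ∧ (∀ m, p (i m) = m) ∧
      ∀ m b, B.Fm.F (p m) b = G.F m (i b)) : DProp κ B s := by
  have hne : s.1 ≠ s.2 := ne_of_lt hs.1
  obtain ⟨hi, hp, hid, hpd, hpi, hadj⟩ := hip
  obtain ⟨D, hDel, hD1, hD2, hDd, -⟩ := DP1.exists_Dth hne O
  have h1 : ∀ b, (p ∘ₗ D ∘ₗ i) (B.O.rmul (al 1 s) b) + B.O.rmul (al 1 s) ((p ∘ₗ D ∘ₗ i) b) = b := by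
    intro b
    rw [LinearMap.comp_apply, LinearMap.comp_apply, LinearMap.comp_apply, LinearMap.comp_apply,
      hi.rmul, ← hp.rmul, ← map_add, hD1, hpi]
  have h2 : ∀ f, act (sw s) f = f → ∀ b, (p ∘ₗ D ∘ₗ i) (B.O.rmul f b) =
      B.O.rmul f ((p ∘ₗ D ∘ₗ i) b) := by
    intro f hf b
    rw [LinearMap.comp_apply, LinearMap.comp_apply, LinearMap.comp_apply, LinearMap.comp_apply,
      hi.rmul, hD2 f hf, hp.rmul]
  have hdeg : DegMap (p ∘ₗ D ∘ₗ i) (-1) := by
    have h3 := DP1.DegMap.comp hid hDd (Or.inl le_rfl)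
    have h4 := DP1.DegMap.comp h3 hpd (Or.inr le_rfl)
    simpa using h4
  refine ⟨p ∘ₗ D ∘ₗ i, h1, h2, hdeg, ?_, ?_⟩
  · -- `D² = 0` by Hom vanishing
    have h3 := DP1.sq_biMap hne _ h1 h2
    have h4 := DP1.DegMap.comp hdeg hdeg (Or.inr (by norm_num))
    have h5 : (p ∘ₗ D ∘ₗ i) ∘ₗ (p ∘ₗ D ∘ₗ i) = 0 := by
      by_contra h0
      have := (KLObj.hom_vanish hx hx B B _ h3 h4 h0).1
      omega
    intro b
    exact LinearMap.congr_fun h5 b
  · intro u u'
    have hF : B.Fm.F u u' = G.F (i u) (i u') := by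
      conv_lhs => rw [← hpi u]
      exact hadj _ _
    have hF1 : B.Fm.F ((p ∘ₗ D ∘ₗ i) u) u' = G.F (D (i u)) (i u') := hadj _ _
    have hF2 : B.Fm.F u ((p ∘ₗ D ∘ₗ i) u') = G.F (i u) (D (i u')) := by
      rw [B.Fm.symm, G.symm]
      exact hadj _ _
    rw [hF, hF1, hF2]
    obtain ⟨a, b, hab⟩ := el_surj (i u)
    obtain ⟨a', b', hab'⟩ := el_surj (i u')
    rw [hab, hab', hDel, hDel, hG, hG, hG]
    have hd0 : dem s (0 : Rg n) = 0 := dem_inv hne (map_zero _)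
    have hz : ∀ c : O.M, Fm.F (0 : O.M) c = 0 := fun c => by rw [map_zero, LinearMap.zero_apply]
    have hz' : ∀ c : O.M, Fm.F c (0 : O.M) = 0 := fun c => by rw [map_zero]
    rw [hz, hz, hz', hz', hd0]
    simp only [add_zero, mul_zero, zero_add, map_add, map_mul, act_dem hne, act_sw_al]
    have hA : dem s (dem s (Fm.F a a')) = 0 := dem_inv hne (act_dem hne _)
    have hB : ∀ g : Rg n, dem s (al 1 s * dem s g) = 2 * dem s g := by
      intro g
      rw [mul_comm, dem_inv_mul hne (act_dem hne _), dem_al hne, mul_comm]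
    have hC : dem s (al 1 s * al 1 s * dem s (Fm.F b b')) = 0 := by
      apply dem_inv hne
      rw [map_mul, map_mul, act_sw_al, act_dem hne]
      ring
    rw [dem_add hne, dem_add hne, hA, hC, mul_add, dem_add hne, hB, hB]
    ring

theorem DProp.transfer {x : Pm n} (hx : InW κ x) {B : KLObj κ x} (h : DProp κ B s)
    (B' : KLObj κ x) : DProp κ B' s := by
  obtain ⟨D, h1, h2, h3, h4, h5⟩ := h
  obtain ⟨φ, ψ, hφ, hψ, hφd, hψd, hψφ, hφψ, hiso⟩ := KLObj.unique hx B B'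
  refine ⟨φ ∘ₗ D ∘ₗ ψ, ?_, ?_, ?_, ?_, ?_⟩
  · intro b
    rw [LinearMap.comp_apply, LinearMap.comp_apply, LinearMap.comp_apply, LinearMap.comp_apply,
      hψ.rmul, ← hφ.rmul, ← map_add, h1, hφψ]
  · intro f hf b
    rw [LinearMap.comp_apply, LinearMap.comp_apply, LinearMap.comp_apply, LinearMap.comp_apply,
      hψ.rmul, h2 f hf, hφ.rmul]
  · have h6 := DP1.DegMap.comp hψd h3 (Or.inl le_rfl)
    have h7 := DP1.DegMap.comp h6 hφd (Or.inr le_rfl)
    simpa using h7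
  · intro b
    rw [LinearMap.comp_apply, LinearMap.comp_apply, LinearMap.comp_apply, LinearMap.comp_apply,
      hψφ, h4, map_zero]
  · intro u u'
    have hF : ∀ a b : B'.O.M, B'.Fm.F a b = B.Fm.F (ψ a) (ψ b) := by
      intro a b
      rw [← hiso, hφψ, hφψ]
    rw [hF, hF, hF, h5]
    simp only [LinearMap.comp_apply, hψφ]

end KLFin
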