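import Mathlib
import Pool.Agent.KLFin.CDefs3
import Pool.Agent.KLFin.CE1
import Pool.Agent.KLFin.CE2
import Pool.Agent.KLFin.DP1
import Pool.Agent.KLFin.DC1

/-!
# Part C (C10): small lemmas for the decomposition
-/

open MvPolynomial

namespace KLFin

variable {n : ℕ} {κ : Fin n → ℕ} {s : Fin n × Fin n}

/-- L1 -/
theorem IsSummand.theta (hs : s.1 ≠ s.2) {O P : Obj n} (h : IsSummand O P) :
    IsSummand (theta s O) (theta s P) := by
  obtain ⟨i, p, hi, hp, hid, hpd, hpi⟩ := h
  obtain ⟨i', h1, h2, h3⟩ := exists_thetaMap hs i hi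
  obtain ⟨p', h4, h5, h6⟩ := exists_thetaMap hs p hp
  refine ⟨i', p', h2, h5, h3 0 hid, h6 0 hpd, fun m => ?_⟩
  obtain ⟨a, b, rfl⟩ := el_surj m
  rw [h1, h4, hpi, hpi]

/-- L2 -/
theorem IsSummand.trans {O P Q : Obj n} (h : IsSummand O P) (h' : IsSummand P Q) :
    IsSummand O Q := by
  obtain ⟨i, p, hi, hp, hid, hpd, hpi⟩ := h
  obtain ⟨i', p', hi', hp', hid', hpd', hpi'⟩ := h'
  refine ⟨i' ∘ₗ i, p ∘ₗ p', DP1.BiMap.comp hi hi', DP1.BiMap.comp hp' hp, ?_, ?_, fun m => ?_⟩
  · simpa using DP1.DegMap.comp hid hid' (Or.inl le_rfl)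
  · simpa using DP1.DegMap.comp hpd' hpd (Or.inl le_rfl)
  · rw [LinearMap.comp_apply, LinearMap.comp_apply, hpi', hpi]

/-- L3 -/
theorem HRop.summand {O P : Obj n} {d : ℕ} {F : O.M →ₗ[ℝ] O.M →ₗ[ℝ] Rg n}
    {G : P.M →ₗ[ℝ] P.M →ₗ[ℝ] Rg n} (i : O.M →ₗ[Rg n] P.M) (p : P.M →ₗ[Rg n] O.M)
    (hi : BiMap i) (hp : BiMap p) (hid : DegMap i 0) (hpi : ∀ m, p (i m) = m)
    (hFG : ∀ a b, F a b = G (i a) (i b)) (h : HRop P d G (Lrho P)) : HRop O d F (Lrho O) := by
  intro k hk b hb hL
  have e : ∀ (j : ℕ) (m : O.M), (Lrho P ^ j) (i m) = i ((Lrho O ^ j) m) := by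
    intro j m
    rw [DC1.Lrho_pow, DC1.Lrho_pow, map_smul]
  rcases h k hk (i b) ((hid k b hb).1 k (by simp)) (by rw [e]; exact hi.MRp hL) with h1 | h1
  · left
    have h2 := hp.MRp h1
    rwa [hpi] at h2
  · right
    rw [hFG, ← e]
    exact h1

/-- L4 -/
theorem compl_deg {w : Pm n} {d : ℕ} {Q S : Pm n → Polynomial ℕ} (hQw : Q w = 1)
    (hQd : ∀ y, y ≠ w → Q y ≠ 0 → len κ y + 2 * (Q y).natDegree ≤ d)
    (hQs : ∀ y, y ∉ Le (Up κ) w → Q y = 0) {ι : Type} [Fintype ι] (u : ι → Pm n) (f : ι → ℕ)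
    (R : ι → Pm n → Polynomial ℕ) (hR1 : ∀ k, R k (u k) = 1)
    (hRw : ∀ k, R k w = 0) (hf : ∀ k, len κ (u k) + 2 * f k = d)
    (hcount : ∀ z e, z ≠ w → len κ z + 2 * e = d → (Q z).coeff e ≤ Nat.card {k // u k = z})
    (hQ : ∀ y, Q y = S y + ∑ k, Polynomial.X ^ (f k) * R k y) :
    S w = 1 ∧ (∀ y, y ≠ w → S y ≠ 0 → len κ y + 2 * (S y).natDegree + 1 ≤ d) ∧
      (∀ y, y ∉ Le (Up κ) w → S y = 0) := by
  classical
  have hc : ∀ y e, (S y).coeff e ≤ (Q y).coeff e := by
    intro y e
    rw [hQ y, Polynomial.coeff_add]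
    exact Nat.le_add_right _ _
  have h0 : ∀ y, Q y = 0 → S y = 0 := by
    intro y hy
    ext e
    have := hc y e
    rw [hy, Polynomial.coeff_zero] at this
    rw [Polynomial.coeff_zero]
    omega
  refine ⟨?_, ?_, fun y hy => h0 y (hQs y hy)⟩
  · have h := hQ w
    rw [hQw, Finset.sum_eq_zero (fun k _ => by rw [hRw, mul_zero]), add_zero] at h
    exact h.symm
  · intro y hy hS
    have hQ0 : Q y ≠ 0 := fun h => hS (h0 y h)
    have hlead : (S y).coeff (S y).natDegree ≠ 0 := by
      rw [Polynomial.coeff_natDegree]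
      exact Polynomial.leadingCoeff_ne_zero.mpr hS
    have hdeg : (S y).natDegree ≤ (Q y).natDegree := by
      apply Polynomial.le_natDegree_of_ne_zero
      have := hc y (S y).natDegree
      omega
    have h1 := hQd y hy hQ0
    by_contra hcon
    have h2 : len κ y + 2 * (S y).natDegree = d := by omega
    have h3 := hcount y _ hy h2
    apply hlead
    set e := (S y).natDegree with he
    have h4 : (Q y).coeff e = (S y).coeff e + ∑ k, (Polynomial.X ^ (f k) * R k y).coeff e := by
      conv_lhs => rw [hQ y]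
      rw [Polynomial.coeff_add, Polynomial.finsetSum_coeff]
    have h5 : Nat.card {k // u k = y} ≤ ∑ k, (Polynomial.X ^ (f k) * R k y).coeff e := by
      rw [Nat.card_eq_fintype_card, Fintype.card_subtype, Finset.card_eq_sum_ones,
        Finset.sum_filter]
      refine Finset.sum_le_sum fun k _ => ?_
      split_ifs with hk
      · subst hk
        have h6 : f k = e := by
          have := hf k
          omega
        rw [hR1, mul_one, h6, Polynomial.coeff_X_pow_self]
      · exact Nat.zero_le _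
    omega

open Classical in
/-- L5 -/
theorem SD.compl (hs : Smp κ s) {d : ℕ} {P S : Pm n → Polynomial ℕ}
    (hP : SD κ d (fun y => (P y).map (Nat.castRingHom ℤ))) {ι : Type} [Fintype ι]
    (l f : ι → ℕ) (R : ι → Pm n → Polynomial ℕ)
    (hR : ∀ k, SD κ (l k) (fun y => (R k y).map (Nat.castRingHom ℤ)))
    (hf : ∀ k, l k + 2 * f k = d + 1)
    (hQ : ∀ y, (if Up κ y (y * sw s) then P y + Polynomial.X * P (y * sw s)
        else P (y * sw s) + Polynomial.X * P y) = S y + ∑ k, Polynomial.X ^ (f k) * R k y) :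
    SD κ (d + 1) (fun y => (S y).map (Nat.castRingHom ℤ)) := by
  have hshift : ∀ (j m : ℕ) (g : Pm n → Polynomial ℤ), SD κ m g →
      SD κ (m + 2 * j) (fun y => Polynomial.X ^ j * g y) := by
    intro j
    induction j with
    | zero => intro m g hg; simpa using hg
    | succ j ih =>
      intro m g hg
      have h := (ih m g hg).shift
      have e1 : m + 2 * (j + 1) = m + 2 * j + 2 := by ring
      have e2 : (fun y => Polynomial.X ^ (j + 1) * g y) =
          (fun y => Polynomial.X * (Polynomial.X ^ j * g y)) := by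
        funext y; ring
      rw [e1, e2]
      exact h
  have hsum : ∀ (T : Finset ι), SD κ (d + 1)
      (fun y => ∑ k ∈ T, Polynomial.X ^ (f k) * (R k y).map (Nat.castRingHom ℤ)) := by
    intro T
    induction T using Finset.induction_on with
    | empty =>
      have h := SD.zero (κ := κ) (d + 1)
      simp only [Finset.sum_empty]
      exact h
    | insert a T ha ih =>
      have h := hshift (f a) (l a) _ (hR a)
      rw [hf a] at h
      have h2 := h.add ih
      have e2 : (fun y => ∑ k ∈ insert a T, Polynomial.X ^ (f k) *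
          (R k y).map (Nat.castRingHom ℤ)) =
          (fun y => Polynomial.X ^ (f a) * (R a y).map (Nat.castRingHom ℤ)) +
          (fun y => ∑ k ∈ T, Polynomial.X ^ (f k) * (R k y).map (Nat.castRingHom ℤ)) := by
        funext y
        rw [Finset.sum_insert ha]
        rfl
      rw [e2]
      exact h2
  have h1 := (hP.mul s hs).add (hsum Finset.univ).neg
  have e : (fun y => (S y).map (Nat.castRingHom ℤ)) =
      (fun y => if Up κ y (y * sw s) then (P y).map (Nat.castRingHom ℤ) + Polynomial.X *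
          (P (y * sw s)).map (Nat.castRingHom ℤ)
        else (P (y * sw s)).map (Nat.castRingHom ℤ) + Polynomial.X *
          (P y).map (Nat.castRingHom ℤ)) +
      -(fun y => ∑ k ∈ Finset.univ, Polynomial.X ^ (f k) *
          (R k y).map (Nat.castRingHom ℤ)) := by
    funext y
    have h := congrArg (Polynomial.map (Nat.castRingHom ℤ)) (hQ y)
    rw [Polynomial.map_add, Polynomial.map_sum] at h
    simp only [Polynomial.map_mul, Polynomial.map_pow, Polynomial.map_X] at h
    rw [Pi.add_apply, Pi.neg_apply]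
    rw [← sub_eq_add_neg, eq_sub_iff_add_eq, ← h]
    split_ifs
    · simp
    · simp
  rw [e]
  exact h1

end KLFin
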