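import Mathlib
import Pool.Agent.KLFin.CDefs3
import Pool.Agent.KLFin.DP1
import Pool.Agent.KLFin.HV1
import Pool.Agent.KLFin.DC0
import Pool.Agent.KLFin.DC1

/-!
# Part C (C10): the family of the small summands of `θ_s B_x`
-/

open MvPolynomial

namespace KLFin

variable {n : ℕ} {κ : Fin n → ℕ} {s : Fin n × Fin n}

theorem DC5.small {x : Pm n} (hx : InW κ x) (hs : Smp κ s) (hup : Up κ x (x * sw s))
    (B : KLObj κ x) (G : Frm (theta s B.O) (len κ x + 1)) (hG : IsThetaFrm s B.Fm G)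
    (hHR : HRop (theta s B.O) (len κ x + 1) G.F (Lrho (theta s B.O)))
    (hex : ∀ z, InW κ z → len κ z ≤ len κ x → Nonempty (KLObj κ z)) :
    ∃ (ι : Type) (_ : Fintype ι) (_ : DecidableEq ι) (u : ι → Pm n) (Bu : ∀ k, KLObj κ (u k))
      (f : ι → ℕ) (φ : ∀ k, (Bu k).O.M →ₗ[Rg n] (theta s B.O).M)
      (ψ : ∀ k, (theta s B.O).M →ₗ[Rg n] (Bu k).O.M),
      (∀ k, InW κ (u k) ∧ u k ≠ x * sw s ∧ len κ (u k) + 2 * f k = len κ x + 1 ∧ 0 < f k) ∧
      (∀ k, BiMap (φ k) ∧ DegMap (φ k) (f k) ∧ BiMap (ψ k) ∧ DegMap (ψ k) (-(f k : ℤ))) ∧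
      (∀ k m b, (Bu k).Fm.F (ψ k m) b = G.F m (φ k b)) ∧
      (∀ k b, ψ k (φ k b) = (-1 : Rg n) ^ (f k) • b) ∧
      (∀ k l, k ≠ l → ∀ b, ψ k (φ l b) = 0) ∧
      (∀ z e, z ≠ x * sw s → len κ z + 2 * e = len κ x + 1 →
        (thP κ s B.P z).coeff e ≤ Nat.card {k // u k = z}) := by
  classical
  obtain ⟨hb1, hb2, hb3⟩ := thP_bound hx hs hup B
  have hxs : InW κ (x * sw s) := hx.mul (InW_swap hs.2.1)
  have hlen : len κ (x * sw s) = len κ x + 1 := len_mul_sw hx hs hup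
  -- properties of the `z` which occur
  have hz0 : ∀ z e, z ≠ x * sw s → len κ z + 2 * e = len κ x + 1 →
      (thP κ s B.P z).coeff e ≠ 0 → InW κ z ∧ 0 < e := by
    intro z e hz he hc
    have h0 : thP κ s B.P z ≠ 0 := by
      intro h
      rw [h, Polynomial.coeff_zero] at hc
      exact hc rfl
    have hmem : z ∈ Le (Up κ) (x * sw s) := by
      by_contra h
      exact h0 (hb3 z h)
    refine ⟨Le_inW (Or.inl rfl) hxs hmem, ?_⟩
    obtain ⟨h1, h2⟩ := Le_len hmem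
    rcases Nat.eq_zero_or_pos e with h | h
    · subst h
      exact absurd (h2 (by omega)) hz
    · exact h
  let Z := {z : Pm n // z ≠ x * sw s ∧ ∃ e, len κ z + 2 * e = len κ x + 1 ∧
    (thP κ s B.P z).coeff e ≠ 0}
  have H : ∀ z : Z, ∃ (e : ℕ) (_ : len κ z.1 + 2 * e = len κ x + 1 ∧ InW κ z.1 ∧ 0 < e)
      (Bz : KLObj κ z.1)
      (φ : Fin ((thP κ s B.P z.1).coeff e) → (Bz.O.M →ₗ[Rg n] (theta s B.O).M))
      (ψ : Fin ((thP κ s B.P z.1).coeff e) → ((theta s B.O).M →ₗ[Rg n] Bz.O.M)),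
      (∀ i, BiMap (φ i) ∧ DegMap (φ i) e ∧ BiMap (ψ i) ∧ DegMap (ψ i) (-(e : ℤ))) ∧
      (∀ i m b, Bz.Fm.F (ψ i m) b = G.F m (φ i b)) ∧
      (∀ i b, ψ i (φ i b) = (-1 : Rg n) ^ e • b) ∧
      (∀ i j, i ≠ j → ∀ b, ψ i (φ j b) = 0) := by
    rintro ⟨z, hz, e, he, hc⟩
    obtain ⟨hzW, he0⟩ := hz0 z e hz he hc
    obtain ⟨Bz⟩ := hex z hzW (by omega)
    exact ⟨e, ⟨he, hzW, he0⟩, Bz, exists_onb hx hs hup B G hG hHR hzW hz Bz e he⟩
  choose e he Bz φ ψ h1 h2 h3 h4 using H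
  refine ⟨Σ z : Z, Fin ((thP κ s B.P z.1).coeff (e z)), inferInstance, inferInstance,
    fun k => k.1.1, fun k => Bz k.1, fun k => e k.1, fun k => φ k.1 k.2, fun k => ψ k.1 k.2,
    fun k => ⟨(he k.1).2.1, k.1.2.1, (he k.1).1, (he k.1).2.2⟩, fun k => h1 k.1 k.2,
    fun k => h2 k.1 k.2, fun k => h3 k.1 k.2, ?_, ?_⟩
  · rintro ⟨z, i⟩ ⟨z', j⟩ hne b
    by_cases hzz : z = z'
    · subst hzz
      have hij : i ≠ j := by
        intro h
        exact hne (by rw [h])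
      exact h4 z i j hij b
    · have hd := DP1.DegMap.comp (h1 z' j).2.1 (h1 z i).2.2.2 (Or.inl (Int.natCast_nonneg _))
      have hbm := DP1.BiMap.comp (h1 z' j).1 (h1 z i).2.2.1
      have h0 : (ψ z i).comp (φ z' j) = 0 := by
        by_contra h0
        have h5 := (KLObj.hom_vanish (he z').2.1 (he z).2.1 (Bz z') (Bz z) _ hbm hd h0).2
        have h6 : z'.1 = z.1 := by
          apply h5
          have h7 := (he z).1
          have h8 := (he z').1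
          omega
        exact hzz (Subtype.ext h6.symm)
      exact LinearMap.congr_fun h0 b
  · intro z e' hz he'
    rcases Nat.eq_zero_or_pos ((thP κ s B.P z).coeff e') with h0 | h0
    · rw [h0]; exact Nat.zero_le _
    · have hzZ : z ≠ x * sw s ∧ ∃ e, len κ z + 2 * e = len κ x + 1 ∧
          (thP κ s B.P z).coeff e ≠ 0 := ⟨hz, e', he', h0.ne'⟩
      have hee : e ⟨z, hzZ⟩ = e' := by
        have := (he ⟨z, hzZ⟩).1
        change len κ z + 2 * e ⟨z, hzZ⟩ = len κ x + 1 at this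
        omega
      have h5 : (thP κ s B.P z).coeff e' =
          Nat.card (Fin ((thP κ s B.P z).coeff (e ⟨z, hzZ⟩))) := by
        rw [Nat.card_fin, hee]
      rw [h5]
      refine Nat.card_le_card_of_injective (fun i => ⟨⟨⟨z, hzZ⟩, i⟩, rfl⟩) ?_
      intro i j hij
      have h6 := congrArg Subtype.val hij
      simpa using h6

theorem DC5.smallFin {x : Pm n} (hx : InW κ x) (hs : Smp κ s) (hup : Up κ x (x * sw s))
    (B : KLObj κ x) (G : Frm (theta s B.O) (len κ x + 1)) (hG : IsThetaFrm s B.Fm G)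
    (hHR : HRop (theta s B.O) (len κ x + 1) G.F (Lrho (theta s B.O)))
    (hex : ∀ z, InW κ z → len κ z ≤ len κ x → Nonempty (KLObj κ z)) :
    ∃ (K : ℕ) (u : Fin K → Pm n) (Bu : ∀ k, KLObj κ (u k))
      (f : Fin K → ℕ) (φ : ∀ k, (Bu k).O.M →ₗ[Rg n] (theta s B.O).M)
      (ψ : ∀ k, (theta s B.O).M →ₗ[Rg n] (Bu k).O.M),
      (∀ k, InW κ (u k) ∧ u k ≠ x * sw s ∧ len κ (u k) + 2 * f k = len κ x + 1 ∧ 0 < f k) ∧
      (∀ k, BiMap (φ k) ∧ DegMap (φ k) (f k) ∧ BiMap (ψ k) ∧ DegMap (ψ k) (-(f k : ℤ))) ∧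
      (∀ k m b, (Bu k).Fm.F (ψ k m) b = G.F m (φ k b)) ∧
      (∀ k b, ψ k (φ k b) = (-1 : Rg n) ^ (f k) • b) ∧
      (∀ k l, k ≠ l → ∀ b, ψ k (φ l b) = 0) ∧
      (∀ z e, z ≠ x * sw s → len κ z + 2 * e = len κ x + 1 →
        (thP κ s B.P z).coeff e ≤ Nat.card {k // u k = z}) := by
  obtain ⟨ι, _, _, u, Bu, f, φ, ψ, h1, h2, h3, h4, h5, h6⟩ := DC5.small hx hs hup B G hG hHR hex
  let e := (Fintype.equivFin ι).symm
  refine ⟨Fintype.card ι, fun k => u (e k), fun k => Bu (e k), fun k => f (e k),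
    fun k => φ (e k), fun k => ψ (e k), fun k => h1 _, fun k => h2 _, fun k => h3 _,
    fun k => h4 _, fun k l hkl => h5 _ _ (fun h => hkl (e.injective h)), fun z i hz hi => ?_⟩
  rw [Nat.card_congr (e.subtypeEquiv (p := fun k => u (e k) = z) (q := fun k => u k = z)
    (fun k => Iff.rfl))]
  exact h6 z i hz hi

end KLFin
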