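import Mathlib
import Pool.Agent.KLFin.DC5L
import Pool.Agent.KLFin.DC5s
import Pool.Agent.KLFin.DC5i
import Pool.Agent.KLFin.DC5r
import Pool.Agent.KLFin.DC2
import Pool.Agent.KLFin.DC3
import Pool.Agent.KLFin.DC4
import Pool.Agent.KLFin.ST2
import Pool.Agent.KLFin.NI2

/-!
# Part C (C10), block DC5: the decomposition of `θ_s B_x` (MP_d9d356_co)
-/

open MvPolynomial

namespace KLFin

variable {n : ℕ} {κ : Fin n → ℕ} {s : Fin n × Fin n}

/-- construction of a KL object of type `w` from a summand of an object with its properties -/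
theorem DC5.mk {w : Pm n} {d : ℕ} (hd : d = len κ w) {N : Obj n} (hN : Nice κ N) (G : Frm N d)
    (hHR : HRop N d G.F (Lrho N)) {b : N.M} (hb : b ∈ N.dg 0) (hbne : ∃ i, N.π i = w ∧ b.1 i ≠ 0)
    (hsupp : ∀ (m : N.M) (i : N.I), N.π i ∉ Le (Up κ) w → m.1 i = 0)
    (hgen : ∀ m : N.M, ∃ f : Rg n, ∀ i, N.π i = w → m.1 i = f * b.1 i)
    (hlift : LiftProp κ w N b)
    (hbs : ∃ l : List (Fin n × Fin n), (∀ s ∈ l, Smp κ s) ∧ wprod l = w ∧ l.length = d ∧
      IsSummand N (BS l))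
    {P : Obj n} (Gm : Frm P d) (i : P.M →ₗ[Rg n] N.M) (p : N.M →ₗ[Rg n] P.M)
    (hπ : ∀ k, ∃ k', P.π k = N.π k') (hi : BiMap i) (hp : BiMap p) (hid : DegMap i 0)
    (hpd : DegMap p 0) (hpi : ∀ m, p (i m) = m) (hF : ∀ a b, Gm.F a b = G.F (i a) (i b))
    (hF' : ∀ a b, Gm.F (p a) b = G.F a (i b)) (hib : i (p b) = b)
    (S : Pm n → Polynomial ℕ) (hS : CharRel κ d P S) (hSw : S w = 1)
    (hSd : ∀ y, y ≠ w → S y ≠ 0 → len κ y + 2 * (S y).natDegree + 1 ≤ d)
    (hSs : ∀ y, y ∉ Le (Up κ) w → S y = 0)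
    (hSD : SD κ d (fun y => (S y).map (Nat.castRingHom ℤ))) :
    ∃ (Bw : KLObj κ w) (i' : Bw.O.M →ₗ[Rg n] N.M) (p' : N.M →ₗ[Rg n] Bw.O.M),
      BiMap i' ∧ BiMap p' ∧ DegMap i' 0 ∧ DegMap p' 0 ∧ (∀ m, p' (i' m) = m) ∧
      (∀ m, i' (p' m) = i (p m)) ∧ (∀ a b, Bw.Fm.F (p' a) b = G.F a (i' b)) := by
  subst hd
  have hsum : IsSummand P N := ⟨i, p, hi, hp, hid, hpd, hpi⟩
  have hval : ∀ (m m' : P.M) (k : P.I), (m - m').1 k = m.1 k - m'.1 k := fun _ _ _ => rfl
  have hval' : ∀ (m m' : N.M) (k : N.I), (m - m').1 k = m.1 k - m'.1 k := fun _ _ _ => rfl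
  refine ⟨⟨P, Gm, p b, S, hN.summand hsum ?_, ?_, (hpd 0 b hb).1 0 (by simp), ?_, ?_, hS, hSw,
    hSd, hSs, hSD, hlift.summand i p hi hp hid hpi (fun k _ => by rw [hib]), ?_,
    HRop.summand i p hi hp hid hpi hF hHR⟩, i, p, hi, hp, hid, hpd, hpi, fun _ => rfl, hF'⟩
  · intro k
    obtain ⟨k', hk'⟩ := hπ k
    rw [hk']
    exact hN.inW k'
  · intro m k hk
    have h1 := hp.vanish (y := P.π k) (m := i m) (fun j hj => hsupp _ _ (by rw [hj]; exact hk))
    have h2 := h1 k rfl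
    rwa [hpi] at h2
  · by_contra hcon
    push Not at hcon
    obtain ⟨j, hj, hbj⟩ := hbne
    have h1 := hi.vanish (y := w) (m := p b) hcon
    rw [hib] at h1
    exact hbj (h1 j hj)
  · intro m
    obtain ⟨f, hf⟩ := hgen (i m)
    refine ⟨f, fun k hk => ?_⟩
    have h1 : ∀ j, N.π j = w → (i m - f • b).1 j = 0 := by
      intro j hj
      rw [hval', hf j hj]
      exact sub_self _
    have h2 := hp.vanish h1 k hk
    rw [map_sub, hpi, map_smul, hval] at h2
    exact sub_eq_zero.mp h2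
  · obtain ⟨l, hl1, hl2, hl3, hl4⟩ := hbs
    exact ⟨l, hl1, hl2, hl3, hsum.trans hl4⟩

/-- DC5: assembling the decomposition and the KL object of type `x s` -/
theorem decomposition {x : Pm n} (hx : InW κ x) (hs : Smp κ s) (hup : Up κ x (x * sw s))
    (B : KLObj κ x) (G : Frm (theta s B.O) (len κ x + 1)) (hG : IsThetaFrm s B.Fm G)
    (hHR : HRop (theta s B.O) (len κ x + 1) G.F (Lrho (theta s B.O)))
    (hex : ∀ z, InW κ z → len κ z ≤ len κ x → Nonempty (KLObj κ z)) :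
    DecProp κ s B G := by
  classical
  obtain ⟨K, u, Bu, f, φ, ψ, h1, h2, h3, h4, h5, h6⟩ := DC5.smallFin hx hs hup B G hG hHR hex
  obtain ⟨q, hq1, hq2, hq3, hq4, hq5, hq6, hq7, hq8⟩ :=
    DC5.idem G (fun k => (Bu k).O) (fun k => len κ (u k)) (fun k => (Bu k).Fm) f φ ψ h2 h3 h4 h5
  obtain ⟨P, Gm, i, p, hπ, hi, hp, hid, hpd, hpi, hip, hF, hF'⟩ := Frm.ofIdem G q hq1 hq2 hq3 hq4
  obtain ⟨hg1, hg2, hg3, hg4⟩ := theta_gen hx hs hup B
  obtain ⟨hb1, hb2, hb3⟩ := thP_bound hx hs hup B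
  have hne : s.1 ≠ s.2 := ne_of_lt hs.1
  have hxs : InW κ (x * sw s) := hx.mul (InW_swap hs.2.1)
  have hlen : len κ (x * sw s) = len κ x + 1 := len_mul_sw hx hs hup
  have hN : Nice κ (theta s B.O) := B.nice.theta hs
  have hib : i (p (el s B.b0 0)) = el s B.b0 0 := by
    rw [hip]
    exact hq8 _ hg3 (fun k => (h1 k).2.2.2)
  have hpφ : ∀ k b, p (φ k b) = 0 := by
    intro k b
    have h := hip (φ k b)
    rw [hq6] at h
    rw [← hpi (p (φ k b)), h, map_zero]
  have hψi : ∀ k m, ψ k (i m) = 0 := by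
    intro k m
    have h := hip (i m)
    rw [hpi] at h
    rw [h]
    exact hq7 k _
  -- characters
  have hQ : CharRel κ (len κ x + 1) (theta s B.O) (thP κ s B.P) := by
    have h := B.char.theta B.nice.inW hs
    have e : (fun y => if Up κ y (y * sw s) then B.P y + Polynomial.X * B.P (y * sw s)
        else B.P (y * sw s) + Polynomial.X * B.P y) = thP κ s B.P := by
      funext y
      unfold thP
      rfl
    rwa [e] at h
  have hsgn : ∀ k, (-1 : Rg n) ^ (f k) * (-1 : Rg n) ^ (f k) = 1 := fun k => DC5.sq _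
  obtain ⟨S, hS, hQS⟩ := CharRel.compl hN hQ (P := P)
    (by
      intro k
      obtain ⟨k', hk'⟩ := hπ k
      rw [hk']
      exact hN.inW k') i p hi hp hid hpd hpi
    (fun k => (Bu k).O) (fun k => (Bu k).nice) (fun k => len κ (u k)) (fun k => (Bu k).P)
    (fun k => (Bu k).char) f (fun k => (h1 k).2.2.1) (fun k => (-1 : Rg n) ^ (f k) • φ k) ψ
    (by
      intro k
      refine ⟨?_, ?_⟩
      · intro j m
        rw [LinearMap.smul_apply, LinearMap.smul_apply, (h2 k).1 j, map_smul]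
      · intro i' a ha
        refine ⟨fun j hj => ?_, fun h => by omega⟩
        rw [LinearMap.smul_apply, DC5.neg_one_pow_C, DC1.C_smul_eq]
        exact Submodule.smul_mem _ _ (((h2 k).2.1 i' a ha).1 j hj))
    (fun k => ⟨(h2 k).2.2.1, (h2 k).2.2.2⟩)
    (by
      intro k b
      rw [LinearMap.smul_apply, map_smul, h4, smul_smul, hsgn, one_smul])
    (by
      intro k l hkl b
      rw [LinearMap.smul_apply, map_smul, h5 k l hkl, smul_zero])
    hψi
    (by
      intro k b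
      rw [LinearMap.smul_apply, map_smul, hpφ, smul_zero])
    (by
      intro m
      rw [hip]
      exact hq5 m)
  have hRw : ∀ k, (Bu k).P (x * sw s) = 0 := by
    intro k
    apply (Bu k).Psupp
    intro hmem
    obtain ⟨h7, h8⟩ := Le_len hmem
    have h9 := (h1 k).2.2.1
    have h10 := (h1 k).2.2.2
    omega
  have hdeg := compl_deg (κ := κ) (w := x * sw s) (d := len κ x + 1) hb1 hb2 hb3 u f
    (fun k => (Bu k).P) (fun k => (Bu k).Px) hRw (fun k => (h1 k).2.2.1) h6 hQS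
  have hSD := SD.compl hs B.sd (fun k => len κ (u k)) f (fun k => (Bu k).P)
    (fun k => (Bu k).sd) (fun k => (h1 k).2.2.1) (S := S) (by
      intro y
      rw [← hQS y]
      unfold thP
      rfl)
  obtain ⟨l, hl1, hl2, hl3, hl4⟩ := B.bs
  obtain ⟨Bw, i', p', hi', hp', hid', hpd', hpi', hip', hF''⟩ :=
    DC5.mk (w := x * sw s) (d := len κ x + 1) hlen.symm hN G hHR hg3 hg4 hg1 hg2
    (B.lift.theta hx hs hup B.nice B.b0_mem B.supp B.gen B.b0_ne)
    ⟨s :: l, by
      intro t ht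
      rcases List.mem_cons.mp ht with rfl | ht
      · exact hs
      · exact hl1 t ht, by
      change wprod l * sw s = _
      rw [hl2], by rw [List.length_cons, hl3], hl4.theta hne⟩
    Gm i p hπ hi hp hid hpd hpi hF hF' hib S hS hdeg.1 hdeg.2.1 hdeg.2.2 hSD
  have hp'φ : ∀ k b, p' (φ k b) = 0 := by
    intro k b
    have h := hip' (φ k b)
    rw [hpφ, map_zero] at h
    rw [← hpi' (p' (φ k b)), h, map_zero]
  have hψi' : ∀ k m, ψ k (i' m) = 0 := by
    intro k m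
    have h := hip' (i' m)
    rw [hpi'] at h
    rw [h, hψi]
  refine DC5.decProp_of (ι := Option (Fin K)) B G
    (fun o => Option.rec (x * sw s) u o)
    (fun o => Option.rec (motive := fun o => KLObj κ (Option.rec (x * sw s) u o)) Bw Bu o)
    (fun o => Option.rec 0 f o)
    (fun o => Option.rec (motive := fun o => ((Option.rec (motive := fun o => KLObj κ
      (Option.rec (x * sw s) u o)) Bw Bu o : KLObj κ (Option.rec (x * sw s) u o))).O.M →ₗ[Rg n]
        (theta s B.O).M) i' φ o)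
    (fun o => Option.rec (motive := fun o => (theta s B.O).M →ₗ[Rg n] ((Option.rec (motive := fun o => KLObj κ
      (Option.rec (x * sw s) u o)) Bw Bu o : KLObj κ (Option.rec (x * sw s) u o))).O.M) p' ψ o)
    ?_ ?_ ?_ ?_ ?_ ?_ ?_ ?_
  · rintro (_ | k)
    · exact ⟨hxs, by change len κ (x * sw s) + 2 * 0 = _; omega⟩
    · exact ⟨(h1 k).1, (h1 k).2.2.1⟩
  · rintro (_ | k)
    · exact ⟨hi', hid'⟩
    · exact ⟨(h2 k).1, (h2 k).2.1⟩
  · rintro (_ | k)
    · refine ⟨hp', ?_⟩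
      change DegMap p' (-((0 : ℕ) : ℤ))
      simpa using hpd'
    · exact ⟨(h2 k).2.2.1, (h2 k).2.2.2⟩
  · rintro (_ | k)
    · exact hF''
    · exact h3 k
  · rintro (_ | k)
    · intro b
      change p' (i' b) = (-1 : Rg n) ^ 0 • b
      rw [pow_zero, one_smul, hpi']
    · exact h4 k
  · rintro (_ | k) (_ | l') hkl
    · exact absurd rfl hkl
    · exact hp'φ l'
    · exact hψi' k
    · exact h5 k l' (fun h => hkl (by rw [h]))
  · intro m
    rw [Fintype.sum_option]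
    change m = (-1 : Rg n) ^ 0 • i' (p' m) + ∑ k, (-1 : Rg n) ^ (f k) • φ k (ψ k m)
    rw [pow_zero, one_smul, hip', hip]
    exact hq5 m
  · exact ⟨none, rfl, rfl⟩

end KLFin
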