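import Mathlib
import Pool.Agent.KLFin.CDefs3

/-! Block L5 of DC5 (MP_d9d356_co): self-dual characters of a complement. -/

open MvPolynomial

namespace KLFin

variable {n : ℕ} {κ : Fin n → ℕ} {s : Fin n × Fin n}

theorem SD.shift_pow {d : ℕ} {f : Pm n → Polynomial ℤ} (h : SD κ d f) (k : ℕ) :
    SD κ (d + 2 * k) (fun y => Polynomial.X ^ k * f y) := by
  induction k with
  | zero => simpa using h
  | succ k ih =>
    have h1 := ih.shift
    have h2 : (fun y => Polynomial.X * (Polynomial.X ^ k * f y)) =
        (fun y => Polynomial.X ^ (k + 1) * f y) := by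
      funext y
      ring
    rw [h2] at h1
    have h3 : d + 2 * (k + 1) = d + 2 * k + 2 := by ring
    rw [h3]
    exact h1

theorem SD.sum {d : ℕ} {ι : Type} (t : Finset ι) (g : ι → Pm n → Polynomial ℤ)
    (h : ∀ k ∈ t, SD κ d (g k)) : SD κ d (fun y => ∑ k ∈ t, g k y) := by
  classical
  induction t using Finset.induction_on with
  | empty =>
    simp only [Finset.sum_empty]
    exact SD.zero d
  | insert a t ha ih =>
    have h1 := (h a (Finset.mem_insert_self _ _)).add
      (ih fun k hk => h k (Finset.mem_insert_of_mem hk))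
    have h2 : (g a + fun y => ∑ k ∈ t, g k y) = fun y => ∑ k ∈ insert a t, g k y := by
      funext y
      rw [Finset.sum_insert ha]
      rfl
    rwa [h2] at h1

open Classical in
/-- L5 -/
theorem SD.compl (hs : Smp κ s) {d : ℕ} {P S : Pm n → Polynomial ℕ}
    (hP : SD κ d (fun y => (P y).map (Nat.castRingHom ℤ))) {ι : Type} [Fintype ι]
    (l f : ι → ℕ) (R : ι → Pm n → Polynomial ℕ)
    (hR : ∀ k, SD κ (l k) (fun y => (R k y).map (Nat.castRingHom ℤ)))
    (hf : ∀ k, l k + 2 * f k = d + 1)
    (hQ : ∀ y, (if Up κ y (y * sw s) then P y + Polynomial.X * P (y * sw s)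
        else P (y * sw s) + Polynomial.X * P y) = S y + ∑ k, Polynomial.X ^ (f k) * R k y) :
    SD κ (d + 1) (fun y => (S y).map (Nat.castRingHom ℤ)) := by
  have h1 := SD.mul s hs hP
  have h2 : SD κ (d + 1) (fun y => ∑ k, Polynomial.X ^ (f k) *
      (R k y).map (Nat.castRingHom ℤ)) := by
    apply SD.sum
    intro k _
    rw [← hf k]
    exact (hR k).shift_pow (f k)
  have h3 := h1.add h2.neg
  convert h3 using 1
  funext y
  have h4 := congrArg (Polynomial.map (Nat.castRingHom ℤ)) (hQ y)
  rw [Polynomial.map_add, Polynomial.map_sum] at h4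
  simp only [Polynomial.map_mul, Polynomial.map_pow, Polynomial.map_X] at h4
  rw [Pi.add_apply, Pi.neg_apply, ← sub_eq_add_neg, eq_sub_iff_add_eq, ← h4]
  split_ifs with h
  · simp [Polynomial.map_mul, Polynomial.map_X]
  · simp [Polynomial.map_mul, Polynomial.map_X]

end KLFin
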