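import Mathlib
import Pool.Agent.KLFin.CDefs3
import Pool.Agent.KLFin.CD
import Pool.Agent.KLFin.CE1
import Pool.Agent.KLFin.CE2
import Pool.Agent.KLFin.DP2
import Pool.Agent.KLFin.QT1
import Pool.Agent.KLFin.QT2
import Pool.Agent.KLFin.LA3

/-!
# Part C, block DP3: Hodge-Riemann relations for `θ_s B_x`, `x s < x` (MP_d9d356_co)
-/

open MvPolynomial

namespace KLFin

variable {n : ℕ} {κ : Fin n → ℕ} {s : Fin n × Fin n}

namespace DP3

theorem C_smul_eq {O : Obj n} (c : ℝ) (m : O.M) : (C c : Rg n) • m = c • m := by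
  have := algebraMap_smul (Rg n) c m
  rwa [MvPolynomial.algebraMap_eq] at this

theorem el_rsmul {O : Obj n} (c : ℝ) (a b : O.M) : el s (c • a) (c • b) = c • el s a b := by
  rw [← C_smul_eq, ← C_smul_eq, ← C_smul_eq, el_smul]

theorem cc_act (w : Pm n) (f : Rg n) : constantCoeff (act w f) = constantCoeff f := by
  simp [act]

theorem cc_of_homog {f : Rg n} {d : ℕ} (hf : f.IsHomogeneous (d + 1)) : constantCoeff f = 0 := by
  rw [constantCoeff_eq]
  exact hf.coeff_eq_zero (by simp)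

/-- the operator on `O` inducing `ρ· + ζ·(·ρ)` -/
noncomputable def L0 (O : Obj n) (ζ : ℝ) : O.M →ₗ[ℝ] O.M :=
  Lrho O + ζ • (O.rmul (rho n)).restrictScalars ℝ

theorem L0_apply (O : Obj n) (ζ : ℝ) (a : O.M) :
    L0 O ζ a = rho n • a + ζ • O.rmul (rho n) a := rfl

theorem Lz_el {O : Obj n} (T : (theta s O).M →ₗ[ℝ] (theta s O).M) (hT : IsMid s O T) (ζ : ℝ)
    (k : ℕ) (a b : O.M) :
    ((Lrho (theta s O) + ζ • T) ^ k) (el s a b) = el s ((L0 O ζ ^ k) a) ((L0 O ζ ^ k) b) := by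
  induction k with
  | zero => rfl
  | succ k ih =>
    rw [pow_succ', Module.End.mul_apply, ih, pow_succ', Module.End.mul_apply,
      Module.End.mul_apply, L0_apply, L0_apply, el_add, el_smul, el_rsmul, ← hT]
    rfl

theorem rho_homog : (rho n).IsHomogeneous 1 := by
  unfold rho
  refine IsHomogeneous.sum _ _ _ fun i _ => ?_
  simpa using (isHomogeneous_C (Fin n) (-(i : ℝ))).mul (isHomogeneous_X ℝ i)

end DP3

open DP3 in
/-- Hodge-Riemann for `θ_s B_x`, `x s < x`, `ζ > 0` (tensor product with `H^*(P^1)`) -/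
theorem theta_HR_descent {x : Pm n} (B : KLObj κ x) (hs : Smp κ s) (hD : DProp κ B s)
    (G : Frm (theta s B.O) (len κ x + 1)) (hG : IsThetaFrm s B.Fm G)
    (T : (theta s B.O).M →ₗ[ℝ] (theta s B.O).M) (hT : IsMid s B.O T) :
    ∀ ζ : ℝ, 0 < ζ →
      HRop (theta s B.O) (len κ x + 1) G.F (Lrho (theta s B.O) + ζ • T) := by
  intro ζ hζ
  have hss : s.1 ≠ s.2 := hs.1.ne
  obtain ⟨D, h1, h2, hdeg, h3, h4⟩ := hD
  obtain ⟨Fq, Lq, ⟨hFq, hLq⟩, hLef, hHR, -⟩ := exists_quot B.nice B.Fm (Lrho B.O) (AdmOp_rho B.Fm)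
  have := Qt_finite B.nice
  -- the constant
  obtain ⟨u, v, hu, hv, huv, hvd, huh⟩ := dem_decomp hss (rho n)
  have hdr := dem_act_rho hss (1 : Pm n)
  simp only [inv_one, act_one, Equiv.Perm.coe_one, id_eq] at hdr
  set c : ℝ := 1 / 2 * ((s.2 : ℝ) - (s.1 : ℝ)) with hc
  have hvc : v = C c := by rw [hvd, hdr, ← C_mul]
  have hc0 : 0 < c := by
    have : (s.1 : ℕ) < (s.2 : ℕ) := hs.1
    have : ((s.1 : ℕ) : ℝ) < ((s.2 : ℕ) : ℝ) := by exact_mod_cast this
    rw [hc]; linarith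
  have hu1 : constantCoeff u = 0 := cc_of_homog (huh 1 rho_homog)
  -- notation
  set q := (B.O.MRp.restrictScalars ℝ).mkQ with hq
  have hq0 : ∀ m, q m = 0 ↔ m ∈ B.O.MRp := by
    intro m
    rw [hq, Submodule.mkQ_apply, Submodule.Quotient.mk_eq_zero]
    rfl
  let Φ : B.O.M →ₗ[ℝ] B.O.Qt × B.O.Qt := q.prod (q.comp (D.restrictScalars ℝ))
  have hΦ : ∀ a, Φ a = (q a, q (D a)) := fun a => rfl
  -- kernel
  have hker : ∀ a, Φ a = 0 ↔ a ∈ B.O.MRs s := by
    intro a
    obtain ⟨n₀, n₁, -, -, -, hn1, hiff, hiff2⟩ := DProp.split B.nice hs D h1 h2 h3 a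
    rw [hiff, ← hiff2, hn1, hΦ, Prod.mk_eq_zero, hq0, hq0]
  -- the operator
  have hΦL : ∀ a, Φ (L0 B.O ζ a) = tensL Lq ((ζ * c) • LinearMap.id) (Φ a) := by
    intro a
    have e1 : B.O.rmul (rho n) a = B.O.rmul u a + c • B.O.rmul (al 1 s) a := by
      rw [huv, hvc, Obj.rmul_add, Obj.rmul_mul, ← C_smul_eq]
      congr 1
      ext1; funext i
      simp
    have hDr : D (B.O.rmul (rho n) a) = B.O.rmul u (D a) + c • (a - B.O.rmul (al 1 s) (D a)) := by
      rw [e1, map_add, h2 u hu, ← C_smul_eq, ← C_smul_eq, map_smul]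
      congr 2
      rw [eq_sub_iff_add_eq]
      exact h1 a
    have hal : constantCoeff (al 1 s : Rg n) = 0 := cc_of_homog (al_homog 1 s)
    have hrho : constantCoeff (rho n) = 0 := cc_of_homog rho_homog
    rw [hΦ, hΦ, tensL_apply, L0_apply]
    refine Prod.ext ?_ ?_
    · show q (rho n • a + ζ • B.O.rmul (rho n) a) = Lq (q a)
      have e0 : q (B.O.rmul (rho n) a) = 0 := (hq0 _).2 (mem_MRp_of_rmul hrho a)
      rw [q.map_add, q.map_smul, e0, smul_zero, add_zero]
      exact (hLq a).symm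
    · show q (D (rho n • a + ζ • B.O.rmul (rho n) a)) = Lq (q (D a)) + (ζ * c) • q a
      rw [D.map_add, q.map_add]
      have e2 : D (ζ • B.O.rmul (rho n) a) = ζ • D (B.O.rmul (rho n) a) := by
        rw [← C_smul_eq, map_smul, C_smul_eq]
      have e3 : q (B.O.rmul u (D a)) = 0 := (hq0 _).2 (mem_MRp_of_rmul hu1 (D a))
      have e4 : q (B.O.rmul (al 1 s) (D a)) = 0 := (hq0 _).2 (mem_MRp_of_rmul hal (D a))
      have e5 : q (ζ • D (B.O.rmul (rho n) a)) = (ζ * c) • q a := by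
        rw [hDr, q.map_smul, q.map_add, q.map_smul, q.map_sub, e3, e4, zero_add, sub_zero,
          smul_smul]
      have e6 : D (rho n • a) = rho n • D a := D.map_smul _ _
      rw [e2, e5, e6]
      congr 1
      exact (hLq (D a)).symm
  have hΦk : ∀ k a, Φ ((L0 B.O ζ ^ k) a) = (tensL Lq ((ζ * c) • LinearMap.id) ^ k) (Φ a) := by
    intro k
    induction k with
    | zero => intro a; rfl
    | succ k ih =>
      intro a
      rw [pow_succ', Module.End.mul_apply, hΦL, ih, pow_succ', Module.End.mul_apply]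
  -- the form
  have hform : ∀ a b a' b', constantCoeff (G.F (el s a b) (el s a' b')) =
      tensF Fq 0 (Φ a) (Φ a') := by
    intro a b a' b'
    have hal : constantCoeff (al 1 s : Rg n) = 0 := cc_of_homog (al_homog 1 s)
    rw [hG, tensF_apply, h4]
    simp only [map_add, map_mul, hal, zero_mul, add_zero, LinearMap.zero_apply, zero_add, cc_act,
      hΦ]
    rw [hFq, hFq]
    have : constantCoeff (2 : Rg n) = 2 := by
      rw [← (map_ofNat (C : ℝ →+* Rg n) 2)]; simp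
    rw [this]; ring
  -- conclusion
  have hmain := HRie_tens hLef (hHR.1 B.hr) (ζ * c) (mul_pos hζ hc0)
  intro i hi b hb hL
  obtain ⟨a, a', rfl⟩ := el_surj b
  rw [Lz_el T hT, el_mem_MRp hss, ← hker, hΦk] at hL
  rw [el_mem_MRp hss, ← hker, Lz_el T hT, hform, hΦk]
  by_cases hne : Φ a = 0
  · exact Or.inl hne
  · right
    refine hmain i hi (Φ a) ?_ hL hne
    rw [hΦ]
    cases i with
    | zero =>
      obtain ⟨ha, rfl⟩ := (el_mem_dg0 hss _ _).1 hb
      refine Submodule.mem_prod.2 ⟨?_, ?_⟩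
      · exact Submodule.mem_map_of_mem ha
      · have : D a = 0 := (hdeg 0 a ha).2 (by norm_num)
        simp [this]
    | succ i =>
      obtain ⟨ha, hb'⟩ := (el_mem_dg hss _ _ _).1 hb
      refine Submodule.mem_prod.2 ⟨?_, ?_⟩
      · exact Submodule.mem_map_of_mem ha
      · exact Submodule.mem_map_of_mem ((hdeg (i + 1) a ha).1 i (by push_cast; ring))

end KLFin
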