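import Mathlib
import Pool.Agent.KLFin.CDefs2
import Pool.Agent.KLFin.CD
import Pool.Agent.KLFin.CE1

/-!
# Part C, block FR1 (MP_d9d356_co): the perfect form on `R_e` and on `θ_s O`
-/

open MvPolynomial

namespace KLFin

variable {n : ℕ}

theorem Frm_Re : ∃ G : Frm (Re n) 0, ∀ a b : (Re n).M, G.F a b = a.1 () * b.1 () := by
  have hF : ∃ F : (Re n).M →ₗ[ℝ] (Re n).M →ₗ[ℝ] Rg n, ∀ a b, F a b = a.1 () * b.1 () := by
    refine ⟨LinearMap.mk₂ ℝ (fun a b : (Re n).M => (a.1 () * b.1 () : Rg n)) ?_ ?_ ?_ ?_, ?_⟩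
    · intro a b c
      exact add_mul (a.1 () : Rg n) (b.1 ()) (c.1 ())
    · intro c a b
      exact smul_mul_assoc c (a.1 () : Rg n) (b.1 ())
    · intro a b c
      exact mul_add (a.1 () : Rg n) (b.1 ()) (c.1 ())
    · intro c a b
      exact mul_smul_comm c (a.1 () : Rg n) (b.1 ())
    · intro a b
      rfl
  obtain ⟨F, hF⟩ := hF
  have hr : ∀ (f : Rg n) (a : (Re n).M), ((Re n).rmul f a).1 () = f * a.1 () := by
    intro f a
    have h1 : ((Re n).rmul f a).1 () = act ((Re n).π ()) f * a.1 () := rfl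
    rw [h1]
    have h2 : (Re n).π () = 1 := rfl
    rw [h2, act_one]
  refine ⟨{ F := F
            symm := ?_
            left := ?_
            right := ?_
            deg := ?_
            deg0 := ?_
            perfect := ?_
            nondeg := ?_ }, hF⟩
  · intro a b
    rw [hF, hF, mul_comm]
  · intro f a b
    rw [hF, hF]
    have h1 : (f • a).1 () = f * a.1 () := rfl
    have h2 : (f • b).1 () = f * b.1 () := rfl
    rw [h1, h2]
    ring
  · intro f a b
    rw [hF, hF, hr]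
    ring
  · intro i j k a ha b hb hij
    rw [hF]
    have h := (ha ()).mul (hb ())
    rw [hij, add_zero] at h
    exact h
  · intro i j a _ b _ hij
    exact absurd hij (Nat.not_lt_zero _)
  · intro g hg
    let e : (Re n).M := ⟨fun _ => 1, trivial⟩
    refine ⟨⟨fun _ => g e, trivial⟩, ?_⟩
    intro a
    rw [hF]
    have h1 : a = (Re n).rmul (a.1 ()) e := by
      apply Subtype.ext
      funext i
      have h2 := hr (a.1 ()) e
      have h3 : e.1 () = 1 := rfl
      rw [h3, mul_one] at h2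
      exact h2.symm
    conv_lhs => rw [h1, hg]
  · intro b hb
    let e : (Re n).M := ⟨fun _ => 1, trivial⟩
    have h1 := hb e
    rw [hF] at h1
    have h3 : e.1 () = 1 := rfl
    rw [h3, one_mul] at h1
    apply Subtype.ext
    funext i
    exact h1

/-! ### the Demazure operator: consequences -/

section

variable {s : Fin n × Fin n}

theorem FR_dem_zero (hs : s.1 ≠ s.2) : dem s (0 : Rg n) = 0 := dem_inv hs (map_zero _)

theorem FR_dem_al_mul (hs : s.1 ≠ s.2) (f : Rg n) :
    dem s (al 1 s * f) = 2 * f - al 1 s * dem s f := by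
  rw [dem_mul hs, dem_al hs, act_sw_al]
  ring

theorem FR_dem_al_al_mul (hs : s.1 ≠ s.2) (f : Rg n) :
    dem s (al 1 s * al 1 s * f) = al 1 s * al 1 s * dem s f := by
  refine dem_inv_mul hs ?_ f
  rw [map_mul, act_sw_al]
  ring

/-- `u + α v = 0` with `u`, `v` invariant implies `u = v = 0` -/
theorem FR_uv_zero (hs : s.1 ≠ s.2) {u v : Rg n} (hu : act (sw s) u = u)
    (hv : act (sw s) v = v) (h : u + al 1 s * v = 0) : u = 0 ∧ v = 0 := by
  have h1 := congrArg (act (sw s)) h
  rw [map_add, map_mul, hu, hv, act_sw_al, map_zero] at h1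
  have h2 : (2 : Rg n) * u = 0 := by linear_combination h + h1
  have h3 : u = 0 := by
    rcases mul_eq_zero.1 h2 with h4 | h4
    · exact absurd h4 two_ne_zero
    · exact h4
  refine ⟨h3, ?_⟩
  rw [h3, zero_add] at h
  rcases mul_eq_zero.1 h with h4 | h4
  · exact absurd h4 (al_ne_zero hs 1)
  · exact h4

/-- `∂ f = 0` and `∂ (α f) = 0` imply `f = 0` -/
theorem FR_dem_nondeg (hs : s.1 ≠ s.2) {f : Rg n} (h1 : dem s f = 0)
    (h2 : dem s (al 1 s * f) = 0) : f = 0 := by
  rw [FR_dem_al_mul hs, h1, mul_zero, sub_zero] at h2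
  rcases mul_eq_zero.1 h2 with h4 | h4
  · exact absurd h4 two_ne_zero
  · exact h4

/-- `∂_s` as a linear map -/
noncomputable def demL (s : Fin n × Fin n) (hs : s.1 ≠ s.2) : Rg n →ₗ[ℝ] Rg n where
  toFun := dem s
  map_add' := dem_add hs
  map_smul' := dem_smul hs

theorem demL_apply (hs : s.1 ≠ s.2) (f : Rg n) : demL s hs f = dem s f := rfl

theorem C_smul_M (O : Obj n) (c : ℝ) (a : O.M) : (C c : Rg n) • a = c • a :=
  algebraMap_smul (Rg n) c a

theorem el_smul_real {O : Obj n} (c : ℝ) (a b : O.M) :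
    el s (c • a) (c • b) = c • el s a b := by
  rw [← C_smul_M, ← C_smul_M, ← C_smul_M, el_smul]

/-- the map `(a, b) ↦ a ⊗ 1 + b ⊗ α` -/
noncomputable def elLin (s : Fin n × Fin n) (O : Obj n) : (O.M × O.M) →ₗ[ℝ] (theta s O).M where
  toFun p := el s p.1 p.2
  map_add' p q := el_add p.1 p.2 q.1 q.2
  map_smul' c p := el_smul_real c p.1 p.2

theorem elLin_apply (O : Obj n) (a b : O.M) : elLin s O (a, b) = el s a b := rfl

theorem elLin_bij (hs : s.1 ≠ s.2) (O : Obj n) : Function.Bijective (elLin s O) := by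
  constructor
  · rintro ⟨a, b⟩ ⟨a', b'⟩ h
    rw [elLin_apply, elLin_apply] at h
    obtain ⟨h1, h2⟩ := el_inj hs h
    rw [h1, h2]
  · intro m
    obtain ⟨a, b, rfl⟩ := el_surj m
    exact ⟨(a, b), rfl⟩

/-- the parametrization `(a, b) ↦ a ⊗ 1 + b ⊗ α` of `θ_s O` -/
noncomputable def elEquiv (s : Fin n × Fin n) (hs : s.1 ≠ s.2) (O : Obj n) :
    (O.M × O.M) ≃ₗ[ℝ] (theta s O).M :=
  LinearEquiv.ofBijective (elLin s O) (elLin_bij hs O)

theorem elEquiv_apply (hs : s.1 ≠ s.2) (O : Obj n) (a b : O.M) :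
    elEquiv s hs O (a, b) = el s a b := rfl

theorem elEquiv_symm_el (hs : s.1 ≠ s.2) (O : Obj n) (a b : O.M) :
    (elEquiv s hs O).symm (el s a b) = (a, b) := by
  rw [← elEquiv_apply hs O a b, LinearEquiv.symm_apply_apply]

/-- the bilinear map on pairs -/
noncomputable def thPair (s : Fin n × Fin n) (hs : s.1 ≠ s.2) {O : Obj n} {d : ℕ}
    (Fm : Frm O d) : (O.M × O.M) →ₗ[ℝ] (O.M × O.M) →ₗ[ℝ] Rg n :=
  LinearMap.mk₂ ℝ (fun p q => demL s hs (Fm.F p.1 q.1) +
      al 1 s * (demL s hs (Fm.F p.1 q.2) + demL s hs (Fm.F p.2 q.1))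
      + al 1 s * al 1 s * demL s hs (Fm.F p.2 q.2))
    (by
      intro p p' q
      simp only [Prod.fst_add, Prod.snd_add, map_add, LinearMap.add_apply]
      ring)
    (by
      intro c p q
      simp only [Prod.smul_fst, Prod.smul_snd, map_smul, LinearMap.smul_apply]
      simp only [MvPolynomial.smul_eq_C_mul]
      ring)
    (by
      intro p q q'
      simp only [Prod.fst_add, Prod.snd_add, map_add]
      ring)
    (by
      intro c p q
      simp only [Prod.smul_fst, Prod.smul_snd, map_smul]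
      simp only [MvPolynomial.smul_eq_C_mul]
      ring)

theorem thPair_apply (hs : s.1 ≠ s.2) {O : Obj n} {d : ℕ} (Fm : Frm O d) (a b a' b' : O.M) :
    thPair s hs Fm (a, b) (a', b') = dem s (Fm.F a a') +
      al 1 s * (dem s (Fm.F a b') + dem s (Fm.F b a')) + al 1 s * al 1 s * dem s (Fm.F b b') :=
  rfl

/-- the bilinear map on `θ_s O` -/
noncomputable def thFun (s : Fin n × Fin n) (hs : s.1 ≠ s.2) {O : Obj n} {d : ℕ}
    (Fm : Frm O d) : (theta s O).M →ₗ[ℝ] (theta s O).M →ₗ[ℝ] Rg n :=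
  (thPair s hs Fm).compl₁₂ (elEquiv s hs O).symm.toLinearMap (elEquiv s hs O).symm.toLinearMap

theorem thFun_el (hs : s.1 ≠ s.2) {O : Obj n} {d : ℕ} (Fm : Frm O d) (a b a' b' : O.M) :
    thFun s hs Fm (el s a b) (el s a' b') = dem s (Fm.F a a') +
      al 1 s * (dem s (Fm.F a b') + dem s (Fm.F b a')) + al 1 s * al 1 s * dem s (Fm.F b b') := by
  have h1 : thFun s hs Fm (el s a b) (el s a' b') =
      thPair s hs Fm ((elEquiv s hs O).symm (el s a b)) ((elEquiv s hs O).symm (el s a' b')) := rfl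
  rw [h1, elEquiv_symm_el, elEquiv_symm_el, thPair_apply]

theorem Frm_right' {O : Obj n} {d : ℕ} (Fm : Frm O d) (f : Rg n) (a b : O.M) :
    Fm.F a (O.rmul f b) = f * Fm.F a b := by
  rw [Fm.symm, Fm.right, Fm.symm]

/-- degree bookkeeping: the term `α^p ∂ ⟨x, y⟩` -/
theorem FR_deg_term (hs : s.1 ≠ s.2) {O : Obj n} {d : ℕ} (Fm : Frm O d) {i j k : ℕ} (p : ℕ)
    {x y : O.M} (hx : x ∈ O.dg i) (hy : y ∈ O.dg j) (h : p + i + j = k + d + 1) :
    (al 1 s ^ p * dem s (Fm.F x y)).IsHomogeneous k := by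
  by_cases h1 : i + j < d
  · rw [Fm.deg0 i j x hx y hy h1, FR_dem_zero hs, mul_zero]
    exact isHomogeneous_zero _ _ _
  · obtain ⟨l, hl⟩ : ∃ l, i + j = l + d := ⟨i + j - d, by omega⟩
    have h2 := Fm.deg i j l x hx y hy hl
    cases l with
    | zero =>
      rw [dem_homog0 hs h2, mul_zero]
      exact isHomogeneous_zero _ _ _
    | succ l =>
      have h3 := dem_homog hs h2
      have h4 := ((al_homog (1 : Pm n) s).pow p).mul h3
      have h5 : 1 * p + l = k := by omega
      rw [h5] at h4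
      exact h4

/-- degree bookkeeping: `∂ ⟨x, y⟩ = 0` in small degrees -/
theorem FR_deg0_term (hs : s.1 ≠ s.2) {O : Obj n} {d : ℕ} (Fm : Frm O d) {i j : ℕ}
    {x y : O.M} (hx : x ∈ O.dg i) (hy : y ∈ O.dg j) (h : i + j ≤ d) :
    dem s (Fm.F x y) = 0 := by
  rcases Nat.lt_or_ge (i + j) d with h1 | h1
  · rw [Fm.deg0 i j x hx y hy h1, FR_dem_zero hs]
  · have h2 := Fm.deg i j 0 x hx y hy (by omega)
    exact dem_homog0 hs h2

/-- right linear functionals with respect to invariants come from the form -/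
theorem FR_perfect_half (hs : s.1 ≠ s.2) {O : Obj n} {d : ℕ} (Fm : Frm O d)
    (u : O.M →ₗ[ℝ] Rg n) (hu : ∀ a, act (sw s) (u a) = u a)
    (hlin : ∀ f, act (sw s) f = f → ∀ a, u (O.rmul f a) = f * u a) :
    ∃ b, ∀ a, dem s (Fm.F a b) = u a := by
  -- `h a = (u (a α) + α u a) / 2`
  have hmulL : ∃ h : O.M →ₗ[ℝ] Rg n,
      ∀ a, h a = C (1 / 2) * (u (O.rmul (al 1 s) a) + al 1 s * u a) := by
    refine ⟨{ toFun := fun a => C (1 / 2) * (u (O.rmul (al 1 s) a) + al 1 s * u a),
              map_add' := ?_, map_smul' := ?_ }, fun a => rfl⟩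
    · intro a b
      rw [map_add, map_add, map_add]
      ring
    · intro c a
      have h1 : O.rmul (al 1 s) (c • a) = c • O.rmul (al 1 s) a := by
        apply Subtype.ext
        funext i
        show act (O.π i) (al 1 s) * (c • a.1 i) = c • (act (O.π i) (al 1 s) * a.1 i)
        rw [mul_smul_comm]
      rw [h1, map_smul, map_smul, RingHom.id_apply, MvPolynomial.smul_eq_C_mul,
        MvPolynomial.smul_eq_C_mul, MvPolynomial.smul_eq_C_mul]
      ring
  obtain ⟨h, hh⟩ := hmulL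
  have hC : (C (1 / 2) : Rg n) * 2 = 1 := C_half_two
  have hinv : ∀ f, act (sw s) f = f → ∀ a, h (O.rmul f a) = f * h a := by
    intro f hf a
    rw [hh, hh, ← Obj.rmul_mul, mul_comm (al 1 s) f, Obj.rmul_mul, hlin f hf, hlin f hf]
    ring
  have hal : ∀ a, h (O.rmul (al 1 s) a) = al 1 s * h a := by
    intro a
    have h2 : act (sw s) (al 1 s * al 1 s : Rg n) = al 1 s * al 1 s := by
      rw [map_mul, act_sw_al]
      ring
    rw [hh, hh, ← Obj.rmul_mul, hlin _ h2]
    ring
  have hall : ∀ (f : Rg n) (a : O.M), h (O.rmul f a) = f * h a := by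
    intro f a
    obtain ⟨x, y, hx, hy, hf, _⟩ := dem_decomp hs f
    rw [hf, Obj.rmul_add, map_add, hinv x hx, Obj.rmul_mul, hinv y hy, hal]
    ring
  obtain ⟨b, hb⟩ := Fm.perfect h hall
  refine ⟨b, fun a => ?_⟩
  rw [← hb a, hh]
  have h3 : dem s (C (1 / 2) * (u (O.rmul (al 1 s) a) + al 1 s * u a)) =
      C (1 / 2) * dem s (u (O.rmul (al 1 s) a) + al 1 s * u a) :=
    dem_inv_mul hs (act_C _ _) _
  rw [h3, dem_add hs, dem_inv hs (hu _), FR_dem_al_mul hs, dem_inv hs (hu a), mul_zero,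
    sub_zero, zero_add]
  linear_combination (u a) * hC

end

theorem exists_thetaFrm {O : Obj n} {d : ℕ} (Fm : Frm O d) {s : Fin n × Fin n}
    (hs : s.1 ≠ s.2) : ∃ G : Frm (theta s O) (d + 1), IsThetaFrm s Fm G := by
  have hal2 : act (sw s) (al 1 s * al 1 s : Rg n) = al 1 s * al 1 s := by
    rw [map_mul, act_sw_al]
    ring
  -- right linearity
  have hinv : ∀ f, act (sw s) f = f → ∀ m m' : (theta s O).M,
      thFun s hs Fm ((theta s O).rmul f m) m' = f * thFun s hs Fm m m' := by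
    intro f hf m m'
    obtain ⟨a, b, rfl⟩ := el_surj m
    obtain ⟨a', b', rfl⟩ := el_surj m'
    rw [rmul_el_inv hs hf, thFun_el, thFun_el, Fm.right, Fm.right, Fm.right, Fm.right,
      dem_inv_mul hs hf, dem_inv_mul hs hf, dem_inv_mul hs hf, dem_inv_mul hs hf]
    ring
  have hal : ∀ m m' : (theta s O).M,
      thFun s hs Fm ((theta s O).rmul (al 1 s) m) m' = al 1 s * thFun s hs Fm m m' := by
    intro m m'
    obtain ⟨a, b, rfl⟩ := el_surj m
    obtain ⟨a', b', rfl⟩ := el_surj m'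
    rw [rmul_el_al hs, thFun_el, thFun_el, Fm.right, Fm.right,
      FR_dem_al_al_mul hs, FR_dem_al_al_mul hs]
    ring
  have hright : ∀ (f : Rg n) (m m' : (theta s O).M),
      thFun s hs Fm ((theta s O).rmul f m) m' = f * thFun s hs Fm m m' := by
    intro f m m'
    obtain ⟨x, y, hx, hy, hf, _⟩ := dem_decomp hs f
    rw [hf, Obj.rmul_add, map_add, LinearMap.add_apply, hinv x hx, Obj.rmul_mul, hinv y hy, hal]
    ring
  have hsymm : ∀ m m' : (theta s O).M, thFun s hs Fm m m' = thFun s hs Fm m' m := by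
    intro m m'
    obtain ⟨a, b, rfl⟩ := el_surj m
    obtain ⟨a', b', rfl⟩ := el_surj m'
    rw [thFun_el, thFun_el, Fm.symm a a', Fm.symm a b', Fm.symm b a', Fm.symm b b']
    ring
  refine ⟨{ F := thFun s hs Fm
            symm := hsymm
            left := ?_
            right := hright
            deg := ?_
            deg0 := ?_
            perfect := ?_
            nondeg := ?_ }, ?_⟩
  · intro f m m'
    obtain ⟨a, b, rfl⟩ := el_surj m
    obtain ⟨a', b', rfl⟩ := el_surj m'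
    rw [← el_smul, ← el_smul, thFun_el, thFun_el, Fm.left, Fm.left, Fm.left, Fm.left]
  · intro i j k m hm m' hm' hij
    obtain ⟨a, b, rfl⟩ := el_surj m
    obtain ⟨a', b', rfl⟩ := el_surj m'
    rw [thFun_el, mul_add]
    -- four terms
    have key : ∀ (i : ℕ) (a b : O.M), el s a b ∈ (theta s O).dg i →
        a ∈ O.dg i ∧ (b = 0 ∨ ∃ i', i = i' + 1 ∧ b ∈ O.dg i') := by
      intro i a b h
      cases i with
      | zero =>
        obtain ⟨h1, h2⟩ := (el_mem_dg0 hs a b).1 h
        exact ⟨h1, Or.inl h2⟩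
      | succ i =>
        obtain ⟨h1, h2⟩ := (el_mem_dg hs a b i).1 h
        exact ⟨h1, Or.inr ⟨i, rfl, h2⟩⟩
    obtain ⟨ha, hb⟩ := key i a b hm
    obtain ⟨ha', hb'⟩ := key j a' b' hm'
    have t1 : (dem s (Fm.F a a')).IsHomogeneous k := by
      have := FR_deg_term hs Fm (k := k) 0 ha ha' (by omega)
      rwa [pow_zero, one_mul] at this
    have t2 : (al 1 s * dem s (Fm.F a b')).IsHomogeneous k := by
      rcases hb' with h | ⟨j', hj', h⟩
      · rw [h, map_zero, FR_dem_zero hs, mul_zero]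
        exact isHomogeneous_zero _ _ _
      · have := FR_deg_term hs Fm (k := k) 1 ha h (by omega)
        rwa [pow_one] at this
    have t3 : (al 1 s * dem s (Fm.F b a')).IsHomogeneous k := by
      rcases hb with h | ⟨i', hi', h⟩
      · rw [h, map_zero, LinearMap.zero_apply, FR_dem_zero hs, mul_zero]
        exact isHomogeneous_zero _ _ _
      · have := FR_deg_term hs Fm (k := k) 1 h ha' (by omega)
        rwa [pow_one] at this
    have t4 : (al 1 s * al 1 s * dem s (Fm.F b b')).IsHomogeneous k := by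
      rcases hb with h | ⟨i', hi', h⟩
      · rw [h, map_zero, LinearMap.zero_apply, FR_dem_zero hs, mul_zero]
        exact isHomogeneous_zero _ _ _
      · rcases hb' with h' | ⟨j', hj', h'⟩
        · rw [h', map_zero, FR_dem_zero hs, mul_zero]
          exact isHomogeneous_zero _ _ _
        · have := FR_deg_term hs Fm (k := k) 2 h h' (by omega)
          rwa [pow_two] at this
    exact (t1.add (t2.add t3)).add t4
  · intro i j m hm m' hm' hij
    obtain ⟨a, b, rfl⟩ := el_surj m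
    obtain ⟨a', b', rfl⟩ := el_surj m'
    have key : ∀ (i : ℕ) (a b : O.M), el s a b ∈ (theta s O).dg i →
        a ∈ O.dg i ∧ (b = 0 ∨ ∃ i', i = i' + 1 ∧ b ∈ O.dg i') := by
      intro i a b h
      cases i with
      | zero =>
        obtain ⟨h1, h2⟩ := (el_mem_dg0 hs a b).1 h
        exact ⟨h1, Or.inl h2⟩
      | succ i =>
        obtain ⟨h1, h2⟩ := (el_mem_dg hs a b i).1 h
        exact ⟨h1, Or.inr ⟨i, rfl, h2⟩⟩
    obtain ⟨ha, hb⟩ := key i a b hm
    obtain ⟨ha', hb'⟩ := key j a' b' hm'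
    have t1 : dem s (Fm.F a a') = 0 := FR_deg0_term hs Fm ha ha' (by omega)
    have t2 : dem s (Fm.F a b') = 0 := by
      rcases hb' with h | ⟨j', hj', h⟩
      · rw [h, map_zero, FR_dem_zero hs]
      · exact FR_deg0_term hs Fm ha h (by omega)
    have t3 : dem s (Fm.F b a') = 0 := by
      rcases hb with h | ⟨i', hi', h⟩
      · rw [h, map_zero, LinearMap.zero_apply, FR_dem_zero hs]
      · exact FR_deg0_term hs Fm h ha' (by omega)
    have t4 : dem s (Fm.F b b') = 0 := by
      rcases hb with h | ⟨i', hi', h⟩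
      · rw [h, map_zero, LinearMap.zero_apply, FR_dem_zero hs]
      · rcases hb' with h' | ⟨j', hj', h'⟩
        · rw [h', map_zero, FR_dem_zero hs]
        · exact FR_deg0_term hs Fm h h' (by omega)
    rw [thFun_el, t1, t2, t3, t4]
    ring
  · intro g hg
    -- the functional on `a ⊗ 1`
    have hg1 : ∃ g1 : O.M →ₗ[ℝ] Rg n, ∀ a, g1 a = g (el s a 0) :=
      ⟨g.comp ((elEquiv s hs O).toLinearMap.comp (LinearMap.inl ℝ O.M O.M)), fun a => rfl⟩
    obtain ⟨g1, hg1⟩ := hg1
    have hg1lin : ∀ f, act (sw s) f = f → ∀ a, g1 (O.rmul f a) = f * g1 a := by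
      intro f hf a
      rw [hg1, hg1, ← hg, rmul_el_inv hs hf, map_zero]
    have hgel : ∀ a b : O.M, g (el s a b) = g1 a + al 1 s * g1 b := by
      intro a b
      have h1 : el s a b = el s a 0 + (theta s O).rmul (al 1 s) (el s b 0) := by
        rw [rmul_el_al hs, map_zero, ← el_add, add_zero, zero_add]
      rw [h1, map_add, hg, ← hg1, ← hg1]
    have hC : (C (1 / 2) : Rg n) * 2 = 1 := C_half_two
    -- the two halves
    have hv : ∃ v : O.M →ₗ[ℝ] Rg n, ∀ a, v a = C (1 / 2) * dem s (g1 a) := by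
      refine ⟨((LinearMap.mulLeft ℝ (C (1 / 2) : Rg n)).comp (demL s hs)).comp g1, fun a => rfl⟩
    obtain ⟨v, hv⟩ := hv
    have hu : ∃ u : O.M →ₗ[ℝ] Rg n, ∀ a, u a = g1 a - al 1 s * v a :=
      ⟨g1 - (LinearMap.mulLeft ℝ (al 1 s : Rg n)).comp v, fun a => rfl⟩
    obtain ⟨u, hu⟩ := hu
    have hvinv : ∀ a, act (sw s) (v a) = v a := by
      intro a
      rw [hv, map_mul, act_C, act_dem hs]
    have huinv : ∀ a, act (sw s) (u a) = u a := by
      intro a
      have h1 := dem_spec s hs (g1 a)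
      rw [hu, map_sub, map_mul, act_sw_al, hvinv, hv]
      linear_combination h1 + (al 1 s * dem s (g1 a)) * hC
    have hvlin : ∀ f, act (sw s) f = f → ∀ a, v (O.rmul f a) = f * v a := by
      intro f hf a
      rw [hv, hv, hg1lin f hf, dem_inv_mul hs hf]
      ring
    have hulin : ∀ f, act (sw s) f = f → ∀ a, u (O.rmul f a) = f * u a := by
      intro f hf a
      rw [hu, hu, hg1lin f hf, hvlin f hf]
      ring
    obtain ⟨a', ha'⟩ := FR_perfect_half hs Fm u huinv hulin
    obtain ⟨b', hb'⟩ := FR_perfect_half hs Fm v hvinv hvlin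
    refine ⟨el s a' b', fun m => ?_⟩
    obtain ⟨a, b, rfl⟩ := el_surj m
    rw [thFun_el, hgel, ha', ha', hb', hb', hu, hu]
    ring
  · intro m' hm'
    obtain ⟨a', b', rfl⟩ := el_surj m'
    have h1 : ∀ a : O.M, dem s (Fm.F a a') = 0 ∧ dem s (Fm.F a b') = 0 := by
      intro a
      have h2 := hm' (el s a 0)
      rw [thFun_el, map_zero, LinearMap.zero_apply, LinearMap.zero_apply, FR_dem_zero hs,
        add_zero, mul_zero, add_zero] at h2
      exact FR_uv_zero hs (act_dem hs _) (act_dem hs _) h2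
    have h3 : ∀ a : O.M, Fm.F a a' = 0 ∧ Fm.F a b' = 0 := by
      intro a
      obtain ⟨h4, h5⟩ := h1 a
      obtain ⟨h6, h7⟩ := h1 (O.rmul (al 1 s) a)
      rw [Fm.right] at h6 h7
      exact ⟨FR_dem_nondeg hs h4 h6, FR_dem_nondeg hs h5 h7⟩
    have h8 : a' = 0 := Fm.nondeg a' fun a => (h3 a).1
    have h9 : b' = 0 := Fm.nondeg b' fun a => (h3 a).2
    rw [h8, h9, ← elEquiv_apply hs O, ← Prod.zero_eq_mk, map_zero]
  · intro a b a' b'
    exact thFun_el hs Fm a b a' b'

end KLFin
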