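import Mathlib
import Pool.Agent.KLFin.CDefs3
import Pool.Agent.KLFin.CB1
import Pool.Agent.KLFin.CE1
import Pool.Agent.KLFin.CD
import Pool.Agent.KLFin.QT2
import Pool.Agent.KLFin.QT1
import Pool.Agent.KLFin.CE2
import Pool.Agent.KLFin.FR1
import Pool.Agent.KLFin.DP2

/-!
# Part C, block HL: hard Lefschetz for `θ_s B_x`, `x s > x` (MP_d9d356_co, (C13))
-/

open MvPolynomial

namespace KLFin

variable {n : ℕ} {κ : Fin n → ℕ} {s : Fin n × Fin n}

namespace HL

/-- the Demazure operator as an additive map -/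
noncomputable def demA (hs : s.1 ≠ s.2) : Rg n →+ Rg n := AddMonoidHom.mk' (dem s) (dem_add hs)

theorem demA_apply (hs : s.1 ≠ s.2) (f : Rg n) : demA hs f = dem s f := rfl

theorem dem_sign (hs : s.1 ≠ s.2) (e : ℕ) (f : Rg n) :
    dem s ((-1 : Rg n) ^ e * f) = (-1 : Rg n) ^ e * dem s f := by
  apply dem_inv_mul hs
  rw [map_pow, map_neg, map_one]

theorem dem_sum_sign (hs : s.1 ≠ s.2) {K : ℕ} (e : Fin K → ℕ) (f : Fin K → Rg n) :
    dem s (∑ k, (-1 : Rg n) ^ (e k) * f k) = ∑ k, (-1 : Rg n) ^ (e k) * dem s (f k) := by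
  rw [← demA_apply hs, map_sum]
  exact Finset.sum_congr rfl fun k _ => dem_sign hs (e k) (f k)

theorem dem_zero (hs : s.1 ≠ s.2) : dem s (0 : Rg n) = 0 := (demA hs).map_zero

/-- the form of `θ_s` for the operator `ρ` -/
theorem form_rho {O : Obj n} {d : ℕ} (Fm : Frm O d) (hs : s.1 ≠ s.2)
    (G : Frm (theta s O) (d + 1)) (hG : IsThetaFrm s Fm G)
    {dot : (theta s O).M →ₗ[Rg n] O.M} (hdot : ∀ a b, dot (el s a b) = a + O.rmul (al 1 s) b)
    {K : ℕ} {e : Fin K → ℕ} {Oz : Fin K → Obj n} {dz : Fin K → ℕ} (Fz : ∀ k, Frm (Oz k) (dz k))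
    (Gz : ∀ k, Frm (theta s (Oz k)) (dz k + 1)) (hGz : ∀ k, IsThetaFrm s (Fz k) (Gz k))
    (dk : ∀ k, O.M →ₗ[Rg n] (Oz k).M) (ψ : ∀ k, (theta s O).M →ₗ[Rg n] (theta s (Oz k)).M)
    (hψ : ∀ k a b, ψ k (el s a b) = el s (dk k a) (dk k b)) (r : Rg n)
    (hW : ∀ b b', ∑ k, (-1 : Rg n) ^ (e k) * (Fz k).F (dk k b) (dk k b') =
      Fm.F (rho n • b) b' - r * Fm.F b b') (u u' : (theta s O).M) :
    G.F (rho n • u) u' = dem s r * Fm.F (dot u) (dot u') + act (sw s) r * G.F u u' +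
      ∑ k, (-1 : Rg n) ^ (e k) * (Gz k).F (ψ k u) (ψ k u') := by
  obtain ⟨a, b, rfl⟩ := el_surj u
  obtain ⟨a', b', rfl⟩ := el_surj u'
  have h1 : ∀ c c', dem s (Fm.F (rho n • c) c') =
      ∑ k, (-1 : Rg n) ^ (e k) * dem s ((Fz k).F (dk k c) (dk k c')) +
        (dem s r * Fm.F c c' + act (sw s) r * dem s (Fm.F c c')) := by
    intro c c'
    have h2 : Fm.F (rho n • c) c' =
        ∑ k, (-1 : Rg n) ^ (e k) * (Fz k).F (dk k c) (dk k c') + r * Fm.F c c' := by
      rw [hW]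
      ring
    rw [h2, dem_add hs, dem_sum_sign hs, dem_mul hs]
  rw [← el_smul, hG, hG, hdot, hdot, h1, h1, h1, h1]
  have h3 : ∀ k, (Gz k).F (ψ k (el s a b)) (ψ k (el s a' b')) =
      dem s ((Fz k).F (dk k a) (dk k a')) +
        al 1 s * (dem s ((Fz k).F (dk k a) (dk k b')) + dem s ((Fz k).F (dk k b) (dk k a')))
      + al 1 s * al 1 s * dem s ((Fz k).F (dk k b) (dk k b')) := by
    intro k
    rw [hψ, hψ, hGz k]
  simp only [h3]
  have h4 : Fm.F (a + O.rmul (al 1 s) b) (a' + O.rmul (al 1 s) b') =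
      Fm.F a a' + al 1 s * (Fm.F a b' + Fm.F b a') + al 1 s * al 1 s * Fm.F b b' := by
    rw [map_add, map_add, LinearMap.add_apply, LinearMap.add_apply, Fm.right, Fm.right,
      Fm.qt2_right', Fm.qt2_right']
    ring
  rw [h4]
  have h5 : ∑ k, (-1 : Rg n) ^ (e k) * (dem s ((Fz k).F (dk k a) (dk k a')) +
        al 1 s * (dem s ((Fz k).F (dk k a) (dk k b')) + dem s ((Fz k).F (dk k b) (dk k a')))
      + al 1 s * al 1 s * dem s ((Fz k).F (dk k b) (dk k b'))) =
      ∑ k, (-1 : Rg n) ^ (e k) * dem s ((Fz k).F (dk k a) (dk k a')) +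
      al 1 s * (∑ k, (-1 : Rg n) ^ (e k) * dem s ((Fz k).F (dk k a) (dk k b')) +
        ∑ k, (-1 : Rg n) ^ (e k) * dem s ((Fz k).F (dk k b) (dk k a'))) +
      al 1 s * al 1 s * ∑ k, (-1 : Rg n) ^ (e k) * dem s ((Fz k).F (dk k b) (dk k b')) := by
    rw [← Finset.sum_add_distrib, Finset.mul_sum, Finset.mul_sum, ← Finset.sum_add_distrib,
      ← Finset.sum_add_distrib]
    apply Finset.sum_congr rfl
    intro k _
    ring
  rw [h5]
  ring

/-- the form of `θ_s` for the middle multiplication -/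
theorem form_mid {O : Obj n} {d : ℕ} (Fm : Frm O d) (hs : s.1 ≠ s.2)
    (G : Frm (theta s O) (d + 1)) (hG : IsThetaFrm s Fm G)
    {dot : (theta s O).M →ₗ[Rg n] O.M} (hdot : ∀ a b, dot (el s a b) = a + O.rmul (al 1 s) b)
    {T : (theta s O).M →ₗ[ℝ] (theta s O).M} (hT : IsMid s O T) (u u' : (theta s O).M) :
    G.F (T u) u' = dem s (rho n) * Fm.F (dot u) (dot u') + act (sw s) (rho n) * G.F u u' := by
  obtain ⟨a, b, rfl⟩ := el_surj u
  obtain ⟨a', b', rfl⟩ := el_surj u'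
  have h4 : Fm.F (a + O.rmul (al 1 s) b) (a' + O.rmul (al 1 s) b') =
      Fm.F a a' + al 1 s * (Fm.F a b' + Fm.F b a') + al 1 s * al 1 s * Fm.F b b' := by
    rw [map_add, map_add, LinearMap.add_apply, LinearMap.add_apply, Fm.right, Fm.right,
      Fm.qt2_right', Fm.qt2_right']
    ring
  rw [hT, hG, hG, hdot, hdot, h4]
  simp only [Fm.right, dem_mul hs]
  ring

theorem cc_dem_act_rho (hs : s.1 ≠ s.2) (y : Pm n) :
    constantCoeff (dem s (act y⁻¹ (rho n))) = ((y s.2 : ℕ) : ℝ) - ((y s.1 : ℕ) : ℝ) := by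
  rw [dem_act_rho hs, constantCoeff_C]

theorem cc_sum_sign {K : ℕ} (e : Fin K → ℕ) (f : Fin K → Rg n) :
    constantCoeff (∑ k, (-1 : Rg n) ^ (e k) * f k) =
      ∑ k, (-1 : ℝ) ^ (e k) * constantCoeff (f k) := by
  rw [map_sum]
  apply Finset.sum_congr rfl
  intro k _
  rw [map_mul, map_pow, map_neg, map_one]

/-- morphisms respect `M R^s_+` -/
theorem BiMap_MRs {O P : Obj n} {φ : O.M →ₗ[Rg n] P.M} (hφ : BiMap φ) {m : O.M}
    (hm : m ∈ O.MRs s) : φ m ∈ P.MRs s := by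
  rw [Obj.MRs] at hm
  induction hm using Submodule.span_induction with
  | mem m hm =>
      obtain ⟨f, a, hf, hf0, rfl⟩ := hm
      rw [hφ.rmul]
      exact Submodule.subset_span ⟨f, φ a, hf, hf0, rfl⟩
  | zero => rw [map_zero]; exact Submodule.zero_mem _
  | add a b _ _ ha hb => rw [map_add]; exact Submodule.add_mem _ ha hb
  | smul c a _ ha => rw [map_smul]; exact Submodule.smul_mem _ c ha

theorem pow_rho (O : Obj n) (k : ℕ) (m : O.M) : ((Lrho O) ^ k) m = rho n ^ k • m := by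
  induction k with
  | zero =>
      rw [pow_zero, pow_zero, one_smul]
      rfl
  | succ k ih =>
      rw [pow_succ', Module.End.mul_apply, ih, pow_succ', mul_smul]
      rfl

/-- hard Lefschetz from Hodge-Riemann -/
theorem HR_inj {O : Obj n} {d : ℕ} (Fm : Frm O d) (hHR : HRop O d Fm.F (Lrho O)) {i : ℕ}
    (hi : 2 * i ≤ d) {b : O.M} (hb : b ∈ O.dg i) (h : rho n ^ (d - 2 * i) • b ∈ O.MRp) :
    b ∈ O.MRp := by
  have h1 : ((Lrho O) ^ (d - 2 * i + 1)) b ∈ O.MRp := by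
    rw [pow_rho, pow_succ', mul_smul]
    exact Submodule.smul_mem _ _ h
  rcases hHR i hi b hb h1 with h2 | h2
  · exact h2
  · exfalso
    rw [pow_rho, Fm.symm, Fm.qt2_cc_MRp h b, mul_zero] at h2
    exact lt_irrefl _ h2

end HL

open HL

theorem theta_HL {x : Pm n} (hx : InW κ x) (hs : Smp κ s) (hup : Up κ x (x * sw s))
    (B : KLObj κ x) (hW : WProp κ B)
    (G : Frm (theta s B.O) (len κ x + 1)) (hG : IsThetaFrm s B.Fm G)
    (T : (theta s B.O).M →ₗ[ℝ] (theta s B.O).M) (hT : IsMid s B.O T)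
    (hUp : ∀ z, InW κ z → len κ z < len κ x → Up κ z (z * sw s) → ∀ (Bz : KLObj κ z)
      (Gz : Frm (theta s Bz.O) (len κ z + 1)), IsThetaFrm s Bz.Fm Gz → ∀ Tz, IsMid s Bz.O Tz →
      ∀ ζ : ℝ, 0 ≤ ζ → HRop (theta s Bz.O) (len κ z + 1) Gz.F (Lrho (theta s Bz.O) + ζ • Tz))
    (hDn : ∀ z, InW κ z → len κ z < len κ x → Up κ (z * sw s) z → ∀ (Bz : KLObj κ z)
      (Gz : Frm (theta s Bz.O) (len κ z + 1)), IsThetaFrm s Bz.Fm Gz → ∀ Tz, IsMid s Bz.O Tz →
      ∀ ζ : ℝ, 0 < ζ → HRop (theta s Bz.O) (len κ z + 1) Gz.F (Lrho (theta s Bz.O) + ζ • Tz))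
    (hD : ∀ z, InW κ z → len κ z < len κ x → Up κ (z * sw s) z → ∀ Bz : KLObj κ z,
      DProp κ Bz s) :
    ∀ ζ : ℝ, 0 ≤ ζ → HLop (theta s B.O) (len κ x + 1) (Lrho (theta s B.O) + ζ • T) := by
  intro ζ hζ i hi u hu hL
  have hs' : s.1 ≠ s.2 := ne_of_lt hs.1
  set L := Lrho (theta s B.O) + ζ • T with hLdef
  -- the trivial case
  rcases Nat.eq_or_lt_of_le hi with hi' | hi'
  · rw [hi', Nat.sub_self, pow_zero] at hL
    exact hL
  have hiℓ : 2 * i ≤ len κ x := by omega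
  have hm : len κ x + 1 - 2 * i = (len κ x - 2 * i) + 1 := by omega
  set m := len κ x - 2 * i with hmdef
  rw [hm] at hL
  -- unpack the family
  obtain ⟨K, z, Bz, e, dk, hz, hdk, hform, hinj⟩ := hW
  have hlt : ∀ k, len κ (z k) < len κ x := fun k => by
    have := (hz k).2
    omega
  choose Gz hGz using fun k => exists_thetaFrm (s := s) (Bz k).Fm hs'
  choose Tz hTz using fun k => exists_mid (s := s) hs' (Bz k).O
  choose ψ hψ hψB hψd using fun k => exists_thetaMap (s := s) hs' (dk k) (hdk k).1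
  obtain ⟨dot, hdot, hdotB, hdotd⟩ := exists_dot (s := s) (O := B.O) hs'
  set Lz := fun k => Lrho (theta s (Bz k).O) + ζ • Tz k with hLz
  -- the form identity
  set c : ℝ := (((x s.2 : ℕ) : ℝ) - ((x s.1 : ℕ) : ℝ)) +
    ζ * (((s.2 : ℕ) : ℝ) - ((s.1 : ℕ) : ℝ)) with hc
  have hcpos : 0 < c := by
    have h1 : x s.1 < x s.2 := (up_sw_iff hx hs).mp hup
    have h2 : ((x s.1 : ℕ) : ℝ) < ((x s.2 : ℕ) : ℝ) := by exact_mod_cast h1
    have h3 : ((s.1 : ℕ) : ℝ) < ((s.2 : ℕ) : ℝ) := by exact_mod_cast hs.1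
    have h4 : 0 ≤ ζ * (((s.2 : ℕ) : ℝ) - ((s.1 : ℕ) : ℝ)) :=
      mul_nonneg hζ (by linarith)
    rw [hc]
    linarith
  have key : ∀ v v' : (theta s B.O).M, constantCoeff (G.F (L v) v') =
      c * constantCoeff (B.Fm.F (dot v) (dot v')) +
      ∑ k, (-1 : ℝ) ^ (e k) * constantCoeff ((Gz k).F (ψ k v) (ψ k v')) := by
    intro v v'
    have h1 := form_rho B.Fm hs' G hG hdot (fun k => (Bz k).Fm) Gz hGz dk ψ hψ
      (act x⁻¹ (rho n)) hform v v'
    have h2 := form_mid B.Fm hs' G hG hdot hT v v'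
    have h3 : G.F (L v) v' = G.F (rho n • v) v' + C ζ * G.F (T v) v' := by
      rw [hLdef, LinearMap.add_apply, LinearMap.smul_apply, map_add, LinearMap.add_apply,
        map_smul, LinearMap.smul_apply, smul_eq_C_mul]
      rfl
    have h4 : constantCoeff (dem s (rho n)) = ((s.2 : ℕ) : ℝ) - ((s.1 : ℕ) : ℝ) := by
      have := cc_dem_act_rho hs' (1 : Pm n)
      rw [inv_one, act_one] at this
      exact this
    rw [h3, h1, h2, map_add, map_add, map_add, map_mul, map_mul, map_mul, map_add, map_mul,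
      map_mul, cc_sum_sign, cc_dem_act_rho hs', h4, qt2_cc_act, qt2_cc_act, qt2_cc_act,
      qt2_cc_rho, constantCoeff_C, hc]
    ring
  -- compatibility of the operators
  have hψL : ∀ k v, ψ k (L v) = Lz k (ψ k v) := by
    intro k v
    obtain ⟨a, b, rfl⟩ := el_surj v
    simp only [hLdef, hLz, LinearMap.add_apply, LinearMap.smul_apply, map_add]
    have h1 : ψ k (ζ • T (el s a b)) = ζ • ψ k (T (el s a b)) := by
      have h2 : ∀ w : (theta s B.O).M, (ζ • w) = (C ζ : Rg n) • w := by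
        intro w
        ext1; funext p
        change ζ • w.1 p = C ζ * w.1 p
        rw [smul_eq_C_mul]
      have h3 : ∀ w : (theta s (Bz k).O).M, (ζ • w) = (C ζ : Rg n) • w := by
        intro w
        ext1; funext p
        change ζ • w.1 p = C ζ * w.1 p
        rw [smul_eq_C_mul]
      rw [h2, h3, map_smul]
    rw [h1, hT, hψ, hψ, hTz k, (hdk k).1.rmul, (hdk k).1.rmul, ← hψ]
    congr 1
    exact map_smul (ψ k) (rho n) _
  have hψLk : ∀ k (j : ℕ) v, ψ k ((L ^ j) v) = ((Lz k) ^ j) (ψ k v) := by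
    intro k j
    induction j with
    | zero => intro v; rfl
    | succ j ih =>
        intro v
        rw [pow_succ', pow_succ', Module.End.mul_apply, Module.End.mul_apply, hψL, ih]
  have hdotL : ∀ v, dot (L v) - rho n • dot v ∈ B.O.MRp := by
    intro v
    obtain ⟨a, b, rfl⟩ := el_surj v
    have h2 : ∀ w : (theta s B.O).M, (ζ • w) = (C ζ : Rg n) • w := by
      intro w
      ext1; funext p
      change ζ • w.1 p = C ζ * w.1 p
      rw [smul_eq_C_mul]
    have h1 : dot (L (el s a b)) = rho n • dot (el s a b) +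
        (C ζ : Rg n) • B.O.rmul (rho n) (dot (el s a b)) := by
      simp only [hLdef, LinearMap.add_apply, LinearMap.smul_apply, map_add]
      rw [h2, map_smul, hT, hdot, hdot, map_add, qt2_rmul_comm (rho n)]
      congr 1
      rw [← hdot]
      exact map_smul dot (rho n) _
    rw [h1, add_sub_cancel_left]
    exact Submodule.smul_mem _ _ (mem_MRp_of_rmul qt2_cc_rho _)
  have hdotLk : ∀ (j : ℕ) v, dot ((L ^ j) v) - rho n ^ j • dot v ∈ B.O.MRp := by
    intro j
    induction j with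
    | zero =>
        intro v
        rw [pow_zero, pow_zero, one_smul]
        change dot v - dot v ∈ _
        rw [sub_self]
        exact Submodule.zero_mem _
    | succ j ih =>
        intro v
        have h1 := hdotL ((L ^ j) v)
        have h2 := Submodule.smul_mem _ (rho n) (ih v)
        have h3 := Submodule.add_mem _ h1 h2
        rw [pow_succ', Module.End.mul_apply, pow_succ', mul_smul]
        rw [smul_sub] at h3
        convert h3 using 1
        abel
  -- the decomposition of `u`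
  obtain ⟨a, b, rfl⟩ := el_surj u
  set u := el s a b with hudef
  have hsum : 0 = c * constantCoeff (B.Fm.F (rho n ^ m • dot u) (dot u)) +
      ∑ k, (-1 : ℝ) ^ (e k) * constantCoeff ((Gz k).F (((Lz k) ^ m) (ψ k u)) (ψ k u)) := by
    have h1 := key ((L ^ m) u) u
    rw [← Module.End.mul_apply, ← pow_succ', G.qt2_cc_MRp hL u] at h1
    have h2 : constantCoeff (B.Fm.F (dot ((L ^ m) u)) (dot u)) =
        constantCoeff (B.Fm.F (rho n ^ m • dot u) (dot u)) := by
      have h3 := B.Fm.qt2_cc_MRp (hdotLk m u) (dot u)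
      rw [map_sub, LinearMap.sub_apply, map_sub, sub_eq_zero] at h3
      exact h3
    rw [h2] at h1
    rw [h1]
    congr 1
    apply Finset.sum_congr rfl
    intro k _
    rw [hψLk]
  -- the first term
  have hdotu : dot u ∈ B.O.dg i := by
    have := (hdotd i u hu).1 i (by ring)
    exact this
  have hdotprim : rho n ^ (m + 1) • dot u ∈ B.O.MRp := by
    have h1 := hdotLk (m + 1) u
    have h2 := hdotB.MRp hL
    have h3 := Submodule.sub_mem _ h2 h1
    rw [sub_sub_cancel] at h3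
    exact h3
  have hsq : ∀ j : ℕ, (-1 : ℝ) ^ j * (-1 : ℝ) ^ j = 1 := by
    intro j
    rw [← mul_pow]
    norm_num
  have ht0 : 0 ≤ (-1 : ℝ) ^ i * (c * constantCoeff (B.Fm.F (rho n ^ m • dot u) (dot u))) ∧
      ((-1 : ℝ) ^ i * (c * constantCoeff (B.Fm.F (rho n ^ m • dot u) (dot u))) = 0 →
        dot u ∈ B.O.MRp) := by
    have h1 := B.hr i hiℓ (dot u) hdotu (by rw [pow_rho]; exact hdotprim)
    rw [pow_rho] at h1
    rcases h1 with h1 | h1
    · refine ⟨?_, fun _ => h1⟩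
      rw [B.Fm.symm, B.Fm.qt2_cc_MRp h1, mul_zero, mul_zero]
    · rw [B.Fm.symm] at h1
      have h2 : (-1 : ℝ) ^ i * (c * constantCoeff (B.Fm.F (rho n ^ m • dot u) (dot u))) =
          c * ((-1 : ℝ) ^ i * constantCoeff (B.Fm.F (rho n ^ m • dot u) (dot u))) := by ring
      rw [h2]
      have h3 := mul_pos hcpos h1
      exact ⟨h3.le, fun h4 => absurd h4 (ne_of_gt h3)⟩
  -- the other terms
  have htk : ∀ k, 0 ≤ (-1 : ℝ) ^ i * ((-1 : ℝ) ^ (e k) *
        constantCoeff ((Gz k).F (((Lz k) ^ m) (ψ k u)) (ψ k u))) ∧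
      ((-1 : ℝ) ^ i * ((-1 : ℝ) ^ (e k) *
        constantCoeff ((Gz k).F (((Lz k) ^ m) (ψ k u)) (ψ k u))) = 0 →
        ∀ a₁ r : (Bz k).O.M, dk k a = (Bz k).O.rmul (al 1 s) a₁ + r → r ∈ (Bz k).O.MRs s →
          a₁ ∈ (Bz k).O.MRp) := by
    intro k
    have hfin : ψ k u ∈ (theta s (Bz k).O).MRp →
        ∀ a₁ r : (Bz k).O.M, dk k a = (Bz k).O.rmul (al 1 s) a₁ + r → r ∈ (Bz k).O.MRs s →
          a₁ ∈ (Bz k).O.MRp := by
      intro h1 a₁ r h2 h3
      rw [hψ, el_mem_MRp hs', h2] at h1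
      rw [← MRs_al_iff (Bz k).nice hs]
      have h4 := Submodule.sub_mem _ h1 h3
      rwa [add_sub_cancel_right] at h4
    -- degree of `ψ k u`
    rcases Nat.lt_or_ge i (e k) with hik | hik
    · have h1 : ψ k u = 0 := by
        apply ((hψd k _ (hdk k).2) i u hu).2
        omega
      have h2 : constantCoeff ((Gz k).F (((Lz k) ^ m) (ψ k u)) (ψ k u)) = 0 := by
        rw [h1]
        simp only [map_zero]
      rw [h2, mul_zero, mul_zero]
      refine ⟨le_refl _, fun _ => hfin ?_⟩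
      rw [h1]
      exact Submodule.zero_mem _
    have hdegψ : ψ k u ∈ (theta s (Bz k).O).dg (i - e k) := by
      apply ((hψd k _ (hdk k).2) i u hu).1
      omega
    have hlen := (hz k).2
    have hexp : len κ (z k) + 1 - 2 * (i - e k) = m := by omega
    have hprim : ((Lz k) ^ (m + 1)) (ψ k u) ∈ (theta s (Bz k).O).MRp := by
      rw [← hψLk]
      exact (hψB k).MRp hL
    -- the case of Hodge-Riemann
    have hHRcase : HRop (theta s (Bz k).O) (len κ (z k) + 1) (Gz k).F (Lz k) →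
        (0 ≤ (-1 : ℝ) ^ i * ((-1 : ℝ) ^ (e k) *
        constantCoeff ((Gz k).F (((Lz k) ^ m) (ψ k u)) (ψ k u))) ∧
        ((-1 : ℝ) ^ i * ((-1 : ℝ) ^ (e k) *
        constantCoeff ((Gz k).F (((Lz k) ^ m) (ψ k u)) (ψ k u))) = 0 →
        ∀ a₁ r : (Bz k).O.M, dk k a = (Bz k).O.rmul (al 1 s) a₁ + r → r ∈ (Bz k).O.MRs s →
          a₁ ∈ (Bz k).O.MRp)) := by
      intro hHR
      have h1 := hHR (i - e k) (by omega) (ψ k u) hdegψ (by rw [hexp]; exact hprim)
      rw [hexp] at h1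
      rcases h1 with h1 | h1
      · refine ⟨?_, fun _ => hfin h1⟩
        rw [(Gz k).symm, (Gz k).qt2_cc_MRp h1, mul_zero, mul_zero]
      · rw [(Gz k).symm] at h1
        have h2 : (-1 : ℝ) ^ i = (-1 : ℝ) ^ (i - e k) * (-1 : ℝ) ^ (e k) := by
          rw [← pow_add, Nat.sub_add_cancel hik]
        have h3 : (-1 : ℝ) ^ i * ((-1 : ℝ) ^ (e k) *
            constantCoeff ((Gz k).F (((Lz k) ^ m) (ψ k u)) (ψ k u))) =
            (-1 : ℝ) ^ (i - e k) * constantCoeff ((Gz k).F (((Lz k) ^ m) (ψ k u)) (ψ k u)) := by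
          rw [h2]
          linear_combination ((-1 : ℝ) ^ (i - e k) *
            constantCoeff ((Gz k).F (((Lz k) ^ m) (ψ k u)) (ψ k u))) * hsq (e k)
        rw [h3]
        exact ⟨h1.le, fun h4 => absurd h4 (ne_of_gt h1)⟩
    have hne : z k s.1 ≠ z k s.2 := fun h => hs' ((z k).injective h)
    rcases lt_or_gt_of_ne hne with hud | hud
    · exact hHRcase (hUp (z k) (hz k).1 (hlt k) ((up_sw_iff (hz k).1 hs).mpr hud) (Bz k) (Gz k)
        (hGz k) (Tz k) (hTz k) ζ hζ)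
    have hdn : Up κ (z k * sw s) (z k) := (dn_sw_iff (hz k).1 hs).mpr hud
    rcases lt_or_eq_of_le hζ with hζ' | hζ'
    · exact hHRcase (hDn (z k) (hz k).1 (hlt k) hdn (Bz k) (Gz k) (hGz k) (Tz k) (hTz k) ζ hζ')
    -- `ζ = 0` and `z s < z`
    obtain ⟨D, hD1, hD2, hD3, hD4, hD5⟩ := hD (z k) (hz k).1 (hlt k) hdn (Bz k)
    have hL0 : ∀ (j : ℕ) (v : (theta s (Bz k).O).M), ((Lz k) ^ j) v = rho n ^ j • v := by
      intro j v
      have h1 : Lz k = Lrho (theta s (Bz k).O) := by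
        simp only [hLz]
        rw [← hζ', zero_smul, add_zero]
      rw [h1, pow_rho]
    have hDa : D (dk k a) ∈ (Bz k).O.MRp := by
      -- `ρ^(m+1) D (d a)` is in `B R_+`
      have h1 : rho n ^ (m + 1) • D (dk k a) ∈ (Bz k).O.MRp := by
        rw [hL0, hψ, ← el_smul, el_mem_MRp hs'] at hprim
        obtain ⟨n0, n1, hn0, hn1, hn2, hn3, hn4, hn5⟩ :=
          DProp.split (Bz k).nice hs D hD1 hD2 hD4 (rho n ^ (m + 1) • dk k a)
        have h2 := (hn4.mp hprim).2
        rwa [hn3, map_smul] at h2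
      rcases Nat.eq_zero_or_pos (i - e k) with hj | hj
      · -- degree zero: `D` kills it
        have h2 : dk k a ∈ (Bz k).O.dg 0 := by
          rw [hψ, hj, el_mem_dg0 hs'] at hdegψ
          exact hdegψ.1
        have h3 : D (dk k a) = 0 := (hD3 0 _ h2).2 (by norm_num)
        rw [h3]
        exact Submodule.zero_mem _
      · obtain ⟨j, hj⟩ : ∃ j, i - e k = j + 1 := ⟨i - e k - 1, by omega⟩
        have h2 : dk k a ∈ (Bz k).O.dg (j + 1) := by
          rw [hψ, hj, el_mem_dg hs'] at hdegψ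
          exact hdegψ.1
        have h3 : D (dk k a) ∈ (Bz k).O.dg j := (hD3 (j + 1) _ h2).1 j (by push_cast; ring)
        apply HR_inj (Bz k).Fm (Bz k).hr (i := j) (by omega) h3
        have h4 : len κ (z k) - 2 * j = m + 1 := by omega
        rw [h4]
        exact h1
    have hP : ∀ a₁ r : (Bz k).O.M, dk k a = (Bz k).O.rmul (al 1 s) a₁ + r →
        r ∈ (Bz k).O.MRs s → a₁ ∈ (Bz k).O.MRp := by
      intro a₁ r h1 h2
      obtain ⟨n0, n1, hn0, hn1, hn2, hn3, hn4, hn5⟩ :=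
        DProp.split (Bz k).nice hs D hD1 hD2 hD4 r
      have h3 := (hn4.mp h2).2
      rw [hn3] at h3
      have h4 := hD1 a₁
      have h5 : a₁ = D (dk k a) - D r + (Bz k).O.rmul (al 1 s) (D a₁) := by
        rw [h1, map_add, add_sub_cancel_right]
        exact h4.symm
      rw [h5]
      apply Submodule.add_mem
      · exact Submodule.sub_mem _ hDa h3
      · apply mem_MRp_of_rmul
        rw [al, map_sub, constantCoeff_X, constantCoeff_X, sub_zero]
    have hiso : constantCoeff ((Gz k).F (((Lz k) ^ m) (ψ k u)) (ψ k u)) = 0 := by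
      obtain ⟨n0, n1, hn0, hn1, hn2, hn3, hn4, hn5⟩ :=
        DProp.split (Bz k).nice hs D hD1 hD2 hD4 (dk k a)
      have h1 : ψ k u - el s n0 0 ∈ (theta s (Bz k).O).MRp := by
        have h2 : ψ k u = el s n0 0 + el s ((Bz k).O.rmul (al 1 s) n1) (dk k b) := by
          rw [hψ, ← el_add, zero_add, ← hn2]
        rw [h2, add_sub_cancel_left, el_mem_MRp hs', MRs_al_iff (Bz k).nice hs, hn3]
        exact hDa
      set r := ψ k u - el s n0 0 with hr
      have h2 : ψ k u = el s n0 0 + r := by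
        rw [hr]
        abel
      have h3 : rho n ^ m • r ∈ (theta s (Bz k).O).MRp := Submodule.smul_mem _ _ h1
      have e1 : constantCoeff ((Gz k).F (rho n ^ m • el s n0 0) r) = 0 := by
        rw [(Gz k).symm, (Gz k).qt2_cc_MRp h1]
      have e2 : constantCoeff ((Gz k).F (rho n ^ m • r) (el s n0 0)) = 0 :=
        (Gz k).qt2_cc_MRp h3 _
      have e3 : constantCoeff ((Gz k).F (rho n ^ m • r) r) = 0 := (Gz k).qt2_cc_MRp h3 _
      have e4 : (Gz k).F (rho n ^ m • el s n0 0) (el s n0 0) = 0 := by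
        rw [← el_smul, smul_zero, hGz k]
        simp only [map_zero, LinearMap.zero_apply, dem_zero hs', add_zero, mul_zero]
        rw [hD5, map_smul, hn0, smul_zero]
        simp only [map_zero, LinearMap.zero_apply, mul_zero, add_zero]
      rw [hL0, h2, smul_add]
      simp only [map_add, LinearMap.add_apply, e1, e2, e3, e4, map_zero, add_zero]
    rw [hiso, mul_zero, mul_zero]
    exact ⟨le_refl _, fun _ => hP⟩
  -- all the terms vanish
  have hsum' : 0 = (-1 : ℝ) ^ i * (c * constantCoeff (B.Fm.F (rho n ^ m • dot u) (dot u))) +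
      ∑ k, (-1 : ℝ) ^ i * ((-1 : ℝ) ^ (e k) *
        constantCoeff ((Gz k).F (((Lz k) ^ m) (ψ k u)) (ψ k u))) := by
    rw [← Finset.mul_sum, ← mul_add, ← hsum, mul_zero]
  have hsum0 : 0 ≤ ∑ k, (-1 : ℝ) ^ i * ((-1 : ℝ) ^ (e k) *
        constantCoeff ((Gz k).F (((Lz k) ^ m) (ψ k u)) (ψ k u))) :=
    Finset.sum_nonneg fun k _ => (htk k).1
  have hz0 : dot u ∈ B.O.MRp := ht0.2 (by linarith [ht0.1])
  have hzk : ∀ k, (-1 : ℝ) ^ i * ((-1 : ℝ) ^ (e k) *
        constantCoeff ((Gz k).F (((Lz k) ^ m) (ψ k u)) (ψ k u))) = 0 := by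
    intro k
    have h1 : ∑ k, (-1 : ℝ) ^ i * ((-1 : ℝ) ^ (e k) *
        constantCoeff ((Gz k).F (((Lz k) ^ m) (ψ k u)) (ψ k u))) = 0 := by
      linarith [ht0.1]
    exact (Finset.sum_eq_zero_iff_of_nonneg (fun k _ => (htk k).1)).mp h1 k (Finset.mem_univ k)
  -- `a ∈ B R_+`
  have haR : a ∈ B.O.MRp := by
    rw [hdot] at hz0
    have h1 : B.O.rmul (al 1 s) b ∈ B.O.MRp := by
      apply mem_MRp_of_rmul
      rw [al, map_sub, constantCoeff_X, constantCoeff_X, sub_zero]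
    have h2 := Submodule.sub_mem _ hz0 h1
    rwa [add_sub_cancel_right] at h2
  rw [hudef, el_mem_MRp hs']
  rcases i with _ | i
  · rw [hudef, el_mem_dg0 hs'] at hu
    rw [dg_zero_MRp hu.1 haR]
    exact Submodule.zero_mem _
  · rw [hudef, el_mem_dg hs'] at hu
    obtain ⟨a₁, ha₁, hr⟩ := MRs_al B.nice hs haR hu.1
    have h1 : a₁ ∈ B.O.MRp := by
      apply hinj i (by omega) a₁ ha₁
      intro k
      apply (htk k).2 (hzk k) (dk k a₁) (dk k (a - B.O.rmul (al 1 s) a₁))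
      · rw [map_sub, (hdk k).1.rmul]
        abel
      · exact BiMap_MRs (hdk k).1 hr
    have h2 := Submodule.add_mem _ hr ((MRs_al_iff B.nice hs a₁).mpr h1)
    rwa [sub_add_cancel] at h2

end KLFin
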