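import Mathlib
import Pool.Agent.KLFin.CDefs3
import Pool.Agent.KLFin.CB1
import Pool.Agent.KLFin.CE1
import Pool.Agent.KLFin.FR1
import Pool.Agent.KLFin.CB2
import Pool.Agent.KLFin.NI2

/-!
# Part C, block MN1: the unit object is a KL object of type `1` (MP_d9d356_co)
-/

open MvPolynomial

namespace KLFin

variable {n : ℕ} {κ : Fin n → ℕ}

namespace MN1

/-- the generator of the unit object -/
noncomputable def b1 (n : ℕ) : (Re n).M := ⟨fun _ => 1, trivial⟩

theorem mem_Le_one {y : Pm n} (h : y ∈ Le (Up κ) 1) : y = 1 := by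
  have h1 := Le_len h
  have h2 : len κ (1 : Pm n) = 0 := len_one
  exact h1.2 (by omega)

theorem lift_Re : LiftProp κ 1 (Re n) (b1 n) := by
  intro N _ e m hm hsupp
  have hs : ∀ i, N.π i ≠ 1 → m.1 i = 0 := fun i hi =>
    hsupp i (fun h => hi (mem_Le_one h))
  refine ⟨(LinearMap.toSpanSingleton (Rg n) N.M m).comp
    ((LinearMap.proj (R := Rg n) (φ := fun _ : Unit => Rg n) ()).comp (Re n).M.subtype),
    ?_, ?_, ?_⟩
  · intro j a
    ext1
    funext i
    have e1 : (((Re n).rmul (X j)) a).1 () = X j * a.1 () := by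
      change act 1 (X j) * a.1 () = X j * a.1 ()
      rw [act_one]
    have e2 : ∀ c : N.M, ((N.rmul (X j)) c).1 i = X (N.π i j) * c.1 i := by
      intro c
      rw [Obj.rmul_val, act_X]
    rw [e2]
    change (((Re n).rmul (X j)) a).1 () * m.1 i = X (N.π i j) * (a.1 () * m.1 i)
    rw [e1]
    by_cases hi : N.π i = 1
    · rw [hi]
      simp only [Equiv.Perm.coe_one, id_eq]
      ring
    · rw [hs i hi]; simp
  · intro k a ha
    constructor
    · intro j hj
      intro i
      change (a.1 () * m.1 i).IsHomogeneous j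
      have h1 : (a.1 ()).IsHomogeneous k := ha ()
      have h2 := h1.mul (hm i)
      have h3 : j = k + e := by exact_mod_cast hj
      rw [h3]; exact h2
    · intro hneg
      exfalso; omega
  · intro i _
    change (1 : Rg n) * m.1 i = m.1 i
    rw [one_mul]

theorem summand_refl (O : Obj n) : IsSummand O O := by
  refine ⟨LinearMap.id, LinearMap.id, fun j m => rfl, fun j m => rfl, ?_, ?_, fun m => rfl⟩
  · intro i a ha
    refine ⟨fun j hj => ?_, fun h => ?_⟩
    · have : j = i := by omega
      rw [this]; exact ha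
    · exfalso; omega
  · intro i a ha
    refine ⟨fun j hj => ?_, fun h => ?_⟩
    · have : j = i := by omega
      rw [this]; exact ha
    · exfalso; omega

theorem isHomogeneous_zero_eq {f : Rg n} (h : f.IsHomogeneous 0) : f = C (constantCoeff f) := by
  have h1 : f.totalDegree = 0 := by
    by_cases hf : f = 0
    · rw [hf]; simp
    · exact h.totalDegree hf
  exact totalDegree_eq_zero_iff_eq_C.mp h1

end MN1

theorem KLObj_one : Nonempty (KLObj κ (1 : Pm n)) := by
  classical
  have hl : len κ (1 : Pm n) = 0 := len_one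
  have key : ∀ d, d = 0 → ∃ G : Frm (Re n) d, ∀ a b : (Re n).M, G.F a b = a.1 () * b.1 () := by
    rintro d rfl
    exact Frm_Re
  obtain ⟨G, hG⟩ := key _ hl
  refine ⟨⟨Re n, G, MN1.b1 n, fun y => if y = 1 then 1 else 0, Nice_Re, ?_, ?_, ?_, ?_, ?_, ?_,
    ?_, ?_, ?_, ?_, ?_, ?_⟩⟩
  · intro m i hi
    exfalso
    exact hi Relation.ReflTransGen.refl
  · intro i
    exact isHomogeneous_one _ _
  · exact ⟨(), rfl, one_ne_zero⟩
  · intro m
    refine ⟨m.1 (), fun i _ => ?_⟩
    change m.1 i = m.1 () * 1
    rw [mul_one]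
    rfl
  · rw [hl]
    exact CharRel_Re
  · simp
  · intro y hy h
    exact absurd (if_neg hy) h
  · intro y hy
    have : y ≠ 1 := by
      rintro rfl
      exact hy Relation.ReflTransGen.refl
    simp [this]
  · rw [hl]
    have h1 : (fun y : Pm n => ((if y = 1 then 1 else 0 : Polynomial ℕ)).map
        (Nat.castRingHom ℤ)) = (fun y : Pm n => if y = 1 then (1 : Polynomial ℤ) else 0) := by
      funext y
      split_ifs <;> simp
    rw [h1]
    exact SD.one
  · exact MN1.lift_Re
  · exact ⟨[], by simp, rfl, by simp [hl], MN1.summand_refl _⟩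
  · intro i hi b hb _
    have hi0 : i = 0 := by omega
    subst hi0
    have hc : b.1 () = C (constantCoeff (b.1 ())) := MN1.isHomogeneous_zero_eq (hb ())
    by_cases h0 : constantCoeff (b.1 ()) = 0
    · left
      have : b = 0 := by
        ext1; funext i
        change b.1 () = 0
        rw [hc, h0, C_0]
      rw [this]
      exact Submodule.zero_mem _
    · right
      have h2 : len κ (1 : Pm n) - 2 * 0 = 0 := by omega
      rw [h2, pow_zero, pow_zero, one_mul, Module.End.one_apply, hG, map_mul]
      exact mul_self_pos.mpr h0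

theorem WProp_one (B : KLObj κ (1 : Pm n)) : WProp κ B := by
  have hl : len κ (1 : Pm n) = 0 := len_one
  refine ⟨0, fun k => k.elim0, fun k => k.elim0, fun k => k.elim0, fun k => k.elim0,
    fun k => k.elim0, fun k => k.elim0, ?_, ?_⟩
  · intro b b'
    rw [Finset.univ_eq_empty, Finset.sum_empty]
    have h1 : rho n • b = B.O.rmul (rho n) b := by
      ext1; funext i
      change rho n * b.1 i = act (B.O.π i) (rho n) * b.1 i
      by_cases hi : B.O.π i = 1
      · rw [hi, act_one]
      · rw [B.supp b i (fun h => hi (MN1.mem_Le_one h))]; simp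
    rw [h1, B.Fm.right, inv_one, act_one, sub_self]
  · intro i hi
    rw [hl] at hi
    exact absurd hi (Nat.not_lt_zero _)

end KLFin
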