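import Mathlib
import Pool.Agent.KLFin.CS
import Pool.Agent.KLFin.CD

/-!
# Block KL-MO (MP_d9d356_co): monotonicity of the ranks of the local stalks (helper30)
-/

open MvPolynomial

namespace KLFin

variable {n : ℕ} {κ : Fin n → ℕ}

namespace MO

/-- independent vectors in a function space over a domain have a nonzero minor (after a linear
change of coordinates) -/
theorem exists_coord {R : Type} [CommRing R] [IsDomain R] {I : Type} [Fintype I] {r : ℕ}
    (b : Fin r → (I → R)) (hb : LinearIndependent R b) :
    ∃ G : (I → R) →ₗ[R] (Fin r → R), (Matrix.of fun k l => G (b k) l).det ≠ 0 := by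
  classical
  let K := FractionRing R
  let ι : (I → R) →ₗ[R] (I → K) :=
    { toFun := fun m i => algebraMap R K (m i)
      map_add' := by intro a b; funext i; simp
      map_smul' := by intro a b; funext i; simp [Algebra.smul_def] }
  have hι : LinearMap.ker ι = ⊥ := by
    rw [LinearMap.ker_eq_bot]
    intro a b hab
    funext i
    exact IsFractionRing.injective R K (congrFun hab i)
  have h1 : LinearIndependent R (fun k => ι (b k)) := hb.map' ι hι
  have h2 : LinearIndependent K (fun k => ι (b k)) := (LinearIndependent.iff_fractionRing R K).1 h1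
  have h3 : LinearMap.ker (Fintype.linearCombination K (fun k => ι (b k))) = ⊥ := by
    rw [LinearMap.ker_eq_bot']
    intro m hm
    rw [Fintype.linearIndependent_iff] at h2
    funext k
    exact h2 m (by simpa [Fintype.linearCombination_apply] using hm) k
  obtain ⟨g, hg⟩ := LinearMap.exists_leftInverse_of_injective _ h3
  have hgk : ∀ k, g (ι (b k)) = Pi.single k 1 := by
    intro k
    have := LinearMap.congr_fun hg (Pi.single k 1)
    simpa [Fintype.linearCombination_apply_single] using this
  obtain ⟨D, hD⟩ := IsLocalization.exist_integer_multiples_of_finite (nonZeroDivisors R)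
    (fun p : I × Fin r => g (Pi.single p.1 1) p.2)
  choose H hH using hD
  let G : (I → R) →ₗ[R] (Fin r → R) :=
    { toFun := fun m l => ∑ i, H (i, l) * m i
      map_add' := by
        intro a b; funext l; simp [mul_add, Finset.sum_add_distrib]
      map_smul' := by
        intro a b; funext l
        simp only [Pi.smul_apply, smul_eq_mul, RingHom.id_apply, Finset.mul_sum]
        exact Finset.sum_congr rfl fun i _ => by ring }
  refine ⟨G, ?_⟩
  have hG : ∀ k l, G (b k) l = if l = k then (D : R) else 0 := by
    intro k l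
    apply IsFractionRing.injective R K
    have e1 : g (ι (b k)) = ∑ i, algebraMap R K (b k i) • g (Pi.single i 1) := by
      have : ι (b k) = ∑ i, algebraMap R K (b k i) • (Pi.single i 1 : I → K) := by
        funext j
        simp [ι, Finset.sum_apply, Pi.single_apply, Algebra.smul_def]
      rw [this, map_sum]
      simp
    have e2 : algebraMap R K (G (b k) l) = algebraMap R K D * g (ι (b k)) l := by
      rw [e1]
      simp only [G, LinearMap.coe_mk, AddHom.coe_mk, map_sum, map_mul, Finset.sum_apply,
        Pi.smul_apply, smul_eq_mul, Finset.mul_sum]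
      refine Finset.sum_congr rfl fun i _ => ?_
      have := hH (i, l)
      rw [this, Algebra.smul_def]
      ring
    rw [e2, hgk]
    by_cases hlk : l = k
    · subst hlk; simp
    · simp [hlk]
  have hM : (Matrix.of fun k l => G (b k) l) = (D : R) • (1 : Matrix (Fin r) (Fin r) R) := by
    ext k l
    rw [Matrix.of_apply, hG]
    by_cases h : l = k
    · subst h; simp
    · simp [h, Matrix.one_apply_ne (Ne.symm h)]
  rw [hM, Matrix.det_smul, Matrix.det_one, mul_one]
  exact pow_ne_zero _ (nonZeroDivisors.coe_ne_zero D)

/-- a nonzero vector is a power of `q` times a vector which is not divisible by `q` -/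
theorem exists_primitive {r : ℕ} {q : Rg n} (hq : Prime q) (c : Fin r → Rg n) (hc : c ≠ 0) :
    ∃ (N : ℕ) (c' : Fin r → Rg n), (∀ k, c k = q ^ N * c' k) ∧ ∃ k, ¬ q ∣ c' k := by
  classical
  by_contra hcon
  push Not at hcon
  have h : ∀ N, ∀ k, q ^ N ∣ c k := by
    intro N
    induction N with
    | zero => intro k; simp
    | succ N ih =>
      choose c' hc' using ih
      intro k
      have := hcon N c' hc' k
      rw [hc' k, pow_succ]
      exact mul_dvd_mul_left _ this
  apply hc
  funext k
  by_contra hk
  have hfin : FiniteMultiplicity q (c k) := FiniteMultiplicity.of_not_isUnit hq.not_isUnit hk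
  exact hfin.not_pow_dvd_of_multiplicity_lt (Nat.lt_succ_self _) (h _ k)

/-- more values over `y` than the rank are linearly dependent -/
theorem exists_rel {O : Obj n} {y : Pm n} {r k : ℕ} {b : Fin k → (O.I → Rg n)}
    (hb : Submodule.span (Rg n) (Set.range b) = O.Dsub (Dn κ) y) (hkr : k < r)
    (u : Fin r → (O.I → Rg n)) (hu : ∀ j, u j ∈ O.M) :
    ∃ c : Fin r → Rg n, c ≠ 0 ∧ ∀ i, O.π i = y → ∑ j, c j * u j i = 0 := by
  classical
  obtain ⟨s, N, hs, hsy, hsw, -⟩ := exists_sep y
  let v : Fin r → (O.I → Rg n) := fun j i => s (O.π i) * u j i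
  have hvM : ∀ j, v j ∈ O.M := fun j => hs O (u j) (hu j)
  have hvD : ∀ j, v j ∈ O.Dsub (Dn κ) y := by
    intro j
    refine ⟨v j, ⟨hvM j, ?_⟩, ?_⟩
    · intro i hi
      have : O.π i ≠ y := by
        rintro rfl
        exact hi Relation.ReflTransGen.refl
      simp [v, hsw _ this]
    · funext i
      by_cases h : O.π i = y
      · simp [Obj.res, h]
      · simp [Obj.res, h, v, hsw _ h]
  have hdep : ¬ LinearIndependent (Rg n) v := by
    intro hli
    have h1 := linearIndependent_le_span' v hli (Set.range b) (by
      rintro _ ⟨j, rfl⟩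
      rw [SetLike.mem_coe, hb]
      exact hvD j)
    rw [Cardinal.mk_fin] at h1
    have h2 : Fintype.card (Set.range b) ≤ k := by
      simpa using Fintype.card_range_le b
    have h3 : r ≤ Fintype.card (Set.range b) := by exact_mod_cast h1
    omega
  rw [Fintype.not_linearIndependent_iff] at hdep
  obtain ⟨c, hc, j, hj⟩ := hdep
  refine ⟨c, fun h => hj (congrFun h j), ?_⟩
  intro i hi
  have := congrFun hc i
  simp only [v, Finset.sum_apply, Pi.smul_apply, smul_eq_mul, Pi.zero_apply, hi] at this
  have h2 : s y * ∑ j, c j * u j i = 0 := by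
    rw [Finset.mul_sum, ← this]
    exact Finset.sum_congr rfl fun j _ => by ring
  exact (mul_eq_zero.1 h2).resolve_left hsy

end MO

/-- monotonicity of the ranks -/
theorem Nice.mono {O : Obj n} (h : Nice κ O) {d : ℕ} {P : Pm n → Polynomial ℕ}
    (hP : CharRel κ d O P) {y z : Pm n} (hyz : Up κ y z) :
    (P z).eval 1 ≤ (P y).eval 1 := by
  classical
  obtain ⟨k, b, e, -, -, hbs, hbp⟩ := hP.up y
  obtain ⟨r, b', e', -, hli', hbs', hbp'⟩ := hP.up z
  have hk : (P y).eval 1 = k := by
    have := congrArg (Polynomial.eval 1) hbp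
    simpa [Polynomial.eval_mul, Polynomial.eval_pow, Polynomial.eval_finsetSum] using this
  have hr : (P z).eval 1 = r := by
    have := congrArg (Polynomial.eval 1) hbp'
    simpa [Polynomial.eval_mul, Polynomial.eval_pow, Polynomial.eval_finsetSum] using this
  rw [hk, hr]
  by_contra hlt
  push Not at hlt
  obtain ⟨a, c, hac, hκ, hy, rfl⟩ := hyz
  set z : Pm n := Equiv.swap a c * y with hz
  set q : Rg n := X a - X c with hq
  have hqp : Prime q := root_prime hac.ne
  obtain ⟨G, hG⟩ := MO.exists_coord b' hli'
  -- the determinant of a family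
  let A : (Fin r → (O.I → Rg n)) → Matrix (Fin r) (Fin r) (Rg n) :=
    fun u => Matrix.of fun j l => G (Obj.res O.π z (u j)) l
  have key : ∀ N : ℕ, ∀ u : Fin r → (O.I → Rg n), (∀ j, u j ∈ O.M) → (A u).det ≠ 0 →
      q ^ N ∣ (A u).det := by
    intro N
    induction N with
    | zero => intro u _ _; simp
    | succ N ih =>
      intro u hu hdet
      obtain ⟨c₀, hc₀, hrel₀⟩ := MO.exists_rel hbs hlt u hu
      obtain ⟨N', c', hc', k₁, hk₁⟩ := MO.exists_primitive hqp c₀ hc₀
      have hrel : ∀ i, O.π i = y → ∑ j, c' j * u j i = 0 := by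
        intro i hi
        have h1 := hrel₀ i hi
        have h2 : q ^ N' * ∑ j, c' j * u j i = 0 := by
          rw [Finset.mul_sum, ← h1]
          exact Finset.sum_congr rfl fun j _ => by rw [hc' j]; ring
        exact (mul_eq_zero.1 h2).resolve_left (pow_ne_zero _ hqp.ne_zero)
      have hw : (∑ j, c' j • u j) ∈ O.M :=
        O.M.sum_mem fun j _ => O.M.smul_mem _ (hu j)
      obtain ⟨p, hp, v, hv, hpv⟩ := h.star a c hac hκ y hy (∑ j, c' j • u j) hw (by
        intro i hi
        simpa [Finset.sum_apply] using hrel i hi)
      have hres : p • Obj.res O.π z (∑ j, c' j • u j) = q • Obj.res O.π z v := by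
        funext i
        by_cases hi : O.π i = z
        · have := hpv i hi
          simp only [Obj.res, LinearMap.coe_mk, AddHom.coe_mk, Pi.smul_apply, hi, if_true,
            smul_eq_mul]
          exact this
        · simp [Obj.res, hi]
      let u' : Fin r → (O.I → Rg n) := Function.update u k₁ v
      have hu' : ∀ j, u' j ∈ O.M := by
        intro j
        by_cases hj : j = k₁
        · subst hj; simpa [u'] using hv
        · simpa [u', hj] using hu j
      have hA' : A u' = (A u).updateRow k₁ (G (Obj.res O.π z v)) := by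
        ext j l
        by_cases hj : j = k₁
        · subst hj; simp [A, u']
        · simp [A, u', hj]
      have hdet' : q * (A u').det = p * (c' k₁ * (A u).det) := by
        rw [hA', ← Matrix.det_updateRow_smul, ← smul_eq_mul (c' k₁),
          ← Matrix.det_updateRow_sum (A u) k₁ c', ← Matrix.det_updateRow_smul]
        have e1 : q • G (Obj.res O.π z v) = G (q • Obj.res O.π z v) := by rw [map_smul]
        have e2 : (∑ j, c' j • A u j) = G (Obj.res O.π z (∑ j, c' j • u j)) := by
          rw [map_sum, map_sum]
          refine Finset.sum_congr rfl fun j _ => ?_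
          rw [map_smul, map_smul]
          rfl
        rw [e1, ← hres, map_smul, e2]
      have hne : (A u').det ≠ 0 := by
        intro h0
        rw [h0, mul_zero] at hdet'
        rcases mul_eq_zero.1 hdet'.symm with h1 | h1
        · exact hp (h1 ▸ dvd_zero _)
        rcases mul_eq_zero.1 h1 with h2 | h2
        · exact hk₁ (h2 ▸ dvd_zero _)
        · exact hdet h2
      have h3 : q ^ (N + 1) ∣ (p * c' k₁) * (A u).det := by
        rw [mul_assoc, ← hdet', pow_succ']
        exact mul_dvd_mul_left _ (ih u' hu' hne)
      exact hqp.pow_dvd_of_dvd_mul_left _ (fun h4 => (hqp.dvd_or_dvd h4).elim hp hk₁) h3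
  -- start with the basis
  have hstart : ∀ j, ∃ m ∈ O.M, Obj.res O.π z m = b' j := by
    intro j
    have : b' j ∈ O.Dsub (Dn κ) z := by
      rw [← hbs']; exact Submodule.subset_span ⟨j, rfl⟩
    obtain ⟨m, hm, hmj⟩ := this
    exact ⟨m, hm.1, hmj⟩
  choose u₀ hu₀ hu₀' using hstart
  have hdet₀ : (A u₀).det ≠ 0 := by
    have : A u₀ = Matrix.of fun k l => G (b' k) l := by
      ext k l; simp [A, hu₀']
    rw [this]; exact hG
  have hfin : FiniteMultiplicity q (A u₀).det :=
    FiniteMultiplicity.of_not_isUnit hqp.not_isUnit hdet₀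
  exact hfin.not_pow_dvd_of_multiplicity_lt (Nat.lt_succ_self _) (key _ u₀ hu₀ hdet₀)

end KLFin
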